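import Pool.Agent.TE.E2

set_option autoImplicit false

open WeierstrassCurve.Affine
open scoped Classical Polynomial

namespace TE

/-! ## [TE-E4] the Galois action on the points

`Crv.act`, `Crv.inc` are `WeierstrassCurve.Affine.Point.map` (lemmas `map_some`, `map_zero`, `map_map`, `map_id`, `map_injective`). -/

variable {F : Type*} [Field F] (C : Crv F) {K : Type*} [Field K] [Algebra F K]

theorem e4_act_some (g : K ≃ₐ[F] K) {x y : K} (h : (C.W⁄K).Nonsingular x y) :
    ∃ h' : (C.W⁄K).Nonsingular (g x) (g y), C.act g (.some x y h) = .some (g x) (g y) h' := ⟨_, rfl⟩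

theorem e4_some_congr {x y x' y' : K} {h : (C.W⁄K).Nonsingular x y} {h' : (C.W⁄K).Nonsingular x' y'}
    (hx : x = x') (hy : y = y') : (Point.some x y h : C.Pt K) = Point.some x' y' h' := by
  subst hx
  subst hy
  rfl

theorem e4_inj (g : K ≃ₐ[F] K) : Function.Injective (C.act g) :=
  WeierstrassCurve.Affine.Point.map_injective (W' := C.W) (g : K →ₐ[F] K)

theorem act_one (P : C.Pt K) : C.act (1 : K ≃ₐ[F] K) P = P := by
  cases P <;> rfl

theorem act_mul (g h : K ≃ₐ[F] K) (P : C.Pt K) : C.act (g * h) P = C.act g (C.act h P) := by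
  cases P <;> rfl

theorem act_inv_act (g : K ≃ₐ[F] K) (P : C.Pt K) : C.act g⁻¹ (C.act g P) = P ∧ C.act g (C.act g⁻¹ P) = P := by
  rw [← act_mul, ← act_mul, inv_mul_cancel, mul_inv_cancel, act_one]
  exact ⟨rfl, rfl⟩

theorem act_pt (g : K ≃ₐ[F] K) {x y : K} (h : y ^ 2 = x * (x ^ 2 + C.A K * x + C.B K)) :
    ∃ h' : _, C.act g (C.pt x y h) = C.pt (g x) (g y) h' := by
  have h' : (g y) ^ 2 = g x * ((g x) ^ 2 + C.A K * g x + C.B K) := by
    have h1 := congrArg g h
    rw [map_pow, map_mul, map_add, map_add, map_mul, map_pow] at h1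
    have hA : g (C.A K) = C.A K := g.commutes _
    have hB : g (C.B K) = C.B K := g.commutes _
    rwa [hA, hB] at h1
  exact ⟨h', rfl⟩

theorem xx_act (g : K ≃ₐ[F] K) (P : C.Pt K) : C.xx (C.act g P) = g (C.xx P) ∧ C.yy (C.act g P) = g (C.yy P) := by
  cases P with
  | zero => exact ⟨(map_zero g).symm, (map_zero g).symm⟩
  | some x y h => exact ⟨rfl, rfl⟩

theorem act_T (g : K ≃ₐ[F] K) : C.act g (C.T K) = C.T K := by
  obtain ⟨h', e⟩ := act_pt C g (x := (0 : K)) (y := 0) (by simp)
  have e1 : C.act g (C.T K) = C.pt (g 0) (g 0) h' := e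
  rw [e1]
  exact e4_some_congr C (map_zero g) (map_zero g)

theorem act_AB (g : K ≃ₐ[F] K) : g (C.A K) = C.A K ∧ g (C.B K) = C.B K := by
  exact ⟨g.commutes _, g.commutes _⟩

/-- `act g P` is `0` or `T` iff `P` is. -/
theorem ch_act (g : K ≃ₐ[F] K) (P : C.Pt K) : C.ch (C.act g P) = C.ch P := by
  have h1 : C.act g P = 0 ↔ P = 0 := by
    constructor
    · intro h
      apply e4_inj C g
      rw [h, map_zero]
    · rintro rfl
      exact map_zero _
  have h2 : C.act g P = C.T K ↔ P = C.T K := by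
    constructor
    · intro h
      apply e4_inj C g
      rw [h, act_T]
    · rintro rfl
      exact act_T C g
  unfold Crv.ch
  simp only [h1, h2]

theorem gf_act (g : K ≃ₐ[F] K) (P : C.Pt K) : C.gf (C.act g P) = g (C.gf P) := by
  obtain ⟨h1, h2⟩ := xx_act C g P
  unfold Crv.gf
  rw [h1, h2, map_div₀, map_sub, map_pow, map_mul, map_ofNat, (act_AB C g).2]

theorem hf_act (g : K ≃ₐ[F] K) (P : C.Pt K) : C.hf (C.act g P) = g (C.hf P) := by
  obtain ⟨h1, h2⟩ := xx_act C g P
  unfold Crv.hf
  rw [h1, h2, map_div₀]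

theorem wf_act (g : K ≃ₐ[F] K) (P : C.Pt K) : C.wf (C.act g P) = g (C.wf P) := by
  obtain ⟨h1, h2⟩ := xx_act C g P
  unfold Crv.wf
  rw [h1, map_sub, map_div₀, (act_AB C g).2]

/-- a point with coordinates fixed by `g` is fixed by `g` -/
theorem act_eq_self (g : K ≃ₐ[F] K) (P : C.Pt K) (hx : g (C.xx P) = C.xx P) (hy : g (C.yy P) = C.yy P) :
    C.act g P = P := by
  cases P with
  | zero => rfl
  | some x y h => exact e4_some_congr C hx hy

theorem act_inc (g : K ≃ₐ[F] K) (P : C.Pt F) : C.act g (C.inc K P) = C.inc K P := by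
  cases P with
  | zero => rfl
  | some x y h => exact e4_some_congr C (g.commutes _) (g.commutes _)

theorem inc_coord (P : C.Pt F) : C.xx (C.inc K P) = algebraMap F K (C.xx P) ∧
    C.yy (C.inc K P) = algebraMap F K (C.yy P) ∧ (C.inc K P = 0 ↔ P = 0) := by
  refine ⟨?_, ?_, ?_⟩
  · cases P with
    | zero => exact (map_zero _).symm
    | some x y h => rfl
  · cases P with
    | zero => exact (map_zero _).symm
    | some x y h => rfl
  · constructor
    · intro h
      apply WeierstrassCurve.Affine.Point.map_injective (W' := C.W) (Algebra.ofId F K)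
      exact h
    · rintro rfl
      exact map_zero _

/-- `E(K)^{Gal(K/F)} = E(F)` -/
theorem exists_inc [IsGalois F K] (P : C.Pt K) (h : ∀ g : K ≃ₐ[F] K, C.act g P = P) :
    ∃ P0 : C.Pt F, C.inc K P0 = P := by
  cases P with
  | zero => exact ⟨0, rfl⟩
  | some x y hxy =>
    have hx : x ∈ Set.range (algebraMap F K) := by
      rw [InfiniteGalois.mem_range_algebraMap_iff_fixed]
      intro g
      have h1 := h g
      have h2 : C.xx (C.act g (.some x y hxy)) = C.xx (.some x y hxy) := by rw [h1]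
      exact h2
    have hy : y ∈ Set.range (algebraMap F K) := by
      rw [InfiniteGalois.mem_range_algebraMap_iff_fixed]
      intro g
      have h1 := h g
      have h2 : C.yy (C.act g (.some x y hxy)) = C.yy (.some x y hxy) := by rw [h1]
      exact h2
    obtain ⟨x0, rfl⟩ := hx
    obtain ⟨y0, rfl⟩ := hy
    have h3 : (C.W⁄F).Nonsingular x0 y0 :=
      (WeierstrassCurve.Affine.baseChange_nonsingular (W := C.W) (f := Algebra.ofId F K)
        (Algebra.ofId F K).injective x0 y0).1 hxy
    exact ⟨.some x0 y0 h3, rfl⟩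

/-- the points are defined over finite extensions: `L = F(x(P), y(P))` -/
theorem act_fin [Algebra.IsAlgebraic F K] (P : C.Pt K) : ∃ L : IntermediateField F K, FiniteDimensional F L ∧
    ∀ g : K ≃ₐ[F] K, (∀ x ∈ L, g x = x) → C.act g P = P := by
  refine ⟨IntermediateField.adjoin F {C.xx P, C.yy P}, ?_, ?_⟩
  · exact IntermediateField.finiteDimensional_adjoin fun x _ => Algebra.IsIntegral.isIntegral x
  · intro g hg
    refine act_eq_self C g P (hg _ ?_) (hg _ ?_)
    · exact IntermediateField.subset_adjoin _ _ (by simp)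
    · exact IntermediateField.subset_adjoin _ _ (by simp)

end TE
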