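import Pool.Agent.TE.U1

set_option autoImplicit false

open scoped Classical Polynomial

namespace TE

/-! ## [TE-L1] the local lemma -/

theorem l1_key {F Ω : Type*} [Field F] [Field Ω] [Algebra F Ω] (O : ValuationSubring Ω) (h2 : Uni O (2 : Ω))
    (n : Ω ≃ₐ[F] Ω) (hres : ∀ x ∈ O, Mx O (n x - x)) (z : Ω) (hz : O.valuation z = 1) (h : n z = -z) : False := by
  have h3 := hres z ((mem_iff O z).2 hz.le)
  rw [mx_iff, h] at h3
  have h4 : -z - z = -(2 * z) := by ring
  rw [h4, Valuation.map_neg, map_mul, (uni_iff O 2).1 h2, hz, one_mul] at h3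
  exact lt_irrefl _ h3

/-- Let `n` be an automorphism of `Ω` with `n(O) = O` acting trivially on the residue field, `2` a unit of `O`, `c ∈ O`, `d` a unit,
`g ≠ 0`, `V² = g² (g⁴ + c g² + d)`, and `n` fixes `g²`, `V`. Then `n g = g`.

Proof. `(n g)² = g²`, so `n g = ± g`; suppose `n g = -g`. (No assumption `n c = c` is needed.)
(0) If `z` is a unit of `O` and `n z = -z` then `-2 z = n z - z ∈ 𝔪`, contradiction with `2`, `z` units.
(1) If `g` is a unit: contradiction by (0).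
(2) If `g ∉ O`: `s = g⁻¹ ∈ 𝔪`, `z = V s³` satisfies `z² = V² s⁶ = 1 + c s² + d s⁴`, a unit; so `z` is a unit
(valuation rings are integrally closed / use the valuation), and `n z = V (-s)³ = -z`: contradiction by (0).
(3) If `g ∈ 𝔪`: `z = V/g`, `z² = g⁴ + c g² + d` is a unit (`d` unit, rest in `𝔪`), so `z` is a unit, `n z = -z`: contradiction. -/
theorem local_lemma {F Ω : Type*} [Field F] [Field Ω] [Algebra F Ω] (O : ValuationSubring Ω) (h2 : Uni O (2 : Ω))
    (n : Ω ≃ₐ[F] Ω) (hO : ∀ x : Ω, n x ∈ O ↔ x ∈ O) (hres : ∀ x ∈ O, Mx O (n x - x)) (c d g V : Ω)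
    (hc : c ∈ O) (hd : Uni O d) (hg : g ≠ 0) (hV : V ^ 2 = g ^ 2 * ((g ^ 2) ^ 2 + c * g ^ 2 + d))
    (hg2 : n (g ^ 2) = g ^ 2) (hVn : n V = V) : n g = g := by
  have h0 : n g = g ∨ n g = -g := by
    have h3 : n g ^ 2 = g ^ 2 := by rw [← map_pow, hg2]
    exact sq_eq_sq_iff_eq_or_eq_neg.1 h3
  rcases h0 with h0 | h0
  · exact h0
  exfalso
  have hcv : O.valuation c ≤ 1 := (mem_iff O c).1 hc
  have hdv : O.valuation d = 1 := (uni_iff O d).1 hd
  have hsq : ∀ z : Ω, O.valuation (z ^ 2) = 1 → O.valuation z = 1 := by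
    intro z hz
    rw [map_pow] at hz
    exact (pow_eq_one_iff_of_nonneg zero_le' two_ne_zero).1 hz
  rcases lt_trichotomy (O.valuation g) 1 with hlt | heq | hgt
  · -- `g ∈ 𝔪`
    have hz2 : (V / g) ^ 2 = (g ^ 4 + c * g ^ 2) + d := by
      rw [div_pow, hV]
      field_simp
    have hv : O.valuation (g ^ 4 + c * g ^ 2) < 1 := by
      refine Valuation.map_add_lt _ ?_ ?_
      · rw [map_pow]
        exact pow_lt_one₀ zero_le' hlt (by norm_num)
      · rw [map_mul, map_pow, mul_comm]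
        exact mul_lt_one_of_lt_of_le (pow_lt_one₀ zero_le' hlt two_ne_zero) hcv
    have hz : O.valuation (V / g) = 1 := by
      apply hsq
      rw [hz2, Valuation.map_add_eq_of_lt_right _ (by rw [hdv]; exact hv), hdv]
    refine l1_key O h2 n hres (V / g) hz ?_
    rw [map_div₀, hVn, h0, div_neg]
  · exact l1_key O h2 n hres g heq h0
  · -- `g ∉ O`
    have hs : O.valuation g⁻¹ < 1 := by
      rw [map_inv₀]
      exact inv_lt_one_of_one_lt₀ hgt
    have hz2 : (V * g⁻¹ ^ 3) ^ 2 = 1 + (c * g⁻¹ ^ 2 + d * g⁻¹ ^ 4) := by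
      rw [mul_pow, hV]
      field_simp
      ring
    have hv : O.valuation (c * g⁻¹ ^ 2 + d * g⁻¹ ^ 4) < 1 := by
      refine Valuation.map_add_lt _ ?_ ?_
      · rw [map_mul, map_pow, mul_comm]
        exact mul_lt_one_of_lt_of_le (pow_lt_one₀ zero_le' hs two_ne_zero) hcv
      · rw [map_mul, map_pow, hdv, one_mul]
        exact pow_lt_one₀ zero_le' hs (by norm_num)
    have hz : O.valuation (V * g⁻¹ ^ 3) = 1 := by
      apply hsq
      rw [hz2, Valuation.map_one_add_of_lt _ hv]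
    refine l1_key O h2 n hres (V * g⁻¹ ^ 3) hz ?_
    rw [map_mul, map_pow, map_inv₀, hVn, h0]
    rw [inv_neg]
    ring

/-- A unit with `n z = z ∨ n z = -z` is fixed. -/
theorem local_unit {F Ω : Type*} [Field F] [Field Ω] [Algebra F Ω] (O : ValuationSubring Ω) (h2 : Uni O (2 : Ω))
    (n : Ω ≃ₐ[F] Ω) (hres : ∀ x ∈ O, Mx O (n x - x)) (z : Ω) (hz : Uni O (z ^ 2)) (h : n z = z ∨ n z = -z) :
    n z = z := by
  rcases h with h | h
  · exact h
  exfalso
  rw [uni_iff, map_pow] at hz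
  exact l1_key O h2 n hres z ((pow_eq_one_iff_of_nonneg zero_le' two_ne_zero).1 hz) h

end TE
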