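import Pool.Agent.TE.L2a

set_option autoImplicit false

open scoped Classical Polynomial

namespace TE

/-! ## [TE-L2b] decomposition groups in `N` act trivially on the residue fields -/

variable {k Ω : Type*} [Field k] [Field Ω] [Algebra k Ω] [Algebra (RatFunc k) Ω] [IsScalarTower k (RatFunc k) Ω]
  [IsSepClosure (RatFunc k) Ω]

/-- the relative algebraic closure `k^s` of `k` in `Ω` is separably closed (a separable polynomial over it splits in `Ω`, and its
roots are algebraic over `k`) -/
theorem ks_sepClosed : IsSepClosed (algebraicClosure k Ω) := by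
  have : IsSepClosed Ω := IsSepClosure.sep_closed (RatFunc k)
  apply IsSepClosed.of_exists_root
  intro p hm hirr hsep
  obtain ⟨x, hx⟩ := IsSepClosed.exists_aeval_eq_zero (K := Ω) p
    (by rw [Polynomial.degree_eq_natDegree hirr.ne_zero]; exact_mod_cast hirr.natDegree_pos.ne') hsep
  have hxalg : IsAlgebraic (algebraicClosure k Ω) x := ⟨p, hirr.ne_zero, hx⟩
  have hxk : IsAlgebraic k x := hxalg.restrictScalars k
  refine ⟨⟨x, mem_algebraicClosure_iff.mpr hxk⟩, ?_⟩
  apply (algebraMap (algebraicClosure k Ω) Ω).injective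
  rw [map_zero, ← Polynomial.eval₂_at_apply]
  exact hx

/-- elements of `Ω` algebraic over `k` lie in `O` -/
theorem ks_mem (O : ValuationSubring Ω) (hO : Pl k O) (x : Ω) (hx : IsAlgebraic k x) : x ∈ O := by
  let f : k →+* O := (algebraMap k Ω).codRestrict O.toSubring hO.1
  have hint : IsIntegral O x := by
    obtain ⟨p, hp, hpx⟩ := hx.isIntegral
    refine ⟨p.map f, hp.map f, ?_⟩
    rw [Polynomial.eval₂_map]
    exact hpx
  obtain ⟨y, hy⟩ := IsIntegrallyClosed.isIntegral_iff.mp hint
  rw [← hy]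
  exact y.2

/-- `n ∈ N` with `n(O) = O` acts trivially on the residue field of `O`.
Proof. Let `κ` be the residue field of `O`. `k^s ⊆ O` (`ks_mem`), so `κ` is an extension of `k^s`, algebraic by `res_alg`; since `k^s` is
separably closed, `κ/k^s` is purely inseparable (`IsSepClosed` and algebraic: Mathlib instance in
`FieldTheory/PurelyInseparable/Basic.lean`). So for `x ∈ O` there are `q = p^e` (`p` the exponential characteristic, `ringExpChar`) and
`c ∈ k^s` with `x^q - c ∈ 𝔪_O`. Apply `n` (`n(𝔪_O) = 𝔪_O`, `n c = c`): `(n x)^q - c ∈ 𝔪_O`. Subtract: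
`(n x - x)^q = (n x)^q - x^q ∈ 𝔪_O` (Frobenius), hence `n x - x ∈ 𝔪_O`. -/
theorem res_trivial (O : ValuationSubring Ω) (hO : Pl k O) (n : Gm k Ω) (hn : n ∈ NN k Ω) (hs : Stb O n) :
    ∀ x ∈ O, Mx O (n x - x) := by
  intro x hx
  have := ks_sepClosed (k := k) (Ω := Ω)
  -- the maximal ideal is stable
  have huni : ∀ y : Ω, Uni O (n y) → Uni O y := by
    rintro y ⟨h1, h2, h3⟩
    refine ⟨(hs y).mp h1, ?_, ?_⟩
    · rw [← map_inv₀] at h2
      exact (hs _).mp h2
    · rintro rfl
      exact h3 (map_zero n)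
  have hmx : ∀ y : Ω, Mx O y → Mx O (n y) := by
    rintro y ⟨h1, h2⟩
    exact ⟨(hs y).mpr h1, fun h => h2 (huni y h)⟩
  let f : algebraicClosure k Ω →+* O :=
    (algebraMap (algebraicClosure k Ω) Ω).codRestrict O.toSubring
      fun c => ks_mem O hO c (mem_algebraicClosure_iff.mp c.2)
  let : Algebra (algebraicClosure k Ω) (IsLocalRing.ResidueField O) :=
    ((IsLocalRing.residue O).comp f).toAlgebra
  -- the valuation of an element of the maximal ideal
  have hmaxi : ∀ y : O, IsLocalRing.residue O y = 0 → Mx O (y : Ω) := by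
    intro y hy
    rw [IsLocalRing.residue_eq_zero_iff] at hy
    rw [mx_iff]
    exact (O.valuation_lt_one_iff y).mp hy
  have hmaxi' : ∀ y : O, Mx O (y : Ω) → IsLocalRing.residue O y = 0 := by
    intro y hy
    rw [IsLocalRing.residue_eq_zero_iff]
    exact (O.valuation_lt_one_iff y).mpr ((mx_iff O _).mp hy)
  have halg : Algebra.IsAlgebraic (algebraicClosure k Ω) (IsLocalRing.ResidueField O) := by
    constructor
    intro z
    obtain ⟨y, rfl⟩ := IsLocalRing.residue_surjective z
    obtain ⟨p, hp, hpx⟩ := res_alg O hO (y : Ω) y.2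
    refine ⟨p.map (algebraMap k (algebraicClosure k Ω)), ?_, ?_⟩
    · rw [Polynomial.map_ne_zero_iff (algebraMap k (algebraicClosure k Ω)).injective]
      exact hp
    · have h1 : Polynomial.aeval (IsLocalRing.residue O y)
          (p.map (algebraMap k (algebraicClosure k Ω))) =
          IsLocalRing.residue O (Polynomial.eval₂ (f.comp (algebraMap k (algebraicClosure k Ω))) y p) := by
        rw [Polynomial.aeval_def, Polynomial.eval₂_map, Polynomial.hom_eval₂]
        rfl
      rw [h1]
      apply hmaxi'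
      have h2 : ((Polynomial.eval₂ (f.comp (algebraMap k (algebraicClosure k Ω))) y p : O) : Ω) =
          Polynomial.aeval (y : Ω) p := by
        have h3 : ((Polynomial.eval₂ (f.comp (algebraMap k (algebraicClosure k Ω))) y p : O) : Ω) =
          O.subtype (Polynomial.eval₂ (f.comp (algebraMap k (algebraicClosure k Ω))) y p) := rfl
        rw [h3, Polynomial.hom_eval₂, Polynomial.aeval_def]
        rfl
      rw [h2]
      exact hpx
  obtain ⟨q, hq⟩ := ExpChar.exists (algebraicClosure k Ω)
  have : ExpChar Ω q :=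
    expChar_of_injective_algebraMap (algebraMap (algebraicClosure k Ω) Ω).injective q
  obtain ⟨e, c, hc⟩ := IsPurelyInseparable.pow_mem (algebraicClosure k Ω) q
    (IsLocalRing.residue O ⟨x, hx⟩)
  have h1 : Mx O (x ^ q ^ e - (c : Ω)) := by
    have h2 : IsLocalRing.residue O ((⟨x, hx⟩ : O) ^ q ^ e - f c) = 0 := by
      rw [map_sub, map_pow, ← hc]
      exact sub_self _
    exact hmaxi _ h2
  have h2 : Mx O ((n x) ^ q ^ e - (c : Ω)) := by
    have h3 := hmx _ h1
    rwa [map_sub, map_pow, hn _ (mem_algebraicClosure_iff.mp c.2)] at h3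
  rw [mx_iff] at h1 h2 ⊢
  have h3 : (n x - x) ^ q ^ e = ((n x) ^ q ^ e - (c : Ω)) - (x ^ q ^ e - (c : Ω)) := by
    rw [sub_pow_expChar_pow]
    ring
  have h4 : O.valuation (n x - x) ^ q ^ e < 1 := by
    rw [← map_pow, h3]
    exact lt_of_le_of_lt (O.valuation.map_sub _ _) (max_lt h2 h1)
  by_contra h5
  rw [not_lt] at h5
  exact absurd (one_le_pow_of_one_le' h5 (q ^ e)) (not_le.mpr h4)

/-- `2` is a unit in every place if `2 ≠ 0` in `k`. -/
theorem two_uni (h2 : (2 : k) ≠ 0) (O : ValuationSubring Ω) (hO : Pl k O) : Uni O (2 : Ω) := by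
  have h : algebraMap k Ω 2 = 2 := map_ofNat _ 2
  refine ⟨?_, ?_, ?_⟩
  · rw [← h]; exact hO.1 2
  · rw [← h, ← map_inv₀]; exact hO.1 _
  · rw [← h]
    exact (map_ne_zero (algebraMap k Ω)).mpr h2

end TE
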