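import Pool.Agent.TE.E3
import Pool.Agent.TE.E4
import Pool.Agent.TE.L1
import Pool.Agent.TE.L2

set_option autoImplicit false

open WeierstrassCurve.Affine
open scoped Classical Polynomial

namespace TE

/-! ## [TE-A1b] the local conditions at the places of good reduction -/

variable {k Ω : Type*} [Field k] [Field Ω] [Algebra k Ω] [Algebra (RatFunc k) Ω] [IsScalarTower k (RatFunc k) Ω]
  [IsSepClosure (RatFunc k) Ω]

/-- The same for `f` with values in `{0, T}` where `D/u⁴` is a unit: `f g = 0` for `g ∈ N` with `g(O) = O`.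

Proof. `f g = g P - P ∈ {0, T}`. If `P = 0` or `P = T` then `f g = 0` (`act_T`). Otherwise `x = xx P ≠ 0` (`xx_ne`), put `h = hf P`, `w = wf P`;
suppose `f g = T`. Then `g h = hf (P + T) = -h`, `g w = -w` (`hf_act`, `hf_add_T`, `wf_act`, `wf_add_T`).
If `h = 0`: `w² = a² - 4b = D` (`wf_sq`), `z = w/u²` has `z² = D/u⁴` a unit, `g z = -z`, so `g z = z` by `local_unit`, `w = -w`, `w ≠ 0`:
contradiction. If `h ≠ 0`: `hw_sq` and `local_lemma` with `c = -2a/u²`, `d = D/u⁴`, `g := h/u`, `V := h w/u³` (`g(hw) = hw`) give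
`g h = h`, so `h = 0`, contradiction. -/
theorem stepB (C : Crv (RatFunc k)) (h2 : (2 : k) ≠ 0) {f : Gm k Ω → C.Pt Ω} (hf : IsSel C f)
    (hT : ∀ g ∈ NN k Ω, f g = 0 ∨ f g = C.T Ω) (O : ValuationSubring Ω) (hO : Pl k O) (u : RatFunc k) (hu : u ≠ 0)
    (ha : C.A Ω / algebraMap (RatFunc k) Ω u ^ 2 ∈ O)
    (hD : Uni O ((C.A Ω ^ 2 - 4 * C.B Ω) / algebraMap (RatFunc k) Ω u ^ 4)) :
    ∀ g ∈ NN k Ω, Stb O g → f g = 0 := by
  obtain ⟨P, hP⟩ := hf.loc O hO
  intro g hg hs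
  rcases hT g hg with h0 | h1
  · exact h0
  exfalso
  have hfg := hP g hg hs
  rw [h1] at hfg
  have hTne : C.T Ω ≠ 0 := T_ne C
  have hP0 : P ≠ 0 := by
    intro h
    rw [h, map_zero, sub_zero] at hfg
    exact hTne hfg
  have hPT : P ≠ C.T Ω := by
    intro h
    rw [h, act_T, sub_self] at hfg
    exact hTne hfg
  have hact : C.act g P = P + C.T Ω := by
    rw [hfg]; abel
  have h2Ω : (2 : Ω) ≠ 0 := C.two_ne Ω
  have hgh : g (C.hf P) = -C.hf P := by
    rw [← hf_act, hact, hf_add_T C hP0 hPT]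
  have hgw : g (C.wf P) = -C.wf P := by
    rw [← wf_act, hact, wf_add_T C hP0 hPT]
  have hU : algebraMap (RatFunc k) Ω u ≠ 0 := (map_ne_zero _).2 hu
  have hgU : g (algebraMap (RatFunc k) Ω u) = algebraMap (RatFunc k) Ω u := g.commutes u
  have hres := res_trivial O hO g hg hs
  have h2u := two_uni h2 O hO
  have hst : ∀ x : Ω, g x ∈ O ↔ x ∈ O := hs
  have hwsq := wf_sq C hP0 hPT
  have hhw := hw_sq C hP0 hPT
  generalize C.hf P = h at *
  generalize C.wf P = w at *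
  generalize algebraMap (RatFunc k) Ω u = U at *
  by_cases hh : h = 0
  · have hz2 : (w / U ^ 2) ^ 2 = (C.A Ω ^ 2 - 4 * C.B Ω) / U ^ 4 := by
      rw [div_pow, hwsq, hh]
      congr 1
      · ring
      · ring
    have hz : Uni O ((w / U ^ 2) ^ 2) := by rw [hz2]; exact hD
    have hgz : g (w / U ^ 2) = -(w / U ^ 2) := by
      rw [map_div₀, map_pow, hgw, hgU, neg_div]
    have h3 := local_unit O h2u g hres (w / U ^ 2) hz (Or.inr hgz)
    rw [hgz] at h3
    have h4 : (2 : Ω) * (w / U ^ 2) = 0 := by linear_combination -h3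
    have h5 : w / U ^ 2 = 0 := by
      rcases mul_eq_zero.1 h4 with h | h
      · exact absurd h h2Ω
      · exact h
    rw [h5] at hz2
    have h6 : (C.A Ω ^ 2 - 4 * C.B Ω) / U ^ 4 = 0 := by rw [← hz2]; ring
    exact (div_ne_zero (C.D_ne Ω) (pow_ne_zero 4 hU)) h6
  · have hc : -2 * C.A Ω / U ^ 2 ∈ O := by
      have h3 : -2 * C.A Ω / U ^ 2 = -(2 * (C.A Ω / U ^ 2)) := by ring
      rw [h3]
      exact O.neg_mem _ (O.mul_mem _ _ h2u.1 ha)
    have hV : (h * w / U ^ 3) ^ 2 =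
        (h / U) ^ 2 * (((h / U) ^ 2) ^ 2 + (-2 * C.A Ω / U ^ 2) * (h / U) ^ 2 + (C.A Ω ^ 2 - 4 * C.B Ω) / U ^ 4) := by
      rw [div_pow, hhw]
      field_simp
    have hgg : g (h / U) = -(h / U) := by
      rw [map_div₀, hgh, hgU, neg_div]
    have h3 := local_lemma O h2u g hst hres _ _ (h / U) (h * w / U ^ 3) hc hD (div_ne_zero hh hU) hV
      (by rw [map_pow, hgg, neg_sq])
      (by rw [map_div₀, map_mul, map_pow, hgh, hgw, hgU, neg_mul_neg])
    rw [hgg] at h3
    have h4 : (2 : Ω) * (h / U) = 0 := by linear_combination -h3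
    rcases mul_eq_zero.1 h4 with h | h
    · exact h2Ω h
    · exact (div_ne_zero hh hU) h

end TE
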