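import Pool.Agent.TE.E3
import Pool.Agent.TE.E4
import Pool.Agent.TE.L1
import Pool.Agent.TE.L2

set_option autoImplicit false

open WeierstrassCurve.Affine
open scoped Classical Polynomial

namespace TE

/-! ## [TE-A1a] the local conditions at the places of good reduction -/

variable {k Ω : Type*} [Field k] [Field Ω] [Algebra k Ω] [Algebra (RatFunc k) Ω] [IsScalarTower k (RatFunc k) Ω]
  [IsSepClosure (RatFunc k) Ω]

/-- Let `f` be a Selmer crossed homomorphism with values in `E[2]`, `O` a place, `u ∈ k(t)ˣ` with `a/u² ∈ O`, `b/u⁴` a unit. Then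
`ch (f g) = 1` for `g ∈ N` with `g(O) = O`.

Proof. Let `P` be as in `hf.loc`: `f g = g P - P` for the `g` in question; fix one of them. `g(2P) = 2P + 2 f g = 2P`. `g` acts trivially on the
residue field (`res_trivial`), `2` is a unit (`two_uni`), `g u = u` (write `u` for its image in `Ω`).
Case `2P = 0`: `ch (f g) = ch (gP - P) = ch(gP) ch(P) = ch(P)² = 1` (`ch_add`, `ch_neg`, `ch_act`, `ch_val`).
Case `2P = T`: `x = xx P`, `x² = b` (`half_xx`), `g x = xx (gP) = xx (P + f g) = ch (f g) x` (`half_add`), so `z = x/u²` satisfies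
`z² = b/u⁴`, a unit, `g z = ± z`, and `local_unit` gives `g z = z`, so `g x = x`, `ch (f g) = 1` (`x ≠ 0`, `2 ≠ 0`).
Case `2P ≠ 0, T`: `G = gf P`, `G² = X`, `X = xx (2P) ≠ 0` (`gf_sq`, `xx_ne`), `Y = yy (2P)`, `Y² = X (X² + a X + b)` (`eqn`); `g X = X`,
`g Y = Y`. `local_lemma` with `c = a/u²`, `d = b/u⁴`, `g := G/u`, `V := Y/u³` gives `g (G/u) = G/u`, so `g G = G`. But
`g G = gf (gP) = gf (P + f g) = ch (f g) G` (`gf_act`, `gf_add`), so `ch (f g) = 1`. -/
theorem stepA (C : Crv (RatFunc k)) (h2 : (2 : k) ≠ 0) {f : Gm k Ω → C.Pt Ω} (hf : IsSel C f)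
    (h2f : ∀ g ∈ NN k Ω, (2 : ℕ) • f g = 0) (O : ValuationSubring Ω) (hO : Pl k O) (u : RatFunc k) (hu : u ≠ 0)
    (ha : C.A Ω / algebraMap (RatFunc k) Ω u ^ 2 ∈ O) (hb : Uni O (C.B Ω / algebraMap (RatFunc k) Ω u ^ 4)) :
    ∀ g ∈ NN k Ω, Stb O g → C.ch (f g) = 1 := by
  intro g hg hs
  obtain ⟨P, hP⟩ := hf.loc O hO
  have hfg := hP g hg hs
  have h2fg := h2f g hg
  have hres := res_trivial O hO g hg hs
  have h2u := two_uni h2 O hO
  have hgP : C.act g P = P + f g := by rw [hfg]; abel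
  have hg2P : C.act g ((2 : ℕ) • P) = (2 : ℕ) • P := by
    rw [map_nsmul, hgP, smul_add, h2fg, add_zero]
  obtain ⟨w, hw⟩ : ∃ w : Ω, w = algebraMap (RatFunc k) Ω u := ⟨_, rfl⟩
  rw [← hw] at ha hb
  have hw0 : w ≠ 0 := by rw [hw]; exact (map_ne_zero _).2 hu
  have hgw : g w = w := by rw [hw]; exact g.commutes u
  by_cases h0 : (2 : ℕ) • P = 0
  · have hact2 : (2 : ℕ) • C.act g P = 0 := by rw [← map_nsmul, h0, map_zero]
    rw [hfg, sub_eq_add_neg, ch_add C hact2 (by rw [smul_neg, h0, neg_zero]), ch_neg C h0, ch_act]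
    rcases ch_val C P with h | h <;> rw [h] <;> ring
  by_cases hT : (2 : ℕ) • P = C.T Ω
  · have hx2 := half_xx C hT
    have hx0 : C.xx P ≠ 0 := by
      intro h
      rw [h] at hx2
      exact C.B_ne Ω (by rw [← hx2]; ring)
    have hgx : g (C.xx P) = C.ch (f g) * C.xx P := by
      rw [← (xx_act C g P).1, hgP, half_add C h2fg hT]
    have hgz : g (C.xx P / w ^ 2) = C.ch (f g) * (C.xx P / w ^ 2) := by
      rw [map_div₀, map_pow, hgw, hgx, mul_div_assoc]
    have hzu : Uni O ((C.xx P / w ^ 2) ^ 2) := by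
      have e1 : (C.xx P / w ^ 2) ^ 2 = C.B Ω / w ^ 4 := by
        rw [div_pow, hx2, ← pow_mul]
      rw [e1]
      exact hb
    have hz := local_unit O h2u g hres (C.xx P / w ^ 2) hzu (by
      rcases ch_val C (f g) with h | h
      · left; rw [hgz, h, one_mul]
      · right; rw [hgz, h, neg_one_mul])
    rw [hgz] at hz
    have hz0 : C.xx P / w ^ 2 ≠ 0 := div_ne_zero hx0 (pow_ne_zero _ hw0)
    exact mul_right_cancel₀ hz0 (by rw [hz, one_mul])
  · have hG2 := gf_sq C h0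
    have hX0 := xx_ne C h0 hT
    have hG0 : C.gf P ≠ 0 := by
      intro h
      rw [h] at hG2
      exact hX0 (by rw [← hG2]; ring)
    have hgG : g (C.gf P) = C.ch (f g) * C.gf P := by
      rw [← gf_act, hgP, gf_add C h2fg h0]
    have hgX : g (C.xx ((2 : ℕ) • P)) = C.xx ((2 : ℕ) • P) := by
      rw [← (xx_act C g _).1, hg2P]
    have hgY : g (C.yy ((2 : ℕ) • P)) = C.yy ((2 : ℕ) • P) := by
      rw [← (xx_act C g _).2, hg2P]
    have hE := eqn C ((2 : ℕ) • P)
    have hl := local_lemma O h2u g hs hres (C.A Ω / w ^ 2) (C.B Ω / w ^ 4) (C.gf P / w)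
      (C.yy ((2 : ℕ) • P) / w ^ 3) ha hb (div_ne_zero hG0 hw0)
      (by
        rw [div_pow, hE, div_pow, hG2]
        field_simp)
      (by rw [div_pow, hG2, map_div₀, map_pow, hgw, hgX])
      (by rw [map_div₀, map_pow, hgw, hgY])
    rw [map_div₀, hgw, hgG, mul_div_assoc] at hl
    have hz0 : C.gf P / w ≠ 0 := div_ne_zero hG0 hw0
    exact mul_right_cancel₀ hz0 (by rw [hl, one_mul])

end TE
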