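import Pool.Agent.TE.S1

set_option autoImplicit false

open WeierstrassCurve.Affine
open scoped Classical Polynomial

namespace TE

/-! ## [TE-A2z] the coefficients of the curve -/

variable {k Ω : Type*} [Field k] [Field Ω] [Algebra k Ω] [Algebra (RatFunc k) Ω] [IsScalarTower k (RatFunc k) Ω]
  [IsSepClosure (RatFunc k) Ω] (d : Dat k)

omit [IsSepClosure (RatFunc k) Ω] in
theorem a2z_aux (p : k[X]) :
    algebraMap (RatFunc k) Ω (algebraMap k[X] (RatFunc k) p) = Polynomial.aeval (tt k Ω) p := by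
  have h1 : algebraMap k[X] (RatFunc k) p = Polynomial.aeval (RatFunc.X : RatFunc k) p := by
    have h2 : (IsScalarTower.toAlgHom k k[X] (RatFunc k)) = Polynomial.aeval (RatFunc.X : RatFunc k) := by
      apply Polynomial.algHom_ext
      simp
    exact DFunLike.congr_fun h2 p
  rw [h1, tt, Polynomial.aeval_algebraMap_apply]

theorem dat_A : d.C.A Ω = Polynomial.aeval (tt k Ω) d.A := by
  exact a2z_aux d.A

theorem dat_B : d.C.B Ω = Polynomial.aeval (tt k Ω) d.B := by
  exact a2z_aux d.B

theorem dat_D : d.C.A Ω ^ 2 - 4 * d.C.B Ω = Polynomial.aeval (tt k Ω) d.D := by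
  rw [dat_A, dat_B, Dat.D, map_sub, map_pow, map_mul, map_ofNat]

end TE
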