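import Pool.Agent.TE.E3
import Pool.Agent.TE.E4
import Pool.Agent.TE.A2z

set_option autoImplicit false

open WeierstrassCurve.Affine
open scoped Classical Polynomial

namespace TE

/-! ## [TE-A2b] the Kummer characters of the points of order 2 and 4 -/

variable {k Ω : Type*} [Field k] [Field Ω] [Algebra k Ω] [Algebra (RatFunc k) Ω] [IsScalarTower k (RatFunc k) Ω]
  [IsSepClosure (RatFunc k) Ω] (d : Dat k)

/-- If `2Q = T` then `g ↦ ch (gQ - Q)` is `Kum (roots of B)`: `x = xx Q`, `x² = b = B(t)` (`half_xx`), and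
`g x = xx (gQ) = xx (Q + (gQ - Q)) = ch (gQ - Q) x` (`half_add`; `2(gQ - Q) = gT - T = 0`); use `kum_rts`. -/
theorem kum_half {Q : d.C.Pt Ω} (hQ : (2 : ℕ) • Q = d.C.T Ω) :
    Kum (rts k d.B : Finset Ω) (fun g => d.C.ch (d.C.act g Q - Q)) := by
  have hx : d.C.xx Q ^ 2 = Polynomial.aeval (tt k Ω) d.B := by
    rw [half_xx d.C hQ, dat_B]
  refine kum_rts d.h2 d.sepB hx fun g _ => ?_
  have h2 : (2 : ℕ) • (d.C.act g Q - Q) = 0 := by
    rw [nsmul_sub, ← map_nsmul, hQ, act_T, sub_self]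
  show g (d.C.xx Q) = d.C.ch (d.C.act g Q - Q) * d.C.xx Q
  rw [← half_add d.C h2 hQ, add_sub_cancel, (xx_act d.C g Q).1]

/-- If `2R = 0`, `ch R = -1`, then `gR - R ∈ {0, T}` for all `g ∈ Γ` and `g ↦ (1 if gR = R, -1 otherwise)` is `Kum (roots of D)`:
`R = (e, 0)`, `z = 2e + a` satisfies `z² = a² - 4b = D(t)`, and `g e = e` or `g e = e' = -a - e`, so `g z = ± z`; use `kum_rts`. -/
theorem tors_diff {R : d.C.Pt Ω} (hR : (2 : ℕ) • R = 0) (hc : d.C.ch R = -1) (g : Gm k Ω) :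
    d.C.act g R - R = 0 ∨ d.C.act g R - R = d.C.T Ω := by
  rw [← ch_eq_one_iff, sub_eq_add_neg,
    ch_add d.C (by rw [← map_nsmul, hR, map_zero]) (by rw [neg_nsmul, hR, neg_zero]),
    ch_neg d.C hR, ch_act, hc]
  ring

theorem kum_tors {R : d.C.Pt Ω} (hR : (2 : ℕ) • R = 0) (hc : d.C.ch R = -1) :
    Kum (rts k d.D : Finset Ω) (fun g => if d.C.act g R - R = 0 then 1 else -1) := by
  have h2 : (2 : Ω) ≠ 0 := d.C.two_ne Ω
  have hne : ∀ c : Ω, c = 1 → c ≠ -1 := by
    intro c h1 h3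
    apply h2
    rw [h1] at h3
    linear_combination h3
  have h0 : R ≠ 0 := fun h => hne _ (by rw [h, ch_zero]) hc
  have hT : R ≠ d.C.T Ω := fun h => hne _ (by rw [h, ch_T]) hc
  have hx0 : d.C.xx R ≠ 0 := xx_ne d.C h0 hT
  have hy : d.C.yy R = 0 := (two_tors d.C R).1 hR
  have hq : d.C.xx R ^ 2 + d.C.A Ω * d.C.xx R + d.C.B Ω = 0 := by
    have h := eqn d.C R
    rw [hy, zero_pow two_ne_zero] at h
    rcases mul_eq_zero.1 h.symm with h | h
    · exact absurd h hx0
    · exact h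
  have hx : (2 * d.C.xx R + d.C.A Ω) ^ 2 = Polynomial.aeval (tt k Ω) d.D := by
    rw [← dat_D]
    linear_combination 4 * hq
  refine kum_rts d.h2 (Q := d.D) d.sepD hx fun g _ => ?_
  show g (2 * d.C.xx R + d.C.A Ω) =
    (if d.C.act g R - R = 0 then 1 else -1) * (2 * d.C.xx R + d.C.A Ω)
  rw [map_add, map_mul, map_ofNat, (act_AB d.C g).1, ← (xx_act d.C g R).1]
  rcases tors_diff d hR hc g with h | h
  · rw [if_pos h, sub_eq_zero.1 h]
    ring
  · have h3 : d.C.act g R - R ≠ 0 := by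
      rw [h]
      exact T_ne d.C
    have h4 : d.C.act g R = R + d.C.T Ω := by
      rw [← h, add_sub_cancel]
    rw [if_neg h3, h4, (xx_add_T d.C h0 hT).1]
    field_simp
    linear_combination 2 * hq

/-- `E(K)[2] = {0, T}`: otherwise `gR = R` for all `g ∈ N`, `kum_tors` and `kum_uniq` (with `kum_empty`) show that `D` has no roots, but it has
`4m > 0` of them (`rts_card`). -/
theorem tors_K {R : d.C.Pt Ω} (hR : (2 : ℕ) • R = 0) (hN : ∀ g ∈ NN k Ω, d.C.act g R = R) : R = 0 ∨ R = d.C.T Ω := by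
  rcases ch_val d.C R with h | h
  · exact (ch_eq_one_iff d.C R).1 h
  · exfalso
    have h1 := kum_tors d hR h
    have h2 : Kum (k := k) (∅ : Finset Ω) (fun g => if d.C.act g R - R = 0 then 1 else -1) := by
      refine kum_empty fun g hg => ?_
      show (if d.C.act g R - R = 0 then (1 : Ω) else -1) = 1
      rw [if_pos (by rw [hN g hg, sub_self])]
    have h3 : (rts k d.D : Finset Ω) = ∅ := by
      refine kum_uniq (fun r hr => rts_alg hr) (fun r hr => absurd hr (Finset.notMem_empty r)) ?_ h1 h2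
      intro g _
      show (if d.C.act g R - R = 0 then (1 : Ω) else -1) = 1 ∨ (if d.C.act g R - R = 0 then (1 : Ω) else -1) = -1
      split_ifs
      · exact Or.inl rfl
      · exact Or.inr rfl
    have h4 := rts_card (Ω := Ω) (Q := d.D) d.sepD
    rw [h3, Finset.card_empty, Dat.D, d.degD] at h4
    have := d.hm
    omega

/-- `T ∉ 2 E(K)`, in the form: if `2Q = T` then `g ↦ ch (gQ - Q)` is not trivial on `N` (`kum_half`, `kum_uniq`, `B` has `4m > 0` roots). -/
theorem half_K {Q : d.C.Pt Ω} (hQ : (2 : ℕ) • Q = d.C.T Ω) : ¬ ∀ g ∈ NN k Ω, d.C.ch (d.C.act g Q - Q) = 1 := by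
  intro h
  have h1 := kum_half d hQ
  have h2 : Kum (k := k) (∅ : Finset Ω) (fun g => d.C.ch (d.C.act g Q - Q)) := kum_empty h
  have h3 : (rts k d.B : Finset Ω) = ∅ :=
    kum_uniq (fun r hr => rts_alg hr) (fun r hr => absurd hr (Finset.notMem_empty r))
      (fun g _ => ch_val d.C _) h1 h2
  have h4 := rts_card (Ω := Ω) (Q := d.B) d.sepB
  rw [h3, Finset.card_empty, d.degB] at h4
  have := d.hm
  omega

end TE
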