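import Pool.Agent.TE.Defs

set_option autoImplicit false

open scoped Classical Polynomial

namespace TE

/-! ## [TE-K1] Kummer theory for the quadratic characters of `N` -/

variable {k Ω : Type*} [Field k] [Field Ω] [Algebra k Ω] [Algebra (RatFunc k) Ω] [IsScalarTower k (RatFunc k) Ω]
  [IsSepClosure (RatFunc k) Ω]

/-- `N` is a normal subgroup of `Γ`. -/
theorem NN_conj {γ g : Gm k Ω} (hg : g ∈ NN k Ω) : γ⁻¹ * g * γ ∈ NN k Ω := by
  intro c hc
  have h1 : IsAlgebraic k (γ c) := by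
    obtain ⟨p, hp, hpc⟩ := hc
    refine ⟨p, hp, ?_⟩
    have h2 := Polynomial.aeval_algHom_apply ((γ : Ω →ₐ[RatFunc k] Ω).restrictScalars k) c p
    rw [hpc, map_zero] at h2
    exact h2
  rw [AlgEquiv.mul_apply, AlgEquiv.mul_apply, hg _ h1]
  have h3 : (γ⁻¹ * γ) c = c := by rw [inv_mul_cancel]; rfl
  rwa [AlgEquiv.mul_apply] at h3

/-- Every continuous character `χ : N → {1, -1}` is a Kummer character.
Proof. Let `L` be as in `hχ.cont`; enlarging it (normal closure, finite over `F = k(t)`) we may assume `L/F` finite Galois. Let `Ñ` be the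
image of `N` in the finite group `Gal(L/F)` (`AlgEquiv.restrictNormalHom`); `χ` factors through `χ̃ : Ñ → {1,-1} ⊆ Ωˣ`, because
`g, g' ∈ N` with the same restriction to `L` differ by an element of `N` fixing `L`. By the linear independence of the characters
`σ : Lˣ → Ω`, `σ ∈ Ñ` (`linearIndependent_monoidHom`), there is `y ∈ L` with `δ = ∑_{σ ∈ Ñ} χ̃(σ) σ(y) ≠ 0`. For `g ∈ N` with image `τ`:
`g δ = ∑ χ̃(σ) τσ(y) = χ̃(τ)⁻¹ ∑ χ̃(τσ) τσ(y) = χ(g) δ` (`g` fixes `±1`; `χ̃(τ)⁻¹ = χ̃(τ)`).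
(Alternative: if `χ` is not trivial on `N`, the kernel `N₀` of `χ` on `N` is a closed subgroup of `Γ`, so by infinite Galois theory some
`x ∈ Ω` is fixed by `N₀` and not by `N`; with `n₁ ∈ N \ N₀` not fixing `x`, `δ = x - n₁ x` works.) -/
theorem exists_kummer (χ : Gm k Ω → Ω) (hχ : IsChar χ) : ∃ δ : Ω, δ ≠ 0 ∧ ∀ g ∈ NN k Ω, g δ = χ g * δ := by
  by_cases htriv : ∀ g ∈ NN k Ω, χ g = 1
  · refine ⟨1, one_ne_zero, fun g hg => ?_⟩
    rw [htriv g hg, map_one, one_mul]
  push Not at htriv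
  obtain ⟨m, hm, hm1⟩ := htriv
  obtain ⟨L, hL, hLχ⟩ := hχ.cont
  have hone : χ 1 = 1 := hLχ 1 (NN k Ω).one_mem (fun _ _ => rfl)
  have hinv : ∀ g ∈ NN k Ω, χ g⁻¹ * χ g = 1 := by
    intro g hg
    rw [← hχ.mul _ ((NN k Ω).inv_mem hg) _ hg, inv_mul_cancel, hone]
  -- the kernel
  let N0 : Subgroup (Gm k Ω) :=
    { carrier := {g | g ∈ NN k Ω ∧ χ g = 1}
      mul_mem' := by
        rintro g h ⟨hg, hg1⟩ ⟨hh, hh1⟩
        exact ⟨(NN k Ω).mul_mem hg hh, by rw [hχ.mul g hg h hh, hg1, hh1, one_mul]⟩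
      one_mem' := ⟨(NN k Ω).one_mem, hone⟩
      inv_mem' := by
        rintro g ⟨hg, hg1⟩
        refine ⟨(NN k Ω).inv_mem hg, ?_⟩
        have := hinv g hg
        rwa [hg1, mul_one] at this }
  have hN0 : ∀ g, g ∈ N0 ↔ g ∈ NN k Ω ∧ χ g = 1 := fun g => Iff.rfl
  have hNclosed : IsClosed (NN k Ω : Set (Gm k Ω)) := by
    have h1 : NN k Ω = (IntermediateField.adjoin (RatFunc k) {c : Ω | IsAlgebraic k c}).fixingSubgroup := by
      ext g
      rw [IntermediateField.mem_fixingSubgroup_iff]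
      constructor
      · intro hg x hx
        have h2 : IntermediateField.adjoin (RatFunc k) {c : Ω | IsAlgebraic k c} ≤
            IntermediateField.fixedField (Subgroup.zpowers g) := by
          rw [IntermediateField.adjoin_le_iff]
          intro c hc
          rw [SetLike.mem_coe, IntermediateField.mem_fixedField_iff]
          intro f hf
          have h3 : f ∈ NN k Ω := (Subgroup.zpowers_le.2 hg) hf
          exact h3 c hc
        have h4 := h2 hx
        rw [IntermediateField.mem_fixedField_iff] at h4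
        exact h4 g (Subgroup.mem_zpowers g)
      · intro h c hc
        exact h c (IntermediateField.subset_adjoin _ _ hc)
    rw [h1]
    exact InfiniteGalois.fixingSubgroup_isClosed _
  have hN0closed : IsClosed (N0 : Set (Gm k Ω)) := by
    have hopen : IsOpen (L.fixingSubgroup : Set (Gm k Ω)) := IntermediateField.fixingSubgroup_isOpen L
    rw [← isOpen_compl_iff, isOpen_iff_mem_nhds]
    intro x hx
    by_cases hxN : x ∈ NN k Ω
    · have hx1 : χ x ≠ 1 := fun h => hx ⟨hxN, h⟩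
      have hU : IsOpen ((fun y => x⁻¹ * y) ⁻¹' (L.fixingSubgroup : Set (Gm k Ω))) :=
        hopen.preimage (continuous_const.mul continuous_id)
      refine Filter.mem_of_superset (hU.mem_nhds ?_) ?_
      · rw [Set.mem_preimage, inv_mul_cancel]
        exact L.fixingSubgroup.one_mem
      · intro y hy hyN0
        obtain ⟨hyN, hy1⟩ := hyN0
        have h5 : x⁻¹ * y ∈ NN k Ω := (NN k Ω).mul_mem ((NN k Ω).inv_mem hxN) hyN
        have h6 : χ (x⁻¹ * y) = 1 := hLχ _ h5 (fun z hz =>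
          (IntermediateField.mem_fixingSubgroup_iff _ _).1 hy z hz)
        rw [hχ.mul _ ((NN k Ω).inv_mem hxN) _ hyN, hy1, mul_one] at h6
        have h7 := hinv x hxN
        rw [h6, one_mul] at h7
        exact hx1 h7
    · refine Filter.mem_of_superset (hNclosed.isOpen_compl.mem_nhds hxN) ?_
      intro y hy hyN0
      exact hy hyN0.1
  haveI : IsGalois (RatFunc k) Ω := inferInstance
  have hfix := InfiniteGalois.fixingSubgroup_fixedField (⟨N0, hN0closed⟩ : ClosedSubgroup (Gm k Ω))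
  have hmN0 : m ∉ N0 := fun h => hm1 h.2
  have hex : ∃ x : Ω, (∀ g ∈ N0, g x = x) ∧ m x ≠ x := by
    by_contra hcon
    push Not at hcon
    apply hmN0
    have h8 : m ∈ (IntermediateField.fixedField N0).fixingSubgroup := by
      rw [IntermediateField.mem_fixingSubgroup_iff]
      intro x hx
      rw [IntermediateField.mem_fixedField_iff] at hx
      exact hcon x hx
    have h9 : (IntermediateField.fixedField N0).fixingSubgroup = N0 := hfix
    rwa [h9] at h8
  obtain ⟨x, hx, hmx⟩ := hex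
  have hmχ : χ m = -1 := (hχ.val m hm).resolve_left hm1
  refine ⟨x - m x, sub_ne_zero.2 (Ne.symm hmx), fun g hg => ?_⟩
  have hmi : m⁻¹ ∈ NN k Ω := (NN k Ω).inv_mem hm
  have hmiχ : χ m⁻¹ = -1 := by
    have := hinv m hm
    rw [hmχ, mul_neg, mul_one] at this
    rw [← neg_neg (χ m⁻¹), this]
  have hmm : ∀ z : Ω, m (m⁻¹ z) = z := by
    intro z
    have h3 : (m * m⁻¹) z = z := by rw [mul_inv_cancel]; rfl
    rwa [AlgEquiv.mul_apply] at h3
  rcases hχ.val g hg with h1 | h1
  · have h2 : g x = x := hx g ⟨hg, h1⟩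
    have h3 : m⁻¹ * g * m ∈ N0 := by
      refine ⟨(NN k Ω).mul_mem ((NN k Ω).mul_mem hmi hg) hm, ?_⟩
      rw [hχ.mul _ ((NN k Ω).mul_mem hmi hg) _ hm, hχ.mul _ hmi _ hg, hmiχ, h1, hmχ]
      ring
    have h4 := hx _ h3
    rw [AlgEquiv.mul_apply, AlgEquiv.mul_apply] at h4
    have h5 : g (m x) = m x := by rw [← hmm (g (m x)), h4]
    rw [map_sub, h2, h5, h1, one_mul]
  · have h3 : m⁻¹ * g ∈ N0 := by
      refine ⟨(NN k Ω).mul_mem hmi hg, ?_⟩
      rw [hχ.mul _ hmi _ hg, hmiχ, h1]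
      ring
    have h4 := hx _ h3
    rw [AlgEquiv.mul_apply] at h4
    have h5 : g x = m x := by rw [← hmm (g x), h4]
    have h6 : g * m ∈ N0 := by
      refine ⟨(NN k Ω).mul_mem hg hm, ?_⟩
      rw [hχ.mul _ hg _ hm, hmχ, h1]
      ring
    have h7 := hx _ h6
    rw [AlgEquiv.mul_apply] at h7
    rw [map_sub, h5, h7, h1]
    ring

end TE
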