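import Pool.Agent.TE.K2
import Pool.Agent.TE.L2

set_option autoImplicit false

open scoped Classical Polynomial

namespace TE

/-! ## [TE-K3] normal form of the square classes of `K = k^s(t)` -/

variable {k Ω : Type*} [Field k] [Field Ω] [Algebra k Ω] [Algebra (RatFunc k) Ω] [IsScalarTower k (RatFunc k) Ω]
  [IsSepClosure (RatFunc k) Ω]

theorem k3_aux {L : Type*} [Field L] (n : ℕ) : ∀ R : L[X], R ≠ 0 → R.natDegree ≤ n →
    ∃ (c : L) (S P : L[X]), c ≠ 0 ∧ S.Monic ∧ P.Monic ∧ Squarefree P ∧ R = Polynomial.C c * S ^ 2 * P := by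
  induction n with
  | zero =>
    intro R hR hn
    have h1 : R = Polynomial.C (R.coeff 0) := Polynomial.eq_C_of_natDegree_le_zero hn
    refine ⟨R.coeff 0, 1, 1, ?_, Polynomial.monic_one, Polynomial.monic_one, squarefree_one, ?_⟩
    · intro h0
      rw [h0, Polynomial.C_0] at h1
      exact hR h1
    · rw [one_pow, mul_one, mul_one]
      exact h1
  | succ n ih =>
    intro R hR hn
    by_cases hs : Squarefree R
    · have hl : R.leadingCoeff ≠ 0 := Polynomial.leadingCoeff_ne_zero.2 hR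
      refine ⟨R.leadingCoeff, 1, R * Polynomial.C R.leadingCoeff⁻¹, hl, Polynomial.monic_one,
        Polynomial.monic_mul_leadingCoeff_inv hR, ?_, ?_⟩
      · refine hs.squarefree_of_dvd ?_
        have hu : IsUnit (Polynomial.C R.leadingCoeff⁻¹ : L[X]) :=
          Polynomial.isUnit_C.2 (isUnit_iff_ne_zero.2 (inv_ne_zero hl))
        exact (hu.mul_right_dvd).2 dvd_rfl
      · rw [one_pow, mul_one, mul_comm R, ← mul_assoc, ← Polynomial.C_mul, mul_inv_cancel₀ hl, Polynomial.C_1,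
          one_mul]
    · unfold Squarefree at hs
      push Not at hs
      obtain ⟨x, ⟨R', hR'⟩, hx⟩ := hs
      have hx0 : x ≠ 0 := by
        rintro rfl
        rw [zero_mul, zero_mul] at hR'
        exact hR hR'
      have hR0 : R' ≠ 0 := by
        rintro rfl
        rw [mul_zero] at hR'
        exact hR hR'
      have hdx : 0 < x.natDegree := by
        rw [Nat.pos_iff_ne_zero]
        intro h0
        apply hx
        rw [Polynomial.eq_C_of_natDegree_eq_zero h0] at hx0 ⊢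
        exact Polynomial.isUnit_C.2 (isUnit_iff_ne_zero.2 (fun h => hx0 (by rw [h, Polynomial.C_0])))
      have hdeg : R'.natDegree ≤ n := by
        rw [hR', Polynomial.natDegree_mul (mul_ne_zero hx0 hx0) hR0, Polynomial.natDegree_mul hx0 hx0] at hn
        omega
      obtain ⟨c, S, P, hc, hS, hP, hPs, he⟩ := ih R' hR0 hdeg
      have hl : x.leadingCoeff ≠ 0 := Polynomial.leadingCoeff_ne_zero.2 hx0
      have hxe : x = Polynomial.C x.leadingCoeff * (x * Polynomial.C x.leadingCoeff⁻¹) := by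
        rw [mul_comm x, ← mul_assoc, ← Polynomial.C_mul, mul_inv_cancel₀ hl, Polynomial.C_1, one_mul]
      refine ⟨x.leadingCoeff ^ 2 * c, (x * Polynomial.C x.leadingCoeff⁻¹) * S, P, mul_ne_zero (pow_ne_zero _ hl) hc,
        (Polynomial.monic_mul_leadingCoeff_inv hx0).mul hS, hP, hPs, ?_⟩
      rw [hR', he]
      set y := x * Polynomial.C x.leadingCoeff⁻¹ with hy
      rw [Polynomial.C_mul, Polynomial.C_pow]
      calc x * x * (Polynomial.C c * S ^ 2 * P)
          = (Polynomial.C x.leadingCoeff * y) * (Polynomial.C x.leadingCoeff * y) *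
            (Polynomial.C c * S ^ 2 * P) := by rw [← hxe]
        _ = _ := by ring

/-- every nonzero polynomial over a field is `c * S² * P` with `S`, `P` monic, `P` squarefree -/
theorem sq_decomp {L : Type*} [Field L] (R : L[X]) (hR : R ≠ 0) :
    ∃ (c : L) (S P : L[X]), c ≠ 0 ∧ S.Monic ∧ P.Monic ∧ Squarefree P ∧ R = Polynomial.C c * S ^ 2 * P := by
  exact k3_aux R.natDegree R hR le_rfl

/-- Let `δ ≠ 0` with `g δ = ± δ` for all `g ∈ N`. Then there are `κ ∈ Kˣ` and a monic squarefree `P ∈ k^s[X]` with `(κ δ)² = P(t)`.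
Proof. `δ²` is fixed by `N`: `q(t) δ² = p(t)` with `p, q ≠ 0` (`fixed_iff`). `(q(t) δ)² = p(t) q(t) = R(t)`, `R = p q = c S² P`
(`sq_decomp`); `c = c₁²` in `k^s` (separably closed: `ks_sepClosed`, `2 ≠ 0`). Put `κ = q(t)/(c₁ S(t))`. -/
theorem normal_form (h2 : (2 : k) ≠ 0) (δ : Ω) (h0 : δ ≠ 0) (hδ : ∀ g ∈ NN k Ω, g δ = δ ∨ g δ = -δ) :
    ∃ κ : Ω, κ ≠ 0 ∧ (∀ g ∈ NN k Ω, g κ = κ) ∧ ∃ P : (algebraicClosure k Ω)[X], P.Monic ∧ Squarefree P ∧
      (κ * δ) ^ 2 = Polynomial.aeval (tt k Ω) P := by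
  have h1 : ∀ g ∈ NN k Ω, g (δ ^ 2) = δ ^ 2 := by
    intro g hg
    rw [map_pow]
    rcases hδ g hg with h | h
    · rw [h]
    · rw [h, neg_sq]
  obtain ⟨p, q, hq, h3⟩ := (fixed_iff (δ ^ 2)).1 h1
  have hqt := aeval_tt_ne q hq
  have hp : p ≠ 0 := by
    rintro rfl
    rw [map_zero] at h3
    exact (mul_ne_zero hqt (pow_ne_zero 2 h0)) h3
  obtain ⟨c, S, P, hc, hS, hP, hPs, he⟩ := sq_decomp (p * q) (mul_ne_zero hp hq)
  haveI := ks_sepClosed (k := k) (Ω := Ω)
  haveI : NeZero (2 : algebraicClosure k Ω) := ⟨by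
    have h4 := (map_ne_zero (algebraMap k (algebraicClosure k Ω))).2 h2
    rwa [map_ofNat] at h4⟩
  obtain ⟨c1, hc1⟩ := IsSepClosed.exists_eq_mul_self c
  have hc10 : c1 ≠ 0 := by
    rintro rfl
    rw [mul_zero] at hc1
    exact hc hc1
  have hSt := aeval_tt_ne S hS.ne_zero
  have hCt := aeval_tt_ne (Polynomial.C c1 : (algebraicClosure k Ω)[X]) (fun h => hc10 (Polynomial.C_eq_zero.1 h))
  refine ⟨Polynomial.aeval (tt k Ω) q / (Polynomial.aeval (tt k Ω) (Polynomial.C c1) * Polynomial.aeval (tt k Ω) S),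
    div_ne_zero hqt (mul_ne_zero hCt hSt), ?_, P, hP, hPs, ?_⟩
  · intro g hg
    rw [map_div₀, map_mul, aeval_tt_fixed q hg, aeval_tt_fixed _ hg, aeval_tt_fixed S hg]
  · have h5 := congrArg (Polynomial.aeval (tt k Ω)) he
    rw [hc1, Polynomial.C_mul, map_mul, map_mul, map_mul, map_mul, map_pow, ← h3] at h5
    rw [mul_pow, div_pow, div_mul_eq_mul_div, div_eq_iff (pow_ne_zero 2 (mul_ne_zero hCt hSt))]
    linear_combination h5

end TE
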