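import Pool.Agent.TE.K2
import Pool.Agent.TE.L2

set_option autoImplicit false

open scoped Classical Polynomial

namespace TE

/-! ## [TE-P1b] the places of `Ω` over infinity -/

variable {k Ω : Type*} [Field k] [Field Ω] [Algebra k Ω] [Algebra (RatFunc k) Ω] [IsScalarTower k (RatFunc k) Ω]
  [IsSepClosure (RatFunc k) Ω]

theorem tep1b_tt_ne : tt k Ω ≠ 0 := by
  rw [tt]
  exact (map_ne_zero _).2 RatFunc.X_ne_zero

theorem tep1b_inv_ne (p : (algebraicClosure k Ω)[X]) (hp : p ≠ 0) : Polynomial.aeval (tt k Ω)⁻¹ p ≠ 0 := by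
  intro h
  have htt : Transcendental (algebraicClosure k Ω) (tt k Ω) := by
    rw [transcendental_iff]
    intro q hq
    by_contra hne
    exact aeval_tt_ne q hne hq
  apply htt
  have h1 : IsAlgebraic (algebraicClosure k Ω) (tt k Ω)⁻¹ := ⟨p, hp, h⟩
  simpa using h1.inv

theorem tep1b_val (O : ValuationSubring Ω) (hk : ∀ p : (algebraicClosure k Ω)[X], Polynomial.aeval (tt k Ω)⁻¹ p ∈ O)
    (hs : O.valuation (tt k Ω)⁻¹ < 1) (f : (algebraicClosure k Ω)[X]) (hf : f ≠ 0) :
    O.valuation (Polynomial.aeval (tt k Ω) f) = O.valuation (tt k Ω) ^ f.natDegree := by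
  have htne : tt k Ω ≠ 0 := tep1b_tt_ne
  let _ : Invertible (tt k Ω) := invertibleOfNonzero htne
  have h1 := Polynomial.eval₂_reverse_mul_pow (algebraMap (algebraicClosure k Ω) Ω) (tt k Ω) f
  rw [invOf_eq_inv] at h1
  rw [Polynomial.aeval_def, ← h1, map_mul, map_pow]
  have hc : ∀ c : algebraicClosure k Ω, c ≠ 0 → O.valuation (algebraMap (algebraicClosure k Ω) Ω c) = 1 := by
    intro c hc
    have h2 := hk (Polynomial.C c)
    have h3 := hk (Polynomial.C c⁻¹)
    rw [Polynomial.aeval_C] at h2 h3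
    rw [← uni_iff]
    refine ⟨h2, ?_, (map_ne_zero _).2 hc⟩
    rw [← map_inv₀]
    exact h3
  have hr : Polynomial.eval₂ (algebraMap (algebraicClosure k Ω) Ω) (tt k Ω)⁻¹ f.reverse =
      algebraMap (algebraicClosure k Ω) Ω f.leadingCoeff +
        (tt k Ω)⁻¹ * Polynomial.aeval (tt k Ω)⁻¹ (Polynomial.divX f.reverse) := by
    conv_lhs => rw [← Polynomial.divX_mul_X_add f.reverse]
    rw [Polynomial.coeff_zero_reverse, Polynomial.eval₂_add, Polynomial.eval₂_mul, Polynomial.eval₂_X,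
      Polynomial.eval₂_C, Polynomial.aeval_def]
    ring
  have hv : O.valuation (Polynomial.eval₂ (algebraMap (algebraicClosure k Ω) Ω) (tt k Ω)⁻¹ f.reverse) = 1 := by
    rw [hr]
    have hlc := hc f.leadingCoeff (Polynomial.leadingCoeff_ne_zero.2 hf)
    rw [Valuation.map_add_eq_of_lt_left, hlc]
    rw [hlc, map_mul]
    have h4 : O.valuation (Polynomial.aeval (tt k Ω)⁻¹ (Polynomial.divX f.reverse)) ≤ 1 := (mem_iff O _).1 (hk _)
    calc O.valuation (tt k Ω)⁻¹ * O.valuation (Polynomial.aeval (tt k Ω)⁻¹ (Polynomial.divX f.reverse))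
        ≤ O.valuation (tt k Ω)⁻¹ * 1 := mul_le_mul_right h4 _
      _ < 1 := by rw [mul_one]; exact hs
  rw [hv, one_mul]

/-- A place over infinity. Proof: the same with `R` = the ring of all `p(t⁻¹)`, `p ∈ k^s[X]`, and the ideal generated by `t⁻¹` (`t⁻¹` is
transcendental over `k^s`, so `t⁻¹` is not a unit of `R`). For `f ≠ 0` of degree `d`: `f(t)/t^d` is `c` + an element of `t⁻¹ R`, `c ≠ 0` the
leading coefficient, so it is a unit of `O`. For `κ = p(t)/q(t)`: `P(t) κ²` is a unit times `t^(deg P + 2 deg p - 2 deg q)`, an odd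
power of `t`, not a unit. -/
theorem exists_place_inf :
    ∃ O : ValuationSubring Ω, Pl k O ∧ tt k Ω ∉ O ∧
      (∀ P : (algebraicClosure k Ω)[X], Odd P.natDegree → ∀ κ : Ω, κ ≠ 0 → (∀ g ∈ NN k Ω, g κ = κ) →
        ¬ Uni O (Polynomial.aeval (tt k Ω) P * κ ^ 2)) := by
  have htne : tt k Ω ≠ 0 := tep1b_tt_ne
  let A : Subring Ω := (Polynomial.aeval (R := algebraicClosure k Ω) (tt k Ω)⁻¹).range.toSubring
  have hA : ∀ p : (algebraicClosure k Ω)[X], Polynomial.aeval (tt k Ω)⁻¹ p ∈ A := fun p => ⟨p, rfl⟩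
  have hs0 : (tt k Ω)⁻¹ ∈ A := by
    have := hA Polynomial.X
    rwa [Polynomial.aeval_X] at this
  let I : Ideal A := Ideal.span {⟨(tt k Ω)⁻¹, hs0⟩}
  have hI : I ≠ ⊤ := by
    intro h
    have h1 : (1 : A) ∈ I := by rw [h]; exact Submodule.mem_top
    rw [Ideal.mem_span_singleton'] at h1
    obtain ⟨⟨a, p, hp⟩, ha⟩ := h1
    have h2 := congrArg Subtype.val ha
    simp only [Subring.coe_mul, Subring.coe_one] at h2
    have hp' : Polynomial.aeval (tt k Ω)⁻¹ p = a := hp
    rw [← hp'] at h2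
    have h3 : Polynomial.aeval (tt k Ω)⁻¹ (p * Polynomial.X - 1) = 0 := by
      rw [map_sub, map_mul, Polynomial.aeval_X, map_one, h2, sub_self]
    by_cases h4 : p * Polynomial.X - 1 = 0
    · have h5 := congrArg (Polynomial.eval 0) h4
      simp at h5
    · exact tep1b_inv_ne _ h4 h3
  obtain ⟨O, hAO, hIO⟩ := Ideal.image_subset_nonunits_valuationSubring I hI
  have hk : ∀ p : (algebraicClosure k Ω)[X], Polynomial.aeval (tt k Ω)⁻¹ p ∈ O := fun p => hAO (hA p)
  have hs : O.valuation (tt k Ω)⁻¹ < 1 := by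
    have h1 : (tt k Ω)⁻¹ ∈ O.nonunits := hIO ⟨⟨(tt k Ω)⁻¹, hs0⟩, Ideal.subset_span rfl, rfl⟩
    exact h1
  have ht1 : 1 < O.valuation (tt k Ω) := by
    rw [map_inv₀] at hs
    exact (inv_lt_one₀ (by
      rw [zero_lt_iff]
      exact (Valuation.ne_zero_iff _).2 htne)).1 hs
  refine ⟨O, ⟨?_, ?_⟩, ?_, ?_⟩
  · intro c
    have h1 := hk (Polynomial.C (algebraMap k (algebraicClosure k Ω) c))
    rw [Polynomial.aeval_C, ← IsScalarTower.algebraMap_apply] at h1
    exact h1
  · intro h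
    have h1 : tt k Ω ∈ O := by rw [h]; exact ValuationSubring.mem_top _
    rw [mem_iff] at h1
    exact absurd ht1 (not_lt.2 h1)
  · intro h
    rw [mem_iff] at h
    exact absurd ht1 (not_lt.2 h)
  · intro P hP κ hκ hfix hU
    rw [uni_iff] at hU
    obtain ⟨p, q, hq, hpq⟩ := (fixed_iff κ).1 hfix
    have hq1 := aeval_tt_ne (k := k) q hq
    have hp : p ≠ 0 := by
      rintro rfl
      rw [map_zero] at hpq
      rcases mul_eq_zero.1 hpq with h | h
      · exact hq1 h
      · exact hκ h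
    have hP0 : P ≠ 0 := by
      rintro rfl
      simp at hP
    have e1 := tep1b_val O hk hs P hP0
    have e2 := tep1b_val O hk hs p hp
    have e3 := tep1b_val O hk hs q hq
    have e4 := congrArg O.valuation hpq
    rw [map_mul, e2, e3] at e4
    rw [map_mul, map_pow, e1] at hU
    have hne : O.valuation (tt k Ω) ≠ 0 := (Valuation.ne_zero_iff _).2 htne
    have e5 : O.valuation (tt k Ω) ^ (P.natDegree + 2 * p.natDegree) = O.valuation (tt k Ω) ^ (2 * q.natDegree) := by
      calc O.valuation (tt k Ω) ^ (P.natDegree + 2 * p.natDegree)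
          = O.valuation (tt k Ω) ^ P.natDegree * (O.valuation (tt k Ω) ^ p.natDegree) ^ 2 := by
            rw [pow_add, mul_comm 2 p.natDegree, pow_mul]
        _ = O.valuation (tt k Ω) ^ P.natDegree * (O.valuation (tt k Ω) ^ q.natDegree * O.valuation κ) ^ 2 := by
            rw [e4]
        _ = (O.valuation (tt k Ω) ^ P.natDegree * O.valuation κ ^ 2) * O.valuation (tt k Ω) ^ (2 * q.natDegree) := by
            rw [mul_pow, mul_comm 2 q.natDegree, pow_mul, mul_assoc, mul_comm (O.valuation κ ^ 2)]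
        _ = O.valuation (tt k Ω) ^ (2 * q.natDegree) := by rw [hU, one_mul]
    have e6 : P.natDegree + 2 * p.natDegree = 2 * q.natDegree := by
      rcases lt_trichotomy (P.natDegree + 2 * p.natDegree) (2 * q.natDegree) with h | h | h
      · exact absurd e5 (ne_of_lt (pow_lt_pow_right₀ ht1 h))
      · exact h
      · exact absurd e5 (ne_of_gt (pow_lt_pow_right₀ ht1 h))
    obtain ⟨m, hm⟩ := hP
    omega

end TE
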