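import Pool.Agent.TE.K2
import Pool.Agent.TE.L2

set_option autoImplicit false

open scoped Classical Polynomial

namespace TE

/-! ## [TE-P1c] values of polynomials at the places -/

variable {k Ω : Type*} [Field k] [Field Ω] [Algebra k Ω] [Algebra (RatFunc k) Ω] [IsScalarTower k (RatFunc k) Ω]
  [IsSepClosure (RatFunc k) Ω]

/-- For every place: if `t ∈ O` then `f(t) ∈ O` for `f ∈ k[X]`. -/
theorem place_fin (O : ValuationSubring Ω) (hO : Pl k O) (ht : tt k Ω ∈ O) (f : k[X]) :
    Polynomial.aeval (tt k Ω) f ∈ O := by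
  rw [Polynomial.aeval_eq_sum_range]
  refine sum_mem fun i _ => ?_
  rw [Algebra.smul_def]
  exact mul_mem (hO.1 _) (pow_mem ht i)

/-- For every place with `t ∉ O`: `f(t)/t^n ∈ O` if `deg f ≤ n`, and it is a unit if `deg f = n` (`f ≠ 0`). -/
theorem place_inf (O : ValuationSubring Ω) (hO : Pl k O) (ht : tt k Ω ∉ O) (f : k[X]) (n : ℕ) :
    (f.natDegree ≤ n → Polynomial.aeval (tt k Ω) f / tt k Ω ^ n ∈ O) ∧
    (f ≠ 0 → f.natDegree = n → Uni O (Polynomial.aeval (tt k Ω) f / tt k Ω ^ n)) := by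
  have ht0 : tt k Ω ≠ 0 := by
    intro h
    apply ht
    rw [h]
    exact zero_mem O
  have hs : (tt k Ω)⁻¹ ∈ O := (O.mem_or_inv_mem (tt k Ω)).resolve_left ht
  have hsv : O.valuation (tt k Ω)⁻¹ < 1 := by
    rw [map_inv₀]
    have h1 : 1 < O.valuation (tt k Ω) := by
      rw [← not_le, ← mem_iff]; exact ht
    exact inv_lt_one_of_one_lt₀ h1
  have hpow : ∀ i ≤ n, (tt k Ω) ^ i / (tt k Ω) ^ n = ((tt k Ω)⁻¹) ^ (n - i) := by
    intro i hi
    rw [inv_pow, div_eq_iff (pow_ne_zero _ ht0), ← div_eq_inv_mul,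
      eq_div_iff (pow_ne_zero _ ht0), ← pow_add]
    congr 1
    omega
  refine ⟨?_, ?_⟩
  · intro hf
    rw [Polynomial.aeval_eq_sum_range, Finset.sum_div]
    refine sum_mem fun i hi => ?_
    have hi' : i ≤ n := by
      have := Finset.mem_range.1 hi
      omega
    rw [Algebra.smul_def, mul_div_assoc, hpow i hi']
    exact mul_mem (hO.1 _) (pow_mem hs _)
  · intro hf0 hf
    rw [uni_iff, Polynomial.aeval_eq_sum_range, Finset.sum_div, hf, Finset.sum_range_succ]
    have hlc : O.valuation (f.coeff n • tt k Ω ^ n / tt k Ω ^ n) = 1 := by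
      rw [Algebra.smul_def, mul_div_assoc, div_self (pow_ne_zero _ ht0), mul_one]
      have hc0 : f.coeff n ≠ 0 := by
        rw [← hf]
        exact Polynomial.leadingCoeff_ne_zero.2 hf0
      have h1 : O.valuation (algebraMap k Ω (f.coeff n)) ≤ 1 := (mem_iff _ _).1 (hO.1 _)
      have h2 : O.valuation (algebraMap k Ω (f.coeff n)⁻¹) ≤ 1 := (mem_iff _ _).1 (hO.1 _)
      rw [map_inv₀, map_inv₀] at h2
      have h3 : O.valuation (algebraMap k Ω (f.coeff n)) ≠ 0 := by
        rw [Valuation.ne_zero_iff]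
        exact (map_ne_zero _).2 hc0
      refine le_antisymm h1 ?_
      exact (inv_le_one₀ (zero_lt_iff.2 h3)).1 h2
    have hsm : O.valuation (∑ i ∈ Finset.range n, f.coeff i • tt k Ω ^ i / tt k Ω ^ n) < 1 := by
      refine Valuation.map_sum_lt _ one_ne_zero ?_
      intro i hi
      have hi' : i < n := Finset.mem_range.1 hi
      rw [Algebra.smul_def, mul_div_assoc, hpow i hi'.le, map_mul, map_pow]
      have h1 : O.valuation (algebraMap k Ω (f.coeff i)) ≤ 1 := (mem_iff _ _).1 (hO.1 _)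
      have h2 : O.valuation (tt k Ω)⁻¹ ^ (n - i) < 1 :=
        pow_lt_one₀ zero_le hsv (by omega)
      exact lt_of_le_of_lt (mul_le_of_le_one_left zero_le h1) h2
    rw [Valuation.map_add_eq_of_lt_right, hlc]
    rw [hlc]
    exact hsm

end TE
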