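import Pool.Agent.TE.U2

set_option autoImplicit false

open scoped Classical Polynomial

namespace TE

/-! ## [TE-U3] ramification of square roots -/

/-- the field `K(δ) = {α + β δ}` -/
def u3_M {F Ω : Type*} [Field F] [Field Ω] [Algebra F Ω] (K : IntermediateField F Ω) (δ : Ω)
    (hδ : δ ^ 2 ∈ K) (hK : δ ∉ K) : IntermediateField F Ω where
  carrier := {x | ∃ α ∈ K, ∃ β ∈ K, x = α + β * δ}
  mul_mem' := by
    rintro x y ⟨α, hα, β, hβ, rfl⟩ ⟨α', hα', β', hβ', rfl⟩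
    refine ⟨α * α' + β * β' * δ ^ 2, K.add_mem (K.mul_mem hα hα') (K.mul_mem (K.mul_mem hβ hβ') hδ),
      α * β' + β * α', K.add_mem (K.mul_mem hα hβ') (K.mul_mem hβ hα'), by ring⟩
  add_mem' := by
    rintro x y ⟨α, hα, β, hβ, rfl⟩ ⟨α', hα', β', hβ', rfl⟩
    exact ⟨α + α', K.add_mem hα hα', β + β', K.add_mem hβ hβ', by ring⟩
  algebraMap_mem' := fun r => ⟨algebraMap F Ω r, K.algebraMap_mem r, 0, K.zero_mem, by ring⟩
  inv_mem' := by
    rintro x ⟨α, hα, β, hβ, rfl⟩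
    by_cases hN : α ^ 2 - β ^ 2 * δ ^ 2 = 0
    · have h1 : β = 0 := by
        by_contra hb
        have h2 : (α / β) ^ 2 = δ ^ 2 := by
          rw [div_pow, div_eq_iff (pow_ne_zero 2 hb)]
          linear_combination hN
        rcases sq_eq_sq_iff_eq_or_eq_neg.1 h2 with h3 | h3
        · exact hK (h3 ▸ K.div_mem hα hβ)
        · have h4 : δ = -(α / β) := by rw [h3, neg_neg]
          exact hK (h4 ▸ K.neg_mem (K.div_mem hα hβ))
      subst h1
      exact ⟨α⁻¹, K.inv_mem hα, 0, K.zero_mem, by simp⟩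
    · have hN1 : α ^ 2 - β ^ 2 * δ ^ 2 ∈ K := K.sub_mem (pow_mem hα 2) (K.mul_mem (pow_mem hβ 2) hδ)
      refine ⟨α / (α ^ 2 - β ^ 2 * δ ^ 2), K.div_mem hα hN1, -β / (α ^ 2 - β ^ 2 * δ ^ 2),
        K.div_mem (K.neg_mem hβ) hN1, ?_⟩
      have hx : α + β * δ ≠ 0 := by
        intro h
        apply hN
        linear_combination (α - β * δ) * h
      rw [inv_eq_iff_eq_inv]
      have h5 : α / (α ^ 2 - β ^ 2 * δ ^ 2) + -β / (α ^ 2 - β ^ 2 * δ ^ 2) * δ =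
          (α - β * δ) / (α ^ 2 - β ^ 2 * δ ^ 2) := by ring
      rw [h5, inv_div, eq_div_iff]
      · ring
      · intro h
        apply hN
        linear_combination (α + β * δ) * h

theorem u3_claim {F Ω : Type*} [Field F] [Field Ω] [Algebra F Ω] (K : IntermediateField F Ω)
    (O : ValuationSubring Ω) (δ : Ω)
    (hram : ∀ κ ∈ K, κ ≠ 0 → ¬ Uni O (δ ^ 2 * κ ^ 2)) (α β : Ω) (hα : α ∈ K) (hβ : β ∈ K)
    (h : α + β * δ ∈ O) : α ∈ O ∧ β * δ ∈ O := by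
  have h1 : α ∈ O := by
    by_contra hn
    have hn1 : 1 < O.valuation α := by
      rw [← not_le, ← mem_iff]
      exact hn
    have hα0 : α ≠ 0 := by
      rintro rfl
      exact hn O.zero_mem
    have h2 : O.valuation (β * δ) = O.valuation α := by
      have h3 : β * δ = (α + β * δ) + -α := by ring
      rw [h3, Valuation.map_add_eq_of_lt_right, Valuation.map_neg]
      rw [Valuation.map_neg]
      exact lt_of_le_of_lt ((mem_iff O _).1 h) hn1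
    have h3 : O.valuation (δ ^ 2 * (β / α) ^ 2) = 1 := by
      have h4 : δ ^ 2 * (β / α) ^ 2 = (β * δ / α) ^ 2 := by ring
      rw [h4, map_pow, map_div₀, h2, div_self, one_pow]
      exact (Valuation.ne_zero_iff _).2 hα0
    refine hram (β / α) (K.div_mem hβ hα) ?_ ((uni_iff O _).2 h3)
    intro h4
    rw [h4] at h3
    simp at h3
  refine ⟨h1, ?_⟩
  have h2 : β * δ = (α + β * δ) - α := by ring
  rw [h2]
  exact sub_mem h h1

/-- `Ω/F` Galois, `K` an intermediate field, `O` a valuation ring of `Ω`, `δ² ∈ K`, and no `δ² κ²` (`κ ∈ Kˣ`) is a unit of `O`. Then some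
`g ∈ Gal(Ω/K)` with `g(O) = O` satisfies `g δ = -δ`.

Proof. `δ ∉ K` (otherwise `κ = δ⁻¹` gives `δ² κ² = 1`, a unit). So there is `g₀ ∈ Gal(Ω/K)` with `g₀ δ ≠ δ`, and `(g₀ δ)² = δ²`
gives `g₀ δ = -δ`. Let `M = K(δ) = {α + β δ : α, β ∈ K}` (as an intermediate field, e.g. `IntermediateField.adjoin` over `K`,
restricted to `F`; or define it directly by this description: it is closed under multiplication since `δ² ∈ K`, and under inverses
since `(α + βδ)⁻¹ = (α - βδ)/(α² - β²δ²)`).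
Claim: for `α, β ∈ K`: `α + β δ ∈ O ↔ α ∈ O ∧ β δ ∈ O`. Only `→` needs a proof; suppose `x = α + β δ ∈ O` and `α ∉ O`. Then
`α⁻¹ ∈ 𝔪_O`, `x/α ∈ 𝔪_O`, so `βδ/α = x/α - 1` is a unit of `O`, and `(βδ/α)² = δ² (β/α)²` is a unit with
`β/α ∈ K`, `β ≠ 0`: contradiction. So `α ∈ O` and `β δ = x - α ∈ O`.
Hence for `x = α + βδ ∈ M`: `g₀ x = α - β δ ∈ O ↔ x ∈ O`. So the valuation rings `O` and `g₀⁻¹(O) = {x : g₀ x ∈ O}` have the same
intersection with `M`, and by `exists_conj` there is `h ∈ Gal(Ω/M)` with `(h x ∈ {y : g₀ y ∈ O}) ↔ x ∈ O`, i.e.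
`g₀ (h x) ∈ O ↔ x ∈ O`. Put `g = g₀ h`: it fixes `K`, `g δ = g₀ δ = -δ`, `g(O) = O`. -/
theorem exists_ram {F Ω : Type*} [Field F] [Field Ω] [Algebra F Ω] [IsGalois F Ω] (K : IntermediateField F Ω)
    (O : ValuationSubring Ω) (δ : Ω) (hδ : δ ^ 2 ∈ K) (h0 : δ ≠ 0)
    (hram : ∀ κ ∈ K, κ ≠ 0 → ¬ Uni O (δ ^ 2 * κ ^ 2)) :
    ∃ g : Ω ≃ₐ[F] Ω, (∀ x ∈ K, g x = x) ∧ g δ = -δ ∧ ∀ x : Ω, g x ∈ O ↔ x ∈ O := by
  have hK : δ ∉ K := by
    intro h
    refine hram δ⁻¹ (K.inv_mem h) (inv_ne_zero h0) ?_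
    have h1 : δ ^ 2 * δ⁻¹ ^ 2 = 1 := by
      rw [← mul_pow, mul_inv_cancel₀ h0, one_pow]
    rw [h1, uni_iff, map_one]
  obtain ⟨g₀, hg₀, hgδ⟩ : ∃ g₀ : Ω ≃ₐ[F] Ω, (∀ x ∈ K, g₀ x = x) ∧ g₀ δ ≠ δ := by
    by_contra hcon
    push Not at hcon
    apply hK
    rw [← InfiniteGalois.fixedField_fixingSubgroup K, IntermediateField.mem_fixedField_iff]
    intro f hf
    exact hcon f ((IntermediateField.mem_fixingSubgroup_iff K f).1 hf)
  have hgδ' : g₀ δ = -δ := by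
    have h1 : g₀ δ ^ 2 = δ ^ 2 := by rw [← map_pow, hg₀ _ hδ]
    rcases sq_eq_sq_iff_eq_or_eq_neg.1 h1 with h | h
    · exact absurd h hgδ
    · exact h
  obtain ⟨h, hhM, hh⟩ := exists_conj (u3_M K δ hδ hK) O (O.comap (g₀ : Ω →+* Ω)) (by
    rintro x ⟨α, hα, β, hβ, rfl⟩
    have e1 : (g₀ : Ω →+* Ω) (α + β * δ) = α + -β * δ := by
      show g₀ (α + β * δ) = _
      rw [map_add, map_mul, hg₀ _ hα, hg₀ _ hβ, hgδ']
      ring
    rw [ValuationSubring.mem_comap, e1]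
    constructor
    · intro h
      obtain ⟨h1, h2⟩ := u3_claim K O δ hram α β hα hβ h
      rw [neg_mul]
      exact O.add_mem _ _ h1 (O.neg_mem _ h2)
    · intro h
      obtain ⟨h1, h2⟩ := u3_claim K O δ hram α (-β) hα (K.neg_mem hβ) h
      have h3 : α + β * δ = α + -(-β * δ) := by ring
      rw [h3]
      exact O.add_mem _ _ h1 (O.neg_mem _ h2))
  refine ⟨g₀ * h, ?_, ?_, ?_⟩
  · intro x hx
    have h1 : x ∈ u3_M K δ hδ hK := ⟨x, hx, 0, K.zero_mem, by ring⟩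
    rw [AlgEquiv.mul_apply, hhM x h1, hg₀ x hx]
  · have h1 : δ ∈ u3_M K δ hδ hK := ⟨0, K.zero_mem, 1, K.one_mem, by ring⟩
    rw [AlgEquiv.mul_apply, hhM δ h1, hgδ']
  · intro x
    rw [AlgEquiv.mul_apply]
    exact hh x

end TE
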