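import Pool.Agent.TE.S1
import Pool.Agent.TE.P1
import Pool.Agent.TE.K1
import Pool.Agent.TE.K3
import Pool.Agent.TE.U3

set_option autoImplicit false

open scoped Classical Polynomial

namespace TE

/-! ## [TE-S2] characters of `N` which are locally trivial outside the zeros of `Q` -/

variable {k Ω : Type*} [Field k] [Field Ω] [Algebra k Ω] [Algebra (RatFunc k) Ω] [IsScalarTower k (RatFunc k) Ω]
  [IsSepClosure (RatFunc k) Ω]

/-- If `χ` is trivial on `Stb O ∩ N`, `g δ = χ(g) δ` on `N`, `δ² = P(t)`, then some `κ ∈ Kˣ` makes `P(t) κ²` a unit of `O`. -/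
theorem S2_unit (h2 : (2 : k) ≠ 0) {χ : Gm k Ω → Ω} {δ : Ω} (h0 : δ ≠ 0)
    (hδ : ∀ g ∈ NN k Ω, g δ = χ g * δ) (hχ : ∀ g ∈ NN k Ω, χ g = 1 ∨ χ g = -1)
    (O : ValuationSubring Ω) (hO : ∀ g ∈ NN k Ω, Stb O g → χ g = 1) :
    ∃ κ : Ω, κ ≠ 0 ∧ (∀ g ∈ NN k Ω, g κ = κ) ∧ Uni O (δ ^ 2 * κ ^ 2) := by
  obtain ⟨M, hM, hN⟩ := exists_fixedField (k := k) (Ω := Ω)
  by_contra hcon
  push Not at hcon
  have : IsGalois (RatFunc k) Ω := IsSepClosure.isGalois
  have hδ2 : δ ^ 2 ∈ M := by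
    rw [hM]
    intro g hg
    rw [map_pow, hδ g hg]
    rcases hχ g hg with h | h <;> rw [h] <;> ring
  obtain ⟨g, hgM, hgδ, hgO⟩ := exists_ram M O δ hδ2 h0 (fun κ hκ hκ0 => hcon κ hκ0 ((hM κ).1 hκ))
  have hgN : g ∈ NN k Ω := (hN g).2 hgM
  have h1 := hδ g hgN
  rw [hO g hgN hgO, hgδ, one_mul] at h1
  have h3 : (2 : Ω) ≠ 0 := by
    have := (map_ne_zero (algebraMap k Ω)).2 h2
    rwa [map_ofNat] at this
  have h4 : (2 : Ω) * δ = 0 := by linear_combination -h1
  rcases mul_eq_zero.1 h4 with h | h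
  · exact h3 h
  · exact h0 h

/-- Let `Q ∈ k[X]` be separable and let the character `χ` of `N` be trivial on the decomposition groups (in `N`) of all places with
`t ∈ O`, `Q(t)` a unit, and of all places with `t ∉ O`. Then `χ = Kum S` for a set `S` of roots of `Q` with `|S|` even.

Proof. By `exists_kummer` and `normal_form` (applied to `δ`; then `δ' = κ δ`) there is `δ' ≠ 0` with `g δ' = χ(g) δ'` for `g ∈ N` and
`δ'² = P(t)`, `P ∈ k^s[X]` monic squarefree. Let `M` be the fixed field of `N` (`exists_fixedField`).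
(*) If `O` is a place with `χ g = 1` for all `g ∈ N` with `Stb O g`, then NOT (for all `κ ∈ Mˣ`: `P(t) κ²` is not a unit of `O`).
Otherwise `exists_ram` (for `M`, `δ'`) gives `g` fixing `M`, so `g ∈ N`, with `Stb O g` and `g δ' = -δ'`; but `g δ' = χ(g) δ' = δ'`, so
`2 δ' = 0`, contradiction.
(a) Let `π` be an irreducible factor of `P`; suppose `π ∤ Q` (in `k^s[X]`, `Q` mapped to `k^s[X]`). Take `O` from `exists_place π`:
`t ∈ O`, `Q(t)` is a unit, so `χ` is trivial on `Stb O ∩ N` by hypothesis; `π² ∤ P` as `P` is squarefree; contradiction to (*).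
So every irreducible factor of `P` divides `Q`, and as `P` is squarefree, `P ∣ Q`.
(b) If `deg P` were odd, `O` from `exists_place_inf` would contradict (*). So `deg P` is even.
(c) `Q` splits over `k^s` into distinct linear factors (`Q` is separable, `Ω` separably closed, roots algebraic over `k`), so `P` is the product of
the `X - r`, `r ∈ S`, for a subset `S` of the roots, `|S| = deg P`, and `δ'² = ∏_{r ∈ S} (t - r)`. -/
theorem char_local (h2 : (2 : k) ≠ 0) {Q : k[X]} (hQ : Q.Separable) (χ : Gm k Ω → Ω) (hχ : IsChar χ)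
    (hloc : ∀ O : ValuationSubring Ω, Pl k O →
      ((tt k Ω ∈ O ∧ Uni O (Polynomial.aeval (tt k Ω) Q)) ∨ tt k Ω ∉ O) → ∀ g ∈ NN k Ω, Stb O g → χ g = 1) :
    ∃ S : Finset Ω, S ⊆ rts k Q ∧ Even S.card ∧ Kum S χ := by
  obtain ⟨δ₀, hδ₀0, hδ₀⟩ := exists_kummer χ hχ
  have hpm : ∀ g ∈ NN k Ω, g δ₀ = δ₀ ∨ g δ₀ = -δ₀ := by
    intro g hg
    rw [hδ₀ g hg]
    rcases hχ.val g hg with h | h
    · left; rw [h, one_mul]
    · right; rw [h, neg_one_mul]
  obtain ⟨κ, hκ0, hκN, P, hPm, hPsf, hP⟩ := normal_form h2 δ₀ hδ₀0 hpm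
  set δ := κ * δ₀ with hδdef
  have hδ0 : δ ≠ 0 := mul_ne_zero hκ0 hδ₀0
  have hδ : ∀ g ∈ NN k Ω, g δ = χ g * δ := by
    intro g hg
    rw [hδdef, map_mul, hκN g hg, hδ₀ g hg]; ring
  have hstar : ∀ O : ValuationSubring Ω, (∀ g ∈ NN k Ω, Stb O g → χ g = 1) →
      ∃ κ : Ω, κ ≠ 0 ∧ (∀ g ∈ NN k Ω, g κ = κ) ∧ Uni O (Polynomial.aeval (tt k Ω) P * κ ^ 2) := by
    intro O hO
    have := S2_unit h2 hδ0 hδ hχ.val O hO
    rwa [hP] at this
  -- degrees
  have heven : Even P.natDegree := by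
    by_contra hodd
    rw [Nat.not_even_iff_odd] at hodd
    obtain ⟨O, hO, ht, hOP⟩ := exists_place_inf (k := k) (Ω := Ω)
    obtain ⟨κ', h1, h3, h4⟩ := hstar O (hloc O hO (Or.inr ht))
    exact hOP P hodd κ' h1 h3 h4
  set Q' : (algebraicClosure k Ω)[X] := Q.map (algebraMap k (algebraicClosure k Ω)) with hQ'def
  have hQt : Polynomial.aeval (tt k Ω) Q' = Polynomial.aeval (tt k Ω) Q := by
    rw [hQ'def, Polynomial.aeval_map_algebraMap]
  have hirr : ∀ π : (algebraicClosure k Ω)[X], Irreducible π → π ∣ P → π ∣ Q' := by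
    intro π hπ hπP
    by_contra hπQ
    obtain ⟨O, hO, hOt, hOu, hOP⟩ := exists_place (k := k) (Ω := Ω) π hπ
    have ht : tt k Ω ∈ O := by
      have := hOt Polynomial.X
      rwa [Polynomial.aeval_X] at this
    have hu : Uni O (Polynomial.aeval (tt k Ω) Q) := by
      rw [← hQt]
      exact hOu Q' hπQ
    obtain ⟨κ', h1, h3, h4⟩ := hstar O (hloc O hO (Or.inl ⟨ht, hu⟩))
    refine hOP P hπP ?_ κ' h1 h3 h4
    intro h
    rw [pow_two] at h
    exact hπ.not_isUnit (hPsf π h)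
  have hPQ : P ∣ Q' := by
    have hP0 : P ≠ 0 := hPm.ne_zero
    have hQ'0 : Q' ≠ 0 := (hQ.map (f := algebraMap k (algebraicClosure k Ω))).ne_zero
    rw [UniqueFactorizationMonoid.dvd_iff_normalizedFactors_le_normalizedFactors hP0 hQ'0,
      Multiset.le_iff_subset
        ((UniqueFactorizationMonoid.squarefree_iff_nodup_normalizedFactors hP0).1 hPsf)]
    intro π hπ
    rw [Polynomial.mem_normalizedFactors_iff hP0] at hπ
    rw [Polynomial.mem_normalizedFactors_iff hQ'0]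
    exact ⟨hπ.1, hπ.2.1, hirr π hπ.1 hπ.2.2⟩
  -- the roots
  set PΩ : Polynomial Ω := P.map (algebraMap (algebraicClosure k Ω) Ω) with hPΩ
  set QΩ : Polynomial Ω := Q.map (algebraMap k Ω) with hQΩ
  have hPs : PΩ ∣ QΩ := by
    have h := Polynomial.map_dvd (algebraMap (algebraicClosure k Ω) Ω) hPQ
    rwa [hQ'def, Polynomial.map_map, ← IsScalarTower.algebraMap_eq] at h
  have : IsSepClosed Ω := IsSepClosure.sep_closed (RatFunc k)
  have hQsep : QΩ.Separable := hQ.map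
  have hPsep : PΩ.Separable := hQsep.of_dvd hPs
  have hPm' : PΩ.Monic := hPm.map _
  have hPsplit : PΩ.Splits := IsSepClosed.splits_of_separable _ hPsep
  have hnd : PΩ.roots.Nodup := Polynomial.nodup_roots hPsep
  have hval : (PΩ.roots.toFinset).val = PΩ.roots := by
    rw [Multiset.toFinset_val, Multiset.dedup_eq_self.2 hnd]
  refine ⟨PΩ.roots.toFinset, ?_, ?_, δ, ?_, hδ⟩
  · intro r hr
    rw [Multiset.mem_toFinset] at hr
    rw [rts, Multiset.mem_toFinset]
    exact Multiset.mem_of_le (Polynomial.roots.le_of_dvd hQsep.ne_zero hPs) hr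
  · have h : PΩ.roots.toFinset.card = P.natDegree := by
      rw [Finset.card_def, hval, ← hPsplit.natDegree_eq_card_roots, hPΩ, Polynomial.natDegree_map]
    rw [h]
    exact heven
  · rw [hP, Finset.prod_eq_multiset_prod, hval, ← hPsplit.eval_eq_prod_roots_of_monic hPm', hPΩ,
      Polynomial.eval_map_algebraMap]

end TE
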