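import Pool.Agent.TE.A1
import Pool.Agent.TE.S2
import Pool.Agent.TE.A2z

set_option autoImplicit false

open WeierstrassCurve.Affine
open scoped Classical Polynomial

namespace TE

/-! ## [TE-A2a] the Kummer characters attached to Selmer classes -/

variable {k Ω : Type*} [Field k] [Field Ω] [Algebra k Ω] [Algebra (RatFunc k) Ω] [IsScalarTower k (RatFunc k) Ω]
  [IsSepClosure (RatFunc k) Ω] (d : Dat k)

/-- the local hypotheses of `stepA`, `stepB` -/
theorem a2a_loc (O : ValuationSubring Ω) (hO : Pl k O) {Q : k[X]} (hQ : Q ≠ 0) (hdeg : Q.natDegree = 4 * d.m)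
    (h : (tt k Ω ∈ O ∧ Uni O (Polynomial.aeval (tt k Ω) Q)) ∨ tt k Ω ∉ O) :
    ∃ u : RatFunc k, u ≠ 0 ∧ d.C.A Ω / algebraMap (RatFunc k) Ω u ^ 2 ∈ O ∧
      Uni O (Polynomial.aeval (tt k Ω) Q / algebraMap (RatFunc k) Ω u ^ 4) := by
  rcases h with ⟨ht, hu⟩ | ht
  · refine ⟨1, one_ne_zero, ?_, ?_⟩
    · rw [map_one, one_pow, div_one, dat_A]
      exact place_fin O hO ht d.A
    · rw [map_one, one_pow, div_one]
      exact hu
  · have hX : algebraMap (RatFunc k) Ω (RatFunc.X ^ d.m) = tt k Ω ^ d.m := by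
      rw [map_pow]
      rfl
    refine ⟨RatFunc.X ^ d.m, pow_ne_zero _ RatFunc.X_ne_zero, ?_, ?_⟩
    · rw [hX, ← pow_mul, mul_comm d.m 2, dat_A]
      exact (place_inf O hO ht d.A (2 * d.m)).1 d.degA
    · rw [hX, ← pow_mul, mul_comm d.m 4]
      exact (place_inf O hO ht Q (4 * d.m)).2 hQ hdeg

/-- For a Selmer crossed homomorphism `f` with values in `E[2]` the character `ch ∘ f` of `N` is `Kum S` for a set `S` of roots of `B`
with `|S|` even. Proof: `χ g = ch (f g)` is `IsChar` (`ch_add`, `ch_act`; `ch_zero` for continuity). Apply `char_local` with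
`Q = B`; the local hypothesis is `stepA` with `u = 1` if `t ∈ O` and `B(t)` is a unit (`place_fin` for `A`), and with `u = t^m` if
`t ∉ O` (`place_inf` for `A` with `n = 2m` and `B` with `n = 4m`). -/
theorem coreA {f : Gm k Ω → d.C.Pt Ω} (hf : IsSel d.C f) (h2f : ∀ g ∈ NN k Ω, (2 : ℕ) • f g = 0) :
    ∃ S : Finset Ω, S ⊆ rts k d.B ∧ Even S.card ∧ Kum S (fun g => d.C.ch (f g)) := by
  have hch : IsChar (fun g => d.C.ch (f g)) := by
    refine ⟨fun g _ => ch_val d.C (f g), fun g hg h hh => ?_, ?_⟩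
    · show d.C.ch (f (g * h)) = d.C.ch (f g) * d.C.ch (f h)
      rw [hf.mul g hg h hh, ch_add d.C (h2f g hg) (by rw [← map_nsmul, h2f h hh, map_zero]), ch_act]
    · obtain ⟨L, hL, h⟩ := hf.cont
      refine ⟨L, hL, fun g hg hx => ?_⟩
      show d.C.ch (f g) = 1
      rw [h g hg hx, ch_zero]
  refine char_local d.h2 d.sepB _ hch fun O hO hor g hg hs => ?_
  obtain ⟨u, hu, ha, hb⟩ := a2a_loc d O hO d.B_ne d.degB hor
  refine stepA d.C d.h2 hf h2f O hO u hu ha ?_ g hg hs
  rw [dat_B]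
  exact hb

/-- For a Selmer crossed homomorphism `f` with values in `{0, T}` the character `g ↦ (1 if f g = 0, -1 if f g = T)` is `Kum S` for a set
`S` of roots of `D` with `|S|` even. Same proof with `stepB`, `Q = D`. (`f` is a homomorphism on `N` as `T` is fixed.) -/
theorem coreB {f : Gm k Ω → d.C.Pt Ω} (hf : IsSel d.C f) (hT : ∀ g ∈ NN k Ω, f g = 0 ∨ f g = d.C.T Ω) :
    ∃ S : Finset Ω, S ⊆ rts k d.D ∧ Even S.card ∧ Kum S (fun g => if f g = 0 then 1 else -1) := by
  have hT0 : d.C.T Ω ≠ 0 := T_ne d.C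
  have hch : IsChar (fun g => if f g = 0 then (1 : Ω) else -1) := by
    refine ⟨fun g _ => ?_, fun g hg h hh => ?_, ?_⟩
    · show (if f g = 0 then (1 : Ω) else -1) = 1 ∨ (if f g = 0 then (1 : Ω) else -1) = -1
      split_ifs
      · exact Or.inl rfl
      · exact Or.inr rfl
    · show (if f (g * h) = 0 then (1 : Ω) else -1) =
        (if f g = 0 then (1 : Ω) else -1) * (if f h = 0 then (1 : Ω) else -1)
      have hact : d.C.act g (f h) = f h := by
        rcases hT h hh with h1 | h1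
        · rw [h1, map_zero]
        · rw [h1, act_T]
      rw [hf.mul g hg h hh, hact]
      rcases hT g hg with h1 | h1 <;> rcases hT h hh with h2 | h2
      · rw [h1, h2]
        simp
      · rw [h1, h2]
        simp [hT0]
      · rw [h1, h2]
        simp [hT0]
      · have h3 : d.C.T Ω + d.C.T Ω = 0 := by
          rw [← two_nsmul]
          exact two_T d.C
        rw [h1, h2, h3]
        simp [hT0]
    · obtain ⟨L, hL, h⟩ := hf.cont
      refine ⟨L, hL, fun g hg hx => ?_⟩
      show (if f g = 0 then (1 : Ω) else -1) = 1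
      rw [if_pos (h g hg hx)]
  refine char_local d.h2 (Q := d.D) d.sepD _ hch fun O hO hor g hg hs => ?_
  obtain ⟨u, hu, ha, hb⟩ := a2a_loc d O hO d.D_ne d.degD hor
  show (if f g = 0 then (1 : Ω) else -1) = 1
  refine if_pos (stepB d.C d.h2 hf hT O hO u hu ha ?_ g hg hs)
  rw [dat_D]
  exact hb

end TE
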