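import Mathlib

set_option autoImplicit false

open WeierstrassCurve.Affine
open scoped Classical Polynomial

/-!
# The Tate conjecture for divisors at `ℓ = 2` for elliptic surfaces with a `2`-torsion section: definitions

`k` is a field, `2 ≠ 0` in `k`, `F = k(t) = RatFunc k`, `Ω` is a separable closure of `F`, `Γ = Gal(Ω/F)`, `k^s ⊆ Ω` is the
set of elements algebraic over `k`, `K = k^s(t)`, `N = Gal(Ω/K)` (`NN`).
The curve is `E : y² = x (x² + a x + b)` over `F`, `a = A(t)`, `b = B(t)`, `D = A² - 4 B`.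
-/

namespace TE

/-- The data of a curve `y² = x (x² + a x + b)` over a field `F`. -/
structure Crv (F : Type*) [Field F] where
  a : F
  b : F
  h2 : (2 : F) ≠ 0
  hb : b ≠ 0
  hd : a ^ 2 - 4 * b ≠ 0

section curve

variable {F : Type*} [Field F] (C : Crv F)

/-- `y² = x³ + a x² + b x` -/
def Crv.W : WeierstrassCurve F := ⟨0, C.a, 0, C.b, 0⟩

/-- the points over an extension `K` of `F` -/
abbrev Crv.Pt (K : Type*) [Field K] [Algebra F K] : Type _ := (C.W⁄K).Point

variable {K : Type*} [Field K] [Algebra F K]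

/-- the action of the automorphisms on the points -/
noncomputable def Crv.act (g : K ≃ₐ[F] K) : C.Pt K →+ C.Pt K :=
  WeierstrassCurve.Affine.Point.map (W' := C.W) (g : K →ₐ[F] K)

variable (K)

/-- the inclusion `E(F) → E(K)` -/
noncomputable def Crv.inc : C.Pt F →+ C.Pt K :=
  WeierstrassCurve.Affine.Point.map (W' := C.W) (Algebra.ofId F K)

end curve

section field

variable (k Ω : Type*) [Field k] [Field Ω] [Algebra k Ω] [Algebra (RatFunc k) Ω]

/-- the Galois group of `Ω` over `k(t)` -/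
abbrev Gm : Type _ := Ω ≃ₐ[RatFunc k] Ω

/-- the element `t` of `Ω` -/
noncomputable def tt : Ω := algebraMap (RatFunc k) Ω RatFunc.X

variable [IsScalarTower k (RatFunc k) Ω]

/-- `N = Gal(Ω / k^s(t))`: the automorphisms of `Ω` over `k(t)` fixing all elements algebraic over `k`. -/
def NN : Subgroup (Gm k Ω) where
  carrier := {g | ∀ c : Ω, IsAlgebraic k c → g c = c}
  mul_mem' := by
    intro g h hg hh c hc
    rw [AlgEquiv.mul_apply, hh c hc, hg c hc]
  one_mem' := fun _ _ => rfl
  inv_mem' := by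
    intro g hg c hc
    have h := hg c hc
    have h2 : (g⁻¹ * g) c = c := by rw [inv_mul_cancel]; rfl
    rwa [AlgEquiv.mul_apply, h] at h2

variable {Ω}

/-- `O` is a place of `Ω` over `k`: a valuation ring `≠ Ω` of `Ω` containing `k`. -/
def Pl (O : ValuationSubring Ω) : Prop := (∀ c : k, algebraMap k Ω c ∈ O) ∧ O ≠ ⊤

variable {k}

/-- `g` maps the valuation ring `O` onto itself. -/
def Stb (O : ValuationSubring Ω) (g : Gm k Ω) : Prop := ∀ x : Ω, g x ∈ O ↔ x ∈ O

variable (k)

/-- the roots in `Ω` of a polynomial with coefficients in `k` -/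
noncomputable def rts (Q : k[X]) : Finset Ω := (Q.map (algebraMap k Ω)).roots.toFinset

variable {k}

/-- continuous crossed homomorphisms `N → E(Ω)` (only the values on `N` matter) -/
structure IsCoc (C : Crv (RatFunc k)) (f : Gm k Ω → C.Pt Ω) : Prop where
  mul : ∀ g ∈ NN k Ω, ∀ h ∈ NN k Ω, f (g * h) = f g + C.act g (f h)
  cont : ∃ L : IntermediateField (RatFunc k) Ω, FiniteDimensional (RatFunc k) L ∧
    ∀ g ∈ NN k Ω, (∀ x ∈ L, g x = x) → f g = 0

/-- Selmer crossed homomorphisms: those which become trivial on the decomposition group (in `N`) of every place of `Ω` over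
`k`. -/
structure IsSel (C : Crv (RatFunc k)) (f : Gm k Ω → C.Pt Ω) : Prop extends IsCoc C f where
  loc : ∀ O : ValuationSubring Ω, Pl k O → ∃ P : C.Pt Ω, ∀ g ∈ NN k Ω, Stb O g → f g = C.act g P - P

/-- the conjugate `γ f γ⁻¹` of a crossed homomorphism -/
noncomputable def tw (C : Crv (RatFunc k)) (γ : Gm k Ω) (f : Gm k Ω → C.Pt Ω) : Gm k Ω → C.Pt Ω :=
  fun g => C.act γ (f (γ⁻¹ * g * γ))

end field

/-- The polynomials `A`, `B`: `deg A ≤ 2m`, `deg B = deg (A² - 4B) = 4m`, `B` and `A² - 4B` separable. -/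
structure Dat (k : Type*) [Field k] where
  m : ℕ
  hm : 0 < m
  A : k[X]
  B : k[X]
  h2 : (2 : k) ≠ 0
  degA : A.natDegree ≤ 2 * m
  degB : B.natDegree = 4 * m
  degD : (A ^ 2 - 4 * B).natDegree = 4 * m
  sepB : B.Separable
  sepD : (A ^ 2 - 4 * B).Separable

section dat

variable {k : Type*} [Field k]

/-- `D = A² - 4 B` -/
noncomputable def Dat.D (d : Dat k) : k[X] := d.A ^ 2 - 4 * d.B

theorem Dat.B_ne (d : Dat k) : d.B ≠ 0 := by
  intro h
  have := d.degB
  rw [h, Polynomial.natDegree_zero] at this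
  have := d.hm
  omega

theorem Dat.D_ne (d : Dat k) : d.D ≠ 0 := by
  intro h
  have := d.degD
  rw [← Dat.D, h, Polynomial.natDegree_zero] at this
  have := d.hm
  omega

/-- the generic fibre -/
noncomputable def Dat.C (d : Dat k) : Crv (RatFunc k) where
  a := algebraMap k[X] (RatFunc k) d.A
  b := algebraMap k[X] (RatFunc k) d.B
  h2 := by
    have h := (map_ne_zero (algebraMap k (RatFunc k))).2 d.h2
    rwa [map_ofNat] at h
  hb := by
    intro h
    exact d.B_ne ((map_eq_zero_iff _ (RatFunc.algebraMap_injective k)).1 h)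
  hd := by
    intro h
    apply d.D_ne
    apply (map_eq_zero_iff _ (RatFunc.algebraMap_injective k)).1
    rw [← h, Dat.D, map_sub, map_pow, map_mul, map_ofNat]

end dat

section conditions

variable {k : Type*} [Field k]

/-- Every even set `S` of roots of `B` with `γ S = S` or `γ S =` the complement for all `γ` is empty, everything, or belongs to a
rational point `(X, Y)` of `E : Y² = X (X² + a X + b)`, `X ≠ 0`: `X ∏_{r ∈ S} (t - r)` is a square in `K`. -/
def CondB (d : Dat k) (Ω : Type*) [Field Ω] [Algebra k Ω] [Algebra (RatFunc k) Ω] [IsScalarTower k (RatFunc k) Ω] : Prop :=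
  ∀ S : Finset Ω, S ⊆ rts k d.B → Even S.card →
    (∀ γ : Gm k Ω, S.image γ = S ∨ S.image γ = rts k d.B \ S) →
    S = ∅ ∨ S = rts k d.B ∨ ∃ X Y : RatFunc k, X ≠ 0 ∧ Y ^ 2 = X * (X ^ 2 + d.C.a * X + d.C.b) ∧
      ∃ κ : Ω, (∀ g ∈ NN k Ω, g κ = κ) ∧ κ ^ 2 = algebraMap (RatFunc k) Ω X * ∏ r ∈ S, (tt k Ω - r)

/-- The same for the roots of `D` and the isogenous curve `V² = U (U² - 2 a U + (a² - 4 b))`. -/
def CondD (d : Dat k) (Ω : Type*) [Field Ω] [Algebra k Ω] [Algebra (RatFunc k) Ω] [IsScalarTower k (RatFunc k) Ω] : Prop :=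
  ∀ S : Finset Ω, S ⊆ rts k d.D → Even S.card →
    (∀ γ : Gm k Ω, S.image γ = S ∨ S.image γ = rts k d.D \ S) →
    S = ∅ ∨ S = rts k d.D ∨ ∃ U V : RatFunc k, U ≠ 0 ∧
      V ^ 2 = U * (U ^ 2 - 2 * d.C.a * U + (d.C.a ^ 2 - 4 * d.C.b)) ∧
      ∃ κ : Ω, (∀ g ∈ NN k Ω, g κ = κ) ∧ κ ^ 2 = algebraMap (RatFunc k) Ω U * ∏ r ∈ S, (tt k Ω - r)

/-- `Q` is a product of two irreducible polynomials of odd degree. -/
def OddPair (Q : k[X]) : Prop :=
  ∃ P1 P2 : k[X], Irreducible P1 ∧ Irreducible P2 ∧ Odd P1.natDegree ∧ Odd P2.natDegree ∧ Q = P1 * P2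

/-- The set of roots of `Q` has no nontrivial subset which is stable under `Γ` up to complements (`Q` has no nontrivial factor over `k`
and no nontrivial factor over a quadratic extension whose conjugate is the complementary factor). -/
def Prim (Ω : Type*) [Field Ω] [Algebra k Ω] [Algebra (RatFunc k) Ω] [IsScalarTower k (RatFunc k) Ω] (Q : k[X]) : Prop :=
  ∀ S : Finset Ω, S ⊆ rts k Q → (∀ γ : Gm k Ω, S.image γ = S ∨ S.image γ = rts k Q \ S) → S = ∅ ∨ S = rts k Q

variable (k) in
/-- the roots of `Q` as a type -/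
abbrev RT (Ω : Type*) [Field Ω] [Algebra k Ω] (Q : k[X]) : Type _ := {r : Ω // r ∈ (rts k Q : Finset Ω)}

end conditions

end TE
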