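import Pool.Agent.TE.Base

set_option autoImplicit false

open WeierstrassCurve.Affine
open scoped Classical Polynomial

/-!
# Compatible systems of Selmer classes, large Galois groups: definitions
-/

namespace TE

variable {k : Type*} [Field k] {Ω : Type*} [Field Ω] [Algebra k Ω] [Algebra (RatFunc k) Ω] [IsScalarTower k (RatFunc k) Ω]

/-- A compatible system of classes in the Selmer groups of `E[2ⁿ]` over `k^s(t)`: crossed homomorphisms `f_n` of `N` with values killed by `2ⁿ`,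
with `2 f_{n+1}` and `f_n` differing by the coboundary of a point killed by `2ⁿ`. -/
structure Sys (C : Crv (RatFunc k)) (f : ℕ → Gm k Ω → C.Pt Ω) : Prop where
  sel : ∀ n, IsSel C (f n)
  tors : ∀ n, ∀ g ∈ NN k Ω, (2 ^ n : ℕ) • f n g = 0
  comp : ∀ n, ∃ Q : C.Pt Ω, (2 ^ n : ℕ) • Q = 0 ∧ ∀ g ∈ NN k Ω, (2 : ℕ) • f (n + 1) g - f n g = C.act g Q - Q

/-- The classes of the `f_n` (in the cohomology of `E[2ⁿ]`) are fixed by `γ`. -/
def FixBy (C : Crv (RatFunc k)) (γ : Gm k Ω) (f : ℕ → Gm k Ω → C.Pt Ω) : Prop :=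
  ∀ n, ∃ Q : C.Pt Ω, (2 ^ n : ℕ) • Q = 0 ∧ ∀ g ∈ NN k Ω, tw C γ (f n) g - f n g = C.act g Q - Q

/-- Every pair of an even permutation of the roots of `B` and an even permutation of the roots of `D` is induced by an element of `Γ`. -/
def Alt (d : Dat k) (Ω : Type*) [Field Ω] [Algebra k Ω] [Algebra (RatFunc k) Ω] : Prop :=
  ∀ σ ∈ alternatingGroup (RT k Ω d.B), ∀ τ ∈ alternatingGroup (RT k Ω d.D),
    ∃ γ : Gm k Ω, (∀ r, γ r.1 = (σ r).1) ∧ ∀ r, γ r.1 = (τ r).1

end TE
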