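import Pool.Agent.TE.Base2

set_option autoImplicit false

open WeierstrassCurve.Affine
open scoped Classical Polynomial

/-!
# A Galois element moving square roots of the differences of the roots of `B` and `D`: definitions
-/

namespace TE

variable {k : Type*} [Field k] {Ω : Type*} [Field Ω] [Algebra k Ω] [Algebra (RatFunc k) Ω]

/-- `γ` moves a square root of `δ - r`. -/
def Mv (γ : Gm k Ω) (r δ : Ω) : Prop := ∃ w : Ω, w ^ 2 = δ - r ∧ γ w ≠ w

/-- the set of the roots `δ` of `D` such that `γ` moves the square root of `δ - r` for an odd number of elements `r` of `S` -/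
noncomputable def trB (d : Dat k) (γ : Gm k Ω) (S : Finset Ω) : Finset Ω :=
  (rts k d.D).filter (fun δ => Odd (S.filter (fun r => Mv γ r δ)).card)

/-- the set of the roots `r` of `B` such that `γ` moves the square root of `δ - r` for an odd number of elements `δ` of `S` -/
noncomputable def trD (d : Dat k) (γ : Gm k Ω) (S : Finset Ω) : Finset Ω :=
  (rts k d.B).filter (fun r => Odd (S.filter (fun δ => Mv γ r δ)).card)

/-- `γ` fixes the roots of `B` and of `D`. -/
def FixRts (d : Dat k) (γ : Gm k Ω) : Prop := (∀ r ∈ (rts k d.B : Finset Ω), γ r = r) ∧ ∀ δ ∈ (rts k d.D : Finset Ω), γ δ = δ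

/-- For every even set `S` of roots of `B`, `S ≠ ∅` and not the set of all roots, `trD (trB S)` is neither `∅` nor the set of all roots nor `S` nor
the complement of `S`. -/
def Star (d : Dat k) (γ : Gm k Ω) : Prop :=
  ∀ S : Finset Ω, S ⊆ rts k d.B → Even S.card → S ≠ ∅ → S ≠ rts k d.B →
    trD d γ (trB d γ S) ≠ ∅ ∧ trD d γ (trB d γ S) ≠ rts k d.B ∧ trD d γ (trB d γ S) ≠ S ∧
      trD d γ (trB d γ S) ≠ rts k d.B \ S

/-- The Galois group of the field of the square roots of the `δ - r` is as large as possible: every pattern `M` of signs for which the parities of the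
numbers of `r` with `M r δ` and of the numbers of `δ` with `M r δ` are constant is realized by a Galois element fixing the roots. -/
def Big (d : Dat k) (Ω : Type*) [Field Ω] [Algebra k Ω] [Algebra (RatFunc k) Ω] : Prop :=
  ∀ M : Ω → Ω → Prop,
    (∀ δ ∈ (rts k d.D : Finset Ω), ∀ δ' ∈ (rts k d.D : Finset Ω),
      (Odd ((rts k d.B).filter (fun r => M r δ)).card ↔ Odd ((rts k d.B).filter (fun r => M r δ')).card)) →
    (∀ r ∈ (rts k d.B : Finset Ω), ∀ r' ∈ (rts k d.B : Finset Ω),
      (Odd ((rts k d.D).filter (fun δ => M r δ)).card ↔ Odd ((rts k d.D).filter (fun δ => M r' δ)).card)) →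
    ∃ γ : Gm k Ω, FixRts d γ ∧ ∀ r ∈ (rts k d.B : Finset Ω), ∀ δ ∈ (rts k d.D : Finset Ω), (Mv γ r δ ↔ M r δ)

/-- For some roots `r`, `r'` of `B` and `δ`, `δ'` of `D` the product `(δ - r)(δ' - r)(δ - r')(δ' - r')` is not a square in the field generated by the
roots: some `γ` fixing all roots moves its square root. -/
def NonSq (d : Dat k) (Ω : Type*) [Field Ω] [Algebra k Ω] [Algebra (RatFunc k) Ω] : Prop :=
  ∃ r ∈ (rts k d.B : Finset Ω), ∃ r' ∈ (rts k d.B : Finset Ω), ∃ δ ∈ (rts k d.D : Finset Ω), ∃ δ' ∈ (rts k d.D : Finset Ω),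
    ∃ w : Ω, w ^ 2 = (δ - r) * (δ' - r) * (δ - r') * (δ' - r') ∧ ∃ γ : Gm k Ω, FixRts d γ ∧ γ w ≠ w

end TE
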