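import Pool.Agent.TE.Base

set_option autoImplicit false

open WeierstrassCurve.Affine
open scoped Classical Polynomial

/-! # [TE] auxiliary definitions -/

namespace TE

/-! ## the curve `y² = x (x² + a x + b)` -/

section curve

variable {F : Type*} [Field F] (C : Crv F)

variable (K : Type*) [Field K] [Algebra F K]

/-- `a` in the extension `K` -/
def Crv.A : K := algebraMap F K C.a

/-- `b` in the extension `K` -/
def Crv.B : K := algebraMap F K C.b

include C in
theorem Crv.two_ne : (2 : K) ≠ 0 := by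
  have := (map_ne_zero (algebraMap F K)).2 C.h2
  rwa [map_ofNat] at this

theorem Crv.B_ne : C.B K ≠ 0 := (map_ne_zero (algebraMap F K)).2 C.hb

theorem Crv.D_ne : C.A K ^ 2 - 4 * C.B K ≠ 0 := by
  have := (map_ne_zero (algebraMap F K)).2 C.hd
  rwa [map_sub, map_pow, map_mul, map_ofNat] at this

variable {K}

theorem Crv.nonsing {x y : K} (h : y ^ 2 = x * (x ^ 2 + C.A K * x + C.B K)) : (C.W⁄K).Nonsingular x y := by
  have h1 : (C.W⁄K).Equation x y := by
    rw [WeierstrassCurve.Affine.equation_iff]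
    simp only [WeierstrassCurve.baseChange, WeierstrassCurve.map, Crv.W, map_zero, Crv.A, Crv.B] at h ⊢
    linear_combination h
  rw [← WeierstrassCurve.Affine.equation_iff_nonsingular_of_Δ_ne_zero]
  · exact h1
  · have h3 : ((C.W⁄K) : WeierstrassCurve K).Δ = 16 * C.B K ^ 2 * (C.A K ^ 2 - 4 * C.B K) := by
      simp only [WeierstrassCurve.baseChange, WeierstrassCurve.map, Crv.W, map_zero, Crv.A, Crv.B,
        WeierstrassCurve.Δ, WeierstrassCurve.b₂, WeierstrassCurve.b₄, WeierstrassCurve.b₆, WeierstrassCurve.b₈]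
      ring
    rw [h3]
    have h16 : (16 : K) ≠ 0 := by
      have := pow_ne_zero 4 (C.two_ne K)
      norm_num at this
      exact this
    exact mul_ne_zero (mul_ne_zero h16 (pow_ne_zero _ (C.B_ne K))) (C.D_ne K)

/-- the point with coordinates `x`, `y` -/
def Crv.pt (x y : K) (h : y ^ 2 = x * (x ^ 2 + C.A K * x + C.B K)) : C.Pt K := .some x y (C.nonsing h)

variable (K)

/-- the point `(0, 0)` of order two -/
def Crv.T : C.Pt K := C.pt (K := K) 0 0 (by simp)

variable {K}

/-- the `x`-coordinate (`0` at the point at infinity) -/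
def Crv.xx : C.Pt K → K
  | .zero => 0
  | .some x _ _ => x

/-- the `y`-coordinate (`0` at the point at infinity) -/
def Crv.yy : C.Pt K → K
  | .zero => 0
  | .some _ y _ => y

/-- the character of `E[2]` which is `1` on `0`, `T` and `-1` on the other two points -/
noncomputable def Crv.ch (P : C.Pt K) : K := if P = 0 ∨ P = C.T K then 1 else -1

/-- the function `(x² - b) / (2 y)` -/
noncomputable def Crv.gf (P : C.Pt K) : K := (C.xx P ^ 2 - C.B K) / (2 * C.yy P)

/-- the function `y / x` -/
noncomputable def Crv.hf (P : C.Pt K) : K := C.yy P / C.xx P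

/-- the function `x - b / x` -/
noncomputable def Crv.wf (P : C.Pt K) : K := C.xx P - C.B K / C.xx P

end curve

/-! ## places and characters -/

section field

variable (k Ω : Type*) [Field k] [Field Ω] [Algebra k Ω] [Algebra (RatFunc k) Ω]

variable [IsScalarTower k (RatFunc k) Ω]

variable {Ω}

variable {k}

/-- `x` is a unit of `O`. -/
def Uni (O : ValuationSubring Ω) (x : Ω) : Prop := x ∈ O ∧ x⁻¹ ∈ O ∧ x ≠ 0

/-- `x` lies in the maximal ideal of `O`. -/
def Mx (O : ValuationSubring Ω) (x : Ω) : Prop := x ∈ O ∧ ¬ Uni O x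

/-- a continuous character `N → {1, -1} ⊆ Ω` (only the values on `N` matter) -/
structure IsChar (χ : Gm k Ω → Ω) : Prop where
  val : ∀ g ∈ NN k Ω, χ g = 1 ∨ χ g = -1
  mul : ∀ g ∈ NN k Ω, ∀ h ∈ NN k Ω, χ (g * h) = χ g * χ h
  cont : ∃ L : IntermediateField (RatFunc k) Ω, FiniteDimensional (RatFunc k) L ∧
    ∀ g ∈ NN k Ω, (∀ x ∈ L, g x = x) → χ g = 1

/-- `χ` is the Kummer character of `N` belonging to `∏_{r ∈ S} (t - r)`. -/
def Kum (S : Finset Ω) (χ : Gm k Ω → Ω) : Prop :=
  ∃ e : Ω, e ^ 2 = ∏ r ∈ S, (tt k Ω - r) ∧ ∀ g ∈ NN k Ω, g e = χ g * e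

end field

end TE
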