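import Pool.Agent.TE.Defs

set_option autoImplicit false

open WeierstrassCurve.Affine
open scoped Classical Polynomial

namespace TE

/-! ## [TE-E1] coordinates and the group law of `y² = x (x² + a x + b)`

Everything is a computation with the Mathlib formulas (`WeierstrassCurve.Affine.Point.add_some`, `add_of_Y_eq`, `add_self_of_Y_ne`,
`slope_of_X_ne`, `slope_of_Y_ne`, `addX`, `addY`, `negY`); `a₁ = a₃ = a₆ = 0`, `a₂ = C.A K`, `a₄ = C.B K`
(see the proof of `Crv.nonsing` in `Defs.lean` for unfolding the base change). Compare `Pool/Agent/TRS/S1.lean` (same rows for another curve). -/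

variable {F : Type*} [Field F] (C : Crv F) {K : Type*} [Field K] [Algebra F K]

theorem e1_eqn {x y : K} (h : (C.W⁄K).Nonsingular x y) :
    y ^ 2 = x * (x ^ 2 + C.A K * x + C.B K) := by
  have h1 := (WeierstrassCurve.Affine.equation_iff _ _).1 h.1
  simp only [WeierstrassCurve.baseChange, WeierstrassCurve.map, Crv.W, map_zero, Crv.A, Crv.B] at h1 ⊢
  linear_combination h1

theorem e1_some {x y : K} (h : (C.W⁄K).Nonsingular x y) :
    Point.some x y h = C.pt x y (e1_eqn C h) := rfl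

theorem e1_congr {x y x' y' : K} (h : y ^ 2 = x * (x ^ 2 + C.A K * x + C.B K))
    (h' : y' ^ 2 = x' * (x' ^ 2 + C.A K * x' + C.B K)) (hx : x = x') (hy : y = y') :
    C.pt x y h = C.pt x' y' h' := by
  subst hx; subst hy; rfl

theorem e1_negY (x y : K) : (C.W⁄K).negY x y = -y := by
  simp only [WeierstrassCurve.Affine.negY, WeierstrassCurve.baseChange, WeierstrassCurve.map, Crv.W,
    map_zero]
  ring

theorem e1_addX (x x' m : K) : (C.W⁄K).addX x x' m = m ^ 2 - C.A K - x - x' := by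
  simp only [WeierstrassCurve.Affine.addX, WeierstrassCurve.baseChange, WeierstrassCurve.map, Crv.W,
    map_zero, Crv.A]
  ring

theorem e1_addY (x x' y m : K) : (C.W⁄K).addY x x' y m = -(m * ((C.W⁄K).addX x x' m - x) + y) := by
  rw [WeierstrassCurve.Affine.addY, e1_negY, WeierstrassCurve.Affine.negAddY]

theorem e1_add {x y x' y' : K} (h : y ^ 2 = x * (x ^ 2 + C.A K * x + C.B K))
    (h' : y' ^ 2 = x' * (x' ^ 2 + C.A K * x' + C.B K)) (hx : x ≠ x') {X Y : K}
    (hX : X = ((y - y') / (x - x')) ^ 2 - C.A K - x - x')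
    (hY : Y = -((y - y') / (x - x') * (X - x) + y)) :
    ∃ h'' : _, C.pt x y h + C.pt x' y' h' = C.pt X Y h'' := by
  have hs := slope_of_X_ne (W := (C.W⁄K)) (y₁ := y) (y₂ := y') hx
  have hadd := Point.add_of_X_ne (W := (C.W⁄K)) (h₁ := C.nonsing h) (h₂ := C.nonsing h') hx
  have hX' : (C.W⁄K).addX x x' ((C.W⁄K).slope x x' y y') = X := by
    rw [e1_addX, hs, hX]
  have hY' : (C.W⁄K).addY x x' y ((C.W⁄K).slope x x' y y') = Y := by
    rw [e1_addY, hX', hs, hY]
  have hsum : C.pt x y h + C.pt x' y' h' = _ := hadd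
  rw [hsum, e1_some]
  have h7 := e1_eqn C (nonsingular_add (C.nonsing h) (C.nonsing h') (fun hxy => hx hxy.1))
  rw [hX', hY'] at h7
  exact ⟨h7, e1_congr C _ _ hX' hY'⟩

theorem exists_pt (P : C.Pt K) (hP : P ≠ 0) :
    ∃ (x y : K) (h : y ^ 2 = x * (x ^ 2 + C.A K * x + C.B K)), P = C.pt x y h := by
  cases P with
  | zero => exact absurd rfl hP
  | some x y h => exact ⟨x, y, e1_eqn C h, rfl⟩

theorem pt_ne_zero {x y : K} (h : y ^ 2 = x * (x ^ 2 + C.A K * x + C.B K)) : C.pt x y h ≠ 0 := by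
  unfold Crv.pt
  exact Point.some_ne_zero _

theorem xx_pt {x y : K} (h : y ^ 2 = x * (x ^ 2 + C.A K * x + C.B K)) :
    C.xx (C.pt x y h) = x ∧ C.yy (C.pt x y h) = y := by
  exact ⟨rfl, rfl⟩

theorem xx_zero : C.xx (0 : C.Pt K) = 0 ∧ C.yy (0 : C.Pt K) = 0 := by
  exact ⟨rfl, rfl⟩

theorem pt_inj {x y x' y' : K} (h : y ^ 2 = x * (x ^ 2 + C.A K * x + C.B K))
    (h' : y' ^ 2 = x' * (x' ^ 2 + C.A K * x' + C.B K)) :
    C.pt x y h = C.pt x' y' h' ↔ x = x' ∧ y = y' := by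
  constructor
  · intro h1
    have h2 := xx_pt C h
    have h3 := xx_pt C h'
    rw [h1] at h2
    exact ⟨h2.1.symm.trans h3.1, h2.2.symm.trans h3.2⟩
  · rintro ⟨h1, h2⟩
    exact e1_congr C h h' h1 h2

/-- the equation of the curve for the coordinate functions -/
theorem eqn (P : C.Pt K) : C.yy P ^ 2 = C.xx P * (C.xx P ^ 2 + C.A K * C.xx P + C.B K) := by
  by_cases hP : P = 0
  · subst hP
    rw [(xx_zero C (K := K)).1, (xx_zero C (K := K)).2]
    ring
  · obtain ⟨x, y, h, rfl⟩ := exists_pt C P hP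
    rw [(xx_pt C h).1, (xx_pt C h).2]
    exact h

theorem neg_pt {x y : K} (h : y ^ 2 = x * (x ^ 2 + C.A K * x + C.B K)) :
    -C.pt x y h = C.pt x (-y) (by rw [neg_sq]; exact h) := by
  unfold Crv.pt
  rw [Point.neg_some, Point.some.injEq]
  exact ⟨rfl, e1_negY C x y⟩

/-- doubling: `x(2P) = ((x² - b) / (2 y))²` (slope `(3x² + 2ax + b)/(2y)`, `4 y² = 4 x (x² + a x + b)`) -/
theorem two_pt {x y : K} (h : y ^ 2 = x * (x ^ 2 + C.A K * x + C.B K)) (hy : y ≠ 0) :
    ∃ (y2 : K) (h2 : _), (2 : ℕ) • C.pt x y h = C.pt (((x ^ 2 - C.B K) / (2 * y)) ^ 2) y2 h2 := by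
  have h2 : (2 : K) ≠ 0 := C.two_ne K
  have hne : y ≠ (C.W⁄K).negY x y := by
    rw [e1_negY]
    intro h3
    apply hy
    have h5 : 2 * y = 0 := by linear_combination h3
    exact (mul_eq_zero.1 h5).resolve_left h2
  obtain ⟨m, hm⟩ : ∃ m : K, m = (3 * x ^ 2 + 2 * C.A K * x + C.B K) / (2 * y) := ⟨_, rfl⟩
  have hmy : m * (2 * y) = 3 * x ^ 2 + 2 * C.A K * x + C.B K := by
    rw [hm, div_mul_cancel₀ _ (mul_ne_zero h2 hy)]
  have hs : (C.W⁄K).slope x x y y = m := by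
    rw [slope_of_Y_ne rfl hne, e1_negY, hm]
    simp only [WeierstrassCurve.baseChange, WeierstrassCurve.map, Crv.W, map_zero, Crv.A, Crv.B]
    congr 1 <;> ring
  have hX' : (C.W⁄K).addX x x ((C.W⁄K).slope x x y y) = ((x ^ 2 - C.B K) / (2 * y)) ^ 2 := by
    rw [e1_addX, hs, div_pow, eq_div_iff (pow_ne_zero 2 (mul_ne_zero h2 hy))]
    linear_combination (m * (2 * y) + (3 * x ^ 2 + 2 * C.A K * x + C.B K)) * hmy -
      4 * (C.A K + 2 * x) * h
  have hadd : (2 : ℕ) • C.pt x y h = Point.some _ _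
      (nonsingular_add (C.nonsing h) (C.nonsing h) (fun hxy => hne hxy.2)) := by
    rw [two_nsmul]
    exact Point.add_self_of_Y_ne (h₁ := C.nonsing h) hne
  have h7 := e1_eqn C (nonsingular_add (C.nonsing h) (C.nonsing h) (fun hxy => hne hxy.2))
  rw [hadd, e1_some]
  refine ⟨_, ?_, e1_congr C _ _ hX' rfl⟩
  rw [hX'] at h7
  exact h7

theorem two_pt_zero {x : K} (h : (0 : K) ^ 2 = x * (x ^ 2 + C.A K * x + C.B K)) :
    (2 : ℕ) • C.pt x 0 h = 0 := by
  rw [two_nsmul]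
  refine Point.add_self_of_Y_eq (h₁ := C.nonsing h) ?_
  rw [e1_negY, neg_zero]

/-- adding `T = (0, 0)` -/
theorem add_T {x y : K} (h : y ^ 2 = x * (x ^ 2 + C.A K * x + C.B K)) (hx : x ≠ 0) :
    ∃ h' : _, C.pt x y h + C.T K = C.pt (C.B K / x) (-(C.B K * y / x ^ 2)) h' := by
  refine e1_add C h _ hx ?_ ?_
  · rw [sub_zero, sub_zero, div_pow, h]
    field_simp
    ring
  · rw [sub_zero, sub_zero]
    field_simp
    ring

/-- adding the point `(e, 0)`, where `X² + a X + b = (X - e)(X - e')` -/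
theorem add_e {x y e e' : K} (h : y ^ 2 = x * (x ^ 2 + C.A K * x + C.B K))
    (hs : C.A K = -(e + e')) (hp : C.B K = e * e')
    (he : (0 : K) ^ 2 = e * (e ^ 2 + C.A K * e + C.B K)) (hx : x ≠ e) :
    ∃ h' : _, C.pt x y h + C.pt e 0 he =
      C.pt (e * (x - e') / (x - e)) (-(y * (e * (e - e')) / (x - e) ^ 2)) h' := by
  have hxe : x - e ≠ 0 := sub_ne_zero.2 hx
  have hy2 : y ^ 2 = x * ((x - e) * (x - e')) := by
    rw [h, hs, hp]; ring
  refine e1_add C h he hx ?_ ?_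
  · rw [sub_zero, div_pow, hy2, hs]
    field_simp
    ring
  · rw [sub_zero]
    field_simp
    ring

/-- a point is determined up to sign by its `x`-coordinate -/
theorem eq_or_eq_neg {P Q : C.Pt K} (hP : P ≠ 0) (hQ : Q ≠ 0) (h : C.xx P = C.xx Q) : P = Q ∨ P = -Q := by
  obtain ⟨x, y, hxy, rfl⟩ := exists_pt C P hP
  obtain ⟨x', y', hxy', rfl⟩ := exists_pt C Q hQ
  rw [(xx_pt C hxy).1, (xx_pt C hxy').1] at h
  subst h
  have h1 : (y - y') * (y + y') = 0 := by linear_combination hxy - hxy'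
  rcases mul_eq_zero.1 h1 with h2 | h2
  · left
    exact e1_congr C _ _ rfl (sub_eq_zero.1 h2)
  · right
    rw [neg_pt]
    exact e1_congr C _ _ rfl (eq_neg_of_add_eq_zero_left h2)

end TE
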