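import Pool.Agent.TE.E2a

set_option autoImplicit false

open WeierstrassCurve.Affine
open scoped Classical Polynomial

namespace TE

/-! ## [TE-E2b] the function `gf = (x² - b)/(2y)` (computations with E1, numerically checked) -/

variable {F : Type*} [Field F] (C : Crv F) {K : Type*} [Field K] [Algebra F K]

theorem E2b_coords {P : C.Pt K} (hP : (2 : ℕ) • P ≠ 0) :
    ∃ (x y : K) (h : y ^ 2 = x * (x ^ 2 + C.A K * x + C.B K)), P = C.pt x y h ∧ y ≠ 0 ∧ x ≠ 0 := by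
  have h0 : P ≠ 0 := by
    intro h
    rw [h, smul_zero] at hP
    exact hP rfl
  obtain ⟨x, y, h, rfl⟩ := exists_pt C P h0
  have hy : y ≠ 0 := by
    intro hy
    subst hy
    exact hP (two_pt_zero C h)
  refine ⟨x, y, h, rfl, hy, ?_⟩
  intro hx
  apply hy
  rw [hx, zero_mul] at h
  exact (pow_eq_zero_iff two_ne_zero).1 h

theorem E2b_ch_e {e : K} (he : (0 : K) ^ 2 = e * (e ^ 2 + C.A K * e + C.B K)) (he0 : e ≠ 0) :
    C.ch (C.pt e 0 he) = -1 := by
  rcases ch_val C (C.pt e 0 he) with h | h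
  · exfalso
    rcases (ch_eq_one_iff C _).1 h with h | h
    · exact pt_ne_zero C he h
    · exact he0 ((pt_inj C he _).1 h).1
  · exact h

theorem gf_sq {P : C.Pt K} (hP : (2 : ℕ) • P ≠ 0) : C.gf P ^ 2 = C.xx ((2 : ℕ) • P) := by
  obtain ⟨x, y, h, rfl, hy, -⟩ := E2b_coords C hP
  obtain ⟨y2, h2, he⟩ := two_pt C h hy
  rw [he, (xx_pt C h2).1]
  unfold Crv.gf
  rw [(xx_pt C h).1, (xx_pt C h).2]

/-- `gf (P + s) = ch s * gf P` for `s` of order two. `s = T`: `((b/x)² - b)/(-2 b y/x²) = (x² - b)/(2y)`.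
`s = (e,0)`: with `x' = e(x - e')/(x - e)`, `y' = -y e (e - e')/(x - e)²` one has
`x'² - e e' = e (e - e')(x² - e e')/(x - e)²`. -/
theorem gf_add {P s : C.Pt K} (hs : (2 : ℕ) • s = 0) (hP : (2 : ℕ) • P ≠ 0) : C.gf (P + s) = C.ch s * C.gf P := by
  obtain ⟨x, y, h, rfl, hy, hx⟩ := E2b_coords C hP
  have h2 := C.two_ne K
  have hB := C.B_ne K
  rcases tors_cases C s hs with rfl | rfl | ⟨e, e', he, rfl, he0, he0', hee, hA, hBe⟩
  · rw [add_zero, ch_zero, one_mul]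
  · obtain ⟨h', hadd⟩ := add_T C h hx
    rw [hadd, ch_T, one_mul]
    unfold Crv.gf
    rw [(xx_pt C h).1, (xx_pt C h).2, (xx_pt C h').1, (xx_pt C h').2]
    field_simp
    ring
  · have hxe : x ≠ e := by
      intro hxe
      apply hy
      rw [hxe, ← he] at h
      rw [zero_pow two_ne_zero] at h
      exact (pow_eq_zero_iff two_ne_zero).1 h
    obtain ⟨h', hadd⟩ := add_e C h hA hBe he hxe
    rw [hadd, E2b_ch_e C he he0]
    unfold Crv.gf
    rw [(xx_pt C h).1, (xx_pt C h).2, (xx_pt C h').1, (xx_pt C h').2, hBe]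
    have h3 : x - e ≠ 0 := sub_ne_zero.2 hxe
    have h4 : e - e' ≠ 0 := sub_ne_zero.2 hee.symm
    have h5 : (e * (x - e') / (x - e)) ^ 2 - e * e' = e * (e - e') * (x ^ 2 - e * e') / (x - e) ^ 2 := by
      field_simp
      ring
    rw [h5]
    field_simp

/-- If `2P = T` then `x(P)² = b` (`two_pt`: `((x² - b)/(2y))² = 0`). -/
theorem half_xx {P : C.Pt K} (hP : (2 : ℕ) • P = C.T K) : C.xx P ^ 2 = C.B K := by
  have h2P : (2 : ℕ) • P ≠ 0 := by
    rw [hP]
    exact T_ne C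
  obtain ⟨x, y, h, rfl, hy, hx⟩ := E2b_coords C h2P
  obtain ⟨y2, h2, he⟩ := two_pt C h hy
  rw [he] at hP
  have h1 := ((pt_inj C h2 _).1 hP).1
  rw [(xx_pt C h).1]
  have h3 := (pow_eq_zero_iff two_ne_zero).1 h1
  rw [div_eq_zero_iff] at h3
  rcases h3 with h3 | h3
  · exact sub_eq_zero.1 h3
  · exact absurd h3 (mul_ne_zero (C.two_ne K) hy)

/-- If `2P = T` and `2s = 0` then `x(P + s) = ch s * x(P)`: `b/x = x` and `e(x - e')/(x - e) = -x` since `x² = e e'`. -/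
theorem half_add {P s : C.Pt K} (hs : (2 : ℕ) • s = 0) (hP : (2 : ℕ) • P = C.T K) :
    C.xx (P + s) = C.ch s * C.xx P := by
  have h2P : (2 : ℕ) • P ≠ 0 := by
    rw [hP]
    exact T_ne C
  have hxB := half_xx C hP
  obtain ⟨x, y, h, rfl, hy, hx⟩ := E2b_coords C h2P
  rw [(xx_pt C h).1] at hxB
  rcases tors_cases C s hs with rfl | rfl | ⟨e, e', he, rfl, he0, he0', hee, hA, hBe⟩
  · rw [add_zero, ch_zero, one_mul]
  · obtain ⟨h', hadd⟩ := add_T C h hx
    rw [hadd, ch_T, one_mul, (xx_pt C h).1, (xx_pt C h').1, ← hxB]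
    field_simp
  · have hxe : x ≠ e := by
      intro hxe
      apply hy
      rw [hxe, ← he] at h
      rw [zero_pow two_ne_zero] at h
      exact (pow_eq_zero_iff two_ne_zero).1 h
    obtain ⟨h', hadd⟩ := add_e C h hA hBe he hxe
    rw [hadd, E2b_ch_e C he he0, (xx_pt C h).1, (xx_pt C h').1]
    have h3 : x - e ≠ 0 := sub_ne_zero.2 hxe
    rw [div_eq_iff h3]
    linear_combination hBe + hxB

end TE
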