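import Pool.Agent.TE.E2a

set_option autoImplicit false

open WeierstrassCurve.Affine
open scoped Classical Polynomial

namespace TE

/-! ## [TE-E2c] the functions `hf = y/x`, `wf = x - b/x` and the isogenous curve (computations with E1, numerically checked) -/

variable {F : Type*} [Field F] (C : Crv F) {K : Type*} [Field K] [Algebra F K]

theorem xx_ne {P : C.Pt K} (h0 : P ≠ 0) (hT : P ≠ C.T K) : C.xx P ≠ 0 := by
  obtain ⟨x, y, h, rfl⟩ := exists_pt C P h0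
  rw [(xx_pt C h).1]
  intro hx
  apply hT
  subst hx
  have hy : y = 0 := by
    rw [zero_mul] at h
    exact pow_eq_zero_iff (two_ne_zero) |>.1 h
  exact (pt_inj C h _).2 ⟨rfl, hy⟩

theorem xx_add_T {P : C.Pt K} (h0 : P ≠ 0) (hT : P ≠ C.T K) :
    C.xx (P + C.T K) = C.B K / C.xx P ∧ C.yy (P + C.T K) = -(C.B K * C.yy P / C.xx P ^ 2) := by
  have hx := xx_ne C h0 hT
  obtain ⟨x, y, h, rfl⟩ := exists_pt C P h0
  rw [(xx_pt C h).1] at hx
  obtain ⟨h', he⟩ := add_T C h hx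
  rw [he, (xx_pt C h').1, (xx_pt C h').2, (xx_pt C h).1, (xx_pt C h).2]
  exact ⟨rfl, rfl⟩

theorem hf_add_T {P : C.Pt K} (h0 : P ≠ 0) (hT : P ≠ C.T K) : C.hf (P + C.T K) = -C.hf P := by
  have hx := xx_ne C h0 hT
  obtain ⟨h1, h2⟩ := xx_add_T C h0 hT
  unfold Crv.hf
  rw [h1, h2]
  have hB := C.B_ne K
  field_simp

theorem wf_add_T {P : C.Pt K} (h0 : P ≠ 0) (hT : P ≠ C.T K) : C.wf (P + C.T K) = -C.wf P := by
  have hx := xx_ne C h0 hT
  obtain ⟨h1, -⟩ := xx_add_T C h0 hT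
  unfold Crv.wf
  rw [h1]
  have hB := C.B_ne K
  field_simp
  ring

theorem wf_sq {P : C.Pt K} (h0 : P ≠ 0) (hT : P ≠ C.T K) :
    C.wf P ^ 2 = (C.hf P ^ 2 - C.A K) ^ 2 - 4 * C.B K := by
  have hx := xx_ne C h0 hT
  have h := eqn C P
  have h1 : C.hf P ^ 2 = C.xx P + C.A K + C.B K / C.xx P := by
    unfold Crv.hf
    rw [div_pow, h]
    field_simp
  rw [h1]
  unfold Crv.wf
  field_simp
  ring

/-- `(h w)² = h² (h⁴ - 2 a h² + (a² - 4b))` -/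
theorem hw_sq {P : C.Pt K} (h0 : P ≠ 0) (hT : P ≠ C.T K) :
    (C.hf P * C.wf P) ^ 2 = C.hf P ^ 2 * ((C.hf P ^ 2) ^ 2 + (-2 * C.A K) * C.hf P ^ 2 + (C.A K ^ 2 - 4 * C.B K)) := by
  rw [mul_pow, wf_sq C h0 hT]
  ring

/-- The points of the isogenous curve give points: if `V² = h² (h⁴ - 2 a h² + (a² - 4b))`, `h ≠ 0`, put
`x = (h² - a + V/h)/2`, `y = h x`. With `w = V/h`, `w² = (h² - a)² - 4b`, so `x * (h² - a - w)/2 = b`; hence `x ≠ 0`,
`b/x = (h² - a - w)/2` and `x (x² + a x + b) = x² (x + a + b/x) = x² h² = y²`. -/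
theorem exists_of_dual {h V : K} (hh : h ≠ 0)
    (hV : V ^ 2 = h ^ 2 * ((h ^ 2) ^ 2 + (-2 * C.A K) * h ^ 2 + (C.A K ^ 2 - 4 * C.B K))) :
    ∃ P : C.Pt K, P ≠ 0 ∧ P ≠ C.T K ∧ C.xx P = (h ^ 2 - C.A K + V / h) / 2 ∧ C.yy P = h * C.xx P ∧
      C.B K / C.xx P = (h ^ 2 - C.A K - V / h) / 2 := by
  have h2 := C.two_ne K
  have hB := C.B_ne K
  obtain ⟨w, hw⟩ : ∃ w, w = V / h := ⟨_, rfl⟩
  have hw2 : w ^ 2 = (h ^ 2 - C.A K) ^ 2 - 4 * C.B K := by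
    rw [hw, div_pow, hV]
    field_simp
    ring
  rw [← hw]
  obtain ⟨x, hx⟩ : ∃ x, x = (h ^ 2 - C.A K + w) / 2 := ⟨_, rfl⟩
  obtain ⟨z, hz⟩ : ∃ z, z = (h ^ 2 - C.A K - w) / 2 := ⟨_, rfl⟩
  have h4 : (4 : K) ≠ 0 := by
    have := mul_ne_zero h2 h2
    norm_num at this
    exact this
  have hxz : x * z = C.B K := by
    rw [hx, hz, div_mul_div_comm, div_eq_iff (mul_ne_zero h2 h2)]
    linear_combination -hw2
  have hsum : x + z = h ^ 2 - C.A K := by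
    rw [hx, hz]
    field_simp
    ring
  have hx0 : x ≠ 0 := by
    intro h0
    rw [h0, zero_mul] at hxz
    exact hB hxz.symm
  have heq : (h * x) ^ 2 = x * (x ^ 2 + C.A K * x + C.B K) := by
    rw [← hxz]
    linear_combination (-x ^ 2) * hsum
  refine ⟨C.pt x (h * x) heq, pt_ne_zero C heq, ?_, ?_, ?_, ?_⟩
  · intro hT
    have := (pt_inj C heq _).1 hT
    exact hx0 this.1
  · rw [(xx_pt C heq).1, hx]
  · rw [(xx_pt C heq).1, (xx_pt C heq).2]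
  · rw [(xx_pt C heq).1, ← hz, div_eq_iff hx0, mul_comm]
    exact hxz.symm

end TE
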