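import Pool.Agent.TE.E1

set_option autoImplicit false

open WeierstrassCurve.Affine
open scoped Classical Polynomial

namespace TE

/-! ## [TE-E2a] the points of order two and the character `ch` -/

variable {F : Type*} [Field F] (C : Crv F) {K : Type*} [Field K] [Algebra F K]

/-- From `two_pt`, `two_pt_zero`: for `P = (x,y)` with `y ≠ 0` we have `2P ≠ 0`. -/
theorem two_tors (P : C.Pt K) : (2 : ℕ) • P = 0 ↔ C.yy P = 0 := by
  by_cases hP : P = 0
  · rw [hP, (xx_zero C).2]
    simp
  · obtain ⟨x, y, h, rfl⟩ := exists_pt C P hP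
    rw [(xx_pt C h).2]
    constructor
    · intro h2
      by_contra hy
      obtain ⟨y2, h3, h4⟩ := two_pt C h hy
      rw [h4] at h2
      exact pt_ne_zero C h3 h2
    · rintro rfl
      exact two_pt_zero C h

theorem two_T : (2 : ℕ) • C.T K = 0 := two_pt_zero C _

theorem T_ne : C.T K ≠ 0 := pt_ne_zero C _

/-- A point of order two other than `T` is `(e, 0)` with `e ≠ 0`, `e² + a e + b = 0`, that is `a = -(e + e')`, `b = e e'`
with `e' = -a - e`; `e' ≠ 0`, `e' ≠ e`. -/
theorem tors_cases (P : C.Pt K) (hP : (2 : ℕ) • P = 0) : P = 0 ∨ P = C.T K ∨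
    ∃ (e e' : K) (he : (0 : K) ^ 2 = e * (e ^ 2 + C.A K * e + C.B K)), P = C.pt e 0 he ∧ e ≠ 0 ∧ e' ≠ 0 ∧ e' ≠ e ∧
      C.A K = -(e + e') ∧ C.B K = e * e' := by
  by_cases h0 : P = 0
  · exact Or.inl h0
  · obtain ⟨x, y, h, rfl⟩ := exists_pt C P h0
    rw [two_tors, (xx_pt C h).2] at hP
    subst hP
    by_cases hx : x = 0
    · subst hx
      exact Or.inr (Or.inl rfl)
    · have h1 : x ^ 2 + C.A K * x + C.B K = 0 := by
        have : x * (x ^ 2 + C.A K * x + C.B K) = 0 := by rw [← h]; ring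
        exact (mul_eq_zero.1 this).resolve_left hx
      have hB : C.B K = x * (-C.A K - x) := by linear_combination h1
      refine Or.inr (Or.inr ⟨x, -C.A K - x, h, rfl, hx, ?_, ?_, by ring, hB⟩)
      · intro h2
        rw [h2, mul_zero] at hB
        exact C.B_ne K hB
      · intro h2
        apply C.D_ne K
        linear_combination (-4) * hB + (-(C.A K) - 2 * x) * h2

theorem ch_val (P : C.Pt K) : C.ch P = 1 ∨ C.ch P = -1 := by
  unfold Crv.ch
  split_ifs
  · exact Or.inl rfl
  · exact Or.inr rfl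

theorem ch_zero : C.ch (0 : C.Pt K) = 1 := if_pos (Or.inl rfl)

theorem ch_T : C.ch (C.T K) = 1 := if_pos (Or.inr rfl)

theorem ch_eq_one_iff (P : C.Pt K) : C.ch P = 1 ↔ P = 0 ∨ P = C.T K := by
  constructor
  · intro h
    by_contra h2
    unfold Crv.ch at h
    rw [if_neg h2] at h
    apply C.two_ne K
    linear_combination -h
  · intro h
    exact if_pos h

theorem e2a_ch_pt {e : K} (he : (0 : K) ^ 2 = e * (e ^ 2 + C.A K * e + C.B K)) (h0 : e ≠ 0) :
    C.ch (C.pt e 0 he) = -1 := by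
  refine if_neg ?_
  rintro (h | h)
  · exact pt_ne_zero C he h
  · exact h0 ((pt_inj C he _).1 h).1

theorem e2a_ch_T_add {Q : C.Pt K} (hQ : (2 : ℕ) • Q = 0) : C.ch (Q + C.T K) = C.ch Q := by
  rcases tors_cases C Q hQ with rfl | rfl | ⟨e, e', he, rfl, h0, h0', hne, hs, hp⟩
  · rw [zero_add, ch_T, ch_zero]
  · rw [← two_nsmul, two_T, ch_zero, ch_T]
  · obtain ⟨h', h2⟩ := add_T C he h0
    rw [h2, e2a_ch_pt C he h0]
    refine if_neg ?_
    rintro (h | h)
    · exact pt_ne_zero C h' h
    · have h3 := ((pt_inj C h' _).1 h).1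
      rw [div_eq_zero_iff] at h3
      rcases h3 with h3 | h3
      · exact C.B_ne K h3
      · exact h0 h3

/-- Three cases with `tors_cases`; if `P = (e,0)`, `Q = (e₂,0)` are both different from `0`, `T`, then `e₂ = e` and `P + Q = 0`, or
`e₂ = e'` and `P + Q = T` (`add_e`). -/
theorem ch_add {P Q : C.Pt K} (hP : (2 : ℕ) • P = 0) (hQ : (2 : ℕ) • Q = 0) : C.ch (P + Q) = C.ch P * C.ch Q := by
  rcases tors_cases C P hP with rfl | rfl | ⟨e, e', he, rfl, h0, h0', hne, hs, hp⟩
  · rw [zero_add, ch_zero, one_mul]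
  · rw [add_comm, e2a_ch_T_add C hQ, ch_T, one_mul]
  · rcases tors_cases C Q hQ with rfl | rfl | ⟨f, f', hf, rfl, k0, k0', kne, ks, kp⟩
    · rw [add_zero, ch_zero, mul_one]
    · rw [e2a_ch_T_add C hP, ch_T, mul_one]
    · rw [e2a_ch_pt C he h0, e2a_ch_pt C hf k0]
      have h1 : (f - e) * (f - e') = 0 := by
        have h2 : f ^ 2 + C.A K * f + C.B K = 0 := by rw [ks, kp]; ring
        rw [hs, hp] at h2
        linear_combination h2
      rcases mul_eq_zero.1 h1 with h2 | h2
      · have h3 : f = e := sub_eq_zero.1 h2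
        subst h3
        rw [← two_nsmul, hP, ch_zero]
        ring
      · have h3 : f = e' := sub_eq_zero.1 h2
        subst h3
        obtain ⟨h', h4⟩ := add_e C hf hs hp he hne
        rw [add_comm, h4]
        have h5 : C.pt (e * (f - f) / (f - e)) (-(0 * (e * (e - f)) / (f - e) ^ 2)) h' = C.T K := by
          unfold Crv.T
          rw [pt_inj]
          simp
        rw [h5, ch_T]
        ring

theorem ch_neg {P : C.Pt K} (hP : (2 : ℕ) • P = 0) : C.ch (-P) = C.ch P := by
  have h : -P = P := by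
    rw [two_nsmul] at hP
    exact neg_eq_of_add_eq_zero_left hP
  rw [h]

end TE
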