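import Pool.Agent.TE.E2

set_option autoImplicit false

open WeierstrassCurve.Affine
open scoped Classical Polynomial

namespace TE

/-! ## [TE-E3] points over a separably closed field: division by two -/

variable {F : Type*} [Field F] (C : Crv F) {K : Type*} [Field K] [Algebra F K] [IsSepClosed K]

include C in
/-- Every element of `K` is a square (`2 ≠ 0`, `X² - c` is separable for `c ≠ 0`). -/
theorem exists_sqrt (c : K) : ∃ x : K, x ^ 2 = c := by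
  have : NeZero ((2 : ℕ) : K) := ⟨by
    have := C.two_ne K
    simpa using this⟩
  obtain ⟨z, hz⟩ := IsSepClosed.exists_pow_nat_eq c 2
  exact ⟨z, hz⟩

/-- the roots of `X² + a X + b`: take `δ² = a² - 4b`, `e = (-a + δ)/2`, `e' = (-a - δ)/2`. -/
theorem exists_roots : ∃ e e' : K, C.A K = -(e + e') ∧ C.B K = e * e' ∧ e ≠ 0 ∧ e' ≠ 0 ∧ e ≠ e' ∧
    (e - e') ^ 2 = C.A K ^ 2 - 4 * C.B K := by
  obtain ⟨δ, hδ⟩ := exists_sqrt C (C.A K ^ 2 - 4 * C.B K)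
  have h2 := C.two_ne K
  have hB := C.B_ne K
  have hD := C.D_ne K
  have h4 : (4 : K) = 2 * 2 := by norm_num
  have hprod : C.B K = (-C.A K + δ) / 2 * ((-C.A K - δ) / 2) := by
    have h1 : (-C.A K + δ) / 2 * ((-C.A K - δ) / 2) = (C.A K ^ 2 - δ ^ 2) / (2 * 2) := by
      field_simp
      ring
    rw [h1, hδ, h4]
    field_simp
    ring
  have hdiff : (-C.A K + δ) / 2 - (-C.A K - δ) / 2 = δ := by
    field_simp
    ring
  refine ⟨(-C.A K + δ) / 2, (-C.A K - δ) / 2, ?_, hprod, ?_, ?_, ?_, ?_⟩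
  · field_simp
    ring
  · intro h
    rw [h, zero_mul] at hprod
    exact hB hprod
  · intro h
    rw [h, mul_zero] at hprod
    exact hB hprod
  · intro h
    rw [h, sub_self] at hdiff
    rw [← hdiff] at hδ
    apply hD
    rw [← hδ]
    ring
  · rw [hdiff, hδ]

/-- `E[2]` has a point `R` with `ch R = -1`. -/
theorem exists_tors : ∃ R : C.Pt K, (2 : ℕ) • R = 0 ∧ C.ch R = -1 := by
  obtain ⟨e, e', hA, hB, he, he', hne, -⟩ := exists_roots C (K := K)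
  have h : (0 : K) ^ 2 = e * (e ^ 2 + C.A K * e + C.B K) := by
    rw [hA, hB]
    ring
  refine ⟨C.pt e 0 h, two_pt_zero C h, ?_⟩
  rcases ch_val C (C.pt e 0 h) with h1 | h1
  · exfalso
    rw [ch_eq_one_iff] at h1
    rcases h1 with h1 | h1
    · exact pt_ne_zero C h h1
    · have h2 := (pt_inj C h (x' := (0 : K)) (y' := 0) (by simp)).1 h1
      exact he h2.1
  · exact h1

/-- `E(K)` is `2`-divisible. `P = 0` is clear. For `P = (x, y)` take `e, e'` as above and `r₀² = x`, `r₁² = x - e`, `r₂² = x - e'`;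
then `(r₀ r₁ r₂)² = y²`, and changing the sign of `r₀` if necessary we need nothing about signs: put
`u = (r₀ + r₁)(r₀ + r₂)`, `v = (r₀ + r₁)(r₀ + r₂)(r₁ + r₂)`. Then `u - e = (r₁ + r₀)(r₁ + r₂)`,
`u - e' = (r₂ + r₀)(r₂ + r₁)` (as `e = r₀² - r₁²`, `e' = r₀² - r₂²`), so `v² = u (u - e)(u - e') = u(u² + a u + b)`; `v ≠ 0` because
`r_i² ≠ r_j²` for `i ≠ j` (`e ≠ 0`, `e' ≠ 0`, `e ≠ e'`). And
`u² - e e' = (r₀+r₁)(r₀+r₂)[(r₀+r₁)(r₀+r₂) - (r₀-r₁)(r₀-r₂)] = 2 r₀ v`, so `x(2Q) = ((u² - b)/(2v))² = r₀² = x` (`two_pt`) for `Q = (u, v)`.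
By `eq_or_eq_neg`, `2Q = P` or `2Q = -P`, and `2(-Q) = -2Q`. -/
theorem exists_half (P : C.Pt K) : ∃ Q : C.Pt K, (2 : ℕ) • Q = P := by
  by_cases hP : P = 0
  · exact ⟨0, by rw [hP, smul_zero]⟩
  obtain ⟨x, y, h, rfl⟩ := exists_pt C P hP
  obtain ⟨e, e', hA, hB, he, he', hne, -⟩ := exists_roots C (K := K)
  obtain ⟨r0, hr0⟩ := exists_sqrt C x
  obtain ⟨r1, hr1⟩ := exists_sqrt C (x - e)
  obtain ⟨r2, hr2⟩ := exists_sqrt C (x - e')
  have e1 : e = r0 ^ 2 - r1 ^ 2 := by rw [hr0, hr1]; ring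
  have e2 : e' = r0 ^ 2 - r2 ^ 2 := by rw [hr0, hr2]; ring
  have h01 : r0 + r1 ≠ 0 := by
    intro h0
    apply he
    rw [e1]
    linear_combination (r0 - r1) * h0
  have h02 : r0 + r2 ≠ 0 := by
    intro h0
    apply he'
    rw [e2]
    linear_combination (r0 - r2) * h0
  have h12 : r1 + r2 ≠ 0 := by
    intro h0
    apply hne
    rw [e1, e2]
    linear_combination (r2 - r1) * h0
  have hA' : C.A K = -((r0 ^ 2 - r1 ^ 2) + (r0 ^ 2 - r2 ^ 2)) := by rw [hA, ← e1, ← e2]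
  have hB' : C.B K = (r0 ^ 2 - r1 ^ 2) * (r0 ^ 2 - r2 ^ 2) := by rw [hB, ← e1, ← e2]
  have hv : (r0 + r1) * (r0 + r2) * (r1 + r2) ≠ 0 := mul_ne_zero (mul_ne_zero h01 h02) h12
  have heq : ((r0 + r1) * (r0 + r2) * (r1 + r2)) ^ 2 = ((r0 + r1) * (r0 + r2)) *
      (((r0 + r1) * (r0 + r2)) ^ 2 + C.A K * ((r0 + r1) * (r0 + r2)) + C.B K) := by
    rw [hA', hB']
    ring
  obtain ⟨y2, h2, h3⟩ := two_pt C heq hv
  have hx : ((((r0 + r1) * (r0 + r2)) ^ 2 - C.B K) / (2 * ((r0 + r1) * (r0 + r2) * (r1 + r2)))) ^ 2 = x := by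
    have h4 : ((r0 + r1) * (r0 + r2)) ^ 2 - C.B K =
        r0 * (2 * ((r0 + r1) * (r0 + r2) * (r1 + r2))) := by
      rw [hB']
      ring
    rw [h4, mul_div_assoc, div_self (mul_ne_zero (C.two_ne K) hv), mul_one, hr0]
  have h5 : (2 : ℕ) • C.pt _ _ heq ≠ 0 := by
    rw [h3]
    exact pt_ne_zero C h2
  have h6 : C.xx ((2 : ℕ) • C.pt _ _ heq) = C.xx (C.pt x y h) := by
    rw [h3, (xx_pt C h2).1, (xx_pt C h).1, hx]
  rcases eq_or_eq_neg C h5 (pt_ne_zero C h) h6 with h7 | h7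
  · exact ⟨_, h7⟩
  · refine ⟨-C.pt _ _ heq, ?_⟩
    rw [smul_neg, h7, neg_neg]

/-- by induction -/
theorem exists_div (n : ℕ) (P : C.Pt K) : ∃ Q : C.Pt K, (2 ^ n : ℕ) • Q = P := by
  induction n with
  | zero => exact ⟨P, by rw [pow_zero, one_smul]⟩
  | succ n ih =>
    obtain ⟨Q', hQ'⟩ := ih
    obtain ⟨Q, hQ⟩ := exists_half C Q'
    exact ⟨Q, by rw [pow_succ, mul_smul, hQ, hQ']⟩

end TE
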