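import Pool.Agent.TE.A2

set_option autoImplicit false

open WeierstrassCurve.Affine
open scoped Classical Polynomial

namespace TE

/-! ## [TE-F0] bookkeeping for crossed homomorphisms; definitions for the main theorem -/

variable {k Ω : Type*} [Field k] [Field Ω] [Algebra k Ω] [Algebra (RatFunc k) Ω] [IsScalarTower k (RatFunc k) Ω]

/-- `γ f - f = ∂Q` with `2ⁿ Q ∈ {0, T}`, for all `γ` -/
def QInv (C : Crv (RatFunc k)) (n : ℕ) (f : Gm k Ω → C.Pt Ω) : Prop :=
  ∀ γ : Gm k Ω, ∃ Q : C.Pt Ω, (∀ g ∈ NN k Ω, tw C γ f g - f g = C.act g Q - Q) ∧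
    ((2 ^ n : ℕ) • Q = 0 ∨ (2 ^ n : ℕ) • Q = C.T Ω)

omit [IsScalarTower k (RatFunc k) Ω] [Algebra k Ω] in
theorem f0_inv_apply (γ : Gm k Ω) (x : Ω) : γ⁻¹ (γ x) = x := by
  have h : (γ⁻¹ * γ) x = x := by rw [inv_mul_cancel]; rfl
  rwa [AlgEquiv.mul_apply] at h

omit [IsScalarTower k (RatFunc k) Ω] [Algebra k Ω] in
theorem f0_apply_inv (γ : Gm k Ω) (x : Ω) : γ (γ⁻¹ x) = x := by
  have h : (γ * γ⁻¹) x = x := by rw [mul_inv_cancel]; rfl
  rwa [AlgEquiv.mul_apply] at h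

theorem f0_conj (γ : Gm k Ω) {g : Gm k Ω} (hg : g ∈ NN k Ω) : γ⁻¹ * g * γ ∈ NN k Ω := by
  intro c hc
  have h1 : IsAlgebraic k (γ c) := by
    have h2 := hc.algHom ((γ : Ω →ₐ[RatFunc k] Ω).restrictScalars k)
    exact h2
  rw [AlgEquiv.mul_apply, AlgEquiv.mul_apply, hg _ h1]
  exact f0_inv_apply γ c

/-- coboundaries are Selmer crossed homomorphisms -/
theorem isSel_bd [IsSepClosure (RatFunc k) Ω] (C : Crv (RatFunc k)) (Q : C.Pt Ω) : IsSel C (fun g => C.act g Q - Q) := by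
  have : Algebra.IsSeparable (RatFunc k) Ω := IsSepClosure.separable
  have : Algebra.IsAlgebraic (RatFunc k) Ω := inferInstance
  refine { mul := ?_, cont := ?_, loc := ?_ }
  · intro g _ h _
    show C.act (g * h) Q - Q = C.act g Q - Q + C.act g (C.act h Q - Q)
    rw [act_mul, map_sub]
    abel
  · obtain ⟨L, hL, h⟩ := act_fin C Q
    refine ⟨L, hL, fun g _ hg => ?_⟩
    show C.act g Q - Q = 0
    rw [h g hg, sub_self]
  · intro O _
    exact ⟨Q, fun g _ _ => rfl⟩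

theorem isSel_sub {C : Crv (RatFunc k)} {f f' : Gm k Ω → C.Pt Ω} (hf : IsSel C f) (hf' : IsSel C f') :
    IsSel C (fun g => f g - f' g) := by
  refine { mul := ?_, cont := ?_, loc := ?_ }
  · intro g hg h hh
    show f (g * h) - f' (g * h) = f g - f' g + C.act g (f h - f' h)
    rw [hf.mul g hg h hh, hf'.mul g hg h hh, map_sub]
    abel
  · obtain ⟨L, hL, h⟩ := hf.cont
    obtain ⟨L', hL', h'⟩ := hf'.cont
    have := hL
    have := hL'
    refine ⟨L ⊔ L', inferInstance, fun g hg hx => ?_⟩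
    show f g - f' g = 0
    rw [h g hg fun x hxL => hx x ((le_sup_left : L ≤ L ⊔ L') hxL),
      h' g hg fun x hxL => hx x ((le_sup_right : L' ≤ L ⊔ L') hxL), sub_self]
  · intro O hO
    obtain ⟨P, hP⟩ := hf.loc O hO
    obtain ⟨P', hP'⟩ := hf'.loc O hO
    refine ⟨P - P', fun g hg hs => ?_⟩
    show f g - f' g = C.act g (P - P') - (P - P')
    rw [hP g hg hs, hP' g hg hs, map_sub]
    abel

theorem isSel_nsmul {C : Crv (RatFunc k)} {f : Gm k Ω → C.Pt Ω} (hf : IsSel C f) (n : ℕ) :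
    IsSel C (fun g => n • f g) := by
  refine { mul := ?_, cont := ?_, loc := ?_ }
  · intro g hg h hh
    show n • f (g * h) = n • f g + C.act g (n • f h)
    rw [hf.mul g hg h hh, map_nsmul, nsmul_add]
  · obtain ⟨L, hL, h⟩ := hf.cont
    refine ⟨L, hL, fun g hg hx => ?_⟩
    show n • f g = 0
    rw [h g hg hx, nsmul_zero]
  · intro O hO
    obtain ⟨P, hP⟩ := hf.loc O hO
    refine ⟨n • P, fun g hg hs => ?_⟩
    show n • f g = C.act g (n • P) - n • P
    rw [hP g hg hs, map_nsmul, nsmul_sub]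

/-- conjugation preserves the Selmer crossed homomorphisms: for the place `O` use the place `{x : γ x ∈ O}` and `γ P`;
for continuity enlarge `L` to its normal closure (finite over `k(t)`), or use `L.map γ`. -/
theorem isSel_tw {C : Crv (RatFunc k)} {f : Gm k Ω → C.Pt Ω} (hf : IsSel C f) (γ : Gm k Ω) : IsSel C (tw C γ f) := by
  have hcl : ∀ (g : Gm k Ω) (P : C.Pt Ω), C.act γ (C.act (γ⁻¹ * g * γ) P) = C.act g (C.act γ P) := by
    intro g P
    rw [← act_mul, ← act_mul]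
    congr 2
    group
  refine { mul := ?_, cont := ?_, loc := ?_ }
  · intro g hg h hh
    show C.act γ (f (γ⁻¹ * (g * h) * γ)) =
      C.act γ (f (γ⁻¹ * g * γ)) + C.act g (C.act γ (f (γ⁻¹ * h * γ)))
    have h1 : γ⁻¹ * (g * h) * γ = (γ⁻¹ * g * γ) * (γ⁻¹ * h * γ) := by group
    rw [h1, hf.mul _ (f0_conj γ hg) _ (f0_conj γ hh), map_add, hcl]
  · obtain ⟨L, hL, h⟩ := hf.cont
    have := hL
    refine ⟨L.map (γ : Ω →ₐ[RatFunc k] Ω), inferInstance, fun g hg hx => ?_⟩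
    show C.act γ (f (γ⁻¹ * g * γ)) = 0
    rw [h _ (f0_conj γ hg) ?_, map_zero]
    intro x hxL
    have h2 : g (γ x) = γ x := hx (γ x) ⟨x, hxL, rfl⟩
    rw [AlgEquiv.mul_apply, AlgEquiv.mul_apply, h2]
    exact f0_inv_apply γ x
  · intro O hO
    have hO' : Pl k (O.comap (γ : Ω →+* Ω)) := by
      refine ⟨fun c => ?_, fun htop => hO.2 ?_⟩
      · rw [ValuationSubring.mem_comap]
        have h1 : (γ : Ω →+* Ω) (algebraMap k Ω c) = algebraMap k Ω c := by
          rw [IsScalarTower.algebraMap_apply k (RatFunc k) Ω]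
          exact γ.commutes _
        rw [h1]
        exact hO.1 c
      · rw [eq_top_iff]
        intro x _
        have h1 : γ⁻¹ x ∈ O.comap (γ : Ω →+* Ω) := by rw [htop]; trivial
        rw [ValuationSubring.mem_comap] at h1
        have h2 : (γ : Ω →+* Ω) (γ⁻¹ x) = x := f0_apply_inv γ x
        rwa [h2] at h1
    obtain ⟨P, hP⟩ := hf.loc _ hO'
    refine ⟨C.act γ P, fun g hg hs => ?_⟩
    show C.act γ (f (γ⁻¹ * g * γ)) = C.act g (C.act γ P) - C.act γ P
    rw [hP _ (f0_conj γ hg) ?_, map_sub, hcl]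
    intro x
    rw [ValuationSubring.mem_comap, ValuationSubring.mem_comap]
    have h2 : (γ : Ω →+* Ω) ((γ⁻¹ * g * γ) x) = g (γ x) := by
      rw [AlgEquiv.mul_apply, AlgEquiv.mul_apply]
      exact f0_apply_inv γ _
    rw [h2]
    exact hs (γ x)

end TE
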