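import Pool.Agent.TE.F0

set_option autoImplicit false
set_option linter.unusedSectionVars false

open WeierstrassCurve.Affine
open scoped Classical Polynomial

namespace TE

/-! ## [TE-F1] the base case, first half -/

variable {k Ω : Type*} [Field k] [Field Ω] [Algebra k Ω] [Algebra (RatFunc k) Ω] [IsScalarTower k (RatFunc k) Ω]
  [IsSepClosure (RatFunc k) Ω] (d : Dat k)

theorem f1_tt_ne {r : Ω} (hr : IsAlgebraic k r) : tt k Ω - r ≠ 0 := by
  have hmem : r ∈ algebraicClosure k Ω := (mem_algebraicClosure_iff).2 hr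
  have h1 := aeval_tt_ne (k := k) (Ω := Ω)
    (Polynomial.X - Polynomial.C (⟨r, hmem⟩ : algebraicClosure k Ω)) (Polynomial.X_sub_C_ne_zero _)
  rw [map_sub, Polynomial.aeval_X, Polynomial.aeval_C] at h1
  exact h1

theorem f1_prod_ne {S : Finset Ω} (hS : ∀ r ∈ S, IsAlgebraic k r) : ∏ r ∈ S, (tt k Ω - r) ≠ 0 :=
  Finset.prod_ne_zero_iff.2 fun r hr => f1_tt_ne (hS r hr)

/-- two characters with the same `S` agree on `N` -/
theorem f1_agree {S : Finset Ω} (hS : ∀ r ∈ S, IsAlgebraic k r) {χ χ' : Gm k Ω → Ω}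
    (h : Kum S χ) (h' : Kum S χ') (g : Gm k Ω) (hg : g ∈ NN k Ω) : χ g = χ' g := by
  obtain ⟨e, he, hge⟩ := h
  obtain ⟨e', he', hge'⟩ := h'
  have hne : e' ≠ 0 := by
    intro h0
    rw [h0] at he'
    exact f1_prod_ne hS (by rw [← he']; ring)
  have hsq : e ^ 2 = e' ^ 2 := by rw [he, he']
  have h1 := hge g hg
  have h2 := hge' g hg
  rcases sq_eq_sq_iff_eq_or_eq_neg.1 hsq with h3 | h3
  · rw [h3, h2] at h1
    exact (mul_right_cancel₀ hne h1).symm
  · rw [h3, map_neg, h2] at h1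
    have h4 : χ' g * e' = χ g * e' := by linear_combination -h1
    exact (mul_right_cancel₀ hne h4).symm

theorem f1_ch_sq (C : Crv (RatFunc k)) (P : C.Pt Ω) : C.ch P * C.ch P = 1 := by
  rcases ch_val C P with h | h
  · rw [h]; ring
  · rw [h]; ring

/-- `2 (gP - P) = g(2P) - 2P` -/
theorem f1_two (C : Crv (RatFunc k)) (g : Gm k Ω) (P : C.Pt Ω) :
    (2 : ℕ) • (C.act g P - P) = C.act g ((2 : ℕ) • P) - (2 : ℕ) • P := by
  rw [smul_sub, map_nsmul]

theorem f1_ch_sub (C : Crv (RatFunc k)) {P Q : C.Pt Ω} (hP : (2 : ℕ) • P = 0)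
    (hQ : (2 : ℕ) • Q = 0) : C.ch (P - Q) = C.ch P * C.ch Q := by
  have h1 : (2 : ℕ) • (-Q) = 0 := by rw [smul_neg, hQ, neg_zero]
  rw [sub_eq_add_neg, ch_add C hP h1, ch_neg C hQ]

/-- the behaviour of `S` under `Γ` -/
theorem f1_image {f : Gm k Ω → d.C.Pt Ω} (h2f : ∀ g ∈ NN k Ω, (2 : ℕ) • f g = 0)
    (hq : QInv d.C 1 f) {S : Finset Ω} (hS : S ⊆ rts k d.B)
    (hK : Kum S (fun g => d.C.ch (f g))) (γ : Gm k Ω) :
    S.image γ = S ∨ S.image γ = rts k d.B \ S := by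
  obtain ⟨Q, hQ, hQ2⟩ := hq γ
  rw [pow_one] at hQ2
  have halg : ∀ r ∈ (rts k d.B : Finset Ω), IsAlgebraic k r := fun r hr => rts_alg hr
  have hSalg : ∀ r ∈ S, IsAlgebraic k r := fun r hr => halg r (hS hr)
  have hIm : S.image γ ⊆ rts k d.B := by
    rw [← rts_image (Q := d.B) γ]
    exact Finset.image_subset_image hS
  have hImalg : ∀ r ∈ S.image γ, IsAlgebraic k r := fun r hr => halg r (hIm hr)
  have hval : ∀ g ∈ NN k Ω, d.C.ch (f g) = 1 ∨ d.C.ch (f g) = -1 := fun g _ => ch_val _ _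
  have hconj := kum_conj hval γ hK
  have h2Q : ∀ g : Gm k Ω, (2 : ℕ) • (d.C.act g Q - Q) = 0 := by
    intro g
    rw [f1_two]
    rcases hQ2 with h | h
    · rw [h, map_zero, sub_zero]
    · rw [h, act_T, sub_self]
  have hrel : ∀ g ∈ NN k Ω, d.C.ch (f (γ⁻¹ * g * γ)) = d.C.ch (f g) * d.C.ch (d.C.act g Q - Q) := by
    intro g hg
    have h1 := hQ g hg
    have h3 : tw d.C γ f g = f g + (d.C.act g Q - Q) := by
      rw [← h1]; abel
    rw [← ch_add d.C (h2f g hg) (h2Q g), ← h3]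
    unfold tw
    rw [ch_act]
  have hconj2 : Kum (S.image γ) (fun g => d.C.ch (f g) * d.C.ch (d.C.act g Q - Q)) :=
    kum_congr hconj hrel
  rcases hQ2 with h | h
  · left
    have h1 : ∀ g ∈ NN k Ω, d.C.ch (f g) * d.C.ch (d.C.act g Q - Q) = d.C.ch (f g) := by
      intro g _
      have h3 : (2 : ℕ) • d.C.act g Q = 0 := by rw [← map_nsmul, h, map_zero]
      rw [f1_ch_sub d.C h3 h, ch_act, f1_ch_sq, mul_one]
    exact kum_uniq hImalg hSalg hval (kum_congr hconj2 h1) hK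
  · right
    have h1 := kum_half d h
    have h3 := kum_mul hSalg halg hK h1
    have hsymm : symmDiff S (rts k d.B) = rts k d.B \ S := by
      rw [symmDiff_def]
      simp only [Finset.sup_eq_union]
      rw [Finset.sdiff_eq_empty_iff_subset.2 hS, Finset.empty_union]
    rw [hsymm] at h3
    refine kum_uniq hImalg (fun r hr => halg r (Finset.mem_sdiff.1 hr).1) ?_ hconj2 h3
    intro g _
    rcases ch_val d.C (f g) with h4 | h4 <;> rcases ch_val d.C (d.C.act g Q - Q) with h5 | h5 <;>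
      rw [h4, h5] <;> norm_num

/-- Let `f` be a Selmer crossed homomorphism with values in `E[2]` with `QInv 1` (`γf - f = ∂Q`, `2Q ∈ {0, T}`). Under `CondB` there is
`P` with `2P ∈ E(k(t))` and `ch (f g - (gP - P)) = 1` for all `g ∈ N`.

Proof. `coreA`: `χ = ch ∘ f = Kum S`, `S ⊆ roots(B)` even. Let `γ ∈ Γ` and `Q` as in `QInv`. For `g ∈ N`:
`ch (tw γ f g) = χ (γ⁻¹ g γ)` (`ch_act`), and `tw γ f g = f g + (gQ - Q)` with all terms killed by `2` (`2(gQ - Q) = g(2Q) - 2Q = 0`), so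
`χ (γ⁻¹gγ) = χ(g) ch (gQ - Q)` (`ch_add`). The left side is `Kum (γS)` (`kum_conj`).
If `2Q = 0` then `ch (gQ - Q) = ch(gQ) ch(Q) = 1`, so `Kum (γS)` and `Kum S` for the same character, `γS = S` (`kum_uniq`).
If `2Q = T` then `ch (gQ - Q)` is `Kum (roots B)` (`kum_half`), the right side is `Kum (S Δ roots B) = Kum (roots B \ S)` (`kum_mul`), so
`γS = roots B \ S`. Now `CondB` applies.
`S = ∅`: `χ = 1` on `N` (`kum_uniq` is not needed: `e² = 1`, `e = ±1`, so `χ g = 1`); `P = 0`.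
`S = roots B`: take `P` with `2P = T` (`exists_half`); `Kum (roots B)` for `χ` and for `ch(gP - P)`; two characters with the same `S` agree on
`N` (`e² = e'²`, `e ≠ 0`). So `ch (f g - (gP - P)) = 1`. `2P = T` is the image of `(0,0)`.
Explained by `(X, Y)`, `X ≠ 0`, `κ² = X ∏_S (t - r)`: let `R ∈ E(k(t))` be the point `(X, Y)`, `P` with `2P = R` (`exists_half`),
`G = gf P`, `G² = xx(2P) = X` (`gf_sq`; `R ≠ 0`). `gP - P` is killed by `2` and `g G = gf (P + (gP - P)) = ch (gP - P) G` (`gf_act`, `gf_add`).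
With `e² = ∏_S (t - r)`: `(G e)² = κ²`, so `G e = ± κ` is fixed by `N`, so `χ(g) = ch (gP - P)`. -/
theorem baseA (hB : CondB d Ω) {f : Gm k Ω → d.C.Pt Ω} (hf : IsSel d.C f)
    (h2f : ∀ g ∈ NN k Ω, (2 : ℕ) • f g = 0) (hq : QInv d.C 1 f) :
    ∃ P : d.C.Pt Ω, (∃ R : d.C.Pt (RatFunc k), d.C.inc Ω R = (2 : ℕ) • P) ∧
      ∀ g ∈ NN k Ω, d.C.ch (f g - (d.C.act g P - P)) = 1 := by
  have : IsSepClosed Ω := IsSepClosure.sep_closed (RatFunc k)
  obtain ⟨S, hS, hev, hK⟩ := coreA d hf h2f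
  have halg : ∀ r ∈ (rts k d.B : Finset Ω), IsAlgebraic k r := fun r hr => rts_alg hr
  have hSalg : ∀ r ∈ S, IsAlgebraic k r := fun r hr => halg r (hS hr)
  rcases hB S hS hev (f1_image d h2f hq hS hK) with h | h | ⟨X, Y, hX, hXY, κ, hκN, hκ⟩
  · -- `S = ∅`
    refine ⟨0, ⟨0, by rw [map_zero, smul_zero]⟩, fun g hg => ?_⟩
    rw [map_zero, sub_zero, sub_zero]
    rw [h] at hK
    exact f1_agree (k := k) (fun r hr => absurd hr (Finset.notMem_empty r)) hK
      (kum_empty (χ := fun _ => (1 : Ω)) fun _ _ => rfl) g hg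
  · -- `S` is everything
    obtain ⟨P, hP⟩ := exists_half d.C (d.C.T Ω)
    obtain ⟨R, hR⟩ := exists_inc d.C (d.C.T Ω) fun g => act_T d.C g
    refine ⟨P, ⟨R, by rw [hR, hP]⟩, fun g hg => ?_⟩
    have h2P : (2 : ℕ) • (d.C.act g P - P) = 0 := by
      rw [f1_two, hP, act_T, sub_self]
    rw [f1_ch_sub d.C (h2f g hg) h2P]
    rw [h] at hK
    have h1 : d.C.ch (f g) = d.C.ch (d.C.act g P - P) :=
      f1_agree (k := k) halg hK (kum_half d hP) g hg
    rw [h1, f1_ch_sq]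
  · -- a rational point
    have hXY' : Y ^ 2 = X * (X ^ 2 + d.C.A (RatFunc k) * X + d.C.B (RatFunc k)) := hXY
    obtain ⟨P, hP⟩ := exists_half d.C (d.C.inc Ω (d.C.pt X Y hXY'))
    refine ⟨P, ⟨d.C.pt X Y hXY', hP.symm⟩, fun g hg => ?_⟩
    have hRne : d.C.inc Ω (d.C.pt X Y hXY') ≠ 0 := by
      intro h0
      exact pt_ne_zero d.C hXY' ((inc_coord d.C _).2.2.1 h0)
    have h2Pne : (2 : ℕ) • P ≠ 0 := by rw [hP]; exact hRne
    have h2P : (2 : ℕ) • (d.C.act g P - P) = 0 := by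
      rw [f1_two, hP, act_inc, sub_self]
    rw [f1_ch_sub d.C (h2f g hg) h2P]
    have hG2 : d.C.gf P ^ 2 = algebraMap (RatFunc k) Ω X := by
      rw [gf_sq d.C h2Pne, hP, (inc_coord d.C _).1, (xx_pt d.C hXY').1]
    have hgG : g (d.C.gf P) = d.C.ch (d.C.act g P - P) * d.C.gf P := by
      rw [← gf_act, ← gf_add d.C h2P h2Pne]
      congr 1
      abel
    obtain ⟨e, he, hge⟩ := hK
    have hsq : (d.C.gf P * e) ^ 2 = κ ^ 2 := by
      rw [mul_pow, hG2, he, hκ]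
    have hκ0 : κ ^ 2 ≠ 0 := by
      rw [hκ]
      exact mul_ne_zero ((map_ne_zero _).2 hX) (f1_prod_ne hSalg)
    have hne : d.C.gf P * e ≠ 0 := by
      intro h0
      rw [h0] at hsq
      exact hκ0 (by rw [← hsq]; ring)
    have hfix : g (d.C.gf P * e) = d.C.gf P * e := by
      rcases sq_eq_sq_iff_eq_or_eq_neg.1 hsq with h3 | h3
      · rw [h3]; exact hκN g hg
      · rw [h3, map_neg, hκN g hg]
    have hge' : g e = d.C.ch (f g) * e := hge g hg
    rw [map_mul, hgG, hge'] at hfix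
    have h4 : (d.C.ch (f g) * d.C.ch (d.C.act g P - P)) * (d.C.gf P * e) =
        1 * (d.C.gf P * e) := by
      rw [one_mul]
      calc (d.C.ch (f g) * d.C.ch (d.C.act g P - P)) * (d.C.gf P * e)
          = d.C.ch (d.C.act g P - P) * d.C.gf P * (d.C.ch (f g) * e) := by ring
        _ = d.C.gf P * e := hfix
    exact mul_right_cancel₀ hne h4

end TE
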