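import Pool.Agent.TE.F0

set_option autoImplicit false

open WeierstrassCurve.Affine
open scoped Classical Polynomial

namespace TE

/-! ## [TE-F2a] rational points of the isogenous curve -/

variable {k Ω : Type*} [Field k] [Field Ω] [Algebra k Ω] [Algebra (RatFunc k) Ω] [IsScalarTower k (RatFunc k) Ω]
  [IsSepClosure (RatFunc k) Ω] (d : Dat k)

/-- A rational point `(U, V)` of the isogenous curve gives `P ∈ E(Ω)` with `2P ∈ E(k(t))`, `gP - P ∈ {0, T}` for all `g ∈ Γ`, and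
`h ∈ Ω`, `h² = U`, with `g h = h` if `gP - P = 0`, `g h = -h` if `gP - P = T`.

Proof. `h² = U`, `h ≠ 0` (`exists_sqrt`), `P` from `exists_of_dual` (with `V`): `xx P = (h² - a + V/h)/2`, `yy P = h xx P`,
`b/xx P = (h² - a - V/h)/2`. For `g ∈ Γ`: `g h = ± h`. If `g h = h` then the coordinates of `P` are fixed, `gP = P`. If `g h = -h` then
`xx (gP) = (h² - a - V/h)/2 = b/xx P = xx (P + T)` and `yy (gP) = -h (b/xx P) = -(b yy P/(xx P)²) = yy (P + T)` (`xx_add_T`), so
`gP = P + T`. In both cases `g(2P) = 2P`, so `2P ∈ E(k(t))` (`exists_inc`). -/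
theorem dual_point {U V : RatFunc k} (hU : U ≠ 0)
    (hV : V ^ 2 = U * (U ^ 2 - 2 * d.C.a * U + (d.C.a ^ 2 - 4 * d.C.b))) :
    ∃ (P : d.C.Pt Ω) (h : Ω), (∃ R : d.C.Pt (RatFunc k), d.C.inc Ω R = (2 : ℕ) • P) ∧ h ≠ 0 ∧
      h ^ 2 = algebraMap (RatFunc k) Ω U ∧ ∀ g : Gm k Ω, (d.C.act g P - P = 0 ∧ g h = h) ∨
        (d.C.act g P - P = d.C.T Ω ∧ g h = -h) := by
  have hsep : Algebra.IsSeparable (RatFunc k) Ω := IsSepClosure.separable
  have hscl : IsSepClosed Ω := IsSepClosure.sep_closed (RatFunc k)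
  have hnorm : Normal (RatFunc k) Ω := inferInstance
  have hgal : IsGalois (RatFunc k) Ω := inferInstance
  have h2 : (2 : Ω) ≠ 0 := d.C.two_ne Ω
  obtain ⟨h, hh2⟩ := exists_sqrt d.C (algebraMap (RatFunc k) Ω U)
  have hU' : algebraMap (RatFunc k) Ω U ≠ 0 := (map_ne_zero _).2 hU
  have hh : h ≠ 0 := by
    intro h0
    apply hU'
    rw [← hh2, h0]
    ring
  have hVh : (algebraMap (RatFunc k) Ω V) ^ 2 = h ^ 2 * ((h ^ 2) ^ 2 + (-2 * d.C.A Ω) * h ^ 2 +
      (d.C.A Ω ^ 2 - 4 * d.C.B Ω)) := by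
    rw [hh2, ← map_pow, hV]
    simp only [map_mul, map_add, map_sub, map_pow, map_ofNat, Crv.A, Crv.B]
    ring
  obtain ⟨P, hP0, hPT, hx, hy, hbx⟩ := exists_of_dual d.C hh hVh
  have hxT := xx_add_T d.C hP0 hPT
  have key : ∀ g : Gm k Ω, (d.C.act g P = P ∧ g h = h) ∨ (d.C.act g P = P + d.C.T Ω ∧ g h = -h) := by
    intro g
    have hgV : g (algebraMap (RatFunc k) Ω V) = algebraMap (RatFunc k) Ω V := g.commutes V
    have hgA : g (d.C.A Ω) = d.C.A Ω := (act_AB d.C g).1
    have hgh : (g h) ^ 2 = h ^ 2 := by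
      rw [hh2, ← map_pow, hh2]
      exact g.commutes U
    rcases sq_eq_sq_iff_eq_or_eq_neg.1 hgh with hg | hg
    · left
      refine ⟨?_, hg⟩
      apply act_eq_self
      · rw [hx]
        simp only [map_div₀, map_add, map_sub, map_pow, map_ofNat, hg, hgV, hgA]
      · rw [hy, hx]
        simp only [map_mul, map_div₀, map_add, map_sub, map_pow, map_ofNat, hg, hgV, hgA]
    · right
      refine ⟨?_, hg⟩
      have hgx : g (d.C.xx P) = d.C.B Ω / d.C.xx P := by
        rw [hbx, hx]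
        simp only [map_div₀, map_add, map_sub, map_pow, map_ofNat, hg, hgV, hgA]
        rw [neg_sq, div_neg]
        ring
      have hxne := xx_ne d.C hP0 hPT
      -- coordinates of both points agree
      have h1 : d.C.xx (d.C.act g P) = d.C.xx (P + d.C.T Ω) := by
        rw [(xx_act d.C g P).1, hxT.1, hgx]
      have h3 : d.C.yy (d.C.act g P) = d.C.yy (P + d.C.T Ω) := by
        rw [(xx_act d.C g P).2, hxT.2, hy, map_mul, hgx, hg]
        field_simp
      have hne1 : d.C.act g P ≠ 0 := by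
        intro h0
        apply hP0
        have h4 := (act_inv_act d.C g P).1
        rw [h0, map_zero] at h4
        exact h4.symm
      have hne2 : P + d.C.T Ω ≠ 0 := by
        intro h0
        apply hPT
        have h4 : P = -d.C.T Ω := eq_neg_of_add_eq_zero_left h0
        rw [h4]
        have h5 : d.C.T Ω + d.C.T Ω = 0 := by
          have := two_T d.C (K := Ω)
          rwa [two_nsmul] at this
        exact neg_eq_of_add_eq_zero_left h5
      obtain ⟨x1, y1, e1, hp1⟩ := exists_pt d.C _ hne1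
      obtain ⟨x2, y2, e2, hp2⟩ := exists_pt d.C _ hne2
      rw [hp1, hp2, (xx_pt d.C e1).1, (xx_pt d.C e2).1] at h1
      rw [hp1, hp2, (xx_pt d.C e1).2, (xx_pt d.C e2).2] at h3
      rw [hp1, hp2]
      exact (pt_inj d.C e1 e2).2 ⟨h1, h3⟩
  refine ⟨P, h, ?_, hh, hh2, fun g => ?_⟩
  · apply exists_inc
    intro g
    rw [map_nsmul]
    rcases key g with ⟨hg, -⟩ | ⟨hg, -⟩
    · rw [hg]
    · rw [hg, nsmul_add, two_T, add_zero]
  · rcases key g with ⟨hg, hgh⟩ | ⟨hg, hgh⟩
    · left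
      exact ⟨by rw [hg, sub_self], hgh⟩
    · right
      exact ⟨by rw [hg, add_sub_cancel_left], hgh⟩

end TE
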