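import Pool.Agent.TE.F0
import Pool.Agent.TE.F2a

set_option autoImplicit false

open WeierstrassCurve.Affine
open scoped Classical Polynomial

namespace TE

/-! ## [TE-F2b] the base case, second half -/

variable {k Ω : Type*} [Field k] [Field Ω] [Algebra k Ω] [Algebra (RatFunc k) Ω] [IsScalarTower k (RatFunc k) Ω]
  [IsSepClosure (RatFunc k) Ω] (d : Dat k)

theorem f2b_sq_one {L : Type*} [Field L] {e : L} (he : e ^ 2 = 1) : e = 1 ∨ e = -1 := by
  have h : (e - 1) * (e + 1) = 0 := by linear_combination he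
  rcases mul_eq_zero.1 h with h | h
  · exact Or.inl (sub_eq_zero.1 h)
  · exact Or.inr (eq_neg_of_add_eq_zero_left h)

theorem f2b_empty {χ : Gm k Ω → Ω} (h : Kum (k := k) (∅ : Finset Ω) χ) : ∀ g ∈ NN k Ω, χ g = 1 := by
  obtain ⟨e, he, hg⟩ := h
  rw [Finset.prod_empty] at he
  have he0 : e ≠ 0 := by
    rintro rfl
    norm_num at he
  intro g hgN
  have h1 := hg g hgN
  rcases f2b_sq_one he with h2 | h2
  · rw [h2, map_one, mul_one] at h1
    exact h1.symm
  · rw [h2, map_neg, map_one] at h1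
    have : χ g = - (χ g * -1) := by ring
    rw [this, ← h1, neg_neg]

theorem f2b_prod_ne {S : Finset Ω} (hS : ∀ r ∈ S, IsAlgebraic k r) : ∏ r ∈ S, (tt k Ω - r) ≠ 0 := by
  intro h0
  rcases S.eq_empty_or_nonempty with h | h
  · rw [h, Finset.prod_empty] at h0
    exact one_ne_zero h0
  · apply prod_not_sq hS h 0 (fun g _ => map_zero g)
    rw [h0]
    ring

theorem f2b_tw {f : Gm k Ω → d.C.Pt Ω} (hT : ∀ g ∈ NN k Ω, f g = 0 ∨ f g = d.C.T Ω) (γ : Gm k Ω) {g : Gm k Ω}
    (hg : g ∈ NN k Ω) : tw d.C γ f g = f (γ⁻¹ * g * γ) := by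
  have h := hT _ (NN_conj (γ := γ) hg)
  unfold tw
  rcases h with h | h
  · rw [h, map_zero]
  · rw [h, act_T]

theorem f2b_act_self {Q : d.C.Pt Ω} (hQ : Q = 0 ∨ Q = d.C.T Ω) (g : Gm k Ω) : d.C.act g Q - Q = 0 := by
  rcases hQ with h | h
  · rw [h, map_zero, sub_zero]
  · rw [h, act_T, sub_self]

/-- the symmetry of the set `S` -/
theorem f2b_sym {f : Gm k Ω → d.C.Pt Ω}
    (hT : ∀ g ∈ NN k Ω, f g = 0 ∨ f g = d.C.T Ω)
    (hq : ∀ γ : Gm k Ω, ∃ Q : d.C.Pt Ω, (∀ g ∈ NN k Ω, tw d.C γ f g - f g = d.C.act g Q - Q) ∧ (2 : ℕ) • Q = 0)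
    {S : Finset Ω} (hS : S ⊆ rts k d.D) (hK : Kum S (fun g => if f g = 0 then 1 else -1)) (γ : Gm k Ω) :
    S.image γ = S ∨ S.image γ = rts k d.D \ S := by
  have hSalg : ∀ r ∈ S, IsAlgebraic k r := fun r hr => rts_alg (hS hr)
  have hDalg : ∀ r ∈ (rts k d.D : Finset Ω), IsAlgebraic k r := fun r hr => rts_alg hr
  have hγalg : ∀ r ∈ S.image γ, IsAlgebraic k r := by
    intro r hr
    apply hDalg
    rw [← rts_image (Q := d.D) γ]
    exact Finset.image_subset_image hS hr
  have hval : ∀ g ∈ NN k Ω, (fun g => if f g = 0 then (1 : Ω) else -1) g = 1 ∨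
      (fun g => if f g = 0 then (1 : Ω) else -1) g = -1 := by
    intro g _
    by_cases h : f g = 0
    · left
      simp only [h, if_true]
    · right
      simp only [h, if_false]
  have hval' : ∀ g ∈ NN k Ω, (fun g => if f (γ⁻¹ * g * γ) = 0 then (1 : Ω) else -1) g = 1 ∨
      (fun g => if f (γ⁻¹ * g * γ) = 0 then (1 : Ω) else -1) g = -1 := by
    intro g _
    by_cases h : f (γ⁻¹ * g * γ) = 0
    · left
      simp only [h, if_true]
    · right
      simp only [h, if_false]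
  have hconj : Kum (S.image γ) (fun g => if f (γ⁻¹ * g * γ) = 0 then (1 : Ω) else -1) := kum_conj hval γ hK
  obtain ⟨Q, hQ, h2Q⟩ := hq γ
  rcases ch_val d.C Q with hc | hc
  · left
    have hQ' := (ch_eq_one_iff d.C Q).1 hc
    have h1 : ∀ g ∈ NN k Ω, f (γ⁻¹ * g * γ) = f g := by
      intro g hg
      have h := hQ g hg
      rw [f2b_tw d hT γ hg, f2b_act_self d hQ' g] at h
      exact sub_eq_zero.1 h
    have h2 : Kum (S.image γ) (fun g => if f g = 0 then (1 : Ω) else -1) := by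
      apply kum_congr hconj
      intro g hg
      simp only [h1 g hg]
    exact kum_uniq hγalg hSalg hval h2 hK
  · right
    have h1 := kum_tors d h2Q hc
    have h2 := kum_mul hSalg hDalg hK h1
    have h3 : Kum (symmDiff S (rts k d.D)) (fun g => if f (γ⁻¹ * g * γ) = 0 then (1 : Ω) else -1) := by
      apply kum_congr h2
      intro g hg
      have h := hQ g hg
      rw [f2b_tw d hT γ hg] at h
      have ha := hT g hg
      have hb := hT _ (NN_conj (γ := γ) hg)
      have hTn : d.C.T Ω ≠ 0 := T_ne d.C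
      rw [← h]
      rcases ha with ha | ha <;> rcases hb with hb | hb
      · simp only [ha, hb, sub_self, if_true, mul_one]
      · simp only [ha, hb, sub_zero, if_true, hTn, if_false, one_mul]
      · have hn : (0 : d.C.Pt Ω) - d.C.T Ω ≠ 0 := by
          intro h0
          exact hTn (sub_eq_zero.1 h0).symm
        simp only [ha, hb, hn, hTn, if_true, if_false]
        ring
      · simp only [ha, hb, sub_self, hTn, if_true, if_false, mul_one]
    have h4 := kum_uniq hγalg (fun r hr => ?_) hval' hconj h3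
    · rw [h4, symmDiff_def]
      have h5 : S \ rts k d.D = ∅ := Finset.sdiff_eq_empty_iff_subset.2 hS
      rw [h5]
      simp
    · rw [symmDiff_def] at hr
      rcases Finset.mem_union.1 hr with hr | hr
      · exact hSalg r (Finset.mem_sdiff.1 hr).1
      · exact hDalg r (Finset.mem_sdiff.1 hr).1

/-- `f g` and `X` in `{0, T}` with the same signs are equal -/
theorem f2b_eq {x y : d.C.Pt Ω} (hx : x = 0 ∨ x = d.C.T Ω) (hy : y = 0 ∨ y = d.C.T Ω)
    (h : (if x = 0 then (1 : Ω) else -1) * (if y = 0 then (1 : Ω) else -1) = 1) : x = y := by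
  have hTn : d.C.T Ω ≠ 0 := T_ne d.C
  have h2 : (2 : Ω) ≠ 0 := d.C.two_ne Ω
  rcases hx with hx | hx <;> rcases hy with hy | hy
  · rw [hx, hy]
  · exfalso
    simp only [hx, hy, hTn, if_true, if_false] at h
    apply h2
    linear_combination -h
  · exfalso
    simp only [hx, hy, hTn, if_true, if_false] at h
    apply h2
    linear_combination -h
  · rw [hx, hy]

/-- Let `f` be a Selmer crossed homomorphism with values in `{0, T}` such that for every `γ` there is `Q` with `2Q = 0` and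
`γf - f = ∂Q` on `N`. Under `CondD` there is `P` with `2P ∈ E(k(t))` and `f = ∂P` on `N`.

Proof. `coreB`: `χ g = (1 if f g = 0, -1 if f g = T)` is `Kum S`, `S ⊆ roots(D)` even. For `γ ∈ Γ`, `g ∈ N`:
`tw γ f g = γ (f (γ⁻¹gγ)) = f (γ⁻¹gγ)` as `0`, `T` are fixed. So `χ(γ⁻¹gγ) = χ(g) ε(g)`, `ε(g) = 1` if `gQ = Q`, `-1` if `gQ - Q = T` (note
`gQ - Q = tw γ f g - f g ∈ {0, T}`). If `Q ∈ {0, T}` then `ε = 1` and `γS = S` (`kum_conj`, `kum_uniq`). Otherwise `ch Q = -1`, `ε` is
`Kum (roots D)` (`kum_tors`) and `γS = roots D \ S` (`kum_mul`). So `CondD` applies. `S = ∅`: `f = 0` on `N`, `P = 0`.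
`S = roots D`: `P = R` with `2R = 0`, `ch R = -1` (`exists_tors`): `χ` and `kum_tors` have the same `S`, hence agree on `N`; `2P = 0`.
Explained by `(U, V)`, `κ² = U ∏_S (t - r)`: `P`, `h` from `dual_point`; `e² = ∏_S (t - r)`, `(h e)² = κ²`, so `h e` is fixed by `N` and
`χ(g) = 1 ↔ g h = h ↔ gP - P = 0`. -/
theorem baseB (hD : CondD d Ω) {f : Gm k Ω → d.C.Pt Ω} (hf : IsSel d.C f)
    (hT : ∀ g ∈ NN k Ω, f g = 0 ∨ f g = d.C.T Ω)
    (hq : ∀ γ : Gm k Ω, ∃ Q : d.C.Pt Ω, (∀ g ∈ NN k Ω, tw d.C γ f g - f g = d.C.act g Q - Q) ∧ (2 : ℕ) • Q = 0) :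
    ∃ P : d.C.Pt Ω, (∃ R : d.C.Pt (RatFunc k), d.C.inc Ω R = (2 : ℕ) • P) ∧
      ∀ g ∈ NN k Ω, f g = d.C.act g P - P := by
  have : IsSepClosed Ω := IsSepClosure.sep_closed (RatFunc k)
  obtain ⟨S, hS, hev, hK⟩ := coreB d hf hT
  have hSalg : ∀ r ∈ S, IsAlgebraic k r := fun r hr => rts_alg (hS hr)
  have hTn : d.C.T Ω ≠ 0 := T_ne d.C
  have h2 : (2 : Ω) ≠ 0 := d.C.two_ne Ω
  rcases hD S hS hev (f2b_sym d hT hq hS hK) with h | h | ⟨U, V, hU, hV, κ, hκ, hκ2⟩
  · subst h
    refine ⟨0, ⟨0, by rw [map_zero, smul_zero]⟩, ?_⟩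
    intro g hg
    have h1 := f2b_empty hK g hg
    rw [map_zero, sub_zero]
    by_contra hne
    simp only [hne, if_false] at h1
    apply h2
    linear_combination -h1
  · obtain ⟨R, h2R, hcR⟩ := exists_tors (K := Ω) d.C
    have h1 := kum_tors d h2R hcR
    rw [h] at hK
    have hDalg : ∀ r ∈ (rts k d.D : Finset Ω), IsAlgebraic k r := fun r hr => rts_alg hr
    have h3 := kum_mul hDalg hDalg hK h1
    rw [symmDiff_self] at h3
    refine ⟨R, ⟨0, by rw [map_zero, h2R]⟩, ?_⟩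
    intro g hg
    exact f2b_eq d (hT g hg) (tors_diff d h2R hcR g) (f2b_empty h3 g hg)
  · obtain ⟨P, h, hR, hh0, hh, hact⟩ := dual_point (Ω := Ω) d hU hV
    refine ⟨P, hR, ?_⟩
    intro g hg
    obtain ⟨e, he, hge⟩ := hK
    have he0 : e ≠ 0 := by
      intro h0
      apply f2b_prod_ne hSalg
      rw [← he, h0]
      ring
    have hsq : (h * e) ^ 2 = κ ^ 2 := by rw [mul_pow, hh, he, hκ2]
    have hfix : g (h * e) = h * e := by
      rcases sq_eq_sq_iff_eq_or_eq_neg.1 hsq with h1 | h1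
      · rw [h1, hκ g hg]
      · rw [h1, map_neg, hκ g hg]
    rw [map_mul, hge g hg] at hfix
    rcases hact g with ⟨ha, hb⟩ | ⟨ha, hb⟩
    · rw [ha]
      by_contra hne
      simp only [hne, if_false] at hfix
      rw [hb] at hfix
      have h3 : 2 * (h * e) = 0 := by linear_combination -hfix
      exact mul_ne_zero h2 (mul_ne_zero hh0 he0) h3
    · rw [ha]
      rcases hT g hg with h3 | h3
      · exfalso
        simp only [h3, if_true] at hfix
        rw [hb] at hfix
        have h4 : 2 * (h * e) = 0 := by linear_combination -hfix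
        exact mul_ne_zero h2 (mul_ne_zero hh0 he0) h4
      · exact h3

end TE
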