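import Pool.Agent.TE.F1
import Pool.Agent.TE.F2

set_option autoImplicit false

open WeierstrassCurve.Affine
open scoped Classical Polynomial

namespace TE

/-! ## [TE-F3] the criterion -/

variable {k Ω : Type*} [Field k] [Field Ω] [Algebra k Ω] [Algebra (RatFunc k) Ω] [IsScalarTower k (RatFunc k) Ω]
  [IsSepClosure (RatFunc k) Ω] (d : Dat k)

omit [IsSepClosure (RatFunc k) Ω] in
/-- subtracting a coboundary -/
theorem f3_tw (C : Crv (RatFunc k)) (f : Gm k Ω → C.Pt Ω) (P : C.Pt Ω) (γ g : Gm k Ω) :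
    tw C γ (fun g => f g - (C.act g P - P)) g - (f g - (C.act g P - P)) =
      (tw C γ f g - f g) - (C.act g (C.act γ P - P) - (C.act γ P - P)) := by
  have h1 : C.act γ (C.act (γ⁻¹ * g * γ) P) = C.act g (C.act γ P) := by
    rw [← act_mul, ← act_mul]
    congr 2
    group
  unfold tw
  rw [map_sub, map_sub, map_sub, h1]
  abel

omit [IsSepClosure (RatFunc k) Ω] in
theorem f3_bd (C : Crv (RatFunc k)) (Q D : C.Pt Ω) (g : Gm k Ω) :
    C.act g (Q - D) - (Q - D) = (C.act g Q - Q) - (C.act g D - D) := by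
  rw [map_sub]
  abel

omit [IsSepClosure (RatFunc k) Ω] in
/-- a rational multiple is fixed -/
theorem f3_fix (C : Crv (RatFunc k)) (P : C.Pt Ω) (R : C.Pt (RatFunc k)) (n : ℕ)
    (h : C.inc Ω R = n • P) (γ : Gm k Ω) : n • (C.act γ P - P) = 0 := by
  rw [smul_sub, ← map_nsmul, ← h, act_inc, sub_self]

/-- The base case: `f` Selmer, `2f = 0`, `QInv 1`. Then `f = ∂S₁`, `2S₁ ∈ E(k(t))`.

Proof. `P` from `baseA`; `f₁ = f - ∂P` is Selmer (`isSel_sub`, `isSel_bd`), `2 f₁ g = -(g(2P) - 2P) = 0`, `ch ∘ f₁ = 1`, so `f₁ g ∈ {0, T}`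
(`ch_eq_one_iff`). For `γ ∈ Γ`: `tw γ f₁ - f₁ = ∂Q'`, `Q' = Q - γP + P` (use `tw γ (∂P) = ∂(γP)`), `2Q' = 2Q - (γ(2P) - 2P) = 2Q ∈ {0, T}`.
If `2Q' = T`: `ch (gQ' - Q') = ch (tw γ f₁ g - f₁ g) = 1` for `g ∈ N` since both terms are in `{0, T}` (`act_T`), against `half_K`. So
`2Q' = 0` and `baseB` gives `f₁ = ∂P'`, `2P' ∈ E(k(t))`. `S₁ = P + P'`. -/
theorem base (hB : CondB d Ω) (hD : CondD d Ω) {f : Gm k Ω → d.C.Pt Ω} (hf : IsSel d.C f)
    (h2f : ∀ g ∈ NN k Ω, (2 : ℕ) • f g = 0) (hq : QInv d.C 1 f) :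
    ∃ S : d.C.Pt Ω, (∃ R : d.C.Pt (RatFunc k), d.C.inc Ω R = (2 : ℕ) • S) ∧
      ∀ g ∈ NN k Ω, f g = d.C.act g S - S := by
  obtain ⟨P, ⟨R, hR⟩, hP⟩ := baseA d hB hf h2f hq
  have hf₁ : IsSel d.C (fun g => f g - (d.C.act g P - P)) := isSel_sub hf (isSel_bd d.C P)
  have hT : ∀ g ∈ NN k Ω, (fun g => f g - (d.C.act g P - P)) g = 0 ∨
      (fun g => f g - (d.C.act g P - P)) g = d.C.T Ω := fun g hg =>
    (ch_eq_one_iff d.C _).1 (hP g hg)
  have hq' : ∀ γ : Gm k Ω, ∃ Q : d.C.Pt Ω,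
      (∀ g ∈ NN k Ω, tw d.C γ (fun g => f g - (d.C.act g P - P)) g -
        (fun g => f g - (d.C.act g P - P)) g = d.C.act g Q - Q) ∧ (2 : ℕ) • Q = 0 := by
    intro γ
    obtain ⟨Q, hQ1, hQ2⟩ := hq γ
    have hkey : ∀ g ∈ NN k Ω, tw d.C γ (fun g => f g - (d.C.act g P - P)) g -
        (fun g => f g - (d.C.act g P - P)) g =
          d.C.act g (Q - (d.C.act γ P - P)) - (Q - (d.C.act γ P - P)) := by
      intro g hg
      rw [f3_bd, ← hQ1 g hg]
      exact f3_tw d.C f P γ g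
    have h2 : (2 : ℕ) • (Q - (d.C.act γ P - P)) = (2 : ℕ) • Q := by
      rw [smul_sub, f3_fix d.C P R 2 hR γ, sub_zero]
    rw [pow_one] at hQ2
    rcases hQ2 with hQ2 | hQ2
    · exact ⟨Q - (d.C.act γ P - P), hkey, by rw [h2, hQ2]⟩
    · exfalso
      apply half_K d (Q := Q - (d.C.act γ P - P)) (by rw [h2, hQ2])
      intro g hg
      rw [← hkey g hg, ch_eq_one_iff]
      have h3 : tw d.C γ (fun g => f g - (d.C.act g P - P)) g = 0 ∨
          tw d.C γ (fun g => f g - (d.C.act g P - P)) g = d.C.T Ω := by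
        unfold tw
        rcases hT (γ⁻¹ * g * γ) (NN_conj hg) with h4 | h4
        · left
          rw [h4, map_zero]
        · right
          rw [h4, act_T]
      have hTT : d.C.T Ω + d.C.T Ω = 0 := by
        rw [← two_nsmul]
        exact two_T d.C
      have hneg : -d.C.T Ω = d.C.T Ω := neg_eq_of_add_eq_zero_left hTT
      rcases h3 with h3 | h3 <;> rcases hT g hg with h4 | h4 <;> rw [h3, h4]
      · left
        exact sub_zero 0
      · right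
        rw [zero_sub, hneg]
      · right
        exact sub_zero _
      · left
        exact sub_self _
  obtain ⟨P', ⟨R', hR'⟩, hP'⟩ := baseB d hD hf₁ hT hq'
  refine ⟨P + P', ⟨R + R', by rw [map_add, hR, hR', smul_add]⟩, fun g hg => ?_⟩
  have h1 : f g - (d.C.act g P - P) = d.C.act g P' - P' := hP' g hg
  have h2 : f g = (d.C.act g P' - P') + (d.C.act g P - P) := by
    rw [← h1, sub_add_cancel]
  rw [h2, map_add]
  abel

/-- Induction on `n`. `n = 0`: `f = 0` on `N`, `S = 0`. Step `n → n + 1`: `f₁ = 2ⁿ f` is Selmer (`isSel_nsmul`), `2f₁ = 0`, and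
`tw γ f₁ - f₁ = ∂(2ⁿQ)`, `2 (2ⁿ Q) ∈ {0, T}`: `base` gives `f₁ = ∂S₁`, `2S₁ ∈ E(k(t))`. Choose `S` with `2ⁿ S = S₁` (`exists_div`),
`f' = f - ∂S`, `2ⁿ f' = 0`. `tw γ f' - f' = ∂Q'`, `Q' = Q - γS + S`. `V = 2ⁿ Q' = 2ⁿQ - γS₁ + S₁`; `∂V = 2ⁿ(tw γ f' - f') = 0` on `N`, i.e.
`V` is fixed by `N`; `2V = 2ⁿ⁺¹Q - (γ(2S₁) - 2S₁) = 2ⁿ⁺¹ Q ∈ {0, T}`. `2V = T` contradicts `half_K` (`gV - V = 0`, `ch_zero`); so `2V = 0`
and `V ∈ {0, T}` (`tors_K`). So `QInv n f'`; induction: `f' = ∂S'`, `2ⁿS' ∈ E(k(t))`. Then `f = ∂(S + S')` and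
`2ⁿ⁺¹(S + S') = 2S₁ + 2(2ⁿS') ∈ E(k(t))`. -/
theorem main_QInv (hB : CondB d Ω) (hD : CondD d Ω) (n : ℕ) : ∀ {f : Gm k Ω → d.C.Pt Ω}, IsSel d.C f →
    (∀ g ∈ NN k Ω, (2 ^ n : ℕ) • f g = 0) → QInv d.C n f →
    ∃ S : d.C.Pt Ω, (∃ R : d.C.Pt (RatFunc k), d.C.inc Ω R = (2 ^ n : ℕ) • S) ∧
      ∀ g ∈ NN k Ω, f g = d.C.act g S - S := by
  induction n with
  | zero =>
    intro f _ h0 _
    refine ⟨0, ⟨0, by rw [map_zero, smul_zero]⟩, fun g hg => ?_⟩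
    have h1 := h0 g hg
    rw [pow_zero, one_smul] at h1
    rw [h1, map_zero, sub_zero]
  | succ n ih =>
    intro f hf h0 hq
    have hpow : ∀ Q : d.C.Pt Ω, (2 : ℕ) • ((2 ^ n : ℕ) • Q) = (2 ^ (n + 1) : ℕ) • Q := by
      intro Q
      rw [smul_smul, pow_succ, mul_comm]
    obtain ⟨S₁, ⟨R₁, hR₁⟩, hS₁⟩ := base d hB hD (f := fun g => (2 ^ n : ℕ) • f g)
      (isSel_nsmul hf (2 ^ n)) (fun g hg => by
        show (2 : ℕ) • ((2 ^ n : ℕ) • f g) = 0
        rw [hpow]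
        exact h0 g hg) (by
        intro γ
        obtain ⟨Q, hQ1, hQ2⟩ := hq γ
        refine ⟨(2 ^ n : ℕ) • Q, fun g hg => ?_, ?_⟩
        · have h1 : tw d.C γ (fun g => (2 ^ n : ℕ) • f g) g = (2 ^ n : ℕ) • tw d.C γ f g := by
            unfold tw
            rw [map_nsmul]
          rw [h1, map_nsmul, ← smul_sub, ← smul_sub, hQ1 g hg]
        · rw [pow_one, hpow]
          exact hQ2)
    haveI : IsSepClosed Ω := IsSepClosure.sep_closed (RatFunc k)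
    obtain ⟨S, hS⟩ := exists_div d.C n S₁
    have hf' : IsSel d.C (fun g => f g - (d.C.act g S - S)) := isSel_sub hf (isSel_bd d.C S)
    have h0' : ∀ g ∈ NN k Ω, (2 ^ n : ℕ) • (f g - (d.C.act g S - S)) = 0 := by
      intro g hg
      have h1 : (2 ^ n : ℕ) • f g = d.C.act g S₁ - S₁ := hS₁ g hg
      rw [smul_sub, h1, smul_sub, ← map_nsmul, hS, sub_self]
    have hq' : QInv d.C n (fun g => f g - (d.C.act g S - S)) := by
      intro γ
      obtain ⟨Q, hQ1, hQ2⟩ := hq γ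
      have hkey : ∀ g ∈ NN k Ω, tw d.C γ (fun g => f g - (d.C.act g S - S)) g -
          (f g - (d.C.act g S - S)) =
            d.C.act g (Q - (d.C.act γ S - S)) - (Q - (d.C.act γ S - S)) := by
        intro g hg
        rw [f3_bd, ← hQ1 g hg]
        exact f3_tw d.C f S γ g
      refine ⟨Q - (d.C.act γ S - S), hkey, ?_⟩
      have hV : ∀ g ∈ NN k Ω, d.C.act g ((2 ^ n : ℕ) • (Q - (d.C.act γ S - S))) =
          (2 ^ n : ℕ) • (Q - (d.C.act γ S - S)) := by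
        intro g hg
        rw [← sub_eq_zero, map_nsmul, ← smul_sub, ← hkey g hg, smul_sub, h0' g hg, sub_zero]
        unfold tw
        rw [← map_nsmul, h0' _ (NN_conj hg), map_zero]
      have h2V : (2 : ℕ) • ((2 ^ n : ℕ) • (Q - (d.C.act γ S - S))) = (2 ^ (n + 1) : ℕ) • Q := by
        have h1 : (2 ^ n : ℕ) • (d.C.act γ S - S) = d.C.act γ S₁ - S₁ := by
          rw [smul_sub, ← map_nsmul, hS]
        rw [smul_sub (2 ^ n : ℕ) Q, h1, smul_sub, f3_fix d.C S₁ R₁ 2 hR₁ γ, sub_zero, hpow]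
      rcases hQ2 with hQ2 | hQ2
      · exact tors_K d (by rw [h2V, hQ2]) hV
      · exfalso
        apply half_K d (Q := (2 ^ n : ℕ) • (Q - (d.C.act γ S - S))) (by rw [h2V, hQ2])
        intro g hg
        rw [hV g hg, sub_self]
        exact ch_zero d.C
    obtain ⟨S', ⟨R', hR'⟩, hS'⟩ := ih hf' h0' hq'
    refine ⟨S + S', ⟨R₁ + (2 : ℕ) • R', ?_⟩, fun g hg => ?_⟩
    · rw [map_add, map_nsmul, hR₁, hR', hpow, smul_add, ← hpow S, hS]
    · have h1 : f g - (d.C.act g S - S) = d.C.act g S' - S' := hS' g hg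
      have h2 : f g = (d.C.act g S' - S') + (d.C.act g S - S) := by
        rw [← h1, sub_add_cancel]
      rw [h2, map_add]
      abel

end TE
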