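import Mathlib

set_option autoImplicit false

open scoped Classical

/-!
# [TE-G] the group theory for the theorem on large Galois groups

`R` is a finite set with `n` elements, `n` even, `n ≥ 8`. `Ht R` is the space of functions `R → F₂` modulo the constants, `HtE R` the subspace of
the classes of the functions with sum `0` (the heart of the permutation module, of dimension `n - 2`).
-/

namespace TE

/-- functions `R → F₂` modulo the constant functions -/
abbrev Ht (R : Type*) : Type _ := (R → ZMod 2) ⧸ (Submodule.span (ZMod 2) {(1 : R → ZMod 2)})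

section
variable {R : Type*}

/-- the class of the indicator function of `S` -/
noncomputable def hc (S : Finset R) : Ht R := Submodule.Quotient.mk (fun r => if r ∈ S then 1 else 0)

/-- the classes of the even sets -/
def HtE (R : Type*) : Submodule (ZMod 2) (Ht R) := Submodule.span (ZMod 2) {v | ∃ S : Finset R, Even S.card ∧ v = hc S}

/-- the action of the permutations on `Ht R` -/
noncomputable def htm (σ : Equiv.Perm R) : Ht R →ₗ[ZMod 2] Ht R :=
  Submodule.mapQ _ _ (LinearMap.funLeft (ZMod 2) (ZMod 2) σ.symm) (by
    rw [Submodule.span_le]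
    rintro _ rfl
    exact Submodule.subset_span rfl)

/-- the 3-cycle `a → b → c → a` (for distinct `a`, `b`, `c`) -/
noncomputable def cyc (a b c : R) : Equiv.Perm R := Equiv.swap a b * Equiv.swap b c

/-- three distinct points -/
def Dis (a b c : R) : Prop := a ≠ b ∧ b ≠ c ∧ a ≠ c

end

/-- The data of the pure case: a finite group `G` acting on a finite free `ℤ₂`-module `L` whose reduction mod 2 is embedded in the heart of a
permutation module, all even permutations being realized. -/
structure PTD (G R L : Type*) [Group G] [MulAction G R] [Fintype R] [AddCommGroup L] [Module ℤ_[2] L] where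
  ρ : G →* Module.End ℤ_[2] L
  j : L →+ Ht R
  ker : ∀ x : L, j x = 0 ↔ ∃ y : L, x = (2 : ℤ_[2]) • y
  even : ∀ x : L, j x ∈ HtE R
  equi : ∀ (g : G) (x : L), j (ρ g x) = htm (MulAction.toPerm g) (j x)
  alt : ∀ σ ∈ alternatingGroup R, ∃ g : G, ∀ r : R, g • r = σ r
  evn : Even (Fintype.card R)
  card : 8 ≤ Fintype.card R

/-- The data for the linear algebra: operators `s a b c` behaving like 3-cycles on a space of dimension `n - 2`. -/
structure ACD (K V R : Type*) [Field K] [AddCommGroup V] [Module K V] [Fintype R] where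
  s : R → R → R → Module.End K V
  cube : ∀ a b c, Dis a b c → s a b c ^ 3 = 1
  rot : ∀ a b c, Dis a b c → s b c a = s a b c
  inv : ∀ a b c, Dis a b c → s a b c * s a c b = 1
  conj : ∀ a b c d e f, Dis a b c → Dis d e f →
    s a b c * s d e f = s (cyc a b c d) (cyc a b c e) (cyc a b c f) * s a b c
  dim2 : ∀ a b c, Dis a b c → Module.finrank K (LinearMap.ker (1 + s a b c + s a b c ^ 2)) = 2
  sq : ∀ a b c d, Dis a b c → Dis a b d → c ≠ d → (s a b c * s a b d) ^ 2 = 1 ∧ s a b c * s a b d ≠ 1
  sup4 : ∀ a b c d e, Dis a b c → Dis a b d → Dis a b e → Dis c d e → 4 ≤ Module.finrank K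
    (LinearMap.ker (1 + s a b c + s a b c ^ 2) ⊔ LinearMap.ker (1 + s a b d + s a b d ^ 2) ⊔
      LinearMap.ker (1 + s a b e + s a b e ^ 2) : Submodule K V)
  top : (⨆ t : {t : R × R × R // Dis t.1 t.2.1 t.2.2},
    LinearMap.ker (1 + s t.1.1 t.1.2.1 t.1.2.2 + s t.1.1 t.1.2.1 t.1.2.2 ^ 2) : Submodule K V) = ⊤
  dimV : Module.finrank K V = Fintype.card R - 2
  card : 8 ≤ Fintype.card R

end TE
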