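import Pool.Agent.TE.G0

set_option autoImplicit false

open scoped Classical

namespace TE

/-! ## [TE-G1] operators congruent to `1` modulo `2` on a finite free `ℤ₂`-module -/

variable {L : Type*} [AddCommGroup L] [Module ℤ_[2] L] [Module.Finite ℤ_[2] L] [Module.Free ℤ_[2] L]

theorem g1_int (c : ℤ_[2]) (h : ∀ n : ℕ, (2 : ℤ_[2]) ^ n ∣ c) : c = 0 := by
  by_contra hc
  have h1 : 0 < ‖c‖ := norm_pos_iff.mpr hc
  obtain ⟨n, hn⟩ := exists_pow_lt_of_lt_one h1 (by norm_num : (1 / 2 : ℝ) < 1)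
  obtain ⟨d, hd⟩ := h n
  have h2 : ‖c‖ ≤ (1 / 2 : ℝ) ^ n := by
    rw [hd, norm_mul, norm_pow]
    have h3 : ‖(2 : ℤ_[2])‖ = 1 / 2 := by
      have := PadicInt.norm_p (p := 2)
      push_cast at this
      rw [this]
      norm_num
    rw [h3]
    exact mul_le_of_le_one_right (by positivity) (PadicInt.norm_le_one d)
  linarith

/-- `⋂ 2^n End(L) = 0` (matrix entries). -/
theorem end_separated (u : Module.End ℤ_[2] L) (h : ∀ n : ℕ, ∃ v : Module.End ℤ_[2] L, u = (2 ^ n : ℤ_[2]) • v) : u = 0 := by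
  ext x
  have b := Module.Free.chooseBasis ℤ_[2] L
  have h1 : b.repr (u x) = 0 := by
    ext i
    refine g1_int _ fun n => ?_
    obtain ⟨v, hv⟩ := h n
    rw [hv, LinearMap.smul_apply, map_smul, Finsupp.smul_apply, smul_eq_mul]
    exact dvd_mul_right _ _
  exact b.repr.map_eq_zero_iff.mp h1

theorem g1_tf (m : ℤ_[2]) (hm : m ≠ 0) (u : Module.End ℤ_[2] L) (h : m • u = 0) : u = 0 := by
  ext x
  have b := Module.Free.chooseBasis ℤ_[2] L
  have h1 : b.repr (u x) = 0 := by
    ext i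
    have h2 : m • u x = 0 := by
      rw [← LinearMap.smul_apply, h, LinearMap.zero_apply]
    have h3 : m * b.repr (u x) i = 0 := by
      rw [← smul_eq_mul, ← Finsupp.smul_apply, ← map_smul, h2, map_zero, Finsupp.zero_apply]
    exact (mul_eq_zero.mp h3).resolve_left hm
  exact b.repr.map_eq_zero_iff.mp h1

theorem g1_pow {A : Type*} [Ring A] (y : A) (k : ℕ) :
    ∃ d : A, (1 + y) ^ k = 1 + (k : A) * y + y * y * d := by
  induction k with
  | zero => exact ⟨0, by simp⟩
  | succ k ih =>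
    obtain ⟨d, hd⟩ := ih
    refine ⟨d + k + y * d, ?_⟩
    rw [pow_succ', hd]
    have hc : (k : A) * y = y * (k : A) := Nat.cast_comm k y
    push_cast
    rw [add_mul (k : A) 1 y, hc]
    noncomm_ring

theorem g1_claim (k : ℕ) : 0 < k → ∀ q b : Module.End ℤ_[2] L, q = 1 + (4 : ℤ_[2]) • b →
    q ^ k = 1 → q = 1 := by
  induction k using Nat.strong_induction_on with
  | _ k ih =>
    intro hk q b hq hqk
    have key : ∀ r : ℕ, ∃ c : Module.End ℤ_[2] L, q = 1 + ((2 : ℤ_[2]) ^ (r + 2)) • c := by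
      intro r
      induction r with
      | zero => exact ⟨b, by rw [hq]; norm_num⟩
      | succ r ihr =>
        obtain ⟨c, hc⟩ := ihr
        suffices h : ∃ c' : Module.End ℤ_[2] L, c = (2 : ℤ_[2]) • c' by
          obtain ⟨c', hc'⟩ := h
          refine ⟨c', ?_⟩
          rw [hc, hc', smul_smul]
          congr 2
          ring
        rcases Nat.even_or_odd' k with ⟨m, hm | hm⟩
        · -- even
          have hq2 : q ^ 2 = 1 := by
            refine ih m (by omega) (by omega) (q ^ 2)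
              ((2 : ℤ_[2]) • b + (4 : ℤ_[2]) • (b * b)) ?_ ?_
            · rw [hq, sq, add_mul, mul_add, mul_add, one_mul, one_mul, mul_one,
                smul_mul_smul_comm, smul_add, smul_smul, smul_smul]
              have h1 : (4 * 2 : ℤ_[2]) = 4 + 4 := by norm_num
              rw [h1, add_smul]
              abel
            · rw [← pow_mul, ← hm, hqk]
          have h1 : ((2 : ℤ_[2]) ^ (r + 3)) • (c + ((2 : ℤ_[2]) ^ (r + 1)) • (c * c)) = 0 := by
            have h2 : q ^ 2 = 1 + ((2 : ℤ_[2]) ^ (r + 3)) •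
                (c + ((2 : ℤ_[2]) ^ (r + 1)) • (c * c)) := by
              rw [hc, sq, add_mul, mul_add, mul_add, one_mul, one_mul, mul_one,
                smul_mul_smul_comm, smul_add, smul_smul]
              have h3 : ((2 : ℤ_[2]) ^ (r + 3)) = 2 ^ (r + 2) + 2 ^ (r + 2) := by ring
              have h4 : ((2 : ℤ_[2]) ^ (r + 3)) * 2 ^ (r + 1) = 2 ^ (r + 2) * 2 ^ (r + 2) := by
                ring
              rw [h4, h3, add_smul]
              abel
            rw [hq2] at h2
            exact (left_eq_add.mp h2)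
          have h2 := g1_tf _ (pow_ne_zero _ (by norm_num)) _ h1
          refine ⟨-(((2 : ℤ_[2]) ^ r) • (c * c)), ?_⟩
          rw [smul_neg, smul_smul, ← pow_succ']
          exact eq_neg_of_add_eq_zero_left h2
        · -- odd
          obtain ⟨d, hd⟩ := g1_pow (((2 : ℤ_[2]) ^ (r + 2)) • c) k
          rw [← hc, hqk] at hd
          have h1 : ((2 : ℤ_[2]) ^ (r + 2)) •
              ((k : ℤ_[2]) • c + ((2 : ℤ_[2]) ^ (r + 2)) • (c * c * d)) = 0 := by
            have h2 : (k : Module.End ℤ_[2] L) * (((2 : ℤ_[2]) ^ (r + 2)) • c) =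
                ((2 : ℤ_[2]) ^ (r + 2)) • ((k : ℤ_[2]) • c) := by
              rw [mul_smul_comm, ← nsmul_eq_mul, Nat.cast_smul_eq_nsmul]
            have h3 : (((2 : ℤ_[2]) ^ (r + 2)) • c) * (((2 : ℤ_[2]) ^ (r + 2)) • c) * d =
                ((2 : ℤ_[2]) ^ (r + 2)) • (((2 : ℤ_[2]) ^ (r + 2)) • (c * c * d)) := by
              rw [smul_mul_smul_comm, smul_mul_assoc, smul_smul]
            rw [h2, h3, add_assoc, ← smul_add] at hd
            exact (left_eq_add.mp hd)
          have h2 := g1_tf _ (pow_ne_zero _ (by norm_num)) _ h1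
          refine ⟨-((m : ℤ_[2]) • c + ((2 : ℤ_[2]) ^ (r + 1)) • (c * c * d)), ?_⟩
          have h3 : (k : ℤ_[2]) = 2 * m + 1 := by
            rw [hm]
            push_cast
            ring
          have h4 : ((2 : ℤ_[2]) ^ (r + 2)) = 2 * 2 ^ (r + 1) := by ring
          rw [h3, h4, add_smul, one_smul] at h2
          rw [smul_neg, smul_add, smul_smul, smul_smul]
          refine eq_neg_of_add_eq_zero_left ?_
          rw [← h2]
          abel
    have hs : q - 1 = 0 := by
      refine end_separated _ fun n => ?_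
      obtain ⟨c, hc⟩ := key n
      refine ⟨(4 : ℤ_[2]) • c, ?_⟩
      rw [smul_smul, hc, add_sub_cancel_left]
      congr 1
      ring
    exact sub_eq_zero.mp hs

/-- If `p = 1 + 2a` and `p^k = 1`, `k ≥ 1`, then `p² = 1`. -/
theorem sq_eq_one (p a : Module.End ℤ_[2] L) (hp : p = 1 + (2 : ℤ_[2]) • a) (k : ℕ) (hk : 0 < k) (h : p ^ k = 1) : p ^ 2 = 1 := by
  refine g1_claim k hk (p ^ 2) (a + a * a) ?_ ?_
  · rw [hp, sq, add_mul, mul_add, mul_add, one_mul, one_mul, mul_one, smul_mul_smul_comm,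
      smul_add]
    have h1 : (4 : ℤ_[2]) = 2 + 2 := by norm_num
    have h2 : (2 * 2 : ℤ_[2]) = 2 + 2 := by norm_num
    simp only [h1, h2, add_smul, smul_add]
    abel
  · rw [← pow_mul, mul_comm, pow_mul, h, one_pow]

/-- An idempotent divisible by `2` is `0` (`u = u^n ∈ 2^n End(L)`). -/
theorem idem_zero (u v : Module.End ℤ_[2] L) (hu : u * u = u) (h : u = (2 : ℤ_[2]) • v) : u = 0 := by
  refine end_separated u fun n => ?_
  induction n with
  | zero => exact ⟨u, by simp⟩
  | succ n ih =>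
    obtain ⟨w, hw⟩ := ih
    refine ⟨w * v, ?_⟩
    calc u = u * u := hu.symm
      _ = ((2 ^ n : ℤ_[2]) • w) * ((2 : ℤ_[2]) • v) := by rw [← hw, ← h]
      _ = _ := by rw [smul_mul_smul_comm, ← pow_succ]

theorem g1_div (a : Module.End ℤ_[2] L) (h : ∀ x, ∃ y, a x = (2 : ℤ_[2]) • y) :
    ∃ v : Module.End ℤ_[2] L, a = (2 : ℤ_[2]) • v := by
  choose y hy using h
  have b := Module.Free.chooseBasis ℤ_[2] L
  refine ⟨b.constr ℤ_[2] (fun i => y (b i)), ?_⟩
  refine b.ext fun i => ?_
  rw [LinearMap.smul_apply, Module.Basis.constr_basis]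
  exact hy (b i)

/-- If `p = 1 + 2a`, `p² = 1`, then `-a` is an idempotent (`4a + 4a² = 0`) and `p = 1 - 2(-a)`. If every value of `-a` is in `2L` then `p = 1`;
if every value of `1 + a` is in `2L` then `p = -1`. (Values in `2L`: choose them on a basis, `-a = 2v`; `idem_zero`.) -/
theorem eq_one_or (p a : Module.End ℤ_[2] L) (hp : p = 1 + (2 : ℤ_[2]) • a) (h : p ^ 2 = 1) :
    a * a = -a ∧ ((∀ x, ∃ y, a x = (2 : ℤ_[2]) • y) → p = 1) ∧ ((∀ x, ∃ y, x + a x = (2 : ℤ_[2]) • y) → p = -1) := by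
  have haa : a * a = -a := by
    have h1 : (4 : ℤ_[2]) • (a + a * a) = 0 := by
      have h2 : p ^ 2 = 1 + (4 : ℤ_[2]) • (a + a * a) := by
        rw [hp, sq, add_mul, mul_add, mul_add, one_mul, one_mul, mul_one, smul_mul_smul_comm,
          smul_add]
        have h1 : (4 : ℤ_[2]) = 2 + 2 := by norm_num
        have h2 : (2 * 2 : ℤ_[2]) = 2 + 2 := by norm_num
        simp only [h1, h2, add_smul, smul_add]
        abel
      rw [h] at h2
      exact (left_eq_add.mp h2)
    have h2 := g1_tf _ (by norm_num) _ h1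
    exact eq_neg_of_add_eq_zero_right h2
  refine ⟨haa, fun hx => ?_, fun hx => ?_⟩
  · obtain ⟨v, hv⟩ := g1_div a hx
    have h1 : -a = 0 := by
      refine idem_zero (-a) (-v) ?_ ?_
      · rw [neg_mul_neg, haa]
      · rw [smul_neg, ← hv]
    rw [hp, neg_eq_zero.mp h1, smul_zero, add_zero]
  · obtain ⟨v, hv⟩ := g1_div (1 + a) hx
    have h1 : 1 + a = 0 := by
      refine idem_zero (1 + a) v ?_ hv
      rw [add_mul, mul_add, mul_add, one_mul, one_mul, mul_one, haa]
      abel
    have h2 : a = -1 := eq_neg_of_add_eq_zero_right h1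
    rw [hp, h2, smul_neg, two_smul]
    abel

end TE
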