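import Pool.Agent.TE.G8

set_option autoImplicit false

open scoped Classical

namespace TE

/-! ## [TE-G9] the contradiction -/

variable {K V R : Type*} [Field K] [CharZero K] [AddCommGroup V] [Module K V] [FiniteDimensional K V] [Fintype R]

theorem g9_cyc_apply {a b c : R} (h : Dis a b c) : cyc a b c a = b ∧ cyc a b c b = c ∧ cyc a b c c = a := by
  obtain ⟨hab, hbc, hac⟩ := h
  unfold cyc
  refine ⟨?_, ?_, ?_⟩
  · rw [Equiv.Perm.mul_apply, Equiv.swap_apply_of_ne_of_ne hab hac, Equiv.swap_apply_left]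
  · rw [Equiv.Perm.mul_apply, Equiv.swap_apply_left, Equiv.swap_apply_of_ne_of_ne hac.symm hbc.symm]
  · rw [Equiv.Perm.mul_apply, Equiv.swap_apply_right, Equiv.swap_apply_right]

theorem g9_cyc_ne {a b c x : R} (ha : x ≠ a) (hb : x ≠ b) (hc : x ≠ c) : cyc a b c x = x := by
  unfold cyc
  rw [Equiv.Perm.mul_apply, Equiv.swap_apply_of_ne_of_ne hb hc, Equiv.swap_apply_of_ne_of_ne ha hb]

theorem g9_perm (D : ACD K V R) {a b c : R} (h : Dis a b c) :
    D.W b a c = D.W a b c ∧ D.W a c b = D.W a b c ∧ D.W b c a = D.W a b c ∧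
    D.W c a b = D.W a b c ∧ D.W c b a = D.W a b c := by
  have h1 := W_perm D h
  have hbca : Dis b c a := ⟨h.2.1, fun e => h.2.2 e.symm, fun e => h.1 e.symm⟩
  have h2 := W_perm D hbca
  refine ⟨h1.2.2, h1.2.1, h1.1, ?_, ?_⟩
  · rw [h2.1, h1.1]
  · rw [h2.2.2, h1.1]

theorem g9_one_add (D : ACD K V R) {a b c : R} (h : Dis a b c) (v : V) :
    D.s a b c v - v ∈ D.W a b c := by
  unfold ACD.W
  rw [LinearMap.mem_ker]
  have h3 := D.cube a b c h
  have h4 : D.s a b c (D.s a b c (D.s a b c v)) = v := by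
    have := congrArg (fun f : Module.End K V => f v) h3
    simpa [pow_succ, Module.End.mul_apply] using this
  simp only [LinearMap.add_apply, Module.End.one_apply, pow_two, Module.End.mul_apply, map_sub, h4]
  abel

theorem g9_stable (D : ACD K V R) {p q : R} {j : R} (hj : Dis p q j) {v : V}
    (hv : v ∈ (⨆ t : {t : R // Dis p q t}, D.W p q t.1)) :
    D.s p q j v ∈ (⨆ t : {t : R // Dis p q t}, D.W p q t.1) := by
  have h1 : D.s p q j v = v + (D.s p q j v - v) := by abel
  rw [h1]
  exact Submodule.add_mem _ hv (Submodule.mem_iSup_of_mem ⟨j, hj⟩ (g9_one_add D hj v))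

/-- `V` is the sum of the planes `W 1 2 j` (`1, 2` two fixed points, `j` any other point): this sum `V'` is stable under the `s 1 2 j`
(`(s - 1)V ⊆ W`) and their inverses, `s (2 j k) = s(1 2 j) s(1 2 k) s(1 2 j)⁻¹` (`D.conj`), so `W 2 j k = s(1 2 j) (W 1 2 k) ⊆ V'`; in the same way with the inverse
`W 1 j k ⊆ V'`, and `W l j k = s(1 2 l) (W 2 j k) ⊆ V'`. So `V'` contains all `W`, `V' = V` (`D.top`). -/
theorem sup_W (D : ACD K V R) {p q : R} (hpq : p ≠ q) :
    (⨆ t : {t : R // Dis p q t}, D.W p q t.1) = ⊤ := by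
  set V' : Submodule K V := ⨆ t : {t : R // Dis p q t}, D.W p q t.1 with hV'
  have hst : ∀ j, Dis p q j → ∀ v ∈ V', D.s p q j v ∈ V' := fun j hj v hv => g9_stable D hj hv
  have hmap : ∀ j, Dis p q j → ∀ U : Submodule K V, U ≤ V' → U.map (D.s p q j) ≤ V' := by
    rintro j hj U hU _ ⟨u, hu, rfl⟩
    exact hst j hj u (hU hu)
  -- both points
  have hpq2 : ∀ t, Dis p q t → D.W p q t ≤ V' := fun t ht => le_iSup_of_le ⟨t, ht⟩ le_rfl
  -- only q
  have hq : ∀ j k, Dis p q j → Dis p q k → j ≠ k → D.W q j k ≤ V' := by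
    intro j k hj hk hjk
    have h1 := W_map D hj hk
    rw [(g9_cyc_apply hj).1, (g9_cyc_apply hj).2.1,
      g9_cyc_ne (fun e => hk.2.2 e.symm) (fun e => hk.2.1 e.symm) (fun e => hjk e.symm)] at h1
    rw [← h1]
    exact hmap j hj _ (hpq2 k hk)
  -- only p
  have hp : ∀ j k, Dis p q j → Dis p q k → j ≠ k → D.W j p k ≤ V' := by
    intro j k hj hk hjk
    have hqjk : Dis q j k := ⟨hj.2.1, hjk, hk.2.1⟩
    have h1 := W_map D hj hqjk
    rw [(g9_cyc_apply hj).2.1, (g9_cyc_apply hj).2.2,
      g9_cyc_ne (fun e => hk.2.2 e.symm) (fun e => hk.2.1 e.symm) (fun e => hjk e.symm)] at h1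
    rw [← h1]
    exact hmap j hj _ (hq j k hj hk hjk)
  -- none
  have hn : ∀ l j k, Dis p q l → Dis p q j → Dis p q k → l ≠ j → l ≠ k → j ≠ k → D.W l j k ≤ V' := by
    intro l j k hl hj hk hlj hlk hjk
    have hqjk : Dis q j k := ⟨hj.2.1, hjk, hk.2.1⟩
    have h1 := W_map D hl hqjk
    rw [(g9_cyc_apply hl).2.1,
      g9_cyc_ne (fun e => hj.2.2 e.symm) (fun e => hj.2.1 e.symm) (fun e => hlj e.symm),
      g9_cyc_ne (fun e => hk.2.2 e.symm) (fun e => hk.2.1 e.symm) (fun e => hlk e.symm)] at h1
    rw [← h1]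
    exact hmap l hl _ (hq j k hj hk hjk)
  have hall : ∀ a b c, Dis a b c → D.W a b c ≤ V' := by
    intro a b c h
    obtain ⟨hab, hbc, hac⟩ := h
    obtain ⟨e1, e2, e3, e4, e5⟩ := g9_perm D (⟨hab, hbc, hac⟩ : Dis a b c)
    have hD : ∀ t, t ≠ p → t ≠ q → Dis p q t := fun t h1 h2 => ⟨hpq, fun e => h2 e.symm, fun e => h1 e.symm⟩
    by_cases hap : a = p
    · subst hap
      by_cases hbq : b = q
      · subst hbq
        exact hpq2 c ⟨hpq, hbc, hac⟩
      · by_cases hcq : c = q
        · subst hcq
          rw [← e2]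
          exact hpq2 b ⟨hpq, fun e => hbc e.symm, hab⟩
        · rw [← e1]
          exact hp b c (hD b (fun e => hab e.symm) hbq) (hD c (fun e => hac e.symm) hcq) hbc
    · by_cases haq : a = q
      · subst haq
        by_cases hbp : b = p
        · subst hbp
          rw [← e1]
          exact hpq2 c ⟨hpq, hac, hbc⟩
        · by_cases hcp : c = p
          · subst hcp
            rw [← e4]
            exact hpq2 b ⟨hpq, hab, fun e => hbc e.symm⟩
          · exact hq b c (hD b hbp (fun e => hab e.symm)) (hD c hcp (fun e => hac e.symm)) hbc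
      · have hDa := hD a hap haq
        by_cases hbp : b = p
        · subst hbp
          by_cases hcq : c = q
          · subst hcq
            rw [← e3]
            exact hpq2 a hDa
          · exact hp a c hDa (hD c (fun e => hbc e.symm) hcq) hac
        · by_cases hbq : b = q
          · subst hbq
            by_cases hcp : c = p
            · subst hcp
              rw [← e5]
              exact hpq2 a hDa
            · rw [← e1]
              exact hq a c hDa (hD c hcp (fun e => hbc e.symm)) hac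
          · have hDb := hD b hbp hbq
            by_cases hcp : c = p
            · subst hcp
              rw [← e2]
              exact hp a b hDa hDb hab
            · by_cases hcq : c = q
              · subst hcq
                rw [← e4]
                exact hq a b hDa hDb hab
              · exact hn a b c hDa hDb (hD c hcp hcq) hab hac hbc
  rw [eq_top_iff, ← D.top]
  apply iSup_le
  rintro ⟨⟨a, b, c⟩, ht⟩
  exact hall a b c ht

/-- There are no such data.

Proof. Fix points `1 ≠ 2` and `ℓ` from `exists_lines`; let `0 ≠ x ∈ ℓ 1 2`. For `j ∉ {1, 2}` write `s_j = s 1 2 j` and `y_j = s_j² x`. Below `i, j, k, l` are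
distinct points `∉ {1, 2}`.
(1) `x + s_j x + y_j = 0` (`x ∈ W 1 2 j`); `W 1 2 j` is spanned by `x`, `y_j` (`w_indep`: `x`, `s_j x` independent, and `y_j = -x - s_j x`).
(2) `s j k l x = x`; `s j k l y_j = s_{jkl} s_j² x = s_k² s_{jkl} x = y_k` (`D.conj`); `s j k l y_i = y_i`.
(3) By `sup_W` and (1), `V` is spanned by `x` and the `n - 2` vectors `y_j`; `dim V = n - 2`, so there is a nontrivial relation
`c x + ∑_j c_j y_j = 0`.
(4) `y_j ≠ y_k` for `j ≠ k`: if `y_j = y_k` for some pair then applying `s j k l`: `y_k = y_l`, so all `y` are equal and `dim V ≤ 2 < n - 2`.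
(5) Apply `s j k l` to the relation and subtract: `c_j (y_k - y_j) + c_k (y_l - y_k) + c_l (y_j - y_l) = 0`, i.e.
`(c_j - c_l) u + (c_k - c_l) s_{jkl} u = 0` with `u = y_k - y_j = (s_{jkl} - 1) y_j ∈ W j k l`, `s_{jkl} u = y_l - y_k`, `u ≠ 0`. By `w_indep`
`c_j = c_k = c_l`. So all `c_j` are equal to some `c'`; `c' ≠ 0` (else `c x = 0`, `c = 0`). Hence `∑_j y_j = λ x` for some `λ`.
(6) For `i ≠ j`: `s_i y_j = x + y_j`. Indeed `y_j ∈ s_j² ℓ(1,2) = ℓ(j,1)` (`s_j²` is `s 1 j 2`, which maps `1 → j`, `2 → 1`), so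
`s_i y_j ∈ ℓ(j, 2)`, and `s_j x ∈ ℓ(2, j)` is a nonzero vector of this line: `s_i y_j = μ s_j x = -μ (x + y_j)`. Now
`(s_i - 1) y_j ∈ W 1 2 i` (as `(1 + s + s²)(s - 1) = 0`) `= ⟨x, y_i⟩` and `(s_i - 1) y_j = -μ x - (μ + 1) y_j`. If `μ ≠ -1` then
`y_j ∈ W 1 2 i`, so `W 1 2 j = ⟨x, y_j⟩ = W 1 2 i`, against `line_unique` (their intersection is a line). So `μ = -1`.
(7) `s_i x = -x - y_i`, `s_i y_i = s_i³ x = x`.
(8) Apply `s_i` to `∑_j y_j = λ x`: `x + ∑_{j ≠ i} (x + y_j) = (n - 2) x + λ x - y_i`, and the right side is `-λ x - λ y_i`. So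
`(n - 2 + 2λ) x + (λ - 1) y_i = 0`, and `x, y_i` are independent: `λ = 1`, `n = 0` in `K`. Contradiction (`char K = 0`, `n ≥ 8`). -/
theorem no_ACD (hK : ∀ x : K, x ^ 2 + x + 1 ≠ 0) (D : ACD K V R) : False := by
  have hcard := D.card
  -- two points
  obtain ⟨p, q, hpq⟩ : ∃ p q : R, p ≠ q := by
    have h1 : 1 < Fintype.card R := by omega
    exact Fintype.one_lt_card_iff.mp h1
  obtain ⟨ℓ, hℓ1, hℓW, hℓsymm, hℓle, hℓmap, hℓfix⟩ := exists_lines hK D
  have hD : ∀ t, t ≠ p → t ≠ q → Dis p q t := fun t h1 h2 => ⟨hpq, fun e => h2 e.symm, fun e => h1 e.symm⟩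
  -- card of the index set
  have hcJ : Fintype.card {t : R // Dis p q t} = Fintype.card R - 2 := by
    rw [Fintype.card_subtype]
    have h1 : (Finset.univ.filter (fun t => Dis p q t)) = Finset.univ \ {p, q} := by
      ext t
      simp only [Finset.mem_filter, Finset.mem_univ, true_and, Finset.mem_sdiff, Finset.mem_insert,
        Finset.mem_singleton, not_or]
      constructor
      · rintro ⟨_, h2, h3⟩
        exact ⟨fun e => h3 e.symm, fun e => h2 e.symm⟩
      · rintro ⟨h2, h3⟩
        exact hD t h2 h3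
    rw [h1, Finset.card_sdiff_of_subset (Finset.subset_univ _), Finset.card_univ, Finset.card_pair hpq]
  -- the vector x
  obtain ⟨x, hxℓ, hx0⟩ : ∃ x ∈ ℓ p q, x ≠ 0 := by
    have h1 := hℓ1 p q hpq
    have h2 : ℓ p q ≠ ⊥ := by
      intro h3
      rw [h3, finrank_bot] at h1
      omega
    exact Submodule.exists_mem_ne_zero_of_ne_bot h2
  set y : R → V := fun j => D.s p q j (D.s p q j x) with hy
  have hcube : ∀ a b c, Dis a b c → ∀ v, D.s a b c (D.s a b c (D.s a b c v)) = v := by
    intro a b c h v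
    have := congrArg (fun f : Module.End K V => f v) (D.cube a b c h)
    simpa [pow_succ, Module.End.mul_apply] using this
  have hmemW : ∀ a b c v, v ∈ D.W a b c ↔ v + D.s a b c v + D.s a b c (D.s a b c v) = 0 := by
    intro a b c v
    unfold ACD.W
    rw [LinearMap.mem_ker]
    simp only [LinearMap.add_apply, Module.End.one_apply, pow_two, Module.End.mul_apply]
  have hxW : ∀ j, Dis p q j → x ∈ D.W p q j := fun j hj => hℓle p q j hj hxℓ
  -- (1)
  have h1 : ∀ j, Dis p q j → D.s p q j x = - x - y j := by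
    intro j hj
    have h2 := (hmemW p q j x).1 (hxW j hj)
    have h3 : D.s p q j x - (- x - y j) = 0 := by
      rw [← h2]
      simp only [hy]
      abel
    exact sub_eq_zero.mp h3
  have hindep : ∀ j, Dis p q j → ∀ α β : K, α • x + β • y j = 0 → α = 0 ∧ β = 0 := by
    intro j hj α β h
    have h2 : y j = - x - D.s p q j x := by
      rw [h1 j hj]; abel
    rw [h2] at h
    have h3 : (α - β) • x + (-β) • D.s p q j x = 0 := by
      rw [← h]
      module
    have h4 := w_indep hK (D.s p q j) x (hxW j hj) hx0 _ _ h3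
    have h5 : β = 0 := by linear_combination -h4.2
    have h6 : α = 0 := by linear_combination h4.1 - h4.2
    exact ⟨h6, h5⟩
  have hyW : ∀ j, Dis p q j → y j ∈ D.W p q j := by
    intro j hj
    have h2 : y j = - x - D.s p q j x := by
      rw [h1 j hj]; abel
    rw [h2]
    have h3 : D.s p q j x ∈ D.W p q j := by
      have h4 : D.s p q j x = x + (D.s p q j x - x) := by abel
      rw [h4]
      exact Submodule.add_mem _ (hxW j hj) (g9_one_add D hj x)
    exact Submodule.sub_mem _ (Submodule.neg_mem _ (hxW j hj)) h3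
  have hspan : ∀ j, Dis p q j → D.W p q j = Submodule.span K {x, y j} := by
    intro j hj
    symm
    apply Submodule.eq_of_le_of_finrank_eq
    · rw [Submodule.span_le]
      intro v hv
      rcases hv with rfl | rfl
      · exact hxW j hj
      · exact hyW j hj
    · have hd : Module.finrank K (D.W p q j) = 2 := D.dim2 p q j hj
      rw [hd]
      have hLI : LinearIndependent K ![x, y j] := by
        rw [LinearIndependent.pair_iff]
        exact hindep j hj
      have h3 := finrank_span_eq_card hLI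
      have h4 : Set.range ![x, y j] = {x, y j} := by
        ext v
        simp only [Set.mem_range, Fin.exists_fin_two, Matrix.cons_val_zero, Matrix.cons_val_one,
          Set.mem_insert_iff, Set.mem_singleton_iff]
        constructor
        · rintro (h | h)
          · exact Or.inl h.symm
          · exact Or.inr h.symm
        · rintro (h | h)
          · exact Or.inl h.symm
          · exact Or.inr h.symm
      rw [h4] at h3
      simpa using h3
  -- (2)
  have h2x : ∀ j k l, Dis p q j → Dis p q k → Dis p q l → Dis j k l → D.s j k l x = x := by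
    intro j k l hj hk hl hjkl
    exact hℓfix j k l p q hjkl hpq hj.2.2 hk.2.2 hl.2.2 hj.2.1 hk.2.1 hl.2.1 x hxℓ
  have h2y : ∀ j k l, Dis p q j → Dis p q k → Dis p q l → Dis j k l → ∀ t, Dis p q t →
      D.s j k l (y t) = y (cyc j k l t) := by
    intro j k l hj hk hl hjkl t ht
    have hc := D.conj j k l p q t hjkl ht
    rw [g9_cyc_ne hj.2.2 hk.2.2 hl.2.2, g9_cyc_ne hj.2.1 hk.2.1 hl.2.1] at hc
    have hc' : ∀ v, D.s j k l (D.s p q t v) = D.s p q (cyc j k l t) (D.s j k l v) := by
      intro v
      have := congrArg (fun f : Module.End K V => f v) hc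
      simpa [Module.End.mul_apply] using this
    simp only [hy]
    rw [hc', hc', h2x j k l hj hk hl hjkl]
  -- existence of further points
  have hmore : ∀ S : Finset R, S.card ≤ 5 → ∃ t, t ∉ S ∧ Dis p q t := by
    intro S hS
    have h3 : (insert p (insert q S)).card < Fintype.card R := by
      have h4 := Finset.card_insert_le p (insert q S)
      have h5 := Finset.card_insert_le q S
      omega
    obtain ⟨t, ht⟩ : ∃ t, t ∉ insert p (insert q S) := by
      by_contra hcon
      push Not at hcon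
      have h6 : insert p (insert q S) = Finset.univ := Finset.eq_univ_iff_forall.mpr hcon
      rw [h6, Finset.card_univ] at h3
      omega
    simp only [Finset.mem_insert, not_or] at ht
    exact ⟨t, ht.2.2, hD t ht.1 ht.2.1⟩
  -- (4)
  have h4 : ∀ j k, Dis p q j → Dis p q k → j ≠ k → y j ≠ y k := by
    intro j k hj hk hjk hyy
    have hall : ∀ l, Dis p q l → y l = y k := by
      intro l hl
      by_cases hlj : l = j
      · rw [hlj, hyy]
      · by_cases hlk : l = k
        · rw [hlk]
        · have hjkl : Dis j k l := ⟨hjk, fun e => hlk e.symm, fun e => hlj e.symm⟩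
          have h5 := h2y j k l hj hk hl hjkl j hj
          have h6 := h2y j k l hj hk hl hjkl k hk
          rw [(g9_cyc_apply hjkl).1] at h5
          rw [(g9_cyc_apply hjkl).2.1] at h6
          rw [← h6, ← hyy, h5]
          exact hyy.symm
    have htop := sup_W D hpq
    have hle : (⨆ t : {t : R // Dis p q t}, D.W p q t.1) ≤ Submodule.span K {x, y k} := by
      apply iSup_le
      rintro ⟨t, ht⟩
      rw [hspan t ht, hall t ht]
    rw [htop] at hle
    have h7 : Submodule.span K {x, y k} = ⊤ := eq_top_iff.mpr hle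
    have h8 : Module.finrank K (Submodule.span K {x, y k} : Submodule K V) ≤ 2 := by
      rw [← hspan k hk]
      exact le_of_eq (D.dim2 p q k hk)
    rw [h7, finrank_top, D.dimV] at h8
    omega
  -- (3) the relation
  set f : Option {t : R // Dis p q t} → V := fun o => o.elim x (fun t => y t.1) with hf
  have hnli : ¬ LinearIndependent K f := by
    intro hli
    have h5 := hli.fintype_card_le_finrank
    rw [Fintype.card_option, hcJ, D.dimV] at h5
    omega
  obtain ⟨g, hg0, i0, hi0⟩ := Fintype.not_linearIndependent_iff.mp hnli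
  rw [Fintype.sum_option] at hg0
  simp only [hf, Option.elim_none, Option.elim_some] at hg0
  -- (5)
  have h5 : ∀ j k : {t : R // Dis p q t}, g (some j) = g (some k) := by
    intro j k
    by_cases hjk : j = k
    · rw [hjk]
    · have hjk' : j.1 ≠ k.1 := fun e => hjk (Subtype.ext e)
      obtain ⟨l, hlS, hl⟩ := hmore {j.1, k.1} (by
        have := Finset.card_le_two (a := j.1) (b := k.1)
        omega)
      simp only [Finset.mem_insert, Finset.mem_singleton, not_or] at hlS
      have hjkl : Dis j.1 k.1 l := ⟨hjk', fun e => hlS.2 e.symm, fun e => hlS.1 e.symm⟩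
      have ha := congrArg (D.s j.1 k.1 l) hg0
      simp only [map_add, map_smul, map_sum, map_zero] at ha
      rw [h2x j.1 k.1 l j.2 k.2 hl hjkl] at ha
      have hb : ∀ t : {t : R // Dis p q t}, D.s j.1 k.1 l (y t.1) = y (cyc j.1 k.1 l t.1) :=
        fun t => h2y j.1 k.1 l j.2 k.2 hl hjkl t.1 t.2
      simp only [hb] at ha
      have hc : ∑ t : {t : R // Dis p q t}, g (some t) • (y (cyc j.1 k.1 l t.1) - y t.1) = 0 := by
        simp only [smul_sub, Finset.sum_sub_distrib]
        have := congrArg₂ (fun a b => a - b) ha hg0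
        simp only [sub_zero] at this
        rw [← this]
        abel
      have hd : ∑ t ∈ ({j, k, ⟨l, hl⟩} : Finset {t : R // Dis p q t}),
          g (some t) • (y (cyc j.1 k.1 l t.1) - y t.1) = 0 := by
        rw [← hc]
        apply Finset.sum_subset (Finset.subset_univ _)
        intro t _ ht
        simp only [Finset.mem_insert, Finset.mem_singleton, not_or] at ht
        rw [g9_cyc_ne (fun e => ht.1 (Subtype.ext e)) (fun e => ht.2.1 (Subtype.ext e))
          (fun e => ht.2.2 (Subtype.ext e)), sub_self, smul_zero]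
      rw [Finset.sum_insert, Finset.sum_insert, Finset.sum_singleton] at hd
      · simp only [(g9_cyc_apply hjkl).1, (g9_cyc_apply hjkl).2.1, (g9_cyc_apply hjkl).2.2] at hd
        have hu : D.s j.1 k.1 l (y k.1 - y j.1) = y l - y k.1 := by
          rw [map_sub, h2y j.1 k.1 l j.2 k.2 hl hjkl k.1 k.2, h2y j.1 k.1 l j.2 k.2 hl hjkl j.1 j.2,
            (g9_cyc_apply hjkl).1, (g9_cyc_apply hjkl).2.1]
        have hu2 : D.s j.1 k.1 l (y l - y k.1) = y j.1 - y l := by
          rw [map_sub, h2y j.1 k.1 l j.2 k.2 hl hjkl k.1 k.2, h2y j.1 k.1 l j.2 k.2 hl hjkl l hl,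
            (g9_cyc_apply hjkl).2.2, (g9_cyc_apply hjkl).2.1]
        have huW : y k.1 - y j.1 ∈ D.W j.1 k.1 l := by
          rw [hmemW, hu, hu2]
          abel
        have hu0 : y k.1 - y j.1 ≠ 0 := by
          rw [sub_ne_zero]
          exact h4 k.1 j.1 k.2 j.2 (fun e => hjk' e.symm)
        have he : (g (some j) - g (some ⟨l, hl⟩)) • (y k.1 - y j.1)
            + (g (some k) - g (some ⟨l, hl⟩)) • D.s j.1 k.1 l (y k.1 - y j.1) = 0 := by
          rw [hu, ← hd]
          module
        have hw := w_indep hK _ _ huW hu0 _ _ he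
        have e1 := sub_eq_zero.mp hw.1
        have e2 := sub_eq_zero.mp hw.2
        rw [e1, e2]
      · simp only [Finset.mem_singleton]
        intro e
        exact hlS.2 (congrArg Subtype.val e).symm
      · simp only [Finset.mem_insert, Finset.mem_singleton, not_or]
        exact ⟨hjk, fun e => hlS.1 (congrArg Subtype.val e).symm⟩
  obtain ⟨i, _, hi⟩ := hmore ∅ (by simp)
  set c' : K := g (some ⟨i, hi⟩) with hc'
  have hgc : ∀ t, g (some t) = c' := fun t => h5 t ⟨i, hi⟩
  simp only [hgc, ← Finset.smul_sum] at hg0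
  have hc'0 : c' ≠ 0 := by
    intro h6
    rw [h6, zero_smul, add_zero] at hg0
    rcases smul_eq_zero.mp hg0 with h7 | h7
    · rcases i0 with _ | t
      · exact hi0 h7
      · apply hi0
        rw [hgc, h6]
    · exact hx0 h7
  set lam : K := -(c'⁻¹ * g none) with hlam
  have hsum : ∑ t : {t : R // Dis p q t}, y t.1 = lam • x := by
    have h6 : c'⁻¹ • (g none • x + c' • ∑ t : {t : R // Dis p q t}, y t.1) = 0 := by
      rw [hg0, smul_zero]
    rw [smul_add, smul_smul, smul_smul, inv_mul_cancel₀ hc'0, one_smul] at h6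
    have h7 : ∑ t : {t : R // Dis p q t}, y t.1 = -((c'⁻¹ * g none) • x) :=
      eq_neg_of_add_eq_zero_right h6
    rw [h7, hlam, neg_smul]
  -- (6)
  have h6 : ∀ j, Dis p q j → j ≠ i → D.s p q i (y j) = x + y j := by
    intro j hj hji
    have hm1 : D.s p q j x ∈ ℓ q j := by
      have h7 := hℓmap p q j p q hj hpq
      rw [(g9_cyc_apply hj).1, (g9_cyc_apply hj).2.1] at h7
      rw [← h7]
      exact ⟨x, hxℓ, rfl⟩
    have hm2 : y j ∈ ℓ j p := by
      have h7 := hℓmap p q j q j hj hj.2.1
      rw [(g9_cyc_apply hj).2.1, (g9_cyc_apply hj).2.2] at h7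
      rw [← h7]
      exact ⟨_, hm1, rfl⟩
    have hm3 : D.s p q i (y j) ∈ ℓ q j := by
      have h7 := hℓmap p q i j p hi (fun e => hj.2.2 e.symm)
      rw [g9_cyc_ne (fun e => hj.2.2 e.symm) (fun e => hj.2.1 e.symm) hji,
        (g9_cyc_apply hi).1] at h7
      rw [hℓsymm q j hj.2.1, ← h7]
      exact ⟨_, hm2, rfl⟩
    have hne : D.s p q j x ≠ 0 := by
      intro h7
      apply hx0
      rw [← hcube p q j hj x, h7, map_zero, map_zero]
    obtain ⟨μ, hμ⟩ := exists_smul_eq_of_finrank_eq_one (hℓ1 q j hj.2.1)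
      (x := (⟨D.s p q j x, hm1⟩ : ℓ q j)) (by
        intro h7
        exact hne (congrArg Subtype.val h7)) ⟨D.s p q i (y j), hm3⟩
    have hμ' : μ • D.s p q j x = D.s p q i (y j) := congrArg Subtype.val hμ
    have hW : D.s p q i (y j) - y j ∈ D.W p q i := g9_one_add D hi (y j)
    have hμ1 : μ = -1 := by
      by_contra hμ1
      have h8 : (μ + 1) • y j ∈ D.W p q i := by
        have h9 : (μ + 1) • y j = -(D.s p q i (y j) - y j) - μ • x := by
          rw [← hμ', h1 j hj]
          module
        rw [h9]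
        exact Submodule.sub_mem _ (Submodule.neg_mem _ hW) (Submodule.smul_mem _ _ (hxW i hi))
      have h9 : μ + 1 ≠ 0 := by
        intro h10
        exact hμ1 (by linear_combination h10)
      have h10 : y j ∈ D.W p q i := by
        have := Submodule.smul_mem _ (μ + 1)⁻¹ h8
        rwa [smul_smul, inv_mul_cancel₀ h9, one_smul] at this
      have h11 : y j ∈ ℓ p q := by
        rw [hℓW p q i j hi hj (fun e => hji e.symm)]
        exact ⟨h10, hyW j hj⟩
      obtain ⟨ν, hν⟩ := exists_smul_eq_of_finrank_eq_one (hℓ1 p q hpq)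
        (x := (⟨x, hxℓ⟩ : ℓ p q)) (by
          intro h12
          exact hx0 (congrArg Subtype.val h12)) ⟨y j, h11⟩
      have hν' : ν • x = y j := congrArg Subtype.val hν
      have h12 := hindep j hj ν (-1) (by rw [hν']; module)
      have h13 : (-1 : K) = 0 := h12.2
      exact one_ne_zero (neg_eq_zero.mp h13)
    rw [← hμ', hμ1, h1 j hj]
    module
  -- (8)
  have h8 : ∑ t : {t : R // Dis p q t}, D.s p q i (y t.1)
      = ∑ t : {t : R // Dis p q t}, ((x + y t.1) - if t = ⟨i, hi⟩ then y i else 0) := by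
    apply Finset.sum_congr rfl
    intro t _
    by_cases ht : t = ⟨i, hi⟩
    · rw [if_pos ht, ht]
      simp only [hy]
      rw [hcube p q i hi x]
      abel
    · rw [if_neg ht, sub_zero]
      exact h6 t.1 t.2 (fun e => ht (Subtype.ext e))
  have h9 : D.s p q i (lam • x) = (Fintype.card {t : R // Dis p q t} : K) • x + lam • x - y i := by
    rw [← hsum, map_sum, h8, Finset.sum_sub_distrib, Finset.sum_add_distrib, Finset.sum_const,
      Finset.card_univ, Finset.sum_ite_eq' , if_pos (Finset.mem_univ _), Nat.cast_smul_eq_nsmul]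
  rw [map_smul, h1 i hi, hcJ] at h9
  have h10 : ((Fintype.card R - 2 : ℕ) : K) = (Fintype.card R : K) - 2 := by
    rw [Nat.cast_sub (by omega)]
    norm_num
  rw [h10] at h9
  have h11 : ((Fintype.card R : K) - 2 + 2 * lam) • x + (lam - 1) • y i = 0 := by
    have h12 : (((Fintype.card R : K) - 2) • x + lam • x - y i) - lam • (-x - y i) = 0 := by
      rw [h9, sub_self]
    rw [← h12]
    module
  obtain ⟨e1, e2⟩ := hindep i hi _ _ h11
  have e3 : (Fintype.card R : K) = 0 := by linear_combination e1 - 2 * e2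
  have e4 : Fintype.card R = 0 := by exact_mod_cast e3
  omega

end TE
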