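import Pool.Agent.TE.G6
import Pool.Agent.TE.G9

set_option autoImplicit false

open scoped Classical TensorProduct

namespace TE

/-! ## [TE-G10] the pure case -/

variable {G R L : Type*} [Group G] [Finite G] [MulAction G R] [Fintype R] [AddCommGroup L] [Module ℤ_[2] L]
  [Module.Finite ℤ_[2] L] [Module.Free ℤ_[2] L]

/-- `exists_ACD`, `no_ACD`, `no_root` -/
theorem pure_zero (D : PTD G R L) (x : L) : x = 0 := by
  by_contra hx
  obtain ⟨A⟩ := exists_ACD D ⟨x, hx⟩
  exact no_ACD no_root A

end TE
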