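import Mathlib

set_option autoImplicit false

open scoped Classical

namespace TE

/-! ## [TE-G11] lifting centralizers modulo a normal 2-group (only Mathlib) -/

/-- a permutation of prime power order of a finite set of cardinality a power of two -/
theorem g11_fixed {G : Type*} [Group G] [Finite G] (X : Set G) (j k q : ℕ) (hq : q.Prime)
    (hq2 : q ≠ 2) (hX : Nat.card X = 2 ^ j) (c : G) (hc : c ^ q ^ k = 1)
    (hst : ∀ x : G, x ∈ X ↔ c * x * c⁻¹ ∈ X) : ∃ x ∈ X, Commute x c := by
  have : Fact q.Prime := ⟨hq⟩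
  have : Fintype X := Fintype.ofFinite X
  have hcard : ¬ q ∣ Fintype.card X := by
    rw [← Nat.card_eq_fintype_card, hX]
    intro h
    have h1 := hq.dvd_of_dvd_pow h
    rw [Nat.dvd_prime Nat.prime_two] at h1
    rcases h1 with h1 | h1
    · exact hq.one_lt.ne' h1
    · exact hq2 h1
  obtain ⟨σ, hσ⟩ : ∃ σ : Equiv.Perm X, ∀ x : X, (σ x : G) = c * x * c⁻¹ :=
    ⟨Equiv.Perm.subtypePerm (MulAut.conj c).toEquiv (fun x => (hst x).symm), fun x => rfl⟩
  have hpow : ∀ n : ℕ, ∀ x : X, ((σ ^ n) x : G) = c ^ n * x * (c ^ n)⁻¹ := by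
    intro n
    induction n with
    | zero => intro x; simp
    | succ n ih =>
      intro x
      rw [pow_succ', Equiv.Perm.mul_apply, hσ, ih, pow_succ']
      group
  have h1 : σ ^ q ^ k = 1 := by
    apply Equiv.ext
    intro x
    apply Subtype.ext
    rw [hpow, hc]
    simp
  obtain ⟨x, hx⟩ := Equiv.Perm.exists_fixed_point_of_prime hcard h1
  refine ⟨x, x.2, ?_⟩
  have h2 := congrArg (fun y : X => (y : G)) hx
  simp only [hσ] at h2
  show (x : G) * c = c * x
  have h3 : c * (x : G) * c⁻¹ * c = x * c := by rw [h2]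
  rw [inv_mul_cancel_right] at h3
  exact h3.symm

theorem g11_main {G : Type*} [Group G] [Finite G] (P : Subgroup G) [P.Normal]
    (hP : IsPGroup 2 P) (g : G) (n : ℕ) : ∀ c : G, orderOf c = n → Odd n →
      Commute (QuotientGroup.mk' P g) (QuotientGroup.mk' P c) →
      ∃ x : G, QuotientGroup.mk' P x = QuotientGroup.mk' P g ∧ Commute x c := by
  induction n using Nat.strong_induction_on with
  | _ n ih =>
    intro c hn hodd hcomm
    by_cases h1 : n = 1
    · rw [h1, orderOf_eq_one_iff] at hn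
      rw [hn]
      exact ⟨g, rfl, Commute.one_right g⟩
    have hn0 : n ≠ 0 := by
      rintro rfl
      exact absurd hodd (by decide)
    obtain ⟨q, hq, hqn⟩ := Nat.exists_prime_and_dvd h1
    have hq2 : q ≠ 2 := by
      rintro rfl
      exact (Nat.not_even_iff_odd.mpr hodd) (even_iff_two_dvd.mpr hqn)
    obtain ⟨k, m, hm, hnm⟩ := Nat.exists_eq_pow_mul_and_not_dvd hn0 q hq.ne_one
    have hk : k ≠ 0 := by
      rintro rfl
      rw [pow_zero, one_mul] at hnm
      rw [hnm] at hqn
      exact hm hqn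
    have hm0 : m ≠ 0 := by
      rintro rfl
      exact hm (dvd_zero q)
    have hqk : 1 < q ^ k := Nat.one_lt_pow hk hq.one_lt
    have hmn : m < n := by
      rw [hnm]
      exact lt_mul_of_one_lt_left (Nat.pos_of_ne_zero hm0) hqk
    have hcop : Nat.Coprime (q ^ k) m := Nat.Coprime.pow_left k ((hq.coprime_iff_not_dvd).mpr hm)
    have hmodd : Odd m := by
      rw [hnm] at hodd
      exact (Nat.odd_mul.mp hodd).2
    -- the two parts
    have hord : orderOf (c ^ q ^ k) = m := by
      rw [orderOf_pow' c (by positivity : q ^ k ≠ 0), hn, hnm,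
        Nat.gcd_eq_right (Dvd.intro _ rfl)]
      exact Nat.mul_div_cancel_left m (by positivity)
    have hcomm' : ∀ e : ℕ, Commute (QuotientGroup.mk' P g) (QuotientGroup.mk' P (c ^ e)) := by
      intro e
      rw [map_pow]
      exact hcomm.pow_right e
    obtain ⟨x0, hx0, hx0c⟩ := ih m hmn (c ^ q ^ k) hord hmodd (hcomm' _)
    set X : Set G := {x : G | QuotientGroup.mk' P x = QuotientGroup.mk' P g ∧
      Commute x (c ^ q ^ k)} with hX
    set P' : Subgroup G := P ⊓ Subgroup.centralizer {c ^ q ^ k} with hP'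
    have hP2 : IsPGroup 2 P' := hP.to_le inf_le_left
    obtain ⟨j, hj⟩ := (IsPGroup.iff_card).mp hP2
    have hcentr : ∀ y : G, y ∈ Subgroup.centralizer {c ^ q ^ k} ↔ Commute y (c ^ q ^ k) := by
      intro y
      rw [Subgroup.mem_centralizer_singleton_iff]
      rfl
    have hcardX : Nat.card X = 2 ^ j := by
      rw [← hj]
      refine Nat.card_congr ⟨fun x => ⟨x0⁻¹ * x.1, ?_⟩, fun p => ⟨x0 * p.1, ?_⟩, ?_, ?_⟩
      · refine Subgroup.mem_inf.mpr ⟨?_, ?_⟩
        · rw [← QuotientGroup.eq]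
          have h2 : QuotientGroup.mk' P x0 = QuotientGroup.mk' P x.1 := hx0.trans x.2.1.symm
          exact h2
        · rw [hcentr]
          exact (hx0c.inv_left).mul_left x.2.2
      · have h2 := Subgroup.mem_inf.mp p.2
        refine ⟨?_, ?_⟩
        · rw [map_mul, hx0]
          have h3 : QuotientGroup.mk' P p.1 = 1 := (QuotientGroup.eq_one_iff p.1).mpr h2.1
          rw [h3, mul_one]
        · exact hx0c.mul_left ((hcentr _).mp h2.2)
      · intro x
        apply Subtype.ext
        simp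
      · intro p
        apply Subtype.ext
        simp
    have hcc : Commute (c ^ m) (c ^ q ^ k) := (Commute.refl c).pow_pow _ _
    have hstab1 : ∀ d : G, Commute d (c ^ q ^ k) →
        Commute (QuotientGroup.mk' P g) (QuotientGroup.mk' P d) → ∀ x ∈ X, d * x * d⁻¹ ∈ X := by
      intro d hd hgd x hx
      refine ⟨?_, ?_⟩
      · rw [map_mul, map_mul, hx.1, map_inv, ← hgd.eq, mul_inv_cancel_right]
      · exact (hd.mul_left hx.2).mul_left hd.inv_left
    have hst : ∀ x : G, x ∈ X ↔ c ^ m * x * (c ^ m)⁻¹ ∈ X := by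
      intro x
      constructor
      · exact hstab1 (c ^ m) hcc (hcomm' m) x
      · intro hx
        have h2 := hstab1 (c ^ m)⁻¹ hcc.inv_left (by
          rw [map_inv]
          exact (hcomm' m).inv_right) _ hx
        have h3 : (c ^ m)⁻¹ * (c ^ m * x * (c ^ m)⁻¹) * ((c ^ m)⁻¹)⁻¹ = x := by group
        rwa [h3] at h2
    have hcq : (c ^ m) ^ q ^ k = 1 := by
      rw [← pow_mul, mul_comm m, ← hnm, ← hn, pow_orderOf_eq_one]
    obtain ⟨x, hx, hxc⟩ := g11_fixed X j k q hq hq2 hcardX (c ^ m) hcq hst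
    refine ⟨x, hx.1, ?_⟩
    -- `c` is a product of powers
    have hbez : (q ^ k : ℕ) * Nat.gcdA (q ^ k) m + (m : ℤ) * Nat.gcdB (q ^ k) m = 1 := by
      rw [← Nat.gcd_eq_gcd_ab, hcop.gcd_eq_one]
      rfl
    have hc : c = (c ^ q ^ k) ^ Nat.gcdA (q ^ k) m * (c ^ m) ^ Nat.gcdB (q ^ k) m := by
      rw [← zpow_natCast c (q ^ k), ← zpow_natCast c m, ← zpow_mul, ← zpow_mul, ← zpow_add, hbez,
        zpow_one]
    rw [hc]
    exact (hx.2.zpow_right _).mul_right (hxc.zpow_right _)

/-- Let `P` be a normal 2-subgroup of the finite group `G`, `c` of odd order, `g` commuting with `c` modulo `P`. Then some element of `g P`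
commutes with `c`.

Proof. For a subgroup `C` of `⟨c⟩` let `X_C = {x ∈ gP : x` commutes with all elements of `C}`. Claim: `X_C ≠ ∅` for all `C`; induction on `|C|`.
`C = 1`: clear. `C ≠ 1`: let `q` be a prime dividing `|C|` (odd), `C_q` the Sylow `q`-subgroup of the cyclic group `C` and `C'` the subgroup of
elements of order prime to `q`; `C = C_q C'`, `|C'| < |C|`, so there is `x₀ ∈ X_{C'}`. Then `X_{C'} = x₀ P'`, `P' = {p ∈ P : p` commutes with `C'}`, so
`|X_{C'}| = |P'|` is a power of `2`. `C_q` acts on `X_{C'}` by conjugation: for `x = g p` and `c' ∈ C_q ⊆ ⟨c⟩`,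
`c' x c'⁻¹ ∈ g P` because `g` commutes with `c'` modulo the normal subgroup `P`, and `C_q` commutes with `C'`. A `q`-group acting on a set whose
cardinality is prime to `q` has a fixed point (`IsPGroup.card_modEq_card_fixedPoints`): an element of `X_C`.
(Alternative: any other proof, e.g. by Schur–Zassenhaus type arguments available in Mathlib.) -/
theorem coprime_lift {G : Type*} [Group G] [Finite G] (P : Subgroup G) [P.Normal] (hP : IsPGroup 2 P) (c g : G)
    (hc : Odd (orderOf c)) (hcg : g * c * g⁻¹ * c⁻¹ ∈ P) : ∃ p ∈ P, g * p * c = c * (g * p) := by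
  have hcomm : Commute (QuotientGroup.mk' P g) (QuotientGroup.mk' P c) := by
    have h1 : QuotientGroup.mk' P (g * c * g⁻¹ * c⁻¹) = 1 := (QuotientGroup.eq_one_iff _).mpr hcg
    rw [map_mul, map_mul, map_mul, map_inv, map_inv] at h1
    show QuotientGroup.mk' P g * QuotientGroup.mk' P c =
      QuotientGroup.mk' P c * QuotientGroup.mk' P g
    have h2 := mul_inv_eq_one.mp h1
    exact mul_inv_eq_iff_eq_mul.mp h2
  obtain ⟨x, hx, hxc⟩ := g11_main P hP g _ c rfl hc hcomm
  refine ⟨g⁻¹ * x, ?_, ?_⟩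
  · rw [← QuotientGroup.eq]
    exact hx.symm
  · rw [mul_inv_cancel_left]
    exact hxc.eq

/-- An element `g` of a finite group has a power of odd order with the same image as `g` under a homomorphism to a group in which the
image of `g` has odd order: if `orderOf g = 2^a r`, `r` odd, choose `e ≡ 0 mod 2^a`, `e ≡ 1 mod r`. (Stated for several actions at once by taking
a product of groups.) -/
theorem odd_power {G H : Type*} [Group G] [Finite G] [Group H] (φ : G →* H) (g : G) (hg : Odd (orderOf (φ g))) :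
    ∃ e : ℕ, Odd (orderOf (g ^ e)) ∧ φ (g ^ e) = φ g := by
  have hn0 : orderOf g ≠ 0 := (orderOf_pos g).ne'
  obtain ⟨a, r, hr, hnr⟩ := Nat.exists_eq_pow_mul_and_not_dvd hn0 2 (by norm_num)
  have hrodd : Odd r := Nat.not_even_iff_odd.mp fun h => hr (even_iff_two_dvd.mp h)
  have hcop : Nat.Coprime (2 ^ a) r := Nat.Coprime.pow_left a
    ((Nat.prime_two.coprime_iff_not_dvd).mpr hr)
  obtain ⟨e, he1, he2⟩ := Nat.chineseRemainder hcop 0 1
  refine ⟨e, ?_, ?_⟩
  · have h1 : (g ^ e) ^ r = 1 := by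
      rw [← pow_mul, ← orderOf_dvd_iff_pow_eq_one, hnr]
      exact Nat.mul_dvd_mul ((Nat.modEq_zero_iff_dvd).mp he1) dvd_rfl
    exact Odd.of_dvd_nat hrodd (orderOf_dvd_of_pow_eq_one h1)
  · rw [map_pow]
    have h1 : orderOf (φ g) ∣ 2 ^ a * r := by
      rw [← hnr]
      exact orderOf_map_dvd φ g
    have h2 : orderOf (φ g) ∣ r := by
      refine Nat.Coprime.dvd_of_dvd_mul_left ?_ h1
      exact Nat.Coprime.pow_right a (Nat.coprime_two_right.mpr hg)
    have h3 : φ g ^ e = φ g ^ 1 := by
      rw [pow_eq_pow_iff_modEq]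
      exact he2.of_dvd h2
    rw [h3, pow_one]

end TE
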