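import Pool.Agent.TE.G10
import Pool.Agent.TE.G11

set_option autoImplicit false

open scoped Classical

namespace TE

/-! ## [TE-G12] the mixed case -/

/-- The data of the mixed case. `δ` matters only on the kernel of `j`. -/
structure MTD (G RB RD L : Type*) [Group G] [MulAction G RB] [MulAction G RD] [Fintype RB] [Fintype RD] [AddCommGroup L]
    [Module ℤ_[2] L] where
  ρ : G →* Module.End ℤ_[2] L
  j : L →+ Ht RB
  δ : L → Ht RD
  jeven : ∀ x : L, j x ∈ HtE RB
  jequi : ∀ (g : G) (x : L), j (ρ g x) = htm (MulAction.toPerm g) (j x)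
  δadd : ∀ x y : L, j x = 0 → j y = 0 → δ (x + y) = δ x + δ y
  δeven : ∀ x : L, j x = 0 → δ x ∈ HtE RD
  δequi : ∀ (g : G) (x : L), j x = 0 → δ (ρ g x) = htm (MulAction.toPerm g) (δ x)
  ker : ∀ x : L, (j x = 0 ∧ δ x = 0) ↔ ∃ y : L, x = (2 : ℤ_[2]) • y
  alt : ∀ σ ∈ alternatingGroup RB, ∀ τ ∈ alternatingGroup RD, ∃ g : G, (∀ r : RB, g • r = σ r) ∧ ∀ r : RD, g • r = τ r
  faith : ∀ g : G, ρ g = 1 → (∀ r : RB, g • r = r) → (∀ r : RD, g • r = r) → g = 1
  evnB : Even (Fintype.card RB)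
  cardB : 8 ≤ Fintype.card RB
  evnD : Even (Fintype.card RD)
  cardD : 8 ≤ Fintype.card RD

variable {G RB RD L : Type*} [Group G] [Finite G] [MulAction G RB] [MulAction G RD] [Fintype RB] [Fintype RD] [AddCommGroup L]
  [Module ℤ_[2] L] [Module.Finite ℤ_[2] L] [Module.Free ℤ_[2] L]

theorem g12_div (u : Module.End ℤ_[2] L) (h : ∀ x, ∃ y, u x = (2 : ℤ_[2]) • y) :
    ∃ v : Module.End ℤ_[2] L, u = (2 : ℤ_[2]) • v := by
  let b := Module.Free.chooseBasis ℤ_[2] L
  choose f hf using h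
  refine ⟨b.constr ℤ_[2] (fun i => f (b i)), ?_⟩
  apply b.ext
  intro i
  rw [LinearMap.smul_apply, b.constr_basis]
  exact hf (b i)

theorem g12_toPerm_one {H S : Type*} [Group H] [MulAction H S] (g : H) (h : ∀ r : S, g • r = r) :
    (MulAction.toPerm g : Equiv.Perm S) = 1 := by
  ext r
  exact h r

theorem g12_htm_one {S : Type*} [Fintype S] (v : Ht S) : htm (1 : Equiv.Perm S) v = v := by
  rw [htm_one]
  rfl

/-- an odd cycle with one fixed point -/
theorem g12_cycle {S : Type*} [Fintype S] (he : Even (Fintype.card S)) (h8 : 8 ≤ Fintype.card S) :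
    ∃ (τ : Equiv.Perm S) (x0 : S) (m : ℕ), Odd m ∧ τ ^ m = 1 ∧ τ x0 = x0 ∧
      ∀ x y : S, x ≠ x0 → y ≠ x0 → ∃ k : ℕ, (τ ^ k) x = y := by
  obtain ⟨m, hm⟩ : ∃ m, Fintype.card S = m + 1 := ⟨Fintype.card S - 1, by omega⟩
  have hmodd : Odd m := by
    rw [hm] at he
    rcases Nat.even_or_odd m with h | h
    · exfalso
      have h1 : Odd (m + 1) := h.add_one
      exact (Nat.not_even_iff_odd.mpr h1) he
    · exact h
  have : NeZero m := ⟨by omega⟩
  have hc : Fintype.card S = Fintype.card (Option (ZMod m)) := by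
    rw [Fintype.card_option, ZMod.card, hm]
  let e : S ≃ Option (ZMod m) := Fintype.equivOfCardEq hc
  let τ : Equiv.Perm S := (e.trans (Equiv.optionCongr (Equiv.addRight (1 : ZMod m)))).trans e.symm
  have hτn : τ (e.symm none) = e.symm none := by
    simp [τ]
  have hτs : ∀ a : ZMod m, τ (e.symm (some a)) = e.symm (some (a + 1)) := by
    intro a
    simp [τ]
  have hpn : ∀ k : ℕ, (τ ^ k) (e.symm none) = e.symm none := by
    intro k
    induction k with
    | zero => rfl
    | succ k ih => rw [pow_succ', Equiv.Perm.mul_apply, ih, hτn]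
  have hps : ∀ (k : ℕ) (a : ZMod m), (τ ^ k) (e.symm (some a)) = e.symm (some (a + k)) := by
    intro k a
    induction k with
    | zero => simp
    | succ k ih =>
      rw [pow_succ', Equiv.Perm.mul_apply, ih, hτs]
      push_cast
      rw [add_assoc]
  refine ⟨τ, e.symm none, m, hmodd, ?_, hτn, ?_⟩
  · ext x
    rcases hx : e x with _ | a
    · have : x = e.symm none := by rw [← hx, Equiv.symm_apply_apply]
      rw [this, hpn]
      rfl
    · have : x = e.symm (some a) := by rw [← hx, Equiv.symm_apply_apply]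
      rw [this, hps]
      simp
  · intro x y hx hy
    rcases hx' : e x with _ | a
    · exact absurd (by rw [← hx', Equiv.symm_apply_apply]) hx
    · rcases hy' : e y with _ | b
      · exact absurd (by rw [← hy', Equiv.symm_apply_apply]) hy
      · refine ⟨(b - a).val, ?_⟩
        have h1 : x = e.symm (some a) := by rw [← hx', Equiv.symm_apply_apply]
        have h2 : y = e.symm (some b) := by rw [← hy', Equiv.symm_apply_apply]
        rw [h1, h2, hps, ZMod.natCast_zmod_val]
        congr 2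
        ring

theorem g12_even {S : Type*} [Fintype S] (τ : Equiv.Perm S) (m : ℕ) (hm : Odd m) (h : τ ^ m = 1) :
    τ ∈ alternatingGroup S := by
  rw [Equiv.Perm.mem_alternatingGroup]
  rcases Int.units_eq_one_or (Equiv.Perm.sign τ) with h1 | h1
  · exact h1
  · exfalso
    have h2 := congrArg Equiv.Perm.sign h
    rw [map_pow, h1, map_one, hm.neg_one_pow] at h2
    exact absurd h2 (by decide)

/-- the action map -/
def g12_phi (G RB RD : Type*) [Group G] [MulAction G RB] [MulAction G RD] :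
    G →* Equiv.Perm RB × Equiv.Perm RD :=
  (MulAction.toPermHom G RB).prod (MulAction.toPermHom G RD)

theorem g12_phi_eq (g : G) (σ : Equiv.Perm RB) (τ : Equiv.Perm RD) :
    g12_phi G RB RD g = (σ, τ) ↔ (∀ r : RB, g • r = σ r) ∧ ∀ r : RD, g • r = τ r := by
  unfold g12_phi
  rw [MonoidHom.prod_apply, Prod.mk.injEq]
  constructor
  · rintro ⟨h1, h2⟩
    refine ⟨fun r => ?_, fun r => ?_⟩
    · rw [← h1]; rfl
    · rw [← h2]; rfl
  · rintro ⟨h1, h2⟩
    refine ⟨?_, ?_⟩
    · ext r; exact h1 r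
    · ext r; exact h2 r

/-- The kernel `P` of `G → Perm RB × Perm RD` is a 2-group: for `p ∈ P` and `x ∈ L`: `j (ρ p x - x) = 0`, and `δ (ρ p z - z) = 0` for `j z = 0`, so
`ν = ρ p - 1` satisfies `ν² L ⊆ 2L` (`D.ker`), `ρ(p)² = 1 + 2ν + ν² = 1 + 2a`, and `ρ(p)⁴ = 1` by `sq_eq_one`; `p⁴ = 1` by `faith`. -/
theorem mixed_pow (D : MTD G RB RD L) (p : G) (hB : ∀ r : RB, p • r = r) (hD : ∀ r : RD, p • r = r) : p ^ 4 = 1 := by
  have hj : ∀ x, D.j (D.ρ p x) = D.j x := by
    intro x
    rw [D.jequi, g12_toPerm_one p hB, g12_htm_one]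
  have hj0 : ∀ x, D.j (D.ρ p x - x) = 0 := by
    intro x
    rw [map_sub, hj, sub_self]
  have hδ : ∀ z, D.j z = 0 → D.δ (D.ρ p z - z) = 0 := by
    intro z hz
    have h1 := D.δadd (D.ρ p z - z) z (hj0 z) hz
    rw [sub_add_cancel, D.δequi p z hz, g12_toPerm_one p hD, g12_htm_one] at h1
    exact add_eq_right.mp h1.symm
  set ν : Module.End ℤ_[2] L := D.ρ p - 1 with hν
  have hνapp : ∀ x, ν x = D.ρ p x - x := fun x => rfl
  obtain ⟨v, hv⟩ := g12_div (ν * ν) (by
    intro x
    have h1 : D.j (ν x) = 0 := hj0 x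
    have h2 : D.j (ν (ν x)) = 0 := hj0 (ν x)
    have h3 : D.δ (ν (ν x)) = 0 := hδ (ν x) h1
    exact (D.ker _).1 ⟨h2, h3⟩)
  have hp2 : D.ρ p ^ 2 = 1 + (2 : ℤ_[2]) • (ν + v) := by
    have h1 : D.ρ p = 1 + ν := by rw [hν]; abel
    have h2 : D.ρ p ^ 2 = 1 + (ν + ν) + ν * ν := by
      rw [h1, pow_two]
      simp only [mul_add, add_mul, mul_one, one_mul]
      abel
    rw [h2, hv, smul_add, two_smul ℤ_[2] ν]
    abel
  have h3 := sq_eq_one (D.ρ p ^ 2) (ν + v) hp2 (orderOf p) (orderOf_pos p) (by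
    rw [← pow_mul, mul_comm, pow_mul, ← map_pow, pow_orderOf_eq_one, map_one, one_pow])
  have h4 : D.ρ (p ^ 4) = 1 := by
    rw [map_pow, ← h3, ← pow_mul]
  apply D.faith _ h4
  · intro r
    rw [pow_succ, pow_succ, pow_succ, pow_one, mul_smul, mul_smul, mul_smul, hB, hB, hB, hB]
  · intro r
    rw [pow_succ, pow_succ, pow_succ, pow_one, mul_smul, mul_smul, mul_smul, hD, hD, hD, hD]

/-- There is `c ∈ G` of odd order, trivial on `RB`, acting on `RD` with one fixed point and one cycle of length `n - 1` (an even permutation since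
`n - 1` is odd). Proof: an `(n-1)`-cycle `τ` exists and is in the alternating group; `g` over `(1, τ)`; `odd_power` for
`G → Perm RB × Perm RD`. -/
theorem exists_c (D : MTD G RB RD L) : ∃ (c : G) (x0 : RD), Odd (orderOf c) ∧ (∀ r : RB, c • r = r) ∧ c • x0 = x0 ∧
    ∀ x y : RD, x ≠ x0 → y ≠ x0 → ∃ k : ℕ, c ^ k • x = y := by
  obtain ⟨τ, x0, m, hm, hτm, hτ0, hτt⟩ := g12_cycle D.evnD D.cardD
  obtain ⟨g, hg1, hg2⟩ := D.alt 1 (one_mem _) τ (g12_even τ m hm hτm)
  have hφ : g12_phi G RB RD g = (1, τ) := (g12_phi_eq g 1 τ).2 ⟨hg1, hg2⟩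
  have hodd : Odd (orderOf (g12_phi G RB RD g)) := by
    apply Odd.of_dvd_nat hm
    apply orderOf_dvd_of_pow_eq_one
    rw [hφ, Prod.pow_mk, one_pow, hτm]
    rfl
  obtain ⟨e, he1, he2⟩ := odd_power (g12_phi G RB RD) g hodd
  rw [hφ] at he2
  obtain ⟨hc1, hc2⟩ := (g12_phi_eq (g ^ e) 1 τ).1 he2
  refine ⟨g ^ e, x0, he1, hc1, ?_, ?_⟩
  · rw [hc2, hτ0]
  · intro x y hx hy
    obtain ⟨k, hk⟩ := hτt x y hx hy
    refine ⟨k, ?_⟩
    rw [← hk]
    have h1 : g12_phi G RB RD ((g ^ e) ^ k) = (1 ^ k, τ ^ k) := by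
      rw [map_pow, he2, Prod.pow_mk]
    exact ((g12_phi_eq _ _ _).1 h1).2 x

/-- The reduction of the mixed case to the pure case.

Proof. `P` (kernel of `G → Perm RB × Perm RD`) is a normal 2-subgroup (`mixed_pow`). `c` from `exists_c`, `C` the centralizer of `c` in `G`,
`L' = {x ∈ L : ρ c x = x}` (a submodule, finite and free over `ℤ₂`, stable under `C`).
(1) For every even permutation `σ` of `RB` there is `g ∈ C` acting as `σ` on `RB`: take `g₀` over `(σ, 1)` (`D.alt`); `g₀ c g₀⁻¹ c⁻¹` acts trivially on `RB` (there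
`c` is trivial) and on `RD` (there `g₀` is trivial), so it is in `P`; `coprime_lift` gives `g = g₀ p ∈ C`.
(2) `j` restricted to `L'` has kernel `2L'`: let `x ∈ L'`, `j x = 0`. `δ x ∈ HtE RD` and `htm(c) (δ x) = δ (ρ c x) = δ x`, so `δ x = 0` by `fixed_zero`; so
`x = 2y`, and `2(ρ c y - y) = 0` gives `y ∈ L'`. Conversely `j (2y) = 0`.
(3) So `C`, `RB`, `L'`, `j` are data `PTD`, and `pure_zero` shows `L' = 0`.
(4) For `x ∈ L`, `N x = ∑_{i < q} ρ(c)^i x ∈ L' = 0`, `q = orderOf c` odd; `0 = j (N x) = q j(x) = j x` (`c` is trivial on `RB`). So `j = 0`.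
(5) Hence `δ : L → Ht RD` is additive, equivariant, with kernel `2L`, and `G`, `RD`, `L`, `δ` are data `PTD` (`D.alt` with `σ = 1`); `pure_zero` gives `L = 0`. -/
theorem mixed_zero (D : MTD G RB RD L) (x : L) : x = 0 := by
  obtain ⟨c, x0, hcodd, hcB, hc0, hct⟩ := exists_c D
  set P : Subgroup G := (g12_phi G RB RD).ker with hP
  have hPmem : ∀ p, p ∈ P ↔ (∀ r : RB, p • r = r) ∧ ∀ r : RD, p • r = r := by
    intro p
    rw [hP, MonoidHom.mem_ker]
    exact g12_phi_eq p 1 1
  have hP2 : IsPGroup 2 P := by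
    rintro ⟨p, hp⟩
    refine ⟨2, ?_⟩
    apply Subtype.ext
    have h1 := (hPmem p).1 hp
    exact mixed_pow D p h1.1 h1.2
  set C : Subgroup G := Subgroup.centralizer {c} with hC
  have hCmem : ∀ g, g ∈ C ↔ c * g = g * c := by
    intro g
    rw [hC, Subgroup.mem_centralizer_iff]
    simp
  set L' : Submodule ℤ_[2] L := LinearMap.ker (D.ρ c - 1) with hL'
  have hL'mem : ∀ x, x ∈ L' ↔ D.ρ c x = x := by
    intro x
    rw [hL', LinearMap.mem_ker, LinearMap.sub_apply, Module.End.one_apply, sub_eq_zero]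
  have hmaps : ∀ g ∈ C, ∀ x ∈ L', D.ρ g x ∈ L' := by
    intro g hg x hx
    rw [hL'mem] at hx ⊢
    have h1 : D.ρ c (D.ρ g x) = D.ρ (c * g) x := by rw [map_mul]; rfl
    rw [h1, (hCmem g).1 hg, map_mul]
    change D.ρ g (D.ρ c x) = D.ρ g x
    rw [hx]
  -- (2)
  have hker2 : ∀ z ∈ L', D.j z = 0 → ∃ y ∈ L', z = (2 : ℤ_[2]) • y := by
    intro z hz hj
    have h1 : D.δ z = 0 := by
      apply fixed_zero D.evnD (MulAction.toPerm c) x0 hc0 _ (D.δeven z hj)
      · rw [← D.δequi c z hj, (hL'mem z).1 hz]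
      · intro x y hx hy
        obtain ⟨k, hk⟩ := hct x y hx hy
        refine ⟨k, ?_⟩
        rw [← hk]
        have h2 : (MulAction.toPerm c : Equiv.Perm RD) ^ k = MulAction.toPerm (c ^ k) :=
          (map_pow (MulAction.toPermHom G RD) c k).symm
        rw [h2]
        rfl
    obtain ⟨y, hy⟩ := (D.ker z).1 ⟨hj, h1⟩
    refine ⟨y, ?_, hy⟩
    rw [hL'mem]
    have h2 : (2 : ℤ_[2]) • (D.ρ c y) = (2 : ℤ_[2]) • y := by
      rw [← map_smul, ← hy, (hL'mem z).1 hz]
    exact smul_right_injective L (two_ne_zero) h2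
  -- (3)
  let D' : PTD C RB L' :=
    { ρ :=
        { toFun := fun g => (D.ρ g.1).restrict (fun x hx => hmaps g.1 g.2 x hx)
          map_one' := by
            ext x
            simp [LinearMap.restrict_apply]
          map_mul' := by
            intro a b
            ext x
            simp [LinearMap.restrict_apply] }
      j := D.j.comp L'.subtype.toAddMonoidHom
      ker := by
        rintro ⟨z, hz⟩
        constructor
        · intro h
          obtain ⟨y, hy, hzy⟩ := hker2 z hz h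
          exact ⟨⟨y, hy⟩, Subtype.ext hzy⟩
        · rintro ⟨⟨y, hy⟩, hzy⟩
          have h1 : z = (2 : ℤ_[2]) • y := congrArg Subtype.val hzy
          exact ((D.ker z).2 ⟨y, h1⟩).1
      even := fun z => D.jeven z.1
      equi := by
        rintro ⟨g, hg⟩ ⟨z, hz⟩
        exact D.jequi g z
      alt := by
        intro σ hσ
        obtain ⟨g0, hg1, hg2⟩ := D.alt σ hσ 1 (one_mem _)
        have hg2' : ∀ r : RD, g0 • r = r := fun r => by rw [hg2]; rfl
        have hg2i : ∀ r : RD, g0⁻¹ • r = r := fun r => by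
          rw [inv_smul_eq_iff, hg2']
        have hcBi : ∀ r : RB, c⁻¹ • r = r := fun r => by
          rw [inv_smul_eq_iff, hcB]
        obtain ⟨p, hp, hpc⟩ := coprime_lift P hP2 c g0 hcodd (by
          rw [hPmem]
          refine ⟨fun r => ?_, fun r => ?_⟩
          · rw [mul_smul, mul_smul, mul_smul, hcBi, hcB, smul_inv_smul]
          · rw [mul_smul, mul_smul, mul_smul, hg2i, hg2', smul_inv_smul])
        refine ⟨⟨g0 * p, (hCmem _).2 hpc.symm⟩, ?_⟩
        intro r
        change (g0 * p) • r = σ r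
        rw [mul_smul, ((hPmem p).1 hp).1, hg1]
      evn := D.evnB
      card := D.cardB }
  have hL'0 : ∀ z ∈ L', z = 0 := by
    intro z hz
    have h1 := pure_zero D' ⟨z, hz⟩
    exact congrArg Subtype.val h1
  -- (4)
  have hci : ∀ (i : ℕ) (r : RB), c ^ i • r = r := by
    intro i r
    induction i with
    | zero => rw [pow_zero, one_smul]
    | succ i ih => rw [pow_succ, mul_smul, hcB, ih]
  have hj0 : ∀ z, D.j z = 0 := by
    intro z
    obtain ⟨q, hq⟩ : ∃ q, orderOf c = q + 1 := ⟨orderOf c - 1, by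
      have := orderOf_pos c
      omega⟩
    have hcq : c ^ (q + 1) = 1 := by rw [← hq, pow_orderOf_eq_one]
    have hN : (∑ i ∈ Finset.range (q + 1), D.ρ (c ^ i) z) ∈ L' := by
      rw [hL'mem, map_sum]
      have h1 : ∀ i ∈ Finset.range (q + 1), D.ρ c (D.ρ (c ^ i) z) = D.ρ (c ^ (i + 1)) z := by
        intro i _
        rw [pow_succ', map_mul]
        rfl
      rw [Finset.sum_congr rfl h1, Finset.sum_range_succ, hcq,
        Finset.sum_range_succ' (fun i => D.ρ (c ^ i) z) q, pow_zero]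
    have h2 := congrArg D.j (hL'0 _ hN)
    rw [map_zero, map_sum] at h2
    have h3 : ∀ i ∈ Finset.range (q + 1), D.j (D.ρ (c ^ i) z) = D.j z := by
      intro i _
      rw [D.jequi, g12_toPerm_one (c ^ i) (hci i), g12_htm_one]
    rw [Finset.sum_congr rfl h3, Finset.sum_const, Finset.card_range, ← Nat.cast_smul_eq_nsmul (ZMod 2)]
      at h2
    have h4 : ((q + 1 : ℕ) : ZMod 2) = 1 := by
      rw [ZMod.natCast_eq_one_iff_odd, ← hq]
      exact hcodd
    rw [h4, one_smul] at h2
    exact h2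
  -- (5)
  let D2 : PTD G RD L :=
    { ρ := D.ρ
      j :=
        { toFun := D.δ
          map_zero' := by
            have h1 := D.δadd 0 0 (hj0 0) (hj0 0)
            rw [add_zero] at h1
            exact add_eq_left.mp h1.symm
          map_add' := fun x y => D.δadd x y (hj0 x) (hj0 y) }
      ker := by
        intro z
        rw [← D.ker z]
        constructor
        · intro h
          exact ⟨hj0 z, h⟩
        · intro h
          exact h.2
      even := fun z => D.δeven z (hj0 z)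
      equi := fun g z => D.δequi g z (hj0 z)
      alt := by
        intro σ hσ
        obtain ⟨g, _, hg⟩ := D.alt 1 (one_mem _) σ hσ
        exact ⟨g, hg⟩
      evn := D.evnD
      card := D.cardD }
  exact pure_zero D2 x

end TE
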