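import Mathlib

set_option autoImplicit false

open scoped Classical

namespace TE

/-! ## [TE-G13] the Tate module `T₂(Y)` of an abelian group (only Mathlib) -/

/-- the sequences `y₀ = 0`, `2 y_{n+1} = y_n` -/
def TY (Y : Type*) [AddCommGroup Y] : AddSubgroup (ℕ → Y) where
  carrier := {y | y 0 = 0 ∧ ∀ n, (2 : ℕ) • y (n + 1) = y n}
  zero_mem' := ⟨rfl, fun n => by simp⟩
  add_mem' := by
    rintro y z ⟨hy0, hy⟩ ⟨hz0, hz⟩
    exact ⟨by simp [hy0, hz0], fun n => by simp [← hy n, ← hz n, smul_add]⟩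
  neg_mem' := by
    rintro y ⟨hy0, hy⟩
    exact ⟨by simp [hy0], fun n => by simp [← hy n]⟩

variable {Y : Type*} [AddCommGroup Y]

/-- `2ⁿ y_n = 0` -/
theorem TY_pow (y : TY Y) (n : ℕ) : (2 ^ n : ℕ) • y.1 n = 0 := by
  induction n with
  | zero => simpa using y.2.1
  | succ n ih => rw [pow_succ, mul_smul, y.2.2 n, ih]

theorem TY_key0 (a : ℤ_[2]) (c : ℤ) (n : ℕ) (h : a - c ∈ Ideal.span {(2 : ℤ_[2]) ^ n}) (y : TY Y) :
    (a.appr n) • y.1 n = c • y.1 n := by
  have h1 : a - (a.appr n : ℤ_[2]) ∈ Ideal.span {(2 : ℤ_[2]) ^ n} := by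
    simpa using PadicInt.appr_spec n a
  have h2 : (((a.appr n : ℤ) - c : ℤ) : ℤ_[2]) ∈ Ideal.span {(2 : ℤ_[2]) ^ n} := by
    have := Ideal.sub_mem _ h h1
    have e : a - (c : ℤ_[2]) - (a - (a.appr n : ℤ_[2])) = (((a.appr n : ℤ) - c : ℤ) : ℤ_[2]) := by
      push_cast
      ring
    rwa [e] at this
  rw [Ideal.mem_span_singleton] at h2
  have h3 := (PadicInt.pow_p_dvd_int_iff (p := 2) n ((a.appr n : ℤ) - c)).1 (by simpa using h2)
  obtain ⟨d, hd⟩ := h3
  have h4 : ((a.appr n : ℤ) - c) • y.1 n = 0 := by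
    rw [hd, mul_comm, mul_smul]
    have := TY_pow y n
    have h5 : ((2 : ℕ) ^ n : ℤ) • y.1 n = 0 := by
      have e : ((2 : ℕ) ^ n : ℤ) = ((2 ^ n : ℕ) : ℤ) := by push_cast; rfl
      rw [e, natCast_zsmul]
      exact this
    simpa using congrArg (fun t => d • t) h5
  rw [sub_smul, sub_eq_zero, natCast_zsmul] at h4
  exact h4

/-- The multiplication of the sequence by a 2-adic integer: `(a y)_n = (a mod 2ⁿ) y_n`. -/
noncomputable def TYsmul (a : ℤ_[2]) (y : TY Y) : TY Y :=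
  ⟨fun n => (a.appr n) • y.1 n, by
    refine ⟨?_, ?_⟩
    · show a.appr 0 • y.1 0 = 0
      rw [y.2.1, smul_zero]
    · intro n
      show (2 : ℕ) • (a.appr (n + 1) • y.1 (n + 1)) = a.appr n • y.1 n
      rw [smul_comm, y.2.2 n]
      have h1 : a - ((a.appr (n + 1) : ℤ) : ℤ_[2]) ∈ Ideal.span {(2 : ℤ_[2]) ^ n} := by
        have h2 : a - (a.appr (n + 1) : ℤ_[2]) ∈ Ideal.span {(2 : ℤ_[2]) ^ (n + 1)} := by
          simpa using PadicInt.appr_spec (n + 1) a
        have h3 : Ideal.span {(2 : ℤ_[2]) ^ (n + 1)} ≤ Ideal.span {(2 : ℤ_[2]) ^ n} := by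
          rw [Ideal.span_singleton_le_span_singleton]
          exact pow_dvd_pow _ (Nat.le_succ n)
        simpa using h3 h2
      have := TY_key0 a (a.appr (n + 1) : ℤ) n h1 y
      rw [this, natCast_zsmul]⟩

theorem TY_memspan (a : ℤ_[2]) (n : ℕ) : a - ((a.appr n : ℤ) : ℤ_[2]) ∈ Ideal.span {(2 : ℤ_[2]) ^ n} := by
  simpa using PadicInt.appr_spec n a

/-- `ℤ₂`-module structure: use `TY_pow`, `PadicInt.appr_spec` (`a - a.appr n ∈ (2^n)`), `PadicInt.appr_lt`; e.g. show first that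
`(TYsmul a y)_n = c • y_n` for every natural (or integer) number `c ≡ a mod 2ⁿ`. -/
noncomputable instance TYmod : Module ℤ_[2] (TY Y) where
  smul := TYsmul
  one_smul := by
    intro y
    apply Subtype.ext
    funext n
    show (PadicInt.appr 1 n) • y.1 n = y.1 n
    rw [TY_key0 1 1 n (by simp) y, one_smul]
  mul_smul := by
    intro a b y
    apply Subtype.ext
    funext n
    show (PadicInt.appr (a * b) n) • y.1 n = a.appr n • (b.appr n • y.1 n)
    rw [TY_key0 (a * b) ((a.appr n : ℤ) * (b.appr n : ℤ)) n ?_ y]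
    · rw [mul_smul, natCast_zsmul, natCast_zsmul]
    · have h1 := TY_memspan a n
      have h2 := TY_memspan b n
      have e : a * b - (((a.appr n : ℤ) * (b.appr n : ℤ) : ℤ) : ℤ_[2]) =
          b * (a - ((a.appr n : ℤ) : ℤ_[2])) + ((a.appr n : ℤ) : ℤ_[2]) * (b - ((b.appr n : ℤ) : ℤ_[2])) := by
        push_cast
        ring
      rw [e]
      exact Ideal.add_mem _ (Ideal.mul_mem_left _ _ h1) (Ideal.mul_mem_left _ _ h2)
  smul_zero := by
    intro a
    apply Subtype.ext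
    funext n
    show (PadicInt.appr a n) • (0 : Y) = 0
    rw [smul_zero]
  smul_add := by
    intro a y z
    apply Subtype.ext
    funext n
    show (PadicInt.appr a n) • (y.1 n + z.1 n) = a.appr n • y.1 n + a.appr n • z.1 n
    rw [smul_add]
  add_smul := by
    intro a b y
    apply Subtype.ext
    funext n
    show (PadicInt.appr (a + b) n) • y.1 n = a.appr n • y.1 n + b.appr n • y.1 n
    rw [TY_key0 (a + b) ((a.appr n : ℤ) + (b.appr n : ℤ)) n ?_ y]
    · rw [add_smul, natCast_zsmul, natCast_zsmul]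
    · have h1 := TY_memspan a n
      have h2 := TY_memspan b n
      have e : a + b - (((a.appr n : ℤ) + (b.appr n : ℤ) : ℤ) : ℤ_[2]) =
          (a - ((a.appr n : ℤ) : ℤ_[2])) + (b - ((b.appr n : ℤ) : ℤ_[2])) := by
        push_cast
        ring
      rw [e]
      exact Ideal.add_mem _ h1 h2
  zero_smul := by
    intro y
    apply Subtype.ext
    funext n
    show (PadicInt.appr 0 n) • y.1 n = 0
    rw [TY_key0 0 0 n (by simp) y, zero_smul]

theorem TY_smul_apply (a : ℤ_[2]) (y : TY Y) (n : ℕ) : (a • y).1 n = (a.appr n) • y.1 n := rfl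

/-- If `c` is an integer with `a - c ∈ 2ⁿ ℤ₂` then `(a y)_n = c y_n`. -/
theorem TY_smul_int (a : ℤ_[2]) (c : ℤ) (n : ℕ) (h : a - c ∈ Ideal.span {(2 : ℤ_[2]) ^ n}) (y : TY Y) :
    (a • y).1 n = c • y.1 n := by
  rw [TY_smul_apply]
  exact TY_key0 a c n h y

theorem TY_two_smul (z : TY Y) (n : ℕ) : ((2 : ℤ_[2]) • z).1 n = (2 : ℕ) • z.1 n := by
  rw [TY_smul_int 2 2 n (by simp) z]
  exact ofNat_zsmul (z.1 n) 2

/-- `y ∈ 2 T₂(Y)` iff `y₁ = 0`: if `y₁ = 0` then `z_n = y_{n+1}` works. -/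
theorem TY_two (y : TY Y) : y.1 1 = 0 ↔ ∃ z : TY Y, y = (2 : ℤ_[2]) • z := by
  constructor
  · intro h
    refine ⟨⟨fun n => y.1 (n + 1), ⟨by simpa using h, fun n => y.2.2 (n + 1)⟩⟩, ?_⟩
    apply Subtype.ext
    funext n
    rw [TY_two_smul]
    exact (y.2.2 n).symm
  · rintro ⟨z, rfl⟩
    rw [TY_two_smul]
    have := z.2.2 0
    rw [z.2.1] at this
    simpa using this

/-- an additive automorphism (or endomorphism) of `Y` acts `ℤ₂`-linearly on `T₂(Y)` -/
noncomputable def TYmap (φ : Y →+ Y) : TY Y →ₗ[ℤ_[2]] TY Y where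
  toFun y := ⟨fun n => φ (y.1 n), ⟨by simp [y.2.1], fun n => by rw [← map_nsmul, y.2.2]⟩⟩
  map_add' := by
    intro y z
    ext n
    simp
  map_smul' := by
    intro a y
    apply Subtype.ext
    funext n
    show φ ((a • y).1 n) = _
    rw [TY_smul_apply, map_nsmul]
    rfl

theorem TYmap_apply (φ : Y →+ Y) (y : TY Y) (n : ℕ) : (TYmap φ y).1 n = φ (y.1 n) := rfl

theorem TY_torsion2 (y : TY Y) (h : (2 : ℤ_[2]) • y = 0) : y = 0 := by
  apply Subtype.ext
  funext n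
  have h1 := TY_two_smul y (n + 1)
  rw [h] at h1
  have h2 := y.2.2 n
  rw [← h2, ← h1]
  rfl

theorem TY_torsion2pow (k : ℕ) (y : TY Y) (h : ((2 : ℤ_[2]) ^ k) • y = 0) : y = 0 := by
  induction k with
  | zero => simpa using h
  | succ k ih =>
    apply ih
    apply TY_torsion2
    rw [← mul_smul, ← pow_succ']
    exact h

theorem TY_torsionFree : Module.IsTorsionFree ℤ_[2] (TY Y) := by
  refine Module.IsTorsionFree.of_smul_eq_zero ?_
  intro a y h
  by_cases ha : a = 0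
  · exact Or.inl ha
  right
  have h1 := PadicInt.unitCoeff_spec ha
  apply TY_torsion2pow a.valuation
  rw [h1, mul_smul] at h
  have h2 := congrArg (fun t => ((PadicInt.unitCoeff ha)⁻¹ : ℤ_[2]ˣ).1 • t) h
  simp only [smul_zero, ← mul_smul, ← mul_assoc, Units.inv_mul, one_mul] at h2
  simpa using h2

theorem TY_ev_finite (h : {y : Y | (2 : ℕ) • y = 0}.Finite) : (Set.range (fun y : TY Y => y.1 1)).Finite := by
  apply h.subset
  rintro _ ⟨y, rfl⟩
  show (2 : ℕ) • y.1 1 = 0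
  rw [y.2.2 0, y.2.1]

/-- the representative of `y` modulo 2 -/
noncomputable def TYrep (y : TY Y) : TY Y := Classical.choose (⟨y, rfl⟩ : ∃ z : TY Y, z.1 1 = y.1 1)

theorem TYrep_spec (y : TY Y) : (TYrep y).1 1 = y.1 1 :=
  Classical.choose_spec (⟨y, rfl⟩ : ∃ z : TY Y, z.1 1 = y.1 1)

theorem TYrep_finite (h : {y : Y | (2 : ℕ) • y = 0}.Finite) : (Set.range (TYrep (Y := Y))).Finite := by
  have h1 := TY_ev_finite h
  apply Set.Finite.of_finite_image (f := fun y : TY Y => y.1 1)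
  · apply h1.subset
    rintro _ ⟨y, _, rfl⟩
    exact ⟨y, rfl⟩
  · rintro _ ⟨y, rfl⟩ _ ⟨z, rfl⟩ hyz
    have h2 : y.1 1 = z.1 1 := by
      rw [← TYrep_spec y, ← TYrep_spec z]
      exact hyz
    simp only [TYrep, h2]

theorem TYrep_div (y : TY Y) : ∃ z : TY Y, y - TYrep y = (2 : ℤ_[2]) • z := by
  rw [← TY_two]
  show y.1 1 - (TYrep y).1 1 = 0
  rw [TYrep_spec, sub_self]

/-- the sequence of quotients -/
noncomputable def TYq (y : TY Y) : ℕ → TY Y
  | 0 => y
  | k + 1 => Classical.choose (TYrep_div (TYq y k))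

theorem TYq_spec (y : TY Y) (k : ℕ) : TYq y k = TYrep (TYq y k) + (2 : ℤ_[2]) • TYq y (k + 1) := by
  have h := Classical.choose_spec (TYrep_div (TYq y k))
  have h2 : TYq y (k + 1) = Classical.choose (TYrep_div (TYq y k)) := rfl
  rw [h2, ← h]
  abel

theorem TYq_sum (y : TY Y) (n k : ℕ) : y.1 n =
    (∑ l ∈ Finset.range k, (2 ^ l : ℕ) • (TYrep (TYq y l)).1 n) + (2 ^ k : ℕ) • (TYq y k).1 n := by
  induction k with
  | zero => simp [TYq]
  | succ k ih =>
    rw [Finset.sum_range_succ]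
    have h1 : (TYq y k).1 n = (TYrep (TYq y k)).1 n + (2 : ℕ) • (TYq y (k + 1)).1 n := by
      conv_lhs => rw [TYq_spec y k]
      show (TYrep (TYq y k)).1 n + ((2 : ℤ_[2]) • TYq y (k + 1)).1 n = _
      rw [TY_two_smul]
    rw [ih, h1, smul_add, ← mul_smul, ← pow_succ, add_assoc]

/-- the coefficients -/
noncomputable def TYf (y s : TY Y) (k : ℕ) : ℤ :=
  ∑ l ∈ Finset.range k, if TYrep (TYq y l) = s then 2 ^ l else 0

theorem TYf_dvd (y s : TY Y) (i : ℕ) : ((2 : ℕ) : ℤ) ^ i ∣ TYf y s (i + 1) - TYf y s i := by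
  unfold TYf
  rw [Finset.sum_range_succ, add_sub_cancel_left]
  split_ifs
  · simp
  · simp

theorem TYf_lim (y s : TY Y) : ∃ a : ℤ_[2], ∀ n, a - (TYf y s n : ℤ_[2]) ∈ Ideal.span {(2 : ℤ_[2]) ^ n} := by
  refine ⟨PadicInt.ofIntSeq _ (PadicInt.isCauSeq_padicNorm_of_pow_dvd_sub (TYf y s) 2 (TYf_dvd y s)), ?_⟩
  intro n
  have h1 := PadicInt.toZModPow_ofIntSeq_of_pow_dvd_sub (TYf y s) 2 (TYf_dvd y s) n
  have h2 := PadicInt.ker_toZModPow (p := 2) n
  have h3 : (PadicInt.ofIntSeq _ (PadicInt.isCauSeq_padicNorm_of_pow_dvd_sub (TYf y s) 2 (TYf_dvd y s))) -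
      (TYf y s n : ℤ_[2]) ∈ RingHom.ker (PadicInt.toZModPow (p := 2) n) := by
    rw [RingHom.mem_ker, map_sub, h1, map_intCast, sub_self]
  rw [h2] at h3
  simpa using h3

/-- If `Y[2]` is finite then `T₂(Y)` is a finitely generated `ℤ₂`-module. Proof: `T₂(Y)/2T₂(Y)` embeds into `Y[2]` by `y ↦ y₁` (`TY_two`), so it is
finite; let `e_1, …, e_r ∈ T₂(Y)` generate it. For `y ∈ T₂(Y)` construct inductively `a_i^{(k)} ∈ {0,1}` and `z^{(k)}` with
`y = ∑_i (∑_{l<k} a_i^{(l)} 2^l) e_i + 2^k z^{(k)}`; put `a_i = ∑ a_i^{(l)} 2^l ∈ ℤ₂`. Then `y - ∑ a_i e_i ∈ 2^k T₂(Y)` for all `k`, and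
`⋂ 2^k T₂(Y) = 0` (the components `0, …, k` of an element of `2^k T₂(Y)` vanish). -/
theorem TY_finite (h : {y : Y | (2 : ℕ) • y = 0}.Finite) : Module.Finite ℤ_[2] (TY Y) := by
  have hS := TYrep_finite h
  refine ⟨⟨hS.toFinset, ?_⟩⟩
  rw [eq_top_iff]
  intro y _
  choose a ha using TYf_lim y
  have key : y = ∑ s ∈ hS.toFinset, a s • s := by
    apply Subtype.ext
    funext n
    rw [TYq_sum y n n, TY_pow, add_zero]
    have e1 : (∑ s ∈ hS.toFinset, a s • s : TY Y).1 n = ∑ s ∈ hS.toFinset, (a s • s).1 n := by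
      have : (∑ s ∈ hS.toFinset, a s • s : TY Y).1 = ∑ s ∈ hS.toFinset, (a s • s).1 := by
        exact map_sum (TY Y).subtype _ _
      rw [this, Finset.sum_apply]
    rw [e1]
    have e2 : ∀ s ∈ hS.toFinset, (a s • s).1 n =
        ∑ l ∈ Finset.range n, (if TYrep (TYq y l) = s then (2 ^ l : ℕ) • s.1 n else 0) := by
      intro s _
      rw [TY_smul_int (a s) (TYf y s n) n (ha s n) s]
      unfold TYf
      rw [Finset.sum_smul]
      apply Finset.sum_congr rfl
      intro l _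
      split_ifs
      · have : ((2 : ℤ) ^ l) = ((2 ^ l : ℕ) : ℤ) := by push_cast; rfl
        rw [this, natCast_zsmul]
      · simp
    rw [Finset.sum_congr rfl e2, Finset.sum_comm]
    apply Finset.sum_congr rfl
    intro l _
    rw [Finset.sum_ite_eq, if_pos]
    rw [Set.Finite.mem_toFinset]
    exact ⟨_, rfl⟩
  rw [key]
  apply Submodule.sum_mem
  intro s hs
  exact Submodule.smul_mem _ _ (Submodule.subset_span (by simpa using hs))

/-- `T₂(Y)` is torsion free: `a = 2^k u`, `u` a unit; `2y = 0` implies `y_n = 2 y_{n+1} = 0`. A finitely generated torsion free module over a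
principal ideal domain is free. -/
theorem TY_free (h : {y : Y | (2 : ℕ) • y = 0}.Finite) : Module.Free ℤ_[2] (TY Y) := by
  haveI := TY_finite h
  haveI : Module.IsTorsionFree ℤ_[2] (TY Y) := TY_torsionFree
  infer_instance

end TE
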