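import Pool.Agent.TE.G12
import Pool.Agent.TE.G13

set_option autoImplicit false

open scoped Classical

namespace TE

/-! ## [TE-G14] a criterion for the vanishing of `T₂(Y)` -/

/-- The structure of `Y[2]` in terms of even sets (modulo complements): `relB y S` means that `S` represents the image of `y` in the first heart;
`relD y S` (for `y` with `relB y ∅`) that `S` represents `y` in the second one. -/
structure YD (Γ Y RB RD : Type*) [Group Γ] [AddCommGroup Y] [DistribMulAction Γ Y] [MulAction Γ RB] [MulAction Γ RD]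
    [Fintype RB] [Fintype RD] where
  relB : Y → Finset RB → Prop
  relD : Y → Finset RD → Prop
  B1 : ∀ y : Y, (2 : ℕ) • y = 0 → ∃ S, relB y S
  B2 : ∀ y y' S S', relB y S → relB y' S' → relB (y + y') (symmDiff S S')
  B3 : ∀ S, relB 0 S → S = ∅ ∨ S = Finset.univ
  B4 : ∀ (γ : Γ) y S, relB y S → relB (γ • y) (S.image (fun r => γ • r))
  B5 : ∀ y S, relB y S → Even S.card ∧ (2 : ℕ) • y = 0
  B6 : ∀ y S, relB y S → relB y Sᶜ
  D1 : ∀ y : Y, relB y ∅ → ∃ S, relD y S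
  D2 : ∀ y y' S S', relD y S → relD y' S' → relD (y + y') (symmDiff S S')
  D3 : ∀ S, relD 0 S → S = ∅ ∨ S = Finset.univ
  D4 : ∀ (γ : Γ) y S, relD y S → relD (γ • y) (S.image (fun r => γ • r))
  D5 : ∀ y S, relD y S → Even S.card ∧ (2 : ℕ) • y = 0
  D6 : ∀ y S, relD y S → relD y Sᶜ
  D7 : ∀ y : Y, relD y ∅ → y = 0
  alt : ∀ σ ∈ alternatingGroup RB, ∀ τ ∈ alternatingGroup RD, ∃ γ : Γ, (∀ r : RB, γ • r = σ r) ∧ ∀ r : RD, γ • r = τ r
  evnB : Even (Fintype.card RB)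
  cardB : 8 ≤ Fintype.card RB
  evnD : Even (Fintype.card RD)
  cardD : 8 ≤ Fintype.card RD

section maps

variable {Γ Y RB RD : Type*} [Group Γ] [AddCommGroup Y] [DistribMulAction Γ Y] [MulAction Γ RB] [MulAction Γ RD]
  [Fintype RB] [Fintype RD]

/-- the image of `y` in the first heart -/
noncomputable def YD.jY (D : YD Γ Y RB RD) (y : Y) : Ht RB := if h : ∃ S, D.relB y S then hc h.choose else 0

/-- the image of `y` in the second heart -/
noncomputable def YD.dY (D : YD Γ Y RB RD) (y : Y) : Ht RD := if h : ∃ S, D.relD y S then hc h.choose else 0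

theorem g14_symm {R : Type*} [Fintype R] {S T : Finset R} (h : symmDiff S T = ∅ ∨ symmDiff S T = Finset.univ) :
    (hc T : Ht R) = hc S := by
  rw [hc_eq]
  rcases h with h | h
  · left
    rw [← Finset.bot_eq_empty, symmDiff_eq_bot] at h
    exact h.symm
  · right
    rw [← Finset.top_eq_univ, symmDiff_eq_top] at h
    rw [← h.compl_eq]

theorem g14_zero {R : Type*} [Fintype R] {S : Finset R} : (hc S : Ht R) = 0 ↔ S = ∅ ∨ S = Finset.univ := by
  rw [← hc_empty, hc_eq, Finset.compl_empty]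

theorem g14_self {R : Type*} (x : Ht R) : x + x = 0 := by
  rw [← two_smul (ZMod 2) x, show (2 : ZMod 2) = 0 from rfl, zero_smul]

/-- `relB y S`, `relB y S'` imply `relB 0 (S Δ S')` (`2y = 0`), so `S' = S` or `S' = Sᶜ`, `hc S = hc S'`. -/
theorem jY_eq (D : YD Γ Y RB RD) {y : Y} {S : Finset RB} (h : D.relB y S) : D.jY y = hc S := by
  have hex : ∃ S, D.relB y S := ⟨S, h⟩
  unfold YD.jY
  rw [dif_pos hex]
  apply g14_symm
  have h1 := D.B2 y y _ _ h hex.choose_spec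
  have h2 := (D.B5 y S h).2
  rw [two_nsmul] at h2
  rw [h2] at h1
  exact D.B3 _ h1

theorem dY_eq (D : YD Γ Y RB RD) {y : Y} {S : Finset RD} (h : D.relD y S) : D.dY y = hc S := by
  have hex : ∃ S, D.relD y S := ⟨S, h⟩
  unfold YD.dY
  rw [dif_pos hex]
  apply g14_symm
  have h1 := D.D2 y y _ _ h hex.choose_spec
  have h2 := (D.D5 y S h).2
  rw [two_nsmul] at h2
  rw [h2] at h1
  exact D.D3 _ h1

/-- additivity, equivariance, evenness of `jY` on `Y[2]`, and `jY y = 0 ↔ relB y ∅` (if `hc S = 0` then `S = ∅` or `S = univ = ∅ᶜ`; `B6`) -/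
theorem jY_props (D : YD Γ Y RB RD) : (∀ y y' : Y, (2 : ℕ) • y = 0 → (2 : ℕ) • y' = 0 → D.jY (y + y') = D.jY y + D.jY y') ∧
    (∀ (γ : Γ) (y : Y), (2 : ℕ) • y = 0 → D.jY (γ • y) = htm (MulAction.toPerm γ) (D.jY y)) ∧
    (∀ y : Y, (2 : ℕ) • y = 0 → D.jY y ∈ HtE RB) ∧
    (∀ y : Y, (2 : ℕ) • y = 0 → (D.jY y = 0 ↔ D.relB y ∅)) := by
  refine ⟨?_, ?_, ?_, ?_⟩
  · intro y y' hy hy'
    obtain ⟨S, hS⟩ := D.B1 y hy
    obtain ⟨S', hS'⟩ := D.B1 y' hy'
    rw [jY_eq D hS, jY_eq D hS', jY_eq D (D.B2 _ _ _ _ hS hS'), hc_add]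
  · intro γ y hy
    obtain ⟨S, hS⟩ := D.B1 y hy
    rw [jY_eq D hS, jY_eq D (D.B4 γ y S hS), htm_hc]
    rfl
  · intro y hy
    obtain ⟨S, hS⟩ := D.B1 y hy
    rw [jY_eq D hS, mem_HtE D.evnB]
    exact (D.B5 y S hS).1
  · intro y hy
    constructor
    · intro h
      obtain ⟨S, hS⟩ := D.B1 y hy
      rw [jY_eq D hS, g14_zero] at h
      rcases h with rfl | rfl
      · exact hS
      · have h1 := D.B6 y _ hS
        rw [Finset.compl_univ] at h1
        exact h1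
    · intro h
      rw [jY_eq D h, hc_empty]

/-- the same for `dY` on the kernel of `jY`; `jY y = 0 ∧ dY y = 0 ↔ y = 0` on `Y[2]` (`D6`, `D7`; for `y = 0` use `D3`, `B3`) -/
theorem dY_props (D : YD Γ Y RB RD) : (∀ y y' : Y, D.relB y ∅ → D.relB y' ∅ → D.dY (y + y') = D.dY y + D.dY y') ∧
    (∀ (γ : Γ) (y : Y), D.relB y ∅ → D.dY (γ • y) = htm (MulAction.toPerm γ) (D.dY y)) ∧
    (∀ y : Y, D.relB y ∅ → D.dY y ∈ HtE RD) ∧
    (∀ y : Y, (2 : ℕ) • y = 0 → ((D.jY y = 0 ∧ D.dY y = 0) ↔ y = 0)) := by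
  refine ⟨?_, ?_, ?_, ?_⟩
  · intro y y' hy hy'
    obtain ⟨S, hS⟩ := D.D1 y hy
    obtain ⟨S', hS'⟩ := D.D1 y' hy'
    rw [dY_eq D hS, dY_eq D hS', dY_eq D (D.D2 _ _ _ _ hS hS'), hc_add]
  · intro γ y hy
    obtain ⟨S, hS⟩ := D.D1 y hy
    rw [dY_eq D hS, dY_eq D (D.D4 γ y S hS), htm_hc]
    rfl
  · intro y hy
    obtain ⟨S, hS⟩ := D.D1 y hy
    rw [dY_eq D hS, mem_HtE D.evnD]
    exact (D.D5 y S hS).1
  · intro y hy
    constructor
    · rintro ⟨h1, h2⟩
      have h3 := ((jY_props D).2.2.2 y hy).1 h1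
      obtain ⟨S, hS⟩ := D.D1 y h3
      rw [dY_eq D hS, g14_zero] at h2
      apply D.D7
      rcases h2 with rfl | rfl
      · exact hS
      · have h1 := D.D6 y _ hS
        rw [Finset.compl_univ] at h1
        exact h1
    · rintro rfl
      obtain ⟨S, hS⟩ := D.B1 0 hy
      have h1 : D.jY (0 : Y) = 0 := by
        rw [jY_eq D hS, g14_zero]
        exact D.B3 _ hS
      refine ⟨h1, ?_⟩
      obtain ⟨T, hT⟩ := D.D1 0 (((jY_props D).2.2.2 0 hy).1 h1)
      rw [dY_eq D hT, g14_zero]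
      exact D.D3 _ hT

/-- `Y[2]` is finite: by `jY_props`, `dY_props` the map `y ↦ jY y ∈ Ht RB` is additive on `Y[2]` and injective modulo its kernel, which embeds into
`Ht RD`; `Ht RB`, `Ht RD` are finite. -/
theorem Y2_finite (D : YD Γ Y RB RD) : {y : Y | (2 : ℕ) • y = 0}.Finite := by
  obtain ⟨hj1, hj2, hj3, hj4⟩ := jY_props D
  obtain ⟨hd1, hd2, hd3, hd4⟩ := dY_props D
  have hfB : Finite (Ht RB) := Finite.of_surjective _ (Submodule.Quotient.mk_surjective _)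
  have hfD : Finite (Ht RD) := Finite.of_surjective _ (Submodule.Quotient.mk_surjective _)
  have hrep : ∀ v : Ht RB, ∃ r : Y, (∃ y : Y, (2 : ℕ) • y = 0 ∧ D.jY y = v) →
      ((2 : ℕ) • r = 0 ∧ D.jY r = v) := by
    intro v
    by_cases h : ∃ y : Y, (2 : ℕ) • y = 0 ∧ D.jY y = v
    · obtain ⟨y, hy⟩ := h
      exact ⟨y, fun _ => hy⟩
    · exact ⟨0, fun h' => absurd h' h⟩
  choose r hr using hrep
  apply Set.Finite.of_finite_image (f := fun y : Y => (D.jY y, D.dY (y + r (D.jY y))))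
  · exact Set.toFinite _
  · intro y hy y' hy' hyy
    have hy2 : (2 : ℕ) • y = 0 := hy
    have hy2' : (2 : ℕ) • y' = 0 := hy'
    simp only [Prod.mk.injEq] at hyy
    obtain ⟨h1, h2⟩ := hyy
    rw [← h1] at h2
    obtain ⟨hr1, hr2⟩ := hr (D.jY y) ⟨y, hy2, rfl⟩
    have hk : ∀ z : Y, (2 : ℕ) • z = 0 → D.jY z = D.jY y → D.relB (z + r (D.jY y)) ∅ := by
      intro z hz hzj
      rw [← hj4 _ (by rw [smul_add, hz, hr1, add_zero]), hj1 _ _ hz hr1, hr2, hzj]
      exact g14_self _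
    have k1 := hk y hy2 rfl
    have k2 := hk y' hy2' h1.symm
    have h3 := hd1 _ _ k1 k2
    rw [← h2, g14_self] at h3
    have h4 : (2 : ℕ) • (y + r (D.jY y) + (y' + r (D.jY y))) = 0 := by
      rw [smul_add, smul_add, smul_add, hy2, hy2', hr1]
      simp
    have h5 : D.jY (y + r (D.jY y) + (y' + r (D.jY y))) = 0 := by
      rw [hj1 _ _ (by rw [smul_add, hy2, hr1, add_zero]) (by rw [smul_add, hy2', hr1, add_zero]),
        (hj4 _ (by rw [smul_add, hy2, hr1, add_zero])).2 k1,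
        (hj4 _ (by rw [smul_add, hy2', hr1, add_zero])).2 k2, add_zero]
    have h6 := (hd4 _ h4).1 ⟨h5, h3⟩
    have h7 : r (D.jY y) + r (D.jY y) = 0 := by rw [← two_nsmul]; exact hr1
    have h8 : y' + y' = 0 := by rw [← two_nsmul]; exact hy2'
    have h9 : y + y' = 0 := by
      have h10 : y + r (D.jY y) + (y' + r (D.jY y)) = y + y' + (r (D.jY y) + r (D.jY y)) := by abel
      rw [h10, h7, add_zero] at h6
      exact h6
    calc y = y + y' - (y' + y') + y' := by abel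
      _ = y' := by rw [h9, h8, sub_zero, zero_add]

end maps

end TE
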