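import Pool.Agent.TE.G14

set_option autoImplicit false

open scoped Classical

namespace TE

/-! ## [TE-G15] the vanishing of the elements of `T₂(Y)` fixed by a subgroup of finite index -/

variable {Γ Y RB RD : Type*} [Group Γ] [AddCommGroup Y] [DistribMulAction Γ Y] [MulAction Γ RB] [MulAction Γ RD]
  [Fintype RB] [Fintype RD]

/-- the fixed points of a subgroup -/
def G15Y (Y : Type*) [AddCommGroup Y] [DistribMulAction Γ Y] (N : Subgroup Γ) : AddSubgroup Y where
  carrier := {y | ∀ h ∈ N, h • y = y}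
  zero_mem' := fun h _ => smul_zero h
  add_mem' := by
    intro a b ha hb h hh
    rw [smul_add, ha h hh, hb h hh]
  neg_mem' := by
    intro a ha h hh
    rw [smul_neg, ha h hh]

/-- the action on the fixed points of a normal subgroup -/
def G15act (Y : Type*) [AddCommGroup Y] [DistribMulAction Γ Y] (N : Subgroup Γ) [N.Normal] (γ : Γ) :
    G15Y Y N →+ G15Y Y N where
  toFun y := ⟨γ • y.1, by
    intro h hh
    have h1 : γ⁻¹ * h * γ ∈ N := by
      have := Subgroup.Normal.conj_mem (inferInstance : N.Normal) h hh γ⁻¹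
      rwa [inv_inv] at this
    have h2 := y.2 _ h1
    rw [mul_smul, mul_smul] at h2
    have h3 := congrArg (fun z => γ • z) h2
    simp only [smul_inv_smul] at h3
    exact h3⟩
  map_zero' := by
    ext
    exact smul_zero γ
  map_add' := by
    intro a b
    ext
    exact smul_add γ a.1 b.1

/-- the operators on the Tate module -/
noncomputable def G15rho (Y : Type*) [AddCommGroup Y] [DistribMulAction Γ Y] (N : Subgroup Γ) [N.Normal] :
    Γ →* Module.End ℤ_[2] (TY (G15Y Y N)) where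
  toFun γ := TYmap (G15act Y N γ)
  map_one' := by
    ext y n
    show ((G15act Y N 1 (y.1 n) : G15Y Y N) : Y) = ((y.1 n : G15Y Y N) : Y)
    exact one_smul Γ _
  map_mul' := by
    intro γ γ'
    ext y n
    show ((G15act Y N (γ * γ') (y.1 n) : G15Y Y N) : Y) =
      ((G15act Y N γ (G15act Y N γ' (y.1 n)) : G15Y Y N) : Y)
    exact mul_smul γ γ' _

theorem G15rho_apply (N : Subgroup Γ) [N.Normal] (γ : Γ) (y : TY (G15Y Y N)) (n : ℕ) :
    (((G15rho Y N γ y).1 n : G15Y Y N) : Y) = γ • ((y.1 n : G15Y Y N) : Y) := rfl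

/-- the joint representation -/
noncomputable def G15phi (Y RB RD : Type*) [AddCommGroup Y] [DistribMulAction Γ Y] [MulAction Γ RB] [MulAction Γ RD]
    (N : Subgroup Γ) [N.Normal] :
    Γ →* Module.End ℤ_[2] (TY (G15Y Y N)) × (Equiv.Perm RB × Equiv.Perm RD) :=
  (G15rho Y N).prod ((MulAction.toPermHom Γ RB).prod (MulAction.toPermHom Γ RD))

theorem G15_fin (N : Subgroup Γ) [N.Normal] [N.FiniteIndex] : (G15phi Y RB RD N).ker.FiniteIndex := by
  set p : Γ →* Equiv.Perm RB × Equiv.Perm RD := (MulAction.toPermHom Γ RB).prod (MulAction.toPermHom Γ RD) with hp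
  have h1 : p.ker.FiniteIndex := Subgroup.finiteIndex_ker p
  have h2 : (N ⊓ p.ker).FiniteIndex := inferInstance
  refine Subgroup.finiteIndex_of_le (H := N ⊓ p.ker) ?_
  intro γ hγ
  rw [Subgroup.mem_inf] at hγ
  rw [MonoidHom.mem_ker]
  have h3 : p γ = 1 := hγ.2
  have h4 : G15rho Y N γ = 1 := by
    ext y n
    show (((G15rho Y N γ y).1 n : G15Y Y N) : Y) = ((y.1 n : G15Y Y N) : Y)
    rw [G15rho_apply]
    exact (y.1 n).2 γ hγ.1
  show (G15rho Y N γ, p γ) = 1
  rw [h3, h4]
  rfl

omit [Fintype RB] [Fintype RD] in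
theorem G15_ker (N : Subgroup Γ) [N.Normal] {γ : Γ} : γ ∈ (G15phi Y RB RD N).ker ↔
    G15rho Y N γ = 1 ∧ (∀ r : RB, γ • r = r) ∧ (∀ r : RD, γ • r = r) := by
  rw [MonoidHom.mem_ker]
  show (G15rho Y N γ, (MulAction.toPermHom Γ RB γ, MulAction.toPermHom Γ RD γ)) = 1 ↔ _
  rw [Prod.mk_eq_one, Prod.mk_eq_one]
  constructor
  · rintro ⟨h1, h2, h3⟩
    exact ⟨h1, fun r => by simpa using congrArg (fun σ : Equiv.Perm RB => σ r) h2,
      fun r => by simpa using congrArg (fun σ : Equiv.Perm RD => σ r) h3⟩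
  · rintro ⟨h1, h2, h3⟩
    exact ⟨h1, Equiv.ext h2, Equiv.ext h3⟩

/-- Proof. Replace `H` by its normal core (normal, of finite index). Let `Y' = {y ∈ Y : h y = y for all h ∈ H}`, a `Γ`-stable subgroup of `Y`, and
`L = TY Y'`; `Y'[2] ⊆ Y[2]` is finite (`Y2_finite`), so `L` is a finite free `ℤ₂`-module (`TY_finite`, `TY_free`). `Γ` acts on `L` (`TYmap`),
`H` acts trivially. Let `G` be the image of `Γ` in `(End_{ℤ₂} L)ˣ × Perm RB × Perm RD`; it is finite, because the intersection of `H` with the kernel of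
`Γ → Perm RB × Perm RD` has finite index and is in the kernel. `G` acts on `L`, `RB`, `RD` through the projections. Put
`j y = jY (y₁)`, `δ y = dY (y₁)` for `y ∈ L` (`2 y₁ = y₀ = 0`). With `jY_props`, `dY_props`, `TY_two` these are data `MTD` (`faith` holds by construction;
`ker`: `j y = 0 ∧ δ y = 0 ↔ y₁ = 0 ↔ y ∈ 2L`). So `L = 0` by `mixed_zero`. The given sequence is an element of `L`. -/
theorem TY_trivial (D : YD Γ Y RB RD) (H : Subgroup Γ) [H.FiniteIndex] (y : ℕ → Y) (hy0 : y 0 = 0)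
    (hy : ∀ n, (2 : ℕ) • y (n + 1) = y n) (hH : ∀ h ∈ H, ∀ n, h • y n = y n) (n : ℕ) : y n = 0 := by
  set N : Subgroup Γ := H.normalCore with hN
  have hNn : N.Normal := Subgroup.normalCore_normal H
  have hNf : N.FiniteIndex := inferInstance
  have hfin : {z : G15Y Y N | (2 : ℕ) • z = 0}.Finite := by
    refine Set.Finite.of_injOn (f := fun z : G15Y Y N => (z : Y)) (t := {y : Y | (2 : ℕ) • y = 0}) ?_
      (Subtype.val_injective.injOn) (Y2_finite D)
    intro z hz
    have h1 : (2 : ℕ) • z = 0 := hz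
    show (2 : ℕ) • (z : Y) = 0
    have h2 := congrArg (fun w : G15Y Y N => (w : Y)) h1
    simpa using h2
  have := TY_finite hfin
  have := TY_free hfin
  set K : Subgroup Γ := (G15phi Y RB RD N).ker with hK
  have hKf : K.FiniteIndex := G15_fin N
  have : Finite (Γ ⧸ K) := Subgroup.finite_quotient_of_finiteIndex
  let actB : (Γ ⧸ K) →* Equiv.Perm RB := QuotientGroup.lift K (MulAction.toPermHom Γ RB) (by
    intro γ hγ
    exact Equiv.ext ((G15_ker N).1 hγ).2.1)
  let actD : (Γ ⧸ K) →* Equiv.Perm RD := QuotientGroup.lift K (MulAction.toPermHom Γ RD) (by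
    intro γ hγ
    exact Equiv.ext ((G15_ker N).1 hγ).2.2)
  let ρ : (Γ ⧸ K) →* Module.End ℤ_[2] (TY (G15Y Y N)) := QuotientGroup.lift K (G15rho Y N) (by
    intro γ hγ
    exact ((G15_ker N).1 hγ).1)
  letI : MulAction (Γ ⧸ K) RB := MulAction.compHom RB actB
  letI : MulAction (Γ ⧸ K) RD := MulAction.compHom RD actD
  have hB : ∀ (γ : Γ) (r : RB), ((γ : Γ ⧸ K)) • r = γ • r := fun γ r => rfl
  have hD : ∀ (γ : Γ) (r : RD), ((γ : Γ ⧸ K)) • r = γ • r := fun γ r => rfl
  have hρ : ∀ (γ : Γ), ρ (γ : Γ ⧸ K) = G15rho Y N γ := fun γ => rfl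
  have hpB : ∀ γ : Γ, (MulAction.toPerm (γ : Γ ⧸ K) : Equiv.Perm RB) = MulAction.toPerm γ := fun γ => by
    ext r
    exact hB γ r
  have hpD : ∀ γ : Γ, (MulAction.toPerm (γ : Γ ⧸ K) : Equiv.Perm RD) = MulAction.toPerm γ := fun γ => by
    ext r
    exact hD γ r
  have h2 : ∀ z : TY (G15Y Y N), (2 : ℕ) • (((z.1 1 : G15Y Y N)) : Y) = 0 := by
    intro z
    have h3 : (2 : ℕ) • z.1 1 = 0 := by
      rw [z.2.2 0, z.2.1]
    have h4 := congrArg (fun w : G15Y Y N => (w : Y)) h3
    simpa using h4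
  obtain ⟨jadd, jequi, jeven, jker⟩ := jY_props D
  obtain ⟨dadd, dequi, deven, dker⟩ := dY_props D
  have hrel : ∀ z : TY (G15Y Y N), D.jY ((z.1 1 : G15Y Y N) : Y) = 0 → D.relB ((z.1 1 : G15Y Y N) : Y) ∅ :=
    fun z hz => (jker _ (h2 z)).1 hz
  let M : MTD (Γ ⧸ K) RB RD (TY (G15Y Y N)) :=
    { ρ := ρ
      j := AddMonoidHom.mk' (fun z => D.jY ((z.1 1 : G15Y Y N) : Y)) (fun z w => jadd _ _ (h2 z) (h2 w))
      δ := fun z => D.dY ((z.1 1 : G15Y Y N) : Y)
      jeven := fun z => jeven _ (h2 z)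
      jequi := by
        intro g z
        induction g using QuotientGroup.induction_on with
        | H γ =>
          rw [hρ, hpB]
          exact jequi γ _ (h2 z)
      δadd := fun z w hz hw => dadd _ _ (hrel z hz) (hrel w hw)
      δeven := fun z hz => deven _ (hrel z hz)
      δequi := by
        intro g z hz
        induction g using QuotientGroup.induction_on with
        | H γ =>
          rw [hρ, hpD]
          exact dequi γ _ (hrel z hz)
      ker := by
        intro z
        rw [← TY_two z]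
        refine (dker _ (h2 z)).trans ?_
        constructor
        · intro h
          exact Subtype.ext h
        · intro h
          rw [h]
          rfl
      alt := by
        intro σ hσ τ hτ
        obtain ⟨γ, h1, h2⟩ := D.alt σ hσ τ hτ
        exact ⟨(γ : Γ ⧸ K), h1, h2⟩
      faith := by
        intro g h1 h2 h3
        induction g using QuotientGroup.induction_on with
        | H γ =>
          rw [QuotientGroup.eq_one_iff]
          exact (G15_ker N).2 ⟨h1, h2, h3⟩
      evnB := D.evnB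
      cardB := D.cardB
      evnD := D.evnD
      cardD := D.cardD }
  have hmem : ∀ n, y n ∈ G15Y Y N := fun n h hh => hH h (Subgroup.normalCore_le H hh) n
  let z : TY (G15Y Y N) := ⟨fun n => ⟨y n, hmem n⟩, ⟨Subtype.ext hy0, fun n => Subtype.ext (by
    simpa using hy n)⟩⟩
  have hz : z = 0 := mixed_zero M z
  have h3 := congrArg (fun w : TY (G15Y Y N) => ((w.1 n : G15Y Y N) : Y)) hz
  exact h3

end TE
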