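import Pool.Agent.TE.G0

set_option autoImplicit false

open scoped Classical

namespace TE

/-! ## [TE-G2] the heart of the permutation module over `F₂`

`hc S` is the class of the indicator function of `S` modulo constants. -/

variable {R : Type*} [Fintype R]

theorem g2_zmod (x : ZMod 2) : x = 0 ∨ x = 1 := by
  revert x
  decide

theorem g2_mk (f : R → ZMod 2) : (Submodule.Quotient.mk f : Ht R) = 0 ↔ f = 0 ∨ f = 1 := by
  rw [Submodule.Quotient.mk_eq_zero, Submodule.mem_span_singleton]
  constructor
  · rintro ⟨c, hc⟩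
    rcases g2_zmod c with h | h
    · left
      rw [← hc, h, zero_smul]
    · right
      rw [← hc, h, one_smul]
  · rintro (h | h)
    · exact ⟨0, by rw [h, zero_smul]⟩
    · exact ⟨1, by rw [h, one_smul]⟩

theorem hc_surj (v : Ht R) : ∃ S : Finset R, v = hc S := by
  obtain ⟨f, rfl⟩ := Submodule.Quotient.mk_surjective _ v
  refine ⟨Finset.univ.filter fun r => f r = 1, ?_⟩
  unfold hc
  congr 1
  funext r
  simp only [Finset.mem_filter, Finset.mem_univ, true_and]
  rcases g2_zmod (f r) with h | h
  · rw [h, if_neg (by decide)]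
  · rw [h, if_pos rfl]

theorem hc_eq (S T : Finset R) : hc S = hc T ↔ S = T ∨ S = Tᶜ := by
  have h1 : hc S = hc T ↔ (Submodule.Quotient.mk
      ((fun r => if r ∈ S then (1 : ZMod 2) else 0) - fun r => if r ∈ T then (1 : ZMod 2) else 0) : Ht R) = 0 := by
    unfold hc
    rw [Submodule.Quotient.mk_sub, sub_eq_zero]
  rw [h1, g2_mk]
  constructor
  · rintro (h | h)
    · left
      ext r
      have h2 := congrFun h r
      simp only [Pi.sub_apply, Pi.zero_apply] at h2
      by_cases hS : r ∈ S <;> by_cases hT : r ∈ T <;> simp only [hS, hT, if_true, if_false] at h2 ⊢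
      · exact absurd h2 (by decide)
      · exact absurd h2 (by decide)
    · right
      ext r
      have h2 := congrFun h r
      simp only [Pi.sub_apply, Pi.one_apply] at h2
      rw [Finset.mem_compl]
      by_cases hS : r ∈ S <;> by_cases hT : r ∈ T <;> simp only [hS, hT, if_true, if_false] at h2 ⊢
      · exact absurd h2 (by decide)
      · simp
      · simp
      · exact absurd h2 (by decide)
  · rintro (h | h)
    · left
      rw [h, sub_self]
    · right
      rw [h]
      funext r
      simp only [Pi.sub_apply, Pi.one_apply, Finset.mem_compl]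
      by_cases hT : r ∈ T <;> simp only [hT, not_true, not_false_iff, if_true, if_false]
      · decide
      · decide

theorem hc_add (S T : Finset R) : hc S + hc T = hc (symmDiff S T) := by
  unfold hc
  rw [← Submodule.Quotient.mk_add]
  congr 1
  funext r
  simp only [Pi.add_apply, Finset.mem_symmDiff]
  by_cases hS : r ∈ S <;> by_cases hT : r ∈ T <;> simp only [hS, hT, not_true, not_false_iff, and_true, and_false,
    or_false, or_true, if_true, if_false, or_self]
  · exact (by decide : (1 : ZMod 2) + 1 = 0)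
  · exact add_zero 1
  · exact zero_add 1
  · exact zero_add 0

theorem hc_empty : hc (∅ : Finset R) = 0 := by
  unfold hc
  rw [g2_mk]
  left
  funext r
  simp

theorem htm_hc (σ : Equiv.Perm R) (S : Finset R) : htm σ (hc S) = hc (S.image σ) := by
  unfold hc htm
  rw [Submodule.mapQ_apply]
  congr 1
  funext r
  rw [LinearMap.funLeft_apply]
  have h : σ.symm r ∈ S ↔ r ∈ S.image σ := by
    rw [Finset.mem_image]
    constructor
    · intro h
      exact ⟨_, h, σ.apply_symm_apply r⟩
    · rintro ⟨s, hs, rfl⟩
      rwa [σ.symm_apply_apply]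
  simp only [h]

theorem htm_one : htm (1 : Equiv.Perm R) = LinearMap.id := by
  apply LinearMap.ext
  intro v
  obtain ⟨S, rfl⟩ := hc_surj v
  rw [htm_hc, LinearMap.id_apply]
  congr 1
  ext r
  simp

theorem htm_mul (σ τ : Equiv.Perm R) : htm (σ * τ) = (htm σ).comp (htm τ) := by
  apply LinearMap.ext
  intro v
  obtain ⟨S, rfl⟩ := hc_surj v
  rw [LinearMap.comp_apply, htm_hc, htm_hc, htm_hc, Finset.image_image]
  rfl

theorem g2_even_symmDiff {S T : Finset R} (hS : Even S.card) (hT : Even T.card) : Even (symmDiff S T).card := by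
  have h1 : symmDiff S T = (S \ T) ∪ (T \ S) := symmDiff_def S T
  have h2 : Disjoint (S \ T) (T \ S) := disjoint_sdiff_sdiff
  rw [h1, Finset.card_union_of_disjoint h2]
  have h3 := Finset.card_sdiff_add_card_inter S T
  have h4 := Finset.card_sdiff_add_card_inter T S
  rw [Finset.inter_comm T S] at h4
  obtain ⟨a, ha⟩ := hS
  obtain ⟨b, hb⟩ := hT
  rw [Nat.even_iff]
  omega

theorem g2_mem {v : Ht R} (hv : v ∈ HtE R) : ∃ S : Finset R, Even S.card ∧ v = hc S := by
  unfold HtE at hv
  induction hv using Submodule.span_induction with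
  | mem x h => exact h
  | zero => exact ⟨∅, by simp, hc_empty.symm⟩
  | add x y _ _ hx hy =>
    obtain ⟨S, hS, rfl⟩ := hx
    obtain ⟨T, hT, rfl⟩ := hy
    exact ⟨symmDiff S T, g2_even_symmDiff hS hT, hc_add S T⟩
  | smul c x _ hx =>
    obtain ⟨S, hS, rfl⟩ := hx
    rcases g2_zmod c with h | h
    · exact ⟨∅, by simp, by rw [h, zero_smul, hc_empty]⟩
    · exact ⟨S, hS, by rw [h, one_smul]⟩

theorem g2_hc_mem {S : Finset R} (hS : Even S.card) : hc S ∈ HtE R := Submodule.subset_span ⟨S, hS, rfl⟩

theorem g2_add_self (v : Ht R) : v + v = 0 := by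
  obtain ⟨S, rfl⟩ := hc_surj v
  rw [hc_add, symmDiff_self]
  exact hc_empty

theorem g2_sub (v w : Ht R) : v - w = v + w := by
  rw [sub_eq_add_neg, neg_eq_of_add_eq_zero_left (g2_add_self w)]

theorem g2_univ : hc (Finset.univ : Finset R) = 0 := by
  rw [← hc_empty, hc_eq]
  right
  simp

theorem mem_HtE (h : Even (Fintype.card R)) (S : Finset R) : hc S ∈ HtE R ↔ Even S.card := by
  constructor
  · intro h1
    obtain ⟨T, hT, h2⟩ := g2_mem h1
    rcases (hc_eq S T).1 h2 with h3 | h3
    · rwa [h3]
    · rw [h3, Finset.card_compl]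
      have := Finset.card_le_univ T
      obtain ⟨a, ha⟩ := h
      obtain ⟨b, hb⟩ := hT
      rw [Nat.even_iff]
      omega
  · exact g2_hc_mem

theorem htm_mem {σ : Equiv.Perm R} {v : Ht R} (hv : v ∈ HtE R) : htm σ v ∈ HtE R := by
  obtain ⟨S, hS, rfl⟩ := g2_mem hv
  rw [htm_hc]
  apply g2_hc_mem
  rwa [Finset.card_image_of_injective S σ.injective]

/-- For a fixed point `a` the classes of the pairs `{a, t}`, `t ∈ T`, are linearly independent if `|T| ≤ n - 2`, `a ∉ T`: a sum over a nonempty
`T' ⊆ T` is the class of an even set contained in `T ∪ {a}` which contains `T'`, so it is not empty and not everything. -/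
theorem pair_indep (a : R) (T : Finset R) (ha : a ∉ T) (hT : T.card + 2 ≤ Fintype.card R) :
    LinearIndependent (ZMod 2) (fun t : T => (hc {a, (t : R)} : Ht R)) := by
  rw [Fintype.linearIndependent_iff]
  intro g hg
  have h1 : (∑ t : T, g t • (hc {a, (t : R)} : Ht R)) = Submodule.Quotient.mk
      (∑ t : T, g t • (fun r => if r ∈ ({a, (t : R)} : Finset R) then (1 : ZMod 2) else 0)) := by
    rw [← Submodule.mkQ_apply, map_sum]
    refine Finset.sum_congr rfl fun t _ => ?_
    rw [map_smul]
    rfl
  rw [h1, g2_mk] at hg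
  have hval : ∀ r : R, r ≠ a → (∑ t : T, g t • (fun r => if r ∈ ({a, (t : R)} : Finset R) then (1 : ZMod 2) else 0)) r =
      if h : r ∈ T then g ⟨r, h⟩ else 0 := by
    intro r hr
    rw [Finset.sum_apply]
    have h2 : ∀ t : T, (g t • (fun r => if r ∈ ({a, (t : R)} : Finset R) then (1 : ZMod 2) else 0)) r =
        if r = (t : R) then g t else 0 := by
      intro t
      simp only [Pi.smul_apply, Finset.mem_insert, Finset.mem_singleton, smul_eq_mul, mul_ite, mul_one, mul_zero,
        hr, false_or]
    rw [Finset.sum_congr rfl fun t _ => h2 t]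
    split_ifs with h
    · rw [Finset.sum_eq_single (⟨r, h⟩ : T)]
      · simp
      · intro t _ ht
        rw [if_neg]
        intro h3
        apply ht
        exact Subtype.ext h3.symm
      · intro h3
        exact absurd (Finset.mem_univ _) h3
    · apply Finset.sum_eq_zero
      intro t _
      rw [if_neg]
      intro h3
      apply h
      rw [h3]
      exact t.2
  obtain ⟨r0, hr0⟩ : ∃ r0 : R, r0 ∉ insert a T := by
    by_contra hcon
    push Not at hcon
    have h2 : Finset.univ ⊆ insert a T := fun r _ => hcon r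
    have h3 := Finset.card_le_card h2
    rw [Finset.card_univ, Finset.card_insert_of_notMem ha] at h3
    omega
  have hr0a : r0 ≠ a := fun h => hr0 (h ▸ Finset.mem_insert_self a T)
  have hr0T : r0 ∉ T := fun h => hr0 (Finset.mem_insert_of_mem h)
  have hzero : (∑ t : T, g t • (fun r => if r ∈ ({a, (t : R)} : Finset R) then (1 : ZMod 2) else 0)) = 0 := by
    rcases hg with h | h
    · exact h
    · exfalso
      have h2 := congrFun h r0
      rw [hval r0 hr0a, dif_neg hr0T] at h2
      exact zero_ne_one h2
  intro t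
  have h2 := congrFun hzero (t : R)
  rw [hval t (fun h => ha (h ▸ t.2)), dif_pos t.2] at h2
  exact h2

theorem g2_sum (a : R) (U : Finset R) (ha : a ∉ U) :
    ∑ t ∈ U, (hc {a, t} : Ht R) = if Even U.card then hc U else hc (insert a U) := by
  induction U using Finset.induction_on with
  | empty => simp [hc_empty]
  | insert u U hu ih =>
    have hau : a ≠ u := fun h => ha (h ▸ Finset.mem_insert_self u U)
    have haU : a ∉ U := fun h => ha (Finset.mem_insert_of_mem h)
    rw [Finset.sum_insert hu, ih haU, Finset.card_insert_of_notMem hu]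
    by_cases hE : Even U.card
    · rw [if_pos hE, if_neg (by rw [Nat.even_add_one]; exact fun h => h hE), hc_add]
      congr 1
      ext r
      simp only [Finset.mem_symmDiff, Finset.mem_insert, Finset.mem_singleton]
      constructor
      · rintro (⟨h1, _⟩ | ⟨h1, _⟩)
        · rcases h1 with h1 | h1
          · exact Or.inl h1
          · exact Or.inr (Or.inl h1)
        · exact Or.inr (Or.inr h1)
      · rintro (h1 | h1 | h1)
        · exact Or.inl ⟨Or.inl h1, fun h => haU (h1 ▸ h)⟩
        · exact Or.inl ⟨Or.inr h1, fun h => hu (h1 ▸ h)⟩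
        · refine Or.inr ⟨h1, ?_⟩
          rintro (h | h)
          · exact haU (h ▸ h1)
          · exact hu (h ▸ h1)
    · rw [if_neg hE, if_pos (by rw [Nat.even_add_one]; exact hE), hc_add]
      congr 1
      ext r
      simp only [Finset.mem_symmDiff, Finset.mem_insert, Finset.mem_singleton]
      constructor
      · rintro (⟨h1, h2⟩ | ⟨h1, h2⟩)
        · rcases h1 with h1 | h1
          · exact absurd (Or.inl h1) h2
          · exact Or.inl h1
        · rcases h1 with h1 | h1
          · exact absurd (Or.inl h1) h2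
          · exact Or.inr h1
      · rintro (h1 | h1)
        · refine Or.inl ⟨Or.inr h1, ?_⟩
          rintro (h | h)
          · exact hau (h.symm.trans h1)
          · exact hu (h1 ▸ h)
        · refine Or.inr ⟨Or.inr h1, ?_⟩
          rintro (h | h)
          · exact haU (h ▸ h1)
          · exact hu (h ▸ h1)

theorem g2_even_sum (a : R) {S : Finset R} (hS : Even S.card) : hc S = ∑ t ∈ S.erase a, (hc {a, t} : Ht R) := by
  rw [g2_sum a (S.erase a) (Finset.notMem_erase a S)]
  by_cases ha : a ∈ S
  · rw [if_neg, Finset.insert_erase ha]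
    rw [Finset.card_erase_of_mem ha]
    have h1 : 0 < S.card := Finset.card_pos.2 ⟨a, ha⟩
    rw [Nat.even_iff] at hS ⊢
    omega
  · rw [Finset.erase_eq_of_notMem ha, if_pos hS]

theorem g2_pair_mem {a t : R} (h : a ≠ t) : (hc {a, t} : Ht R) ∈ HtE R :=
  g2_hc_mem (by rw [Finset.card_pair h]; exact even_two)

/-- `dim HtE = n - 2` (`n` even; basis `{a, t}` with `|T| = n - 2`: they span all even sets). -/
theorem finrank_HtE (h : Even (Fintype.card R)) (h2 : 2 ≤ Fintype.card R) :
    Module.finrank (ZMod 2) (HtE R) = Fintype.card R - 2 := by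
  obtain ⟨a⟩ : Nonempty R := Fintype.card_pos_iff.1 (by omega)
  obtain ⟨b, hb⟩ : ∃ b : R, b ≠ a := by
    by_contra hcon
    push Not at hcon
    have h3 : Fintype.card R ≤ 1 := Fintype.card_le_one_iff.2 fun x y => (hcon x).trans (hcon y).symm
    omega
  set T : Finset R := (Finset.univ.erase a).erase b with hT
  have haT : a ∉ T := by
    rw [hT, Finset.mem_erase, Finset.mem_erase]
    exact fun h => h.2.1 rfl
  have hTcard : T.card = Fintype.card R - 2 := by
    rw [hT, Finset.card_erase_of_mem (Finset.mem_erase.2 ⟨hb, Finset.mem_univ b⟩),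
      Finset.card_erase_of_mem (Finset.mem_univ a), Finset.card_univ]
    omega
  have hli := pair_indep a T haT (by omega)
  have hspan : Submodule.span (ZMod 2) (Set.range (fun t : T => (hc {a, (t : R)} : Ht R))) = HtE R := by
    apply le_antisymm
    · rw [Submodule.span_le]
      rintro _ ⟨t, rfl⟩
      exact g2_pair_mem fun h => haT (h ▸ t.2)
    · have hmemT : ∀ t ∈ T, (hc {a, t} : Ht R) ∈
          Submodule.span (ZMod 2) (Set.range (fun t : T => (hc {a, (t : R)} : Ht R))) :=
        fun t ht => Submodule.subset_span ⟨⟨t, ht⟩, rfl⟩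
      have hb' : (hc {a, b} : Ht R) ∈
          Submodule.span (ZMod 2) (Set.range (fun t : T => (hc {a, (t : R)} : Ht R))) := by
        have h3 := g2_even_sum a (S := (Finset.univ : Finset R)) (by rw [Finset.card_univ]; exact h)
        rw [g2_univ, ← Finset.add_sum_erase _ _ (Finset.mem_erase.2 ⟨hb, Finset.mem_univ b⟩)] at h3
        have h4 : (hc {a, b} : Ht R) = ∑ t ∈ T, (hc {a, t} : Ht R) := by
          rw [← sub_eq_zero, g2_sub, hT]
          exact h3.symm
        rw [h4]
        exact Submodule.sum_mem _ hmemT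
      intro v hv
      obtain ⟨S, hS, rfl⟩ := g2_mem hv
      rw [g2_even_sum a hS]
      apply Submodule.sum_mem
      intro t ht
      by_cases htb : t = b
      · rw [htb]
        exact hb'
      · apply hmemT
        rw [hT, Finset.mem_erase, Finset.mem_erase]
        exact ⟨htb, (Finset.mem_erase.1 ht).1, Finset.mem_univ t⟩
  rw [← hspan, finrank_span_eq_card hli, Fintype.card_coe, hTcard]

theorem g2_cyc_a {a b c : R} (hd : Dis a b c) : cyc a b c a = b := by
  unfold cyc
  rw [Equiv.Perm.mul_apply, Equiv.swap_apply_of_ne_of_ne hd.1 hd.2.2, Equiv.swap_apply_left]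

theorem g2_cyc_b {a b c : R} (hd : Dis a b c) : cyc a b c b = c := by
  unfold cyc
  rw [Equiv.Perm.mul_apply, Equiv.swap_apply_left, Equiv.swap_apply_of_ne_of_ne hd.2.2.symm hd.2.1.symm]

theorem g2_cyc_c {a b c : R} : cyc a b c c = a := by
  unfold cyc
  rw [Equiv.Perm.mul_apply, Equiv.swap_apply_right, Equiv.swap_apply_right]

theorem g2_cyc_x {a b c x : R} (ha : x ≠ a) (hb : x ≠ b) (hc : x ≠ c) : cyc a b c x = x := by
  unfold cyc
  rw [Equiv.Perm.mul_apply, Equiv.swap_apply_of_ne_of_ne hb hc, Equiv.swap_apply_of_ne_of_ne ha hb]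

theorem g2_ex (h5 : 5 ≤ Fintype.card R) (x y z : R) : ∃ w : R, w ≠ x ∧ w ≠ y ∧ w ≠ z := by
  by_contra hcon
  push Not at hcon
  have h2 : (Finset.univ : Finset R) ⊆ {x, y, z} := by
    intro w _
    simp only [Finset.mem_insert, Finset.mem_singleton]
    by_contra h3
    push Not at h3
    exact h3.2.2 (hcon w h3.1 h3.2.1)
  have h3 := Finset.card_le_card h2
  rw [Finset.card_univ] at h3
  have h4 : ({x, y, z} : Finset R).card ≤ 3 := Finset.card_le_three
  omega

/-- A subspace of `HtE` stable under all 3-cycles is `0` or `HtE` (`n ≥ 5`, `n` even).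
Proof. Let `0 ≠ hc S ∈ M`, `|S|` even, `S ≠ ∅`, `S ≠ R` (`hc_eq`). Take `a ≠ c` in `S`, `b ∉ S`; `σ = cyc a b c` maps `S` to `(S \ {c}) ∪ {b}`, so
`hc S + htm σ (hc S) = hc {b, c} ∈ M`. With 3-cycles one gets `hc {x, y} ∈ M` for all `x ≠ y` (`cyc b x y'` …: the pairs are permuted transitively by
the 3-cycles, one point at a time: `cyc b x z`, `z ∉ {b, c, x}`, maps `{b, c}` to `{x, c}`), and these span `HtE`. -/
theorem irred (h : Even (Fintype.card R)) (h5 : 5 ≤ Fintype.card R) (M : Submodule (ZMod 2) (Ht R)) (hM : M ≤ HtE R)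
    (hst : ∀ a b c : R, Dis a b c → ∀ v ∈ M, htm (cyc a b c) v ∈ M) : M = ⊥ ∨ M = HtE R := by
  by_cases hbot : M = ⊥
  · exact Or.inl hbot
  right
  obtain ⟨v, hvM, hv0⟩ := (Submodule.ne_bot_iff M).1 hbot
  obtain ⟨S, hS, rfl⟩ := g2_mem (hM hvM)
  have hSne : S ≠ ∅ := by
    rintro rfl
    exact hv0 hc_empty
  have hSuniv : S ≠ Finset.univ := by
    rintro rfl
    exact hv0 g2_univ
  obtain ⟨b, hb⟩ : ∃ b : R, b ∉ S := by
    by_contra hcon
    push Not at hcon
    exact hSuniv (Finset.eq_univ_of_forall hcon)
  have hS1 : 1 < S.card := by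
    have h1 : 0 < S.card := Finset.card_pos.2 (Finset.nonempty_iff_ne_empty.2 hSne)
    rw [Nat.even_iff] at hS
    omega
  obtain ⟨a, ha, c, hcS, hac⟩ := Finset.one_lt_card.1 hS1
  have hab : a ≠ b := fun h => hb (h ▸ ha)
  have hcb : c ≠ b := fun h => hb (h ▸ hcS)
  have hd : Dis a b c := ⟨hab, hcb.symm, hac⟩
  have hpair : (hc {b, c} : Ht R) ∈ M := by
    have h1 := M.add_mem hvM (hst a b c hd _ hvM)
    rw [htm_hc, hc_add] at h1
    have h2 : symmDiff S (S.image (cyc a b c)) = {b, c} := by
      have himg : ∀ r : R, r ∈ S.image (cyc a b c) ↔ (r ≠ c ∧ (r ∈ S ∨ r = b)) := by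
        intro r
        rw [Finset.mem_image]
        constructor
        · rintro ⟨s, hs, rfl⟩
          by_cases hsa : s = a
          · rw [hsa, g2_cyc_a hd]
            exact ⟨hcb.symm, Or.inr rfl⟩
          · by_cases hsc : s = c
            · rw [hsc, g2_cyc_c]
              exact ⟨hac, Or.inl ha⟩
            · have hsb : s ≠ b := fun h => hb (h ▸ hs)
              rw [g2_cyc_x hsa hsb hsc]
              exact ⟨hsc, Or.inl hs⟩
        · rintro ⟨hrc, hr⟩
          rcases hr with hr | hr
          · by_cases hra : r = a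
            · exact ⟨c, hcS, by rw [g2_cyc_c, hra]⟩
            · have hrb : r ≠ b := fun h => hb (h ▸ hr)
              exact ⟨r, hr, g2_cyc_x hra hrb hrc⟩
          · exact ⟨a, ha, by rw [g2_cyc_a hd, hr]⟩
      ext r
      rw [Finset.mem_symmDiff, himg, Finset.mem_insert, Finset.mem_singleton]
      constructor
      · rintro (⟨h3, h4⟩ | ⟨⟨h3, h4⟩, h5⟩)
        · right
          by_contra h5
          exact h4 ⟨h5, Or.inl h3⟩
        · left
          rcases h4 with h4 | h4
          · exact absurd h4 h5
          · exact h4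
      · rintro (h3 | h3)
        · right
          rw [h3]
          exact ⟨⟨hcb.symm, Or.inr rfl⟩, hb⟩
        · left
          rw [h3]
          exact ⟨hcS, fun h4 => h4.1 rfl⟩
    rwa [h2] at h1
  have hmove : ∀ x y z : R, x ≠ y → z ≠ y → (hc {x, y} : Ht R) ∈ M → (hc {z, y} : Ht R) ∈ M := by
    intro x y z hxy hzy hm
    by_cases hxz : x = z
    · rwa [← hxz]
    obtain ⟨w, hw1, hw2, hw3⟩ := g2_ex h5 x y z
    have hd' : Dis x z w := ⟨hxz, hw3.symm, hw1.symm⟩
    have h1 := hst x z w hd' _ hm
    rw [htm_hc, Finset.image_insert, Finset.image_singleton, g2_cyc_a hd',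
      g2_cyc_x hxy.symm hzy.symm hw2.symm] at h1
    exact h1
  have hcomm : ∀ x y : R, (hc {x, y} : Ht R) = hc {y, x} := fun x y => by rw [Finset.pair_comm]
  have hall : ∀ x y : R, x ≠ y → (hc {x, y} : Ht R) ∈ M := by
    intro x y hxy
    by_cases hyb : y = b
    · rw [hyb]
      apply hmove c b x hcb (hyb ▸ hxy)
      rw [hcomm]
      exact hpair
    · apply hmove b y x (fun h => hyb h.symm) hxy
      rw [hcomm]
      apply hmove c b y hcb hyb
      rw [hcomm]
      exact hpair
  apply le_antisymm hM
  intro w hw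
  obtain ⟨U, hU, rfl⟩ := g2_mem hw
  rw [g2_even_sum b hU]
  apply Submodule.sum_mem
  intro t ht
  exact hall b t (Finset.mem_erase.1 ht).1.symm

/-- A permutation acting trivially on `HtE` is the identity (`n ≥ 5`): if `σ a ≠ a` choose `c ∉ {a, σ a}`; then `σ{a,c} = {a,c}` (the complement
has at least three elements), so `σ a = c`, contradiction. -/
theorem faithful (h : Even (Fintype.card R)) (h5 : 5 ≤ Fintype.card R) (σ : Equiv.Perm R) (hσ : ∀ v ∈ HtE R, htm σ v = v) : σ = 1 := by
  ext a
  by_contra hne
  have hne' : σ a ≠ a := fun h1 => hne (by rw [h1]; rfl)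
  obtain ⟨c, hc1, hc2, _⟩ := g2_ex h5 a (σ a) a
  have h1 := hσ _ (g2_pair_mem (R := R) hc1.symm)
  rw [htm_hc, hc_eq] at h1
  rcases h1 with h1 | h1
  · have h2 : σ a ∈ ({a, c} : Finset R) := by
      rw [← h1]
      exact Finset.mem_image_of_mem _ (Finset.mem_insert_self _ _)
    rw [Finset.mem_insert, Finset.mem_singleton] at h2
    rcases h2 with h2 | h2
    · exact hne' h2
    · exact hc2 h2.symm
  · have h2 := congrArg Finset.card h1
    rw [Finset.card_image_of_injective _ σ.injective, Finset.card_compl, Finset.card_pair hc1.symm] at h2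
    rw [Nat.even_iff] at h
    omega

/-- the moved space of a 3-cycle is contained in the span of `{a,b}`, `{a,c}`: `S Δ σS` is an even subset of `{a, b, c}` -/
theorem moved (h : Even (Fintype.card R)) {a b c : R} (hd : Dis a b c) {v : Ht R} (hv : v ∈ HtE R) :
    htm (cyc a b c) v - v ∈ Submodule.span (ZMod 2) {(hc {a, b} : Ht R), hc {a, c}} := by
  obtain ⟨S, hS, rfl⟩ := g2_mem hv
  rw [htm_hc, g2_sub, hc_add]
  set D : Finset R := symmDiff (S.image (cyc a b c)) S with hD
  have hDe : Even D.card := by
    apply g2_even_symmDiff _ hS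
    rwa [Finset.card_image_of_injective S (cyc a b c).injective]
  have hDs : ∀ r ∈ D, r = a ∨ r = b ∨ r = c := by
    intro r hr
    by_contra hcon
    push Not at hcon
    obtain ⟨h1, h2, h3⟩ := hcon
    have h4 : r ∈ S.image (cyc a b c) ↔ r ∈ S := by
      rw [Finset.mem_image]
      constructor
      · rintro ⟨s, hs, hsr⟩
        have h5 : s = r := (cyc a b c).injective (hsr.trans (g2_cyc_x h1 h2 h3).symm)
        rwa [← h5]
      · intro h5
        exact ⟨r, h5, g2_cyc_x h1 h2 h3⟩
    rw [hD, Finset.mem_symmDiff, h4] at hr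
    rcases hr with hr | hr
    · exact hr.2 hr.1
    · exact hr.2 hr.1
  rw [g2_even_sum a hDe]
  apply Submodule.sum_mem
  intro t ht
  rw [Finset.mem_erase] at ht
  rcases hDs t ht.2 with h1 | h1 | h1
  · exact absurd h1 ht.1
  · rw [h1]
    exact Submodule.subset_span (Set.mem_insert _ _)
  · rw [h1]
    exact Submodule.subset_span (Set.mem_insert_of_mem _ rfl)

/-- An even class fixed by a permutation `σ` with exactly one fixed point acting transitively on the other points is `0`: if `hc S` is fixed then
`σS = S` or `σS = Sᶜ`; the second is impossible because of the fixed point; in the first case `S` is `∅`, `{x₀}`, `R \ {x₀}` or `R`, and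
`|S|`, `n` are even. -/
theorem fixed_zero (h : Even (Fintype.card R)) (σ : Equiv.Perm R) (x0 : R) (h0 : σ x0 = x0)
    (htr : ∀ x y : R, x ≠ x0 → y ≠ x0 → ∃ k : ℕ, (σ ^ k) x = y) {v : Ht R} (hv : v ∈ HtE R) (hf : htm σ v = v) : v = 0 := by
  obtain ⟨S, hS, rfl⟩ := g2_mem hv
  rw [htm_hc, hc_eq] at hf
  have hf1 : S.image σ = S := by
    rcases hf with hf | hf
    · exact hf
    · exfalso
      by_cases hx : x0 ∈ S
      · have h1 : x0 ∈ S.image σ := Finset.mem_image.2 ⟨x0, hx, h0⟩
        rw [hf, Finset.mem_compl] at h1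
        exact h1 hx
      · have h1 : x0 ∈ S.image σ := by
          rw [hf, Finset.mem_compl]
          exact hx
        obtain ⟨y, hy, hyx⟩ := Finset.mem_image.1 h1
        have h2 : y = x0 := σ.injective (hyx.trans h0.symm)
        exact hx (h2 ▸ hy)
  have hpow : ∀ (k : ℕ) (x : R), x ∈ S → (σ ^ k) x ∈ S := by
    intro k
    induction k with
    | zero =>
      intro x hx
      simpa using hx
    | succ k ih =>
      intro x hx
      rw [pow_succ, Equiv.Perm.mul_apply]
      apply ih
      rw [← hf1]
      exact Finset.mem_image_of_mem _ hx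
  by_cases hex : ∃ x ∈ S, x ≠ x0
  · obtain ⟨x, hx, hxx⟩ := hex
    have hall : ∀ y : R, y ≠ x0 → y ∈ S := by
      intro y hy
      obtain ⟨k, hk⟩ := htr x y hxx hy
      rw [← hk]
      exact hpow k x hx
    by_cases hx0 : x0 ∈ S
    · have h1 : S = Finset.univ := by
        apply Finset.eq_univ_of_forall
        intro y
        by_cases hy : y = x0
        · rwa [hy]
        · exact hall y hy
      rw [h1]
      exact g2_univ
    · exfalso
      have h1 : S = Finset.univ.erase x0 := by
        ext y
        rw [Finset.mem_erase]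
        constructor
        · intro hy
          exact ⟨fun h2 => hx0 (h2 ▸ hy), Finset.mem_univ y⟩
        · intro hy
          exact hall y hy.1
      have h2 := hS
      rw [h1, Finset.card_erase_of_mem (Finset.mem_univ x0), Finset.card_univ] at h2
      have h3 : 0 < Fintype.card R := Fintype.card_pos_iff.2 ⟨x0⟩
      rw [Nat.even_iff] at h h2
      omega
  · push Not at hex
    by_cases hx0 : x0 ∈ S
    · exfalso
      have h1 : S = {x0} := by
        ext y
        rw [Finset.mem_singleton]
        exact ⟨hex y, fun h2 => h2 ▸ hx0⟩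
      rw [h1, Finset.card_singleton] at hS
      exact Nat.not_even_one hS
    · have h1 : S = ∅ := by
        rw [Finset.eq_empty_iff_forall_notMem]
        intro y hy
        exact hx0 ((hex y hy) ▸ hy)
      rw [h1]
      exact hc_empty

end TE
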