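import Mathlib

set_option autoImplicit false

open scoped Classical

namespace TE

/-! ## [TE-G3] commuting idempotents permuted by 3-cycles (only Mathlib) -/

section helpers

variable {M : Type*} [AddCommGroup M] [Module (ZMod 2) M]

/-- conjugation -/
def g3_cj (s : M ≃ₗ[ZMod 2] M) (f : Module.End (ZMod 2) M) : Module.End (ZMod 2) M :=
  (s : Module.End (ZMod 2) M) * f * ((s.symm : M ≃ₗ[ZMod 2] M) : Module.End (ZMod 2) M)

theorem g3_cj_apply (s : M ≃ₗ[ZMod 2] M) (f : Module.End (ZMod 2) M) (x : M) :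
    g3_cj s f x = s (f (s.symm x)) := rfl

theorem g3_cj_mul (s : M ≃ₗ[ZMod 2] M) (f g : Module.End (ZMod 2) M) :
    g3_cj s (f * g) = g3_cj s f * g3_cj s g := by
  ext x
  rw [Module.End.mul_apply, g3_cj_apply, g3_cj_apply, g3_cj_apply, s.symm_apply_apply]
  rfl

theorem g3_cj_one (s : M ≃ₗ[ZMod 2] M) : g3_cj s 1 = 1 := by
  ext x
  rw [g3_cj_apply]
  exact s.apply_symm_apply x

theorem g3_cj_one_sub (s : M ≃ₗ[ZMod 2] M) (f : Module.End (ZMod 2) M) :
    g3_cj s (1 - f) = 1 - g3_cj s f := by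
  ext x
  rw [g3_cj_apply, LinearMap.sub_apply, LinearMap.sub_apply, g3_cj_apply, map_sub]
  rw [Module.End.one_apply, Module.End.one_apply, s.apply_symm_apply]

theorem g3_cj_inj (s : M ≃ₗ[ZMod 2] M) {f g : Module.End (ZMod 2) M} (h : g3_cj s f = g3_cj s g) :
    f = g := by
  ext x
  have h1 := LinearMap.congr_fun h (s x)
  rw [g3_cj_apply, g3_cj_apply, s.symm_apply_apply] at h1
  exact s.injective h1

theorem g3_cj_cube {s : M ≃ₗ[ZMod 2] M} (hs : ∀ x, s (s (s x)) = x) (f : Module.End (ZMod 2) M) :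
    g3_cj s (g3_cj s (g3_cj s f)) = f := by
  ext x
  rw [g3_cj_apply, g3_cj_apply, g3_cj_apply, hs]
  congr 1
  rw [← hs (s.symm (s.symm (s.symm x))), s.apply_symm_apply, s.apply_symm_apply,
    s.apply_symm_apply]

theorem g3_cj_ne_zero (s : M ≃ₗ[ZMod 2] M) {f : Module.End (ZMod 2) M} (h : f ≠ 0) :
    g3_cj s f ≠ 0 := by
  intro h1
  apply h
  apply g3_cj_inj s
  rw [h1]
  ext x
  rw [g3_cj_apply]
  simp

theorem g3_cj_rank (s : M ≃ₗ[ZMod 2] M) (f : Module.End (ZMod 2) M) :
    Module.finrank (ZMod 2) (LinearMap.range (g3_cj s f)) =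
      Module.finrank (ZMod 2) (LinearMap.range f) := by
  have h1 : LinearMap.range (g3_cj s f) = (LinearMap.range f).map (s : M →ₗ[ZMod 2] M) := by
    ext y
    constructor
    · rintro ⟨x, rfl⟩
      exact ⟨f (s.symm x), ⟨_, rfl⟩, rfl⟩
    · rintro ⟨_, ⟨x, rfl⟩, rfl⟩
      refine ⟨s x, ?_⟩
      rw [g3_cj_apply, s.symm_apply_apply]
      rfl
  rw [h1]
  exact LinearEquiv.finrank_map_eq s _

/-- idempotents fix their image -/
theorem g3_fix {f : Module.End (ZMod 2) M} (h : f * f = f) {x : M} (hx : x ∈ LinearMap.range f) :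
    f x = x := by
  obtain ⟨y, rfl⟩ := hx
  exact LinearMap.congr_fun h y

theorem g3_top {f : Module.End (ZMod 2) M} (h : f * f = f) (hr : LinearMap.range f = ⊤) : f = 1 := by
  ext x
  exact g3_fix h (hr ▸ Submodule.mem_top)

end helpers

/-- Let `M` be a finite `F₂`-vector space of dimension `≥ 2` and `𝒮` a set of linear automorphisms with `s³ = 1` and moved space
`(s - 1)M` of dimension `≤ 2`, such that the only subspaces stable under all `s ∈ 𝒮` are `0` and `M`. Let `𝓔` be a set of pairwise commuting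
idempotents of `End(M)` with `s f s⁻¹ ∈ 𝓔` for `f ∈ 𝓔`, `s ∈ 𝒮`. Then every `f ∈ 𝓔` is `0` or `1`.

Proof. Let `Γ` be the (finite) group generated by `𝒮`; `𝓔` is stable under conjugation by `Γ`. Let `𝒜` be the set of all finite products of
elements of `𝓔 ∪ {1 - f : f ∈ 𝓔}`: commuting idempotents, closed under products and under conjugation by `Γ` (e.g. the submonoid closure). `1 ∈ 𝒜`.
Choose `e ∈ 𝒜`, `e ≠ 0`, with `dim e(M)` minimal. For `g ∈ Γ` put `e^g = g e g⁻¹`. (1) For `g, g' ∈ Γ`: `e^g = e^g'` or `e^g e^g' = 0`: if the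
product (in `𝒜`, image = intersection of the images) is not `0`, its image has dimension `≥ dim e(M)`, so both images coincide, and commuting
idempotents with the same image are equal. (2) Let `O = {e^g}` (finite set) and `t = ∑_{e' ∈ O} e'`: it commutes with `Γ`, its image is a nonzero
stable subspace (`e t = e`), so the image is `M`; `t` is idempotent, so `t = 1`.
(3) Case `O = {e}`: then `e = t = 1`, so every nonzero element of `𝒜` has rank `dim M`, i.e. is `1`; for `f ∈ 𝓔`: `f ∈ 𝒜` is `0` or `1`. Done.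
(4) Case `O ≠ {e}`: then some `s ∈ 𝒮` and `e' ∈ O` have `s e' s⁻¹ ≠ e'` (otherwise all of `Γ` fixes `e`). Replace `e` by `e'`. `e`, `e^s`, `e^{s²}` are
pairwise different (`s³ = 1`), so orthogonal. For `v ∈ e(M)`: `s v ∈ e^s(M)`, `s² v ∈ e^{s²}(M)`; the map `e(M) × e(M) → (s - 1)M`,
`(v, w) ↦ (s v - v) + (s² w - s w)` is injective (apply `e`: `v = 0`; apply `e^{s²}`: `s² w = 0`). So `2 dim e(M) ≤ 2`, `dim e(M) = 1`, and every
`e' ∈ O` has `e'(M) = {0, v_{e'}}` with a unique nonzero `v_{e'}`; `g v_{e'} = v_{g e' g⁻¹}` for `g ∈ Γ`. So `v = ∑_{e' ∈ O} v_{e'}` is fixed by `Γ` and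
`e v = v_e ≠ 0`. The line `{0, v}` is a nonzero stable subspace, so `M = {0, v}`, against `dim M ≥ 2`. -/
theorem idem_trivial {M : Type*} [AddCommGroup M] [Module (ZMod 2) M] [Finite M] (hdim : 2 ≤ Module.finrank (ZMod 2) M)
    (S : Set (M ≃ₗ[ZMod 2] M)) (hcube : ∀ s ∈ S, ∀ x, s (s (s x)) = x)
    (hmov : ∀ s ∈ S, Module.finrank (ZMod 2) (LinearMap.range ((s : M →ₗ[ZMod 2] M) - LinearMap.id)) ≤ 2)
    (hirr : ∀ N : Submodule (ZMod 2) M, (∀ s ∈ S, ∀ x ∈ N, s x ∈ N) → N = ⊥ ∨ N = ⊤)
    (E : Set (Module.End (ZMod 2) M)) (hid : ∀ f ∈ E, f * f = f) (hcomm : ∀ f ∈ E, ∀ f' ∈ E, f * f' = f' * f)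
    (hconj : ∀ f ∈ E, ∀ s ∈ S, (s : Module.End (ZMod 2) M) * f * ((s.symm : M ≃ₗ[ZMod 2] M) : Module.End (ZMod 2) M) ∈ E) :
    ∀ f ∈ E, f = 0 ∨ f = 1 := by
  classical
  have : Module.Finite (ZMod 2) M := Module.Finite.of_finite
  have : Finite (Module.End (ZMod 2) M) := Module.finite_of_finite (ZMod 2)
  -- the monoid of products
  obtain ⟨A, hA⟩ : ∃ A : Submonoid (Module.End (ZMod 2) M),
      A = Submonoid.closure (E ∪ {g | ∃ f ∈ E, g = 1 - f}) := ⟨_, rfl⟩
  have hBcomm : ∀ f ∈ E ∪ {g | ∃ f ∈ E, g = 1 - f}, ∀ f' ∈ E ∪ {g | ∃ f ∈ E, g = 1 - f},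
      f * f' = f' * f := by
    rintro f (hf | ⟨f1, hf, rfl⟩) f' (hf' | ⟨f2, hf', rfl⟩)
    · exact hcomm f hf f' hf'
    · rw [mul_sub, sub_mul, mul_one, one_mul, hcomm f hf f2 hf']
    · rw [mul_sub, sub_mul, mul_one, one_mul, hcomm f1 hf f' hf']
    · have := hcomm f1 hf f2 hf'
      simp only [mul_sub, sub_mul, mul_one, one_mul, this]
      abel
  have hAcomm : ∀ a ∈ A, ∀ b ∈ A, a * b = b * a := by
    have h1 : ∀ b ∈ E ∪ {g | ∃ f ∈ E, g = 1 - f}, ∀ a ∈ A, a * b = b * a := by
      intro b hb a ha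
      rw [hA] at ha
      induction ha using Submonoid.closure_induction with
      | mem x hx => exact hBcomm x hx b hb
      | one => rw [one_mul, mul_one]
      | mul x y _ _ hx hy => rw [mul_assoc, hy, ← mul_assoc, hx, mul_assoc]
    intro a ha b hb
    rw [hA] at hb
    induction hb using Submonoid.closure_induction with
    | mem x hx => exact h1 x hx a ha
    | one => rw [one_mul, mul_one]
    | mul x y _ _ hx hy => rw [← mul_assoc, hx, mul_assoc, hy, mul_assoc]
  have hAid : ∀ a ∈ A, a * a = a := by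
    intro a ha
    rw [hA] at ha
    induction ha using Submonoid.closure_induction with
    | mem x hx =>
      rcases hx with hx | ⟨f, hf, rfl⟩
      · exact hid x hx
      · simp only [mul_sub, sub_mul, mul_one, one_mul, hid f hf]
        abel
    | one => rw [one_mul]
    | mul x y hx' hy' hx hy =>
      have h1 : y * x = x * y := hAcomm y (by rw [hA]; exact hy') x (by rw [hA]; exact hx')
      calc x * y * (x * y) = x * (y * x) * y := by simp only [mul_assoc]
        _ = (x * x) * (y * y) := by rw [h1]; simp only [mul_assoc]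
        _ = x * y := by rw [hx, hy]
  have hAconj : ∀ a ∈ A, ∀ s ∈ S, g3_cj s a ∈ A := by
    intro a ha s hs
    rw [hA] at ha
    induction ha using Submonoid.closure_induction with
    | mem x hx =>
      rw [hA]
      apply Submonoid.subset_closure
      rcases hx with hx | ⟨f, hf, rfl⟩
      · exact Or.inl (hconj x hx s hs)
      · exact Or.inr ⟨_, hconj f hf s hs, g3_cj_one_sub s f⟩
    | one => rw [g3_cj_one]; exact A.one_mem
    | mul x y _ _ hx hy => rw [g3_cj_mul]; exact A.mul_mem hx hy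
  have hEA : ∀ f ∈ E, f ∈ A := fun f hf => by
    rw [hA]
    exact Submonoid.subset_closure (Or.inl hf)
  have hnt : Nontrivial M := by
    apply Module.nontrivial_of_finrank_pos (R := ZMod 2)
    omega
  have h10 : (1 : Module.End (ZMod 2) M) ≠ 0 := one_ne_zero
  -- minimal rank
  obtain ⟨d, hd1, hd2⟩ : ∃ d : ℕ, (∃ a ∈ A, a ≠ 0 ∧ Module.finrank (ZMod 2) (LinearMap.range a) = d) ∧
      ∀ a ∈ A, a ≠ 0 → d ≤ Module.finrank (ZMod 2) (LinearMap.range a) := by
    have hex : ∃ d : ℕ, ∃ a ∈ A, a ≠ 0 ∧ Module.finrank (ZMod 2) (LinearMap.range a) = d :=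
      ⟨_, 1, A.one_mem, h10, rfl⟩
    exact ⟨Nat.find hex, Nat.find_spec hex, fun a ha h0 => Nat.find_min' hex ⟨a, ha, h0, rfl⟩⟩
  -- if `d` is the dimension of `M` we are done
  have hdone : d = Module.finrank (ZMod 2) M → ∀ f ∈ E, f = 0 ∨ f = 1 := by
    intro hd f hf
    by_cases h0 : f = 0
    · exact Or.inl h0
    · right
      apply g3_top (hid f hf)
      apply Submodule.eq_top_of_finrank_eq
      apply le_antisymm (Submodule.finrank_le _)
      rw [← hd]
      exact hd2 f (hEA f hf) h0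
  obtain ⟨O, hO⟩ : ∃ O : Finset (Module.End (ZMod 2) M), ∀ a, a ∈ O ↔
      (a ∈ A ∧ a ≠ 0 ∧ Module.finrank (ZMod 2) (LinearMap.range a) = d) :=
    ⟨(Set.toFinite {a | a ∈ A ∧ a ≠ 0 ∧ Module.finrank (ZMod 2) (LinearMap.range a) = d}).toFinset,
      fun a => by rw [Set.Finite.mem_toFinset]; rfl⟩
  have hOid : ∀ a ∈ O, a * a = a := fun a ha => hAid a ((hO a).1 ha).1
  have hOcj : ∀ s ∈ S, ∀ a ∈ O, g3_cj s a ∈ O := by
    intro s hs a ha
    have h1 := (hO a).1 ha
    exact (hO _).2 ⟨hAconj a h1.1 s hs, g3_cj_ne_zero s h1.2.1, by rw [g3_cj_rank, h1.2.2]⟩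
  have hOorth : ∀ a ∈ O, ∀ b ∈ O, a ≠ b → a * b = 0 := by
    intro a ha b hb hab
    by_contra h0
    apply hab
    have ha' := (hO a).1 ha
    have hb' := (hO b).1 hb
    have hcm := hAcomm a ha'.1 b hb'.1
    have hr := hd2 (a * b) (A.mul_mem ha'.1 hb'.1) h0
    have hle1 : LinearMap.range (a * b) ≤ LinearMap.range a := by
      rintro _ ⟨x, rfl⟩
      exact ⟨b x, rfl⟩
    have hle2 : LinearMap.range (a * b) ≤ LinearMap.range b := by
      rw [hcm]
      rintro _ ⟨x, rfl⟩
      exact ⟨a x, rfl⟩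
    have he1 : LinearMap.range (a * b) = LinearMap.range a :=
      Submodule.eq_of_le_of_finrank_le hle1 (by rw [ha'.2.2]; exact hr)
    have he2 : LinearMap.range (a * b) = LinearMap.range b :=
      Submodule.eq_of_le_of_finrank_le hle2 (by rw [hb'.2.2]; exact hr)
    have hab1 : a * b = b := by
      ext x
      apply g3_fix (hAid a ha'.1)
      rw [← he1, he2]
      exact ⟨x, rfl⟩
    have hab2 : b * a = a := by
      ext x
      apply g3_fix (hAid b hb'.1)
      rw [← he2, he1]
      exact ⟨x, rfl⟩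
    rw [← hab2, ← hcm, hab1]
  by_cases hall : ∀ s ∈ S, ∀ a ∈ O, g3_cj s a = a
  · apply hdone
    obtain ⟨a, haA, ha0, had⟩ := hd1
    have haO : a ∈ O := (hO a).2 ⟨haA, ha0, had⟩
    rcases hirr (LinearMap.range a) (by
      rintro s hs _ ⟨x, rfl⟩
      refine ⟨s x, ?_⟩
      have h1 := LinearMap.congr_fun (hall s hs a haO) (s x)
      rw [g3_cj_apply, s.symm_apply_apply] at h1
      exact h1.symm) with h | h
    · exact absurd (LinearMap.range_eq_bot.1 h) ha0
    · rw [← had, h, finrank_top]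
  exfalso
  push Not at hall
  obtain ⟨s, hs, e, heO, hse⟩ := hall
  have heA := ((hO e).1 heO).1
  have he0 := ((hO e).1 heO).2.1
  have hed := ((hO e).1 heO).2.2
  have hcu := hcube s hs
  have he1O := hOcj s hs e heO
  have he2O := hOcj s hs _ he1O
  have hse2 : g3_cj s (g3_cj s e) ≠ e := by
    intro h
    apply hse
    have h1 := congrArg (g3_cj s) h
    rw [g3_cj_cube hcu] at h1
    exact h1.symm
  have ho1 : e * g3_cj s e = 0 := hOorth e heO _ he1O (Ne.symm hse)
  have ho2 : e * g3_cj s (g3_cj s e) = 0 := hOorth e heO _ he2O (Ne.symm hse2)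
  have hv1 : ∀ v ∈ LinearMap.range e, e (s v) = 0 := by
    intro v hv
    have h1 := LinearMap.congr_fun ho1 (s v)
    rw [Module.End.mul_apply, g3_cj_apply, s.symm_apply_apply, g3_fix (hOid e heO) hv] at h1
    exact h1
  have hv2 : ∀ v ∈ LinearMap.range e, e (s (s v)) = 0 := by
    intro v hv
    have h1 := LinearMap.congr_fun ho2 (s (s v))
    rw [Module.End.mul_apply, g3_cj_apply, s.symm_apply_apply, g3_cj_apply, s.symm_apply_apply,
      g3_fix (hOid e heO) hv] at h1
    exact h1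
  -- `d = 1`
  have hd : d = 1 := by
    have hdpos : 0 < d := by
      rw [← hed]
      apply Nat.pos_of_ne_zero
      intro h
      exact he0 (LinearMap.range_eq_bot.1 (Submodule.finrank_eq_zero.1 h))
    obtain ⟨φ, hφ⟩ : ∃ φ : (LinearMap.range e × LinearMap.range e) →ₗ[ZMod 2]
        LinearMap.range ((s : M →ₗ[ZMod 2] M) - LinearMap.id), ∀ p,
        ((φ p : M)) = (s p.1 - p.1) + (s (s p.2) - s p.2) := by
      refine ⟨LinearMap.codRestrict _
        ((((s : M →ₗ[ZMod 2] M) - LinearMap.id).comp (LinearMap.range e).subtype).comp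
          (LinearMap.fst _ _ _) +
        (((s : M →ₗ[ZMod 2] M) - LinearMap.id).comp ((s : M →ₗ[ZMod 2] M).comp
          (LinearMap.range e).subtype)).comp (LinearMap.snd _ _ _)) ?_, fun p => rfl⟩
      intro p
      exact Submodule.add_mem _ ⟨(p.1 : M), rfl⟩ ⟨s (p.2 : M), rfl⟩
    have hinj : Function.Injective φ := by
      rw [← LinearMap.ker_eq_bot, LinearMap.ker_eq_bot']
      rintro ⟨v, w⟩ hp
      have h1 := hφ (v, w)
      rw [hp] at h1
      simp only [ZeroMemClass.coe_zero] at h1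
      have hvr : (v : M) ∈ LinearMap.range e := v.2
      have hwr : (w : M) ∈ LinearMap.range e := w.2
      have h2 := congrArg e h1
      rw [map_zero, map_add, map_sub, map_sub, hv1 _ hvr, hv1 _ hwr, hv2 _ hwr,
        g3_fix (hOid e heO) hvr] at h2
      have hv0 : (v : M) = 0 := by
        rw [sub_zero, add_zero, zero_sub] at h2
        exact neg_eq_zero.1 h2.symm
      rw [hv0, map_zero, sub_zero, zero_add, ← map_sub] at h1
      have h3 : s (w : M) - w = 0 := by
        apply s.injective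
        rw [map_zero]
        exact h1.symm
      have h4 := congrArg e h3
      rw [map_zero, map_sub, hv1 _ hwr, g3_fix (hOid e heO) hwr, zero_sub, neg_eq_zero] at h4
      exact Prod.ext (Subtype.ext hv0) (Subtype.ext h4)
    have h1 := LinearMap.finrank_le_finrank_of_injective hinj
    rw [Module.finrank_prod, hed] at h1
    have h2 := hmov s hs
    omega
  -- the nonzero vectors of the images
  have hw : ∀ a ∈ O, ∃ w : M, w ≠ 0 ∧ w ∈ LinearMap.range a ∧ ∀ u ∈ LinearMap.range a, u = 0 ∨ u = w := by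
    intro a ha
    have h1 : Module.finrank (ZMod 2) (LinearMap.range a) = 1 := by rw [((hO a).1 ha).2.2, hd]
    obtain ⟨w, hw0, hw⟩ := finrank_eq_one_iff'.1 h1
    refine ⟨w, fun h => hw0 (Subtype.ext h), w.2, ?_⟩
    intro u hu
    obtain ⟨c, hc⟩ := hw ⟨u, hu⟩
    have h2 : c = 0 ∨ c = 1 := by
      revert c
      intro c _
      fin_cases c
      · exact Or.inl rfl
      · exact Or.inr rfl
    rcases h2 with rfl | rfl
    · left
      rw [zero_smul] at hc
      exact (congrArg Subtype.val hc).symm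
    · right
      rw [one_smul] at hc
      exact (congrArg Subtype.val hc).symm
  choose! w hw0 hwr hwu using hw
  have hsw : ∀ s ∈ S, ∀ a ∈ O, s (w a) = w (g3_cj s a) := by
    intro s hs a ha
    have h1 : s (w a) ∈ LinearMap.range (g3_cj s a) := by
      obtain ⟨x, hx⟩ := hwr a ha
      refine ⟨s x, ?_⟩
      rw [g3_cj_apply, s.symm_apply_apply, hx]
    rcases hwu _ (hOcj s hs a ha) _ h1 with h2 | h2
    · exfalso
      apply hw0 a ha
      apply s.injective
      rw [h2, map_zero]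
    · exact h2
  have hsum : ∀ s ∈ S, s (∑ a ∈ O, w a) = ∑ a ∈ O, w a := by
    intro s hs
    rw [map_sum]
    apply Finset.sum_bij (fun a _ => g3_cj s a)
    · intro a ha
      exact hOcj s hs a ha
    · intro a _ b _ hab
      exact g3_cj_inj s hab
    · intro b hb
      refine ⟨g3_cj s (g3_cj s b), hOcj s hs _ (hOcj s hs _ hb), ?_⟩
      exact g3_cj_cube (hcube s hs) b
    · intro a ha
      exact hsw s hs a ha
  have hesum : e (∑ a ∈ O, w a) = w e := by
    rw [map_sum, Finset.sum_eq_single e]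
    · exact g3_fix (hOid e heO) (hwr e heO)
    · intro a ha hae
      obtain ⟨x, hx⟩ := hwr a ha
      rw [← hx]
      exact LinearMap.congr_fun (hOorth e heO a ha (Ne.symm hae)) x
    · intro h
      exact absurd heO h
  have hsum0 : ∑ a ∈ O, w a ≠ 0 := by
    intro h
    rw [h, map_zero] at hesum
    exact hw0 e heO hesum.symm
  rcases hirr (Submodule.span (ZMod 2) {∑ a ∈ O, w a}) (by
    intro s hs x hx
    obtain ⟨c, rfl⟩ := Submodule.mem_span_singleton.1 hx
    rw [map_smul, hsum s hs]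
    exact hx) with h | h
  · exact hsum0 (Submodule.span_singleton_eq_bot.1 h)
  · have h1 : Module.finrank (ZMod 2) M = 1 := by
      rw [← finrank_top (ZMod 2) M, ← h]
      exact finrank_span_singleton hsum0
    omega

end TE
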