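import Pool.Agent.TE.G1
import Pool.Agent.TE.G2
import Pool.Agent.TE.G3

set_option autoImplicit false

open scoped Classical

namespace TE

/-! ## [TE-G4] the kernel of `G → Perm R` acts by `± 1` -/

variable {G R L : Type*} [Group G] [Finite G] [MulAction G R] [Fintype R] [AddCommGroup L] [Module ℤ_[2] L]
  [Module.Finite ℤ_[2] L] [Module.Free ℤ_[2] L]

theorem g4_div (u : Module.End ℤ_[2] L) (h : ∀ x, ∃ y, u x = (2 : ℤ_[2]) • y) :
    ∃ v : Module.End ℤ_[2] L, u = (2 : ℤ_[2]) • v := by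
  choose y hy using h
  let b := Module.Free.chooseBasis ℤ_[2] L
  refine ⟨b.constr ℤ_[2] (fun i => y (b i)), b.ext fun i => ?_⟩
  rw [LinearMap.smul_apply, Module.Basis.constr_basis, ← hy]

theorem g4_tf {x y : L} (h : (2 : ℤ_[2]) • x = (2 : ℤ_[2]) • y) : x = y :=
  smul_right_injective L (two_ne_zero : (2 : ℤ_[2]) ≠ 0) h

theorem g4_end_tf {u v : Module.End ℤ_[2] L} (h : (2 : ℤ_[2]) • u = (2 : ℤ_[2]) • v) : u = v := by
  ext x
  apply g4_tf
  have := LinearMap.congr_fun h x
  simpa using this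

omit [Finite G] [Module.Finite ℤ_[2] L] [Module.Free ℤ_[2] L] in
theorem g4_j_two (D : PTD G R L) (x : L) : D.j ((2 : ℤ_[2]) • x) = 0 := (D.ker _).2 ⟨x, rfl⟩

omit [Finite G] [Module.Finite ℤ_[2] L] [Module.Free ℤ_[2] L] in
theorem g4_add_self (D : PTD G R L) (x : L) : D.j x + D.j x = 0 := by
  rw [← map_add, ← two_smul ℤ_[2] x, g4_j_two]

omit [Finite G] [Module.Finite ℤ_[2] L] [Module.Free ℤ_[2] L] in
theorem g4_j_eq (D : PTD G R L) {x y : L} (h : D.j x = D.j y) (u : Module.End ℤ_[2] L) :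
    D.j (u x) = D.j (u y) := by
  have h1 : D.j (x - y) = 0 := by rw [map_sub, h, sub_self]
  obtain ⟨z, hz⟩ := (D.ker _).1 h1
  have h2 : D.j (u (x - y)) = 0 := by
    rw [hz, map_smul, g4_j_two]
  rw [map_sub, map_sub] at h2
  exact sub_eq_zero.1 h2

omit [Finite G] [Module.Finite ℤ_[2] L] [Module.Free ℤ_[2] L] in
theorem g4_j_smul (D : PTD G R L) (c : ℤ_[2]) (y : L) : D.j (c • y) = (PadicInt.toZMod c) • D.j y := by
  obtain ⟨n, hn, hc⟩ := PadicInt.exists_mem_range (p := 2) c
  rw [PadicInt.maximalIdeal_eq_span_p, Ideal.mem_span_singleton] at hc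
  obtain ⟨d, hd⟩ := hc
  have hd' : c = (n : ℤ_[2]) + (2 : ℤ_[2]) * d := by
    rw [sub_eq_iff_eq_add] at hd
    rw [hd]
    push_cast
    ring
  have h2 : PadicInt.toZMod c = (n : ZMod 2) := by
    rw [hd', map_add, map_mul, map_natCast, map_ofNat]
    have : (2 : ZMod 2) = 0 := by decide
    rw [this, zero_mul, add_zero]
  rw [h2, hd', add_smul, map_add, mul_smul, g4_j_two, add_zero]
  have hn' : n = 0 ∨ n = 1 := by omega
  rcases hn' with rfl | rfl
  · simp
  · simp

/-- `ρ p = 1 + 2a` and `ρ(p)² = 1` for `p` acting trivially on `R`: `j (ρ p x - x) = 0` so `ρ p x - x ∈ 2L`; choose `a` on a basis; `sq_eq_one`. -/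
theorem kernel_two (D : PTD G R L) (p : G) (hp : ∀ r : R, p • r = r) :
    ∃ a : Module.End ℤ_[2] L, D.ρ p = 1 + (2 : ℤ_[2]) • a ∧ D.ρ p ^ 2 = 1 := by
  have h0 : MulAction.toPerm p = (1 : Equiv.Perm R) := by
    ext r
    exact hp r
  obtain ⟨a, ha⟩ := g4_div (D.ρ p - 1) (fun x => by
    apply (D.ker _).1
    rw [LinearMap.sub_apply, map_sub, D.equi, h0, htm_one]
    simp)
  have h1 : D.ρ p = 1 + (2 : ℤ_[2]) • a := by
    rw [← ha]
    abel
  refine ⟨a, h1, sq_eq_one (D.ρ p) a h1 (Nat.card G) Nat.card_pos ?_⟩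
  rw [← map_pow, pow_card_eq_one', map_one]

omit [Finite G] [Module.Finite ℤ_[2] L] [Module.Free ℤ_[2] L] in
theorem g4_three {a b c : R} (hd : Dis a b c) : (cyc a b c).IsThreeCycle := by
  unfold cyc
  rw [Equiv.swap_comm a b]
  exact Equiv.Perm.isThreeCycle_swap_mul_swap_same hd.1.symm hd.2.1 hd.2.2

omit [Finite G] [Module.Finite ℤ_[2] L] [Module.Free ℤ_[2] L] in
theorem g4_lift (D : PTD G R L) {a b c : R} (hd : Dis a b c) :
    ∃ g : G, MulAction.toPerm g = cyc a b c := by
  obtain ⟨g, hg⟩ := D.alt (cyc a b c) (g4_three hd).mem_alternatingGroup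
  exact ⟨g, Equiv.ext fun r => hg r⟩

/-- If `L ≠ 0` then `j` maps onto `HtE R`: the image is a nonzero (`L ≠ 2L`, finite free) subspace, stable under the 3-cycles (`D.equi`, `D.alt`,
3-cycles are even); `irred`. -/
theorem j_surj (D : PTD G R L) (hL : ∃ x : L, x ≠ 0) (v : Ht R) (hv : v ∈ HtE R) : ∃ x : L, D.j x = v := by
  let M : Submodule (ZMod 2) (Ht R) :=
    { carrier := Set.range D.j
      add_mem' := by
        rintro _ _ ⟨x, rfl⟩ ⟨y, rfl⟩
        exact ⟨x + y, map_add _ _ _⟩
      zero_mem' := ⟨0, map_zero _⟩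
      smul_mem' := by
        rintro c _ ⟨x, rfl⟩
        fin_cases c
        · exact ⟨0, by rw [map_zero]; exact (zero_smul (ZMod 2) _).symm⟩
        · exact ⟨x, (one_smul (ZMod 2) _).symm⟩ }
  have hM : M ≤ HtE R := by
    rintro _ ⟨x, rfl⟩
    exact D.even x
  have h5 : 5 ≤ Fintype.card R := le_trans (by norm_num) D.card
  rcases irred D.evn h5 M hM (by
    rintro a b c hd _ ⟨x, rfl⟩
    obtain ⟨g, hg⟩ := g4_lift D hd
    refine ⟨D.ρ g x, ?_⟩
    rw [D.equi, hg]) with h | h
  · exfalso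
    obtain ⟨x, hx⟩ := hL
    obtain ⟨w, hw⟩ := g4_div (1 : Module.End ℤ_[2] L) (fun x => by
      apply (D.ker _).1
      have : D.j x ∈ M := ⟨x, rfl⟩
      rw [h, Submodule.mem_bot] at this
      exact this)
    have := idem_zero (1 : Module.End ℤ_[2] L) w (one_mul 1) hw
    apply hx
    have h1 := LinearMap.congr_fun this x
    simpa using h1
  · have : v ∈ M := by rw [h]; exact hv
    exact this

/-- Elements whose images under `j` are linearly independent over `F₂` are linearly independent over `ℤ₂`: in a nontrivial relation divide the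
coefficients by the largest possible power of `2` (`L` is torsion free); then some coefficient is odd, and applying `j` gives a nontrivial
relation. -/
theorem lift_indep (D : PTD G R L) {ι : Type*} (x : ι → L) (h : LinearIndependent (ZMod 2) (fun i => D.j (x i))) :
    LinearIndependent ℤ_[2] x := by
  rw [linearIndependent_iff'] at h ⊢
  intro s
  have key : ∀ g : ι → ℤ_[2], ∑ i ∈ s, g i • x i = 0 → ∀ i ∈ s, (2 : ℤ_[2]) ∣ g i := by
    intro g hg i hi
    have h1 := congrArg D.j hg
    rw [map_sum, map_zero] at h1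
    simp only [g4_j_smul] at h1
    have h2 := h s (fun i => PadicInt.toZMod (g i)) h1 i hi
    have h3 : g i ∈ RingHom.ker (PadicInt.toZMod (p := 2)) := h2
    rw [PadicInt.ker_toZMod, PadicInt.maximalIdeal_eq_span_p, Ideal.mem_span_singleton] at h3
    exact_mod_cast h3
  have key2 : ∀ n : ℕ, ∀ g : ι → ℤ_[2], ∑ i ∈ s, g i • x i = 0 → ∀ i ∈ s, (2 : ℤ_[2]) ^ n ∣ g i := by
    intro n
    induction n with
    | zero => intro g _ i _; simp
    | succ n ih =>
      intro g hg i hi
      have h1 : ∀ i : ι, ∃ c : ℤ_[2], i ∈ s → g i = 2 * c := by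
        intro i
        by_cases hi : i ∈ s
        · obtain ⟨c, hc⟩ := key g hg i hi
          exact ⟨c, fun _ => hc⟩
        · exact ⟨0, fun h => absurd h hi⟩
      choose c hc using h1
      have h2 : ∑ i ∈ s, c i • x i = 0 := by
        apply g4_tf
        rw [smul_zero, Finset.smul_sum, ← hg]
        refine Finset.sum_congr rfl fun i hi => ?_
        rw [hc i hi, mul_smul]
      rw [hc i hi, pow_succ']
      exact mul_dvd_mul_left _ (ih c h2 i hi)
  intro g hg i hi
  by_contra hne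
  have h1 := fun n => key2 n g hg i hi
  have h2 : ∀ n : ℕ, g i ∈ (Ideal.span {((2 : ℕ) : ℤ_[2]) ^ n} : Ideal ℤ_[2]) := by
    intro n
    rw [Ideal.mem_span_singleton]
    exact_mod_cast h1 n
  have h3 := (PadicInt.mem_span_pow_iff_le_valuation (g i) hne ((g i).valuation + 1)).1
    (h2 ((g i).valuation + 1))
  omega

/-- `rank L = n - 2` if `L ≠ 0`: `≥` by `j_surj`, `finrank_HtE`, `lift_indep`; `≤`: the images under `j` of a basis of `L` are linearly independent
(if `∑ ε_i x_i ∈ 2L` with `ε_i ∈ {0,1}` then all `ε_i = 0`). -/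
theorem finrank_L (D : PTD G R L) (hL : ∃ x : L, x ≠ 0) : Module.finrank ℤ_[2] L = Fintype.card R - 2 := by
  have h2 : 2 ≤ Fintype.card R := le_trans (by norm_num) D.card
  have hfr := finrank_HtE D.evn h2
  have : Finite (Ht R) := Quotient.finite _
  have : Finite (HtE R) := Subtype.finite
  have : Module.Finite (ZMod 2) (HtE R) := Module.Finite.of_finite
  apply le_antisymm
  · let b := Module.Free.chooseBasis ℤ_[2] L
    rw [← hfr, Module.finrank_eq_card_basis b]
    have h1 : LinearIndependent (ZMod 2) (fun i => (⟨D.j (b i), D.even _⟩ : HtE R)) := by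
      rw [Fintype.linearIndependent_iff]
      intro ε hε i
      have h3 : ∑ i, ε i • D.j (b i) = 0 := by
        have := congrArg (Submodule.subtype (HtE R)) hε
        rw [map_sum, map_zero] at this
        simpa using this
      have h4 : D.j (∑ i, ((ε i).val : ℤ_[2]) • b i) = 0 := by
        rw [map_sum, ← h3]
        refine Finset.sum_congr rfl fun i _ => ?_
        rw [g4_j_smul]
        congr 1
        rw [map_natCast]
        exact ZMod.natCast_zmod_val (ε i)
      obtain ⟨y, hy⟩ := (D.ker _).1 h4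
      have h5 := congrArg (fun z => b.repr z i) hy
      simp only [map_sum, map_smul, Module.Basis.repr_self, Finsupp.smul_single, smul_eq_mul, mul_one,
        Finsupp.coe_finsetSum, Finset.sum_apply, Finsupp.smul_apply] at h5
      rw [Finset.sum_eq_single i (fun j _ hj => by rw [Finsupp.single_apply, if_neg hj])
        (fun h => absurd (Finset.mem_univ i) h), Finsupp.single_eq_same] at h5
      have h6 := congrArg (PadicInt.toZMod (p := 2)) h5
      rw [map_natCast, map_mul, map_ofNat] at h6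
      have h7 : (2 : ZMod 2) = 0 := by decide
      rw [h7, zero_mul] at h6
      rw [← h6]
      exact (ZMod.natCast_zmod_val (ε i)).symm
    exact h1.fintype_card_le_finrank
  · rw [← hfr]
    let v := Module.finBasis (ZMod 2) (HtE R)
    have h1 : ∀ k, ∃ x : L, D.j x = (v k : Ht R) := fun k => j_surj D hL _ (v k).2
    choose x hx using h1
    have h3 : LinearIndependent (ZMod 2) (fun k => D.j (x k)) := by
      have h4 := v.linearIndependent.map' (Submodule.subtype (HtE R)) (Submodule.ker_subtype _)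
      have h5 : (fun k => D.j (x k)) = (Submodule.subtype (HtE R)) ∘ v := by
        funext k
        exact hx k
      rw [h5]
      exact h4
    have h6 := (lift_indep D x h3).fintype_card_le_finrank
    rwa [Fintype.card_fin] at h6

/-- the reduction of an endomorphism -/
noncomputable def g4_red (D : PTD G R L) (hL : ∃ x : L, x ≠ 0) (u : Module.End ℤ_[2] L) :
    Module.End (ZMod 2) (HtE R) :=
  AddMonoidHom.toZModLinearMap 2
    { toFun := fun v => ⟨D.j (u (j_surj D hL v.1 v.2).choose), D.even _⟩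
      map_zero' := by
        apply Subtype.ext
        show D.j (u _) = 0
        rw [g4_j_eq D (y := 0) (by
          rw [map_zero]
          exact (j_surj D hL _ (0 : HtE R).2).choose_spec) u, map_zero, map_zero]
      map_add' := fun v w => by
        apply Subtype.ext
        show D.j (u _) = D.j (u _) + D.j (u _)
        rw [← map_add, ← map_add]
        apply g4_j_eq
        rw [map_add, (j_surj D hL _ (v + w).2).choose_spec, (j_surj D hL _ v.2).choose_spec,
          (j_surj D hL _ w.2).choose_spec]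
        rfl }

theorem g4_red_apply (D : PTD G R L) (hL : ∃ x : L, x ≠ 0) (u : Module.End ℤ_[2] L) (v : HtE R) (x : L)
    (h : D.j x = v) : (g4_red D hL u v : Ht R) = D.j (u x) := by
  show D.j (u _) = D.j (u x)
  apply g4_j_eq
  rw [h]
  exact (j_surj D hL v.1 v.2).choose_spec

theorem g4_red_ext (D : PTD G R L) (hL : ∃ x : L, x ≠ 0) (u : Module.End ℤ_[2] L)
    (f : Module.End (ZMod 2) (HtE R)) (h : ∀ x : L, (f ⟨D.j x, D.even x⟩ : Ht R) = D.j (u x)) :
    f = g4_red D hL u := by
  apply LinearMap.ext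
  intro v
  apply Subtype.ext
  obtain ⟨x, hx⟩ := j_surj D hL v.1 v.2
  rw [g4_red_apply D hL u v x hx, ← h x]
  congr 2
  exact Subtype.ext hx.symm

theorem g4_red_mul (D : PTD G R L) (hL : ∃ x : L, x ≠ 0) (u w : Module.End ℤ_[2] L) :
    g4_red D hL u * g4_red D hL w = g4_red D hL (u * w) := by
  apply g4_red_ext
  intro x
  have h1 := g4_red_apply D hL w ⟨D.j x, D.even x⟩ x rfl
  rw [Module.End.mul_apply, g4_red_apply D hL u _ (w x) h1.symm]
  rfl

theorem g4_red_one (D : PTD G R L) (hL : ∃ x : L, x ≠ 0) : g4_red D hL 1 = 1 := by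
  symm
  apply g4_red_ext
  intro x
  rfl

theorem g4_red_neg (D : PTD G R L) (hL : ∃ x : L, x ≠ 0) (u : Module.End ℤ_[2] L) :
    g4_red D hL (-u) = g4_red D hL u := by
  symm
  apply g4_red_ext
  intro x
  rw [g4_red_apply D hL u _ x rfl, LinearMap.neg_apply, map_neg]
  have := g4_add_self D (u x)
  exact eq_neg_of_add_eq_zero_left this

theorem g4_red_rho (D : PTD G R L) (hL : ∃ x : L, x ≠ 0) (g : G) (v : HtE R) :
    (g4_red D hL (D.ρ g) v : Ht R) = htm (MulAction.toPerm g) (v : Ht R) := by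
  obtain ⟨x, hx⟩ := j_surj D hL v.1 v.2
  rw [g4_red_apply D hL _ v x hx, D.equi, hx]

/-- If `L ≠ 0` and `p ∈ G` acts trivially on `R` then `ρ p = 1` or `ρ p = -1`.

Proof. For every such `p` let `a_p` be as in `kernel_two` (unique, `L` torsion free); `-a_p` is an idempotent (`eq_one_or`). The operators `ρ p` (for
all such `p`) have square `1`, and the product of two of them is again of this form, so they commute; hence the `a_p` commute
(`ρ p = 1 + 2 a_p`, torsion free). `a_p` maps `2L` to `2L`, so there is `f_p ∈ End(HtE R)` with `f_p (j x) = j (-a_p x) = j (a_p x)` (`j_surj`,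
`D.ker`; values even by `D.even`). The `f_p` are commuting idempotents, and for a 3-cycle `σ`, `g ∈ G` over `σ` (`D.alt`):
`htm σ ∘ f_p ∘ (htm σ)⁻¹ = f_{g p g⁻¹}` (from `ρ(g p g⁻¹) = 1 + 2 ρ(g) a_p ρ(g)⁻¹`). Apply `idem_trivial` with `M = HtE R`, `S` = the `htm σ` for
3-cycles `σ` restricted to `HtE R` (`σ³ = 1`, `moved`: the moved space is in the span of two elements; `irred`; dimension `n - 2 ≥ 6`),
`E` = the set of the `f_p`. So `f_p = 0` or `f_p = 1`: `a_p x ∈ 2L` for all `x`, or `x + a_p x ∈ 2L` for all `x` (signs are irrelevant mod 2);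
conclude by `eq_one_or`. -/
theorem P_scalar (D : PTD G R L) (hL : ∃ x : L, x ≠ 0) (p : G) (hp : ∀ r : R, p • r = r) : D.ρ p = 1 ∨ D.ρ p = -1 := by
  have : Finite (Ht R) := Quotient.finite _
  have : Finite (HtE R) := Subtype.finite
  have : Module.Finite (ZMod 2) (HtE R) := Module.Finite.of_finite
  have : Module.Finite (ZMod 2) (Ht R) := Module.Finite.of_finite
  have h2 : 2 ≤ Fintype.card R := le_trans (by norm_num) D.card
  have h5 : 5 ≤ Fintype.card R := le_trans (by norm_num) D.card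
  have hfr := finrank_HtE D.evn h2
  let S : Set (HtE R ≃ₗ[ZMod 2] HtE R) :=
    {s | ∃ g : G, ∃ a b c : R, Dis a b c ∧ MulAction.toPerm g = cyc a b c ∧
      (s : Module.End (ZMod 2) (HtE R)) = g4_red D hL (D.ρ g)}
  let E : Set (Module.End (ZMod 2) (HtE R)) :=
    {f | ∃ (q : G) (a : Module.End ℤ_[2] L), (∀ r : R, q • r = r) ∧ D.ρ q = 1 + (2 : ℤ_[2]) • a ∧
      f = g4_red D hL a}
  -- the elements of `S`
  have hS : ∀ a b c : R, Dis a b c → ∃ s ∈ S, ∀ v : HtE R, (s v : Ht R) = htm (cyc a b c) v := by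
    intro a b c hd
    obtain ⟨g, hg⟩ := g4_lift D hd
    let s : HtE R ≃ₗ[ZMod 2] HtE R := LinearEquiv.ofLinearMap (g4_red D hL (D.ρ g))
      (g4_red D hL (D.ρ g⁻¹)) (by
        show g4_red D hL (D.ρ g) * g4_red D hL (D.ρ g⁻¹) = 1
        rw [g4_red_mul, ← map_mul, mul_inv_cancel, map_one, g4_red_one]) (by
        show g4_red D hL (D.ρ g⁻¹) * g4_red D hL (D.ρ g) = 1
        rw [g4_red_mul, ← map_mul, inv_mul_cancel, map_one, g4_red_one])
    refine ⟨s, ⟨g, a, b, c, hd, hg, rfl⟩, fun v => ?_⟩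
    show (g4_red D hL (D.ρ g) v : Ht R) = _
    rw [g4_red_rho, hg]
  have hS' : ∀ s ∈ S, ∃ a b c : R, Dis a b c ∧ ∀ v : HtE R, (s v : Ht R) = htm (cyc a b c) v := by
    rintro s ⟨g, a, b, c, hd, hg, hs⟩
    refine ⟨a, b, c, hd, fun v => ?_⟩
    have h1 : s v = g4_red D hL (D.ρ g) v := LinearMap.congr_fun hs v
    rw [h1, g4_red_rho, hg]
  have main := idem_trivial (M := HtE R) (by rw [hfr]; have := D.card; omega) S ?_ ?_ ?_ E ?_ ?_ ?_
  · obtain ⟨a, ha, hsq⟩ := kernel_two D p hp
    obtain ⟨-, h3, h4⟩ := eq_one_or (D.ρ p) a ha hsq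
    rcases main (g4_red D hL a) ⟨p, a, hp, ha, rfl⟩ with h | h
    · left
      apply h3
      intro x
      apply (D.ker _).1
      rw [← g4_red_apply D hL a ⟨D.j x, D.even x⟩ x rfl, h]
      rfl
    · right
      apply h4
      intro x
      apply (D.ker _).1
      rw [map_add, ← g4_red_apply D hL a ⟨D.j x, D.even x⟩ x rfl, h]
      exact g4_add_self D x
  · -- cubes
    intro s hs x
    obtain ⟨a, b, c, hd, h1⟩ := hS' s hs
    apply Subtype.ext
    rw [h1, h1, h1]
    have h3 : (cyc a b c) ^ 3 = 1 := by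
      have := pow_orderOf_eq_one (cyc a b c)
      rwa [(g4_three hd).orderOf] at this
    have h4 : htm (cyc a b c) (htm (cyc a b c) (htm (cyc a b c) (x : Ht R))) =
        htm ((cyc a b c) ^ 3) (x : Ht R) := by
      rw [pow_succ, pow_two, htm_mul, htm_mul]
      rfl
    rw [h4, h3, htm_one]
    rfl
  · -- moved
    intro s hs
    obtain ⟨a, b, c, hd, h1⟩ := hS' s hs
    have h3 : (LinearMap.range ((s : HtE R →ₗ[ZMod 2] HtE R) - LinearMap.id)).map (HtE R).subtype ≤
        Submodule.span (ZMod 2) {(hc {a, b} : Ht R), hc {a, c}} := by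
      rintro _ ⟨_, ⟨v, rfl⟩, rfl⟩
      have h4 := moved D.evn hd v.2
      rw [← h1 v] at h4
      exact h4
    have h4 := Submodule.finrank_mono h3
    rw [Submodule.finrank_map_subtype_eq] at h4
    refine h4.trans ?_
    have h6 : ({(hc {a, b} : Ht R), hc {a, c}} : Set (Ht R)) =
        (({(hc {a, b} : Ht R), hc {a, c}} : Finset (Ht R)) : Set (Ht R)) := by
      push_cast
      rfl
    rw [h6]
    exact (finrank_span_finset_le_card _).trans Finset.card_le_two
  · -- irreducible
    intro N hN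
    have h3 : N.map (HtE R).subtype ≤ HtE R := by
      rintro _ ⟨v, _, rfl⟩
      exact v.2
    rcases irred D.evn h5 _ h3 (by
      rintro a b c hd _ ⟨v, hv, rfl⟩
      obtain ⟨s, hs, h4⟩ := hS a b c hd
      exact ⟨s v, hN s hs v hv, h4 v⟩) with h | h
    · left
      rw [eq_bot_iff]
      intro v hv
      have h4 : (v : Ht R) ∈ N.map (HtE R).subtype := ⟨v, hv, rfl⟩
      rw [h, Submodule.mem_bot] at h4
      rw [Submodule.mem_bot]
      exact Subtype.ext h4
    · right
      rw [eq_top_iff]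
      intro v _
      have h4 : (v : Ht R) ∈ N.map (HtE R).subtype := by
        rw [h]
        exact v.2
      obtain ⟨w, hw, hwv⟩ := h4
      have : w = v := Subtype.ext hwv
      rwa [← this]
  · -- idempotents
    rintro _ ⟨q, a, hq, ha, rfl⟩
    obtain ⟨a', ha', hsq⟩ := kernel_two D q hq
    obtain ⟨h3, -, -⟩ := eq_one_or (D.ρ q) a ha hsq
    rw [g4_red_mul, h3, g4_red_neg]
  · -- they commute
    rintro _ ⟨q, a, hq, ha, rfl⟩ _ ⟨q', a', hq', ha', rfl⟩
    obtain ⟨_, _, h3⟩ := kernel_two D q hq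
    obtain ⟨_, _, h4⟩ := kernel_two D q' hq'
    obtain ⟨_, _, h6⟩ := kernel_two D (q * q') (fun r => by rw [mul_smul, hq', hq])
    rw [map_mul] at h6
    have h7 : D.ρ q * D.ρ q' = D.ρ q' * D.ρ q := by
      calc D.ρ q * D.ρ q' = D.ρ q * (D.ρ q * D.ρ q') ^ 2 * D.ρ q' := by rw [h6, mul_one]
        _ = (D.ρ q ^ 2) * (D.ρ q' * D.ρ q) * (D.ρ q' ^ 2) := by noncomm_ring
        _ = D.ρ q' * D.ρ q := by rw [h3, h4, one_mul, mul_one]
    rw [ha, ha'] at h7
    have h8 : a * a' = a' * a := by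
      apply g4_end_tf
      apply g4_end_tf
      have e1 : (1 + (2 : ℤ_[2]) • a) * (1 + (2 : ℤ_[2]) • a') =
          (1 + (2 : ℤ_[2]) • a + (2 : ℤ_[2]) • a') + (2 : ℤ_[2]) • (2 : ℤ_[2]) • (a * a') := by
        rw [mul_add, mul_one, add_mul, one_mul, smul_mul_smul_comm, smul_smul]
        abel
      have e2 : (1 + (2 : ℤ_[2]) • a') * (1 + (2 : ℤ_[2]) • a) =
          (1 + (2 : ℤ_[2]) • a + (2 : ℤ_[2]) • a') + (2 : ℤ_[2]) • (2 : ℤ_[2]) • (a' * a) := by
        rw [mul_add, mul_one, add_mul, one_mul, smul_mul_smul_comm, smul_smul]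
        abel
      rw [e1, e2] at h7
      exact add_left_cancel h7
    rw [g4_red_mul, g4_red_mul, h8]
  · -- conjugation
    rintro _ ⟨q, a, hq, ha, rfl⟩ s ⟨g, x, y, z, hd, hg, hs⟩
    refine ⟨g * q * g⁻¹, D.ρ g * a * D.ρ g⁻¹, fun r => ?_, ?_, ?_⟩
    · rw [mul_smul, mul_smul, hq, smul_inv_smul]
    · rw [map_mul, map_mul, ha]
      have h3 : D.ρ g * D.ρ g⁻¹ = 1 := by rw [← map_mul, mul_inv_cancel, map_one]
      calc D.ρ g * (1 + (2 : ℤ_[2]) • a) * D.ρ g⁻¹ = D.ρ g * D.ρ g⁻¹ + (2 : ℤ_[2]) • (D.ρ g * a * D.ρ g⁻¹) := by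
            rw [mul_add, mul_one, add_mul, mul_smul_comm, smul_mul_assoc]
        _ = 1 + (2 : ℤ_[2]) • (D.ρ g * a * D.ρ g⁻¹) := by rw [h3]
    · have h3 : ((s.symm : HtE R ≃ₗ[ZMod 2] HtE R) : Module.End (ZMod 2) (HtE R)) =
          g4_red D hL (D.ρ g⁻¹) := by
        have h4 : g4_red D hL (D.ρ g) * g4_red D hL (D.ρ g⁻¹) = 1 := by
          rw [g4_red_mul, ← map_mul, mul_inv_cancel, map_one, g4_red_one]
        apply LinearMap.ext
        intro v
        show s.symm v = _
        rw [LinearEquiv.symm_apply_eq]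
        have h6 := LinearMap.congr_fun h4 v
        rw [← hs] at h6
        exact h6.symm
      rw [hs, h3, g4_red_mul, g4_red_mul]

end TE
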