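import Pool.Agent.TE.G4

set_option autoImplicit false

open scoped Classical

namespace TE

/-! ## [TE-G5] the operators of order three -/

section
variable {R : Type*}

theorem cyc_apply {a b c : R} (h : Dis a b c) : cyc a b c a = b ∧ cyc a b c b = c ∧ cyc a b c c = a := by
  obtain ⟨hab, hbc, hac⟩ := h
  unfold cyc
  refine ⟨?_, ?_, ?_⟩
  · rw [Equiv.Perm.mul_apply, Equiv.swap_apply_of_ne_of_ne hab hac, Equiv.swap_apply_left]
  · rw [Equiv.Perm.mul_apply, Equiv.swap_apply_left, Equiv.swap_apply_of_ne_of_ne hac.symm hbc.symm]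
  · rw [Equiv.Perm.mul_apply, Equiv.swap_apply_right, Equiv.swap_apply_right]

theorem cyc_apply_of_ne {a b c x : R} (h : Dis a b c) (ha : x ≠ a) (hb : x ≠ b) (hc : x ≠ c) : cyc a b c x = x := by
  unfold cyc
  rw [Equiv.Perm.mul_apply, Equiv.swap_apply_of_ne_of_ne hb hc, Equiv.swap_apply_of_ne_of_ne ha hb]

theorem cyc_rot {a b c : R} (h : Dis a b c) : cyc b c a = cyc a b c := by
  have h' : Dis b c a := ⟨h.2.1, h.2.2.symm, h.1.symm⟩
  obtain ⟨h1, h2, h3⟩ := cyc_apply h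
  obtain ⟨h4, h5, h6⟩ := cyc_apply h'
  ext x
  by_cases ha : x = a
  · rw [ha, h1, h6]
  by_cases hb : x = b
  · rw [hb, h2, h4]
  by_cases hc : x = c
  · rw [hc, h3, h5]
  rw [cyc_apply_of_ne h ha hb hc, cyc_apply_of_ne h' hb hc ha]

theorem cyc_inv {a b c : R} (h : Dis a b c) : cyc a b c * cyc a c b = 1 := by
  have h' : Dis a c b := ⟨h.2.2, h.2.1.symm, h.1⟩
  obtain ⟨h1, h2, h3⟩ := cyc_apply h
  obtain ⟨h4, h5, h6⟩ := cyc_apply h'
  ext x
  rw [Equiv.Perm.mul_apply, Equiv.Perm.one_apply]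
  by_cases ha : x = a
  · rw [ha, h4, h3]
  by_cases hb : x = b
  · rw [hb, h6, h1]
  by_cases hc : x = c
  · rw [hc, h5, h2]
  rw [cyc_apply_of_ne h' ha hc hb, cyc_apply_of_ne h ha hb hc]

theorem cyc_cube {a b c : R} (h : Dis a b c) : cyc a b c ^ 3 = 1 := by
  obtain ⟨h1, h2, h3⟩ := cyc_apply h
  ext x
  rw [pow_succ, sq, Equiv.Perm.mul_apply, Equiv.Perm.mul_apply, Equiv.Perm.one_apply]
  by_cases ha : x = a
  · rw [ha, h1, h2, h3]
  by_cases hb : x = b
  · rw [hb, h2, h3, h1]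
  by_cases hc : x = c
  · rw [hc, h3, h1, h2]
  rw [cyc_apply_of_ne h ha hb hc, cyc_apply_of_ne h ha hb hc, cyc_apply_of_ne h ha hb hc]

theorem cyc_conj {a b c : R} (h : Dis a b c) (σ : Equiv.Perm R) : σ * cyc a b c = cyc (σ a) (σ b) (σ c) * σ := by
  unfold cyc
  rw [← mul_assoc, Equiv.mul_swap_eq_swap_mul σ a b, mul_assoc, Equiv.mul_swap_eq_swap_mul σ b c,
    mul_assoc]

theorem cyc_even [Fintype R] {a b c : R} (h : Dis a b c) : cyc a b c ∈ alternatingGroup R := by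
  rw [Equiv.Perm.mem_alternatingGroup]
  unfold cyc
  rw [map_mul, Equiv.Perm.sign_swap h.1, Equiv.Perm.sign_swap h.2.1]
  rfl

/-- `(a b c)(a b d) = (a c)(b d)` -/
theorem cyc_sq {a b c d : R} (h : Dis a b c) (h' : Dis a b d) (hcd : c ≠ d) :
    (cyc a b c * cyc a b d) ^ 2 = 1 ∧ cyc a b c * cyc a b d ≠ 1 := by
  obtain ⟨h1, h2, h3⟩ := cyc_apply h
  obtain ⟨h4, h5, h6⟩ := cyc_apply h'
  obtain ⟨hab, hbc, hac⟩ := h
  obtain ⟨-, hbd, had⟩ := h'
  have hdd := cyc_apply_of_ne ⟨hab, hbc, hac⟩ had.symm hbd.symm hcd.symm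
  have hcc := cyc_apply_of_ne ⟨hab, hbd, had⟩ hac.symm hbc.symm hcd
  have ea : (cyc a b c * cyc a b d) a = c := by rw [Equiv.Perm.mul_apply, h4, h2]
  have eb : (cyc a b c * cyc a b d) b = d := by rw [Equiv.Perm.mul_apply, h5, hdd]
  have ec : (cyc a b c * cyc a b d) c = a := by rw [Equiv.Perm.mul_apply, hcc, h3]
  have ed : (cyc a b c * cyc a b d) d = b := by rw [Equiv.Perm.mul_apply, h6, h1]
  refine ⟨?_, ?_⟩
  · ext x
    rw [sq, Equiv.Perm.mul_apply, Equiv.Perm.one_apply]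
    by_cases ha : x = a
    · rw [ha, ea, ec]
    by_cases hb : x = b
    · rw [hb, eb, ed]
    by_cases hc : x = c
    · rw [hc, ec, ea]
    by_cases hd : x = d
    · rw [hd, ed, eb]
    have ex : (cyc a b c * cyc a b d) x = x := by
      rw [Equiv.Perm.mul_apply, cyc_apply_of_ne ⟨hab, hbd, had⟩ ha hb hd,
        cyc_apply_of_ne ⟨hab, hbc, hac⟩ ha hb hc]
    rw [ex, ex]
  · intro h
    rw [h, Equiv.Perm.one_apply] at ea
    exact hac ea

end

variable {G R L : Type*} [Group G] [Finite G] [MulAction G R] [Fintype R] [AddCommGroup L] [Module ℤ_[2] L]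
  [Module.Finite ℤ_[2] L] [Module.Free ℤ_[2] L]

omit [Fintype R] in
theorem g5_neg (x : Ht R) : -x = x := by
  have h : x + x = 0 := by
    rw [← two_smul (ZMod 2) x, show (2 : ZMod 2) = 0 from rfl, zero_smul]
  exact neg_eq_of_add_eq_zero_left h

/-- `u` is over `σ` -/
def G5Over (D : PTD G R L) (σ : Equiv.Perm R) (u : Module.End ℤ_[2] L) : Prop :=
  ∃ g : G, (∀ r : R, g • r = σ r) ∧ (u = D.ρ g ∨ u = -D.ρ g)

omit [Finite G] [Module.Finite ℤ_[2] L] [Module.Free ℤ_[2] L] in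
theorem G5Over.mul {D : PTD G R L} {σ τ : Equiv.Perm R} {u v : Module.End ℤ_[2] L} (h : G5Over D σ u)
    (h' : G5Over D τ v) : G5Over D (σ * τ) (u * v) := by
  obtain ⟨g, hg, hu⟩ := h
  obtain ⟨g', hg', hv⟩ := h'
  refine ⟨g * g', fun r => by rw [mul_smul, hg', hg, Equiv.Perm.mul_apply], ?_⟩
  rw [map_mul]
  rcases hu with rfl | rfl <;> rcases hv with rfl | rfl
  · exact Or.inl rfl
  · exact Or.inr (by rw [mul_neg])
  · exact Or.inr (by rw [neg_mul])
  · exact Or.inl (by rw [neg_mul, mul_neg, neg_neg])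

omit [Finite G] [Module.Finite ℤ_[2] L] [Module.Free ℤ_[2] L] in
theorem G5Over.neg {D : PTD G R L} {σ : Equiv.Perm R} {u : Module.End ℤ_[2] L} (h : G5Over D σ u) :
    G5Over D σ (-u) := by
  obtain ⟨g, hg, hu⟩ := h
  refine ⟨g, hg, ?_⟩
  rcases hu with rfl | rfl
  · exact Or.inr rfl
  · exact Or.inl (by rw [neg_neg])

theorem G5Over.one {D : PTD G R L} (hL : ∃ x : L, x ≠ 0) {u : Module.End ℤ_[2] L}
    (h : G5Over D 1 u) : u = 1 ∨ u = -1 := by
  obtain ⟨g, hg, hu⟩ := h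
  rcases P_scalar D hL g (fun r => by rw [hg, Equiv.Perm.one_apply]) with h1 | h1 <;>
    rcases hu with h2 | h2 <;> rw [h2, h1]
  · exact Or.inl rfl
  · exact Or.inr rfl
  · exact Or.inr rfl
  · exact Or.inl (by rw [neg_neg])

theorem G5Over.uniq {D : PTD G R L} (hL : ∃ x : L, x ≠ 0) {σ : Equiv.Perm R}
    {u v : Module.End ℤ_[2] L} (h : G5Over D σ u) (h' : G5Over D σ v) : v = u ∨ v = -u := by
  obtain ⟨g, hg, hu⟩ := h
  obtain ⟨g', hg', hv⟩ := h'
  have h1 : D.ρ g' = D.ρ g * D.ρ (g⁻¹ * g') := by rw [← map_mul, mul_inv_cancel_left]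
  have h2 : D.ρ g' = D.ρ g ∨ D.ρ g' = -D.ρ g := by
    rcases P_scalar D hL (g⁻¹ * g') (fun r => by
      rw [mul_smul, hg', ← hg, inv_smul_smul]) with h3 | h3
    · left; rw [h1, h3, mul_one]
    · right; rw [h1, h3, mul_neg, mul_one]
  rcases hu with rfl | rfl <;> rcases hv with rfl | rfl <;> rcases h2 with h2 | h2 <;> rw [h2] <;>
    simp

omit [Finite G] [Module.Finite ℤ_[2] L] [Module.Free ℤ_[2] L] in
theorem G5Over.j {D : PTD G R L} {σ : Equiv.Perm R} {u : Module.End ℤ_[2] L} (h : G5Over D σ u) (x : L) :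
    D.j (u x) = htm σ (D.j x) := by
  obtain ⟨g, hg, hu⟩ := h
  have h1 : (MulAction.toPerm g : Equiv.Perm R) = σ := Equiv.ext hg
  rcases hu with rfl | rfl
  · rw [D.equi, h1]
  · rw [LinearMap.neg_apply, map_neg, g5_neg, D.equi, h1]

theorem g5_exists {D : PTD G R L} (hL : ∃ x : L, x ≠ 0) {a b c : R} (h : Dis a b c) :
    ∃ u : Module.End ℤ_[2] L, G5Over D (cyc a b c) u ∧ u ^ 3 = 1 := by
  obtain ⟨g, hg⟩ := D.alt _ (cyc_even h)
  have h1 : G5Over D (cyc a b c) (D.ρ g) := ⟨g, hg, Or.inl rfl⟩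
  have h3 : G5Over D 1 (D.ρ g ^ 3) := by
    have h4 := (h1.mul h1).mul h1
    have h5 : cyc a b c * cyc a b c * cyc a b c = 1 := by rw [← sq, ← pow_succ, cyc_cube h]
    rw [h5, ← sq, ← pow_succ] at h4
    exact h4
  rcases h3.one hL with h4 | h4
  · exact ⟨_, h1, h4⟩
  · refine ⟨_, h1.neg, ?_⟩
    rw [Odd.neg_pow (by decide), h4, neg_neg]

omit [Module.Finite ℤ_[2] L] in
theorem g5_one_ne (hL : ∃ x : L, x ≠ 0) : (1 : Module.End ℤ_[2] L) ≠ -1 := by
  intro h
  obtain ⟨x, hx⟩ := hL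
  have h1 := LinearMap.congr_fun h x
  rw [Module.End.one_apply, LinearMap.neg_apply, Module.End.one_apply] at h1
  have h2 : (2 : ℤ_[2]) • x = 0 := by
    rw [two_smul]
    nth_rewrite 1 [h1]
    exact neg_add_cancel x
  rcases smul_eq_zero.1 h2 with h3 | h3
  · exact two_ne_zero h3
  · exact hx h3

theorem g5_uniq {D : PTD G R L} (hL : ∃ x : L, x ≠ 0) {σ : Equiv.Perm R}
    {u v : Module.End ℤ_[2] L} (h : G5Over D σ u) (h' : G5Over D σ v) (hu : u ^ 3 = 1) (hv : v ^ 3 = 1) :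
    v = u := by
  rcases h.uniq hL h' with h1 | h1
  · exact h1
  · exfalso
    rw [h1, Odd.neg_pow (by decide), hu] at hv
    exact g5_one_ne hL hv.symm

/-- Let `L ≠ 0`. Call an operator `u` of `L` *over* `σ` if `u = ρ g` or `u = -ρ g` for some `g ∈ G` acting as `σ` on `R`. By `P_scalar` two
operators over the same `σ` are equal up to sign (`g' = g p`); products of operators over `σ`, `τ` are over `σ τ`; operators over `1` are `± 1`; an
operator `u` over `σ` satisfies `j (u x) = htm σ (j x)` (signs are invisible mod 2).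
For a 3-cycle `τ` and `g` over `τ` (`D.alt`): `ρ(g)³` is over `τ³ = 1`, so it is `± 1`; so `u = ρ g` or `u = -ρ g` has `u³ = 1`. If `u, u'` are over `τ`
with `u³ = u'³ = 1` then `u' = ± u` and `u' = -u` gives `1 = -1` on `L ≠ 0` torsion free: impossible; so `u = u'`. Let `s a b c` be this operator for
`τ = cyc a b c`. `rot`: the same `τ`. `inv`: `s a b c * s a c b = ± 1` has... : `(s a c b)⁻¹ = (s a c b)²` has cube `1` and is over `cyc a b c`, so it
is `s a b c`. `conj`: `s a b c * s d e f * (s a b c)²` has cube `1` and is over `cyc (τ d) (τ e) (τ f)`. `(s a b c * s a b d)²` is over `1`.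
`s a b c * s a b d ≠ 1`, since it acts on the even classes by `htm` of a permutation `≠ 1` (`faithful`, `j_surj`). -/
theorem exists_ops (D : PTD G R L) (hL : ∃ x : L, x ≠ 0) : ∃ s : R → R → R → Module.End ℤ_[2] L,
    (∀ a b c, Dis a b c → s a b c ^ 3 = 1) ∧
    (∀ a b c, Dis a b c → s b c a = s a b c) ∧
    (∀ a b c, Dis a b c → s a b c * s a c b = 1) ∧
    (∀ a b c d e f, Dis a b c → Dis d e f →
      s a b c * s d e f = s (cyc a b c d) (cyc a b c e) (cyc a b c f) * s a b c) ∧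
    (∀ a b c, Dis a b c → ∀ x : L, D.j (s a b c x) = htm (cyc a b c) (D.j x)) ∧
    (∀ a b c d, Dis a b c → Dis a b d → c ≠ d →
      ((s a b c * s a b d) ^ 2 = 1 ∨ (s a b c * s a b d) ^ 2 = -1) ∧ s a b c * s a b d ≠ 1) := by
  have hex : ∀ a b c : R, ∃ u : Module.End ℤ_[2] L, Dis a b c → (G5Over D (cyc a b c) u ∧ u ^ 3 = 1) := by
    intro a b c
    by_cases h : Dis a b c
    · obtain ⟨u, hu⟩ := g5_exists (D := D) hL h
      exact ⟨u, fun _ => hu⟩
    · exact ⟨1, fun h' => absurd h' h⟩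
  choose s hs using hex
  refine ⟨s, fun a b c h => (hs a b c h).2, ?_, ?_, ?_, ?_, ?_⟩
  · intro a b c h
    have h' : Dis b c a := ⟨h.2.1, h.2.2.symm, h.1.symm⟩
    have h1 := hs b c a h'
    rw [cyc_rot h] at h1
    exact g5_uniq hL (hs a b c h).1 h1.1 (hs a b c h).2 h1.2
  · intro a b c h
    have h' : Dis a c b := ⟨h.2.2, h.2.1.symm, h.1⟩
    have h1 := hs a c b h'
    have h2 : cyc a c b * cyc a c b = cyc a b c := by
      have h3 := cyc_inv h
      have h4 := cyc_cube h'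
      calc cyc a c b * cyc a c b = (cyc a b c * cyc a c b) * (cyc a c b * cyc a c b) := by
            rw [h3, one_mul]
        _ = cyc a b c * (cyc a c b ^ 3) := by rw [pow_succ, sq]; simp only [mul_assoc]
        _ = cyc a b c := by rw [h4, mul_one]
    have h3 := h1.1.mul h1.1
    rw [h2] at h3
    have h4 : (s a c b * s a c b) ^ 3 = 1 := by
      rw [← sq, ← pow_mul, mul_comm 2 3, pow_mul, h1.2, one_pow]
    have h5 := g5_uniq hL (hs a b c h).1 h3 (hs a b c h).2 h4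
    rw [← h5, ← sq, ← pow_succ, h1.2]
  · intro a b c d e f h h'
    have hu := hs a b c h
    have hx := hs d e f h'
    have hd : Dis (cyc a b c d) (cyc a b c e) (cyc a b c f) :=
      ⟨fun h1 => h'.1 ((cyc a b c).injective h1), fun h1 => h'.2.1 ((cyc a b c).injective h1),
        fun h1 => h'.2.2 ((cyc a b c).injective h1)⟩
    have hw := hs _ _ _ hd
    have h1 := (hu.1.mul hx.1).mul (hu.1.mul hu.1)
    have h2 : cyc a b c * cyc d e f * (cyc a b c * cyc a b c) =
        cyc (cyc a b c d) (cyc a b c e) (cyc a b c f) := by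
      rw [cyc_conj h', mul_assoc, ← mul_assoc (cyc a b c) (cyc a b c) (cyc a b c), ← sq, ← pow_succ,
        cyc_cube h, mul_one]
    rw [h2] at h1
    have hu3 : s a b c * s a b c * s a b c = 1 := by rw [← sq, ← pow_succ, hu.2]
    have hu3' : s a b c * (s a b c * s a b c) = 1 := by rw [← mul_assoc, hu3]
    have h3 : (s a b c * s d e f * (s a b c * s a b c)) ^ 3 = 1 := by
      have h4 : ∀ u x : Module.End ℤ_[2] L, u * u * u = 1 →
          (u * x * (u * u)) ^ 3 = u * x ^ 3 * (u * u) := by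
        intro u x h
        calc (u * x * (u * u)) ^ 3 = u * x * (u * u * u) * x * (u * u * u) * x * (u * u) := by
              rw [pow_succ, sq]; simp only [mul_assoc]
          _ = u * x ^ 3 * (u * u) := by
              rw [h, mul_one, mul_one, pow_succ, sq]; simp only [mul_assoc]
      rw [h4 _ _ hu3, hx.2, mul_one, hu3']
    have h5 := g5_uniq hL hw.1 h1 hw.2 h3
    rw [← h5, mul_assoc (s a b c * s d e f), hu3, mul_one]
  · intro a b c h x
    exact (hs a b c h).1.j x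
  · intro a b c d h h' hcd
    obtain ⟨h1, h2⟩ := cyc_sq h h' hcd
    have h3 := (hs a b c h).1.mul (hs a b d h').1
    refine ⟨?_, ?_⟩
    · have h4 := h3.mul h3
      rw [← sq, ← sq, h1] at h4
      exact h4.one hL
    · intro h4
      apply h2
      apply faithful D.evn (by have := D.card; omega)
      intro v hv
      obtain ⟨x, rfl⟩ := j_surj D hL v hv
      rw [← h3.j x, h4, Module.End.one_apply]

end TE
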