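import Pool.Agent.TE.G5

set_option autoImplicit false

open scoped Classical TensorProduct

namespace TE

/-! ## [TE-G6] from the lattice to the vector space `V = ℚ₂ ⊗ L` -/

variable {G R L : Type*} [Group G] [Finite G] [MulAction G R] [Fintype R] [AddCommGroup L] [Module ℤ_[2] L]
  [Module.Finite ℤ_[2] L] [Module.Free ℤ_[2] L]

omit [Fintype R] in
theorem g6_neg (v : Ht R) : -v = v := by
  have h : (2 : ZMod 2) • v = 0 := by
    rw [show (2 : ZMod 2) = 0 from rfl, zero_smul]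
  rw [two_smul] at h
  exact neg_eq_of_add_eq_zero_left h

omit [Module.Finite ℤ_[2] L] in
theorem g6_indep {ι : Type*} (x : ι → L) (h : LinearIndependent ℤ_[2] x) :
    LinearIndependent ℚ_[2] (fun i => (1 : ℚ_[2]) ⊗ₜ[ℤ_[2]] x i) := by
  rw [← LinearIndependent.iff_fractionRing ℤ_[2] ℚ_[2]]
  exact h.map' (TensorProduct.mk ℤ_[2] ℚ_[2] L 1) (LinearMap.ker_eq_bot.2
    (Module.Flat.tensorProduct_mk_injective ℤ_[2] L ℚ_[2]))

theorem g6_card (D : PTD G R L) (U : Submodule ℚ_[2] (ℚ_[2] ⊗[ℤ_[2]] L)) (a : R) (T : Finset R)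
    (ha : a ∉ T) (hT : T.card + 2 ≤ Fintype.card R)
    (h : ∀ t ∈ T, ∃ w : L, (1 : ℚ_[2]) ⊗ₜ[ℤ_[2]] w ∈ U ∧ D.j w = hc {a, t}) :
    T.card ≤ Module.finrank ℚ_[2] U := by
  choose! w hw hj using h
  have h1 : LinearIndependent (ZMod 2) (fun t : T => D.j (w t)) := by
    have h0 : (fun t : T => D.j (w t)) = fun t : T => (hc {a, (t : R)} : Ht R) := by
      funext t
      exact hj t t.2
    rw [h0]
    exact pair_indep a T ha hT
  have h2 := g6_indep _ (lift_indep D (fun t : T => w t) h1)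
  have h3 : LinearIndependent ℚ_[2] (fun t : T => (⟨(1 : ℚ_[2]) ⊗ₜ[ℤ_[2]] w t, hw t t.2⟩ : U)) :=
    LinearIndependent.of_comp U.subtype h2
  have h4 := h3.fintype_card_le_finrank
  rwa [Fintype.card_coe] at h4

/-- the base change of an operator -/
noncomputable abbrev g6_B (u : Module.End ℤ_[2] L) : Module.End ℚ_[2] (ℚ_[2] ⊗[ℤ_[2]] L) :=
  Module.End.baseChangeHom ℤ_[2] ℚ_[2] L u

omit [Module.Finite ℤ_[2] L] [Module.Free ℤ_[2] L] in
theorem g6_B_apply (u : Module.End ℤ_[2] L) (x : L) :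
    g6_B u ((1 : ℚ_[2]) ⊗ₜ[ℤ_[2]] x) = (1 : ℚ_[2]) ⊗ₜ[ℤ_[2]] u x := rfl

omit [Module.Finite ℤ_[2] L] [Module.Free ℤ_[2] L] in
theorem g6_memW {u : Module.End ℤ_[2] L} {w : L} (h : w + u w + u (u w) = 0) :
    (1 : ℚ_[2]) ⊗ₜ[ℤ_[2]] w ∈ LinearMap.ker (1 + g6_B u + g6_B u ^ 2) := by
  rw [LinearMap.mem_ker, LinearMap.add_apply, LinearMap.add_apply, pow_two, Module.End.mul_apply,
    g6_B_apply, g6_B_apply, Module.End.one_apply, ← TensorProduct.tmul_add,
    ← TensorProduct.tmul_add, h, TensorProduct.tmul_zero]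

omit [Module.Finite ℤ_[2] L] [Module.Free ℤ_[2] L] in
theorem g6_memK {u : Module.End ℤ_[2] L} {w : L} (h : u w = w) :
    (1 : ℚ_[2]) ⊗ₜ[ℤ_[2]] w ∈ LinearMap.ker (g6_B u - 1) := by
  rw [LinearMap.mem_ker, LinearMap.sub_apply, g6_B_apply, Module.End.one_apply, h, sub_self]

omit [Fintype R] in
theorem g6_symm {a b c : R} (hd : Dis a b c) :
    symmDiff ({b, c} : Finset R) {a, b} = {a, c} := by
  obtain ⟨h1, h2, h3⟩ := hd
  ext x
  simp only [Finset.mem_symmDiff, Finset.mem_insert, Finset.mem_singleton]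
  by_cases hxa : x = a
  · subst hxa
    simp [h1, h3]
  · by_cases hxb : x = b
    · subst hxb
      simp [h2, hxa]
    · simp [hxa, hxb]

theorem g6_pair (D : PTD G R L) (hL : ∃ x : L, x ≠ 0) {a b : R} (h : a ≠ b) :
    ∃ x : L, D.j x = hc {a, b} := by
  refine j_surj D hL _ ((mem_HtE D.evn _).2 ?_)
  rw [Finset.card_pair h]
  exact even_two

/-- the vectors in `W` -/
theorem g6_A (D : PTD G R L) (hL : ∃ x : L, x ≠ 0) {a b c : R} (hd : Dis a b c)
    {u : Module.End ℤ_[2] L} (h3 : u ^ 3 = 1)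
    (hj : ∀ x : L, D.j (u x) = htm (cyc a b c) (D.j x)) :
    ∃ w : L, (1 : ℚ_[2]) ⊗ₜ[ℤ_[2]] w ∈ LinearMap.ker (1 + g6_B u + g6_B u ^ 2) ∧
      D.j w = hc {a, c} := by
  obtain ⟨y, hy⟩ := g6_pair D hL hd.1
  refine ⟨u y - y, g6_memW ?_, ?_⟩
  · have h4 : u (u (u y)) = y := by
      have := LinearMap.congr_fun h3 y
      rw [pow_succ, pow_two, Module.End.mul_apply, Module.End.mul_apply, Module.End.one_apply]
        at this
      exact this
    rw [map_sub, map_sub, h4]
    abel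
  · rw [map_sub, hj, hy, htm_hc, sub_eq_add_neg, g6_neg, Finset.image_insert,
      Finset.image_singleton, (cyc_apply hd).1, (cyc_apply hd).2.1, hc_add, g6_symm hd]

/-- `dim W ≥ 2` -/
theorem g6_two (D : PTD G R L) (hL : ∃ x : L, x ≠ 0) {a b c : R} (hd : Dis a b c)
    {u : Module.End ℤ_[2] L} (h3 : u ^ 3 = 1)
    (hj : ∀ x : L, D.j (u x) = htm (cyc a b c) (D.j x)) :
    2 ≤ Module.finrank ℚ_[2] (LinearMap.ker (1 + g6_B u + g6_B u ^ 2)) := by
  obtain ⟨h1, h2, h4⟩ := hd
  have hc8 := D.card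
  have hcard : ({b, c} : Finset R).card = 2 := Finset.card_pair h2
  refine hcard.symm.le.trans (g6_card D _ a {b, c} (by simp [h1, h4]) (by rw [hcard]; omega)
    fun t ht => ?_)
  rw [Finset.mem_insert, Finset.mem_singleton] at ht
  rcases ht with rfl | rfl
  · have hd' : Dis t c a := ⟨h2, h4.symm, h1.symm⟩
    obtain ⟨w, hw, hw'⟩ := g6_A D hL hd' h3 (fun x => by rw [hj, cyc_rot ⟨h1, h2, h4⟩])
    exact ⟨w, hw, by rw [hw', Finset.pair_comm]⟩
  · exact g6_A D hL ⟨h1, h2, h4⟩ h3 hj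

/-- `dim ker (s - 1) ≥ n - 4` -/
theorem g6_four (D : PTD G R L) (hL : ∃ x : L, x ≠ 0) {a b c : R} (hd : Dis a b c)
    {u : Module.End ℤ_[2] L} (h3 : u ^ 3 = 1)
    (hj : ∀ x : L, D.j (u x) = htm (cyc a b c) (D.j x)) :
    Fintype.card R - 4 ≤ Module.finrank ℚ_[2] (LinearMap.ker (g6_B u - 1)) := by
  have hc8 := D.card
  obtain ⟨h1, h2, h4⟩ := hd
  have hS : ({a, b, c} : Finset R).card = 3 := by
    rw [Finset.card_insert_of_notMem (by simp [h1, h4]), Finset.card_pair h2]
  obtain ⟨d, hdm⟩ : ∃ d, d ∉ ({a, b, c} : Finset R) := by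
    by_contra h
    push Not at h
    have h5 : ({a, b, c} : Finset R) = Finset.univ := Finset.eq_univ_of_forall h
    rw [h5, Finset.card_univ] at hS
    omega
  set T : Finset R := (insert d {a, b, c} : Finset R)ᶜ with hT
  have hTc : T.card = Fintype.card R - 4 := by
    rw [hT, Finset.card_compl, Finset.card_insert_of_notMem hdm, hS]
  rw [← hTc]
  refine g6_card D _ d T (by simp [hT]) (by omega) fun t ht => ?_
  rw [hT, Finset.mem_compl, Finset.mem_insert, Finset.mem_insert, Finset.mem_insert,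
    Finset.mem_singleton, not_or, not_or, not_or] at ht
  obtain ⟨ht1, ht2, ht3, ht4⟩ := ht
  rw [Finset.mem_insert, Finset.mem_insert, Finset.mem_singleton, not_or, not_or] at hdm
  obtain ⟨hd1, hd2, hd3⟩ := hdm
  obtain ⟨y, hy⟩ := g6_pair D hL (Ne.symm ht1)
  have h5 : u (u (u y)) = y := by
    have := LinearMap.congr_fun h3 y
    rw [pow_succ, pow_two, Module.End.mul_apply, Module.End.mul_apply, Module.End.one_apply]
      at this
    exact this
  have h6 : htm (cyc a b c) (hc {d, t}) = hc {d, t} := by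
    rw [htm_hc, Finset.image_insert, Finset.image_singleton,
      cyc_apply_of_ne ⟨h1, h2, h4⟩ hd1 hd2 hd3, cyc_apply_of_ne ⟨h1, h2, h4⟩ ht2 ht3 ht4]
  refine ⟨y + u y + u (u y), g6_memK ?_, ?_⟩
  · rw [map_add, map_add, h5]
    abel
  · rw [map_add, map_add, hj, hj, hj, hy, h6, h6]
    have h7 : (hc {d, t} : Ht R) + hc {d, t} = 0 := by
      nth_rewrite 2 [← g6_neg (hc {d, t})]
      exact add_neg_cancel _
    rw [h7, zero_add]

/-- `W ∩ ker (s - 1) = 0` and the dimensions -/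
theorem g6_dim (D : PTD G R L) (hL : ∃ x : L, x ≠ 0) {a b c : R} (hd : Dis a b c)
    {u : Module.End ℤ_[2] L} (h3 : u ^ 3 = 1)
    (hj : ∀ x : L, D.j (u x) = htm (cyc a b c) (D.j x)) :
    Module.finrank ℚ_[2] (LinearMap.ker (1 + g6_B u + g6_B u ^ 2)) = 2 := by
  have hc8 := D.card
  have h1 := g6_two D hL hd h3 hj
  have h2 := g6_four D hL hd h3 hj
  have h4 := Submodule.finrank_sup_add_finrank_inf_eq
    (LinearMap.ker (1 + g6_B u + g6_B u ^ 2)) (LinearMap.ker (g6_B u - 1))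
  have h5 : LinearMap.ker (1 + g6_B u + g6_B u ^ 2) ⊓ LinearMap.ker (g6_B u - 1) = ⊥ := by
    rw [eq_bot_iff]
    rintro x ⟨hx1, hx2⟩
    rw [SetLike.mem_coe, LinearMap.mem_ker] at hx1 hx2
    rw [LinearMap.sub_apply, Module.End.one_apply, sub_eq_zero] at hx2
    rw [LinearMap.add_apply, LinearMap.add_apply, pow_two, Module.End.mul_apply, hx2, hx2,
      Module.End.one_apply] at hx1
    have h6 : (3 : ℚ_[2]) • x = 0 := by
      rw [← hx1]
      module
    rw [Submodule.mem_bot]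
    exact (smul_eq_zero.1 h6).resolve_left (by norm_num)
  rw [h5, finrank_bot, add_zero] at h4
  have h6 : Module.finrank ℚ_[2] ↥(LinearMap.ker (1 + g6_B u + g6_B u ^ 2) ⊔
      LinearMap.ker (g6_B u - 1)) ≤ Module.finrank ℚ_[2] (ℚ_[2] ⊗[ℤ_[2]] L) :=
    Submodule.finrank_le _
  rw [Module.finrank_baseChange, finrank_L D hL] at h6
  omega

/-- a common fixed vector -/
theorem g6_common (D : PTD G R L) (hL : ∃ x : L, x ≠ 0) {a b c a' b' c' : R} (hd : Dis a b c)
    (hd' : Dis a' b' c') {u u' : Module.End ℤ_[2] L} (h3 : u ^ 3 = 1)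
    (hj : ∀ x : L, D.j (u x) = htm (cyc a b c) (D.j x)) (h3' : u' ^ 3 = 1)
    (hj' : ∀ x : L, D.j (u' x) = htm (cyc a' b' c') (D.j x)) :
    ∃ x : ℚ_[2] ⊗[ℤ_[2]] L, x ≠ 0 ∧ g6_B u x = x ∧ g6_B u' x = x := by
  have hc8 := D.card
  have h1 := g6_four D hL hd h3 hj
  have h2 := g6_four D hL hd' h3' hj'
  have h4 := Submodule.finrank_sup_add_finrank_inf_eq
    (LinearMap.ker (g6_B u - 1)) (LinearMap.ker (g6_B u' - 1))
  have h6 : Module.finrank ℚ_[2] ↥(LinearMap.ker (g6_B u - 1) ⊔ LinearMap.ker (g6_B u' - 1)) ≤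
      Module.finrank ℚ_[2] (ℚ_[2] ⊗[ℤ_[2]] L) := Submodule.finrank_le _
  rw [Module.finrank_baseChange, finrank_L D hL] at h6
  have h7 : 0 < Module.finrank ℚ_[2]
      ↥(LinearMap.ker (g6_B u - 1) ⊓ LinearMap.ker (g6_B u' - 1)) := by omega
  obtain ⟨⟨x, hx⟩, hx0⟩ := Module.finrank_pos_iff_exists_ne_zero.1 h7
  refine ⟨x, fun h => hx0 (Subtype.ext h), ?_, ?_⟩
  · have := hx.1
    rw [SetLike.mem_coe, LinearMap.mem_ker, LinearMap.sub_apply, Module.End.one_apply,
      sub_eq_zero] at this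
    exact this
  · have := hx.2
    rw [SetLike.mem_coe, LinearMap.mem_ker, LinearMap.sub_apply, Module.End.one_apply,
      sub_eq_zero] at this
    exact this

/-- If `L ≠ 0` then there are data as in `ACD` on `V = ℚ₂ ⊗ L`.

Proof. `s` from `exists_ops`, base changed to `V` (`LinearMap.baseChange`; `L → V` is injective, a linearly independent family of `L` over `ℤ₂` is
linearly independent in `V` over `ℚ₂`). `cube, rot, inv, conj` are immediate. `dimV`: `finrank_L`. Write `W = ker (1 + s + s²)` for `s = s a b c`.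
Lower bounds. For `y ∈ L` with `j y = hc {a, b}` (`j_surj`) the element `w = s y - y` is in `W` (`(1 + s + s²)(s - 1) = s³ - 1 = 0`) and
`j w = hc {b, c} + hc {a, b} = hc {a, c}`; similarly every `hc {x, y}` with `x ≠ y` in `{a, b, c}` is `j` of an element of `W ∩ L` (use `s`, `rot`).
(1) `hc {a,b}`, `hc {a,c}` are linearly independent (`pair_indep`), so `dim W ≥ 2` (`lift_indep`).
(2) For `u ∈ L`, `N u = u + s u + s² u` is fixed by `s`; if `j u = hc {d, t}` with `d, t ∉ {a, b, c}` then `j (N u) = 3 hc {d, t} = hc {d, t}`. For a fixed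
`d ∉ {a,b,c}` and `t` in the remaining `n - 4` points these classes are independent (`pair_indep`), so `dim ker (s - 1) ≥ n - 4`. As
`W ∩ ker (s - 1) = 0` (`3x = 0`), `dim W ≤ n - 2 - (n - 4) = 2`. So `dim2`, and `dim ker (s - 1) = n - 4`.
`sup4`: `hc {a,b}, hc {a,c}, hc {a,d}, hc {a,e}` are in `j` of the three spaces and independent (`n ≥ 8`).
`top`: for a fixed `a` and `n - 2` points `t` the `hc {a, t}` are `j` of elements of the sum of all `W` (each pair `{a, t}` is contained in a triple), so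
the sum has dimension `≥ n - 2 = dim V`.
`sq`: `(s s')² = ± 1`, `s = s a b c`, `s' = s a b d`. `ker (s - 1) ∩ ker (s' - 1)` has dimension `≥ 2 (n - 4) - (n - 2) = n - 6 ≥ 2`; on it
`(s s')² = 1`, so the sign is `+`. `s s' ≠ 1` on `V` because it is `≠ 1` on `L`. -/
theorem exists_ACD (D : PTD G R L) (hL : ∃ x : L, x ≠ 0) : Nonempty (ACD ℚ_[2] (ℚ_[2] ⊗[ℤ_[2]] L) R) := by
  obtain ⟨s, h1, h2, h3, h4, h5, h6⟩ := exists_ops D hL
  have hc8 := D.card
  have hflat : Function.Injective (TensorProduct.mk ℤ_[2] ℚ_[2] L 1) :=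
    Module.Flat.tensorProduct_mk_injective ℤ_[2] L ℚ_[2]
  refine ⟨{
    s := fun a b c => g6_B (s a b c)
    cube := fun a b c hd => by rw [← map_pow, h1 a b c hd, map_one]
    rot := fun a b c hd => by rw [h2 a b c hd]
    inv := fun a b c hd => by rw [← map_mul, h3 a b c hd, map_one]
    conj := fun a b c d e f hd hd' => by rw [← map_mul, h4 a b c d e f hd hd', map_mul]
    dim2 := fun a b c hd => g6_dim D hL hd (h1 a b c hd) (h5 a b c hd)
    sq := fun a b c d hd hd' hcd => ?_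
    sup4 := fun a b c d e hd hd' hd'' hd3 => ?_
    top := ?_
    dimV := by rw [Module.finrank_baseChange, finrank_L D hL]
    card := D.card }⟩
  · obtain ⟨h7, h8⟩ := h6 a b c d hd hd' hcd
    refine ⟨?_, fun h => h8 ?_⟩
    · rcases h7 with h7 | h7
      · rw [← map_mul, ← map_pow, h7, map_one]
      · exfalso
        obtain ⟨x, hx0, hx1, hx2⟩ := g6_common D hL hd hd' (h1 a b c hd) (h5 a b c hd)
          (h1 a b d hd') (h5 a b d hd')
        have h9 : g6_B ((s a b c * s a b d) ^ 2) x = x := by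
          have e1 : g6_B ((s a b c * s a b d) ^ 2) =
              (g6_B (s a b c) * g6_B (s a b d)) * (g6_B (s a b c) * g6_B (s a b d)) := by
            rw [g6_B, map_pow, map_mul, pow_two]
          rw [e1, Module.End.mul_apply, Module.End.mul_apply, Module.End.mul_apply, hx2, hx1, hx2,
            hx1]
        rw [h7] at h9
        have h10 : g6_B (-1 : Module.End ℤ_[2] L) x = -x := by
          rw [g6_B, map_neg, map_one, LinearMap.neg_apply, Module.End.one_apply]
        rw [h10] at h9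
        apply hx0
        have h11 : (2 : ℚ_[2]) • x = 0 := by
          rw [two_smul]
          nth_rewrite 1 [← h9]
          exact neg_add_cancel x
        exact (smul_eq_zero.1 h11).resolve_left (by norm_num)
    · rw [← map_mul] at h
      apply LinearMap.ext
      intro x
      apply hflat
      exact LinearMap.congr_fun h ((1 : ℚ_[2]) ⊗ₜ[ℤ_[2]] x)
  · obtain ⟨p1, p2, p3⟩ := hd
    obtain ⟨-, p4, p5⟩ := hd'
    obtain ⟨-, p6, p7⟩ := hd''
    obtain ⟨p8, p9, p10⟩ := hd3
    have hcard : ({b, c, d, e} : Finset R).card = 4 := by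
      rw [Finset.card_insert_of_notMem (by simp [p2, p4, p6]),
        Finset.card_insert_of_notMem (by simp [p8, p10]), Finset.card_pair p9]
    have key : ∀ t, Dis a b t → (∃ w : L, (1 : ℚ_[2]) ⊗ₜ[ℤ_[2]] w ∈
        LinearMap.ker (1 + g6_B (s a b t) + g6_B (s a b t) ^ 2) ∧ D.j w = hc {a, t}) := fun t ht =>
      g6_A D hL ht (h1 a b t ht) (h5 a b t ht)
    refine hcard.symm.le.trans (g6_card D _ a {b, c, d, e} (by simp [p1, p3, p5, p7])
      (by rw [hcard]; omega) fun t ht => ?_)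
    rw [Finset.mem_insert, Finset.mem_insert, Finset.mem_insert, Finset.mem_singleton] at ht
    rcases ht with rfl | rfl | rfl | rfl
    · have hd0 : Dis a t c := ⟨p1, p2, p3⟩
      have hd1 : Dis t c a := ⟨p2, p3.symm, p1.symm⟩
      obtain ⟨w, hw, hw'⟩ := g6_A D hL hd1 (h1 a t c hd0)
        (fun x => by rw [h5 a t c hd0, cyc_rot hd0])
      exact ⟨w, Submodule.mem_sup_left (Submodule.mem_sup_left hw),
        by rw [hw', Finset.pair_comm]⟩
    · obtain ⟨w, hw, hw'⟩ := key t ⟨p1, p2, p3⟩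
      exact ⟨w, Submodule.mem_sup_left (Submodule.mem_sup_left hw), hw'⟩
    · obtain ⟨w, hw, hw'⟩ := key t ⟨p1, p4, p5⟩
      exact ⟨w, Submodule.mem_sup_left (Submodule.mem_sup_right hw), hw'⟩
    · obtain ⟨w, hw, hw'⟩ := key t ⟨p1, p6, p7⟩
      exact ⟨w, Submodule.mem_sup_right hw, hw'⟩
  · -- the sum of all `W` is everything
    apply Submodule.eq_top_of_finrank_eq
    apply le_antisymm (Submodule.finrank_le _)
    rw [Module.finrank_baseChange, finrank_L D hL]
    have hne : Nonempty R := Fintype.card_pos_iff.1 (by omega)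
    obtain ⟨a⟩ := hne
    obtain ⟨T, hTs, hTc⟩ := Finset.exists_subset_card_eq
      (s := (Finset.univ.erase a : Finset R)) (n := Fintype.card R - 2) (by
        rw [Finset.card_erase_of_mem (Finset.mem_univ a), Finset.card_univ]
        omega)
    rw [← hTc]
    have haT : a ∉ T := fun h => Finset.notMem_erase a _ (hTs h)
    refine g6_card D _ a T haT (by omega) fun t ht => ?_
    have hat : a ≠ t := fun h => haT (h ▸ ht)
    obtain ⟨c, hc⟩ : ∃ c, c ∉ ({a, t} : Finset R) := by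
      by_contra h
      push Not at h
      have h7 : ({a, t} : Finset R) = Finset.univ := Finset.eq_univ_of_forall h
      have h8 := Finset.card_pair hat
      rw [h7, Finset.card_univ] at h8
      omega
    rw [Finset.mem_insert, Finset.mem_singleton, not_or] at hc
    have hd : Dis a c t := ⟨fun h => hc.1 h.symm, hc.2, hat⟩
    obtain ⟨w, hw, hw'⟩ := g6_A D hL hd (h1 a c t hd) (h5 a c t hd)
    exact ⟨w, Submodule.mem_iSup_of_mem (⟨(a, c, t), hd⟩ : {t : R × R × R // Dis t.1 t.2.1 t.2.2})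
      hw, hw'⟩

/-- `x² + x + 1` has no root in `ℚ₂` (a root would be an integer, and modulo `2` there is none) -/
theorem no_root (x : ℚ_[2]) : x ^ 2 + x + 1 ≠ 0 := by
  intro h
  have h1 : IsIntegral ℤ_[2] x := by
    refine ⟨Polynomial.X ^ 2 + Polynomial.X + 1, ?_, ?_⟩
    · monicity!
    · simpa using h
  obtain ⟨y, rfl⟩ := IsIntegrallyClosed.isIntegral_iff.1 h1
  have h2 : y ^ 2 + y + 1 = 0 := by
    apply FaithfulSMul.algebraMap_injective ℤ_[2] ℚ_[2]
    rw [map_add, map_add, map_pow, map_one, map_zero]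
    exact h
  have h3 := congrArg (PadicInt.toZMod (p := 2)) h2
  rw [map_add, map_add, map_pow, map_one, map_zero] at h3
  generalize PadicInt.toZMod y = z at h3
  revert h3
  revert z
  decide

end TE
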