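import Pool.Agent.TE.G0

set_option autoImplicit false

open scoped Classical

namespace TE

/-! ## [TE-G7] two 3-cycles generating `A₄` (linear algebra, only Mathlib and G0) -/

section vec
variable {K V : Type*} [Field K] [CharZero K] [AddCommGroup V] [Module K V]
  {s s' : Module.End K V} (hs : ∀ x, s (s (s x)) = x) (hs' : ∀ x, s' (s' (s' x)) = x)
  (hq : ∀ x, s (s' (s (s' x))) = x)

include hs hq in
theorem a4_A (x : V) : s' (s (s' x)) = s (s x) := by
  have := hs (s' (s (s' x)))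
  rw [hq] at this
  exact this.symm

include hs' hq in
theorem a4_B (x : V) : s (s' (s x)) = s' (s' x) := by
  have := hq (s' (s' x))
  rw [hs'] at this
  exact this

include hs hq in
theorem a4_C (x : V) : s' (s (s' (s x))) = x := by
  rw [a4_A hs hq (s x), hs]

include hs hs' hq in
theorem a4_D (x : V) : s (s' (s' (s x))) = s' (s (s (s' x))) := by
  have h1 : s (s (s' x)) = s' (s (s' (s' x))) := (a4_A hs hq (s' x)).symm
  rw [h1, ← a4_B hs' hq x, ← a4_B hs' hq (s (s (s' (s x)))), hs]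

include hs hs' hq in
theorem a4_L (u : V) (α β : K) (h1 : s (s' u) = α • u) (h3 : s' (s u) = β • u) :
    s (s' (s u)) = β • s u ∧ s' (s (s u)) = (α * β) • s u := by
  refine ⟨by rw [h3, map_smul], ?_⟩
  have e : s' (s (s u)) = s (s (s' (s' (s u)))) := by
    rw [← a4_B hs' hq (s u), hs]
  rw [e, h3, map_smul, map_smul, map_smul, h1, map_smul, smul_smul, mul_comm]

include hs hs' hq in
/-- the vector `v` with `s s' v = v`, `s' s v = -v` -/
theorem a4_exists_v (hne : ∃ x, s (s' x) ≠ x) : ∃ v : V, v ≠ 0 ∧ s (s' v) = v ∧ s' (s v) = -v := by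
  obtain ⟨x, hx⟩ := hne
  have inj : ∀ y, s y = 0 → y = 0 := by
    intro y hy
    have := hs y
    rw [hy, map_zero, map_zero] at this
    exact this.symm
  set u := x - s (s' x) with hu
  have hu0 : u ≠ 0 := by
    intro h
    exact hx (sub_eq_zero.1 h).symm
  have hu1 : s (s' u) = -u := by
    rw [hu, map_sub, map_sub, hq, neg_sub]
  by_cases h : u + s' (s u) = 0
  · have h3 : s' (s u) = -u := by
      rw [add_comm] at h
      exact eq_neg_of_add_eq_zero_left h
    obtain ⟨a1, a3⟩ := a4_L hs hs' hq u (-1) (-1) (by rw [hu1]; simp) (by rw [h3]; simp)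
    obtain ⟨b1, b3⟩ := a4_L hs hs' hq (s u) (-1) (-1 * -1) a1 a3
    refine ⟨s (s u), ?_, ?_, ?_⟩
    · intro h0
      exact hu0 (inj _ (inj _ h0))
    · rw [b1]; simp
    · rw [b3]; simp
  · set w := u + s' (s u) with hw
    have h1 : s (s' w) = -w := by
      rw [hw, map_add, map_add, hu1, a4_D hs hs' hq u, hu1, map_neg, map_neg]
      abel
    have h3 : s' (s w) = w := by
      rw [hw, map_add, map_add, a4_C hs hq u]
      abel
    obtain ⟨a1, a3⟩ := a4_L hs hs' hq w (-1) 1 (by rw [h1]; simp) (by rw [h3]; simp)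
    refine ⟨s w, ?_, ?_, ?_⟩
    · intro h0
      exact h (inj _ h0)
    · rw [a1]; simp
    · rw [a3]; simp

end vec

/-- Let `s³ = s'³ = 1`, `(s s')² = 1`, `s s' ≠ 1`, `dim W = dim W' = 2` for `W = ker (1 + s + s²)`, `W' = ker (1 + s' + s'²)`. Then `dim (W ∩ W') = 1`.

Proof. Put `t₁ = s s'`, `t₃ = s' s`, `t₂ = s t₁ s⁻¹ = s² s' s²`. From `(s s')² = 1`: `s' s s' = s⁻¹ = s²`, `s'² = s'⁻¹ = s s' s`. So `t₁² = t₂² = t₃² = 1`
(`t₃² = s' s s' s = s⁻¹ s = 1`), `t₁ t₃ = s s'² s = s (s s' s) s = t₂`, and taking inverses `t₃ t₁ = t₂`. Also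
`s t₃ s⁻¹ = s s' = t₁`, `s t₁ s⁻¹ = t₂`, `s t₂ s⁻¹ = s t₁ t₃ s⁻¹ = t₂ t₁ = t₃`.
As `char K = 0`, `V = V₀ ⊕ V₁ ⊕ V₂ ⊕ V₃`, `V₀ = {t₁ = t₃ = 1}`, `V₁ = {t₁ = 1, t₃ = -1}`, `V₂ = {t₁ = -1, t₃ = -1}`, `V₃ = {t₁ = -1, t₃ = 1}`. `s` maps
`V₀ → V₀`, `V₁ → V₂ → V₃ → V₁` (for `v` with `t₁ v = α v`, `t₃ v = β v`: `t₁ s v = s t₃ v = β s v`, `t₃ s v = s t₂ v = αβ s v`). So
`dim V₁ = dim V₂ = dim V₃ = d`, and `d ≥ 1` since `t₁ ≠ 1`. `U = V₁ ⊕ V₂ ⊕ V₃`. `(s - 1) U ⊆ W` (as `(1 + s + s²)(s - 1) = 0`) has dimension `≥ 2d`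
(the vectors `s v - v` for `v ∈ V₁` and for `v ∈ V₂` are independent), so `d = 1`, `dim U = 3`, `W = (s - 1)U ⊆ U`, and `s = 1` on `V₀` (`(s - 1)V₀ ⊆ W ∩ V₀ = 0`).
`s' = s⁻¹ t₁` maps `V₀` to itself and is the identity there; hence `W' = (s' - 1)V ⊆ U` (`W' = (s'-1)V`: for `w ∈ W'`,
`w = (s'-1)(-(2 w + s' w)/3)` or by dimensions; `U` is stable under `s'`). So `W, W' ⊆ U`, `dim (W ∩ W') ≥ 1`.
If `dim (W ∩ W') = 2` then `W = W'`. `(s - 1)U ⊆ W`, `(s' - 1)U ⊆ W`, so `s, s'` act trivially on `U/W`, hence so do `t₁`, `t₃`: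
`V₂ ⊕ V₃ = (t₁ - 1)U ⊆ W`, `V₁ ⊕ V₂ = (t₃ - 1)U ⊆ W`, so `U ⊆ W`, contradiction to `dim W = 2`. -/
theorem a4_inf {K V : Type*} [Field K] [CharZero K] [AddCommGroup V] [Module K V] [FiniteDimensional K V]
    (s s' : Module.End K V) (h : s ^ 3 = 1) (h' : s' ^ 3 = 1) (hsq : (s * s') ^ 2 = 1) (hne : s * s' ≠ 1)
    (hd : Module.finrank K (LinearMap.ker (1 + s + s ^ 2)) = 2)
    (hd' : Module.finrank K (LinearMap.ker (1 + s' + s' ^ 2)) = 2) :
    Module.finrank K (LinearMap.ker (1 + s + s ^ 2) ⊓ LinearMap.ker (1 + s' + s' ^ 2) : Submodule K V) = 1 := by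
  have hs : ∀ x, s (s (s x)) = x := fun x => by
    have := congrArg (fun f : Module.End K V => f x) h
    simpa [pow_succ] using this
  have hs' : ∀ x, s' (s' (s' x)) = x := fun x => by
    have := congrArg (fun f : Module.End K V => f x) h'
    simpa [pow_succ] using this
  have hq : ∀ x, s (s' (s (s' x))) = x := fun x => by
    have := congrArg (fun f : Module.End K V => f x) hsq
    simpa [pow_succ] using this
  have hn : ∃ x, s (s' x) ≠ x := by
    by_contra hc
    push Not at hc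
    apply hne
    ext x
    simpa using hc x
  obtain ⟨v, hv0, hv1, hv3⟩ := a4_exists_v hs hs' hq hn
  -- membership in the kernels
  have memW : ∀ x, x ∈ LinearMap.ker (1 + s + s ^ 2) ↔ x + s x + s (s x) = 0 := by
    intro x
    rw [LinearMap.mem_ker]
    simp [pow_two]
  have memW' : ∀ x, x ∈ LinearMap.ker (1 + s' + s' ^ 2) ↔ x + s' x + s' (s' x) = 0 := by
    intro x
    rw [LinearMap.mem_ker]
    simp [pow_two]
  -- `s' v = s (s v)`
  have e1 : s' v = s (s v) := by
    have := hs (s' v)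
    rw [hv1] at this
    exact this.symm
  have hsub : (LinearMap.ker (1 + s + s ^ 2) ⊓ LinearMap.ker (1 + s' + s' ^ 2) : Submodule K V) ≠ ⊥ := by
    intro hb
    have hm : v - s' v ∈ (LinearMap.ker (1 + s + s ^ 2) ⊓ LinearMap.ker (1 + s' + s' ^ 2) : Submodule K V) := by
      refine ⟨?_, ?_⟩
      · show v - s' v ∈ LinearMap.ker (1 + s + s ^ 2)
        rw [memW, e1, map_sub, map_sub, hs]
        abel
      · show v - s' v ∈ LinearMap.ker (1 + s' + s' ^ 2)
        rw [memW', map_sub, map_sub, hs']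
        abel
    rw [hb, Submodule.mem_bot, sub_eq_zero] at hm
    have e2 : s v = v := by
      have h1 : s v = s (s (s v)) := by
        conv_lhs => rw [hm, e1]
      rw [h1, hs]
    rw [e2, ← hm] at hv3
    have : (2 : K) • v = 0 := by
      rw [two_smul]
      nth_rewrite 1 [hv3]
      exact neg_add_cancel v
    rcases smul_eq_zero.1 this with h2 | h2
    · exact two_ne_zero h2
    · exact hv0 h2
  have hlt : (LinearMap.ker (1 + s + s ^ 2) ⊓ LinearMap.ker (1 + s' + s' ^ 2) : Submodule K V) <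
      LinearMap.ker (1 + s + s ^ 2) := by
    refine lt_of_le_of_ne inf_le_left ?_
    intro he
    have hm : v - s v ∈ LinearMap.ker (1 + s + s ^ 2) := by
      rw [memW, map_sub, map_sub, hs]
      abel
    rw [← he] at hm
    have hm2 := (memW' _).1 hm.2
    -- `s' (s v) = -v`, `s' v = s (s v)`, `s' (s (s v)) = s' (s' v)`
    have e3 : s' (s' v) = - s v := by
      have h1 := hs' (s v)
      rw [hv3, map_neg, map_neg] at h1
      rw [← h1, neg_neg]
    have e4 : (2 : K) • (v - s v + s (s v)) = 0 := by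
      rw [← hm2, map_sub, map_sub, hv3, map_neg, e3, e1, two_smul]
      abel
    have e5 : v - s v + s (s v) = 0 := by
      rcases smul_eq_zero.1 e4 with h2 | h2
      · exact absurd h2 two_ne_zero
      · exact h2
    have e6 : s (s' (v - s v + s (s v))) = v + s v - s (s v) := by
      rw [← e1, map_add, map_sub, map_add, map_sub, hv1, hv3, map_neg, e3, map_neg, e1]
      abel
    rw [e5, map_zero, map_zero] at e6
    have e7 : (2 : K) • v = 0 := by
      have : (2 : K) • v = (v - s v + s (s v)) + (v + s v - s (s v)) := by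
        rw [two_smul]
        abel
      rw [this, e5, ← e6, add_zero]
    rcases smul_eq_zero.1 e7 with h2 | h2
    · exact absurd h2 two_ne_zero
    · exact hv0 h2
  have f1 := Submodule.finrank_lt_finrank_of_lt hlt
  rw [hd] at f1
  have f2 : Module.finrank K (LinearMap.ker (1 + s + s ^ 2) ⊓ LinearMap.ker (1 + s' + s' ^ 2) : Submodule K V) ≠ 0 := by
    intro h0
    exact hsub (Submodule.finrank_eq_zero.1 h0)
  omega

/-- If `x² + x + 1` has no root in `K`, `s³ = 1`, `0 ≠ w ∈ W = ker (1 + s + s²)`, then `w`, `s w` are linearly independent.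
Proof: if `α w + β s w = 0`, apply `s`: `α s w + β s² w = α s w - β w - β s w = 0`. Eliminating: `(α² - αβ + β²) w = 0`; if `β ≠ 0` then
`-α/β` is a root of `x² + x + 1`; so `β = 0`, `α = 0`. -/
theorem w_indep {K V : Type*} [Field K] [AddCommGroup V] [Module K V] (hK : ∀ x : K, x ^ 2 + x + 1 ≠ 0)
    (s : Module.End K V) (w : V) (hw : w ∈ LinearMap.ker (1 + s + s ^ 2)) (h0 : w ≠ 0) (α β : K)
    (h : α • w + β • s w = 0) : α = 0 ∧ β = 0 := by
  have hw2 : w + s w + s (s w) = 0 := by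
    rw [LinearMap.mem_ker] at hw
    simpa [pow_two] using hw
  have hss : s (s w) = -w - s w := by
    have e : s (s w) = (w + s w + s (s w)) - w - s w := by abel
    rw [e, hw2, zero_sub]
  have h1 : α • s w + β • (-w - s w) = 0 := by
    have := congrArg s h
    rw [map_add, map_smul, map_smul, map_zero, hss] at this
    exact this
  have h2 : (α ^ 2 - α * β + β ^ 2) • w = 0 := by
    have e : (α ^ 2 - α * β + β ^ 2) • w =
        (α - β) • (α • w + β • s w) - β • (α • s w + β • (-w - s w)) := by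
      module
    rw [e, h, h1, smul_zero, smul_zero, sub_zero]
  have h3 : α ^ 2 - α * β + β ^ 2 = 0 := by
    rcases smul_eq_zero.1 h2 with h3 | h3
    · exact h3
    · exact absurd h3 h0
  have hβ : β = 0 := by
    by_contra hb
    apply hK (-α / β)
    field_simp
    linear_combination h3
  rw [hβ, zero_smul, add_zero] at h
  rcases smul_eq_zero.1 h with h4 | h4
  · exact ⟨h4, hβ⟩
  · exact absurd h4 h0

end TE
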