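import Pool.Agent.TE.G7

set_option autoImplicit false

open scoped Classical

namespace TE

/-! ## [TE-G8] the lines attached to the pairs of points -/

variable {K V R : Type*} [Field K] [CharZero K] [AddCommGroup V] [Module K V] [FiniteDimensional K V] [Fintype R]

/-- the plane attached to a triple -/
def ACD.W (D : ACD K V R) (a b c : R) : Submodule K V := LinearMap.ker (1 + D.s a b c + D.s a b c ^ 2)

omit [CharZero K] [FiniteDimensional K V] in
theorem g8_mem (D : ACD K V R) (a b c : R) (v : V) :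
    v ∈ D.W a b c ↔ (1 + D.s a b c + D.s a b c ^ 2 : Module.End K V) v = 0 :=
  LinearMap.mem_ker

theorem g8_dis_rot {R : Type*} {a b c : R} (h : Dis a b c) : Dis b c a :=
  ⟨h.2.1, h.2.2.symm, h.1.symm⟩

theorem g8_dis_swap {R : Type*} {a b c : R} (h : Dis a b c) : Dis a c b :=
  ⟨h.2.2, h.2.1.symm, h.1⟩

theorem g8_dis_swap' {R : Type*} {a b c : R} (h : Dis a b c) : Dis b a c :=
  ⟨h.1.symm, h.2.2, h.2.1⟩

theorem g8_dis_map {R : Type*} {a b c : R} (h : Dis a b c) (τ : Equiv.Perm R) :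
    Dis (τ a) (τ b) (τ c) :=
  ⟨fun h1 => h.1 (τ.injective h1), fun h1 => h.2.1 (τ.injective h1),
    fun h1 => h.2.2 (τ.injective h1)⟩

omit [CharZero K] [FiniteDimensional K V] in
theorem g8_ker_eq (D : ACD K V R) {a b c : R} (h : Dis a b c) : D.W a c b = D.W a b c := by
  have h3 := D.cube a b c h
  have h1 : D.s a c b = D.s a b c ^ 2 := by
    calc D.s a c b = D.s a b c ^ 3 * D.s a c b := by rw [h3, one_mul]
      _ = D.s a b c ^ 2 * (D.s a b c * D.s a c b) := by rw [pow_succ, mul_assoc]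
      _ = D.s a b c ^ 2 := by rw [D.inv a b c h, mul_one]
  have h4 : (D.s a b c ^ 2) ^ 2 = D.s a b c := by
    rw [← pow_mul, show 2 * 2 = 3 + 1 from rfl, pow_succ, h3, one_mul]
  unfold ACD.W
  rw [h1, h4, add_assoc, add_comm (D.s a b c ^ 2), ← add_assoc]

/-- `W` does not depend on the order: `s b c a = s a b c`, `s a c b = (s a b c)⁻¹ = (s a b c)²` and `1 + s + s² = 1 + s² + s⁴`. -/
theorem W_perm (D : ACD K V R) {a b c : R} (h : Dis a b c) : D.W b c a = D.W a b c ∧ D.W a c b = D.W a b c ∧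
    D.W b a c = D.W a b c := by
  have h1 : D.W b c a = D.W a b c := by
    unfold ACD.W
    rw [D.rot a b c h]
  have h2 : D.W a c b = D.W a b c := g8_ker_eq D h
  refine ⟨h1, h2, ?_⟩
  rw [← g8_ker_eq D (g8_dis_swap' h)]
  exact h1

omit [CharZero K] [FiniteDimensional K V] in
theorem g8_inj (D : ACD K V R) {a b c : R} (h : Dis a b c) :
    Function.Injective (D.s a b c) := by
  have h3 := D.cube a b c h
  intro v w hvw
  have h1 : ∀ u : V, (D.s a b c ^ 2) (D.s a b c u) = u := by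
    intro u
    have h2 : (D.s a b c ^ 3) u = u := by rw [h3]; rfl
    rw [pow_succ] at h2
    exact h2
  rw [← h1 v, hvw, h1]

/-- `s a b c` maps `W d e f` onto `W (τ d) (τ e) (τ f)`, `τ = cyc a b c` (`D.conj`). -/
theorem W_map (D : ACD K V R) {a b c d e f : R} (h : Dis a b c) (h' : Dis d e f) :
    (D.W d e f).map (D.s a b c) = D.W (cyc a b c d) (cyc a b c e) (cyc a b c f) := by
  obtain ⟨g, hg⟩ : ∃ g, g = D.s a b c := ⟨_, rfl⟩
  obtain ⟨u, hu⟩ : ∃ u, u = D.s d e f := ⟨_, rfl⟩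
  obtain ⟨u', hu'⟩ : ∃ u', u' = D.s (cyc a b c d) (cyc a b c e) (cyc a b c f) := ⟨_, rfl⟩
  have hconj : g * u = u' * g := by
    rw [hg, hu, hu']
    exact D.conj a b c d e f h h'
  have hc : ∀ v, g (u v) = u' (g v) := fun v => by
    have h1 := congrArg (fun m : Module.End K V => m v) hconj
    exact h1
  have hall : ∀ v, (1 + u' + u' ^ 2 : Module.End K V) (g v) =
      g ((1 + u + u ^ 2 : Module.End K V) v) := by
    intro v
    simp only [LinearMap.add_apply, Module.End.one_apply, pow_two, Module.End.mul_apply, map_add,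
      hc]
  have hinj : Function.Injective g := by
    rw [hg]
    exact g8_inj D h
  have hsurj : Function.Surjective g := by
    intro w
    have h3 : g ^ 3 = 1 := by
      rw [hg]
      exact D.cube a b c h
    refine ⟨(g ^ 2) w, ?_⟩
    have h2 : (g ^ 3) w = w := by rw [h3]; rfl
    rw [pow_succ'] at h2
    exact h2
  ext w
  rw [Submodule.mem_map]
  constructor
  · rintro ⟨v, hv, rfl⟩
    rw [g8_mem, ← hu', ← hg, hall, hu]
    rw [g8_mem] at hv
    rw [hv, map_zero]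
  · intro hw
    rw [g8_mem, ← hu'] at hw
    obtain ⟨v, rfl⟩ := hsurj w
    refine ⟨v, ?_, by rw [hg]⟩
    rw [g8_mem, ← hu]
    apply hinj
    rw [← hall, hw, map_zero]

theorem g8_line (D : ACD K V R) {a b c d : R} (h : Dis a b c) (h' : Dis a b d) (hcd : c ≠ d) :
    Module.finrank K (D.W a b c ⊓ D.W a b d : Submodule K V) = 1 := by
  have hs := D.sq a b c d h h' hcd
  exact a4_inf (D.s a b c) (D.s a b d) (D.cube a b c h) (D.cube a b d h') hs.1 hs.2
    (D.dim2 a b c h) (D.dim2 a b d h')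

theorem g8_step (D : ACD K V R) {a b c d e : R} (h : Dis a b c) (h' : Dis a b d)
    (h1 : Dis a b e) (hcd : c ≠ d) (hce : c ≠ e) :
    D.W a b c ⊓ D.W a b d = D.W a b c ⊓ D.W a b e := by
  by_cases hde : d = e
  · rw [hde]
  by_contra hne
  obtain ⟨Wc, hWc⟩ : ∃ Wc, Wc = D.W a b c := ⟨_, rfl⟩
  obtain ⟨Wd, hWd⟩ : ∃ Wd, Wd = D.W a b d := ⟨_, rfl⟩
  obtain ⟨We, hWe⟩ : ∃ We, We = D.W a b e := ⟨_, rfl⟩
  have dc : Module.finrank K Wc = 2 := by rw [hWc]; exact D.dim2 a b c h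
  have dd : Module.finrank K Wd = 2 := by rw [hWd]; exact D.dim2 a b d h'
  have de : Module.finrank K We = 2 := by rw [hWe]; exact D.dim2 a b e h1
  have l1 : Module.finrank K (Wc ⊓ Wd : Submodule K V) = 1 := by
    rw [hWc, hWd]; exact g8_line D h h' hcd
  have l2 : Module.finrank K (Wc ⊓ We : Submodule K V) = 1 := by
    rw [hWc, hWe]; exact g8_line D h h1 hce
  have l3 : Module.finrank K (Wd ⊓ We : Submodule K V) = 1 := by
    rw [hWd, hWe]; exact g8_line D h' h1 hde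
  have s4 : 4 ≤ Module.finrank K (Wc ⊔ Wd ⊔ We : Submodule K V) := by
    rw [hWc, hWd, hWe]
    exact D.sup4 a b c d e h h' h1 ⟨hcd, hde, hce⟩
  rw [← hWc, ← hWd, ← hWe] at hne
  -- the two lines span the plane
  have hlt : Wc ⊓ Wd < (Wc ⊓ Wd) ⊔ (Wc ⊓ We) := by
    refine lt_of_le_of_ne le_sup_left fun hE => ?_
    have h2 : Wc ⊓ We ≤ Wc ⊓ Wd := by
      rw [hE]
      exact le_sup_right
    exact hne (Submodule.eq_of_le_of_finrank_eq h2 (by rw [l1, l2])).symm
  have h3 := Submodule.finrank_lt_finrank_of_lt hlt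
  have h4 : (Wc ⊓ Wd) ⊔ (Wc ⊓ We) ≤ Wc := sup_le inf_le_left inf_le_left
  have h5 : (Wc ⊓ Wd) ⊔ (Wc ⊓ We) = Wc := Submodule.eq_of_le_of_finrank_le h4 (by omega)
  have h6 : Wc ≤ Wd ⊔ We := by
    rw [← h5]
    exact sup_le (inf_le_right.trans le_sup_left) (inf_le_right.trans le_sup_right)
  have h7 : Wc ⊔ Wd ⊔ We = Wd ⊔ We := by
    rw [sup_assoc]
    exact sup_eq_right.mpr h6
  rw [h7] at s4
  have h8 := Submodule.finrank_sup_add_finrank_inf_eq Wd We
  omega

/-- For distinct `c, d ∉ {a, b}` the intersection `W a b c ∩ W a b d` is a line (`a4_inf`), and it does not depend on `c`, `d`.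
Proof of independence: let `c, d, e` be distinct. If `W_c ∩ W_d ≠ W_c ∩ W_e` (`W_c = W a b c` etc.), then these two lines span the plane `W_c`, so
`W_c ⊆ W_d + W_e`, and `dim (W_c + W_d + W_e) = dim (W_d + W_e) = 2 + 2 - 1 = 3 < 4`, against `sup4`. In general pass from `(c, d)` to `(c, e)` to
`(f, e)` (all `≠ a, b`, `n ≥ 8`). -/
theorem line_unique (D : ACD K V R) {a b c d e f : R} (h : Dis a b c) (h' : Dis a b d) (hcd : c ≠ d) (h1 : Dis a b e)
    (h1' : Dis a b f) (hef : e ≠ f) : Module.finrank K (D.W a b c ⊓ D.W a b d : Submodule K V) = 1 ∧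
    D.W a b c ⊓ D.W a b d = D.W a b e ⊓ D.W a b f := by
  refine ⟨g8_line D h h' hcd, ?_⟩
  by_cases hce : c = e
  · subst hce
    exact g8_step D h h' h1' hcd hef
  · rw [g8_step D h h' h1 hcd hce, inf_comm (D.W a b c), g8_step D h1 h h1' (Ne.symm hce) hef]

theorem g8_exists {R : Type*} [Fintype R] (hR : 8 ≤ Fintype.card R) (S : Finset R)
    (hS : S.card < 8) : ∃ x, x ∉ S := by
  by_contra hcon
  push Not at hcon
  have h1 : S = Finset.univ := Finset.eq_univ_iff_forall.mpr hcon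
  rw [h1, Finset.card_univ] at hS
  omega

theorem g8_third {R : Type*} [Fintype R] (hR : 8 ≤ Fintype.card R) {a b : R} (hab : a ≠ b)
    (e : R) : ∃ c, Dis a b c ∧ c ≠ e := by
  obtain ⟨c, hc⟩ := g8_exists hR {a, b, e} (lt_of_le_of_lt Finset.card_le_three (by norm_num))
  simp only [Finset.mem_insert, Finset.mem_singleton, not_or] at hc
  exact ⟨c, ⟨hab, Ne.symm hc.2.1, Ne.symm hc.1⟩, hc.2.2⟩

theorem g8_two {R : Type*} [Fintype R] (hR : 8 ≤ Fintype.card R) {a b : R} (hab : a ≠ b) :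
    ∃ c d, Dis a b c ∧ Dis a b d ∧ c ≠ d := by
  obtain ⟨c, hc, _⟩ := g8_third hR hab a
  obtain ⟨d, hd, hdc⟩ := g8_third hR hab c
  exact ⟨c, d, hc, hd, hdc.symm⟩

theorem g8_cyc {R : Type*} {x y z a : R} (h1 : a ≠ x) (h2 : a ≠ y) (h3 : a ≠ z) :
    cyc x y z a = a := by
  unfold cyc
  rw [Equiv.Perm.mul_apply, Equiv.swap_apply_of_ne_of_ne h2 h3, Equiv.swap_apply_of_ne_of_ne h1 h2]

/-- Hence there is, for every pair `a ≠ b`, a line `ℓ a b` with: `ℓ a b = W a b c ∩ W a b d` for all distinct `c, d ∉ {a, b}`; `ℓ a b = ℓ b a`;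
`ℓ a b ⊆ W a b c`; `s x y z` maps `ℓ a b` onto `ℓ (τ a) (τ b)`, `τ = cyc x y z`; and `s x y z` fixes `ℓ a b` pointwise if `a, b ∉ {x, y, z}` (it maps the
line to itself, as multiplication by some `λ` with `λ³ = 1`, so `λ = 1` as `x² + x + 1` has no root in `K`). -/
theorem exists_lines (hK : ∀ x : K, x ^ 2 + x + 1 ≠ 0) (D : ACD K V R) : ∃ ℓ : R → R → Submodule K V,
    (∀ a b, a ≠ b → Module.finrank K (ℓ a b) = 1) ∧
    (∀ a b c d, Dis a b c → Dis a b d → c ≠ d → ℓ a b = D.W a b c ⊓ D.W a b d) ∧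
    (∀ a b, a ≠ b → ℓ a b = ℓ b a) ∧
    (∀ a b c, Dis a b c → ℓ a b ≤ D.W a b c) ∧
    (∀ x y z a b, Dis x y z → a ≠ b → (ℓ a b).map (D.s x y z) = ℓ (cyc x y z a) (cyc x y z b)) ∧
    (∀ x y z a b, Dis x y z → a ≠ b → a ≠ x → a ≠ y → a ≠ z → b ≠ x → b ≠ y → b ≠ z → ∀ v ∈ ℓ a b, D.s x y z v = v) := by
  have hex : ∀ a b : R, ∃ L : Submodule K V, a ≠ b → (Module.finrank K L = 1 ∧
      ∀ c d, Dis a b c → Dis a b d → c ≠ d → L = D.W a b c ⊓ D.W a b d) := by
    intro a b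
    by_cases hab : a = b
    · exact ⟨⊥, fun h => absurd hab h⟩
    · obtain ⟨c0, d0, hc0, hd0, hcd0⟩ := g8_two D.card hab
      refine ⟨D.W a b c0 ⊓ D.W a b d0, fun _ => ⟨g8_line D hc0 hd0 hcd0, ?_⟩⟩
      intro c d hc hd hcd
      exact (line_unique D hc0 hd0 hcd0 hc hd hcd).2
  choose ℓ hℓ using hex
  have p2 : ∀ a b c d, Dis a b c → Dis a b d → c ≠ d → ℓ a b = D.W a b c ⊓ D.W a b d :=
    fun a b c d hc hd hcd => (hℓ a b hc.1).2 c d hc hd hcd
  have p5 : ∀ x y z a b, Dis x y z → a ≠ b →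
      (ℓ a b).map (D.s x y z) = ℓ (cyc x y z a) (cyc x y z b) := by
    intro x y z a b hxyz hab
    obtain ⟨c, d, hc, hd, hcd⟩ := g8_two D.card hab
    rw [p2 a b c d hc hd hcd, Submodule.map_inf _ (g8_inj D hxyz), W_map D hxyz hc,
      W_map D hxyz hd]
    exact (p2 _ _ _ _ (g8_dis_map hc _) (g8_dis_map hd _)
      (fun h1 => hcd ((cyc x y z).injective h1))).symm
  refine ⟨ℓ, fun a b hab => (hℓ a b hab).1, p2, ?_, ?_, p5, ?_⟩
  · intro a b hab
    obtain ⟨c, d, hc, hd, hcd⟩ := g8_two D.card hab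
    rw [p2 a b c d hc hd hcd, p2 b a c d (g8_dis_swap' hc) (g8_dis_swap' hd) hcd,
      (W_perm D hc).2.2, (W_perm D hd).2.2]
  · intro a b c hc
    obtain ⟨d, hd, hdc⟩ := g8_third D.card hc.1 c
    rw [p2 a b c d hc hd hdc.symm]
    exact inf_le_left
  · intro x y z a b hxyz hab a1 a2 a3 b1 b2 b3 v hv
    have h1 := p5 x y z a b hxyz hab
    rw [g8_cyc a1 a2 a3, g8_cyc b1 b2 b3] at h1
    by_cases hv0 : v = 0
    · rw [hv0, map_zero]
    have hgv : D.s x y z v ∈ ℓ a b := by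
      rw [← h1]
      exact Submodule.mem_map_of_mem hv
    have h2 := (finrank_eq_one_iff_of_nonzero' (⟨v, hv⟩ : ℓ a b)
      (fun h3 => hv0 (congrArg Subtype.val h3))).mp (hℓ a b hab).1 ⟨D.s x y z v, hgv⟩
    obtain ⟨c, hc⟩ := h2
    have hc' : c • v = D.s x y z v := congrArg Subtype.val hc
    have h3 : (D.s x y z ^ 3) v = v := by
      rw [D.cube x y z hxyz]
      rfl
    have h4 : (D.s x y z ^ 3) v = c ^ 3 • v := by
      rw [pow_succ, pow_two]
      show D.s x y z (D.s x y z (D.s x y z v)) = c ^ 3 • v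
      rw [← hc', map_smul, ← hc', map_smul, map_smul, ← hc', smul_smul, smul_smul]
      congr 1
      ring
    rw [h3] at h4
    have h5 : (c ^ 3 - 1) • v = 0 := by rw [sub_smul, one_smul, ← h4, sub_self]
    have h6 : c ^ 3 - 1 = 0 := (smul_eq_zero.mp h5).resolve_right hv0
    have h7 : (c - 1) * (c ^ 2 + c + 1) = 0 := by
      have : (c - 1) * (c ^ 2 + c + 1) = c ^ 3 - 1 := by ring
      rw [this, h6]
    have h8 : c - 1 = 0 := (mul_eq_zero.mp h7).resolve_right (hK c)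
    rw [← hc', sub_eq_zero.mp h8, one_smul]

end TE
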