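import Pool.Agent.TE.Defs

set_option autoImplicit false

open scoped Classical Polynomial

namespace TE

/-! ## [TE-K2] the fixed field of `N` is `k^s(t)` -/

variable {k Ω : Type*} [Field k] [Field Ω] [Algebra k Ω] [Algebra (RatFunc k) Ω] [IsScalarTower k (RatFunc k) Ω]
  [IsSepClosure (RatFunc k) Ω]

omit [IsSepClosure (RatFunc k) Ω] in
theorem k2_tt_trans : ¬ IsAlgebraic k (tt k Ω) := by
  intro h
  have h1 : IsAlgebraic k (RatFunc.X : RatFunc k) :=
    (isAlgebraic_algebraMap_iff (algebraMap (RatFunc k) Ω).injective).1 h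
  exact RatFunc.transcendental_X h1

/-- `t` is transcendental over `k^s` (it is over `k`, and `k^s/k` is algebraic). -/
theorem aeval_tt_ne (p : (algebraicClosure k Ω)[X]) (hp : p ≠ 0) : Polynomial.aeval (tt k Ω) p ≠ 0 := by
  intro h
  have h1 : IsAlgebraic (algebraicClosure k Ω) (tt k Ω) := ⟨p, hp, h⟩
  exact k2_tt_trans (k := k) (Ω := Ω) (h1.restrictScalars k)

theorem aeval_tt_inj {p q : (algebraicClosure k Ω)[X]}
    (h : Polynomial.aeval (tt k Ω) p = Polynomial.aeval (tt k Ω) q) : p = q := by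
  by_contra hne
  refine aeval_tt_ne (p - q) (sub_ne_zero.2 hne) ?_
  rw [map_sub, h, sub_self]

/-- `N` fixes `p(t)` for `p ∈ k^s[X]`. -/
theorem aeval_tt_fixed (p : (algebraicClosure k Ω)[X]) {g : Gm k Ω} (hg : g ∈ NN k Ω) :
    g (Polynomial.aeval (tt k Ω) p) = Polynomial.aeval (tt k Ω) p := by
  rw [Polynomial.aeval_def]
  have h1 := Polynomial.hom_eval₂ p (algebraMap (algebraicClosure k Ω) Ω) ((g : Ω →ₐ[RatFunc k] Ω) : Ω →+* Ω)
    (tt k Ω)
  have h2 : ((g : Ω →ₐ[RatFunc k] Ω) : Ω →+* Ω).comp (algebraMap (algebraicClosure k Ω) Ω)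
      = algebraMap (algebraicClosure k Ω) Ω := by
    ext c
    exact hg _ (mem_algebraicClosure_iff.1 c.2)
  have h3 : ((g : Ω →ₐ[RatFunc k] Ω) : Ω →+* Ω) (tt k Ω) = tt k Ω := g.commutes _
  rw [h2, h3] at h1
  exact h1

omit [IsSepClosure (RatFunc k) Ω] in
theorem k2_aeval_map (q : k[X]) : Polynomial.aeval (tt k Ω) (q.map (algebraMap k (algebraicClosure k Ω))) =
    algebraMap (RatFunc k) Ω (algebraMap k[X] (RatFunc k) q) := by
  rw [Polynomial.aeval_map_algebraMap, ← RatFunc.aeval_X_left_eq_algebraMap, tt,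
    Polynomial.aeval_algebraMap_apply]

variable (k Ω) in
/-- the field `k^s(t)` -/
def k2M : IntermediateField (RatFunc k) Ω where
  carrier := {x | ∃ p q : (algebraicClosure k Ω)[X], q ≠ 0 ∧
    Polynomial.aeval (tt k Ω) q * x = Polynomial.aeval (tt k Ω) p}
  mul_mem' := by
    rintro x y ⟨p, q, hq, h⟩ ⟨p', q', hq', h'⟩
    refine ⟨p * p', q * q', mul_ne_zero hq hq', ?_⟩
    rw [map_mul, map_mul, ← h, ← h']
    ring
  add_mem' := by
    rintro x y ⟨p, q, hq, h⟩ ⟨p', q', hq', h'⟩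
    refine ⟨p * q' + p' * q, q * q', mul_ne_zero hq hq', ?_⟩
    rw [map_mul, map_add, map_mul, map_mul, ← h, ← h']
    ring
  algebraMap_mem' := by
    intro r
    refine ⟨(RatFunc.num r).map (algebraMap k (algebraicClosure k Ω)),
      (RatFunc.denom r).map (algebraMap k (algebraicClosure k Ω)), ?_, ?_⟩
    · exact (Polynomial.map_ne_zero_iff (algebraMap k (algebraicClosure k Ω)).injective).2
        (RatFunc.denom_ne_zero r)
    · rw [k2_aeval_map, k2_aeval_map, ← map_mul]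
      congr 1
      have h1 := RatFunc.num_div_denom r
      have h2 : algebraMap k[X] (RatFunc k) (RatFunc.denom r) ≠ 0 :=
        RatFunc.algebraMap_ne_zero (RatFunc.denom_ne_zero r)
      rw [div_eq_iff h2] at h1
      rw [h1, mul_comm]
  inv_mem' := by
    rintro x ⟨p, q, hq, h⟩
    by_cases hx : x = 0
    · refine ⟨0, 1, one_ne_zero, ?_⟩
      rw [hx, inv_zero, mul_zero, map_zero]
    · have hqt : Polynomial.aeval (tt k Ω) q ≠ 0 := by
        intro h0
        have h1 : IsAlgebraic (algebraicClosure k Ω) (tt k Ω) := ⟨q, hq, h0⟩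
        exact k2_tt_trans (k := k) (Ω := Ω) (h1.restrictScalars k)
      refine ⟨q, p, ?_, ?_⟩
      · rintro rfl
        rw [map_zero] at h
        exact (mul_ne_zero hqt hx) h
      · rw [← h, mul_assoc, mul_inv_cancel₀ hx, mul_one]

theorem k2_mem {x : Ω} : x ∈ k2M k Ω ↔ ∃ p q : (algebraicClosure k Ω)[X], q ≠ 0 ∧
    Polynomial.aeval (tt k Ω) q * x = Polynomial.aeval (tt k Ω) p := Iff.rfl

omit [IsSepClosure (RatFunc k) Ω] in
theorem k2_alg_mem {c : Ω} (hc : IsAlgebraic k c) : c ∈ k2M k Ω := by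
  refine ⟨Polynomial.C ⟨c, mem_algebraicClosure_iff.2 hc⟩, 1, one_ne_zero, ?_⟩
  rw [map_one, one_mul, Polynomial.aeval_C]
  rfl

theorem k2_fixed {x : Ω} (hx : x ∈ k2M k Ω) {g : Gm k Ω} (hg : g ∈ NN k Ω) : g x = x := by
  obtain ⟨p, q, hq, h⟩ := hx
  have h1 := congrArg g h
  rw [map_mul, aeval_tt_fixed q hg, aeval_tt_fixed p hg, ← h] at h1
  exact mul_left_cancel₀ (aeval_tt_ne q hq) h1

/-- The fixed field of `N`. Let `K₁ = {p(t)/q(t)}`, a subfield of `Ω` containing `F = k(t)` and `k^s`, i.e. an intermediate field of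
`Ω/F`. An element `x` fixed by `N`: if `g ∈ Γ` fixes `K₁` pointwise then `g ∈ N`, so `g x = x`; as `Ω/F` is Galois,
`x ∈ K₁` (`InfiniteGalois.fixedField_fixingSubgroup`). -/
theorem fixed_iff (x : Ω) : (∀ g ∈ NN k Ω, g x = x) ↔
    ∃ p q : (algebraicClosure k Ω)[X], q ≠ 0 ∧ Polynomial.aeval (tt k Ω) q * x = Polynomial.aeval (tt k Ω) p := by
  rw [← k2_mem (k := k)]
  constructor
  · intro h
    haveI : IsGalois (RatFunc k) Ω := inferInstance
    rw [← InfiniteGalois.fixedField_fixingSubgroup (k2M k Ω)]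
    rw [IntermediateField.mem_fixedField_iff]
    intro g hg
    apply h
    intro c hc
    exact (IntermediateField.mem_fixingSubgroup_iff _ _).1 hg c (k2_alg_mem hc)
  · intro h g hg
    exact k2_fixed h hg

/-- the fixed field of `N` as an intermediate field of `Ω/F`; `g` fixes it pointwise iff `g ∈ N` (it contains `k^s`) -/
theorem exists_fixedField : ∃ M : IntermediateField (RatFunc k) Ω, (∀ x : Ω, x ∈ M ↔ ∀ g ∈ NN k Ω, g x = x) ∧
    ∀ g : Gm k Ω, g ∈ NN k Ω ↔ ∀ x ∈ M, g x = x := by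
  refine ⟨k2M k Ω, fun x => (fixed_iff x).symm, fun g => ⟨fun hg x hx => k2_fixed hx hg, fun h c hc => ?_⟩⟩
  exact h c (k2_alg_mem hc)

end TE
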