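import Pool.Agent.TE.U1

set_option autoImplicit false

open scoped Classical Polynomial

namespace TE

/-! ## [TE-L2a] the residue fields are algebraic over `k` -/

variable {k Ω : Type*} [Field k] [Field Ω] [Algebra k Ω] [Algebra (RatFunc k) Ω] [IsScalarTower k (RatFunc k) Ω]
  [IsSepClosure (RatFunc k) Ω]

/-- `Ω` has transcendence degree one over `k`: if `x ∈ Ω` is transcendental over `k` then every element of `Ω` is algebraic over
`k(x)` (`IntermediateField.adjoin k {x}`).
Proof: `Ω` is algebraic over `k(t)`; so `x` is algebraic over `k(t)`, i.e. there is a nonzero polynomial relation `P(t, x) = 0` over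
`k`; as `x` is transcendental over `k`, `t` is algebraic over `k(x)`; so `k(t, x)` is algebraic over `k(x)` and `Ω` over it.
(Mathlib: `Algebra.trdeg`, `IsTranscendenceBasis`, or the exchange lemmas in `RingTheory/AlgebraicIndependent`.) -/
theorem alg_over_adjoin (x : Ω) (hx : Transcendental k x) (y : Ω) : IsAlgebraic (IntermediateField.adjoin k {x}) y := by
  have hsep : Algebra.IsSeparable (RatFunc k) Ω := IsSepClosure.separable
  have halg : Algebra.IsAlgebraic (RatFunc k) Ω := inferInstance
  have halg0 : Algebra.IsAlgebraic k[X] (RatFunc k) := IsLocalization.isAlgebraic _ (nonZeroDivisors k[X])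
  have h1 : IsTranscendenceBasis k fun _ : Unit => (Polynomial.X : k[X]) := IsTranscendenceBasis.polynomial _ _
  have h2 := h1.algebraMap_comp (A := RatFunc k)
  have h3 := h2.algebraMap_comp (A := Ω)
  have h4 := h3.lift_cardinalMk_eq_trdeg
  have h5 : AlgebraicIndependent k fun _ : Unit => x := by
    rw [algebraicIndependent_unique_type_iff]
    exact hx
  have h6 : IsTranscendenceBasis k fun _ : Unit => x :=
    h5.isTranscendenceBasis_of_lift_trdeg_le_of_finite h4.symm.le
  have h7 := h6.isAlgebraic_field
  have h8 : Set.range (fun _ : Unit => x) = {x} := Set.range_const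
  rw [h8] at h7
  exact h7.isAlgebraic y

/-- For a place `O` and `x ∈ O` there is a nonzero polynomial `p` over `k` with `p(x) ∈ 𝔪_O`.
Proof: otherwise `p(x)` is a unit of `O` for every `p ≠ 0` (it is in `O`), in particular `x` is transcendental over `k` and
`k(x) ⊆ O`. Every `y ∈ Ω` is algebraic, hence integral, over the field `k(x) ⊆ O`, and `O` is integrally closed: `y ∈ O`. So
`O = ⊤`, contradiction. -/
theorem res_alg (O : ValuationSubring Ω) (hO : Pl k O) (x : Ω) (hx : x ∈ O) :
    ∃ p : k[X], p ≠ 0 ∧ Mx O (Polynomial.aeval x p) := by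
  by_contra hcon
  push Not at hcon
  have hmem : ∀ p : k[X], Polynomial.aeval x p ∈ O := by
    intro p
    rw [Polynomial.aeval_eq_sum_range]
    refine sum_mem fun i _ => ?_
    rw [Algebra.smul_def]
    exact mul_mem (hO.1 _) (pow_mem hx i)
  have huni : ∀ p : k[X], p ≠ 0 → Uni O (Polynomial.aeval x p) := by
    intro p hp
    by_contra hu
    exact hcon p hp ⟨hmem p, hu⟩
  have htr : Transcendental k x := by
    rintro ⟨p, hp, hp0⟩
    exact (huni p hp).2.2 hp0
  have hadj : ∀ z ∈ IntermediateField.adjoin k {x}, z ∈ O := by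
    intro z hz
    obtain ⟨r, s, rfl⟩ := (IntermediateField.mem_adjoin_simple_iff k z).1 hz
    by_cases hs : s = 0
    · rw [hs, map_zero, div_zero]
      exact zero_mem _
    · rw [div_eq_mul_inv]
      exact mul_mem (hmem r) (huni s hs).2.1
  apply hO.2
  rw [eq_top_iff]
  intro y _
  have halg := alg_over_adjoin x htr y
  obtain ⟨p, hpm, hp0⟩ := halg.isIntegral
  let f : IntermediateField.adjoin k {x} →+* O :=
    (IntermediateField.adjoin k {x}).subtype.codRestrict O fun z => hadj z z.2
  have hint : IsIntegral O y := by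
    refine ⟨p.map f, hpm.map f, ?_⟩
    rw [Polynomial.eval₂_map]
    exact hp0
  obtain ⟨z, hz⟩ := IsIntegrallyClosed.isIntegral_iff.1 hint
  rw [← hz]
  exact z.2

end TE
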