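import Pool.Agent.TE.K2
import Pool.Agent.TE.L2

set_option autoImplicit false

open scoped Classical Polynomial

namespace TE

/-! ## [TE-P1a] the places of `Ω` over the irreducible polynomials -/

variable {k Ω : Type*} [Field k] [Field Ω] [Algebra k Ω] [Algebra (RatFunc k) Ω] [IsScalarTower k (RatFunc k) Ω]
  [IsSepClosure (RatFunc k) Ω]

/-- A place over an irreducible `π ∈ k^s[X]`.
Proof. Let `R ⊆ Ω` be the ring of all `p(t)`, `p ∈ k^s[X]`, and `I` its ideal generated by `π(t)`, `I ≠ R` (`aeval_tt_inj`). By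
`Ideal.image_subset_nonunits_valuationSubring` (Mathlib, `RingTheory/Valuation/LocalSubring.lean`) there is a valuation ring `O ⊇ R` of `Ω`
with `π(t) ∈ 𝔪_O`. If `π ∤ f` then `u π + v f = 1`, so `v(t) f(t) = 1 - u(t) π(t)` is a unit of `O`, hence so is `f(t)`. `O ≠ ⊤` because
`π(t) ≠ 0` is not a unit. Last part: by `fixed_iff`, `κ = p(t)/q(t)`, `p = π^i p'`, `q = π^j q'` with `p'`, `q'` not divisible by `π`, and
`P = π P'`, `π ∤ P'`. So `P(t) κ²` is a unit times `π(t)^(1 + 2i - 2j)`, and an odd power of `π(t)` is not a unit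
(`O.valuation (π(t)) < 1`). -/
theorem exists_place (π : (algebraicClosure k Ω)[X]) (hπ : Irreducible π) :
    ∃ O : ValuationSubring Ω, Pl k O ∧ (∀ f : (algebraicClosure k Ω)[X], Polynomial.aeval (tt k Ω) f ∈ O) ∧
      (∀ f : (algebraicClosure k Ω)[X], ¬ π ∣ f → Uni O (Polynomial.aeval (tt k Ω) f)) ∧
      (∀ P : (algebraicClosure k Ω)[X], π ∣ P → ¬ π ^ 2 ∣ P → ∀ κ : Ω, κ ≠ 0 → (∀ g ∈ NN k Ω, g κ = κ) →
        ¬ Uni O (Polynomial.aeval (tt k Ω) P * κ ^ 2)) := by
  let φ : (algebraicClosure k Ω)[X] →+* Ω :=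
    (Polynomial.aeval (tt k Ω) : (algebraicClosure k Ω)[X] →ₐ[algebraicClosure k Ω] Ω).toRingHom
  have hφ : ∀ f, φ f = Polynomial.aeval (tt k Ω) f := fun _ => rfl
  have hπ0 : Polynomial.aeval (tt k Ω) π ≠ 0 := aeval_tt_ne π hπ.ne_zero
  let I : Ideal φ.range := Ideal.span {⟨φ π, ⟨π, rfl⟩⟩}
  have hI : I ≠ ⊤ := by
    intro h
    have h1 : (1 : φ.range) ∈ I := by rw [h]; exact Submodule.mem_top
    rw [Ideal.mem_span_singleton'] at h1
    obtain ⟨⟨_, ⟨f, rfl⟩⟩, hf⟩ := h1
    have h2 : φ f * φ π = 1 := congrArg Subtype.val hf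
    have h3 : f * π = 1 := by
      apply aeval_tt_inj (k := k) (Ω := Ω)
      rw [map_mul, map_one]
      exact h2
    exact hπ.not_isUnit (IsUnit.of_mul_eq_one_right f h3)
  obtain ⟨O, hRO, hIO⟩ := Ideal.image_subset_nonunits_valuationSubring I hI
  have hmem : ∀ f : (algebraicClosure k Ω)[X], Polynomial.aeval (tt k Ω) f ∈ O :=
    fun f => hRO ⟨f, rfl⟩
  have hval : ∀ f : (algebraicClosure k Ω)[X],
      O.valuation (Polynomial.aeval (tt k Ω) f) ≤ 1 := fun f => (mem_iff O _).mp (hmem f)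
  have hw1 : O.valuation (Polynomial.aeval (tt k Ω) π) < 1 := by
    have h : (Polynomial.aeval (tt k Ω) π) ∈ O.nonunits :=
      hIO ⟨⟨φ π, ⟨π, rfl⟩⟩, Ideal.subset_span rfl, rfl⟩
    exact O.mem_nonunits_iff.mp h
  have hw0 : 0 < O.valuation (Polynomial.aeval (tt k Ω) π) := by
    rw [zero_lt_iff]
    exact (Valuation.ne_zero_iff _).mpr hπ0
  have hnd : ∀ f : (algebraicClosure k Ω)[X], ¬ π ∣ f →
      O.valuation (Polynomial.aeval (tt k Ω) f) = 1 := by
    intro f hf
    obtain ⟨u, v, huv⟩ := (hπ.coprime_iff_not_dvd).mpr hf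
    have h1 : Polynomial.aeval (tt k Ω) v * Polynomial.aeval (tt k Ω) f =
        1 - Polynomial.aeval (tt k Ω) u * Polynomial.aeval (tt k Ω) π := by
      have h0 := congrArg (Polynomial.aeval (tt k Ω)) huv
      rw [map_add, map_mul, map_mul, map_one] at h0
      linear_combination h0
    have h2 : O.valuation (Polynomial.aeval (tt k Ω) u * Polynomial.aeval (tt k Ω) π) < 1 := by
      rw [map_mul]
      exact lt_of_le_of_lt (mul_le_of_le_one_left' (hval u)) hw1
    have h3 : O.valuation (Polynomial.aeval (tt k Ω) v) * O.valuation (Polynomial.aeval (tt k Ω) f) = 1 := by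
      rw [← map_mul, h1]
      exact O.valuation.map_one_sub_of_lt h2
    by_contra h4
    have h5 : O.valuation (Polynomial.aeval (tt k Ω) f) < 1 := lt_of_le_of_ne (hval f) h4
    have h6 := lt_of_le_of_lt (mul_le_of_le_one_left' (hval v)) h5
    rw [h3] at h6
    exact lt_irrefl _ h6
  refine ⟨O, ⟨?_, ?_⟩, hmem, fun f hf => (uni_iff O _).mpr (hnd f hf), ?_⟩
  · intro c
    have h := hmem (Polynomial.C (algebraMap k (algebraicClosure k Ω) c))
    rw [Polynomial.aeval_C, ← IsScalarTower.algebraMap_apply] at h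
    exact h
  · rintro rfl
    have h1 : Uni (⊤ : ValuationSubring Ω) (Polynomial.aeval (tt k Ω) π) :=
      ⟨ValuationSubring.mem_top _, ValuationSubring.mem_top _, hπ0⟩
    rw [uni_iff] at h1
    exact absurd h1 (ne_of_lt hw1)
  · intro P hP hP2 κ hκ hfix hU
    obtain ⟨p, q, hq, hpq⟩ := (fixed_iff κ).mp hfix
    have hp : p ≠ 0 := by
      rintro rfl
      rw [map_zero] at hpq
      rcases mul_eq_zero.mp hpq with h | h
      · exact aeval_tt_ne q hq h
      · exact hκ h
    obtain ⟨i, p', hp', rfl⟩ := WfDvdMonoid.max_power_factor hp hπ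
    obtain ⟨j, q', hq', rfl⟩ := WfDvdMonoid.max_power_factor hq hπ
    obtain ⟨P', rfl⟩ := hP
    have hP' : ¬ π ∣ P' := by
      rintro ⟨R, rfl⟩
      exact hP2 ⟨R, by ring⟩
    rw [uni_iff, map_mul, map_pow, map_mul, map_mul, hnd P' hP', mul_one] at hU
    have h1 := congrArg O.valuation hpq
    rw [map_mul, map_mul, map_mul, map_mul, map_mul, map_pow, map_pow, map_pow, map_pow,
      hnd p' hp', hnd q' hq', mul_one, mul_one] at h1
    set w := O.valuation (Polynomial.aeval (tt k Ω) π) with hw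
    set v := O.valuation κ with hv
    have h2 : w ^ (2 * i + 1) = w ^ (2 * j) := by
      calc w ^ (2 * i + 1) = (w ^ i) ^ 2 * w := by rw [pow_succ, mul_comm 2 i, pow_mul]
        _ = (w ^ j * v) ^ 2 * w := by rw [h1]
        _ = w ^ (2 * j) * (w * v ^ 2) := by
            rw [mul_pow, mul_comm 2 j, pow_mul, mul_assoc, mul_comm w]
        _ = w ^ (2 * j) := by rw [hU, mul_one]
    have h3 := (pow_right_strictAnti₀ hw0 hw1).injective h2
    omega

end TE
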