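import Pool.Agent.TE.K2

set_option autoImplicit false

open scoped Classical Polynomial

namespace TE

/-! ## [TE-S1a] the sets of roots -/

variable {k Ω : Type*} [Field k] [Field Ω] [Algebra k Ω] [Algebra (RatFunc k) Ω] [IsScalarTower k (RatFunc k) Ω]
  [IsSepClosure (RatFunc k) Ω]

theorem mem_rts {Q : k[X]} (hQ : Q ≠ 0) (r : Ω) : r ∈ rts k Q ↔ Polynomial.aeval r Q = 0 := by
  have h0 : Q.map (algebraMap k Ω) ≠ 0 :=
    (Polynomial.map_ne_zero_iff (algebraMap k Ω).injective).2 hQ
  rw [rts, Multiset.mem_toFinset, Polynomial.mem_roots h0, Polynomial.IsRoot.def,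
    Polynomial.eval_map_algebraMap]

theorem rts_alg {Q : k[X]} {r : Ω} (hr : r ∈ rts k Q) : IsAlgebraic k r := by
  by_cases hQ : Q = 0
  · exfalso
    rw [rts, hQ, Polynomial.map_zero, Polynomial.roots_zero] at hr
    simp at hr
  · exact ⟨Q, hQ, (mem_rts hQ r).1 hr⟩

theorem S1a_fix (γ : Gm k Ω) (c : k) : γ (algebraMap k Ω c) = algebraMap k Ω c := by
  rw [IsScalarTower.algebraMap_apply k (RatFunc k) Ω, AlgEquiv.commutes]

theorem S1a_aeval (γ : Gm k Ω) (Q : k[X]) (r : Ω) :
    γ (Polynomial.aeval r Q) = Polynomial.aeval (γ r) Q := by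
  rw [Polynomial.aeval_eq_sum_range, Polynomial.aeval_eq_sum_range, map_sum]
  refine Finset.sum_congr rfl fun i _ => ?_
  rw [Algebra.smul_def, map_mul, S1a_fix, map_pow, Algebra.smul_def]

/-- `Γ` permutes the roots (for `Q ∈ k[X]`). -/
theorem rts_image {Q : k[X]} (γ : Gm k Ω) : (rts k Q : Finset Ω).image γ = rts k Q := by
  by_cases hQ : Q = 0
  · have h : (rts k Q : Finset Ω) = ∅ := by
      rw [rts, hQ, Polynomial.map_zero, Polynomial.roots_zero]
      simp
    rw [h, Finset.image_empty]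
  · ext r
    rw [Finset.mem_image]
    constructor
    · rintro ⟨s, hs, rfl⟩
      rw [mem_rts hQ] at hs ⊢
      rw [← S1a_aeval, hs, map_zero]
    · intro hr
      refine ⟨γ.symm r, ?_, γ.apply_symm_apply r⟩
      rw [mem_rts hQ] at hr ⊢
      apply γ.injective
      rw [S1a_aeval, γ.apply_symm_apply, hr, map_zero]

theorem S1a_splits {Q : k[X]} (hQ : Q.Separable) : (Q.map (algebraMap k Ω)).Splits := by
  haveI : IsSepClosed Ω := IsSepClosure.sep_closed (RatFunc k)
  exact IsSepClosed.splits_of_separable _ hQ.map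

/-- A separable polynomial over `k` splits in `Ω` (`Ω` is separably closed): `Q(t) = c ∏ (t - r)`, and it has `deg Q` roots. -/
theorem rts_card {Q : k[X]} (hQ : Q.Separable) : (rts k Q : Finset Ω).card = Q.natDegree := by
  have h1 := (S1a_splits (Ω := Ω) hQ).natDegree_eq_card_roots
  rw [Polynomial.natDegree_map] at h1
  rw [rts, Multiset.toFinset_card_of_nodup (Polynomial.nodup_roots hQ.map), h1]

theorem aeval_rts {Q : k[X]} (hQ : Q.Separable) (x : Ω) :
    Polynomial.aeval x Q = algebraMap k Ω Q.leadingCoeff * ∏ r ∈ (rts k Q : Finset Ω), (x - r) := by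
  have h1 := (S1a_splits (Ω := Ω) hQ).eval_eq_prod_roots x
  rw [Polynomial.eval_map_algebraMap, Polynomial.leadingCoeff_map] at h1
  rw [h1]
  congr 1
  rw [Finset.prod, rts, Multiset.toFinset_val, Multiset.dedup_eq_self.2 (Polynomial.nodup_roots hQ.map)]

end TE
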