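import Pool.Agent.TE.K2
import Pool.Agent.TE.S1a

set_option autoImplicit false

open scoped Classical Polynomial

namespace TE

/-! ## [TE-S1b] the Kummer characters `Kum S χ` -/

variable {k Ω : Type*} [Field k] [Field Ω] [Algebra k Ω] [Algebra (RatFunc k) Ω] [IsScalarTower k (RatFunc k) Ω]
  [IsSepClosure (RatFunc k) Ω]

omit [IsScalarTower k (RatFunc k) Ω] [IsSepClosure (RatFunc k) Ω] in
theorem s1b_gtt (g : Gm k Ω) : g (tt k Ω) = tt k Ω := by
  unfold tt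
  exact g.commutes _

theorem s1b_ne {r : Ω} (hr : IsAlgebraic k r) : tt k Ω - r ≠ 0 := by
  have hr' : r ∈ algebraicClosure k Ω := (mem_algebraicClosure_iff).2 hr
  have h := aeval_tt_ne (k := k) (Ω := Ω) (Polynomial.X - Polynomial.C (⟨r, hr'⟩ : algebraicClosure k Ω))
    (Polynomial.X_sub_C_ne_zero _)
  rw [map_sub, Polynomial.aeval_X, Polynomial.aeval_C] at h
  exact h

theorem s1b_prod_ne {S : Finset Ω} (hS : ∀ r ∈ S, IsAlgebraic k r) : ∏ r ∈ S, (tt k Ω - r) ≠ 0 :=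
  Finset.prod_ne_zero_iff.2 fun r hr => s1b_ne (hS r hr)

omit [IsSepClosure (RatFunc k) Ω] in
theorem s1b_fix {S : Finset Ω} (hS : ∀ r ∈ S, IsAlgebraic k r) {g : Gm k Ω} (hg : g ∈ NN k Ω) :
    g (∏ r ∈ S, (tt k Ω - r)) = ∏ r ∈ S, (tt k Ω - r) := by
  rw [map_prod]
  refine Finset.prod_congr rfl fun r hr => ?_
  rw [map_sub, s1b_gtt, hg r (hS r hr)]

/-- `∏_{r ∈ S} (t - r)` is not a square in `K = k^s(t)` for a nonempty finite set `S ⊆ k^s`.
Proof: if `p(t)² = q(t)² ∏ (t - r)` then `p² = q² ∏_{r ∈ S} (X - r)` in `k^s[X]` (`aeval_tt_inj`), and the root multiplicities at some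
`r₀ ∈ S` are even on the left and odd on the right. -/
theorem prod_not_sq {S : Finset Ω} (hS : ∀ r ∈ S, IsAlgebraic k r) (hne : S.Nonempty) (x : Ω)
    (hx : ∀ g ∈ NN k Ω, g x = x) : x ^ 2 ≠ ∏ r ∈ S, (tt k Ω - r) := by
  intro hxx
  obtain ⟨p, q, hq, hpq⟩ := (fixed_iff (k := k) (Ω := Ω) x).1 hx
  set S' : Finset (algebraicClosure k Ω) := S.subtype (fun r => r ∈ algebraicClosure k Ω) with hS'
  have hmem : ∀ r ∈ S, r ∈ algebraicClosure k Ω := fun r hr => (mem_algebraicClosure_iff).2 (hS r hr)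
  have hprod : Polynomial.aeval (tt k Ω) (∏ r ∈ S', (Polynomial.X - Polynomial.C r)) = ∏ r ∈ S, (tt k Ω - r) := by
    rw [map_prod]
    have h1 : ∀ r : algebraicClosure k Ω, Polynomial.aeval (tt k Ω) (Polynomial.X - Polynomial.C r)
        = tt k Ω - (r : Ω) := by
      intro r
      rw [map_sub, Polynomial.aeval_X, Polynomial.aeval_C]
      rfl
    rw [Finset.prod_congr rfl fun r _ => h1 r]
    exact Finset.prod_subtype_of_mem (fun r => tt k Ω - r) hmem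
  have h2 : p ^ 2 = q ^ 2 * ∏ r ∈ S', (Polynomial.X - Polynomial.C r) := by
    apply aeval_tt_inj (k := k) (Ω := Ω)
    rw [map_pow, map_mul, map_pow, hprod, ← hxx, ← hpq]
    ring
  have hS'ne : S'.Nonempty := by
    obtain ⟨r, hr⟩ := hne
    exact ⟨⟨r, hmem r hr⟩, Finset.mem_subtype.2 hr⟩
  obtain ⟨r0, hr0⟩ := hS'ne
  have hP : (∏ r ∈ S', (Polynomial.X - Polynomial.C r)) ≠ 0 :=
    Finset.prod_ne_zero_iff.2 fun r _ => Polynomial.X_sub_C_ne_zero r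
  have h3 := congrArg Polynomial.roots h2
  rw [Polynomial.roots_mul (mul_ne_zero (pow_ne_zero 2 hq) hP), Polynomial.roots_pow, Polynomial.roots_pow,
    Polynomial.roots_prod_X_sub_C] at h3
  have h4 := congrArg (Multiset.count r0) h3
  rw [Multiset.count_add, Multiset.count_nsmul, Multiset.count_nsmul,
    Multiset.count_eq_one_of_mem S'.nodup hr0] at h4
  omega

/-- the trivial character: `S = ∅` -/
theorem kum_empty {χ : Gm k Ω → Ω} (h : ∀ g ∈ NN k Ω, χ g = 1) : Kum (k := k) (∅ : Finset Ω) χ := by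
  refine ⟨1, by simp, fun g hg => ?_⟩
  rw [h g hg, map_one, one_mul]

/-- `e e' / ∏_{S ∩ S'} (t - r)` -/
theorem kum_mul {S S' : Finset Ω} {χ χ' : Gm k Ω → Ω} (hS : ∀ r ∈ S, IsAlgebraic k r) (hS' : ∀ r ∈ S', IsAlgebraic k r)
    (h : Kum S χ) (h' : Kum S' χ') : Kum (symmDiff S S') (fun g => χ g * χ' g) := by
  obtain ⟨e, he, hge⟩ := h
  obtain ⟨e', he', hge'⟩ := h'
  have hI : ∀ r ∈ S ∩ S', IsAlgebraic k r := fun r hr => hS r (Finset.mem_inter.1 hr).1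
  have hI0 := s1b_prod_ne (k := k) (Ω := Ω) hI
  refine ⟨e * e' / ∏ r ∈ S ∩ S', (tt k Ω - r), ?_, fun g hg => ?_⟩
  · have h1 : ∏ r ∈ S, (tt k Ω - r) = (∏ r ∈ S \ S', (tt k Ω - r)) * ∏ r ∈ S ∩ S', (tt k Ω - r) := by
      rw [← Finset.prod_union (Finset.disjoint_sdiff_inter S S'), Finset.sdiff_union_inter]
    have h2 : ∏ r ∈ S', (tt k Ω - r) = (∏ r ∈ S' \ S, (tt k Ω - r)) * ∏ r ∈ S ∩ S', (tt k Ω - r) := by
      rw [Finset.inter_comm S S', ← Finset.prod_union (Finset.disjoint_sdiff_inter S' S), Finset.sdiff_union_inter]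
    have h3 : ∏ r ∈ symmDiff S S', (tt k Ω - r) = (∏ r ∈ S \ S', (tt k Ω - r)) * ∏ r ∈ S' \ S, (tt k Ω - r) := by
      rw [← Finset.prod_union disjoint_sdiff_sdiff]
      rfl
    rw [div_pow, mul_pow, he, he', h1, h2, h3]
    field_simp
  · rw [map_div₀, map_mul, hge g hg, hge' g hg, s1b_fix hI hg]
    ring

/-- `Kum` only depends on the values on `N`. -/
theorem kum_congr {S : Finset Ω} {χ χ' : Gm k Ω → Ω} (h : Kum S χ) (hχ : ∀ g ∈ NN k Ω, χ g = χ' g) : Kum S χ' := by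
  obtain ⟨e, he, hge⟩ := h
  exact ⟨e, he, fun g hg => by rw [hge g hg, hχ g hg]⟩

/-- Uniqueness: `χ` determines `S`. Otherwise `x = e e' / ∏_{S ∩ S'} (t - r)` is fixed by `N` (`χ² = 1`) and
`x² = ∏_{r ∈ S Δ S'} (t - r)`, against `prod_not_sq`. -/
theorem kum_uniq {S S' : Finset Ω} {χ : Gm k Ω → Ω} (hS : ∀ r ∈ S, IsAlgebraic k r) (hS' : ∀ r ∈ S', IsAlgebraic k r)
    (hχ : ∀ g ∈ NN k Ω, χ g = 1 ∨ χ g = -1) (h : Kum S χ) (h' : Kum S' χ) : S = S' := by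
  by_contra hne
  have hne' : (symmDiff S S').Nonempty := by
    rw [Finset.nonempty_iff_ne_empty]
    intro h0
    exact hne (symmDiff_eq_bot.1 h0)
  have hal : ∀ r ∈ symmDiff S S', IsAlgebraic k r := by
    intro r hr
    rcases Finset.mem_symmDiff.1 hr with h1 | h1
    · exact hS r h1.1
    · exact hS' r h1.1
  obtain ⟨e, he, hge⟩ := kum_mul hS hS' h h'
  refine prod_not_sq hal hne' e (fun g hg => ?_) he
  rw [hge g hg]
  show χ g * χ g * e = e
  rcases hχ g hg with h1 | h1 <;> rw [h1] <;> ring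

/-- Conjugation by `γ ∈ Γ`: if `g e = χ(g) e` then `g (γ e) = γ (γ⁻¹gγ e) = χ(γ⁻¹ g γ) γ e`, `(γ e)² = ∏ (t - γ r)`. -/
theorem kum_conj {S : Finset Ω} {χ : Gm k Ω → Ω} (hχ : ∀ g ∈ NN k Ω, χ g = 1 ∨ χ g = -1) (γ : Gm k Ω) (h : Kum S χ) :
    Kum (S.image γ) (fun g => χ (γ⁻¹ * g * γ)) := by
  obtain ⟨e, he, hge⟩ := h
  have hconj : ∀ g ∈ NN k Ω, γ⁻¹ * g * γ ∈ NN k Ω := by
    intro g hg c hc
    have hc' : IsAlgebraic k (γ c) := by
      have := hc.algHom ((γ.restrictScalars k : Ω ≃ₐ[k] Ω) : Ω →ₐ[k] Ω)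
      exact this
    rw [AlgEquiv.mul_apply, AlgEquiv.mul_apply, hg _ hc', ← AlgEquiv.mul_apply, inv_mul_cancel]
    rfl
  refine ⟨γ e, ?_, fun g hg => ?_⟩
  · rw [← map_pow, he, map_prod, Finset.prod_image (fun a _ b _ hab => γ.injective hab)]
    refine Finset.prod_congr rfl fun r _ => ?_
    rw [map_sub, s1b_gtt]
  · have h1 := hge _ (hconj g hg)
    have h2 := congrArg γ h1
    rw [map_mul, AlgEquiv.mul_apply, AlgEquiv.mul_apply, ← AlgEquiv.mul_apply γ γ⁻¹, mul_inv_cancel,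
      AlgEquiv.one_apply] at h2
    show g (γ e) = χ (γ⁻¹ * g * γ) * γ e
    rw [h2]
    rcases hχ _ (hconj g hg) with h3 | h3
    · rw [h3, map_one]
    · rw [h3, map_neg, map_one]

/-- Any square root `x` of `z Q(t)`, `z ≠ 0` fixed... `x² = Q(t)`, `Q` separable, `g x = χ(g) x` on `N`: then `Kum (roots of Q) χ`
(divide `x` by a square root of the leading coefficient, which exists in `k^s`). -/
theorem kum_rts (h2 : (2 : k) ≠ 0) {Q : k[X]} (hQ : Q.Separable) {χ : Gm k Ω → Ω} {x : Ω}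
    (hx : x ^ 2 = Polynomial.aeval (tt k Ω) Q) (h : ∀ g ∈ NN k Ω, g x = χ g * x) : Kum (rts k Q : Finset Ω) χ := by
  have hQ0 : Q ≠ 0 := hQ.ne_zero
  have hl : Q.leadingCoeff ≠ 0 := Polynomial.leadingCoeff_ne_zero.2 hQ0
  haveI : IsSepClosed Ω := IsSepClosure.sep_closed (RatFunc k)
  have h2Ω : (2 : Ω) ≠ 0 := by
    have := (map_ne_zero (algebraMap k Ω)).2 h2
    rwa [map_ofNat] at this
  haveI : NeZero ((2 : ℕ) : Ω) := ⟨by exact_mod_cast h2Ω⟩
  obtain ⟨s, hs⟩ := IsSepClosed.exists_pow_nat_eq (algebraMap k Ω Q.leadingCoeff) 2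
  have hlΩ : algebraMap k Ω Q.leadingCoeff ≠ 0 := (map_ne_zero _).2 hl
  have hs0 : s ≠ 0 := by
    rintro rfl
    apply hlΩ
    rw [← hs]
    ring
  have hsa : IsAlgebraic k s := by
    have h1 : IsAlgebraic k (s ^ 2) := by
      rw [hs]
      exact isAlgebraic_algebraMap _
    exact h1.of_pow (by norm_num)
  refine ⟨x / s, ?_, fun g hg => ?_⟩
  · rw [div_pow, hx, hs, aeval_rts hQ]
    field_simp
  · rw [map_div₀, h g hg, hg s hsa]
    ring

end TE
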