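import Pool.Agent.TE.F0

set_option autoImplicit false

open WeierstrassCurve.Affine
open scoped Classical Polynomial

namespace TE

/-! ## [TE-T0] the `2`-primary Selmer group as a module over `Γ` -/

variable {k Ω : Type*} [Field k] [Field Ω] [Algebra k Ω] [Algebra (RatFunc k) Ω] [IsScalarTower k (RatFunc k) Ω]
  [IsSepClosure (RatFunc k) Ω]

theorem T0_pow_le {A : Type*} [AddCommGroup A] {x : A} {n m : ℕ} (h : n ≤ m) (hx : (2 ^ n : ℕ) • x = 0) :
    (2 ^ m : ℕ) • x = 0 := by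
  obtain ⟨c, rfl⟩ := Nat.exists_eq_add_of_le h
  rw [pow_add, mul_comm, mul_nsmul', hx, nsmul_zero]

theorem T0_isSel_zero (C : Crv (RatFunc k)) : IsSel C (0 : Gm k Ω → C.Pt Ω) := by
  have h := isSel_bd (Ω := Ω) C 0
  have h2 : (fun g : Gm k Ω => C.act g (0 : C.Pt Ω) - 0) = 0 := by
    funext g
    rw [map_zero, sub_zero]
    rfl
  rwa [h2] at h

theorem T0_isSel_neg {C : Crv (RatFunc k)} {f : Gm k Ω → C.Pt Ω} (hf : IsSel C f) : IsSel C (-f) := by
  have h := isSel_sub (T0_isSel_zero C) hf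
  have h2 : (fun g : Gm k Ω => (0 : Gm k Ω → C.Pt Ω) g - f g) = -f := by
    funext g
    simp
  rwa [h2] at h

theorem T0_isSel_add {C : Crv (RatFunc k)} {f f' : Gm k Ω → C.Pt Ω} (hf : IsSel C f) (hf' : IsSel C f') :
    IsSel C (f + f') := by
  have h := isSel_sub hf (T0_isSel_neg hf')
  have h2 : (fun g : Gm k Ω => f g - (-f') g) = f + f' := by
    funext g
    simp
  rwa [h2] at h

omit [Algebra k Ω] [IsScalarTower k (RatFunc k) Ω] [IsSepClosure (RatFunc k) Ω] in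
theorem T0_tw_one (C : Crv (RatFunc k)) (f : Gm k Ω → C.Pt Ω) : tw C 1 f = f := by
  funext g
  show C.act 1 (f (1⁻¹ * g * 1)) = f g
  rw [act_one, inv_one, one_mul, mul_one]

omit [Algebra k Ω] [IsScalarTower k (RatFunc k) Ω] [IsSepClosure (RatFunc k) Ω] in
theorem T0_tw_mul (C : Crv (RatFunc k)) (γ γ' : Gm k Ω) (f : Gm k Ω → C.Pt Ω) :
    tw C (γ * γ') f = tw C γ (tw C γ' f) := by
  funext g
  show C.act (γ * γ') (f ((γ * γ')⁻¹ * g * (γ * γ'))) = C.act γ (C.act γ' (f (γ'⁻¹ * (γ⁻¹ * g * γ) * γ')))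
  rw [act_mul, mul_inv_rev, show γ'⁻¹ * γ⁻¹ * g * (γ * γ') = γ'⁻¹ * (γ⁻¹ * g * γ) * γ' by simp only [mul_assoc]]

omit [Algebra k Ω] [IsScalarTower k (RatFunc k) Ω] [IsSepClosure (RatFunc k) Ω] in
theorem T0_tw_add (C : Crv (RatFunc k)) (γ : Gm k Ω) (f f' : Gm k Ω → C.Pt Ω) :
    tw C γ (f + f') = tw C γ f + tw C γ f' := by
  funext g
  show C.act γ (f (γ⁻¹ * g * γ) + f' (γ⁻¹ * g * γ)) = C.act γ (f (γ⁻¹ * g * γ)) + C.act γ (f' (γ⁻¹ * g * γ))
  rw [map_add]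

omit [Algebra k Ω] [IsScalarTower k (RatFunc k) Ω] [IsSepClosure (RatFunc k) Ω] in
theorem T0_tw_zero (C : Crv (RatFunc k)) (γ : Gm k Ω) : tw C γ (0 : Gm k Ω → C.Pt Ω) = 0 := by
  funext g
  show C.act γ 0 = 0
  rw [map_zero]

omit [Algebra k Ω] [IsScalarTower k (RatFunc k) Ω] [IsSepClosure (RatFunc k) Ω] in
theorem T0_tw_neg (C : Crv (RatFunc k)) (γ : Gm k Ω) (f : Gm k Ω → C.Pt Ω) :
    tw C γ (-f) = -tw C γ f := by
  funext g
  show C.act γ (-f (γ⁻¹ * g * γ)) = -C.act γ (f (γ⁻¹ * g * γ))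
  rw [map_neg]

theorem T0_tw_bd (C : Crv (RatFunc k)) (γ : Gm k Ω) (f : Gm k Ω → C.Pt Ω) (Q : C.Pt Ω)
    (h : ∀ g ∈ NN k Ω, f g = C.act g Q - Q) :
    ∀ g ∈ NN k Ω, tw C γ f g = C.act g (C.act γ Q) - C.act γ Q := by
  intro g hg
  show C.act γ (f (γ⁻¹ * g * γ)) = _
  rw [h _ (NN_conj hg), map_sub, ← act_mul, ← act_mul]
  congr 2
  group

/-- the Selmer crossed homomorphisms killed (on `N`) by a power of `2`: `isSel_sub`, `isSel_bd` with `Q = 0` (up to values outside `N`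
`IsSel` only depends on the values on `N`) -/
noncomputable def SelG (C : Crv (RatFunc k)) : AddSubgroup (Gm k Ω → C.Pt Ω) where
  carrier := {f | IsSel C f ∧ ∃ n : ℕ, ∀ g ∈ NN k Ω, (2 ^ n : ℕ) • f g = 0}
  zero_mem' := ⟨T0_isSel_zero C, 0, fun g _ => by simp⟩
  add_mem' := by
    rintro f f' ⟨hf, n, hn⟩ ⟨hf', n', hn'⟩
    refine ⟨T0_isSel_add hf hf', n + n', fun g hg => ?_⟩
    rw [Pi.add_apply, nsmul_add, T0_pow_le (Nat.le_add_right n n') (hn g hg),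
      T0_pow_le (Nat.le_add_left n' n) (hn' g hg), add_zero]
  neg_mem' := by
    rintro f ⟨hf, n, hn⟩
    refine ⟨T0_isSel_neg hf, n, fun g hg => ?_⟩
    rw [Pi.neg_apply, smul_neg, hn g hg, neg_zero]

/-- the coboundaries of the points of `2`-power order -/
noncomputable def BdG (C : Crv (RatFunc k)) : AddSubgroup (SelG (Ω := Ω) C) where
  carrier := {f | ∃ Q : C.Pt Ω, (∃ n : ℕ, (2 ^ n : ℕ) • Q = 0) ∧ ∀ g ∈ NN k Ω, f.1 g = C.act g Q - Q}
  zero_mem' := by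
    refine ⟨0, ⟨0, by simp⟩, fun g _ => ?_⟩
    rw [map_zero, sub_zero]
    rfl
  add_mem' := by
    rintro f f' ⟨Q, ⟨n, hn⟩, h⟩ ⟨Q', ⟨n', hn'⟩, h'⟩
    refine ⟨Q + Q', ⟨n + n', ?_⟩, fun g hg => ?_⟩
    · rw [nsmul_add, T0_pow_le (Nat.le_add_right n n') hn, T0_pow_le (Nat.le_add_left n' n) hn', add_zero]
    · show f.1 g + f'.1 g = _
      rw [h g hg, h' g hg, map_add]
      abel
  neg_mem' := by
    rintro f ⟨Q, ⟨n, hn⟩, h⟩
    refine ⟨-Q, ⟨n, ?_⟩, fun g hg => ?_⟩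
    · rw [smul_neg, hn, neg_zero]
    · show -f.1 g = _
      rw [h g hg, map_neg]
      abel

variable (Ω) in
/-- `Sel_{2^∞}(E/K)` -/
abbrev YS (C : Crv (RatFunc k)) : Type _ := SelG (Ω := Ω) C ⧸ BdG (Ω := Ω) C

/-- the class of a Selmer crossed homomorphism -/
noncomputable def cl {C : Crv (RatFunc k)} (f : SelG (Ω := Ω) C) : YS Ω C := QuotientAddGroup.mk f

/-- `tw` as an operation on `SelG` (`isSel_tw`, `NN_conj`) -/
noncomputable def twS {C : Crv (RatFunc k)} (γ : Gm k Ω) (f : SelG (Ω := Ω) C) : SelG (Ω := Ω) C :=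
  ⟨tw C γ f.1, by
    obtain ⟨hf, n, hn⟩ := f.2
    refine ⟨isSel_tw hf γ, n, fun g hg => ?_⟩
    show (2 ^ n : ℕ) • C.act γ (f.1 (γ⁻¹ * g * γ)) = 0
    rw [← map_nsmul, hn _ (NN_conj hg), map_zero]⟩

theorem T0_twS_cl {C : Crv (RatFunc k)} (γ : Gm k Ω) (a b : SelG (Ω := Ω) C) (h : -a + b ∈ BdG C) :
    (cl (twS γ a) : YS Ω C) = cl (twS γ b) := by
  refine QuotientAddGroup.eq.2 ?_
  obtain ⟨Q, ⟨n, hn⟩, hQ⟩ := h
  refine ⟨C.act γ Q, ⟨n, ?_⟩, ?_⟩
  · rw [← map_nsmul, hn, map_zero]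
  · intro g hg
    have h1 := T0_tw_bd C γ (-a + b : SelG (Ω := Ω) C).1 Q hQ g hg
    rw [← h1]
    show (-tw C γ a.1 + tw C γ b.1) g = tw C γ (-a.1 + b.1) g
    rw [T0_tw_add, T0_tw_neg]

/-- `tw γ (tw γ' f) = tw (γ γ') f`, `tw 1 f = f`, `tw γ (f + f') = tw γ f + tw γ f'`, and `tw γ (∂Q) = ∂(γQ)`, so the action passes to the
quotient. -/
noncomputable instance YSact (C : Crv (RatFunc k)) : DistribMulAction (Gm k Ω) (YS Ω C) where
  smul γ y := Quotient.liftOn y (fun f => (cl (twS γ f) : YS Ω C)) (by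
    intro a b hab
    exact T0_twS_cl γ a b (QuotientAddGroup.leftRel_apply.1 hab))
  one_smul := by
    intro y
    induction y using QuotientAddGroup.induction_on with
    | H f =>
      show (cl (twS 1 f) : YS Ω C) = cl f
      have : twS 1 f = f := Subtype.ext (T0_tw_one C f.1)
      rw [this]
  mul_smul := by
    intro γ γ' y
    induction y using QuotientAddGroup.induction_on with
    | H f =>
      show (cl (twS (γ * γ') f) : YS Ω C) = cl (twS γ (twS γ' f))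
      have : twS (γ * γ') f = twS γ (twS γ' f) := Subtype.ext (T0_tw_mul C γ γ' f.1)
      rw [this]
  smul_zero := by
    intro γ
    show (cl (twS γ 0) : YS Ω C) = cl 0
    have : twS γ (0 : SelG (Ω := Ω) C) = 0 := Subtype.ext (T0_tw_zero C γ)
    rw [this]
  smul_add := by
    intro γ y y'
    induction y using QuotientAddGroup.induction_on with
    | H f =>
      induction y' using QuotientAddGroup.induction_on with
      | H f' =>
        show (cl (twS γ (f + f')) : YS Ω C) = cl (twS γ f + twS γ f')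
        have : twS γ (f + f') = twS γ f + twS γ f' := Subtype.ext (T0_tw_add C γ f.1 f'.1)
        rw [this]

theorem smul_cl {C : Crv (RatFunc k)} (γ : Gm k Ω) (f : SelG (Ω := Ω) C) : γ • cl f = cl (twS γ f) := rfl

theorem cl_eq {C : Crv (RatFunc k)} (f f' : SelG (Ω := Ω) C) : cl f = cl f' ↔
    ∃ Q : C.Pt Ω, (∃ n : ℕ, (2 ^ n : ℕ) • Q = 0) ∧ ∀ g ∈ NN k Ω, f.1 g - f'.1 g = C.act g Q - Q := by
  constructor
  · intro h
    obtain ⟨Q, ⟨n, hn⟩, hQ⟩ := (QuotientAddGroup.eq.1 h : -f + f' ∈ BdG C)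
    refine ⟨-Q, ⟨n, by rw [smul_neg, hn, neg_zero]⟩, fun g hg => ?_⟩
    have h1 : -f.1 g + f'.1 g = C.act g Q - Q := hQ g hg
    rw [map_neg]
    have h2 : f.1 g - f'.1 g = -(-f.1 g + f'.1 g) := by abel
    rw [h2, h1]
    abel
  · rintro ⟨Q, ⟨n, hn⟩, hQ⟩
    refine QuotientAddGroup.eq.2 ?_
    refine ⟨-Q, ⟨n, by rw [smul_neg, hn, neg_zero]⟩, fun g hg => ?_⟩
    show -f.1 g + f'.1 g = _
    have h2 : -f.1 g + f'.1 g = -(f.1 g - f'.1 g) := by abel
    rw [h2, hQ g hg, map_neg]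
    abel

theorem cl_add {C : Crv (RatFunc k)} (f f' : SelG (Ω := Ω) C) : cl (f + f') = cl f + cl f' := rfl

theorem cl_nsmul {C : Crv (RatFunc k)} (f : SelG (Ω := Ω) C) (n : ℕ) : cl (n • f) = n • cl f :=
  map_nsmul (QuotientAddGroup.mk' (BdG (Ω := Ω) C)) n f

/-- `Γ` acts on the roots (`rts_image`). -/
noncomputable instance RTact (Q : k[X]) : MulAction (Gm k Ω) (RT k Ω Q) where
  smul γ r := ⟨γ r.1, by
    have h := rts_image (Ω := Ω) (Q := Q) γ
    exact (Finset.ext_iff.1 h _).1 (Finset.mem_image_of_mem _ r.2)⟩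
  one_smul := fun _ => Subtype.ext rfl
  mul_smul := fun _ _ _ => Subtype.ext rfl

theorem RT_smul (Q : k[X]) (γ : Gm k Ω) (r : RT k Ω Q) : (γ • r).1 = γ r.1 := rfl

/-- The `2`-power torsion of `E(K)` is `{0, T}`: if `2ⁿ⁺¹ P = 0` and `P` is fixed by `N`, then by induction `2P ∈ {0, T}`; `2P = T` is impossible
(`half_K`, `gP - P = 0`), so `2P = 0` and `P ∈ {0, T}` (`tors_K`). -/
theorem tors_pow_K (d : Dat k) (n : ℕ) {P : d.C.Pt Ω} (hP : (2 ^ n : ℕ) • P = 0) (hN : ∀ g ∈ NN k Ω, d.C.act g P = P) :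
    P = 0 ∨ P = d.C.T Ω := by
  induction n generalizing P with
  | zero =>
    left
    rwa [pow_zero, one_nsmul] at hP
  | succ n ih =>
    have h1 : (2 ^ n : ℕ) • ((2 : ℕ) • P) = 0 := by
      rw [← mul_nsmul', ← pow_succ, hP]
    have h2 : ∀ g ∈ NN k Ω, d.C.act g ((2 : ℕ) • P) = (2 : ℕ) • P := by
      intro g hg
      rw [map_nsmul, hN g hg]
    rcases ih h1 h2 with h3 | h3
    · exact tors_K d h3 hN
    · exfalso
      apply half_K d h3
      intro g hg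
      rw [hN g hg, sub_self, ch_zero]

end TE
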