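import Pool.Agent.TE.T1a

set_option autoImplicit false

open WeierstrassCurve.Affine
open scoped Classical Polynomial

namespace TE

/-! ## [TE-T1b] the two hearts in the Selmer group -/

variable {k Ω : Type*} [Field k] [Field Ω] [Algebra k Ω] [Algebra (RatFunc k) Ω] [IsScalarTower k (RatFunc k) Ω]
  [IsSepClosure (RatFunc k) Ω] (d : Dat k)

omit [Algebra (RatFunc k) Ω] [IsScalarTower k (RatFunc k) Ω] [IsSepClosure (RatFunc k) Ω] in
theorem T1b_lift {Q : k[X]} (S : Finset Ω) (hS : S ⊆ rts k Q) : ∃ S' : Finset (RT k Ω Q), vS S' = S := by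
  refine ⟨Finset.univ.filter (fun r => r.1 ∈ S), ?_⟩
  ext x
  unfold vS
  rw [Finset.mem_map]
  constructor
  · rintro ⟨r, hr, rfl⟩
    exact (Finset.mem_filter.1 hr).2
  · intro hx
    exact ⟨⟨x, hS hx⟩, Finset.mem_filter.2 ⟨Finset.mem_univ _, hx⟩, rfl⟩

theorem T1b_even {α : Type*} [DecidableEq α] {S S' : Finset α} (h : Even S.card) (h' : Even S'.card) :
    Even (symmDiff S S').card := by
  have h1 : (symmDiff S S').card = (S \ S').card + (S' \ S).card := by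
    rw [symmDiff_def]
    exact Finset.card_union_of_disjoint disjoint_sdiff_sdiff
  have h2 := Finset.card_sdiff_add_card_inter S S'
  have h3 := Finset.card_sdiff_add_card_inter S' S
  rw [Finset.inter_comm S' S] at h3
  obtain ⟨a, ha⟩ := h
  obtain ⟨b, hb⟩ := h'
  rw [h1]
  refine ⟨a + b - (S ∩ S').card, ?_⟩
  omega

theorem T1b_bd (f : SelG (Ω := Ω) d.C) {R : d.C.Pt Ω} {n : ℕ} (hR : (2 ^ n : ℕ) • R = 0) :
    ∃ f' : SelG (Ω := Ω) d.C, (∀ g, f'.1 g = f.1 g - (d.C.act g R - R)) ∧ cl f' = cl f := by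
  have h1 : (fun g => d.C.act g R - R) ∈ SelG (Ω := Ω) d.C := by
    refine ⟨isSel_bd d.C R, n, fun g _ => ?_⟩
    rw [nsmul_sub, ← map_nsmul, hR, map_zero, sub_zero]
  refine ⟨f - ⟨_, h1⟩, fun g => rfl, ?_⟩
  rw [cl_eq]
  refine ⟨-R, ⟨n, by rw [smul_neg, hR, neg_zero]⟩, fun g _ => ?_⟩
  show f.1 g - (d.C.act g R - R) - f.1 g = _
  rw [map_neg]
  abel

omit [IsScalarTower k (RatFunc k) Ω] [IsSepClosure (RatFunc k) Ω] in
/-- A character in `Kum ∅` is trivial. -/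
theorem T1b_kum_empty {χ : Gm k Ω → Ω} (h : Kum (k := k) (∅ : Finset Ω) χ) : ∀ g ∈ NN k Ω, χ g = 1 := by
  obtain ⟨e, he, hg⟩ := h
  rw [Finset.prod_empty] at he
  have he0 : e ≠ 0 := by
    rintro rfl
    simp at he
  intro g hgN
  have h1 : g e = e := by
    rcases sq_eq_one_iff.1 he with h | h
    · rw [h, map_one]
    · rw [h, map_neg, map_one]
  have h2 := hg g hgN
  rw [h1] at h2
  have h3 : (χ g - 1) * e = 0 := by linear_combination -h2
  rcases mul_eq_zero.1 h3 with h4 | h4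
  · exact sub_eq_zero.1 h4
  · exact absurd h4 he0

omit [Algebra k Ω] [IsScalarTower k (RatFunc k) Ω] [IsSepClosure (RatFunc k) Ω] in
theorem T1b_TT : d.C.T Ω + d.C.T Ω = 0 := by
  rw [← two_nsmul]
  exact two_T d.C

omit [Algebra k Ω] [IsScalarTower k (RatFunc k) Ω] [IsSepClosure (RatFunc k) Ω] in
/-- the character of a homomorphism to `{0, T}` is additive -/
theorem T1b_chi {P P' : d.C.Pt Ω} (h : P = 0 ∨ P = d.C.T Ω) (h' : P' = 0 ∨ P' = d.C.T Ω) :
    (P + P' = 0 ∨ P + P' = d.C.T Ω) ∧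
      (if P = 0 then (1 : Ω) else -1) * (if P' = 0 then (1 : Ω) else -1) = if P + P' = 0 then (1 : Ω) else -1 := by
  have hT := T_ne (K := Ω) d.C
  have hTT := T1b_TT (Ω := Ω) d
  rcases h with rfl | rfl <;> rcases h' with rfl | rfl
  · simp
  · simp
  · simp [hT]
  · simp [hT, hTT]

omit [Algebra k Ω] [IsScalarTower k (RatFunc k) Ω] [IsSepClosure (RatFunc k) Ω] in
theorem T1b_two {P : d.C.Pt Ω} (h : P = 0 ∨ P = d.C.T Ω) : (2 : ℕ) • P = 0 := by
  rcases h with rfl | rfl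
  · simp
  · exact two_T d.C

/-- `Kum ∅`: `e² = 1`, so `ch (f g) = 1`, `f g ∈ {0, T}` on `N`; `coreB`. -/
theorem relD1 (y : YS Ω d.C) (h : relB d y ∅) : ∃ S, relD d y S := by
  obtain ⟨f, rfl, h2, -, hK⟩ := h
  rw [(vS_props (Q := d.B) (∅ : Finset (RT k Ω d.B)) ∅).2.2.2.2.1] at hK
  have h1 := T1b_kum_empty hK
  have hT : ∀ g ∈ NN k Ω, f.1 g = 0 ∨ f.1 g = d.C.T Ω := fun g hg => (ch_eq_one_iff d.C _).1 (h1 g hg)
  obtain ⟨S, hS, hev, hK'⟩ := coreB d f.2.1 hT
  obtain ⟨S', rfl⟩ := T1b_lift S hS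
  refine ⟨S', f, rfl, hT, ?_, hK'⟩
  rwa [(vS_props S' S').2.2.1] at hev

theorem relD2 (y y' : YS Ω d.C) (S S') (h : relD d y S) (h' : relD d y' S') : relD d (y + y') (symmDiff S S') := by
  obtain ⟨f, rfl, hT, hev, hK⟩ := h
  obtain ⟨f', rfl, hT', hev', hK'⟩ := h'
  refine ⟨f + f', rfl, ?_, T1b_even hev hev', ?_⟩
  · intro g hg
    exact (T1b_chi d (hT g hg) (hT' g hg)).1
  · rw [(vS_props S S').1]
    refine kum_congr (kum_mul (vS_props S S').2.1 (vS_props S' S').2.1 hK hK') ?_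
    intro g hg
    exact (T1b_chi d (hT g hg) (hT' g hg)).2

/-- `f = ∂Q` with values in `{0, T}`; `2Q ∈ {0, T}` as above, `2Q = T` is impossible (`half_K`), so `2Q = 0`; if `ch Q = 1` then `∂Q = 0` and `S = ∅`; if
`ch Q = -1` then `S = univ` by `kum_tors`. -/
theorem relD3 (S) (h : relD d (0 : YS Ω d.C) S) : S = ∅ ∨ S = Finset.univ := by
  obtain ⟨f, hf, hT, hev, hK⟩ := h
  have h1 : (cl f : YS Ω d.C) = cl 0 := hf
  obtain ⟨Q, ⟨n, hn⟩, hQ'⟩ := (cl_eq _ _).1 h1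
  have hQ : ∀ g ∈ NN k Ω, f.1 g = d.C.act g Q - Q := by
    intro g hg
    have h3 : f.1 g - 0 = d.C.act g Q - Q := hQ' g hg
    rwa [sub_zero] at h3
  have hval : ∀ g ∈ NN k Ω, (if f.1 g = 0 then (1 : Ω) else -1) = 1 ∨
      (if f.1 g = 0 then (1 : Ω) else -1) = -1 := by
    intro g _
    by_cases h : f.1 g = 0
    · left; rw [if_pos h]
    · right; rw [if_neg h]
  have h4 : ∀ g ∈ NN k Ω, d.C.act g ((2 : ℕ) • Q) = (2 : ℕ) • Q := by
    intro g hg
    have h5 := T1b_two d (hT g hg)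
    rw [hQ g hg, nsmul_sub, ← map_nsmul, sub_eq_zero] at h5
    exact h5
  have h5 : (2 ^ n : ℕ) • ((2 : ℕ) • Q) = 0 := by
    rw [← mul_nsmul', mul_comm, mul_nsmul', hn, nsmul_zero]
  rcases tors_pow_K d n h5 h4 with h6 | h6
  · rcases ch_val d.C Q with h7 | h7
    · left
      have h8 : Kum (k := k) (∅ : Finset Ω) (fun g => if f.1 g = 0 then (1 : Ω) else -1) := by
        apply kum_empty
        intro g hg
        have h9 : f.1 g = 0 := by
          rw [hQ g hg]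
          rcases (ch_eq_one_iff d.C Q).1 h7 with h | h
          · rw [h, map_zero, sub_zero]
          · rw [h, act_T, sub_self]
        show (if f.1 g = 0 then (1 : Ω) else -1) = 1
        rw [if_pos h9]
      have h9 := kum_uniq (vS_props S S).2.1 (by simp) hval hK h8
      apply (vS_props S ∅).2.2.2.2.2.1
      rw [h9, (vS_props S S).2.2.2.2.1]
    · right
      have h8 : Kum (rts k d.D : Finset Ω) (fun g => if f.1 g = 0 then (1 : Ω) else -1) := by
        refine kum_congr (kum_tors d h6 h7) ?_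
        intro g hg
        show _ = (if f.1 g = 0 then (1 : Ω) else -1)
        rw [hQ g hg]
      have h9 := kum_uniq (vS_props S S).2.1 (fun r hr => rts_alg hr) hval hK h8
      apply (vS_props S Finset.univ).2.2.2.2.2.1
      rw [h9, (vS_props S S).2.2.2.1]
  · exfalso
    refine half_K d h6 ?_
    intro g hg
    rw [← hQ g hg]
    exact (ch_eq_one_iff d.C _).2 (hT g hg)

/-- `0` and `T` are fixed by `γ`: `tw γ f g = f (γ⁻¹gγ)`; `kum_conj`. -/
theorem relD4 (γ : Gm k Ω) (y : YS Ω d.C) (S) (h : relD d y S) : relD d (γ • y) (S.image (fun r => γ • r)) := by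
  obtain ⟨f, rfl, hT, hev, hK⟩ := h
  have key : ∀ g ∈ NN k Ω, (twS γ f).1 g = f.1 (γ⁻¹ * g * γ) := by
    intro g hg
    show d.C.act γ (f.1 (γ⁻¹ * g * γ)) = _
    rcases hT _ (NN_conj hg) with h | h
    · rw [h, map_zero]
    · rw [h, act_T]
  refine ⟨twS γ f, (smul_cl γ f).symm, ?_, ?_, ?_⟩
  · intro g hg
    rw [key g hg]
    exact hT _ (NN_conj hg)
  · rw [Finset.card_image_of_injective _ (MulAction.injective γ)]
    exact hev
  · rw [(vS_props S S).2.2.2.2.2.2 γ]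
    refine kum_congr (kum_conj (fun g _ => ?_) γ hK) ?_
    · by_cases h : f.1 g = 0
      · left; rw [if_pos h]
      · right; rw [if_neg h]
    · intro g hg
      show (if f.1 (γ⁻¹ * g * γ) = 0 then (1 : Ω) else -1) = (if (twS γ f).1 g = 0 then (1 : Ω) else -1)
      rw [key g hg]

theorem relD5 (y : YS Ω d.C) (S) (h : relD d y S) : Even S.card ∧ (2 : ℕ) • y = 0 := by
  obtain ⟨f, rfl, hT, hev, hK⟩ := h
  refine ⟨hev, ?_⟩
  rw [← cl_nsmul]
  show (cl ((2 : ℕ) • f) : YS Ω d.C) = cl 0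
  rw [cl_eq]
  refine ⟨0, ⟨0, by simp⟩, fun g hg => ?_⟩
  show (2 : ℕ) • f.1 g - 0 = _
  rw [T1b_two d (hT g hg), map_zero]

/-- `f - ∂R` with `2R = 0`, `ch R = -1` (`exists_tors`, `tors_diff`, `kum_tors`, `kum_mul`) -/
theorem relD6 (y : YS Ω d.C) (S) (h : relD d y S) : relD d y Sᶜ := by
  have : IsSepClosed Ω := IsSepClosure.sep_closed (RatFunc k)
  obtain ⟨f, rfl, hT, hev, hK⟩ := h
  obtain ⟨R, hR, hc⟩ := exists_tors (K := Ω) d.C
  have hR2 : (2 ^ 1 : ℕ) • R = 0 := by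
    rw [pow_one, hR]
  obtain ⟨f', hf', hcl⟩ := T1b_bd d f hR2
  have h3 : ∀ g : Gm k Ω, -(d.C.act g R - R) = d.C.act g R - R := by
    intro g
    have h4 := T1b_two d (tors_diff d hR hc g)
    rw [two_nsmul] at h4
    exact neg_eq_of_add_eq_zero_left h4
  refine ⟨f', hcl, ?_, ?_, ?_⟩
  · intro g hg
    rw [hf' g, sub_eq_add_neg, h3 g]
    exact (T1b_chi d (hT g hg) (tors_diff d hR hc g)).1
  · have h4 : Fintype.card (RT k Ω d.D) = 4 * d.m := by
      have h5 := card_RT (Ω := Ω) (Q := d.D) d.sepD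
      rw [h5]
      exact d.degD
    rw [Finset.card_compl, h4]
    obtain ⟨a, ha⟩ := hev
    refine ⟨2 * d.m - a, ?_⟩
    omega
  · have h4 : vS Sᶜ = symmDiff (vS S) (rts k d.D : Finset Ω) := by
      have h5 := (vS_props S Finset.univ).1
      rw [(vS_props S S).2.2.2.1] at h5
      rw [← h5]
      congr 1
      ext r
      simp [Finset.mem_symmDiff]
    rw [h4]
    refine kum_congr (kum_mul (vS_props S S).2.1 (fun r hr => rts_alg hr) hK (kum_tors d hR hc)) ?_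
    intro g hg
    show _ = (if f'.1 g = 0 then (1 : Ω) else -1)
    rw [hf' g, sub_eq_add_neg (f.1 g), h3 g]
    exact (T1b_chi d (hT g hg) (tors_diff d hR hc g)).2

theorem relD7 (y : YS Ω d.C) (h : relD d y ∅) : y = 0 := by
  obtain ⟨f, rfl, hT, -, hK⟩ := h
  rw [(vS_props (Q := d.D) (∅ : Finset (RT k Ω d.D)) ∅).2.2.2.2.1] at hK
  have h1 := T1b_kum_empty hK
  show (cl f : YS Ω d.C) = cl 0
  rw [cl_eq]
  refine ⟨0, ⟨0, by simp⟩, fun g hg => ?_⟩
  show f.1 g - 0 = _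
  have h2 : f.1 g = 0 := by
    by_contra hne
    have h3 : (if f.1 g = 0 then (1 : Ω) else -1) = 1 := h1 g hg
    rw [if_neg hne] at h3
    have h4 : (2 : Ω) ≠ 0 := d.C.two_ne Ω
    apply h4
    linear_combination -h3
  rw [h2, map_zero]

end TE
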