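import Pool.Agent.TE.T0

set_option autoImplicit false

open WeierstrassCurve.Affine
open scoped Classical Polynomial

namespace TE

/-! ## [TE-T1a] the two hearts in the Selmer group -/

variable {k Ω : Type*} [Field k] [Field Ω] [Algebra k Ω] [Algebra (RatFunc k) Ω] [IsScalarTower k (RatFunc k) Ω]
  [IsSepClosure (RatFunc k) Ω] (d : Dat k)

/-- a set of roots as a finite subset of `Ω` -/
noncomputable def vS {Q : k[X]} (S : Finset (RT k Ω Q)) : Finset Ω := S.map ⟨Subtype.val, Subtype.val_injective⟩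

/-- `y` is the class of some `f` with values in `E[2]`, `ch ∘ f = Kum S`, `|S|` even -/
def relB (y : YS Ω d.C) (S : Finset (RT k Ω d.B)) : Prop :=
  ∃ f : SelG (Ω := Ω) d.C, cl f = y ∧ (∀ g ∈ NN k Ω, (2 : ℕ) • f.1 g = 0) ∧ Even S.card ∧
    Kum (vS S) (fun g => d.C.ch (f.1 g))

/-- `y` is the class of some `f` with values in `{0, T}` belonging to `Kum S`, `|S|` even -/
def relD (y : YS Ω d.C) (S : Finset (RT k Ω d.D)) : Prop :=
  ∃ f : SelG (Ω := Ω) d.C, cl f = y ∧ (∀ g ∈ NN k Ω, f.1 g = 0 ∨ f.1 g = d.C.T Ω) ∧ Even S.card ∧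
    Kum (vS S) (fun g => if f.1 g = 0 then 1 else -1)

omit [Algebra (RatFunc k) Ω] [IsScalarTower k (RatFunc k) Ω] [IsSepClosure (RatFunc k) Ω] in
theorem T1a_mem {Q : k[X]} (S : Finset (RT k Ω Q)) (x : Ω) : x ∈ vS S ↔ ∃ r : RT k Ω Q, r ∈ S ∧ r.1 = x := by
  unfold vS
  rw [Finset.mem_map]
  rfl

theorem vS_props {Q : k[X]} (S S' : Finset (RT k Ω Q)) : vS (symmDiff S S') = symmDiff (vS S) (vS S') ∧
    (∀ r ∈ vS S, IsAlgebraic k r) ∧ (vS S).card = S.card ∧ vS (Finset.univ : Finset (RT k Ω Q)) = rts k Q ∧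
    vS (∅ : Finset (RT k Ω Q)) = ∅ ∧ (vS S = vS S' → S = S') ∧
    ∀ γ : Gm k Ω, vS (S.image (fun r => γ • r)) = (vS S).image γ := by
  have hmem : ∀ (A : Finset (RT k Ω Q)) (r : RT k Ω Q), r.1 ∈ vS A ↔ r ∈ A := by
    intro A r
    rw [T1a_mem]
    constructor
    · rintro ⟨r', h1, h2⟩
      rwa [← Subtype.ext h2]
    · intro h
      exact ⟨r, h, rfl⟩
  refine ⟨?_, ?_, Finset.card_map _, ?_, Finset.map_empty _, ?_, ?_⟩
  · ext x
    rw [Finset.mem_symmDiff]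
    constructor
    · intro hx
      obtain ⟨r, hr, rfl⟩ := (T1a_mem _ _).1 hx
      rw [Finset.mem_symmDiff] at hr
      rw [hmem, hmem]
      exact hr
    · intro hx
      have h1 : ∃ r : RT k Ω Q, r.1 = x := by
        rcases hx with hx | hx
        · obtain ⟨r, _, h⟩ := (T1a_mem _ _).1 hx.1
          exact ⟨r, h⟩
        · obtain ⟨r, _, h⟩ := (T1a_mem _ _).1 hx.1
          exact ⟨r, h⟩
      obtain ⟨r, rfl⟩ := h1
      rw [hmem, hmem] at hx
      rw [hmem, Finset.mem_symmDiff]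
      exact hx
  · intro r hr
    obtain ⟨r', _, rfl⟩ := (T1a_mem _ _).1 hr
    exact rts_alg r'.2
  · ext x
    rw [T1a_mem]
    constructor
    · rintro ⟨r, _, rfl⟩
      exact r.2
    · intro hx
      exact ⟨⟨x, hx⟩, Finset.mem_univ _, rfl⟩
  · intro h
    ext r
    rw [← hmem, ← hmem, h]
  · intro γ
    ext x
    rw [T1a_mem, Finset.mem_image]
    constructor
    · rintro ⟨r, hr, rfl⟩
      obtain ⟨r', hr', rfl⟩ := Finset.mem_image.1 hr
      exact ⟨r'.1, (hmem _ _).2 hr', rfl⟩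
    · rintro ⟨a, ha, rfl⟩
      obtain ⟨r', hr', rfl⟩ := (T1a_mem _ _).1 ha
      exact ⟨γ • r', Finset.mem_image_of_mem _ hr', rfl⟩

theorem T1a_lift {Q : k[X]} (S : Finset Ω) (hS : S ⊆ rts k Q) : ∃ S' : Finset (RT k Ω Q), vS S' = S := by
  refine ⟨Finset.univ.filter (fun r => r.1 ∈ S), ?_⟩
  ext x
  rw [T1a_mem]
  constructor
  · rintro ⟨r, hr, rfl⟩
    exact (Finset.mem_filter.1 hr).2
  · intro hx
    exact ⟨⟨x, hS hx⟩, Finset.mem_filter.2 ⟨Finset.mem_univ _, hx⟩, rfl⟩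

theorem card_RT {Q : k[X]} (hQ : Q.Separable) : Fintype.card (RT k Ω Q) = Q.natDegree := by
  have h := (vS_props (Ω := Ω) (Finset.univ : Finset (RT k Ω Q)) ∅).2.2.1
  rw [(vS_props (Ω := Ω) (Finset.univ : Finset (RT k Ω Q)) ∅).2.2.2.1, rts_card hQ] at h
  rw [h, Finset.card_univ]

theorem T1a_even {α : Type*} [DecidableEq α] {S S' : Finset α} (h : Even S.card) (h' : Even S'.card) :
    Even (symmDiff S S').card := by
  have h1 : (symmDiff S S').card = (S \ S').card + (S' \ S).card := by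
    rw [symmDiff_def]
    exact Finset.card_union_of_disjoint disjoint_sdiff_sdiff
  have h2 := Finset.card_sdiff_add_card_inter S S'
  have h3 := Finset.card_sdiff_add_card_inter S' S
  rw [Finset.inter_comm S' S] at h3
  obtain ⟨a, ha⟩ := h
  obtain ⟨b, hb⟩ := h'
  rw [h1]
  refine ⟨a + b - (S ∩ S').card, ?_⟩
  omega

theorem T1a_bd (f : SelG (Ω := Ω) d.C) {R : d.C.Pt Ω} {n : ℕ} (hR : (2 ^ n : ℕ) • R = 0) :
    ∃ f' : SelG (Ω := Ω) d.C, (∀ g, f'.1 g = f.1 g - (d.C.act g R - R)) ∧ cl f' = cl f := by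
  have h1 : (fun g => d.C.act g R - R) ∈ SelG (Ω := Ω) d.C := by
    refine ⟨isSel_bd d.C R, n, fun g _ => ?_⟩
    rw [nsmul_sub, ← map_nsmul, hR, map_zero, sub_zero]
  refine ⟨f - ⟨_, h1⟩, fun g => rfl, ?_⟩
  rw [cl_eq]
  refine ⟨-R, ⟨n, by rw [smul_neg, hR, neg_zero]⟩, fun g _ => ?_⟩
  show f.1 g - (d.C.act g R - R) - f.1 g = _
  rw [map_neg]
  abel

omit [Algebra k Ω] [IsScalarTower k (RatFunc k) Ω] [IsSepClosure (RatFunc k) Ω] in
theorem T1a_ch2 (P : d.C.Pt Ω) : d.C.ch P * d.C.ch P = 1 := by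
  rcases ch_val d.C P with h | h <;> rw [h] <;> ring

/-- Proof: `y = cl f`, `2 f = ∂Q` on `N` with `Q` of `2`-power order; choose `R` with `2R = Q` (`exists_half`), `f' = f - ∂R` is in the same class
and killed by `2`; `coreA`. (A set `S' ⊆ rts` is `vS` of a set of roots.) -/
theorem relB1 (y : YS Ω d.C) (hy : (2 : ℕ) • y = 0) : ∃ S, relB d y S := by
  have : IsSepClosed Ω := IsSepClosure.sep_closed (RatFunc k)
  induction y using QuotientAddGroup.induction_on with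
  | H f =>
    have h1 : (cl ((2 : ℕ) • f) : YS Ω d.C) = cl 0 := by
      rw [cl_nsmul]
      exact hy
    obtain ⟨Q, ⟨n, hn⟩, hQ⟩ := (cl_eq _ _).1 h1
    obtain ⟨R, hR⟩ := exists_half d.C Q
    have hR2 : (2 ^ (n + 1) : ℕ) • R = 0 := by
      rw [pow_succ, mul_nsmul', hR, hn]
    obtain ⟨f', hf', hcl⟩ := T1a_bd d f hR2
    have h2 : ∀ g ∈ NN k Ω, (2 : ℕ) • f'.1 g = 0 := by
      intro g hg
      have h3 : (2 : ℕ) • f.1 g - 0 = d.C.act g Q - Q := hQ g hg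
      rw [hf' g, nsmul_sub, nsmul_sub, ← map_nsmul, hR, ← h3]
      abel
    obtain ⟨S, hS, hev, hK⟩ := coreA d f'.2.1 h2
    obtain ⟨S', rfl⟩ := T1a_lift S hS
    refine ⟨S', f', hcl, h2, ?_, hK⟩
    rwa [(vS_props S' S').2.2.1] at hev

/-- `f + f'`, `ch_add`, `kum_mul` -/
theorem relB2 (y y' : YS Ω d.C) (S S') (h : relB d y S) (h' : relB d y' S') : relB d (y + y') (symmDiff S S') := by
  obtain ⟨f, rfl, h2, hev, hK⟩ := h
  obtain ⟨f', rfl, h2', hev', hK'⟩ := h'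
  refine ⟨f + f', rfl, ?_, T1a_even hev hev', ?_⟩
  · intro g hg
    show (2 : ℕ) • (f.1 g + f'.1 g) = 0
    rw [nsmul_add, h2 g hg, h2' g hg, add_zero]
  · rw [(vS_props S S').1]
    refine kum_congr (kum_mul (vS_props S S').2.1 (vS_props S' S').2.1 hK hK') ?_
    intro g hg
    show _ = d.C.ch (f.1 g + f'.1 g)
    rw [ch_add d.C (h2 g hg) (h2' g hg)]

/-- `cl f = 0`: `f = ∂Q` on `N`, `Q` of `2`-power order; `2Q` is fixed by `N` since `2f = 0`, so `2Q ∈ {0, T}` (`tors_pow_K`). `2Q = 0`: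
`ch (gQ - Q) = ch (gQ) ch Q = 1`, so `S = ∅` (`kum_empty`, `kum_uniq`). `2Q = T`: `kum_half` and `kum_uniq` give `vS S = rts`, `S = univ`. -/
theorem relB3 (S) (h : relB d (0 : YS Ω d.C) S) : S = ∅ ∨ S = Finset.univ := by
  obtain ⟨f, hf, h2, hev, hK⟩ := h
  have h1 : (cl f : YS Ω d.C) = cl 0 := hf
  obtain ⟨Q, ⟨n, hn⟩, hQ'⟩ := (cl_eq _ _).1 h1
  have hQ : ∀ g ∈ NN k Ω, f.1 g = d.C.act g Q - Q := by
    intro g hg
    have h3 : f.1 g - 0 = d.C.act g Q - Q := hQ' g hg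
    rwa [sub_zero] at h3
  have hval : ∀ g ∈ NN k Ω, d.C.ch (f.1 g) = 1 ∨ d.C.ch (f.1 g) = -1 := fun g _ => ch_val d.C _
  have h4 : ∀ g ∈ NN k Ω, d.C.act g ((2 : ℕ) • Q) = (2 : ℕ) • Q := by
    intro g hg
    have h5 := h2 g hg
    rw [hQ g hg, nsmul_sub, ← map_nsmul, sub_eq_zero] at h5
    exact h5
  have h5 : (2 ^ n : ℕ) • ((2 : ℕ) • Q) = 0 := by
    rw [← mul_nsmul', mul_comm, mul_nsmul', hn, nsmul_zero]
  rcases tors_pow_K d n h5 h4 with h6 | h6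
  · left
    have h7 : Kum (k := k) (∅ : Finset Ω) (fun g => d.C.ch (f.1 g)) := by
      apply kum_empty
      intro g hg
      have h8 : (2 : ℕ) • d.C.act g Q = 0 := by rw [← map_nsmul, h6, map_zero]
      have h9 : (2 : ℕ) • (-Q) = 0 := by rw [smul_neg, h6, neg_zero]
      show d.C.ch (f.1 g) = 1
      rw [hQ g hg, sub_eq_add_neg, ch_add d.C h8 h9, ch_neg d.C h6, ch_act, T1a_ch2]
    have h8 := kum_uniq (vS_props S S).2.1 (by simp) hval hK h7
    apply (vS_props S ∅).2.2.2.2.2.1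
    rw [h8, (vS_props S S).2.2.2.2.1]
  · right
    have h7 : Kum (rts k d.B : Finset Ω) (fun g => d.C.ch (f.1 g)) := by
      refine kum_congr (kum_half d h6) ?_
      intro g hg
      show _ = d.C.ch (f.1 g)
      rw [hQ g hg]
    have h8 := kum_uniq (vS_props S S).2.1 (fun r hr => rts_alg hr) hval hK h7
    apply (vS_props S Finset.univ).2.2.2.2.2.1
    rw [h8, (vS_props S S).2.2.2.1]

/-- `twS γ f`, `ch_act`, `kum_conj` -/
theorem relB4 (γ : Gm k Ω) (y : YS Ω d.C) (S) (h : relB d y S) : relB d (γ • y) (S.image (fun r => γ • r)) := by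
  obtain ⟨f, rfl, h2, hev, hK⟩ := h
  refine ⟨twS γ f, (smul_cl γ f).symm, ?_, ?_, ?_⟩
  · intro g hg
    show (2 : ℕ) • d.C.act γ (f.1 (γ⁻¹ * g * γ)) = 0
    rw [← map_nsmul, h2 _ (NN_conj hg), map_zero]
  · rw [Finset.card_image_of_injective _ (MulAction.injective γ)]
    exact hev
  · rw [(vS_props S S).2.2.2.2.2.2 γ]
    refine kum_congr (kum_conj (fun g _ => ch_val d.C _) γ hK) ?_
    intro g hg
    show d.C.ch (f.1 (γ⁻¹ * g * γ)) = d.C.ch (d.C.act γ (f.1 (γ⁻¹ * g * γ)))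
    rw [ch_act]

theorem relB5 (y : YS Ω d.C) (S) (h : relB d y S) : Even S.card ∧ (2 : ℕ) • y = 0 := by
  obtain ⟨f, rfl, h2, hev, hK⟩ := h
  refine ⟨hev, ?_⟩
  rw [← cl_nsmul]
  show (cl ((2 : ℕ) • f) : YS Ω d.C) = cl 0
  rw [cl_eq]
  refine ⟨0, ⟨0, by simp⟩, fun g hg => ?_⟩
  show (2 : ℕ) • f.1 g - 0 = _
  rw [h2 g hg, map_zero]

/-- `f - ∂Q` with `2Q = T`, `4Q = 0` (`exists_half`, `kum_half`, `kum_mul`; `|rts| = 4m` is even) -/
theorem relB6 (y : YS Ω d.C) (S) (h : relB d y S) : relB d y Sᶜ := by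
  have : IsSepClosed Ω := IsSepClosure.sep_closed (RatFunc k)
  obtain ⟨f, rfl, h2, hev, hK⟩ := h
  obtain ⟨Q, hQ⟩ := exists_half d.C (d.C.T Ω)
  have hQ4 : (2 ^ 2 : ℕ) • Q = 0 := by
    rw [pow_succ, pow_one, mul_nsmul', hQ, two_T]
  obtain ⟨f', hf', hcl⟩ := T1a_bd d f hQ4
  have h3 : ∀ g : Gm k Ω, (2 : ℕ) • (d.C.act g Q - Q) = 0 := by
    intro g
    rw [nsmul_sub, ← map_nsmul, hQ, act_T, sub_self]
  refine ⟨f', hcl, ?_, ?_, ?_⟩
  · intro g hg
    rw [hf' g, nsmul_sub, h2 g hg, h3 g, sub_zero]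
  · rw [Finset.card_compl, card_RT d.sepB, d.degB]
    obtain ⟨a, ha⟩ := hev
    refine ⟨2 * d.m - a, ?_⟩
    omega
  · have h4 : vS Sᶜ = symmDiff (vS S) (rts k d.B : Finset Ω) := by
      have h5 := (vS_props S Finset.univ).1
      rw [(vS_props S S).2.2.2.1] at h5
      rw [← h5]
      congr 1
      ext r
      simp [Finset.mem_symmDiff]
    rw [h4]
    refine kum_congr (kum_mul (vS_props S S).2.1 (fun r hr => rts_alg hr) hK (kum_half d hQ)) ?_
    intro g hg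
    show _ = d.C.ch (f'.1 g)
    have h5 : (2 : ℕ) • -(d.C.act g Q - Q) = 0 := by rw [smul_neg, h3 g, neg_zero]
    rw [hf' g, sub_eq_add_neg (f.1 g), ch_add d.C (h2 g hg) h5, ch_neg d.C (h3 g)]

end TE
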