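import Pool.Agent.TE.T1
import Pool.Agent.TE.G15

set_option autoImplicit false

open WeierstrassCurve.Affine
open scoped Classical Polynomial

namespace TE

/-! ## [TE-T2] the theorem on large Galois groups -/

variable {k Ω : Type*} [Field k] [Field Ω] [Algebra k Ω] [Algebra (RatFunc k) Ω] [IsScalarTower k (RatFunc k) Ω]
  [IsSepClosure (RatFunc k) Ω] (d : Dat k)

/-- Suppose `m ≥ 2` and every pair of even permutations of the roots of `B` and of `D` is induced by some `γ ∈ Γ`. Let `H ≤ Γ` have finite index and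
let `(f_n)` be a compatible system of Selmer crossed homomorphisms `N → E[2ⁿ]` whose classes are fixed by `H`. Then `f_n = ∂R_n` with
`2ⁿ R_n ∈ {0, T}`.

Proof. `f_n ∈ SelG`; `y_n = cl f_n`; `y₀ = 0` (`f₀ = 0` on `N`), `2 y_{n+1} = y_n` (`hcomp`), `h y_n = y_n` for `h ∈ H` (`hinv`). The data `YD` for
`Y = YS Ω d.C`, `RB = RT B`, `RD = RT D` are given by T1a, T1b (`card_RT`: both have `4m ≥ 8` elements). By `TY_trivial` `y_n = 0`, i.e. (`cl_eq`)
`f_n = ∂R_n` on `N` with `R_n` of `2`-power order; `2ⁿ f_n = 0`, so `2ⁿR_n` is fixed by `N` and of `2`-power order: `2ⁿR_n ∈ {0, T}` (`tors_pow_K`). -/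
theorem large_galois (hm : 2 ≤ d.m)
    (halt : ∀ σ ∈ alternatingGroup (RT k Ω d.B), ∀ τ ∈ alternatingGroup (RT k Ω d.D), ∃ γ : Gm k Ω,
      (∀ r : RT k Ω d.B, γ r.1 = (σ r).1) ∧ ∀ r : RT k Ω d.D, γ r.1 = (τ r).1)
    (H : Subgroup (Gm k Ω)) [H.FiniteIndex] (f : ℕ → Gm k Ω → d.C.Pt Ω) (hf : ∀ n, IsSel d.C (f n))
    (htors : ∀ n, ∀ g ∈ NN k Ω, (2 ^ n : ℕ) • f n g = 0)
    (hcomp : ∀ n, ∃ Q : d.C.Pt Ω, (2 ^ n : ℕ) • Q = 0 ∧ ∀ g ∈ NN k Ω, (2 : ℕ) • f (n + 1) g - f n g = d.C.act g Q - Q)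
    (hinv : ∀ n, ∀ γ ∈ H, ∃ Q : d.C.Pt Ω, (2 ^ n : ℕ) • Q = 0 ∧
      ∀ g ∈ NN k Ω, tw d.C γ (f n) g - f n g = d.C.act g Q - Q) (n : ℕ) :
    ∃ R : d.C.Pt Ω, ((2 ^ n : ℕ) • R = 0 ∨ (2 ^ n : ℕ) • R = d.C.T Ω) ∧ ∀ g ∈ NN k Ω, f n g = d.C.act g R - R := by
  have hmem : ∀ n, f n ∈ SelG (Ω := Ω) d.C := fun n => ⟨hf n, n, htors n⟩
  have cardB : Fintype.card (RT k Ω d.B) = 4 * d.m := by rw [card_RT d.sepB, d.degB]
  have cardD : Fintype.card (RT k Ω d.D) = 4 * d.m := by
    rw [card_RT (show d.D.Separable from d.sepD)]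
    exact d.degD
  let D : YD (Gm k Ω) (YS Ω d.C) (RT k Ω d.B) (RT k Ω d.D) :=
    { relB := relB d
      relD := relD d
      B1 := relB1 d
      B2 := fun y y' S S' h h' => by
        have h'' := relB2 d y y' S S' h h'
        exact cast (by congr <;> exact Subsingleton.elim _ _) h''
      B3 := relB3 d
      B4 := fun γ y S h => by
        have h' := relB4 d γ y S h
        exact cast (by congr <;> exact Subsingleton.elim _ _) h'
      B5 := relB5 d
      B6 := fun y S h => by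
        have h' := relB6 d y S h
        exact cast (by congr <;> exact Subsingleton.elim _ _) h'
      D1 := relD1 d
      D2 := fun y y' S S' h h' => by
        have h'' := relD2 d y y' S S' h h'
        exact cast (by congr <;> exact Subsingleton.elim _ _) h''
      D3 := relD3 d
      D4 := fun γ y S h => by
        have h' := relD4 d γ y S h
        exact cast (by congr <;> exact Subsingleton.elim _ _) h'
      D5 := relD5 d
      D6 := fun y S h => by
        have h' := relD6 d y S h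
        exact cast (by congr <;> exact Subsingleton.elim _ _) h'
      D7 := relD7 d
      alt := by
        intro σ hσ τ hτ
        obtain ⟨γ, h1, h2⟩ := halt σ (cast (by congr <;> exact Subsingleton.elim _ _) hσ) τ (cast (by congr <;> exact Subsingleton.elim _ _) hτ)
        exact ⟨γ, fun r => Subtype.ext ((RT_smul _ γ r).trans (h1 r)),
          fun r => Subtype.ext ((RT_smul _ γ r).trans (h2 r))⟩
      evnB := by rw [cardB]; exact ⟨2 * d.m, by ring⟩
      cardB := by rw [cardB]; omega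
      evnD := by rw [cardD]; exact ⟨2 * d.m, by ring⟩
      cardD := by rw [cardD]; omega }
  have key : cl (⟨f n, hmem n⟩ : SelG (Ω := Ω) d.C) = cl 0 := by
    refine TY_trivial D H (fun n => cl (⟨f n, hmem n⟩ : SelG (Ω := Ω) d.C)) ?_ ?_ ?_ n
    · refine (cl_eq _ (0 : SelG (Ω := Ω) d.C)).2 ⟨0, ⟨0, smul_zero _⟩, fun g hg => ?_⟩
      have h := htors 0 g hg
      rw [pow_zero, one_smul] at h
      change f 0 g - 0 = d.C.act g 0 - 0
      rw [h, map_zero]
    · intro n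
      have e := (cl_nsmul (⟨f (n + 1), hmem (n + 1)⟩ : SelG (Ω := Ω) d.C) 2).symm
      refine e.trans ((cl_eq _ _).2 ?_)
      obtain ⟨Q, hQ, h⟩ := hcomp n
      exact ⟨Q, ⟨n, hQ⟩, fun g hg => h g hg⟩
    · intro γ hγ n
      refine (smul_cl γ (⟨f n, hmem n⟩ : SelG (Ω := Ω) d.C)).trans ((cl_eq _ _).2 ?_)
      obtain ⟨Q, hQ, h⟩ := hinv n γ hγ
      exact ⟨Q, ⟨n, hQ⟩, fun g hg => h g hg⟩
  obtain ⟨R, ⟨m, hm2⟩, hR⟩ := (cl_eq _ _).1 key
  have hR' : ∀ g ∈ NN k Ω, f n g = d.C.act g R - R := by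
    intro g hg
    have h := hR g hg
    change f n g - 0 = _ at h
    rwa [sub_zero] at h
  refine ⟨R, ?_, hR'⟩
  refine tors_pow_K d m (P := (2 ^ n : ℕ) • R) ?_ ?_
  · rw [smul_comm, hm2, smul_zero]
  · intro g hg
    have h := htors n g hg
    rw [hR' g hg, smul_sub, ← map_nsmul] at h
    exact sub_eq_zero.1 h

end TE
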