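import Pool.Agent.TE.Defs

set_option autoImplicit false

open scoped Classical Polynomial

namespace TE

/-! ## [TE-U1] valuation rings of an algebraic extension with the same centre on the integral closure are equal -/

/-- `Uni`, `Mx` in terms of Mathlib: `Uni O x ↔ O.valuation x = 1`, `Mx O x ↔ O.valuation x < 1` (`↔ x ∈ O.nonunits`). -/
theorem uni_iff {Ω : Type*} [Field Ω] (O : ValuationSubring Ω) (x : Ω) : Uni O x ↔ O.valuation x = 1 := by
  unfold Uni
  rw [← ValuationSubring.valuation_le_one_iff, ← ValuationSubring.valuation_le_one_iff]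
  constructor
  · rintro ⟨h1, h2, h3⟩
    have h4 : O.valuation x ≠ 0 := (Valuation.ne_zero_iff _).2 h3
    rw [map_inv₀] at h2
    refine le_antisymm h1 ?_
    have h5 := (inv_le_one₀ (zero_lt_iff.2 h4)).1 h2
    exact h5
  · intro h
    have h3 : x ≠ 0 := by
      rintro rfl
      rw [map_zero] at h
      exact zero_ne_one h
    refine ⟨h.le, ?_, h3⟩
    rw [map_inv₀, h, inv_one]

theorem mx_iff {Ω : Type*} [Field Ω] (O : ValuationSubring Ω) (x : Ω) : Mx O x ↔ O.valuation x < 1 := by
  unfold Mx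
  rw [uni_iff, ← ValuationSubring.valuation_le_one_iff]
  exact lt_iff_le_and_ne.symm

theorem mem_iff {Ω : Type*} [Field Ω] (O : ValuationSubring Ω) (x : Ω) : x ∈ O ↔ O.valuation x ≤ 1 := by
  exact (ValuationSubring.valuation_le_one_iff O x).symm

theorem u1_integral {Ω : Type*} [Field Ω] (R : Subring Ω) (x : Ω)
    (h : ∀ V : ValuationSubring Ω, R ≤ V.toSubring → x ∈ V) : IsIntegral R x := by
  have h1 := iInf_valuationSubring_superset (K := Ω) (s := (R : Set Ω))
  have h2 : x ∈ (⨅ V : {V : ValuationSubring Ω // (R : Set Ω) ⊆ V.toSubring}, V.1.toSubring) := by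
    rw [Subring.mem_iInf]
    rintro ⟨V, hV⟩
    exact h V hV
  rw [h1] at h2
  have h3 : IsIntegral (Subring.closure (R : Set Ω)) x := h2
  rw [Subring.closure_eq] at h3
  exact h3

theorem u1_le {Ω : Type*} [Field Ω] (M : Subfield Ω) (halg : ∀ x : Ω, IsAlgebraic M x)
    (V1 V2 : ValuationSubring Ω) (R : Subring Ω) (hR : ∀ x, x ∈ R ↔ x ∈ V1 ∧ x ∈ M)
    (hR2 : ∀ x ∈ R, x ∈ V2)
    (hc : ∀ x : Ω, IsIntegral R x → (Mx V1 x ↔ Mx V2 x)) (x : Ω) (hx : x ∈ V1) : x ∈ V2 := by
  obtain ⟨p, hp, hpx⟩ := halg x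
  -- a coefficient of largest valuation
  obtain ⟨j0, hj0, hmax⟩ := Finset.exists_max_image p.support (fun i => V1.valuation (p.coeff i : Ω))
    (Polynomial.support_nonempty.2 hp)
  have hc0 : (p.coeff j0 : Ω) ≠ 0 := by
    have := Polynomial.mem_support_iff.1 hj0
    intro h
    exact this (Subtype.ext h)
  set n := p.natDegree with hn
  set b : ℕ → Ω := fun i => (p.coeff i : Ω) / (p.coeff j0 : Ω) with hb
  have hbM : ∀ i, b i ∈ M := fun i => M.div_mem (p.coeff i).2 (p.coeff j0).2
  have hv0 : 0 < V1.valuation (p.coeff j0 : Ω) := zero_lt_iff.2 ((Valuation.ne_zero_iff _).2 hc0)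
  have hbv : ∀ i, V1.valuation (b i) ≤ 1 := by
    intro i
    rw [hb]
    simp only [map_div₀]
    rw [div_le_one₀ hv0]
    by_cases hi : i ∈ p.support
    · exact hmax i hi
    · have h0 : p.coeff i = 0 := by
        by_contra h
        exact hi (Polynomial.mem_support_iff.2 h)
      rw [h0]
      simp
  have hbR : ∀ i, b i ∈ R := fun i => (hR _).2 ⟨(mem_iff V1 _).2 (hbv i), hbM i⟩
  have hj0n : j0 ∈ Finset.range (n + 1) := by
    rw [Finset.mem_range]
    exact Nat.lt_succ_of_le (Polynomial.le_natDegree_of_mem_supp _ hj0)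
  have hb0 : b j0 = 1 := div_self hc0
  have hsum : ∑ i ∈ Finset.range (n + 1), b i * x ^ i = 0 := by
    have h1 : ∑ i ∈ Finset.range (n + 1), (p.coeff i : Ω) * x ^ i = 0 := by
      rw [Polynomial.aeval_eq_sum_range] at hpx
      rw [← hpx]
      refine Finset.sum_congr rfl fun i _ => ?_
      rw [Algebra.smul_def]
      rfl
    have h2 : ∑ i ∈ Finset.range (n + 1), b i * x ^ i =
        (∑ i ∈ Finset.range (n + 1), (p.coeff i : Ω) * x ^ i) / (p.coeff j0 : Ω) := by
      rw [Finset.sum_div]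
      refine Finset.sum_congr rfl fun i _ => ?_
      rw [hb]
      ring
    rw [h2, h1, zero_div]
  -- the largest index with a unit coefficient
  obtain ⟨j, hj, hjmax⟩ := Finset.exists_max_image
    ((Finset.range (n + 1)).filter fun i => V1.valuation (b i) = 1) id
    ⟨j0, Finset.mem_filter.2 ⟨hj0n, by rw [hb0, map_one]⟩⟩
  rw [Finset.mem_filter] at hj
  obtain ⟨hjn, hjv⟩ := hj
  rw [Finset.mem_range] at hjn
  have hlt : ∀ i, j < i → i < n + 1 → V1.valuation (b i) < 1 := by
    intro i hji hin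
    refine lt_of_le_of_ne (hbv i) fun h => ?_
    have := hjmax i (Finset.mem_filter.2 ⟨Finset.mem_range.2 hin, h⟩)
    simp only [id] at this
    omega
  set w : Ω := ∑ i ∈ Finset.Ico (j + 1) (n + 1), b i * x ^ (i - j) with hw
  set u : Ω := b j + w with hu
  have hxv : V1.valuation x ≤ 1 := (mem_iff V1 x).1 hx
  have hwv : V1.valuation w < 1 := by
    rw [hw]
    refine Valuation.map_sum_lt _ one_ne_zero fun i hi => ?_
    rw [Finset.mem_Ico] at hi
    rw [map_mul, map_pow]
    exact mul_lt_one_of_lt_of_le (hlt i (by omega) hi.2) (pow_le_one₀ zero_le' hxv)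
  have huv : V1.valuation u = 1 := by
    rw [hu]
    rw [Valuation.map_add_eq_of_lt_left _ (by rw [hjv]; exact hwv), hjv]
  -- the relation
  have hrel : x ^ j * u = -∑ i ∈ Finset.range j, b i * x ^ i := by
    have h1 : x ^ j * u = ∑ i ∈ Finset.Ico j (n + 1), b i * x ^ i := by
      rw [Finset.sum_eq_sum_Ico_succ_bot hjn, hu, mul_add, hw, Finset.mul_sum]
      congr 1
      · ring
      · refine Finset.sum_congr rfl fun i hi => ?_
        rw [Finset.mem_Ico] at hi
        have h2 : x ^ i = x ^ j * x ^ (i - j) := by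
          rw [← pow_add]
          congr 1
          omega
        rw [h2]
        ring
    rw [h1, eq_neg_iff_add_eq_zero, add_comm]
    have h3 := Finset.sum_range_add_sum_Ico (fun i => b i * x ^ i) hjn.le
    rw [← hsum, ← h3]
  have hV : ∀ V : ValuationSubring Ω, R ≤ V.toSubring → u ∈ V ∧ u * x ∈ V := by
    intro V hRV
    have hbV : ∀ i, b i ∈ V := fun i => hRV (hbR i)
    by_cases hxV : x ∈ V
    · have hwV : w ∈ V := by
        rw [hw]
        exact sum_mem fun i _ => V.mul_mem _ _ (hbV i) (pow_mem hxV _)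
      have huV : u ∈ V := V.add_mem _ _ (hbV j) hwV
      exact ⟨huV, V.mul_mem _ _ huV hxV⟩
    · have hx0 : x ≠ 0 := by
        rintro rfl
        exact hxV V.zero_mem
      have hxi : x⁻¹ ∈ V := (V.mem_or_inv_mem x).resolve_left hxV
      have h1 : u = -∑ i ∈ Finset.range j, b i * x⁻¹ ^ (j - i) := by
        have h2 : u = (x ^ j)⁻¹ * (x ^ j * u) := by
          rw [← mul_assoc, inv_mul_cancel₀ (pow_ne_zero _ hx0), one_mul]
        rw [h2, hrel, mul_neg, Finset.mul_sum]
        congr 1
        refine Finset.sum_congr rfl fun i hi => ?_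
        rw [Finset.mem_range] at hi
        have h3 : x ^ j = x ^ i * x ^ (j - i) := by
          rw [← pow_add]
          congr 1
          omega
        rw [h3, inv_pow]
        field_simp
      have h2 : u * x = -∑ i ∈ Finset.range j, b i * x⁻¹ ^ (j - i - 1) := by
        rw [h1, neg_mul, Finset.sum_mul]
        congr 1
        refine Finset.sum_congr rfl fun i hi => ?_
        rw [Finset.mem_range] at hi
        have h3 : x⁻¹ ^ (j - i) = x⁻¹ ^ (j - i - 1) * x⁻¹ := by
          rw [← pow_succ]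
          congr 1
          omega
        rw [h3, mul_assoc, mul_assoc, inv_mul_cancel₀ hx0, mul_one]
      refine ⟨?_, ?_⟩
      · rw [h1]
        exact V.neg_mem _ (sum_mem fun i _ => V.mul_mem _ _ (hbV i) (pow_mem hxi _))
      · rw [h2]
        exact V.neg_mem _ (sum_mem fun i _ => V.mul_mem _ _ (hbV i) (pow_mem hxi _))
  have huint : IsIntegral R u := u1_integral R u fun V hRV => (hV V hRV).1
  have h1 : ¬ Mx V1 u := by
    rw [mx_iff, huv]
    exact lt_irrefl _
  have h2 : ¬ Mx V2 u := fun h => h1 ((hc u huint).2 h)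
  obtain ⟨h3, h4⟩ := hV V2 hR2
  rw [mem_iff] at h3 h4 ⊢
  rw [mx_iff, not_lt] at h2
  have h5 : V2.valuation u = 1 := le_antisymm h3 h2
  rw [map_mul, h5, one_mul] at h4
  exact h4

/-- Let `Ω` be algebraic over the subfield `M`, `V₁, V₂` valuation rings of `Ω` with the same intersection `R` with `M` and the same
centre on the integral closure `S` of `R` in `Ω`. Then `V₁ = V₂`.

Proof. By symmetry it is enough to show `V₁ ⊆ V₂`. Let `x ∈ V₁`. There is a relation `∑_{i ≤ n} a_i x^i = 0` with `a_i ∈ M` not all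
zero; dividing by a coefficient of largest valuation (for the valuation ring `R` of `M`) we may assume that all `a_i ∈ R` and some
`a_i` is a unit of `R`; let `j` be the LARGEST index such that `a_j` is a unit of `R` (so `a_i` is in the maximal ideal of `R`, hence
in the maximal ideal of `V₁`, for `i > j`). If `x = 0` nothing is to prove. Put
`u = a_n x^{n-j} + … + a_{j+1} x + a_j`, so `x^j u = -(a_{j-1} x^{j-1} + … + a_0)`, i.e.
`u = -(a_{j-1} x^{-1} + … + a_0 x^{-j})` and `u x = -(a_{j-1} + a_{j-2} x^{-1} + … + a_0 x^{-j+1})`.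
For every valuation ring `V ⊇ R` of `Ω`: if `x ∈ V` then `u ∈ V`, `u x ∈ V` by the first formula; if `x ∉ V` then `x⁻¹ ∈ V` and the
other formulas give `u, u x ∈ V`. So `u, u x` lie in the intersection of all valuation rings of `Ω` containing `R`, which is `S`
(Mathlib: `iInf_valuationSubring_superset`, file `RingTheory/Valuation/LocalSubring.lean`). Since `x ∈ V₁` and `a_i ∈ 𝔪_{V₁}` for
`i > j`, `u ≡ a_j` modulo `𝔪_{V₁}`, so `u` is a unit of `V₁`. As `V₁`, `V₂` have the same centre on `S`, `u` is a unit of `V₂`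
(`u ∈ S ⊆ V₂`). Hence `x = (u x) u⁻¹ ∈ V₂`. (If `j = 0` then `u = 0` by the relation, impossible as `u` is a unit of `V₁`; the
formulas remain true with empty sums.) -/
theorem val_unique {Ω : Type*} [Field Ω] (M : Subfield Ω) (halg : ∀ x : Ω, IsAlgebraic M x) (V1 V2 : ValuationSubring Ω)
    (h : ∀ x ∈ M, x ∈ V1 ↔ x ∈ V2)
    (hc : ∀ x : Ω, IsIntegral (V1.toSubring ⊓ M.toSubring : Subring Ω) x → (Mx V1 x ↔ Mx V2 x)) : V1 = V2 := by
  have key : ∀ x, x ∈ (V1.toSubring ⊓ M.toSubring : Subring Ω) ↔ x ∈ V1 ∧ x ∈ M := fun x => Iff.rfl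
  ext x
  constructor
  · exact u1_le M halg V1 V2 (V1.toSubring ⊓ M.toSubring) key
      (fun y hy => (h y ((key y).1 hy).2).1 ((key y).1 hy).1) hc x
  · refine u1_le M halg V2 V1 (V1.toSubring ⊓ M.toSubring) (fun y => ?_)
      (fun y hy => ((key y).1 hy).1) (fun y hy => (hc y hy).symm) x
    rw [key]
    constructor
    · rintro ⟨h1, h2⟩
      exact ⟨(h y h2).1 h1, h2⟩
    · rintro ⟨h1, h2⟩
      exact ⟨(h y h2).2 h1, h2⟩

end TE
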