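import Pool.Agent.TE.U1

set_option autoImplicit false

open scoped Classical Polynomial Pointwise

namespace TE

/-! ## [TE-U2] conjugacy of the valuation rings lying over a given one -/

section u2

variable {F Ω : Type*} [Field F] [Field Ω] [Algebra F Ω]

theorem u2_fix (M : IntermediateField F Ω) (g : Ω ≃ₐ[M] Ω) {x : Ω} (hx : x ∈ M) : g x = x :=
  g.commutes ⟨x, hx⟩

theorem u2_int (M : IntermediateField F Ω) (R : Subring Ω) (hR : ∀ x ∈ R, x ∈ M) (g : Ω ≃ₐ[M] Ω)
    {x : Ω} (hx : IsIntegral R x) : IsIntegral R (g x) := by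
  refine IsIntegral.map_of_comp_eq (RingHom.id R) (g : Ω →+* Ω) ?_ hx
  ext a
  exact (u2_fix M g (hR a a.2)).symm

/-- the action of `Gal(Ω/M)` on the integral closure of `R ⊆ M` in `Ω` -/
@[reducible] def u2_act (M : IntermediateField F Ω) (R : Subring Ω) (hR : ∀ x ∈ R, x ∈ M) :
    MulSemiringAction (Ω ≃ₐ[M] Ω) (integralClosure R Ω) where
  smul g x := ⟨g x, u2_int M R hR g x.2⟩
  one_smul _ := Subtype.ext rfl
  mul_smul _ _ _ := Subtype.ext rfl
  smul_zero g := Subtype.ext (map_zero g)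
  smul_add g _ _ := Subtype.ext (map_add g _ _)
  smul_one g := Subtype.ext (map_one g)
  smul_mul g _ _ := Subtype.ext (map_mul g _ _)

/-- elements integral over a subring of a valuation ring belong to it -/
theorem u2_mem (V : ValuationSubring Ω) (R : Subring Ω) (hR : ∀ x ∈ R, x ∈ V) {x : Ω}
    (hx : IsIntegral R x) : x ∈ V := by
  have h1 : IsIntegral V x := by
    refine IsIntegral.map_of_comp_eq (Subring.inclusion (S := R) (T := V.toSubring) hR)
      (RingHom.id Ω) ?_ hx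
    ext a
    rfl
  obtain ⟨y, hy⟩ := (IsIntegrallyClosed.isIntegral_iff (R := V) (K := Ω)).1 h1
  rw [← hy]
  exact y.2

/-- the centre of `V` on the integral closure -/
def u2_ctr (V : ValuationSubring Ω) (R : Subring Ω) (hR : ∀ x ∈ R, x ∈ V) :
    Ideal (integralClosure R Ω) :=
  (IsLocalRing.maximalIdeal V).comap
    ({ toFun := fun x => ⟨x, u2_mem V R hR x.2⟩
       map_one' := rfl
       map_mul' := fun _ _ => rfl
       map_zero' := rfl
       map_add' := fun _ _ => rfl } : integralClosure R Ω →+* V)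

theorem u2_ctr_prime (V : ValuationSubring Ω) (R : Subring Ω) (hR : ∀ x ∈ R, x ∈ V) :
    (u2_ctr V R hR).IsPrime := Ideal.comap_isPrime _ _

theorem u2_mem_ctr (V : ValuationSubring Ω) (R : Subring Ω) (hR : ∀ x ∈ R, x ∈ V)
    (x : integralClosure R Ω) : x ∈ u2_ctr V R hR ↔ Mx V (x : Ω) := by
  rw [mx_iff, u2_ctr, Ideal.mem_comap]
  exact ValuationSubring.valuation_lt_one_iff V _

end u2

/-- Let `Ω/F` be Galois, `M` an intermediate field, `V₁`, `V₂` valuation rings of `Ω` with the same intersection with `M`. Then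
there is `g ∈ Gal(Ω/M)` with `g(V₁) = V₂`.

Proof. Let `R = V₁ ∩ M = V₂ ∩ M` and let `S` be the integral closure of `R` in `Ω`. The group `G = Gal(Ω/M)` acts on `S`, and
`S^G = R`: a fixed element lies in `M` (`Ω/M` is Galois) and is integral over `R`; `R` is a valuation ring of `M`, so integrally closed in
`M`. Let `P_i = {x ∈ S : Mx V_i x}`; these are prime ideals of `S` with the same intersection with `R` (for `x ∈ R`, `x ≠ 0`: `x` is a
non-unit of `V_i` iff `x⁻¹ ∉ V_i`, and `x⁻¹ ∈ M`). By `Algebra.IsInvariant.exists_smul_of_under_eq_of_profinite` (Mathlib,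
`RingTheory/Invariant/Profinite.lean`; `A = R`, `B = S` with the discrete topology, `G = Gal(Ω/M)` with the Krull topology: the
stabilizers of elements are open) there is `g ∈ G` with `P₂ = g P₁`. Then `g(V₁)` (a valuation ring containing `R`; e.g.
`V1.comap g⁻¹`) and `V₂` have the same intersection `R` with `M` and the same centre `P₂` on `S`: by `val_unique` they are equal.
(Elements of `Ω` are algebraic over `M`.) -/
theorem exists_conj {F Ω : Type*} [Field F] [Field Ω] [Algebra F Ω] [IsGalois F Ω] (M : IntermediateField F Ω)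
    (V1 V2 : ValuationSubring Ω) (h : ∀ x ∈ M, x ∈ V1 ↔ x ∈ V2) :
    ∃ g : Ω ≃ₐ[F] Ω, (∀ x ∈ M, g x = x) ∧ ∀ x : Ω, g x ∈ V2 ↔ x ∈ V1 := by
  classical
  let R : Subring Ω := V1.toSubring ⊓ M.toSubfield.toSubring
  have hRM : ∀ x ∈ R, x ∈ M := fun x hx => hx.2
  have hR1 : ∀ x ∈ R, x ∈ V1 := fun x hx => hx.1
  have hR2 : ∀ x ∈ R, x ∈ V2 := fun x hx => (h x hx.2).1 hx.1
  let act : MulSemiringAction (Ω ≃ₐ[M] Ω) (integralClosure R Ω) := u2_act M R hRM
  have hcoe : ∀ (g : Ω ≃ₐ[M] Ω) (x : integralClosure R Ω), ((g • x : integralClosure R Ω) : Ω) =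
      g (x : Ω) := fun g x => rfl
  have : SMulCommClass (Ω ≃ₐ[M] Ω) R (integralClosure R Ω) := by
    refine ⟨fun g a x => ?_⟩
    apply Subtype.ext
    show g ((a : Ω) * (x : Ω)) = (a : Ω) * g (x : Ω)
    rw [map_mul, u2_fix M g (hRM a a.2)]
  let : TopologicalSpace (integralClosure R Ω) := ⊥
  have : DiscreteTopology (integralClosure R Ω) := ⟨rfl⟩
  have : Algebra.IsIntegral M Ω := Algebra.IsAlgebraic.isIntegral
  have : ContinuousSMul (Ω ≃ₐ[M] Ω) (integralClosure R Ω) := by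
    rw [continuousSMul_iff_stabilizer_isOpen]
    intro x
    have h1 := stabilizer_isOpen_of_isIntegral (K := M) (L := Ω) (x : Ω)
    convert h1 using 1
    ext g
    simp only [SetLike.mem_coe, MulAction.mem_stabilizer_iff]
    constructor
    · intro h2
      have := congrArg (fun y : integralClosure R Ω => (y : Ω)) h2
      exact this
    · intro h2
      exact Subtype.ext h2
  have : Algebra.IsInvariant R (integralClosure R Ω) (Ω ≃ₐ[M] Ω) := by
    refine ⟨fun b hb => ?_⟩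
    have h1 : ∀ g : Ω ≃ₐ[M] Ω, g (b : Ω) = b := fun g =>
      congrArg (fun y : integralClosure R Ω => (y : Ω)) (hb g)
    have h2 : (b : Ω) ∈ (⊥ : IntermediateField M Ω) := by
      rw [InfiniteGalois.mem_bot_iff_fixed]
      exact h1
    rw [IntermediateField.mem_bot] at h2
    obtain ⟨y, hy⟩ := h2
    have h3 : (b : Ω) ∈ M := by
      rw [← hy]
      exact y.2
    have h4 : (b : Ω) ∈ V1 := u2_mem V1 R hR1 b.2
    exact ⟨⟨b, h4, h3⟩, Subtype.ext rfl⟩
  have := u2_ctr_prime V1 R hR1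
  have := u2_ctr_prime V2 R hR2
  have huni : ∀ x ∈ M, Uni V1 x ↔ Uni V2 x := by
    intro x hx
    unfold Uni
    rw [h x hx, h x⁻¹ (M.inv_mem hx)]
  have hmx : ∀ x ∈ M, Mx V1 x ↔ Mx V2 x := by
    intro x hx
    unfold Mx
    rw [h x hx, huni x hx]
  have hunder : (u2_ctr V1 R hR1).under R = (u2_ctr V2 R hR2).under R := by
    ext a
    rw [Ideal.under_def, Ideal.under_def, Ideal.mem_comap, Ideal.mem_comap, u2_mem_ctr, u2_mem_ctr]
    exact hmx a (hRM a a.2)
  obtain ⟨g, hg⟩ := Algebra.IsInvariant.exists_smul_of_under_eq_of_profinite (A := R)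
    (B := integralClosure R Ω) (G := Ω ≃ₐ[M] Ω) (u2_ctr V1 R hR1) (u2_ctr V2 R hR2) hunder
  have hg1 : ∀ x : Ω, IsIntegral R x → (Mx V1 (g⁻¹ x) ↔ Mx V2 x) := by
    intro x hx
    have h1 := u2_mem_ctr V2 R hR2 ⟨x, hx⟩
    rw [hg, Ideal.mem_pointwise_smul_iff_inv_smul_mem, u2_mem_ctr, hcoe] at h1
    exact h1
  let V1' : ValuationSubring Ω := V1.comap ((g⁻¹ : Ω ≃ₐ[M] Ω) : Ω →+* Ω)
  have hV1' : ∀ x : Ω, x ∈ V1' ↔ g⁻¹ x ∈ V1 := fun x => Iff.rfl
  have huni' : ∀ x : Ω, Uni V1' x ↔ Uni V1 (g⁻¹ x) := by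
    intro x
    unfold Uni
    rw [hV1', hV1', map_inv₀]
    have h1 : x ≠ 0 ↔ g⁻¹ x ≠ 0 := by
      rw [ne_eq, ne_eq, EmbeddingLike.map_eq_zero_iff]
    rw [h1]
  have hmx' : ∀ x : Ω, Mx V1' x ↔ Mx V1 (g⁻¹ x) := by
    intro x
    unfold Mx
    rw [hV1', huni']
  have hRR : (V1'.toSubring ⊓ M.toSubfield.toSubring : Subring Ω) = R := by
    ext x
    constructor
    · rintro ⟨h1, h2⟩
      refine ⟨?_, h2⟩
      have h3 : g⁻¹ x ∈ V1 := h1
      rw [u2_fix M g⁻¹ h2] at h3
      exact h3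
    · rintro ⟨h1, h2⟩
      refine ⟨?_, h2⟩
      show g⁻¹ x ∈ V1
      rw [u2_fix M g⁻¹ h2]
      exact h1
  have hV : V1' = V2 := by
    apply val_unique M.toSubfield (fun x => Algebra.IsAlgebraic.isAlgebraic (R := M) x)
    · intro x hx
      rw [hV1', u2_fix M g⁻¹ hx]
      exact h x hx
    · rw [hRR]
      intro x hx
      rw [hmx', hg1 x hx]
  refine ⟨g.restrictScalars F, fun x hx => u2_fix M g hx, fun x => ?_⟩
  rw [← hV, hV1']
  have h1 : g⁻¹ (g.restrictScalars F x) = x := AlgEquiv.symm_apply_apply g x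
  rw [h1]

end TE
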