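import Pool.Agent.TE.U1

set_option autoImplicit false

open scoped Classical Polynomial

namespace TE

/-! ## [TF-V1] stabilizers of places -/

variable {k Ω : Type*} [Field k] [Field Ω] [Algebra k Ω] [Algebra (RatFunc k) Ω] [IsScalarTower k (RatFunc k) Ω]

theorem stb_one (O : ValuationSubring Ω) : Stb (k := k) O 1 := fun _ => Iff.rfl

theorem stb_mul {O : ValuationSubring Ω} {g h : Gm k Ω} (hg : Stb O g) (hh : Stb O h) : Stb O (g * h) := by
  intro x
  rw [AlgEquiv.mul_apply]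
  exact (hg (h x)).trans (hh x)

theorem stb_inv {O : ValuationSubring Ω} {g : Gm k Ω} (hg : Stb O g) : Stb O g⁻¹ := by
  intro x
  have h1 := hg (g⁻¹ x)
  have h2 : g (g⁻¹ x) = x := by
    rw [← AlgEquiv.mul_apply, mul_inv_cancel]
    rfl
  rw [h2] at h1
  exact h1.symm

theorem stb_conj {O : ValuationSubring Ω} {ρ τ : Gm k Ω} (hρ : Stb O ρ) (hτ : Stb O τ) : Stb O (ρ * τ * ρ⁻¹) :=
  stb_mul (stb_mul hρ hτ) (stb_inv hρ)

theorem stb_uni {O : ValuationSubring Ω} {g : Gm k Ω} (hg : Stb O g) (x : Ω) : Uni O (g x) ↔ Uni O x := by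
  unfold Uni
  rw [← map_inv₀, hg x, hg x⁻¹, map_ne_zero_iff _ g.injective]

theorem stb_mx {O : ValuationSubring Ω} {g : Gm k Ω} (hg : Stb O g) (x : Ω) : Mx O (g x) ↔ Mx O x := by
  unfold Mx
  rw [hg x, stb_uni hg x]

theorem v1_pow {O : ValuationSubring Ω} {ρ : Gm k Ω} (hρ : Stb O ρ) (i : ℕ) : Stb O (ρ ^ i) := by
  induction i with
  | zero => rw [pow_zero]; exact stb_one O
  | succ i ih => rw [pow_succ]; exact stb_mul ih hρ

theorem v1_prod {O : ValuationSubring Ω} {ρ : Gm k Ω} (hρ : Stb O ρ) {w : Ω} (hw : Mx O w) (m : ℕ) :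
    O.valuation (∏ i ∈ Finset.range (m + 1), (ρ ^ i) w) < 1 := by
  induction m with
  | zero =>
    rw [zero_add, Finset.prod_range_one, pow_zero]
    exact (mx_iff O w).1 hw
  | succ m ih =>
    rw [Finset.prod_range_succ, map_mul]
    exact mul_lt_one_of_lt_of_le ih ((mx_iff O _).1 ((stb_mx (v1_pow hρ _) w).2 hw)).le

theorem v1_tel {ρ : Gm k Ω} {X : Ω} (hX : X ≠ 0) (m : ℕ) :
    (∏ i ∈ Finset.range m, (ρ ^ i) (ρ X / X)) * X = (ρ ^ m) X := by
  induction m with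
  | zero => rw [Finset.prod_range_zero, one_mul, pow_zero]; rfl
  | succ m ih =>
    rw [Finset.prod_range_succ, mul_right_comm, ih, ← map_mul, mul_div_cancel₀ _ hX, ← AlgEquiv.mul_apply, ← pow_succ]

/-- If `ρ ∈ Γ` maps the valuation ring `O` onto itself then `ρ X / X` is a unit of `O` for every `X ≠ 0`.

Proof. `X` is algebraic over `k(t)`, so the orbit of `X` under the powers of `ρ` is finite (it is contained in the set of roots of the minimal
polynomial): there is `m > 0` with `ρ^m X = X` (`ρ^i X = ρ^j X`, `i < j`, apply `ρ^{-i}`). Put `u = ρ X / X`, `u ≠ 0`. Then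
`∏_{i < m} ρ^i u = ρ^m X / X = 1`. If `u ∉ O` then `O.valuation (ρ^i u) > 1` for all `i` (`ρ^i u ∉ O` by `hρ`), so the product has valuation
`> 1`, contradiction; if `u⁻¹ ∉ O` the same argument applies to `u⁻¹` (`∏ ρ^i u⁻¹ = 1`). So `u, u⁻¹ ∈ O`. -/
theorem stb_unit [IsSepClosure (RatFunc k) Ω] {O : ValuationSubring Ω} {ρ : Gm k Ω} (hρ : Stb O ρ) {X : Ω} (hX : X ≠ 0) :
    Uni O (ρ X / X) := by
  -- the orbit is finite
  obtain ⟨m, hm⟩ : ∃ m : ℕ, (ρ ^ (m + 1)) X = X := by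
    have hsep : Algebra.IsSeparable (RatFunc k) Ω := IsSepClosure.separable
    have hint : IsIntegral (RatFunc k) X := Algebra.IsIntegral.isIntegral X
    have hmem : ∀ i : ℕ, (ρ ^ i) X ∈ (minpoly (RatFunc k) X).rootSet Ω := by
      intro i
      rw [Polynomial.mem_rootSet]
      refine ⟨minpoly.ne_zero hint, ?_⟩
      have h1 := Polynomial.aeval_algHom_apply ((ρ ^ i : Gm k Ω) : Ω →ₐ[RatFunc k] Ω) X (minpoly (RatFunc k) X)
      rw [minpoly.aeval, map_zero] at h1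
      exact h1
    have hfin : Finite ((minpoly (RatFunc k) X).rootSet Ω) :=
      (Polynomial.rootSet_finite _ _).to_subtype
    obtain ⟨i, j, hij, he⟩ := Finite.exists_ne_map_eq_of_infinite
      (fun i : ℕ => (⟨(ρ ^ i) X, hmem i⟩ : (minpoly (RatFunc k) X).rootSet Ω))
    have he' : (ρ ^ i) X = (ρ ^ j) X := congrArg Subtype.val he
    have key : ∀ a b : ℕ, a < b → (ρ ^ a) X = (ρ ^ b) X → ∃ m : ℕ, (ρ ^ (m + 1)) X = X := by
      intro a b hab h
      obtain ⟨m, rfl⟩ : ∃ m, b = a + (m + 1) := ⟨b - a - 1, by omega⟩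
      refine ⟨m, ?_⟩
      rw [pow_add, AlgEquiv.mul_apply] at h
      exact ((ρ ^ a).injective h).symm
    rcases lt_or_gt_of_ne hij with h | h
    · exact key i j h he'
    · exact key j i h he'.symm
  have hρX : ρ X ≠ 0 := (map_ne_zero_iff _ ρ.injective).2 hX
  have hu0 : ρ X / X ≠ 0 := div_ne_zero hρX hX
  have hprod : ∏ i ∈ Finset.range (m + 1), (ρ ^ i) (ρ X / X) = 1 := by
    have h1 := v1_tel (ρ := ρ) hX (m + 1)
    rw [hm] at h1
    exact mul_right_cancel₀ hX (by rw [h1, one_mul])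
  have hprod' : ∏ i ∈ Finset.range (m + 1), (ρ ^ i) (ρ X / X)⁻¹ = 1 := by
    rw [Finset.prod_congr rfl (fun i _ => map_inv₀ (ρ ^ i) (ρ X / X)), Finset.prod_inv_distrib, hprod, inv_one]
  have hn1 : ¬ Mx O (ρ X / X) := by
    intro h
    have h2 := v1_prod hρ h m
    rw [hprod, map_one] at h2
    exact lt_irrefl _ h2
  have hn2 : ¬ Mx O (ρ X / X)⁻¹ := by
    intro h
    have h2 := v1_prod hρ h m
    rw [hprod', map_one] at h2
    exact lt_irrefl _ h2
  rcases O.mem_or_inv_mem (ρ X / X) with h | h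
  · by_contra hno
    exact hn1 ⟨h, hno⟩
  · have h3 : Uni O (ρ X / X)⁻¹ := by
      by_contra hno
      exact hn2 ⟨h, hno⟩
    obtain ⟨h4, h5, -⟩ := h3
    rw [inv_inv] at h5
    exact ⟨h5, h4, hu0⟩

end TE
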