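import Pool.Agent.TE.V4

set_option autoImplicit false

open scoped Classical Polynomial

namespace TE

/-! ## [TF-V5] the sign of `n` on the square root of `∏ (t - r)` -/

variable {k Ω : Type*} [Field k] [Field Ω] [Algebra k Ω] [Algebra (RatFunc k) Ω] [IsScalarTower k (RatFunc k) Ω]
  [IsSepClosure (RatFunc k) Ω]

omit [Algebra k Ω] [Algebra (RatFunc k) Ω] [IsScalarTower k (RatFunc k) Ω]
  [IsSepClosure (RatFunc k) Ω] in
/-- products of congruent elements are congruent -/
private theorem v5_prod {O : ValuationSubring Ω} (S : Finset Ω) (a b : Ω → Ω)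
    (ha : ∀ r ∈ S, O.valuation (a r) ≤ 1) (hb : ∀ r ∈ S, O.valuation (b r) ≤ 1)
    (hab : ∀ r ∈ S, O.valuation (a r - b r) < 1) :
    O.valuation (∏ r ∈ S, a r - ∏ r ∈ S, b r) < 1 ∧ O.valuation (∏ r ∈ S, a r) ≤ 1 := by
  induction S using Finset.induction_on with
  | empty => simp
  | insert r S hr ih =>
    obtain ⟨h1, h2⟩ := ih (fun x hx => ha x (Finset.mem_insert_of_mem hx))
      (fun x hx => hb x (Finset.mem_insert_of_mem hx))
      (fun x hx => hab x (Finset.mem_insert_of_mem hx))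
    rw [Finset.prod_insert hr, Finset.prod_insert hr]
    have h3 := ha r (Finset.mem_insert_self r S)
    have h4 := hb r (Finset.mem_insert_self r S)
    have h5 := hab r (Finset.mem_insert_self r S)
    constructor
    · have h6 : a r * ∏ x ∈ S, a x - b r * ∏ x ∈ S, b x =
          (a r - b r) * ∏ x ∈ S, a x + b r * (∏ x ∈ S, a x - ∏ x ∈ S, b x) := by ring
      rw [h6]
      refine Valuation.map_add_lt _ ?_ ?_
      · rw [map_mul]
        exact mul_lt_one_of_lt_of_le h5 h2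
      · rw [map_mul]
        exact mul_lt_one_of_nonneg_of_lt_one_right h4 zero_le' h1
    · rw [map_mul]
      exact mul_le_one' h3 h2

private theorem v5_inv {γ : Gm k Ω} {x η : Ω} (hη : η = 1 ∨ η = -1) (h : γ x = η * x) :
    γ⁻¹ x = η * x := by
  have h1 : γ (η * x) = x := by
    rcases hη with rfl | rfl
    · rw [one_mul, h, one_mul]
    · rw [map_mul, map_neg, map_one, h]
      ring
  have h2 : γ⁻¹ (γ (η * x)) = η * x := by
    have h3 : (γ⁻¹ * γ) (η * x) = η * x := by rw [inv_mul_cancel]; rfl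
    rwa [AlgEquiv.mul_apply] at h3
  rw [h1] at h2
  exact h2

private theorem v5_sgn {γ : Gm k Ω} {η : Ω} (hη : η = 1 ∨ η = -1) : γ η = η := by
  rcases hη with rfl | rfl
  · exact map_one γ
  · rw [map_neg, map_one]

private theorem v5_main (h2 : (2 : k) ≠ 0) {O : ValuationSubring Ω} (hO : Pl k O) {e s : Ω}
    (hes : O.valuation (e - s) < 1) (he1 : O.valuation e = 1) {n γ : Gm k Ω}
    (hne : n e = e ∨ n e = -e) (hns : n s = s)
    (hρ : Stb O (n * γ⁻¹)) {η ζ : Ω} (hη : η = 1 ∨ η = -1) (hζ : ζ = 1 ∨ ζ = -1) (hγe : γ e = η * e)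
    (hγs : γ s = ζ * s) : n e = η * ζ * e := by
  obtain ⟨κ, hκ, hκe⟩ : ∃ κ : Ω, (κ = 1 ∨ κ = -1) ∧ n e = κ * e := by
    rcases hne with h | h
    · exact ⟨1, Or.inl rfl, by rw [h, one_mul]⟩
    · exact ⟨-1, Or.inr rfl, by rw [h]; ring⟩
  have h3 : (n * γ⁻¹) e = κ * η * e := by
    rw [AlgEquiv.mul_apply, v5_inv hη hγe, map_mul, v5_sgn hη, hκe]
    ring
  have h4 : (n * γ⁻¹) s = ζ * s := by
    rw [AlgEquiv.mul_apply, v5_inv hζ hγs, map_mul, v5_sgn hζ, hns]
  have h5 : O.valuation (κ * η * e - ζ * s) < 1 := by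
    have h6 := (stb_mx hρ (e - s)).2 ((mx_iff O _).2 hes)
    rw [map_sub, h3, h4, mx_iff] at h6
    exact h6
  have hvζ : O.valuation ζ = 1 := by
    rcases hζ with rfl | rfl
    · exact map_one _
    · rw [Valuation.map_neg, map_one]
  have h7 : O.valuation ((κ * η - ζ) * e) < 1 := by
    have h8 : (κ * η - ζ) * e = (κ * η * e - ζ * s) - ζ * (e - s) := by ring
    rw [h8]
    refine Valuation.map_sub_lt _ h5 ?_
    rw [map_mul, hvζ, one_mul]
    exact hes
  rw [map_mul, he1, mul_one] at h7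
  have hv2 : O.valuation (2 : Ω) = 1 := (uni_iff O 2).1 (two_uni h2 O hO)
  have h8 : κ * η = ζ := by
    by_contra hne'
    have h9 : κ * η - ζ = 2 ∨ κ * η - ζ = -2 := by
      rcases hκ with rfl | rfl <;> rcases hη with rfl | rfl <;> rcases hζ with rfl | rfl
      · exact absurd (by ring) hne'
      · left; ring
      · right; ring
      · exact absurd (by ring) hne'
      · right; ring
      · exact absurd (by ring) hne'
      · exact absurd (by ring) hne'
      · left; ring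
    rcases h9 with h9 | h9
    · rw [h9, hv2] at h7
      exact lt_irrefl _ h7
    · rw [h9, Valuation.map_neg, hv2] at h7
      exact lt_irrefl _ h7
  rw [hκe, ← h8]
  have h10 : η * η = 1 := by
    rcases hη with rfl | rfl <;> ring
  linear_combination (-(κ * e)) * h10

/-- Let `O` be a place over `t = c`, `S` a finite set of algebraic elements, `c ∉ S`, `e² = ∏_{r ∈ S} (t - r)`, `s² = ∏_{r ∈ S} (c - r)`, `γ ∈ Γ`, `n ∈ N`, `ρ = n γ⁻¹` stabilizing `O`,
`γ e = η e`, `γ s = ζ s` with signs `η`, `ζ`. Then `n e = η ζ e`.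

Proof. `s` is algebraic over `k` (its square is) and `s ≠ 0` is a unit of `O` (`alg_uni`); `e² - s² = ∏ (t - r) - ∏ (c - r) ∈ 𝔪_O` (`aeval_mx` for `p = ∏ (X - r)`, or induction on `S`), so
`e² = s² + 𝔪` is a unit, `e` is a unit, and `(e - s)(e + s) ∈ 𝔪` gives `e - s ∈ 𝔪` or `e + s ∈ 𝔪`; replacing `s` by `-s` we may assume `e - s ∈ 𝔪`. `n` fixes `t` and the `r ∈ S`, so
`(n e)² = e²`, `n e = κ e` with `κ = ± 1`. Now `n = ρ γ`: `κ e = n e = ρ (η e) = η ρ(e)`, so `ρ e = κ η e` (`η² = 1`). `ρ s = n (γ⁻¹ s) = n (ζ s) = ζ s` (`γ⁻¹ s = ζ s` as `ζ² = 1`; `n` fixes `s`).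
`ρ (e - s) ∈ 𝔪` (`stb_mx`), i.e. `κ η e - ζ s ∈ 𝔪`, so `(κ η - ζ) e = (κ η e - ζ s) - ζ (e - s) ∈ 𝔪`. If `κ η ≠ ζ` then `κ η - ζ = ± 2` is a unit (`two_uni`), contradiction. So `κ η = ζ`, `κ = η ζ`. -/
theorem sgn_rel (h2 : (2 : k) ≠ 0) {O : ValuationSubring Ω} (hO : Pl k O) {c : Ω} (hc : IsAlgebraic k c)
    (hm : Mx O (tt k Ω - c)) {S : Finset Ω} (hS : ∀ r ∈ S, IsAlgebraic k r) (hcS : c ∉ S) {e s : Ω}
    (he : e ^ 2 = ∏ r ∈ S, (tt k Ω - r)) (hs : s ^ 2 = ∏ r ∈ S, (c - r)) {n γ : Gm k Ω} (hn : n ∈ NN k Ω)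
    (hρ : Stb O (n * γ⁻¹)) {η ζ : Ω} (hη : η = 1 ∨ η = -1) (hζ : ζ = 1 ∨ ζ = -1) (hγe : γ e = η * e)
    (hγs : γ s = ζ * s) : n e = η * ζ * e := by
  have hvm : O.valuation (tt k Ω - c) < 1 := (mx_iff O _).1 hm
  have hcr : ∀ r ∈ S, O.valuation (c - r) = 1 := by
    intro r hr
    refine (uni_iff O _).1 (alg_uni hO (hc.sub (hS r hr)) ?_)
    intro h
    exact hcS (by rw [sub_eq_zero.1 h]; exact hr)
  have htr : ∀ r ∈ S, O.valuation (tt k Ω - r) ≤ 1 := by
    intro r hr
    have h3 : tt k Ω - r = (tt k Ω - c) + (c - r) := by ring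
    rw [h3]
    exact (Valuation.map_add_le _ hvm.le (hcr r hr).le)
  have h3 := (v5_prod S (fun r => tt k Ω - r) (fun r => c - r) htr (fun r hr => (hcr r hr).le)
    (fun r _ => by
      have h4 : tt k Ω - r - (c - r) = tt k Ω - c := by ring
      show O.valuation (tt k Ω - r - (c - r)) < 1
      rw [h4]
      exact hvm)).1
  have hs1 : O.valuation (s ^ 2) = 1 := by
    rw [hs, map_prod]
    exact Finset.prod_eq_one hcr
  have h4 : O.valuation (e ^ 2 - s ^ 2) < 1 := by
    rw [he, hs]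
    exact h3
  have he2 : O.valuation (e ^ 2) = 1 := by
    rw [← hs1]
    apply Valuation.map_eq_of_sub_lt
    rw [hs1]
    exact h4
  have he1 : O.valuation e = 1 := by
    rw [map_pow] at he2
    exact (pow_eq_one_iff_of_nonneg zero_le' two_ne_zero).1 he2
  have hsalg : IsAlgebraic k s := by
    refine IsAlgebraic.of_pow (n := 2) two_pos ?_
    rw [hs]
    have : ∀ T : Finset Ω, T ⊆ S → IsAlgebraic k (∏ r ∈ T, (c - r)) := by
      intro T
      induction T using Finset.induction_on with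
      | empty => intro _; rw [Finset.prod_empty]; exact isAlgebraic_one
      | insert r T hr ih =>
        intro hT
        rw [Finset.prod_insert hr]
        exact (hc.sub (hS r (hT (Finset.mem_insert_self r T)))).mul
          (ih (fun x hx => hT (Finset.mem_insert_of_mem hx)))
    exact this S (Finset.Subset.refl S)
  have hns : n s = s := hn s hsalg
  have hne : n e = e ∨ n e = -e := by
    have h5 : (n e) ^ 2 = e ^ 2 := by
      rw [← map_pow, he, map_prod]
      apply Finset.prod_congr rfl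
      intro r hr
      rw [map_sub, hn r (hS r hr)]
      congr 1
      exact n.commutes _
    exact sq_eq_sq_iff_eq_or_eq_neg.1 h5
  have h6 : O.valuation (e - s) < 1 ∨ O.valuation (e - (-s)) < 1 := by
    by_contra hcon
    push Not at hcon
    have h7 : e ^ 2 - s ^ 2 = (e - s) * (e - (-s)) := by ring
    rw [h7, map_mul] at h4
    exact absurd (one_le_mul hcon.1 hcon.2) (not_le.2 h4)
  rcases h6 with h6 | h6
  · exact v5_main h2 hO h6 he1 hne hns hρ hη hζ hγe hγs
  · refine v5_main h2 hO h6 he1 hne ?_ hρ hη hζ hγe ?_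
    · rw [map_neg, hns]
    · rw [map_neg, hγs]
      ring

end TE
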