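import Pool.Agent.TE.K2
import Pool.Agent.TE.L2
import Pool.Agent.TE.U2
import Pool.Agent.TE.V1

set_option autoImplicit false

open scoped Classical Polynomial

namespace TE

/-! ## [TF-V3] places over a finite point and elements of `Γ` fixing the point -/

variable {k Ω : Type*} [Field k] [Field Ω] [Algebra k Ω] [Algebra (RatFunc k) Ω] [IsScalarTower k (RatFunc k) Ω]
  [IsSepClosure (RatFunc k) Ω]

/-- `c ≠ 0` algebraic over `k` is a unit of every place (`ks_mem` for `c` and `c⁻¹`). -/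
theorem alg_uni {O : ValuationSubring Ω} (hO : Pl k O) {c : Ω} (hc : IsAlgebraic k c) (h0 : c ≠ 0) : Uni O c := by
  exact ⟨ks_mem O hO c hc, ks_mem O hO _ hc.inv, h0⟩

/-- `p(t) - p(c) ∈ 𝔪_O` for `p ∈ k^s[X]` and a place `O` with `t - c ∈ 𝔪_O`: `X - c` divides `p - p(c)` in `k^s[X]` (or in `Ω[X]`), the coefficients and `t = (t - c) + c`
are in `O`. -/
theorem aeval_mx {O : ValuationSubring Ω} (hO : Pl k O) {c : Ω} (hc : IsAlgebraic k c) (hm : Mx O (tt k Ω - c))
    (p : (algebraicClosure k Ω)[X]) : Mx O (Polynomial.aeval (tt k Ω) p - Polynomial.aeval c p) := by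
  set c' : algebraicClosure k Ω := ⟨c, mem_algebraicClosure_iff.2 hc⟩ with hc'
  obtain ⟨q, hq⟩ := Polynomial.X_sub_C_dvd_sub_C_eval (a := c') (p := p)
  have ht : tt k Ω ∈ O := by
    have h1 := add_mem hm.1 (ks_mem O hO c hc)
    rwa [sub_add_cancel] at h1
  have hqO : Polynomial.aeval (tt k Ω) q ∈ O := by
    rw [Polynomial.aeval_eq_sum_range]
    refine sum_mem fun i _ => ?_
    rw [Algebra.smul_def]
    exact mul_mem (ks_mem O hO _ (mem_algebraicClosure_iff.1 (q.coeff i).2)) (pow_mem ht i)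
  have h1 : Polynomial.aeval c p = algebraMap (algebraicClosure k Ω) Ω (Polynomial.eval c' p) := by
    have h2 : c = algebraMap (algebraicClosure k Ω) Ω c' := rfl
    rw [h2, Polynomial.aeval_algebraMap_apply_eq_algebraMap_eval]
  have h2 := congrArg (Polynomial.aeval (tt k Ω)) hq
  rw [map_sub, map_mul, map_sub, Polynomial.aeval_X, Polynomial.aeval_C, Polynomial.aeval_C,
    ← h1] at h2
  rw [h2, mx_iff, map_mul]
  have h3 : O.valuation (tt k Ω - algebraMap (algebraicClosure k Ω) Ω c') < 1 := (mx_iff O _).1 hm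
  have h4 := (mem_iff O _).1 hqO
  exact mul_lt_one_of_lt_of_le h3 h4

/-- the same for `p ∈ k[X]` -/
theorem aeval_mx' {O : ValuationSubring Ω} (hO : Pl k O) {c : Ω} (hc : IsAlgebraic k c) (hm : Mx O (tt k Ω - c))
    (p : k[X]) : Mx O (Polynomial.aeval (tt k Ω) p - Polynomial.aeval c p) := by
  have h := aeval_mx hO hc hm (p.map (algebraMap k (algebraicClosure k Ω)))
  rwa [Polynomial.aeval_map_algebraMap, Polynomial.aeval_map_algebraMap] at h

/-- a polynomial with value a unit at `c` -/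
theorem v3_uni {O : ValuationSubring Ω} {a b : Ω} (ha : Uni O a) (hab : Mx O (b - a)) : Uni O b := by
  rw [uni_iff] at ha ⊢
  rw [mx_iff] at hab
  have h1 : b = (b - a) + a := by ring
  rw [h1, Valuation.map_add_eq_of_lt_right _ (by rw [ha]; exact hab), ha]

omit [Algebra (RatFunc k) Ω] [IsScalarTower k (RatFunc k) Ω] [IsSepClosure (RatFunc k) Ω] in
theorem v3_alg_aeval {c : Ω} (hc : IsAlgebraic k c) (p : (algebraicClosure k Ω)[X]) :
    IsAlgebraic k (Polynomial.aeval c p) := by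
  have h2 : c = algebraMap (algebraicClosure k Ω) Ω ⟨c, mem_algebraicClosure_iff.2 hc⟩ := rfl
  rw [h2, Polynomial.aeval_algebraMap_apply_eq_algebraMap_eval]
  exact mem_algebraicClosure_iff.1 (Subtype.property _)

/-- the same for `p ∈ k^s[X]` -/
theorem v3_aeval_uni {O : ValuationSubring Ω} (hO : Pl k O) {c : Ω} (hc : IsAlgebraic k c) (hm : Mx O (tt k Ω - c))
    (p : (algebraicClosure k Ω)[X]) (hp : Polynomial.aeval c p ≠ 0) : Uni O (Polynomial.aeval (tt k Ω) p) :=
  v3_uni (alg_uni hO (v3_alg_aeval hc p) hp) (aeval_mx hO hc hm p)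

/-- membership in terms of the orders at `c` -/
theorem v3_char {O : ValuationSubring Ω} {π x a b : Ω} {i j : ℕ} (hπ : Mx O π) (hπ0 : π ≠ 0)
    (ha : Uni O a) (hb : Uni O b) (h : π ^ j * b * x = π ^ i * a) : x ∈ O ↔ j ≤ i := by
  rw [mem_iff]
  rw [mx_iff] at hπ
  rw [uni_iff] at ha hb
  have h0 : O.valuation π ≠ 0 := (Valuation.ne_zero_iff _).2 hπ0
  have h1 := congrArg O.valuation h
  rw [map_mul, map_mul, map_mul, map_pow, map_pow, ha, hb, mul_one, mul_one] at h1
  constructor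
  · intro hx
    by_contra hij
    push Not at hij
    obtain ⟨n, hn, rfl⟩ : ∃ n, 0 < n ∧ j = i + n := ⟨j - i, by omega, by omega⟩
    rw [pow_add, mul_assoc] at h1
    have h2 : O.valuation π ^ n * O.valuation x = 1 := by
      refine mul_left_cancel₀ (pow_ne_zero i h0) ?_
      rw [h1, mul_one]
    have h3 : O.valuation π ^ n * O.valuation x < 1 :=
      mul_lt_one_of_lt_of_le (pow_lt_one₀ zero_le hπ hn.ne') hx
    rw [h2] at h3
    exact lt_irrefl _ h3
  · intro hij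
    obtain ⟨n, rfl⟩ : ∃ n, i = j + n := ⟨i - j, by omega⟩
    rw [pow_add] at h1
    have h2 : O.valuation x = O.valuation π ^ n := mul_left_cancel₀ (pow_ne_zero j h0) h1
    rw [h2]
    exact pow_le_one₀ zero_le hπ.le

/-- if `p(c) ≠ 0` then `p(t)` is a unit of `O` (`p(c)` is algebraic over `k`; `alg_uni`, `aeval_mx'`) -/
theorem aeval_uni {O : ValuationSubring Ω} (hO : Pl k O) {c : Ω} (hc : IsAlgebraic k c) (hm : Mx O (tt k Ω - c))
    (p : k[X]) (hp : Polynomial.aeval c p ≠ 0) : Uni O (Polynomial.aeval (tt k Ω) p) := by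
  have h := v3_aeval_uni hO hc hm (p.map (algebraMap k (algebraicClosure k Ω)))
    (by rwa [Polynomial.aeval_map_algebraMap])
  rwa [Polynomial.aeval_map_algebraMap] at h

/-- A place is determined on the fixed field `k^s(t)` of `N` by the point `c`.

Proof. By `fixed_iff`, `q(t) x = p(t)` with `p, q ∈ k^s[X]`, `q ≠ 0`. If `x = 0` nothing is to prove; otherwise `p ≠ 0` (`aeval_tt_ne`). Let `c' ∈ k^s` be `c` and write
`p = (X - c')^i p₁`, `q = (X - c')^j q₁` with `p₁(c), q₁(c) ≠ 0` (`Polynomial.exists_eq_pow_rootMultiplicity_mul_and_not_dvd`). By `aeval_mx`, `p₁(t)`, `q₁(t)` are units of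
`O` and of `O'`. So with `π = t - c`, an element of `𝔪_O` and of `𝔪_O'`, `π ≠ 0`: if `i ≥ j` then `x = π^(i-j) p₁(t)/q₁(t)` is in `O` and `O'`; if `i < j` then
`x⁻¹ = π^(j-i) q₁(t)/p₁(t)` is in `𝔪_O` and in `𝔪_O'`, so `x` is neither in `O` nor in `O'`. -/
theorem K_val_eq {O O' : ValuationSubring Ω} (hO : Pl k O) (hO' : Pl k O') {c : Ω} (hc : IsAlgebraic k c)
    (hm : Mx O (tt k Ω - c)) (hm' : Mx O' (tt k Ω - c)) {x : Ω} (hx : ∀ g ∈ NN k Ω, g x = x) : x ∈ O ↔ x ∈ O' := by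
  obtain ⟨p, q, hq, h⟩ := (fixed_iff x).1 hx
  by_cases hx0 : x = 0
  · rw [hx0]
    exact ⟨fun _ => zero_mem _, fun _ => zero_mem _⟩
  have hp : p ≠ 0 := by
    rintro rfl
    rw [map_zero] at h
    exact hx0 ((mul_eq_zero.1 h).resolve_left (aeval_tt_ne q hq))
  set c' : algebraicClosure k Ω := ⟨c, mem_algebraicClosure_iff.2 hc⟩ with hc'
  obtain ⟨p₁, hp₁, hp₁'⟩ := Polynomial.exists_eq_pow_rootMultiplicity_mul_and_not_dvd p hp c'
  obtain ⟨q₁, hq₁, hq₁'⟩ := Polynomial.exists_eq_pow_rootMultiplicity_mul_and_not_dvd q hq c'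
  have hcc : c = algebraMap (algebraicClosure k Ω) Ω c' := rfl
  have hval : ∀ r : (algebraicClosure k Ω)[X], ¬ (Polynomial.X - Polynomial.C c') ∣ r →
      Polynomial.aeval c r ≠ 0 := by
    intro r hr h0
    apply hr
    rw [Polynomial.dvd_iff_isRoot, Polynomial.IsRoot.def]
    rw [hcc, Polynomial.aeval_algebraMap_apply_eq_algebraMap_eval] at h0
    exact (map_eq_zero _).1 h0
  have hπ : Polynomial.aeval (tt k Ω) (Polynomial.X - Polynomial.C c') = tt k Ω - c := by
    rw [map_sub, Polynomial.aeval_X, Polynomial.aeval_C]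
    rfl
  have hπ0 : tt k Ω - c ≠ 0 := by
    rw [← hπ]
    exact aeval_tt_ne _ (Polynomial.X_sub_C_ne_zero c')
  have h1 : (tt k Ω - c) ^ (q.rootMultiplicity c') * Polynomial.aeval (tt k Ω) q₁ * x =
      (tt k Ω - c) ^ (p.rootMultiplicity c') * Polynomial.aeval (tt k Ω) p₁ := by
    have e1 : Polynomial.aeval (tt k Ω) q = (tt k Ω - c) ^ (q.rootMultiplicity c') *
        Polynomial.aeval (tt k Ω) q₁ := by
      conv_lhs => rw [hq₁]
      rw [map_mul, map_pow, hπ]
    have e2 : Polynomial.aeval (tt k Ω) p = (tt k Ω - c) ^ (p.rootMultiplicity c') *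
        Polynomial.aeval (tt k Ω) p₁ := by
      conv_lhs => rw [hp₁]
      rw [map_mul, map_pow, hπ]
    rw [← e1, ← e2]
    exact h
  rw [v3_char hm hπ0 (v3_aeval_uni hO hc hm p₁ (hval p₁ hp₁')) (v3_aeval_uni hO hc hm q₁ (hval q₁ hq₁')) h1,
    v3_char hm' hπ0 (v3_aeval_uni hO' hc hm' p₁ (hval p₁ hp₁')) (v3_aeval_uni hO' hc hm' q₁ (hval q₁ hq₁')) h1]

/-- If `γ c = c` and `O` is a place over `t = c` then there is `n ∈ N` such that `n γ⁻¹` stabilizes `O`.

Proof. `V₁ = {x : γ x ∈ O}` (`O.comap (γ : Ω →+* Ω)`) is a place (`Pl k V₁`: it contains `k`, and `V₁ ≠ ⊤` as `γ` is surjective) with `Mx V₁ (t - c)` since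
`γ (t - c) = t - c`. Let `M` be the fixed field of `N` (`exists_fixedField`). By `K_val_eq`, `x ∈ V₁ ↔ x ∈ O` for `x ∈ M`. By `exists_conj` (for `M`, `V₁`, `V₂ = O`) there is `n`
fixing `M`, so `n ∈ N`, with `n x ∈ O ↔ x ∈ V₁ ↔ γ x ∈ O` for all `x`. With `x = γ⁻¹ y`: `(n γ⁻¹) y ∈ O ↔ y ∈ O`. -/
theorem exists_dec {O : ValuationSubring Ω} (hO : Pl k O) {c : Ω} (hc : IsAlgebraic k c) (hm : Mx O (tt k Ω - c))
    {γ : Gm k Ω} (hγ : γ c = c) : ∃ n ∈ NN k Ω, Stb O (n * γ⁻¹) := by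
  have : IsGalois (RatFunc k) Ω := inferInstance
  set V₁ : ValuationSubring Ω := O.comap (γ : Ω →+* Ω) with hV
  have hmem : ∀ x : Ω, x ∈ V₁ ↔ γ x ∈ O := fun x => Iff.rfl
  have hP : Pl k V₁ := by
    constructor
    · intro a
      rw [hmem, IsScalarTower.algebraMap_apply k (RatFunc k) Ω, γ.commutes,
        ← IsScalarTower.algebraMap_apply k (RatFunc k) Ω]
      exact hO.1 a
    · intro h
      apply hO.2
      rw [eq_top_iff]
      intro y _
      have h1 : γ⁻¹ y ∈ V₁ := by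
        rw [h]
        exact ValuationSubring.mem_top _
      rw [hmem] at h1
      have h2 : γ (γ⁻¹ y) = y := by
        rw [← AlgEquiv.mul_apply, mul_inv_cancel]
        rfl
      rwa [h2] at h1
  have hmx : Mx V₁ (tt k Ω - c) := by
    have ht : γ (tt k Ω - c) = tt k Ω - c := by
      rw [map_sub, hγ, tt, γ.commutes]
    constructor
    · rw [hmem, ht]
      exact hm.1
    · intro h
      apply hm.2
      refine ⟨hm.1, ?_, h.2.2⟩
      have h2 := h.2.1
      rw [hmem, map_inv₀, ht] at h2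
      exact h2
  obtain ⟨M, hM, hM2⟩ := exists_fixedField (k := k) (Ω := Ω)
  obtain ⟨n, hn, hn2⟩ := exists_conj M V₁ O fun x hx =>
    K_val_eq hP hO hc hmx hm fun g hg => (hM x).1 hx g hg
  refine ⟨n, (hM2 n).2 hn, fun x => ?_⟩
  rw [AlgEquiv.mul_apply, hn2, hmem, ← AlgEquiv.mul_apply, mul_inv_cancel]
  rfl

end TE
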