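import Pool.Agent.TE.V2
import Pool.Agent.TE.V3
import Pool.Agent.TE.A1
import Pool.Agent.TE.A2z
import Pool.Agent.TE.F0

set_option autoImplicit false

open WeierstrassCurve.Affine
open scoped Classical Polynomial

namespace TE

/-! ## [TF-V8] Selmer crossed homomorphisms on conjugate elements of a decomposition group, II -/

variable {k Ω : Type*} [Field k] [Field Ω] [Algebra k Ω] [Algebra (RatFunc k) Ω] [IsScalarTower k (RatFunc k) Ω]
  [IsSepClosure (RatFunc k) Ω] (d : Dat k)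

/-- Let `f` be Selmer with `2 f ∈ {0, T}` on `N`, `O` a place over `t = c`, `D(c) ≠ 0`, `τ ∈ N`, `ρ ∈ Γ` stabilizing `O`, `τ' = ρ τ ρ⁻¹`. Then `2 f τ = 0 = 2 f τ'` and
`ch (f τ') = ch (f τ)`.

Proof. `2f` is Selmer (`isSel_nsmul`) with values in `{0, T}`; `D(t)` is a unit (`aeval_uni`), `A(t) ∈ O`; `stepB` with `u = 1` (`dat_A`, `dat_D`) gives `2 f g = 0` for `g ∈ N ∩ Stb O`, in particular for
`τ`, `τ'` (`NN_conj'`, `stb_conj`). Let `P` be as in `hf.loc O`, `f g = gP - P`, so `g(2P) = 2P` for `g = τ, τ'`.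
If `2P = 0`: `ch (gP - P) = ch(gP) ch(P) = ch(P)² = 1` for both (`ch_add`, `ch_neg`, `ch_act`, `ch_val`).
If `2P = T`: `Z = xx P`, `Z² = b ≠ 0` (`half_xx`), `g Z = xx (gP) = xx (P + f g) = ch (f g) Z` (`xx_act`, `half_add`).
Otherwise `Z = gf P`, `Z² = xx (2P) ≠ 0` (`gf_sq`, `xx_ne`), `g Z = gf (P + f g) = ch (f g) Z` (`gf_act`, `gf_add`). In the last two cases use `conj_sign` with `ε = ch (f τ)`, `ε' = ch (f τ')`. -/
theorem loc_D {O : ValuationSubring Ω} (hO : Pl k O) {c : Ω} (hc : IsAlgebraic k c) (hm : Mx O (tt k Ω - c))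
    (hDc : Polynomial.aeval c d.D ≠ 0) {f : Gm k Ω → d.C.Pt Ω} (hf : IsSel d.C f)
    (h2f : ∀ g ∈ NN k Ω, (2 : ℕ) • f g = 0 ∨ (2 : ℕ) • f g = d.C.T Ω) {ρ τ : Gm k Ω} (hρ : Stb O ρ) (hτN : τ ∈ NN k Ω)
    (hτ : Stb O τ) :
    (2 : ℕ) • f τ = 0 ∧ (2 : ℕ) • f (ρ * τ * ρ⁻¹) = 0 ∧ d.C.ch (f (ρ * τ * ρ⁻¹)) = d.C.ch (f τ) := by
  have h2 : (2 : k) ≠ 0 := d.h2
  have ht : tt k Ω ∈ O := by
    have h : tt k Ω = (tt k Ω - c) + c := by ring
    rw [h]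
    exact O.add_mem _ _ hm.1 (ks_mem O hO c hc)
  have hA : d.C.A Ω ∈ O := by
    rw [dat_A]
    exact place_fin O hO ht d.A
  have hD : Uni O (d.C.A Ω ^ 2 - 4 * d.C.B Ω) := by
    rw [dat_D]
    exact aeval_uni hO hc hm d.D hDc
  have hB := stepB d.C h2 (isSel_nsmul hf 2) h2f O hO 1 one_ne_zero
    (by rw [map_one, one_pow, div_one]; exact hA) (by rw [map_one, one_pow, div_one]; exact hD)
  have hτN' : ρ * τ * ρ⁻¹ ∈ NN k Ω := NN_conj' hτN
  have hτ' : Stb O (ρ * τ * ρ⁻¹) := stb_conj hρ hτ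
  have e1 : (2 : ℕ) • f τ = 0 := hB τ hτN hτ
  have e2 : (2 : ℕ) • f (ρ * τ * ρ⁻¹) = 0 := hB _ hτN' hτ'
  refine ⟨e1, e2, ?_⟩
  obtain ⟨P, hP⟩ := hf.loc O hO
  have a1 : d.C.act τ P = P + f τ := by rw [hP τ hτN hτ]; abel
  have a2 : d.C.act (ρ * τ * ρ⁻¹) P = P + f (ρ * τ * ρ⁻¹) := by rw [hP _ hτN' hτ']; abel
  by_cases hz : (2 : ℕ) • P = 0
  · have key : ∀ g : Gm k Ω, d.C.act g P = P + f g → (2 : ℕ) • f g = 0 → d.C.ch (f g) = 1 := by
      intro g hg hg2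
      have h := ch_act d.C g P
      rw [hg, ch_add d.C hz hg2] at h
      rcases ch_val d.C P with h1 | h1
      · rwa [h1, one_mul] at h
      · rw [h1] at h
        have h3 : -(d.C.ch (f g)) = -1 := by rw [← h]; ring
        exact neg_injective h3
    rw [key _ a1 e1, key _ a2 e2]
  by_cases hT : (2 : ℕ) • P = d.C.T Ω
  · have hZ : d.C.xx P ≠ 0 := by
      intro h
      have h3 := half_xx d.C hT
      rw [h, zero_pow two_ne_zero] at h3
      exact d.C.B_ne Ω h3.symm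
    refine (conj_sign h2 hO hρ hτN hτ hZ (ch_val d.C _) (ch_val d.C _) ?_ ?_).symm
    · rw [← (xx_act d.C τ P).1, a1, half_add d.C e1 hT]
    · rw [← (xx_act d.C (ρ * τ * ρ⁻¹) P).1, a2, half_add d.C e2 hT]
  · have hZ : d.C.gf P ≠ 0 := by
      intro h
      have h3 := gf_sq d.C hz
      rw [h, zero_pow two_ne_zero] at h3
      exact xx_ne d.C hz hT h3.symm
    refine (conj_sign h2 hO hρ hτN hτ hZ (ch_val d.C _) (ch_val d.C _) ?_ ?_).symm
    · rw [← gf_act d.C τ P, a1, gf_add d.C e1 hz]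
    · rw [← gf_act d.C (ρ * τ * ρ⁻¹) P, a2, gf_add d.C e2 hz]

end TE
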