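import Pool.Agent.TE.V2
import Pool.Agent.TE.V3
import Pool.Agent.TE.A1
import Pool.Agent.TE.A2z

set_option autoImplicit false

open WeierstrassCurve.Affine
open scoped Classical Polynomial

namespace TE

/-! ## [TF-V7] Selmer crossed homomorphisms on conjugate elements of a decomposition group, I -/

variable {k Ω : Type*} [Field k] [Field Ω] [Algebra k Ω] [Algebra (RatFunc k) Ω] [IsScalarTower k (RatFunc k) Ω]
  [IsSepClosure (RatFunc k) Ω] (d : Dat k)

omit [IsSepClosure (RatFunc k) Ω] [IsScalarTower k (RatFunc k) Ω] in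
theorem v7_place (O : ValuationSubring Ω) (hO : Pl k O) (ht : tt k Ω ∈ O) (f : k[X]) :
    Polynomial.aeval (tt k Ω) f ∈ O := by
  rw [Polynomial.aeval_eq_sum_range]
  refine sum_mem fun i _ => ?_
  rw [Algebra.smul_def]
  exact mul_mem (hO.1 _) (pow_mem ht i)

/-- Let `f` be Selmer with values in `E[2]` (on `N`), `O` a place over `t = c`, `B(c) ≠ 0`, `τ ∈ N`, `ρ ∈ Γ` stabilizing `O`. Then `f τ ∈ {0, T}` and
`f (ρ τ ρ⁻¹) = f τ`.

Proof. `t ∈ O`; `B(t)` is a unit (`aeval_uni`), `A(t) ∈ O` (`place_fin`, or `aeval_mx'` and algebraicity). `stepA` with `u = 1` (`dat_A`, `dat_B`) gives `ch (f g) = 1`, i.e. `f g ∈ {0, T}`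
(`ch_eq_one_iff`) for `g ∈ N ∩ Stb O`, in particular for `τ` and `τ' = ρ τ ρ⁻¹` (`NN_conj'`, `stb_conj`). Let `P` be as in `hf.loc O`: `f g = gP - P`. If `P = 0` or `P = T` then `f τ = 0 = f τ'`
(`act_T`). Otherwise let `Z = hf P` if `hf P ≠ 0` and `Z = wf P` if `hf P = 0`; in the last case `wf P² = a² - 4b ≠ 0` (`wf_sq`, `Crv.D_ne`). So `Z ≠ 0`, and for `g = τ, τ'`: if `f g = 0` then
`gP = P`, `g Z = Z`; if `f g = T` then `gP = P + T`, `g Z = -Z` (`hf_act`, `hf_add_T`, `wf_act`, `wf_add_T`). `conj_sign` shows that the signs for `τ` and `τ'` are equal (`1 ≠ -1` as `2 ≠ 0` in `Ω`). -/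
theorem loc_B {O : ValuationSubring Ω} (hO : Pl k O) {c : Ω} (hc : IsAlgebraic k c) (hm : Mx O (tt k Ω - c))
    (hBc : Polynomial.aeval c d.B ≠ 0) {f : Gm k Ω → d.C.Pt Ω} (hf : IsSel d.C f)
    (h2f : ∀ g ∈ NN k Ω, (2 : ℕ) • f g = 0) {ρ τ : Gm k Ω} (hρ : Stb O ρ) (hτN : τ ∈ NN k Ω) (hτ : Stb O τ) :
    (f τ = 0 ∨ f τ = d.C.T Ω) ∧ f (ρ * τ * ρ⁻¹) = f τ := by
  have hB : Uni O (d.C.B Ω) := by
    rw [dat_B]
    exact aeval_uni hO hc hm d.B hBc
  have ht : tt k Ω ∈ O := by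
    have h1 : tt k Ω = (tt k Ω - c) + c := by ring
    rw [h1]
    exact add_mem hm.1 (ks_mem O hO c hc)
  have hA : d.C.A Ω ∈ O := by
    rw [dat_A]
    exact v7_place O hO ht d.A
  have hch : ∀ g ∈ NN k Ω, Stb O g → d.C.ch (f g) = 1 :=
    stepA d.C d.h2 hf h2f O hO 1 one_ne_zero (by rw [map_one, one_pow, div_one]; exact hA)
      (by rw [map_one, one_pow, div_one]; exact hB)
  have hval : ∀ g ∈ NN k Ω, Stb O g → f g = 0 ∨ f g = d.C.T Ω := fun g hg hs =>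
    (ch_eq_one_iff d.C (f g)).1 (hch g hg hs)
  have hτN' : ρ * τ * ρ⁻¹ ∈ NN k Ω := NN_conj' hτN
  have hτ' : Stb O (ρ * τ * ρ⁻¹) := stb_conj hρ hτ
  refine ⟨hval τ hτN hτ, ?_⟩
  obtain ⟨P, hP⟩ := hf.loc O hO
  by_cases h0 : P = 0
  · rw [hP τ hτN hτ, hP _ hτN' hτ', h0, map_zero, map_zero]
  by_cases hT : P = d.C.T Ω
  · rw [hP τ hτN hτ, hP _ hτN' hτ', hT, act_T, act_T]
  have key : ∀ Z : Ω, Z ≠ 0 → (∀ g ∈ NN k Ω, Stb O g → (f g = 0 → g Z = Z) ∧
      (f g = d.C.T Ω → g Z = -Z)) → f (ρ * τ * ρ⁻¹) = f τ := by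
    intro Z hZ hg
    have h2Ω := d.C.two_ne Ω
    rcases hval τ hτN hτ with e1 | e1 <;> rcases hval _ hτN' hτ' with e2 | e2
    · rw [e1, e2]
    · exfalso
      have h := conj_sign d.h2 hO hρ hτN hτ hZ (Or.inl rfl) (Or.inr rfl)
        (by rw [one_mul]; exact (hg τ hτN hτ).1 e1) (by rw [neg_one_mul]; exact (hg _ hτN' hτ').2 e2)
      exact h2Ω (by linear_combination h)
    · exfalso
      have h := conj_sign d.h2 hO hρ hτN hτ hZ (Or.inr rfl) (Or.inl rfl)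
        (by rw [neg_one_mul]; exact (hg τ hτN hτ).2 e1) (by rw [one_mul]; exact (hg _ hτN' hτ').1 e2)
      exact h2Ω (by linear_combination -h)
    · rw [e1, e2]
  have hact0 : ∀ g ∈ NN k Ω, Stb O g → f g = 0 → d.C.act g P = P := by
    intro g hg hs e
    rw [hP g hg hs] at e
    exact sub_eq_zero.1 e
  have hactT : ∀ g ∈ NN k Ω, Stb O g → f g = d.C.T Ω → d.C.act g P = P + d.C.T Ω := by
    intro g hg hs e
    rw [hP g hg hs] at e
    rw [← e]
    abel
  by_cases hh : d.C.hf P = 0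
  · refine key (d.C.wf P) ?_ ?_
    · intro hw
      have h1 := wf_sq d.C h0 hT
      rw [hw, hh] at h1
      apply d.C.D_ne Ω
      linear_combination -h1
    · intro g hg hs
      constructor
      · intro e
        rw [← wf_act, hact0 g hg hs e]
      · intro e
        rw [← wf_act, hactT g hg hs e, wf_add_T d.C h0 hT]
  · refine key (d.C.hf P) hh ?_
    intro g hg hs
    constructor
    · intro e
      rw [← hf_act, hact0 g hg hs e]
    · intro e
      rw [← hf_act, hactT g hg hs e, hf_add_T d.C h0 hT]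

end TE
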