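import Pool.Agent.TE.V4
import Pool.Agent.TE.V5
import Pool.Agent.TE.V7
import Pool.Agent.TE.A2
import Pool.Agent.TE.F0

set_option autoImplicit false

open WeierstrassCurve.Affine
open scoped Classical Polynomial

namespace TE

/-! ## [TF-V9] the operator `γ - 1` on the classes with values in `E[2]`, local computation -/

variable {k Ω : Type*} [Field k] [Field Ω] [Algebra k Ω] [Algebra (RatFunc k) Ω] [IsScalarTower k (RatFunc k) Ω]

theorem V9_conj {ρ τ : Gm k Ω} (hτ : τ ∈ NN k Ω) : ρ * τ * ρ⁻¹ ∈ NN k Ω := by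
  intro c hc
  have h1 : IsAlgebraic k (ρ⁻¹ c) := by
    obtain ⟨p, hp, hpc⟩ := hc
    refine ⟨p, hp, ?_⟩
    have h2 := Polynomial.aeval_algHom_apply (((ρ⁻¹ : Gm k Ω) : Ω →ₐ[RatFunc k] Ω).restrictScalars k) c p
    rw [hpc, map_zero] at h2
    exact h2
  rw [AlgEquiv.mul_apply, AlgEquiv.mul_apply, hτ _ h1, ← AlgEquiv.mul_apply, mul_inv_cancel]
  rfl

/-- With `ρ = n γ⁻¹`, `τ' = ρ τ ρ⁻¹` (`n, τ ∈ N`): `(tw γ f)(τ) = ρ⁻¹ (f τ' + (τ' f n - f n))`.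

Proof. `γ⁻¹ τ γ = n⁻¹ τ' n` (`γ = ρ⁻¹ n`). `f (n⁻¹ τ' n) = f n⁻¹ + n⁻¹ f τ' + n⁻¹ τ' f n`, `f n⁻¹ = -n⁻¹ f n` (`IsCoc.mul`, `f 1 = 0`), and `γ n⁻¹ = ρ⁻¹`. -/
theorem tw_formula {C : Crv (RatFunc k)} {f : Gm k Ω → C.Pt Ω} (hf : IsCoc C f) {n γ τ : Gm k Ω} (hn : n ∈ NN k Ω)
    (hτ : τ ∈ NN k Ω) : tw C γ f τ = C.act (n * γ⁻¹)⁻¹
      (f (n * γ⁻¹ * τ * (n * γ⁻¹)⁻¹) + (C.act (n * γ⁻¹ * τ * (n * γ⁻¹)⁻¹) (f n) - f n)) := by
  have h1N : (1 : Gm k Ω) ∈ NN k Ω := Subgroup.one_mem _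
  have hninv : n⁻¹ ∈ NN k Ω := Subgroup.inv_mem _ hn
  have hτ' : n * γ⁻¹ * τ * (n * γ⁻¹)⁻¹ ∈ NN k Ω := V9_conj hτ
  set ρ : Gm k Ω := n * γ⁻¹ with hρ
  set τ' : Gm k Ω := ρ * τ * ρ⁻¹ with hτ'd
  have f1 : f 1 = 0 := by
    have h := hf.mul 1 h1N 1 h1N
    rw [mul_one, act_one] at h
    have h2 : f 1 + 0 = f 1 + f 1 := by rw [add_zero]; exact h
    exact (add_left_cancel h2).symm
  have finv : f n⁻¹ = - C.act n⁻¹ (f n) := by
    have h := hf.mul n⁻¹ hninv n hn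
    rw [inv_mul_cancel, f1] at h
    exact eq_neg_of_add_eq_zero_left h.symm
  have e1 : γ⁻¹ * τ * γ = n⁻¹ * (τ' * n) := by
    rw [hτ'd, hρ]
    group
  have e2 : f (γ⁻¹ * τ * γ) = C.act n⁻¹ (f τ' + (C.act τ' (f n) - f n)) := by
    rw [e1, hf.mul n⁻¹ hninv (τ' * n) (Subgroup.mul_mem _ hτ' hn), hf.mul τ' hτ' n hn, finv, map_add, map_add,
      map_sub]
    abel
  unfold tw
  rw [e2, ← act_mul]
  have e3 : γ * n⁻¹ = ρ⁻¹ := by
    rw [hρ]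
    group
  rw [e3]

variable [IsSepClosure (RatFunc k) Ω] (d : Dat k)

/-- Let `f` be Selmer with values in `E[2]`, `O` a place over `t = c`, where `c` is a root of `D` and `B(c) ≠ 0`; `γ ∈ Γ`, `n ∈ N` with `ρ = n γ⁻¹` stabilizing `O`; `τ ∈ N` stabilizing `O` with `τ w = -w`,
`w² = t - c`. Then `(tw γ f)(τ) - f τ` is `0` if `ch (f n) = 1` and `T` if `ch (f n) = -1`.

Proof. `τ' = ρ τ ρ⁻¹`; by `loc_B`, `f τ' = f τ ∈ {0, T}`, fixed by `ρ⁻¹` (`act_T`). So by `tw_formula` the difference is `ρ⁻¹ (τ' f n - f n)`. If `ch (f n) = 1`: `f n ∈ {0, T}` is fixed by `τ'`, result `0`.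
If `ch (f n) = -1`: `R = f n`, `2R = 0`; `τ'R - R ∈ {0, T}` (`tors_diff`), and `g ↦ (1 if gR - R = 0, -1 otherwise)` is `Kum (rts D)` (`kum_tors`). `τ' w = -w`: `τ' w = ± w` (`w² = t - c` is fixed by `N`), and
`conj_sign` for `Z = w`, `ε = -1`. `kum_at` for `τ'` (`c ∈ rts D`: `mem_rts`) gives `τ'R - R ≠ 0`, so `= T`, and `ρ⁻¹ T = T`. -/
theorem at_D {O : ValuationSubring Ω} (hO : Pl k O) {c : Ω} (hcD : c ∈ (rts k d.D : Finset Ω)) (hm : Mx O (tt k Ω - c))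
    (hBc : Polynomial.aeval c d.B ≠ 0) {f : Gm k Ω → d.C.Pt Ω} (hf : IsSel d.C f)
    (h2f : ∀ g ∈ NN k Ω, (2 : ℕ) • f g = 0) {n γ τ : Gm k Ω} (hn : n ∈ NN k Ω) (hρ : Stb O (n * γ⁻¹))
    (hτN : τ ∈ NN k Ω) (hτ : Stb O τ) {w : Ω} (hw : w ^ 2 = tt k Ω - c) (hτw : τ w = -w) :
    (d.C.ch (f n) = 1 → tw d.C γ f τ - f τ = 0) ∧ (d.C.ch (f n) = -1 → tw d.C γ f τ - f τ = d.C.T Ω) := by
  have hc : IsAlgebraic k c := rts_alg hcD
  set ρ : Gm k Ω := n * γ⁻¹ with hρd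
  set τ' : Gm k Ω := ρ * τ * ρ⁻¹ with hτ'd
  have hτ'N : τ' ∈ NN k Ω := V9_conj hτN
  have hτ'S : Stb O τ' := stb_conj hρ hτ
  obtain ⟨g1, g2⟩ := loc_B d hO hc hm hBc hf h2f hρ hτN hτ
  rw [← hτ'd] at g2
  have hfix : d.C.act ρ⁻¹ (f τ) = f τ := by
    rcases g1 with h | h
    · rw [h, map_zero]
    · rw [h, act_T]
  have key : tw d.C γ f τ - f τ = d.C.act ρ⁻¹ (d.C.act τ' (f n) - f n) := by
    rw [tw_formula hf.toIsCoc hn hτN, ← hρd, ← hτ'd, map_add, g2, hfix, add_sub_cancel_left]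
  constructor
  · intro h
    rw [key]
    have h2 : d.C.act τ' (f n) = f n := by
      rcases (ch_eq_one_iff d.C (f n)).1 h with h3 | h3
      · rw [h3, map_zero]
      · rw [h3, act_T]
    rw [h2, sub_self, map_zero]
  · intro h
    rw [key]
    have hR : (2 : ℕ) • f n = 0 := h2f n hn
    have hw0 : w ≠ 0 := by
      intro h0
      have h3 : tt k Ω - c = 0 := by rw [← hw, h0]; ring
      have h6 : tt k Ω = c := sub_eq_zero.1 h3
      exact k2_tt_trans (k := k) (Ω := Ω) (h6 ▸ hc)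
    have hτ'w : τ' w = w ∨ τ' w = -w := by
      have h3 : (τ' w) ^ 2 = w ^ 2 := by
        rw [← map_pow, hw, map_sub, hτ'N c hc]
        have h4 : τ' (tt k Ω) = tt k Ω := τ'.commutes _
        rw [h4]
      exact sq_eq_sq_iff_eq_or_eq_neg.1 h3
    have hτ'w' : τ' w = -w := by
      rcases hτ'w with h3 | h3
      · have h4 := conj_sign d.h2 hO hρ hτN hτ (Z := w) (ε := -1) (ε' := 1) hw0 (Or.inr rfl) (Or.inl rfl)
          (by rw [hτw]; ring) (by rw [← hτ'd, h3]; ring)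
        exfalso
        apply d.C.two_ne Ω
        linear_combination -h4
      · exact h3
    have hK := kum_tors d hR h
    have hval : (fun g => if d.C.act g (f n) - f n = 0 then (1 : Ω) else -1) τ' = 1 ∨
        (fun g => if d.C.act g (f n) - f n = 0 then (1 : Ω) else -1) τ' = -1 := by
      change (if _ then (1 : Ω) else -1) = 1 ∨ (if _ then (1 : Ω) else -1) = -1
      split_ifs
      · exact Or.inl rfl
      · exact Or.inr rfl
    have h5 := (kum_at d.h2 hO hc hm hτ'N hτ'S hw hτ'w' (fun r hr => rts_alg hr) hK hval).1 hcD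
    have h6 : d.C.act τ' (f n) - f n ≠ 0 := by
      intro h7
      change (if d.C.act τ' (f n) - f n = 0 then (1 : Ω) else -1) = -1 at h5
      rw [if_pos h7] at h5
      apply d.C.two_ne Ω
      linear_combination h5
    rcases tors_diff d hR h τ' with h7 | h7
    · exact absurd h7 h6
    · rw [h7, act_T]

end TE
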