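import Pool.Agent.TE.V4
import Pool.Agent.TE.V5
import Pool.Agent.TE.V8
import Pool.Agent.TE.V9
import Pool.Agent.TE.A2
import Pool.Agent.TE.F0

set_option autoImplicit false

open WeierstrassCurve.Affine
open scoped Classical Polynomial

namespace TE

/-! ## [TF-V10] the operator `γ - 1` on the classes with `2 f ∈ {0, T}`, local computation -/

variable {k Ω : Type*} [Field k] [Field Ω] [Algebra k Ω] [Algebra (RatFunc k) Ω] [IsScalarTower k (RatFunc k) Ω]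
  [IsSepClosure (RatFunc k) Ω] (d : Dat k)

/-- If `w² = t - c`, `τ w = -w`, `τ ∈ N` and `ρ` stabilize `O`, then `(ρ τ ρ⁻¹) w = -w`. -/
theorem v10_conj_w (h2 : (2 : k) ≠ 0) {O : ValuationSubring Ω} (hO : Pl k O) {c : Ω} (hc : IsAlgebraic k c)
    {ρ τ : Gm k Ω} (hρ : Stb O ρ) (hτN : τ ∈ NN k Ω) (hτ : Stb O τ) {w : Ω} (hw : w ^ 2 = tt k Ω - c)
    (hτw : τ w = -w) : (ρ * τ * ρ⁻¹) w = -w := by
  have hw0 : w ≠ 0 := by
    rintro rfl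
    exact s1b_ne (k := k) hc (by rw [← hw]; ring)
  have hN : ρ * τ * ρ⁻¹ ∈ NN k Ω := NN_conj' hτN
  have hsq : ((ρ * τ * ρ⁻¹) w) ^ 2 = w ^ 2 := by
    rw [← map_pow, hw, map_sub, s1b_gtt, hN c hc]
  rcases sq_eq_sq_iff_eq_or_eq_neg.1 hsq with h | h
  · have := conj_sign h2 hO hρ hτN hτ hw0 (ε := -1) (ε' := 1) (Or.inr rfl) (Or.inl rfl)
      (by rw [hτw]; ring) (by rw [h]; ring)
    rw [h]
    linear_combination (-w) * this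
  · exact h

/-- Let `f` be Selmer with `2 f ∈ {0, T}` on `N`, `O` a place over `t = c`, where `c` is a root of `B` and `D(c) ≠ 0`; `γ ∈ Γ`, `n ∈ N` with `ρ = n γ⁻¹` stabilizing `O`; `τ ∈ N` stabilizing `O` with
`τ w = -w`, `w² = t - c`. Then `ch ((tw γ f)(τ) - f τ)` is `1` if `2 f n = 0` and `-1` if `2 f n = T`.

Proof. `τ' = ρ τ ρ⁻¹`. By `loc_D`: `2 f τ = 2 f τ' = 0`, `ch (f τ') = ch (f τ)`. `Q = f n`, `2 (τ'Q - Q) = τ'(2Q) - 2Q = 0` as `2Q ∈ {0, T}`. By `tw_formula`, `ch_act`, `ch_add`, `ch_neg`: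
`ch (tw γ f τ - f τ) = ch (f τ') ch (τ'Q - Q) ch (f τ) = ch (τ'Q - Q)`. If `2Q = 0`: `ch (τ'Q - Q) = ch(τ'Q) ch(Q) = 1`. If `2Q = T`: `g ↦ ch (gQ - Q)` is `Kum (rts B)` (`kum_half`), `τ' w = -w` as in V9
(`conj_sign` with `Z = w`), and `kum_at` for `τ'` gives `-1`. -/
theorem at_B {O : ValuationSubring Ω} (hO : Pl k O) {c : Ω} (hcB : c ∈ (rts k d.B : Finset Ω)) (hm : Mx O (tt k Ω - c))
    (hDc : Polynomial.aeval c d.D ≠ 0) {f : Gm k Ω → d.C.Pt Ω} (hf : IsSel d.C f)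
    (h2f : ∀ g ∈ NN k Ω, (2 : ℕ) • f g = 0 ∨ (2 : ℕ) • f g = d.C.T Ω) {n γ τ : Gm k Ω} (hn : n ∈ NN k Ω)
    (hρ : Stb O (n * γ⁻¹)) (hτN : τ ∈ NN k Ω) (hτ : Stb O τ) {w : Ω} (hw : w ^ 2 = tt k Ω - c) (hτw : τ w = -w) :
    ((2 : ℕ) • f n = 0 → d.C.ch (tw d.C γ f τ - f τ) = 1) ∧
      ((2 : ℕ) • f n = d.C.T Ω → d.C.ch (tw d.C γ f τ - f τ) = -1) := by
  have hc : IsAlgebraic k c := rts_alg hcB
  obtain ⟨h2τ, h2τ', hch⟩ := loc_D d hO hc hm hDc hf h2f hρ hτN hτ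
  have htw := tw_formula hf.toIsCoc (γ := γ) hn hτN
  have hτ'N : n * γ⁻¹ * τ * (n * γ⁻¹)⁻¹ ∈ NN k Ω := NN_conj' hτN
  have hτ'S : Stb O (n * γ⁻¹ * τ * (n * γ⁻¹)⁻¹) := stb_conj hρ hτ
  have hτ'w : (n * γ⁻¹ * τ * (n * γ⁻¹)⁻¹) w = -w := v10_conj_w d.h2 hO hc hρ hτN hτ hw hτw
  generalize hgen : n * γ⁻¹ * τ * (n * γ⁻¹)⁻¹ = τ' at htw h2τ' hch hτ'N hτ'S hτ'w
  generalize hgen2 : (n * γ⁻¹)⁻¹ = σ at htw
  have h2d : (2 : ℕ) • (d.C.act τ' (f n) - f n) = 0 := by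
    rw [nsmul_sub, ← map_nsmul]
    rcases h2f n hn with h | h
    · rw [h, map_zero, sub_self]
    · rw [h, act_T, sub_self]
  have h2s : (2 : ℕ) • (f τ' + (d.C.act τ' (f n) - f n)) = 0 := by
    rw [nsmul_add, h2τ', h2d, add_zero]
  have key : d.C.ch (tw d.C γ f τ - f τ) = d.C.ch (d.C.act τ' (f n) - f n) := by
    rw [htw, sub_eq_add_neg, ch_add d.C (by rw [← map_nsmul, h2s, map_zero])
      (by rw [neg_nsmul, h2τ, neg_zero]), ch_neg d.C h2τ, ch_act, ch_add d.C h2τ' h2d, hch]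
    rcases ch_val d.C (f τ) with h | h <;> rw [h] <;> ring
  refine ⟨fun h => ?_, fun h => ?_⟩
  · rw [key, sub_eq_add_neg, ch_add d.C (by rw [← map_nsmul, h, map_zero])
      (by rw [neg_nsmul, h, neg_zero]), ch_neg d.C h, ch_act]
    rcases ch_val d.C (f n) with h | h <;> rw [h] <;> ring
  · rw [key]
    exact (kum_at d.h2 hO hc hm hτ'N hτ'S hw hτ'w (fun r hr => rts_alg hr) (kum_half d h)
      (ch_val d.C _)).1 hcB

end TE
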