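import Pool.Agent.TE.Base3

set_option autoImplicit false

open scoped Classical Polynomial

namespace TE

/-! ## [TF-V6] counting the moved square roots -/

variable {k Ω : Type*} [Field k] [Field Ω] [Algebra k Ω] [Algebra (RatFunc k) Ω] [IsScalarTower k (RatFunc k) Ω]
  [IsSepClosure (RatFunc k) Ω]

/-- square roots exist in `Ω` (`2 ≠ 0`; `Ω` is separably closed: `X² - c` is separable for `c ≠ 0`) -/
theorem exists_sqrt' (h2 : (2 : k) ≠ 0) (c : Ω) : ∃ x : Ω, x ^ 2 = c := by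
  have hsep : IsSepClosed Ω := IsSepClosure.sep_closed (RatFunc k)
  have h3 : (2 : Ω) ≠ 0 := by
    intro h
    apply h2
    apply (algebraMap k Ω).injective
    rw [map_ofNat, map_zero]
    exact h
  have h4 : NeZero ((2 : ℕ) : Ω) := ⟨by exact_mod_cast h3⟩
  exact IsSepClosed.exists_pow_nat_eq c 2

/-- If `γ` fixes `c` and `w² = c` then `γ w = w ∨ γ w = -w`; `Mv γ r δ ↔ γ w ≠ w` for any square root `w` of `δ - r`. -/
theorem mv_iff {γ : Gm k Ω} {r δ w : Ω} (hw : w ^ 2 = δ - r) : Mv γ r δ ↔ γ w ≠ w := by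
  constructor
  · rintro ⟨w', hw', hne⟩ h
    rcases sq_eq_sq_iff_eq_or_eq_neg.1 (hw'.trans hw.symm) with rfl | rfl
    · exact hne h
    · exact hne (by rw [map_neg, h])
  · intro h
    exact ⟨w, hw, h⟩

theorem v6_core (h2 : (2 : k) ≠ 0) {γ : Gm k Ω} {S : Finset Ω} {u : Ω → Ω} {M : Ω → Prop} {s : Ω}
    (hu : ∀ x ∈ S, γ (u x) = u x) (hM : ∀ x ∈ S, ∀ w : Ω, w ^ 2 = u x → (M x ↔ γ w ≠ w))
    (hs : s ^ 2 = ∏ x ∈ S, u x) : γ s = (-1) ^ (S.filter M).card * s := by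
  choose w hw using fun x : Ω => exists_sqrt' (k := k) h2 (u x)
  have h1 : ∀ x ∈ S, γ (w x) = (if M x then -1 else 1) * w x := by
    intro x hx
    have h3 : γ (w x) ^ 2 = w x ^ 2 := by rw [← map_pow, hw, hu x hx]
    by_cases h4 : M x
    · rw [if_pos h4]
      rcases sq_eq_sq_iff_eq_or_eq_neg.1 h3 with h5 | h5
      · exact absurd h5 ((hM x hx (w x) (hw x)).1 h4)
      · rw [h5]; ring
    · rw [if_neg h4, one_mul]
      by_contra h5
      exact h4 ((hM x hx (w x) (hw x)).2 h5)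
  have h6 : γ (∏ x ∈ S, w x) = (-1) ^ (S.filter M).card * ∏ x ∈ S, w x := by
    rw [map_prod, Finset.prod_congr rfl h1, Finset.prod_mul_distrib]
    congr 1
    rw [Finset.prod_ite, Finset.prod_const, Finset.prod_const_one, mul_one]
  have h7 : s ^ 2 = (∏ x ∈ S, w x) ^ 2 := by
    rw [hs, ← Finset.prod_pow]
    exact Finset.prod_congr rfl fun x _ => (hw x).symm
  rcases sq_eq_sq_iff_eq_or_eq_neg.1 h7 with h8 | h8
  · rw [h8, h6]
  · rw [h8, map_neg, h6]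
    ring

/-- Let `γ` fix `δ` and the elements `r ∈ S`, `s² = ∏_{r ∈ S} (δ - r)`. Then `γ s = (-1)^{number of r ∈ S with Mv γ r δ} s` (if `δ ∉ S`).

Proof. Choose `w_r` with `w_r² = δ - r` (`exists_sqrt'`), `w_r ≠ 0`, `γ w_r = -w_r` if `Mv γ r δ` and `γ w_r = w_r` otherwise (`mv_iff`). `(∏ w_r)² = s²`, so `s = ± ∏ w_r`, and
`γ (∏ w_r) = (-1)^N ∏ w_r` (`Finset.prod_ite`, `Finset.prod_const`). -/
theorem sgn_countB (h2 : (2 : k) ≠ 0) {γ : Gm k Ω} {S : Finset Ω} {δ s : Ω} (hδ : γ δ = δ) (hS : ∀ r ∈ S, γ r = r)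
    (hs : s ^ 2 = ∏ r ∈ S, (δ - r)) : γ s = (-1) ^ (S.filter (fun r => Mv γ r δ)).card * s := by
  refine v6_core h2 (u := fun r => δ - r) (fun r hr => ?_) (fun r _ w hw => mv_iff hw) hs
  rw [map_sub, hδ, hS r hr]

/-- The same for a set `S` of elements `δ` with `|S|` even and `s² = ∏_{δ ∈ S} (r - δ)` (`= ∏ (δ - r)`). -/
theorem sgn_countD (h2 : (2 : k) ≠ 0) {γ : Gm k Ω} {S : Finset Ω} (hev : Even S.card) {r s : Ω} (hr : γ r = r)
    (hS : ∀ δ ∈ S, γ δ = δ) (hs : s ^ 2 = ∏ δ ∈ S, (r - δ)) :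
    γ s = (-1) ^ (S.filter (fun δ => Mv γ r δ)).card * s := by
  refine v6_core h2 (u := fun δ => δ - r) (fun δ hδ => ?_) (fun δ _ w hw => mv_iff hw) ?_
  · rw [map_sub, hr, hS δ hδ]
  · rw [hs]
    have h1 : ∀ δ ∈ S, r - δ = (-1) * (δ - r) := fun δ _ => by ring
    rw [Finset.prod_congr rfl h1, Finset.prod_mul_distrib, Finset.prod_const, hev.neg_one_pow,
      one_mul]

end TE
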