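import Pool.Agent.TE.Base3
import Pool.Agent.TE.V6
import Pool.Agent.TE.V9

set_option autoImplicit false

open WeierstrassCurve.Affine
open scoped Classical Polynomial

namespace TE

/-! ## [TF-V11] the operator `γ - 1` on the classes with values in `E[2]` -/

variable {k Ω : Type*} [Field k] [Field Ω] [Algebra k Ω] [Algebra (RatFunc k) Ω] [IsScalarTower k (RatFunc k) Ω]
  [IsSepClosure (RatFunc k) Ω]

/-- two characters with the same Kummer set agree on `N` (`e² = e'²`, `e' = ± e`, `e ≠ 0`) -/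
theorem kum_agree {S : Finset Ω} (hS : ∀ r ∈ S, IsAlgebraic k r) {χ χ' : Gm k Ω → Ω} (h : Kum S χ) (h' : Kum S χ') :
    ∀ g ∈ NN k Ω, χ g = χ' g := by
  obtain ⟨e, he, hge⟩ := h
  obtain ⟨e', he', hge'⟩ := h'
  intro g hg
  have he0 : e ≠ 0 := by
    intro h0
    rw [h0, zero_pow two_ne_zero] at he
    exact s1b_prod_ne (k := k) (Ω := Ω) hS he.symm
  have h1 : g e = χ' g * e := by
    have h2 : e ^ 2 = e' ^ 2 := by rw [he, he']
    rcases sq_eq_sq_iff_eq_or_eq_neg.1 h2 with h3 | h3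
    · rw [h3, hge' g hg]
    · rw [h3, map_neg, hge' g hg]
      ring
  have h2 : χ g * e = χ' g * e := by rw [← hge g hg, h1]
  exact mul_right_cancel₀ he0 h2

/-- if `γ` fixes the elements of `S` then `χ(γ⁻¹ g γ) = χ(g)` on `N` for `χ` with `Kum S χ` (`kum_conj`, `S.image γ = S`, `kum_agree`) -/
theorem kum_fix {S : Finset Ω} (hS : ∀ r ∈ S, IsAlgebraic k r) {χ : Gm k Ω → Ω} (hχ : ∀ g ∈ NN k Ω, χ g = 1 ∨ χ g = -1)
    (h : Kum S χ) {γ : Gm k Ω} (hγ : ∀ r ∈ S, γ r = r) : ∀ g ∈ NN k Ω, χ (γ⁻¹ * g * γ) = χ g := by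
  have h1 := kum_conj hχ γ h
  have h2 : S.image γ = S := by
    ext x
    rw [Finset.mem_image]
    constructor
    · rintro ⟨r, hr, rfl⟩
      rw [hγ r hr]
      exact hr
    · intro hx
      exact ⟨x, hx, hγ x hx⟩
  rw [h2] at h1
  exact kum_agree hS h1 h

/-- the roots of `B` and of `D = A² - 4B` are disjoint if `A`, `B` are coprime (`D(c) = A(c)²` if `B(c) = 0`; `u A + v B = 1`) -/
theorem cop_ne (d : Dat k) (hcop : IsCoprime d.A d.B) (c : Ω) (hB : Polynomial.aeval c d.B = 0)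
    (hD : Polynomial.aeval c d.D = 0) : False := by
  obtain ⟨u, v, huv⟩ := hcop
  have h1 : Polynomial.aeval c d.D = Polynomial.aeval c d.A ^ 2 := by
    rw [Dat.D, map_sub, map_pow, map_mul, hB, mul_zero, sub_zero]
  rw [h1] at hD
  have hA : Polynomial.aeval c d.A = 0 := pow_eq_zero_iff two_ne_zero |>.1 hD
  have h2 := congrArg (Polynomial.aeval c) huv
  rw [map_add, map_mul, map_mul, hA, hB, mul_zero, mul_zero, map_one, add_zero] at h2
  exact zero_ne_one h2

/-- Let `γ` fix the roots of `B` and of `D`, `f` Selmer with values in `E[2]` and `ch ∘ f = Kum S`, `S ⊆ rts B`. Then `h = tw γ f - f` has values in `{0, T}` on `N` and its Kummer set is `trB S` or the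
complement of `trB S`.

Proof. `h` is Selmer (`isSel_sub`, `isSel_tw`). For `g ∈ N`: `ch (tw γ f g) = ch (f (γ⁻¹gγ)) = ch (f g)` (`ch_act`, `kum_fix`), so `ch (h g) = 1` (`ch_add`, `ch_neg`, `ch_val`) and `h g ∈ {0, T}`. By `coreB` there is
`S' ⊆ rts D` even with `Kum S' (if h g = 0 then 1 else -1)`. Let `e² = ∏_{r ∈ S} (t - r)`, `g e = ch (f g) e` for `g ∈ N` (`hk`). `(γ e)² = e²`, so `γ e = η e`, `η = ± 1`. Let `c ∈ rts D`, `N_c` = number of `r ∈ S` with
`Mv γ r c`, `ζ = (-1)^{N_c}`. `B(c) ≠ 0` (`cop_ne`, `mem_rts`), `c ∉ S`. Take `s² = ∏_{r ∈ S} (c - r)` (`exists_sqrt'`), `γ s = ζ s` (`sgn_countB`); the place `O` and, for `w² = t - c`, `τ` from `exists_place_at`;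
`n` from `exists_dec`. `sgn_rel`: `n e = η ζ e`, so `ch (f n) = η ζ` (`e ≠ 0`). By `at_D`, `h τ = 0` if `η ζ = 1` and `h τ = T ≠ 0` if `η ζ = -1`; by `kum_at` (for `S'`), `c ∈ S' ↔ h τ ≠ 0 ↔ η ζ = -1`.
So `S' = {c : N_c odd} = trB S` if `η = 1`, and `S' = {c : N_c even}` if `η = -1`. Evenness of `trB S`: `|rts D| = 4m` (`rts_card`, `d.degD`) is even. -/
theorem rel_C1 (d : Dat k) (hcop : IsCoprime d.A d.B) {γ : Gm k Ω} (hγ : FixRts d γ) {f : Gm k Ω → d.C.Pt Ω}
    (hf : IsSel d.C f) (h2f : ∀ g ∈ NN k Ω, (2 : ℕ) • f g = 0) {S : Finset Ω} (hS : S ⊆ rts k d.B)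
    (hk : Kum S (fun g => d.C.ch (f g))) :
    (∀ g ∈ NN k Ω, tw d.C γ f g - f g = 0 ∨ tw d.C γ f g - f g = d.C.T Ω) ∧ Even (trB d γ S).card ∧
      (Kum (trB d γ S) (fun g => if tw d.C γ f g - f g = 0 then 1 else -1) ∨
        Kum (rts k d.D \ trB d γ S) (fun g => if tw d.C γ f g - f g = 0 then 1 else -1)) := by
  have h2Ω : (2 : Ω) ≠ 0 := d.C.two_ne Ω
  have hne1 : (1 : Ω) ≠ -1 := by
    intro h
    apply h2Ω
    linear_combination h
  have hSalg : ∀ r ∈ S, IsAlgebraic k r := fun r hr => rts_alg (hS hr)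
  have hSfix : ∀ r ∈ S, γ r = r := fun r hr => hγ.1 r (hS hr)
  have hchv : ∀ g ∈ NN k Ω, (fun g => d.C.ch (f g)) g = 1 ∨ (fun g => d.C.ch (f g)) g = -1 :=
    fun g _ => ch_val d.C (f g)
  have hfix := kum_fix hSalg hchv hk hSfix
  have htw2 : ∀ g ∈ NN k Ω, (2 : ℕ) • tw d.C γ f g = 0 := by
    intro g hg
    show (2 : ℕ) • d.C.act γ (f (γ⁻¹ * g * γ)) = 0
    rw [← map_nsmul, h2f _ (f0_conj γ hg), map_zero]
  have hT : ∀ g ∈ NN k Ω, tw d.C γ f g - f g = 0 ∨ tw d.C γ f g - f g = d.C.T Ω := by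
    intro g hg
    have h1 : d.C.ch (tw d.C γ f g) = d.C.ch (f g) := by
      show d.C.ch (d.C.act γ (f (γ⁻¹ * g * γ))) = d.C.ch (f g)
      rw [ch_act]
      exact hfix g hg
    rw [← ch_eq_one_iff, sub_eq_add_neg, ch_add d.C (htw2 g hg) (by rw [neg_nsmul, h2f g hg, neg_zero]),
      ch_neg d.C (h2f g hg), h1]
    rcases ch_val d.C (f g) with h2 | h2 <;> rw [h2] <;> ring
  obtain ⟨S', hS', hS'ev, hkS'⟩ := coreB d (isSel_sub (isSel_tw hf γ) hf) hT
  have hS'alg : ∀ r ∈ S', IsAlgebraic k r := fun r hr => rts_alg (hS' hr)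
  obtain ⟨e, he, hge⟩ := hk
  have he0 : e ≠ 0 := by
    intro h0
    rw [h0, zero_pow two_ne_zero] at he
    exact s1b_prod_ne (k := k) (Ω := Ω) hSalg he.symm
  have hγe2 : (γ e) ^ 2 = e ^ 2 := by
    rw [← map_pow, he, map_prod]
    refine Finset.prod_congr rfl fun r hr => ?_
    rw [map_sub, s1b_gtt, hSfix r hr]
  obtain ⟨η, hη, hγe⟩ : ∃ η : Ω, (η = 1 ∨ η = -1) ∧ γ e = η * e := by
    rcases sq_eq_sq_iff_eq_or_eq_neg.1 hγe2 with h3 | h3
    · exact ⟨1, Or.inl rfl, by rw [h3, one_mul]⟩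
    · exact ⟨-1, Or.inr rfl, by rw [h3, neg_one_mul]⟩
  have hη2 : η * η = 1 := by rcases hη with h | h <;> rw [h] <;> ring
  -- the key equivalence
  have key : ∀ c ∈ (rts k d.D : Finset Ω),
      (c ∈ S' ↔ η * (-1) ^ (S.filter (fun r => Mv γ r c)).card = -1) := by
    intro c hcD
    have hc : IsAlgebraic k c := rts_alg hcD
    have hγc : γ c = c := hγ.2 c hcD
    have hDc : Polynomial.aeval c d.D = 0 := (mem_rts d.D_ne c).1 hcD
    have hBc : Polynomial.aeval c d.B ≠ 0 := fun h => cop_ne d hcop c h hDc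
    have hcS : c ∉ S := fun h => hBc ((mem_rts d.B_ne c).1 (hS h))
    obtain ⟨s, hs⟩ := exists_sqrt' (k := k) (Ω := Ω) d.h2 (∏ r ∈ S, (c - r))
    have hγs := sgn_countB (k := k) d.h2 hγc hSfix hs
    obtain ⟨O, hO, -, hm, hOw⟩ := exists_place_at (k := k) (Ω := Ω) hc
    obtain ⟨w, hw⟩ := exists_sqrt' (k := k) (Ω := Ω) d.h2 (tt k Ω - c)
    obtain ⟨τ, hτN, hτ, hτw⟩ := hOw w hw
    obtain ⟨n, hn, hρ⟩ := exists_dec hO hc hm hγc
    set ζ : Ω := (-1) ^ (S.filter (fun r => Mv γ r c)).card with hζdef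
    have hζ : ζ = 1 ∨ ζ = -1 := neg_one_pow_eq_or Ω _
    have hne := sgn_rel d.h2 hO hc hm hSalg hcS he hs hn hρ hη hζ hγe hγs
    have hchn : d.C.ch (f n) = η * ζ := by
      apply mul_right_cancel₀ he0
      rw [← hne]
      exact (hge n hn).symm
    have hAt := at_D d hO hcD hm hBc hf h2f hn hρ hτN hτ hw hτw
    have hv : (fun g => if tw d.C γ f g - f g = 0 then (1 : Ω) else -1) τ = 1 ∨
        (fun g => if tw d.C γ f g - f g = 0 then (1 : Ω) else -1) τ = -1 := by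
      show (if tw d.C γ f τ - f τ = 0 then (1 : Ω) else -1) = 1 ∨
        (if tw d.C γ f τ - f τ = 0 then (1 : Ω) else -1) = -1
      split_ifs
      · exact Or.inl rfl
      · exact Or.inr rfl
    have hK := kum_at d.h2 hO hc hm hτN hτ hw hτw hS'alg hkS' hv
    constructor
    · intro hcS'
      have h3 : (if tw d.C γ f τ - f τ = 0 then (1 : Ω) else -1) = -1 := hK.1 hcS'
      by_contra hcon
      have h4 : η * ζ = 1 := by
        rcases hη with h | h <;> rcases hζ with h' | h' <;> rw [h, h'] at hcon ⊢ <;> simp at hcon ⊢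
      have h5 := hAt.1 (hchn.trans h4)
      rw [if_pos h5] at h3
      exact hne1 h3
    · intro h4
      by_contra hcS'
      have h3 : (if tw d.C γ f τ - f τ = 0 then (1 : Ω) else -1) = 1 := hK.2 hcS'
      have h5 := hAt.2 (hchn.trans h4)
      rw [if_neg (by rw [h5]; exact T_ne d.C)] at h3
      exact hne1 h3.symm
  have hsub : trB d γ S ⊆ rts k d.D := Finset.filter_subset _ _
  have hcardD : Even (rts k d.D : Finset Ω).card := by
    rw [rts_card (k := k) (Ω := Ω) (Q := d.D) d.sepD, Dat.D, d.degD]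
    exact ⟨2 * d.m, by ring⟩
  have hpar : ∀ N : ℕ, ((-1 : Ω) ^ N = -1 ↔ Odd N) := by
    intro N
    rcases Nat.even_or_odd N with h | h
    · rw [h.neg_one_pow]
      exact ⟨fun h' => absurd h' hne1, fun h' => absurd h' (Nat.not_odd_iff_even.2 h)⟩
    · rw [h.neg_one_pow]
      exact ⟨fun _ => h, fun _ => rfl⟩
  refine ⟨hT, ?_⟩
  rcases hη with h1 | h1
  · have hEq : S' = trB d γ S := by
      ext c
      rw [trB, Finset.mem_filter]
      constructor
      · intro hc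
        refine ⟨hS' hc, ?_⟩
        have h3 := (key c (hS' hc)).1 hc
        rw [h1, one_mul] at h3
        exact (hpar _).1 h3
      · rintro ⟨hcD, hodd⟩
        refine (key c hcD).2 ?_
        rw [h1, one_mul]
        exact (hpar _).2 hodd
    rw [← hEq]
    exact ⟨hS'ev, Or.inl hkS'⟩
  · have hEq : S' = rts k d.D \ trB d γ S := by
      ext c
      rw [Finset.mem_sdiff, trB, Finset.mem_filter]
      constructor
      · intro hc
        refine ⟨hS' hc, ?_⟩
        rintro ⟨hcD, hodd⟩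
        have h3 := (key c (hS' hc)).1 hc
        rw [h1, (hpar _).2 hodd] at h3
        apply hne1
        linear_combination h3
      · rintro ⟨hcD, hn⟩
        refine (key c hcD).2 ?_
        have hev : Even (S.filter (fun r => Mv γ r c)).card := by
          rw [← Nat.not_odd_iff_even]
          exact fun h => hn ⟨hcD, h⟩
        rw [h1, hev.neg_one_pow, mul_one]
    have hev2 : Even (trB d γ S).card := by
      have h3 : (rts k d.D \ trB d γ S : Finset Ω).card + (trB d γ S).card =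
          (rts k d.D : Finset Ω).card := Finset.card_sdiff_add_card_eq_card hsub
      rw [← hEq] at h3
      rw [← h3] at hcardD
      exact (Nat.even_add.1 hcardD).1 hS'ev
    refine ⟨hev2, Or.inr ?_⟩
    rw [← hEq]
    exact hkS'

end TE
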