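import Pool.Agent.TE.Base3
import Pool.Agent.TE.V6
import Pool.Agent.TE.V10
import Pool.Agent.TE.V11

set_option autoImplicit false

open WeierstrassCurve.Affine
open scoped Classical Polynomial

namespace TE

/-! ## [TF-V12] the operator `γ - 1` on the classes with `2 f ∈ {0, T}` -/

variable {k Ω : Type*} [Field k] [Field Ω] [Algebra k Ω] [Algebra (RatFunc k) Ω] [IsScalarTower k (RatFunc k) Ω]
  [IsSepClosure (RatFunc k) Ω]

/-- `1 ≠ -1` in `Ω` -/
theorem v12_one_ne (h2 : (2 : k) ≠ 0) : (1 : Ω) ≠ -1 := by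
  intro h
  apply h2
  have h1 : (2 : Ω) = 0 := by linear_combination h
  have h3 : algebraMap k Ω 2 = 0 := by rw [map_ofNat]; exact h1
  exact (map_eq_zero _).1 h3

/-- Let `γ` fix the roots of `B` and of `D`, `f` Selmer with `2 f ∈ {0, T}` on `N`, `S ⊆ rts D` the (even) Kummer set of `2 f`. Then `h = tw γ f - f` satisfies `2 h = 0` on `N` and the Kummer set of `ch ∘ h` is
`trD S` or its complement.

Proof. For `g ∈ N`: `2 tw γ f g = γ (2 f (γ⁻¹gγ)) = 2 f (γ⁻¹gγ)` (in `{0, T}`, `act_T`) `= 2 f g` (`kum_fix` for the character `χ g = (if 2 f g = 0 then 1 else -1)`; `T ≠ 0`, `1 ≠ -1`). So `2h = 0`. `h` is Selmer;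
`coreA` gives `S' ⊆ rts B` even with `Kum S' (ch ∘ h)`. Let `e² = ∏_{δ ∈ S} (t - δ)`, `g e = χ(g) e`; `γ e = η e`, `η = ± 1`. Let `c ∈ rts B`, `N_c` = number of `δ ∈ S` with `Mv γ c δ`, `ζ = (-1)^{N_c}`; `D(c) ≠ 0` (`cop_ne`),
`c ∉ S`. `s² = ∏_{δ ∈ S} (c - δ)`, `γ s = ζ s` (`sgn_countD`, `|S|` even). `O`, `w`, `τ` from `exists_place_at`, `n` from `exists_dec`; `sgn_rel`: `n e = η ζ e`, so `χ(n) = η ζ`: `2 f n = 0` if `η ζ = 1`, `2 f n = T` if
`η ζ = -1`. `at_B`: `ch (h τ) = η ζ`, and `kum_at` for `S'`: `c ∈ S' ↔ ch (h τ) = -1 ↔ η ζ = -1`. So `S' = trD S` if `η = 1` and the complement if `η = -1`; `|rts B| = 4m` is even. -/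
theorem rel_C2 (d : Dat k) (hcop : IsCoprime d.A d.B) {γ : Gm k Ω} (hγ : FixRts d γ) {f : Gm k Ω → d.C.Pt Ω}
    (hf : IsSel d.C f) (h2f : ∀ g ∈ NN k Ω, (2 : ℕ) • f g = 0 ∨ (2 : ℕ) • f g = d.C.T Ω) {S : Finset Ω}
    (hS : S ⊆ rts k d.D) (hev : Even S.card) (hk : Kum S (fun g => if (2 : ℕ) • f g = 0 then 1 else -1)) :
    (∀ g ∈ NN k Ω, (2 : ℕ) • (tw d.C γ f g - f g) = 0) ∧ Even (trD d γ S).card ∧
      (Kum (trD d γ S) (fun g => d.C.ch (tw d.C γ f g - f g)) ∨
        Kum (rts k d.B \ trD d γ S) (fun g => d.C.ch (tw d.C γ f g - f g))) := by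
  have h2 : (2 : k) ≠ 0 := d.h2
  have hT0 : d.C.T Ω ≠ 0 := T_ne d.C
  have h11 : (1 : Ω) ≠ -1 := v12_one_ne h2
  have hSalg : ∀ δ ∈ S, IsAlgebraic k δ := fun δ hδ => rts_alg (hS hδ)
  have hSfix : ∀ δ ∈ S, γ δ = δ := fun δ hδ => hγ.2 δ (hS hδ)
  have hconj : ∀ g ∈ NN k Ω, γ⁻¹ * g * γ ∈ NN k Ω := fun g hg => f0_conj γ hg
  have hval : ∀ g ∈ NN k Ω, (fun g => if (2 : ℕ) • f g = 0 then (1 : Ω) else -1) g = 1 ∨
      (fun g => if (2 : ℕ) • f g = 0 then (1 : Ω) else -1) g = -1 := by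
    intro g _
    show (if (2 : ℕ) • f g = 0 then (1 : Ω) else -1) = 1 ∨ (if (2 : ℕ) • f g = 0 then (1 : Ω) else -1) = -1
    split_ifs
    · exact Or.inl rfl
    · exact Or.inr rfl
  have hkf := kum_fix hSalg hval hk hSfix
  have key : ∀ g ∈ NN k Ω, (2 : ℕ) • f (γ⁻¹ * g * γ) = (2 : ℕ) • f g := by
    intro g hg
    have h1 : (if (2 : ℕ) • f (γ⁻¹ * g * γ) = 0 then (1 : Ω) else -1) = (if (2 : ℕ) • f g = 0 then (1 : Ω) else -1) := hkf g hg
    rcases h2f g hg with a | a
    · rcases h2f _ (hconj g hg) with b | b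
      · rw [a, b]
      · exfalso
        rw [if_neg (by rw [b]; exact hT0), if_pos a] at h1
        exact h11 h1.symm
    · rcases h2f _ (hconj g hg) with b | b
      · exfalso
        rw [if_pos b, if_neg (by rw [a]; exact hT0)] at h1
        exact h11 h1
      · rw [a, b]
  have h2h : ∀ g ∈ NN k Ω, (2 : ℕ) • (tw d.C γ f g - f g) = 0 := by
    intro g hg
    rw [smul_sub]
    have e1 : (2 : ℕ) • tw d.C γ f g = d.C.act γ ((2 : ℕ) • f (γ⁻¹ * g * γ)) := by
      rw [map_nsmul]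
      rfl
    rw [e1, key g hg]
    rcases h2f g hg with a | a
    · rw [a, map_zero, sub_self]
    · rw [a, act_T, sub_self]
  have hSel : IsSel d.C (fun g => tw d.C γ f g - f g) := isSel_sub (isSel_tw hf γ) hf
  obtain ⟨S', hS', hev', hk'⟩ := coreA d hSel h2h
  have hS'alg : ∀ r ∈ S', IsAlgebraic k r := fun r hr => rts_alg (hS' hr)
  obtain ⟨e, he, heg⟩ := hk
  have hγe2 : (γ e) ^ 2 = e ^ 2 := by
    rw [← map_pow, he, map_prod]
    apply Finset.prod_congr rfl
    intro δ hδ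
    rw [map_sub, hSfix δ hδ, tt, AlgEquiv.commutes]
  have hη : ∃ η : Ω, (η = 1 ∨ η = -1) ∧ γ e = η * e := by
    rcases sq_eq_sq_iff_eq_or_eq_neg.1 hγe2 with h | h
    · exact ⟨1, Or.inl rfl, by rw [h, one_mul]⟩
    · exact ⟨-1, Or.inr rfl, by rw [h, neg_one_mul]⟩
  obtain ⟨η, hη, hγe⟩ := hη
  -- the local computation
  have main : ∀ c ∈ (rts k d.B : Finset Ω),
      (c ∈ S' ↔ η * (-1) ^ (S.filter (fun δ => Mv γ c δ)).card = -1) := by
    intro c hc
    have hcalg : IsAlgebraic k c := rts_alg hc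
    have hγc : γ c = c := hγ.1 c hc
    have hBc : Polynomial.aeval c d.B = 0 := (mem_rts d.B_ne c).1 hc
    have hDc : Polynomial.aeval c d.D ≠ 0 := fun h => cop_ne d hcop c hBc h
    have hcS : c ∉ S := fun h => hDc ((mem_rts d.D_ne c).1 (hS h))
    obtain ⟨s, hs⟩ := exists_sqrt' (Ω := Ω) h2 (∏ δ ∈ S, (c - δ))
    have hγs := sgn_countD h2 hev hγc hSfix hs
    obtain ⟨O, hO, -, hm, hτ⟩ := exists_place_at (k := k) hcalg
    obtain ⟨w, hw⟩ := exists_sqrt' (Ω := Ω) h2 (tt k Ω - c)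
    obtain ⟨τ, hτN, hτS, hτw⟩ := hτ w hw
    obtain ⟨n, hn, hρ⟩ := exists_dec hO hcalg hm hγc
    have hζ : ((-1 : Ω) ^ (S.filter (fun δ => Mv γ c δ)).card = 1 ∨ (-1 : Ω) ^ (S.filter (fun δ => Mv γ c δ)).card = -1) :=
      neg_one_pow_eq_or Ω _
    have hne := sgn_rel h2 hO hcalg hm hSalg hcS he hs hn hρ hη hζ hγe hγs
    have hχn : (if (2 : ℕ) • f n = 0 then (1 : Ω) else -1) * e = η * (-1) ^ (S.filter (fun δ => Mv γ c δ)).card * e := by
      rw [← hne]
      exact (heg n hn).symm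
    have he0 : e ≠ 0 := by
      intro h0
      have hu := prod_uni hO hcalg hm hSalg hcS
      rw [← he, h0] at hu
      exact hu.2.2 (by ring)
    have hχ := mul_right_cancel₀ he0 hχn
    have hB := at_B d hO hc hm hDc hf h2f hn hρ hτN hτS hw hτw
    have hK := kum_at h2 hO hcalg hm hτN hτS hw hτw hS'alg hk' (ch_val d.C _)
    have hK' : (c ∈ S' → d.C.ch (tw d.C γ f τ - f τ) = -1) ∧ (c ∉ S' → d.C.ch (tw d.C γ f τ - f τ) = 1) := hK
    rw [← hχ]
    rcases h2f n hn with a | a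
    · rw [if_pos a]
      constructor
      · intro h
        exact absurd ((hB.1 a).symm.trans (hK'.1 h)) h11
      · intro h
        exact absurd h h11
    · rw [if_neg (by rw [a]; exact hT0)]
      constructor
      · intro _
        rfl
      · intro _
        by_contra hcn
        exact h11 ((hK'.2 hcn).symm.trans (hB.2 a))
  have hpar : ∀ c : Ω, ((-1 : Ω) ^ (S.filter (fun δ => Mv γ c δ)).card = -1 ↔ Odd (S.filter (fun δ => Mv γ c δ)).card) := by
    intro c
    constructor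
    · intro h
      by_contra hodd
      rw [Nat.not_odd_iff_even] at hodd
      rw [hodd.neg_one_pow] at h
      exact h11 h
    · intro h
      exact h.neg_one_pow
  have hcardB : Even (rts k d.B : Finset Ω).card := by
    rw [rts_card d.sepB, d.degB]
    exact ⟨2 * d.m, by ring⟩
  have htr : trD d γ S ⊆ rts k d.B := Finset.filter_subset _ _
  rcases hη with h1 | h1
  · have hSS : S' = trD d γ S := by
      ext c
      constructor
      · intro hc
        rw [trD, Finset.mem_filter]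
        refine ⟨hS' hc, ?_⟩
        have := (main c (hS' hc)).1 hc
        rw [h1, one_mul] at this
        exact (hpar c).1 this
      · intro hc
        rw [trD, Finset.mem_filter] at hc
        rw [main c hc.1, h1, one_mul]
        exact (hpar c).2 hc.2
    rw [hSS] at hev' hk'
    exact ⟨h2h, hev', Or.inl hk'⟩
  · have hSS : S' = rts k d.B \ trD d γ S := by
      ext c
      constructor
      · intro hc
        rw [Finset.mem_sdiff]
        refine ⟨hS' hc, fun hct => ?_⟩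
        rw [trD, Finset.mem_filter] at hct
        have := (main c (hS' hc)).1 hc
        rw [h1, (hpar c).2 hct.2] at this
        apply h11
        rw [← this]
        ring
      · intro hc
        rw [Finset.mem_sdiff] at hc
        rw [main c hc.1, h1]
        have hno : ¬ Odd (S.filter (fun δ => Mv γ c δ)).card := by
          intro ho
          apply hc.2
          rw [trD, Finset.mem_filter]
          exact ⟨hc.1, ho⟩
        rw [Nat.not_odd_iff_even] at hno
        rw [hno.neg_one_pow]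
        ring
    rw [hSS] at hev' hk'
    refine ⟨h2h, ?_, Or.inr hk'⟩
    rw [Finset.card_sdiff_of_subset htr] at hev'
    have hle := Finset.card_le_card htr
    rw [Nat.even_sub hle] at hev'
    exact hev'.1 hcardB

end TE
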