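import Pool.Agent.TE.G2

set_option autoImplicit false

open scoped Classical

namespace TE

/-! ## [TF-V15] the linear maps between the hearts defined by a relation (only finite linear algebra over `F₂`) -/

/-- for a relation `M` between `R` and `R'` and `S ⊆ R`: the elements of `R'` related to an odd number of elements of `S` -/
noncomputable def trM {R R' : Type*} [Fintype R'] (M : R → R' → Prop) (S : Finset R) : Finset R' :=
  Finset.univ.filter (fun δ => Odd (S.filter (fun r => M r δ)).card)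

/-- constant parity of the columns of `M` -/
def CP {R R' : Type*} [Fintype R] (M : R → R' → Prop) : Prop :=
  ∀ δ δ' : R', Odd (Finset.univ.filter (fun r : R => M r δ)).card ↔ Odd (Finset.univ.filter (fun r : R => M r δ')).card

/-- the condition `Star` for a relation -/
def StarM {R R' : Type*} [Fintype R] [Fintype R'] (M : R → R' → Prop) : Prop :=
  ∀ S : Finset R, Even S.card → S ≠ ∅ → S ≠ Finset.univ →
    trM (fun δ r => M r δ) (trM M S) ≠ ∅ ∧ trM (fun δ r => M r δ) (trM M S) ≠ Finset.univ ∧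
      trM (fun δ r => M r δ) (trM M S) ≠ S ∧ trM (fun δ r => M r δ) (trM M S) ≠ Sᶜ

variable {R R' : Type*} [Fintype R] [Fintype R']

theorem v15_cast (n : ℕ) : (n : ZMod 2) = if Odd n then 1 else 0 := by
  split_ifs with h
  · exact ZMod.natCast_eq_one_iff_odd.2 h
  · rw [Nat.not_odd_iff_even] at h
    exact ZMod.natCast_eq_zero_iff_even.2 h

/-- the linear map of a relation -/
noncomputable def v15_f (M : R → R' → Prop) : (R → ZMod 2) →ₗ[ZMod 2] (R' → ZMod 2) where
  toFun v := fun δ => ∑ r, if M r δ then v r else 0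
  map_add' v w := by
    funext δ
    simp only [Pi.add_apply]
    rw [← Finset.sum_add_distrib]
    apply Finset.sum_congr rfl
    intro r _
    split_ifs <;> simp
  map_smul' c v := by
    funext δ
    simp only [Pi.smul_apply, smul_eq_mul, RingHom.id_apply]
    rw [Finset.mul_sum]
    apply Finset.sum_congr rfl
    intro r _
    split_ifs <;> simp

theorem v15_f_apply (M : R → R' → Prop) (v : R → ZMod 2) (δ : R') :
    v15_f M v δ = ∑ r, if M r δ then v r else 0 := rfl

theorem v15_ind (M : R → R' → Prop) (S : Finset R) :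
    v15_f M (fun r => if r ∈ S then 1 else 0) = fun δ => if δ ∈ trM M S then 1 else 0 := by
  funext δ
  rw [v15_f_apply]
  have h1 : (∑ r, if M r δ then (if r ∈ S then (1 : ZMod 2) else 0) else 0) =
      ((S.filter (fun r => M r δ)).card : ZMod 2) := by
    rw [Finset.card_eq_sum_ones, Nat.cast_sum, Nat.cast_one, Finset.sum_filter,
      ← Finset.sum_filter_add_sum_filter_not Finset.univ (fun r => r ∈ S)]
    have h2 : (∑ r ∈ Finset.univ.filter (fun r => ¬ r ∈ S),
        if M r δ then (if r ∈ S then (1 : ZMod 2) else 0) else 0) = 0 := by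
      apply Finset.sum_eq_zero
      intro r hr
      rw [Finset.mem_filter] at hr
      rw [if_neg hr.2, ite_self]
    rw [h2, add_zero]
    have h3 : Finset.univ.filter (fun r => r ∈ S) = S := by
      ext r
      simp
    rw [h3]
    apply Finset.sum_congr rfl
    intro r hr
    rw [if_pos hr]
  rw [h1, v15_cast]
  have h4 : δ ∈ trM M S ↔ Odd (S.filter (fun r => M r δ)).card := by
    simp [trM]
  by_cases h : Odd (S.filter (fun r => M r δ)).card
  · rw [if_pos h, if_pos (h4.2 h)]
  · rw [if_neg h, if_neg (fun h5 => h (h4.1 h5))]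

theorem v15_one (M : R → R' → Prop) (hM : CP M) :
    v15_f M (1 : R → ZMod 2) ∈ Submodule.span (ZMod 2) {(1 : R' → ZMod 2)} := by
  have h1 : ∀ δ, v15_f M (1 : R → ZMod 2) δ =
      if Odd (Finset.univ.filter (fun r : R => M r δ)).card then 1 else 0 := by
    intro δ
    rw [v15_f_apply, ← v15_cast, Finset.card_eq_sum_ones, Nat.cast_sum, Nat.cast_one,
      Finset.sum_filter]
    rfl
  by_cases h : ∃ δ : R', Odd (Finset.univ.filter (fun r : R => M r δ)).card
  · obtain ⟨δ0, h0⟩ := h
    have h2 : v15_f M (1 : R → ZMod 2) = 1 := by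
      funext δ
      rw [h1, if_pos ((hM δ0 δ).1 h0)]
      rfl
    rw [h2]
    exact Submodule.mem_span_singleton_self _
  · have h2 : v15_f M (1 : R → ZMod 2) = 0 := by
      funext δ
      rw [h1, if_neg (fun h3 => h ⟨δ, h3⟩)]
      rfl
    rw [h2]
    exact Submodule.zero_mem _

/-- The `F₂`-linear map `(R → F₂) → (R' → F₂)`, `v ↦ (δ ↦ ∑_r [M r δ] v r)`, sends the indicator function of `S` to that of `trM M S` and the constant function `1` to a constant function (`CP`), so
it induces a map of the quotients by the constants (`Submodule.mapQ`). -/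
theorem exists_u (M : R → R' → Prop) (hM : CP M) : ∃ u : Ht R →ₗ[ZMod 2] Ht R', ∀ S : Finset R, u (hc S) = hc (trM M S) := by
  have h : Submodule.span (ZMod 2) {(1 : R → ZMod 2)} ≤
      (Submodule.span (ZMod 2) {(1 : R' → ZMod 2)}).comap (v15_f M) := by
    rw [Submodule.span_le, Set.singleton_subset_iff]
    exact v15_one M hM
  refine ⟨Submodule.mapQ _ _ (v15_f M) h, fun S => ?_⟩
  unfold hc
  rw [Submodule.mapQ_apply, v15_ind]

/-- `|trM M S| ≡ ∑_{r ∈ S} |{δ : M r δ}| ≡ |S| p` modulo `2`, where `p` is the common parity of the `|{δ : M r δ}|` (double counting). -/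
theorem trM_even (M : R → R' → Prop) (hM' : CP (fun (δ : R') (r : R) => M r δ)) {S : Finset R} (hS : Even S.card) :
    Even (trM M S).card := by
  have h1 : ((trM M S).card : ZMod 2) = ∑ δ : R', ((S.filter (fun r => M r δ)).card : ZMod 2) := by
    rw [trM, Finset.card_eq_sum_ones, Nat.cast_sum, Nat.cast_one, Finset.sum_filter]
    apply Finset.sum_congr rfl
    intro δ _
    rw [v15_cast]
  have h2 : (∑ δ : R', ((S.filter (fun r => M r δ)).card : ZMod 2)) =
      ∑ r ∈ S, ((Finset.univ.filter (fun δ : R' => M r δ)).card : ZMod 2) := by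
    have h3 : ∀ δ : R', ((S.filter (fun r => M r δ)).card : ZMod 2) =
        ∑ r ∈ S, if M r δ then (1 : ZMod 2) else 0 := by
      intro δ
      rw [Finset.card_eq_sum_ones, Nat.cast_sum, Nat.cast_one, Finset.sum_filter]
    rw [Finset.sum_congr rfl fun δ _ => h3 δ, Finset.sum_comm]
    apply Finset.sum_congr rfl
    intro r _
    rw [Finset.card_eq_sum_ones, Nat.cast_sum, Nat.cast_one, Finset.sum_filter]
  rcases S.eq_empty_or_nonempty with hS0 | ⟨r0, hr0⟩
  · have h4 : ((trM M S).card : ZMod 2) = 0 := by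
      rw [h1, h2, hS0, Finset.sum_empty]
    exact ZMod.natCast_eq_zero_iff_even.1 h4
  · have h3 : ∀ r ∈ S, ((Finset.univ.filter (fun δ : R' => M r δ)).card : ZMod 2) =
        ((Finset.univ.filter (fun δ : R' => M r0 δ)).card : ZMod 2) := by
      intro r _
      have h5 := hM' r r0
      rw [v15_cast, v15_cast]
      by_cases h6 : Odd (Finset.univ.filter (fun δ : R' => M r δ)).card
      · rw [if_pos h6, if_pos (h5.1 h6)]
      · rw [if_neg h6, if_neg (fun h7 => h6 (h5.2 h7))]
    have h4 : ((trM M S).card : ZMod 2) = 0 := by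
      rw [h1, h2, Finset.sum_congr rfl h3, Finset.sum_const, nsmul_eq_mul,
        ZMod.natCast_eq_zero_iff_even.2 hS, zero_mul]
    exact ZMod.natCast_eq_zero_iff_even.1 h4

/-- Proof. `u` maps `HtE R` into `HtE R'` and `u'` maps `HtE R'` into `HtE R` (`g2_mem`, `trM_even`, `g2_hc_mem`). For `v = hc S ∈ HtE R`, `S` even: `u' (u v) = hc (trM Mᵗ (trM M S))`, which is `0` iff `trM Mᵗ (trM M S) ∈ {∅, univ}` and
equals `v` iff it is in `{S, Sᶜ}` (`hc_eq`, `hc_empty`); so `StarM` gives the first two claims (`S ∈ {∅, univ}` means `v = 0`). In particular `u` is injective on `HtE R`; as `HtE R` and `HtE R'` have the same dimension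
(`finrank_HtE`), `u : HtE R → HtE R'` is bijective (`LinearMap.restrict`, `LinearMap.injective_iff_surjective_of_finrank_eq_finrank`). So for `v' ∈ HtE R'`, `v' = u v`: `u (u' v') = 0` gives `u' (u (u' v')) = 0`, so `u' v' = 0` (first claim, `u' v' ∈ HtE R`), `u' (u v) = 0`, `v = 0`,
`v' = 0`. And `u (u' v') = v'` gives `u' (u (u' v')) = u' v'`, so `u' v' = 0` (second claim), `v' = u 0 = 0`. -/
theorem star_lin (M : R → R' → Prop) (hs : StarM M) (hcard : Fintype.card R = Fintype.card R') (hev : Even (Fintype.card R))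
    (h2 : 2 ≤ Fintype.card R) (hM : CP M) (hM' : CP (fun (δ : R') (r : R) => M r δ)) (u : Ht R →ₗ[ZMod 2] Ht R')
    (u' : Ht R' →ₗ[ZMod 2] Ht R) (hu : ∀ S : Finset R, u (hc S) = hc (trM M S))
    (hu' : ∀ S : Finset R', u' (hc S) = hc (trM (fun δ r => M r δ) S)) :
    (∀ v ∈ HtE R, u' (u v) = 0 → v = 0) ∧ (∀ v ∈ HtE R, u' (u v) = v → v = 0) ∧
      (∀ v ∈ HtE R', u (u' v) = 0 → v = 0) ∧ (∀ v ∈ HtE R', u (u' v) = v → v = 0) := by
  have hmaps : ∀ v ∈ HtE R, u v ∈ HtE R' := by
    intro v hv
    obtain ⟨S, hS, rfl⟩ := g2_mem hv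
    rw [hu]
    exact g2_hc_mem (trM_even M hM' hS)
  have hmaps' : ∀ v ∈ HtE R', u' v ∈ HtE R := by
    intro v hv
    obtain ⟨S, hS, rfl⟩ := g2_mem hv
    rw [hu']
    exact g2_hc_mem (trM_even (fun δ r => M r δ) hM hS)
  have hzero : ∀ S : Finset R, (S = ∅ ∨ S = Finset.univ) → (hc S : Ht R) = 0 := by
    rintro S (h | h)
    · rw [h, hc_empty]
    · rw [h, g2_univ]
  have c1 : ∀ v ∈ HtE R, u' (u v) = 0 → v = 0 := by
    intro v hv h
    obtain ⟨S, hS, rfl⟩ := g2_mem hv
    rw [hu, hu', ← hc_empty, hc_eq] at h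
    by_cases h1 : S = ∅
    · exact hzero S (Or.inl h1)
    by_cases h2 : S = Finset.univ
    · exact hzero S (Or.inr h2)
    obtain ⟨a1, a2, -, -⟩ := hs S hS h1 h2
    rcases h with h | h
    · exact absurd h a1
    · rw [Finset.compl_empty] at h
      exact absurd h a2
  have c2 : ∀ v ∈ HtE R, u' (u v) = v → v = 0 := by
    intro v hv h
    obtain ⟨S, hS, rfl⟩ := g2_mem hv
    rw [hu, hu', hc_eq] at h
    by_cases h1 : S = ∅
    · exact hzero S (Or.inl h1)
    by_cases h2 : S = Finset.univ
    · exact hzero S (Or.inr h2)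
    obtain ⟨-, -, a1, a2⟩ := hs S hS h1 h2
    rcases h with h | h
    · exact absurd h a1
    · exact absurd h a2
  have hinj : Function.Injective (u.restrict hmaps) := by
    rw [injective_iff_map_eq_zero]
    rintro ⟨v, hv⟩ h
    have h1 : u v = 0 := congrArg Subtype.val h
    apply Subtype.ext
    exact c1 v hv (by rw [h1, map_zero])
  have hfr : Module.finrank (ZMod 2) (HtE R) = Module.finrank (ZMod 2) (HtE R') := by
    rw [finrank_HtE hev h2, finrank_HtE (hcard ▸ hev) (hcard ▸ h2), hcard]
  have hsurj : Function.Surjective (u.restrict hmaps) :=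
    (LinearMap.injective_iff_surjective_of_finrank_eq_finrank hfr).1 hinj
  refine ⟨c1, c2, ?_, ?_⟩
  · intro v' hv' h
    obtain ⟨⟨v, hv⟩, hvv⟩ := hsurj ⟨v', hv'⟩
    have h1 : u v = v' := congrArg Subtype.val hvv
    have h2 : u' v' = 0 := c1 _ (hmaps' v' hv') (by rw [h, map_zero])
    have h3 : v = 0 := c1 v hv (by rw [h1, h2])
    rw [← h1, h3, map_zero]
  · intro v' hv' h
    have h2 : u' v' = 0 := c2 _ (hmaps' v' hv') (by rw [h])
    rw [← h, h2, map_zero]

end TE
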