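import Pool.Agent.TE.V11
import Pool.Agent.TE.V12
import Pool.Agent.TE.T1
import Pool.Agent.TE.V15

set_option autoImplicit false

open WeierstrassCurve.Affine
open scoped Classical Polynomial

namespace TE

/-! ## [TF-V13] the relations `relC1`, `relC2` for classes -/

variable {k Ω : Type*} [Field k] [Field Ω] [Algebra k Ω] [Algebra (RatFunc k) Ω] [IsScalarTower k (RatFunc k) Ω]
  [IsSepClosure (RatFunc k) Ω]

omit [Algebra (RatFunc k) Ω] [IsScalarTower k (RatFunc k) Ω] [IsSepClosure (RatFunc k) Ω] in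
theorem v13_card {Q : k[X]} (S : Finset (RT k Ω Q)) (P : Ω → Prop) :
    ((vS S).filter P).card = (S.filter (fun r => P r.1)).card := by
  unfold vS
  rw [Finset.filter_map, Finset.card_map]
  rfl

omit [Algebra (RatFunc k) Ω] [IsScalarTower k (RatFunc k) Ω] [IsSepClosure (RatFunc k) Ω] in
theorem v13_mem {Q : k[X]} (S : Finset (RT k Ω Q)) (r : RT k Ω Q) : r.1 ∈ vS S ↔ r ∈ S := by
  rw [T1a_mem]
  constructor
  · rintro ⟨r', h1, h2⟩
    rwa [← Subtype.ext h2]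
  · intro h
    exact ⟨r, h, rfl⟩

omit [Algebra (RatFunc k) Ω] [IsScalarTower k (RatFunc k) Ω] [IsSepClosure (RatFunc k) Ω] in
theorem v13_sub {Q : k[X]} (S : Finset (RT k Ω Q)) : vS S ⊆ rts k Q := by
  intro x hx
  obtain ⟨r, _, rfl⟩ := (T1a_mem _ _).1 hx
  exact r.2

omit [Algebra (RatFunc k) Ω] [IsScalarTower k (RatFunc k) Ω] [IsSepClosure (RatFunc k) Ω] in
theorem v13_compl {Q : k[X]} (S : Finset (RT k Ω Q)) : vS Sᶜ = rts k Q \ vS S := by
  ext x
  rw [Finset.mem_sdiff]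
  constructor
  · intro hx
    obtain ⟨r, hr, rfl⟩ := (T1a_mem _ _).1 hx
    exact ⟨r.2, fun h => (Finset.mem_compl.1 hr) ((v13_mem S r).1 h)⟩
  · rintro ⟨h1, h2⟩
    exact (v13_mem Sᶜ ⟨x, h1⟩).2 (Finset.mem_compl.2 fun h => h2 ((v13_mem S ⟨x, h1⟩).2 h))

theorem vS_trb (d : Dat k) (γ : Gm k Ω) (S : Finset (RT k Ω d.B)) :
    vS (trM (fun (r : RT k Ω d.B) (δ : RT k Ω d.D) => Mv γ r.1 δ.1) S) = trB d γ (vS S) := by
  ext x
  unfold trB
  rw [Finset.mem_filter, v13_card]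
  constructor
  · intro hx
    obtain ⟨δ, hδ, rfl⟩ := (T1a_mem _ _).1 hx
    exact ⟨δ.2, (Finset.mem_filter.1 hδ).2⟩
  · rintro ⟨h1, h2⟩
    exact (v13_mem _ ⟨x, h1⟩).2 (Finset.mem_filter.2 ⟨Finset.mem_univ _, h2⟩)

theorem vS_trd (d : Dat k) (γ : Gm k Ω) (S : Finset (RT k Ω d.D)) :
    vS (trM (fun (δ : RT k Ω d.D) (r : RT k Ω d.B) => Mv γ r.1 δ.1) S) = trD d γ (vS S) := by
  ext x
  unfold trD
  rw [Finset.mem_filter, v13_card]
  constructor
  · intro hx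
    obtain ⟨r, hr, rfl⟩ := (T1a_mem _ _).1 hx
    exact ⟨r.2, (Finset.mem_filter.1 hr).2⟩
  · rintro ⟨h1, h2⟩
    exact (v13_mem _ ⟨x, h1⟩).2 (Finset.mem_filter.2 ⟨Finset.mem_univ _, h2⟩)

/-- `y = cl f` as in `relB`; `γ • y - y = cl (twS γ f - f)` (`smul_cl`, `cl_add`), `rel_C1` with `vS S ⊆ rts B` for `f`; in the second case the complement of `vS (trM ..)` is `vS` of the complement (`vS_props`), `relD6`. -/
theorem relC1 (d : Dat k) (hcop : IsCoprime d.A d.B) {γ : Gm k Ω} (hγ : FixRts d γ) {y : YS Ω d.C}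
    {S : Finset (RT k Ω d.B)} (h : relB d y S) :
    relD d (γ • y - y) (trM (fun (r : RT k Ω d.B) (δ : RT k Ω d.D) => Mv γ r.1 δ.1) S) := by
  obtain ⟨f, rfl, h2, hev, hK⟩ := h
  obtain ⟨hT, hev', hor⟩ := rel_C1 d hcop hγ f.2.1 h2 (v13_sub S) hK
  have hcl : (γ • cl f - cl f : YS Ω d.C) = cl (twS γ f - f) := by
    rw [smul_cl]
    rfl
  rw [hcl]
  set S' := trM (fun (r : RT k Ω d.B) (δ : RT k Ω d.D) => Mv γ r.1 δ.1) S with hS'
  have hv : vS S' = trB d γ (vS S) := vS_trb d γ S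
  have hev1 : Even S'.card := by
    rw [← (vS_props S' S').2.2.1, hv]
    exact hev'
  rcases hor with hor | hor
  · refine ⟨twS γ f - f, rfl, hT, hev1, ?_⟩
    rw [hv]
    exact hor
  · have h6 : relD d (cl (twS γ f - f)) S'ᶜ := by
      refine ⟨twS γ f - f, rfl, hT, ?_, ?_⟩
      · have h4 : Fintype.card (RT k Ω d.D) = 4 * d.m := by
          have h5 := card_RT (Ω := Ω) (Q := d.D) d.sepD
          rw [h5]
          exact d.degD
        rw [Finset.card_compl, h4]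
        obtain ⟨a, ha⟩ := hev1
        refine ⟨2 * d.m - a, ?_⟩
        omega
      · rw [v13_compl, hv]
        exact hor
    have h7 := relD6 d _ _ h6
    rwa [compl_compl] at h7

/-- `2 z = cl f₀` with `f₀` as in `relD`, `z = cl f₁`; `cl (2 f₁) = cl f₀`, so `2 f₁ - f₀ = ∂Q` on `N` with `Q` of `2`-power order (`cl_eq`, `cl_nsmul`); `2R = Q` (`exists_half`), `f = f₁ - ∂R` is in `SelG`, `cl f = z`,
`2 f g = f₀ g` on `N`. `rel_C2` for `f`; then `relB` for `twS γ f - f`, or for the complement (`relB6`). -/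
theorem relC2 (d : Dat k) (hcop : IsCoprime d.A d.B) {γ : Gm k Ω} (hγ : FixRts d γ) {z : YS Ω d.C}
    {S : Finset (RT k Ω d.D)} (h : relD d ((2 : ℕ) • z) S) :
    relB d (γ • z - z) (trM (fun (δ : RT k Ω d.D) (r : RT k Ω d.B) => Mv γ r.1 δ.1) S) := by
  have : IsSepClosed Ω := IsSepClosure.sep_closed (RatFunc k)
  obtain ⟨f₀, hf₀, hT₀, hev, hK₀⟩ := h
  induction z using QuotientAddGroup.induction_on with
  | H f₁ =>
    have h1 : (cl ((2 : ℕ) • f₁) : YS Ω d.C) = cl f₀ := by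
      rw [cl_nsmul, hf₀]
      rfl
    obtain ⟨Q, ⟨n, hn⟩, hQ⟩ := (cl_eq _ _).1 h1
    obtain ⟨R, hR⟩ := exists_half d.C Q
    have hR2 : (2 ^ (n + 1) : ℕ) • R = 0 := by
      rw [pow_succ, mul_nsmul', hR, hn]
    obtain ⟨f, hf, hclf⟩ := T1a_bd d f₁ hR2
    have h2 : ∀ g ∈ NN k Ω, (2 : ℕ) • f.1 g = f₀.1 g := by
      intro g hg
      have h3 : (2 : ℕ) • f₁.1 g - f₀.1 g = d.C.act g Q - Q := hQ g hg
      rw [hf g, nsmul_sub, nsmul_sub, ← map_nsmul, hR, ← h3]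
      abel
    have hT : ∀ g ∈ NN k Ω, (2 : ℕ) • f.1 g = 0 ∨ (2 : ℕ) • f.1 g = d.C.T Ω := fun g hg => by
      rw [h2 g hg]
      exact hT₀ g hg
    have hK : Kum (vS S) (fun g => if (2 : ℕ) • f.1 g = 0 then (1 : Ω) else -1) := by
      refine kum_congr hK₀ fun g hg => ?_
      show (if f₀.1 g = 0 then (1 : Ω) else -1) = if (2 : ℕ) • f.1 g = 0 then (1 : Ω) else -1
      rw [h2 g hg]
    obtain ⟨hz, hev', hor⟩ := rel_C2 d hcop hγ f.2.1 hT (v13_sub S)
      (by rw [(vS_props S S).2.2.1]; exact hev) hK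
    have hcl : (γ • (QuotientAddGroup.mk f₁ : YS Ω d.C) - QuotientAddGroup.mk f₁) = cl (twS γ f - f) := by
      have h5 : (QuotientAddGroup.mk f₁ : YS Ω d.C) = cl f := hclf.symm
      rw [h5, smul_cl]
      rfl
    rw [hcl]
    set S' := trM (fun (δ : RT k Ω d.D) (r : RT k Ω d.B) => Mv γ r.1 δ.1) S with hS'
    have hv : vS S' = trD d γ (vS S) := vS_trd d γ S
    have hev1 : Even S'.card := by
      rw [← (vS_props S' S').2.2.1, hv]
      exact hev'
    rcases hor with hor | hor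
    · refine ⟨twS γ f - f, rfl, hz, hev1, ?_⟩
      rw [hv]
      exact hor
    · have h6 : relB d (cl (twS γ f - f)) S'ᶜ := by
        refine ⟨twS γ f - f, rfl, hz, ?_, ?_⟩
        · rw [Finset.card_compl, card_RT d.sepB, d.degB]
          obtain ⟨a, ha⟩ := hev1
          refine ⟨2 * d.m - a, ?_⟩
          omega
        · rw [v13_compl, hv]
          exact hor
      have h7 := relB6 d _ _ h6
      rwa [compl_compl] at h7

end TE
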