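import Pool.Agent.TE.V6
import Pool.Agent.TE.S1a
import Pool.Agent.TE.V11

set_option autoImplicit false

open scoped Classical Polynomial

namespace TE

/-! ## [TF-V14] constancy of the parities -/

variable {k Ω : Type*} [Field k] [Field Ω] [Algebra k Ω] [Algebra (RatFunc k) Ω] [IsScalarTower k (RatFunc k) Ω]
  [IsSepClosure (RatFunc k) Ω]

omit [IsSepClosure (RatFunc k) Ω] in
private theorem v14_const (γ : Gm k Ω) (x : k) : γ (algebraMap k Ω x) = algebraMap k Ω x := by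
  rw [IsScalarTower.algebraMap_apply k (RatFunc k) Ω]
  exact γ.commutes _

omit [IsSepClosure (RatFunc k) Ω] in
private theorem v14_aeval (γ : Gm k Ω) {c : Ω} (hc : γ c = c) (p : k[X]) :
    γ (Polynomial.aeval c p) = Polynomial.aeval c p := by
  have h2 := Polynomial.aeval_algHom_apply ((γ : Ω →ₐ[RatFunc k] Ω).restrictScalars k) c p
  have h3 : ((γ : Ω →ₐ[RatFunc k] Ω).restrictScalars k) c = c := hc
  rw [h3] at h2
  exact h2.symm

omit [IsSepClosure (RatFunc k) Ω] in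
private theorem v14_two (h2 : (2 : k) ≠ 0) : (2 : Ω) ≠ 0 := by
  have h : algebraMap k Ω 2 = 2 := map_ofNat _ 2
  rw [← h]
  exact (map_ne_zero (algebraMap k Ω)).mpr h2

omit [IsSepClosure (RatFunc k) Ω] in
private theorem v14_par (h2 : (2 : k) ≠ 0) {κ : Ω} {N N' : ℕ} (h : (-1 : Ω) ^ N = κ)
    (h' : (-1 : Ω) ^ N' = κ) : Odd N ↔ Odd N' := by
  have h0 := v14_two (k := k) (Ω := Ω) h2
  have h1 : (-1 : Ω) ≠ 1 := by
    intro h1
    apply h0
    linear_combination -h1
  have h3 : Even N ↔ Even N' := by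
    rw [← neg_one_pow_eq_one_iff_even h1, ← neg_one_pow_eq_one_iff_even h1, h, h']
  rw [← Nat.not_even_iff_odd, ← Nat.not_even_iff_odd, h3]

/-- the sign on a square root of a constant -/
private theorem v14_sqrt (h2 : (2 : k) ≠ 0) (γ : Gm k Ω) (a : k) (ha : a ≠ 0) :
    ∃ l κ : Ω, l ^ 2 = algebraMap k Ω a ∧ l ≠ 0 ∧ (κ = 1 ∨ κ = -1) ∧ γ l = κ * l := by
  obtain ⟨l, hl⟩ := exists_sqrt' (k := k) (Ω := Ω) h2 (algebraMap k Ω a)
  have hl0 : l ≠ 0 := by
    rintro rfl
    apply ha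
    apply (map_eq_zero (algebraMap k Ω)).1
    rw [← hl]
    ring
  have h3 : (γ l) ^ 2 = l ^ 2 := by
    rw [← map_pow, hl, v14_const]
  rcases sq_eq_sq_iff_eq_or_eq_neg.1 h3 with h | h
  · exact ⟨l, 1, hl, hl0, Or.inl rfl, by rw [h, one_mul]⟩
  · exact ⟨l, -1, hl, hl0, Or.inr rfl, by rw [h]; ring⟩

/-- Proof. Let `l² = ` leading coefficient of `B` (in `Ω`; `exists_sqrt'`), `γ l = κ l`, `κ = ± 1`. For a root `δ` of `D`: `4 B(δ) = A(δ)²`, `B(δ) ≠ 0` (`cop_ne`), so `s = A(δ)/(2 l)` satisfies `s² = B(δ)/l² = ∏_{r} (δ - r)` (`aeval_rts`)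
and `γ s = κ s` (`γ` fixes `δ` and so `A(δ)`), `s ≠ 0`. By `sgn_countB` (`S = rts B`) `γ s = (-1)^N s`, so `(-1)^N = κ` does not depend on `δ`. -/
theorem par_B (d : Dat k) (hcop : IsCoprime d.A d.B) {γ : Gm k Ω} (hγ : FixRts d γ) {δ δ' : Ω} (hδ : δ ∈ (rts k d.D : Finset Ω))
    (hδ' : δ' ∈ (rts k d.D : Finset Ω)) : Odd ((rts k d.B).filter (fun r => Mv γ r δ)).card ↔
      Odd ((rts k d.B).filter (fun r => Mv γ r δ')).card := by
  obtain ⟨l, κ, hl, hl0, hκ, hγl⟩ := v14_sqrt (k := k) (Ω := Ω) d.h2 γ d.B.leadingCoeff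
    (Polynomial.leadingCoeff_ne_zero.2 d.B_ne)
  have h20 := v14_two (k := k) (Ω := Ω) d.h2
  have key : ∀ x : Ω, x ∈ (rts k d.D : Finset Ω) →
      (-1 : Ω) ^ ((rts k d.B).filter (fun r => Mv γ r x)).card = κ := by
    intro x hx
    have hDx : Polynomial.aeval x d.D = 0 := (mem_rts d.D_ne x).1 hx
    have hBx : Polynomial.aeval x d.B ≠ 0 := fun h => cop_ne d hcop x h hDx
    have h4 : Polynomial.aeval x d.A ^ 2 = 4 * Polynomial.aeval x d.B := by
      rw [Dat.D, map_sub, map_pow, map_mul, map_ofNat] at hDx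
      linear_combination hDx
    have hA0 : Polynomial.aeval x d.A ≠ 0 := by
      intro h
      rw [h] at h4
      have h5 : (2 : Ω) * 2 * Polynomial.aeval x d.B = 0 := by linear_combination -h4
      rcases mul_eq_zero.1 h5 with h6 | h6
      · rcases mul_eq_zero.1 h6 with h7 | h7
        · exact h20 h7
        · exact h20 h7
      · exact hBx h6
    set s : Ω := Polynomial.aeval x d.A / (2 * l) with hsdef
    have hs0 : s ≠ 0 := div_ne_zero hA0 (mul_ne_zero h20 hl0)
    have hs : s ^ 2 = ∏ r ∈ (rts k d.B : Finset Ω), (x - r) := by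
      have h5 := aeval_rts (Ω := Ω) d.sepB x
      rw [← hl] at h5
      have h6 : (l ^ 2) * s ^ 2 = l ^ 2 * ∏ r ∈ (rts k d.B : Finset Ω), (x - r) := by
        rw [← h5, hsdef, div_pow, h4]
        field_simp
        ring
      exact mul_left_cancel₀ (pow_ne_zero 2 hl0) h6
    have hγx : γ x = x := hγ.2 x hx
    have hγs : γ s = κ * s := by
      rw [hsdef, map_div₀, v14_aeval γ hγx, map_mul, hγl, map_ofNat]
      rcases hκ with rfl | rfl
      · rw [one_mul, one_mul]
      · field_simp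
    have h7 := sgn_countB (k := k) d.h2 hγx (fun r hr => hγ.1 r hr) hs
    rw [hγs] at h7
    exact (mul_right_cancel₀ hs0 h7).symm
  exact v14_par d.h2 (key δ hδ) (key δ' hδ')

/-- The same with `D(r) = A(r)²` for the roots `r` of `B`, `s = A(r)/l`, `l² = ` leading coefficient of `D`, and `sgn_countD` (`|rts D| = 4m` is even). -/
theorem par_D (d : Dat k) (hcop : IsCoprime d.A d.B) {γ : Gm k Ω} (hγ : FixRts d γ) {r r' : Ω} (hr : r ∈ (rts k d.B : Finset Ω))
    (hr' : r' ∈ (rts k d.B : Finset Ω)) : Odd ((rts k d.D).filter (fun δ => Mv γ r δ)).card ↔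
      Odd ((rts k d.D).filter (fun δ => Mv γ r' δ)).card := by
  obtain ⟨l, κ, hl, hl0, hκ, hγl⟩ := v14_sqrt (k := k) (Ω := Ω) d.h2 γ d.D.leadingCoeff
    (Polynomial.leadingCoeff_ne_zero.2 d.D_ne)
  have hev : Even (rts k d.D : Finset Ω).card := by
    have h5 : (rts k d.D : Finset Ω).card = d.D.natDegree := rts_card (Ω := Ω) d.sepD
    have h6 : d.D.natDegree = 4 * d.m := d.degD
    rw [h5, h6]
    exact ⟨2 * d.m, by ring⟩
  have key : ∀ x : Ω, x ∈ (rts k d.B : Finset Ω) →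
      (-1 : Ω) ^ ((rts k d.D).filter (fun δ => Mv γ x δ)).card = κ := by
    intro x hx
    have hBx : Polynomial.aeval x d.B = 0 := (mem_rts d.B_ne x).1 hx
    have hDx : Polynomial.aeval x d.D ≠ 0 := fun h => cop_ne d hcop x hBx h
    have h4 : Polynomial.aeval x d.D = Polynomial.aeval x d.A ^ 2 := by
      rw [Dat.D, map_sub, map_pow, map_mul, map_ofNat, hBx]
      ring
    have hA0 : Polynomial.aeval x d.A ≠ 0 := by
      intro h
      apply hDx
      rw [h4, h]
      ring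
    set s : Ω := Polynomial.aeval x d.A / l with hsdef
    have hs0 : s ≠ 0 := div_ne_zero hA0 hl0
    have hs : s ^ 2 = ∏ r ∈ (rts k d.D : Finset Ω), (x - r) := by
      have h5 := aeval_rts (Ω := Ω) (Q := d.D) d.sepD x
      rw [← hl] at h5
      have h6 : (l ^ 2) * s ^ 2 = l ^ 2 * ∏ r ∈ (rts k d.D : Finset Ω), (x - r) := by
        rw [← h5, hsdef, div_pow, h4]
        field_simp
      exact mul_left_cancel₀ (pow_ne_zero 2 hl0) h6
    have hγx : γ x = x := hγ.1 x hx
    have hγs : γ s = κ * s := by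
      rw [hsdef, map_div₀, v14_aeval γ hγx, hγl]
      rcases hκ with rfl | rfl
      · rw [one_mul, one_mul]
      · field_simp
    have h7 := sgn_countD (k := k) d.h2 hev hγx (fun δ hδ => hγ.2 δ hδ) hs
    rw [hγs] at h7
    exact (mul_right_cancel₀ hs0 h7).symm
  exact v14_par d.h2 (key r hr) (key r' hr')

end TE
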