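import Mathlib

set_option autoImplicit false

open scoped Classical

namespace TE

/-! ## [TF-V16] an automorphism without nonzero fixed vectors of its powers (only Mathlib) -/

/-- an endomorphism reflecting divisibility by two is injective -/
theorem v16_inj {L : Type*} [AddCommGroup L] (tf : ∀ x : L, (2 : ℕ) • x = 0 → x = 0)
    (sep : ∀ x : L, (∀ n : ℕ, ∃ y, x = (2 ^ n : ℕ) • y) → x = 0) (T : Module.End ℤ L)
    (hT : ∀ x, (∃ y, T x = (2 : ℕ) • y) → ∃ y, x = (2 : ℕ) • y) (x : L) (hx : T x = 0) :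
    x = 0 := by
  have h : ∀ n : ℕ, ∃ y, x = (2 ^ n : ℕ) • y ∧ T y = 0 := by
    intro n
    induction n with
    | zero => exact ⟨x, by simp, hx⟩
    | succ n ih =>
      obtain ⟨y, hy, hTy⟩ := ih
      obtain ⟨z, hz⟩ := hT y ⟨0, by simp [hTy]⟩
      refine ⟨z, ?_, ?_⟩
      · rw [hy, hz, pow_succ, mul_nsmul']
      · apply tf
        rw [← map_nsmul, ← hz, hTy]
  refine sep x fun n => ?_
  obtain ⟨y, hy, -⟩ := h n
  exact ⟨y, hy⟩

theorem v16_tf {L : Type*} [AddCommGroup L] (tf : ∀ x : L, (2 : ℕ) • x = 0 → x = 0) (n : ℕ) :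
    ∀ x : L, (2 ^ n : ℕ) • x = 0 → x = 0 := by
  induction n with
  | zero => intro x hx; simpa using hx
  | succ n ih =>
    intro x hx
    rw [pow_succ, mul_nsmul'] at hx
    exact tf _ (ih _ hx)

/-- powers of an endomorphism congruent to one -/
theorem v16_pow {L : Type*} [AddCommGroup L] (h R : Module.End ℤ L) (hR : h = 1 + (2 : ℕ) • R)
    (i : ℕ) : ∃ R' : Module.End ℤ L, h ^ i = 1 + (2 : ℕ) • R' := by
  induction i with
  | zero => exact ⟨0, by simp⟩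
  | succ i ih =>
    obtain ⟨R', hR'⟩ := ih
    refine ⟨R' + R + (2 : ℕ) • (R' * R), ?_⟩
    rw [pow_succ, hR', hR]
    simp only [two_nsmul]
    noncomm_ring

theorem v16_sum {L : Type*} [AddCommGroup L] (h R : Module.End ℤ L) (hR : h = 1 + (2 : ℕ) • R)
    (m : ℕ) : ∃ R' : Module.End ℤ L, (∑ i ∈ Finset.range m, h ^ i) = (m : ℕ) • 1 + (2 : ℕ) • R' := by
  induction m with
  | zero => exact ⟨0, by simp⟩
  | succ m ih =>
    obtain ⟨R', hR'⟩ := ih
    obtain ⟨R'', hR''⟩ := v16_pow h R hR m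
    refine ⟨R' + R'', ?_⟩
    rw [Finset.sum_range_succ, hR', hR'', nsmul_add, add_nsmul _ m 1, one_nsmul]
    abel

theorem v16_sq {L : Type*} [AddCommGroup L] (Z : Module.End ℤ L) (c : ℕ) :
    (1 + c • Z) * (1 + c • Z) = 1 + ((c + c) • Z + (c * c) • (Z * Z)) := by
  rw [mul_add, mul_one, add_mul, one_mul, smul_mul_smul_comm, add_nsmul, add_assoc, add_assoc]

/-- Let `L` be an abelian group without `2`-torsion, `2`-adically separated, `jB : L → VB`, and `jD` additive on `ker jB`, with `jB x = 0`, `jD x = 0` iff `x ∈ 2L`. Let `g : L → L` satisfy `jB (g x) = jB x`, `jD (g x - x) = u (jB x)`,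
and, for `jB x = 0`, `g x - x = 2 w` with `jB w = u' (jD x)`. If `u' u` and `u u'` have no eigenvector with eigenvalue `0` or `1` on the images, then no power `g^j`, `j > 0`, fixes an `x ≠ 0`.

Proof. Put `M = ker jB ⊇ 2L`, `π x = g x - x`. `π` maps `L` to `M` (`h1`) and `M` to `2L` (`h3`), so `π (π x) = 2 Π x` for a unique `Π x` (no `2`-torsion), `Π` is additive and commutes with `g`.
`jB (Π x) = u' (u (jB x))`: `π x ∈ M`, `π (π x) = 2 w` with `jB w = u' (jD (π x)) = u' (u (jB x))`, `w = Π x`. For `x ∈ M`: `π x = 2 w`, `jB w = u' (jD x)`, `Π x = π w`, `jD (Π x) = u (jB w) = u (u' (jD x))`.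
Put `Z x = π x + Π x`. Then `g (g x) = x + 2 π x + π (π x) = x + 2 Z x`. `jB (Z x) = u' (u (jB x))` (`jB (π x) = 0`); for `x ∈ M`: `Z x ∈ M` and `jD (Z x) = u (u' (jD x))` (`π x ∈ 2L`, `jD = 0` there).
Call an additive map `T : L → L` good if `T x ∈ 2L` implies `x ∈ 2L`. A good map is injective: if `T x = 0` then `x = 2 x'`, `2 T x' = 0`, `T x' = 0`, ..., so `x ∈ 2ⁿ L` for all `n`.
`Z` is good: `Z x = 2y` gives `u' (u (jB x)) = 0`, `jB x = 0` (`e1`), then `u (u' (jD x)) = 0`, `jD x = 0` (`e3`). `1 + Z` is good: `jB (x + Z x) = 0` gives `u' (u (jB x)) = -jB x = jB x` (`hVB`), so `jB x = 0` (`e2`), then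
`jD (x + Z x) = 0`, `u (u' (jD x)) = jD x` (`hVD`), `jD x = 0` (`e4`).
Claim: for `a ≥ 1`, `g^{2^a} = 1 + 2^a Z_a` with `Z_a` good, additive, commuting with `g`: `Z_1 = Z`; `(1 + 2^a Z_a)² = 1 + 2^{a+1} (Z_a + 2^{a-1} Z_a²)`; for `a = 1`, `Z_2 = Z (1 + Z)` is good (composition of good maps), for
`a ≥ 2` `Z_{a+1} x ∈ 2L ↔ Z_a x ∈ 2L`. (To have all `Z_a` at hand carry the statement: `Z_a = P_a(Z)`, or just the three properties and for `a = 1` also that `1 + Z_1` is good.)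
Let `h = g^{2^a}`, `a ≥ 1`, `m` odd. `S = ∑_{i < m} h^i` is good: `h x - x ∈ 2L` for all `x`, so `S x - m x ∈ 2L`, and `m` is odd. So if `g^{2^a m} x = x`, then `S (h x - x) = h^m x - x = 0`, `h x = x`, `2^a Z_a x = 0`, `Z_a x = 0`, `x = 0`. For an arbitrary
`j > 0`: `g^{2j} x = x` and `2j = 2^a m` with `a ≥ 1`, `m` odd (`Nat.exists_eq_two_pow_mul_odd`). -/
theorem al0 {L VB VD : Type*} [AddCommGroup L] [AddCommGroup VB] [AddCommGroup VD] (hVB : ∀ v : VB, v + v = 0)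
    (hVD : ∀ v : VD, v + v = 0) (tf : ∀ x : L, (2 : ℕ) • x = 0 → x = 0)
    (sep : ∀ x : L, (∀ n : ℕ, ∃ y, x = (2 ^ n : ℕ) • y) → x = 0) (jB : L →+ VB) (jD : L → VD)
    (jDadd : ∀ x y, jB x = 0 → jB y = 0 → jD (x + y) = jD x + jD y)
    (hker : ∀ x, (jB x = 0 ∧ jD x = 0) ↔ ∃ y, x = (2 : ℕ) • y) (g : L →+ L) (u : VB →+ VD) (u' : VD →+ VB)
    (h1 : ∀ x, jB (g x) = jB x) (h2 : ∀ x, jD (g x - x) = u (jB x))
    (h3 : ∀ x, jB x = 0 → ∃ w, g x - x = (2 : ℕ) • w ∧ jB w = u' (jD x))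
    (e1 : ∀ x, u' (u (jB x)) = 0 → jB x = 0) (e2 : ∀ x, u' (u (jB x)) = jB x → jB x = 0)
    (e3 : ∀ x, jB x = 0 → u (u' (jD x)) = 0 → jD x = 0) (e4 : ∀ x, jB x = 0 → u (u' (jD x)) = jD x → jD x = 0)
    (j : ℕ) (hj : 0 < j) (x : L) (hx : g^[j] x = x) : x = 0 := by
  let G : Module.End ℤ L := g.toIntLinearMap
  have hG : ∀ x, G x = g x := fun _ => rfl
  let p : Module.End ℤ L := G - 1
  have hp : ∀ x, p x = g x - x := fun _ => rfl
  have inj2 : ∀ a b : L, (2 : ℕ) • a = (2 : ℕ) • b → a = b := by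
    intro a b h
    have h' : (2 : ℕ) • (a - b) = 0 := by rw [nsmul_sub, h, sub_self]
    exact sub_eq_zero.1 (tf _ h')
  have hpB : ∀ x, jB (p x) = 0 := by
    intro x
    rw [hp, map_sub, h1, sub_self]
  have hex : ∀ x, ∃ w, p (p x) = (2 : ℕ) • w ∧ jB w = u' (u (jB x)) := by
    intro x
    obtain ⟨w, hw, hw'⟩ := h3 (p x) (hpB x)
    refine ⟨w, hw, ?_⟩
    rw [hw', hp, h2]
  choose q hq hqB using hex
  let Q : Module.End ℤ L := (AddMonoidHom.mk' q (fun a b => inj2 _ _ (by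
    rw [← hq, nsmul_add, ← hq, ← hq, map_add, map_add]))).toIntLinearMap
  have hQ : ∀ x, Q x = q x := fun _ => rfl
  -- on the kernel
  have hQD : ∀ x, jB x = 0 → jD (Q x) = u (u' (jD x)) := by
    intro x hx0
    obtain ⟨w, hw, hw'⟩ := h3 x hx0
    have h4 : Q x = p w := by
      apply inj2
      rw [hQ, ← hq, hp x, hw, map_nsmul]
    rw [h4, hp, h2, hw']
  let Z : Module.End ℤ L := p + Q
  have hZ : ∀ x, Z x = p x + Q x := fun _ => rfl
  have hZB : ∀ x, jB (Z x) = u' (u (jB x)) := by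
    intro x
    rw [hZ, map_add, hpB, zero_add, hQ, hqB]
  have hZD : ∀ x, jB x = 0 → jD (Z x) = u (u' (jD x)) := by
    intro x hx0
    obtain ⟨w, hw, -⟩ := h3 x hx0
    have h4 : jD (p x) = 0 := ((hker (p x)).2 ⟨w, hw⟩).2
    rw [hZ, jDadd _ _ (hpB x) (by rw [hQ, hqB, hx0, map_zero, map_zero]), h4, zero_add, hQD x hx0]
  have hG2 : G ^ 2 = 1 + (2 : ℕ) • Z := by
    ext y
    have h5 : G y = y + p y := by rw [hp, hG]; abel
    have h6 : G (p y) = p y + p (p y) := by rw [hp (p y), hG]; abel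
    rw [pow_two, Module.End.mul_apply, LinearMap.add_apply, Module.End.one_apply,
      LinearMap.smul_apply, hZ, h5, map_add, h6, h5, hq, ← hQ, nsmul_add, two_nsmul (p y)]
    abel
  have goodZ : ∀ x, (∃ y, Z x = (2 : ℕ) • y) → ∃ y, x = (2 : ℕ) • y := by
    intro y hy
    obtain ⟨h4, h5⟩ := (hker (Z y)).2 hy
    rw [hZB] at h4
    have h6 := e1 y h4
    rw [hZD y h6] at h5
    exact (hker y).1 ⟨h6, e3 y h6 h5⟩
  have goodZ1 : ∀ x, (∃ y, (1 + Z) x = (2 : ℕ) • y) → ∃ y, x = (2 : ℕ) • y := by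
    intro y hy
    obtain ⟨h4, h5⟩ := (hker ((1 + Z) y)).2 hy
    rw [LinearMap.add_apply, Module.End.one_apply] at h4 h5
    rw [map_add, hZB] at h4
    have h6 : u' (u (jB y)) = jB y := by
      have h7 := hVB (jB y)
      have h8 : u' (u (jB y)) = -jB y := by
        rw [eq_neg_iff_add_eq_zero, add_comm, h4]
      rw [h8]
      rw [neg_eq_iff_add_eq_zero, h7]
    have h7 := e2 y h6
    have h8 : jB (Z y) = 0 := by rw [hZB, h6, h7]
    rw [jDadd _ _ h7 h8, hZD y h7] at h5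
    have h9 : u (u' (jD y)) = jD y := by
      have h10 := hVD (jD y)
      have h11 : u (u' (jD y)) = -jD y := by
        rw [eq_neg_iff_add_eq_zero, add_comm, h5]
      rw [h11, neg_eq_iff_add_eq_zero, h10]
    exact (hker y).1 ⟨h7, e4 y h7 h9⟩
  have step2 : ∃ Za : Module.End ℤ L, G ^ (2 ^ 2) = 1 + (2 ^ 2 : ℕ) • Za ∧
      ∀ x, (∃ y, Za x = (2 : ℕ) • y) → ∃ y, x = (2 : ℕ) • y := by
    refine ⟨Z * (1 + Z), ?_, ?_⟩
    · have h4 : G ^ (2 ^ 2) = G ^ 2 * G ^ 2 := by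
        rw [← pow_add]
        congr 1
      rw [h4, hG2]
      simp only [two_nsmul, (by norm_num : (2 ^ 2 : ℕ) = 2 + 2), add_nsmul]
      noncomm_ring
    · intro y hy
      rw [Module.End.mul_apply] at hy
      exact goodZ1 y (goodZ _ hy)
  have stepa : ∀ a : ℕ, ∃ Za : Module.End ℤ L, G ^ (2 ^ (a + 2)) = 1 + (2 ^ (a + 2) : ℕ) • Za ∧
      ∀ x, (∃ y, Za x = (2 : ℕ) • y) → ∃ y, x = (2 : ℕ) • y := by
    intro a
    induction a with
    | zero => exact step2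
    | succ a ih =>
      obtain ⟨Za, h4, h5⟩ := ih
      refine ⟨Za + (2 ^ (a + 1) : ℕ) • (Za * Za), ?_, ?_⟩
      · have h6 : G ^ (2 ^ (a + 1 + 2)) = G ^ (2 ^ (a + 2)) * G ^ (2 ^ (a + 2)) := by
          rw [← pow_add]
          congr 1
          ring
        rw [h6, h4]
        have h7 : (2 ^ (a + 1 + 2) : ℕ) = 2 ^ (a + 2) + 2 ^ (a + 2) := by ring
        have h8 : (2 ^ (a + 1 + 2) : ℕ) * 2 ^ (a + 1) = 2 ^ (a + 2) * 2 ^ (a + 2) := by ring
        rw [v16_sq, nsmul_add, ← mul_nsmul', h8, h7]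
      · intro y hy
        obtain ⟨z, hz⟩ := hy
        refine h5 y ⟨z - (2 ^ a : ℕ) • (Za * Za) y, ?_⟩
        rw [LinearMap.add_apply, LinearMap.smul_apply] at hz
        rw [nsmul_sub, ← hz, ← mul_nsmul', (by ring : 2 * 2 ^ a = 2 ^ (a + 1))]
        abel
  have claim : ∀ a : ℕ, 1 ≤ a → ∃ Za : Module.End ℤ L, G ^ (2 ^ a) = 1 + (2 ^ a : ℕ) • Za ∧
      ∀ x, (∃ y, Za x = (2 : ℕ) • y) → ∃ y, x = (2 : ℕ) • y := by
    intro a ha
    rcases Nat.lt_or_ge a 2 with h | h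
    · have : a = 1 := by omega
      subst this
      exact ⟨Z, by rw [pow_one]; exact hG2, goodZ⟩
    · obtain ⟨b, rfl⟩ := Nat.exists_eq_add_of_le' h
      exact stepa b
  -- the end
  obtain ⟨a, m, hm, ham⟩ := Nat.exists_eq_two_pow_mul_odd (n := 2 * j) (by omega)
  have ha : 1 ≤ a := by
    rcases Nat.eq_zero_or_pos a with h | h
    · rw [h, pow_zero, one_mul] at ham
      obtain ⟨k, hk⟩ := hm
      omega
    · exact h
  obtain ⟨Za, h4, h5⟩ := claim a ha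
  have hGj : (G ^ j) x = x := by
    rw [Module.End.pow_apply]
    exact hx
  have hG2j : (G ^ (2 * j)) x = x := by
    rw [two_mul, pow_add, Module.End.mul_apply, hGj, hGj]
  rw [ham, pow_mul] at hG2j
  set h : Module.End ℤ L := G ^ (2 ^ a) with hh
  obtain ⟨b, rfl⟩ : ∃ b, a = b + 1 := ⟨a - 1, by omega⟩
  have hR : h = 1 + (2 : ℕ) • ((2 ^ b : ℕ) • Za) := by
    rw [h4, ← mul_nsmul']
    congr 2
    ring
  obtain ⟨R', hR'⟩ := v16_sum h _ hR m
  have goodS : ∀ x, (∃ y, (∑ i ∈ Finset.range m, h ^ i) x = (2 : ℕ) • y) →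
      ∃ y, x = (2 : ℕ) • y := by
    rintro y ⟨z, hz⟩
    obtain ⟨k, hk⟩ := hm
    rw [hR', LinearMap.add_apply, LinearMap.smul_apply, LinearMap.smul_apply,
      Module.End.one_apply, hk, add_nsmul, one_nsmul, mul_nsmul'] at hz
    refine ⟨z - k • y - R' y, ?_⟩
    rw [nsmul_sub, nsmul_sub, ← hz]
    abel
  have h6 : (∑ i ∈ Finset.range m, h ^ i) ((h - 1) x) = 0 := by
    rw [← Module.End.mul_apply, geom_sum_mul, LinearMap.sub_apply, hG2j, Module.End.one_apply,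
      sub_self]
  have h7 := v16_inj tf sep _ goodS _ h6
  have h8 : (2 ^ (b + 1) : ℕ) • Za x = 0 := by
    rw [h4, add_sub_cancel_left, LinearMap.smul_apply] at h7
    exact h7
  exact v16_inj tf sep Za h5 x (v16_tf tf _ _ h8)

end TE
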