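import Pool.Agent.TE.G13
import Pool.Agent.TE.V15
import Pool.Agent.TE.V16

set_option autoImplicit false

open scoped Classical

namespace TE

/-! ## [TF-V17] the abstract vanishing statement -/

/-- The structure of `Y[2]` in terms of even sets (modulo complements) and the action of `γ`. -/
structure YE (Y RB RD : Type*) [AddCommGroup Y] [Fintype RB] [Fintype RD] where
  relB : Y → Finset RB → Prop
  relD : Y → Finset RD → Prop
  B1 : ∀ y : Y, (2 : ℕ) • y = 0 → ∃ S, relB y S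
  B2 : ∀ y y' S S', relB y S → relB y' S' → relB (y + y') (symmDiff S S')
  B3 : ∀ S, relB 0 S → S = ∅ ∨ S = Finset.univ
  B5 : ∀ y S, relB y S → Even S.card ∧ (2 : ℕ) • y = 0
  B6 : ∀ y S, relB y S → relB y Sᶜ
  D1 : ∀ y : Y, relB y ∅ → ∃ S, relD y S
  D2 : ∀ y y' S S', relD y S → relD y' S' → relD (y + y') (symmDiff S S')
  D3 : ∀ S, relD 0 S → S = ∅ ∨ S = Finset.univ
  D5 : ∀ y S, relD y S → Even S.card ∧ (2 : ℕ) • y = 0
  D6 : ∀ y S, relD y S → relD y Sᶜ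
  D7 : ∀ y : Y, relD y ∅ → y = 0
  γ : Y →+ Y
  B4 : ∀ y S, relB y S → relB (γ y) S
  D4 : ∀ y S, relD y S → relD (γ y) S
  M : RB → RD → Prop
  C1 : ∀ y S, relB y S → relD (γ y - y) (trM M S)
  C2 : ∀ z S, relD ((2 : ℕ) • z) S → relB (γ z - z) (trM (fun δ r => M r δ) S)
  par : CP M
  par' : CP (fun (δ : RD) (r : RB) => M r δ)
  star : StarM M
  cards : Fintype.card RB = Fintype.card RD
  evn : Even (Fintype.card RB)
  two : 2 ≤ Fintype.card RB

section v17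

variable {Y RB RD : Type*} [AddCommGroup Y] [Fintype RB] [Fintype RD]

/-- the image of `y` in the first heart -/
noncomputable def v17_jY (D : YE Y RB RD) (y : Y) : Ht RB := if h : ∃ S, D.relB y S then hc h.choose else 0

/-- the image of `y` in the second heart -/
noncomputable def v17_dY (D : YE Y RB RD) (y : Y) : Ht RD := if h : ∃ S, D.relD y S then hc h.choose else 0

theorem v17_symm {R : Type*} [Fintype R] {S T : Finset R} (h : symmDiff S T = ∅ ∨ symmDiff S T = Finset.univ) :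
    (hc T : Ht R) = hc S := by
  rw [hc_eq]
  rcases h with h | h
  · left
    rw [← Finset.bot_eq_empty, symmDiff_eq_bot] at h
    exact h.symm
  · right
    rw [← Finset.top_eq_univ, symmDiff_eq_top] at h
    rw [← h.compl_eq]

theorem v17_hc_zero {R : Type*} [Fintype R] {S : Finset R} : (hc S : Ht R) = 0 ↔ S = ∅ ∨ S = Finset.univ := by
  rw [← hc_empty, hc_eq, Finset.compl_empty]

theorem v17_jY_eq (D : YE Y RB RD) {y : Y} {S : Finset RB} (h : D.relB y S) : v17_jY D y = hc S := by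
  have hex : ∃ S, D.relB y S := ⟨S, h⟩
  unfold v17_jY
  rw [dif_pos hex]
  apply v17_symm
  have h1 := D.B2 y y _ _ h hex.choose_spec
  have h2 := (D.B5 y S h).2
  rw [two_nsmul] at h2
  rw [h2] at h1
  exact D.B3 _ h1

theorem v17_dY_eq (D : YE Y RB RD) {y : Y} {S : Finset RD} (h : D.relD y S) : v17_dY D y = hc S := by
  have hex : ∃ S, D.relD y S := ⟨S, h⟩
  unfold v17_dY
  rw [dif_pos hex]
  apply v17_symm
  have h1 := D.D2 y y _ _ h hex.choose_spec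
  have h2 := (D.D5 y S h).2
  rw [two_nsmul] at h2
  rw [h2] at h1
  exact D.D3 _ h1

theorem v17_jY_add (D : YE Y RB RD) (y y' : Y) (hy : (2 : ℕ) • y = 0) (hy' : (2 : ℕ) • y' = 0) :
    v17_jY D (y + y') = v17_jY D y + v17_jY D y' := by
  obtain ⟨S, hS⟩ := D.B1 y hy
  obtain ⟨S', hS'⟩ := D.B1 y' hy'
  rw [v17_jY_eq D hS, v17_jY_eq D hS', v17_jY_eq D (D.B2 _ _ _ _ hS hS'), hc_add]

theorem v17_jY_mem (D : YE Y RB RD) (y : Y) (hy : (2 : ℕ) • y = 0) : v17_jY D y ∈ HtE RB := by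
  obtain ⟨S, hS⟩ := D.B1 y hy
  rw [v17_jY_eq D hS]
  exact g2_hc_mem (D.B5 y S hS).1

theorem v17_jY_zero (D : YE Y RB RD) (y : Y) (hy : (2 : ℕ) • y = 0) : v17_jY D y = 0 ↔ D.relB y ∅ := by
  obtain ⟨S, hS⟩ := D.B1 y hy
  constructor
  · intro h
    rw [v17_jY_eq D hS, v17_hc_zero] at h
    rcases h with rfl | rfl
    · exact hS
    · have h1 := D.B6 y _ hS
      rw [Finset.compl_univ] at h1
      exact h1
  · intro h
    rw [v17_jY_eq D h, hc_empty]

theorem v17_dY_add (D : YE Y RB RD) (y y' : Y) (hy : D.relB y ∅) (hy' : D.relB y' ∅) :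
    v17_dY D (y + y') = v17_dY D y + v17_dY D y' := by
  obtain ⟨S, hS⟩ := D.D1 y hy
  obtain ⟨S', hS'⟩ := D.D1 y' hy'
  rw [v17_dY_eq D hS, v17_dY_eq D hS', v17_dY_eq D (D.D2 _ _ _ _ hS hS'), hc_add]

theorem v17_dY_mem (D : YE Y RB RD) (y : Y) (hy : D.relB y ∅) : v17_dY D y ∈ HtE RD := by
  obtain ⟨S, hS⟩ := D.D1 y hy
  rw [v17_dY_eq D hS]
  exact g2_hc_mem (D.D5 y S hS).1

theorem v17_zero (D : YE Y RB RD) (y : Y) (hy : (2 : ℕ) • y = 0) :
    (v17_jY D y = 0 ∧ v17_dY D y = 0) ↔ y = 0 := by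
  constructor
  · rintro ⟨h1, h2⟩
    have h3 := (v17_jY_zero D y hy).1 h1
    obtain ⟨S, hS⟩ := D.D1 y h3
    rw [v17_dY_eq D hS, v17_hc_zero] at h2
    apply D.D7
    rcases h2 with rfl | rfl
    · exact hS
    · have h1 := D.D6 y _ hS
      rw [Finset.compl_univ] at h1
      exact h1
  · rintro rfl
    obtain ⟨S, hS⟩ := D.B1 0 hy
    have h1 : v17_jY D (0 : Y) = 0 := by
      rw [v17_jY_eq D hS, v17_hc_zero]
      exact D.B3 _ hS
    refine ⟨h1, ?_⟩
    obtain ⟨T, hT⟩ := D.D1 0 ((v17_jY_zero D 0 hy).1 h1)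
    rw [v17_dY_eq D hT, v17_hc_zero]
    exact D.D3 _ hT

theorem v17_tors {Y : Type*} [AddCommGroup Y] (x : TY Y) : (2 : ℕ) • x.1 1 = 0 := by
  rw [x.2.2 0, x.2.1]

theorem v17_iter {Y : Type*} [AddCommGroup Y] (γ : Y →+ Y) (j : ℕ) (x : TY Y) (n : ℕ) :
    ((TYmap γ).toAddMonoidHom^[j] x).1 n = γ^[j] (x.1 n) := by
  induction j generalizing x with
  | zero => rfl
  | succ j ih =>
    rw [Function.iterate_succ_apply, Function.iterate_succ_apply, ih]
    rfl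

end v17

/-- Proof. Define `jY : Y → Ht RB`, `dY : Y → Ht RD` as in G14 (`jY y = hc S` if `relB y S`; the proofs of `jY_eq`, `dY_eq`, `jY_props`, `dY_props` in `Pool/Agent/TE/G14.lean` can be copied, without the parts on the action; give the copied auxiliary lemmas new names with v17_ in front; `g2_*` are in G2).
`L = TY Y` (`AddSubgroup (ℕ → Y)`, G13), `g y = (n ↦ γ (y n))`, `jB y = jY (y 1)`, `jD y = dY (y 1)` (`2 • y 1 = y 0 = 0`). `L` has no `2`-torsion (`TY_torsion2`, or directly), `y ∈ 2L ↔ y 1 = 0` (`TY_two`, or directly: shift the sequence), `y ∈ 2ⁿL` implies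
`y n = 0` (`TY_pow`); so `L` is separated. `jB y = 0 ∧ jD y = 0 ↔ y 1 = 0 ↔ y ∈ 2L`. `h1`: `relB (y 1) S` gives `relB (γ (y 1)) S`. `h2`: `relB (y 1) S` (`B1`), `C1` gives `jD (g y - y) = hc (trM M S) = u (hc S)` (`exists_u`).
`h3`: let `jB y = 0`, `relD (y 1) S` (`D1`). `y 1 = 2 • z`, `z = y 2`. `w n = γ (y (n+1)) - y (n+1)`: `w 0 = γ (y 1) - y 1 = 0` since `relD (γ (y 1)) S`, `relD (y 1) S`, so `relD (γ (y 1) - y 1) ∅` (`D2`; `-y 1 = y 1` as `2 • y 1 = 0`), `D7`. So `w ∈ L`, `2 w = g y - y`,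
`w 1 = γ z - z`, `C2`: `jB w = hc (trM Mᵗ S) = u' (hc S) = u' (jD y)`. The hypotheses `e1`-`e4` follow from `star_lin` (`jB y ∈ HtE RB`, and `jD y ∈ HtE RD` if `jB y = 0`: `B5`, `D5`, `g2_hc_mem`). `al0` gives `y = 0`. -/
theorem YE_trivial {Y RB RD : Type*} [AddCommGroup Y] [Fintype RB] [Fintype RD] (D : YE Y RB RD) (j : ℕ) (hj : 0 < j)
    (y : ℕ → Y) (hy0 : y 0 = 0) (hy : ∀ n, (2 : ℕ) • y (n + 1) = y n) (hγ : ∀ n, D.γ^[j] (y n) = y n) (n : ℕ) : y n = 0 := by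
  obtain ⟨u, hu⟩ := exists_u D.M D.par
  obtain ⟨u', hu'⟩ := exists_u (fun (δ : RD) (r : RB) => D.M r δ) D.par'
  obtain ⟨s1, s2, s3, s4⟩ := star_lin D.M D.star D.cards D.evn D.two D.par D.par' u u' hu hu'
  let jB : TY Y →+ Ht RB := AddMonoidHom.mk' (fun x => v17_jY D (x.1 1)) (fun x x' => by
    show v17_jY D (x.1 1 + x'.1 1) = _
    exact v17_jY_add D _ _ (v17_tors x) (v17_tors x'))
  have hjB : ∀ x : TY Y, jB x = v17_jY D (x.1 1) := fun x => rfl
  have hrel : ∀ x : TY Y, jB x = 0 ↔ D.relB (x.1 1) ∅ := fun x => by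
    rw [hjB]
    exact v17_jY_zero D _ (v17_tors x)
  have hx : ((TYmap D.γ).toAddMonoidHom)^[j] (⟨y, hy0, hy⟩ : TY Y) = ⟨y, hy0, hy⟩ := by
    apply Subtype.ext
    funext n
    rw [v17_iter]
    exact hγ n
  have key := al0 (L := TY Y) (VB := Ht RB) (VD := Ht RD) g2_add_self g2_add_self ?_ ?_ jB
    (fun x => v17_dY D (x.1 1)) ?_ ?_ (TYmap D.γ).toAddMonoidHom u.toAddMonoidHom u'.toAddMonoidHom
    ?_ ?_ ?_ ?_ ?_ ?_ ?_ j hj ⟨y, hy0, hy⟩ hx
  · exact congrFun (congrArg Subtype.val key) n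
  · intro x hx
    apply Subtype.ext
    funext n
    rw [← x.2.2 n]
    exact congrFun (congrArg Subtype.val hx) (n + 1)
  · intro x hx
    apply Subtype.ext
    funext n
    obtain ⟨z, hz⟩ := hx n
    rw [hz]
    exact TY_pow z n
  · intro x x' h h'
    exact v17_dY_add D _ _ ((hrel x).1 h) ((hrel x').1 h')
  · intro x
    show (v17_jY D (x.1 1) = 0 ∧ v17_dY D (x.1 1) = 0) ↔ _
    rw [v17_zero D _ (v17_tors x)]
    constructor
    · intro h
      refine ⟨⟨fun n => x.1 (n + 1), h, fun n => x.2.2 (n + 1)⟩, ?_⟩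
      apply Subtype.ext
      funext n
      exact (x.2.2 n).symm
    · rintro ⟨z, rfl⟩
      exact v17_tors z
  · intro x
    obtain ⟨S, hS⟩ := D.B1 _ (v17_tors x)
    show v17_jY D (D.γ (x.1 1)) = v17_jY D (x.1 1)
    rw [v17_jY_eq D hS, v17_jY_eq D (D.B4 _ _ hS)]
  · intro x
    obtain ⟨S, hS⟩ := D.B1 _ (v17_tors x)
    show v17_dY D (D.γ (x.1 1) - x.1 1) = u (v17_jY D (x.1 1))
    rw [v17_jY_eq D hS, hu, v17_dY_eq D (D.C1 _ _ hS)]
  · intro x hx
    obtain ⟨S, hS⟩ := D.D1 _ ((hrel x).1 hx)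
    have h0 : D.γ (x.1 1) - x.1 1 = 0 := by
      apply D.D7
      have h1 := D.D2 _ _ _ _ (D.D4 _ _ hS) hS
      rw [symmDiff_self] at h1
      have h2 : -x.1 1 = x.1 1 := by
        have h3 := v17_tors x
        rw [two_nsmul] at h3
        exact neg_eq_of_add_eq_zero_left h3
      rw [sub_eq_add_neg, h2]
      exact h1
    have h4 : D.relD ((2 : ℕ) • x.1 2) S := by
      rw [x.2.2 1]
      exact hS
    refine ⟨⟨fun n => D.γ (x.1 (n + 1)) - x.1 (n + 1), h0, fun n => ?_⟩, ?_, ?_⟩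
    · rw [nsmul_sub, ← map_nsmul, x.2.2 (n + 1)]
    · apply Subtype.ext
      funext n
      show D.γ (x.1 n) - x.1 n = (2 : ℕ) • (D.γ (x.1 (n + 1)) - x.1 (n + 1))
      rw [nsmul_sub, ← map_nsmul, x.2.2 n]
    · show v17_jY D (D.γ (x.1 2) - x.1 2) = u' (v17_dY D (x.1 1))
      rw [v17_jY_eq D (D.C2 _ _ h4), v17_dY_eq D hS, hu']
  · intro x
    exact s1 _ (v17_jY_mem D _ (v17_tors x))
  · intro x
    exact s2 _ (v17_jY_mem D _ (v17_tors x))
  · intro x hx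
    exact s3 _ (v17_dY_mem D _ ((hrel x).1 hx))
  · intro x hx
    exact s4 _ (v17_dY_mem D _ ((hrel x).1 hx))

end TE
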