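import Pool.Agent.TE.V13
import Pool.Agent.TE.V14
import Pool.Agent.TE.V17

set_option autoImplicit false

open WeierstrassCurve.Affine
open scoped Classical Polynomial

namespace TE

/-! ## [TF-V18] the vanishing theorem -/

variable {k Ω : Type*} [Field k] [Field Ω] [Algebra k Ω] [Algebra (RatFunc k) Ω] [IsScalarTower k (RatFunc k) Ω]
  [IsSepClosure (RatFunc k) Ω]

omit [Algebra (RatFunc k) Ω] [IsScalarTower k (RatFunc k) Ω] [IsSepClosure (RatFunc k) Ω] in
theorem v18_mem {Q : k[X]} (S : Finset (RT k Ω Q)) (r : RT k Ω Q) : r.1 ∈ vS S ↔ r ∈ S := by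
  rw [T1a_mem]
  constructor
  · rintro ⟨r', h1, h2⟩
    rwa [← Subtype.ext h2]
  · intro h
    exact ⟨r, h, rfl⟩

omit [Algebra (RatFunc k) Ω] [IsScalarTower k (RatFunc k) Ω] [IsSepClosure (RatFunc k) Ω] in
theorem v18_sub {Q : k[X]} (S : Finset (RT k Ω Q)) : vS S ⊆ rts k Q := by
  intro x hx
  obtain ⟨r, _, rfl⟩ := (T1a_mem _ _).1 hx
  exact r.2

omit [Algebra (RatFunc k) Ω] [IsScalarTower k (RatFunc k) Ω] [IsSepClosure (RatFunc k) Ω] in
theorem v18_compl {Q : k[X]} [DecidableEq (RT k Ω Q)] (S : Finset (RT k Ω Q)) :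
    vS Sᶜ = rts k Q \ vS S := by
  ext x
  rw [Finset.mem_sdiff]
  constructor
  · intro hx
    obtain ⟨r, hr, rfl⟩ := (T1a_mem _ _).1 hx
    exact ⟨r.2, fun h => (Finset.mem_compl.1 hr) ((v18_mem S r).1 h)⟩
  · rintro ⟨h1, h2⟩
    exact (v18_mem Sᶜ ⟨x, h1⟩).2 (Finset.mem_compl.2 fun h => h2 ((v18_mem S ⟨x, h1⟩).2 h))

omit [Algebra (RatFunc k) Ω] [IsScalarTower k (RatFunc k) Ω] [IsSepClosure (RatFunc k) Ω] in
theorem v18_card {Q : k[X]} (P : Ω → Prop) : ((rts k Q : Finset Ω).filter P).card =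
    (Finset.univ.filter (fun r : RT k Ω Q => P r.1)).card := by
  have h : (rts k Q : Finset Ω).filter P = vS (Finset.univ.filter (fun r : RT k Ω Q => P r.1)) := by
    ext x
    rw [Finset.mem_filter]
    constructor
    · rintro ⟨h1, h2⟩
      exact (v18_mem _ ⟨x, h1⟩).2 (Finset.mem_filter.2 ⟨Finset.mem_univ _, h2⟩)
    · intro hx
      obtain ⟨r, hr, rfl⟩ := (T1a_mem _ _).1 hx
      exact ⟨r.2, (Finset.mem_filter.1 hr).2⟩
  rw [h]
  exact Finset.card_map _

/-- The subtype version of `Star`, `par_B`, `par_D` (`vS` turns `trM` into `trB`, `trD`: `vS_trb`, `vS_trd`; `vS_props`: `vS` is injective, preserves cardinalities, `vS univ = rts`, `vS ∅ = ∅`). -/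
theorem star_sub (d : Dat k) {γ : Gm k Ω} (hs : Star d γ) :
    StarM (fun (r : RT k Ω d.B) (δ : RT k Ω d.D) => Mv γ r.1 δ.1) := by
  intro S hev h0 h1
  have hinj : ∀ S S' : Finset (RT k Ω d.B), vS S = vS S' → S = S' := fun S S' =>
    (vS_props S S').2.2.2.2.2.1
  have hun : vS (Finset.univ : Finset (RT k Ω d.B)) = rts k d.B := (vS_props S S).2.2.2.1
  have hem : vS (∅ : Finset (RT k Ω d.B)) = ∅ := (vS_props S S).2.2.2.2.1
  obtain ⟨a1, a2, a3, a4⟩ := hs (vS S) (v18_sub S) (by rw [(vS_props S S).2.2.1]; exact hev)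
    (fun h => h0 (hinj _ _ (by rw [h, hem]))) (fun h => h1 (hinj _ _ (by rw [h, hun])))
  rw [← vS_trb, ← vS_trd] at a1 a2 a3 a4
  refine ⟨fun h => a1 ?_, fun h => a2 ?_, fun h => a3 ?_, fun h => a4 ?_⟩
  · rw [h, hem]
  · rw [h, hun]
  · rw [h]
  · rw [h]
    exact @v18_compl _ _ _ _ _ _ (_) S

theorem par_sub (d : Dat k) (hcop : IsCoprime d.A d.B) {γ : Gm k Ω} (hγ : FixRts d γ) :
    CP (fun (r : RT k Ω d.B) (δ : RT k Ω d.D) => Mv γ r.1 δ.1) ∧
      CP (fun (δ : RT k Ω d.D) (r : RT k Ω d.B) => Mv γ r.1 δ.1) := by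
  constructor
  · intro δ δ'
    have h := par_B d hcop hγ δ.2 δ'.2
    rw [v18_card, v18_card] at h
    exact h
  · intro r r'
    have h := par_D d hcop hγ r.2 r'.2
    rw [v18_card, v18_card] at h
    exact h

/-- Proof (compare `large_galois` in `Pool/Agent/TE/T2.lean`). The data `YE` for `Y = YS Ω d.C`, `RB = RT B`, `RD = RT D`, `γ` acting by `γ • ·` (`DistribMulAction.toAddMonoidHom`): T1a, T1b, V13 (`relC1`, `relC2`), `star_sub`, `par_sub`,
`card_RT` (both sets have `4m ≥ 4` elements); `B4`, `D4`: `relB4`, `relD4` and `γ • r = r` (`hγ`, `RT_smul`). `f_n ∈ SelG`; `y_n = cl f_n`; `y₀ = 0` (`f₀ = 0` on `N`), `2 y_{n+1} = y_n` (`hf.comp`), `γ^j y_n = y_n` (`hinv`, `smul_cl`). By `YE_trivial`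
`y_n = 0`, i.e. (`cl_eq`) `f_n = ∂R` on `N` with `R` of `2`-power order; `2ⁿ f_n = 0`, so `2ⁿ R` is fixed by `N` and of `2`-power order: `2ⁿ R ∈ {0, T}` (`tors_pow_K`), `2ⁿ⁺¹ R = 0` (`two_T`).
(Instances: where `Decidable`/`Fintype` instances differ use `cast (by congr <;> exact Subsingleton.elim _ _) h` as in T2, not `convert`.) -/
theorem star_trivial (d : Dat k) (hcop : IsCoprime d.A d.B) {γ : Gm k Ω} (hγ : FixRts d γ) (hs : Star d γ) (j : ℕ)
    (hj : 0 < j) (f : ℕ → Gm k Ω → d.C.Pt Ω) (hf : Sys d.C f) (hinv : FixBy d.C (γ ^ j) f) (n : ℕ) :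
    ∃ R : d.C.Pt Ω, (2 ^ (n + 1) : ℕ) • R = 0 ∧ ∀ g ∈ NN k Ω, f n g = d.C.act g R - R := by
  have hmem : ∀ n, f n ∈ SelG (Ω := Ω) d.C := fun n => ⟨hf.sel n, n, hf.tors n⟩
  have cardB : Fintype.card (RT k Ω d.B) = 4 * d.m := by rw [card_RT d.sepB, d.degB]
  have cardD : Fintype.card (RT k Ω d.D) = 4 * d.m := by
    rw [card_RT (show d.D.Separable from d.sepD)]
    exact d.degD
  have hm := d.hm
  have idB : ∀ S : Finset (RT k Ω d.B), S.image (fun r => γ • r) = S := by
    intro S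
    have h : (fun r : RT k Ω d.B => γ • r) = id := by
      funext r
      exact Subtype.ext ((RT_smul _ γ r).trans (hγ.1 r.1 r.2))
    rw [h, Finset.image_id]
  have idD : ∀ S : Finset (RT k Ω d.D), S.image (fun r => γ • r) = S := by
    intro S
    have h : (fun r : RT k Ω d.D => γ • r) = id := by
      funext r
      exact Subtype.ext ((RT_smul _ γ r).trans (hγ.2 r.1 r.2))
    rw [h, Finset.image_id]
  let D : YE (YS Ω d.C) (RT k Ω d.B) (RT k Ω d.D) :=
    { relB := relB d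
      relD := relD d
      B1 := relB1 d
      B2 := fun y y' S S' h h' => by
        have h'' := relB2 d y y' S S' h h'
        exact cast (by congr <;> exact Subsingleton.elim _ _) h''
      B3 := relB3 d
      B5 := relB5 d
      B6 := fun y S h => by
        have h' := relB6 d y S h
        exact cast (by congr <;> exact Subsingleton.elim _ _) h'
      D1 := relD1 d
      D2 := fun y y' S S' h h' => by
        have h'' := relD2 d y y' S S' h h'
        exact cast (by congr <;> exact Subsingleton.elim _ _) h''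
      D3 := relD3 d
      D5 := relD5 d
      D6 := fun y S h => by
        have h' := relD6 d y S h
        exact cast (by congr <;> exact Subsingleton.elim _ _) h'
      D7 := relD7 d
      γ := DistribSMul.toAddMonoidHom (YS Ω d.C) γ
      B4 := fun y S h => by
        have h' := relB4 d γ y S h
        rw [idB] at h'
        exact h'
      D4 := fun y S h => by
        have h' := relD4 d γ y S h
        rw [idD] at h'
        exact h'
      M := fun r δ => Mv γ r.1 δ.1
      C1 := fun y S h => relC1 d hcop hγ h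
      C2 := fun z S h => relC2 d hcop hγ h
      par := (par_sub d hcop hγ).1
      par' := (par_sub d hcop hγ).2
      star := star_sub d hs
      cards := by rw [cardB, cardD]
      evn := by rw [cardB]; exact ⟨2 * d.m, by ring⟩
      two := by rw [cardB]; omega }
  have hit : ∀ (i : ℕ) (y : YS Ω d.C), D.γ^[i] y = γ ^ i • y := by
    intro i
    induction i with
    | zero => intro y; rw [pow_zero, one_smul]; rfl
    | succ i ih =>
      intro y
      rw [Function.iterate_succ_apply', ih, pow_succ', mul_smul]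
      rfl
  have key : cl (⟨f n, hmem n⟩ : SelG (Ω := Ω) d.C) = cl 0 := by
    refine YE_trivial D j hj (fun n => cl (⟨f n, hmem n⟩ : SelG (Ω := Ω) d.C)) ?_ ?_ ?_ n
    · refine (cl_eq _ (0 : SelG (Ω := Ω) d.C)).2 ⟨0, ⟨0, smul_zero _⟩, fun g hg => ?_⟩
      have h := hf.tors 0 g hg
      rw [pow_zero, one_smul] at h
      change f 0 g - 0 = d.C.act g 0 - 0
      rw [h, map_zero]
    · intro n
      have e := (cl_nsmul (⟨f (n + 1), hmem (n + 1)⟩ : SelG (Ω := Ω) d.C) 2).symm
      refine e.trans ((cl_eq _ _).2 ?_)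
      obtain ⟨Q, hQ, h⟩ := hf.comp n
      exact ⟨Q, ⟨n, hQ⟩, fun g hg => h g hg⟩
    · intro n
      rw [hit]
      refine (smul_cl (γ ^ j) (⟨f n, hmem n⟩ : SelG (Ω := Ω) d.C)).trans ((cl_eq _ _).2 ?_)
      obtain ⟨Q, hQ, h⟩ := hinv n
      exact ⟨Q, ⟨n, hQ⟩, fun g hg => h g hg⟩
  obtain ⟨R, ⟨m, hm2⟩, hR⟩ := (cl_eq _ _).1 key
  have hR' : ∀ g ∈ NN k Ω, f n g = d.C.act g R - R := by
    intro g hg
    have h := hR g hg
    change f n g - 0 = _ at h
    rwa [sub_zero] at h
  refine ⟨R, ?_, hR'⟩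
  have h2 : (2 ^ n : ℕ) • R = 0 ∨ (2 ^ n : ℕ) • R = d.C.T Ω := by
    refine tors_pow_K d m (P := (2 ^ n : ℕ) • R) ?_ ?_
    · rw [smul_comm, hm2, smul_zero]
    · intro g hg
      have h := hf.tors n g hg
      rw [hR' g hg, smul_sub, ← map_nsmul] at h
      exact sub_eq_zero.1 h
  rw [pow_succ', mul_nsmul']
  rcases h2 with h | h
  · rw [h, smul_zero]
  · rw [h, two_T]

end TE
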