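import Pool.Agent.TE.V15

set_option autoImplicit false

open scoped Classical

namespace TE

/-! ## [TF-V19] relations satisfying `StarM` exist (finite combinatorics) -/

/-- For `m ≥ 2` there are odd `n₁, n₂` not divisible by `3` with `n₁ + n₂ = 4m`: `(1, 4m - 1)` if `4m ≢ 1 mod 3`, `(5, 4m - 5)` if `4m ≡ 1 mod 3` (then `m ≥ 4`). -/
theorem exists_two_odd (m : ℕ) (hm : 2 ≤ m) : ∃ a b : ℕ, Odd a ∧ Odd b ∧ ¬ 3 ∣ a ∧ ¬ 3 ∣ b ∧ a + b = 4 * m := by
  by_cases h : 4 * m % 3 = 1
  · refine ⟨5, 4 * m - 5, by decide, ?_, by decide, ?_, ?_⟩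
    · rw [Nat.odd_iff]; omega
    · omega
    · omega
  · refine ⟨1, 4 * m - 1, by decide, ?_, by decide, ?_, ?_⟩
    · rw [Nat.odd_iff]; omega
    · omega
    · omega

theorem v19_gen {n : ℕ} [NeZero n] {q : ℕ} (hq : Nat.Coprime q n) (f : ZMod n → ZMod 2)
    (h : ∀ i, f (i + (q : ZMod n)) = f i) : ∀ i, f i = f 0 := by
  have h1 : ∀ (k : ℕ) (i : ZMod n), f (i + (k : ZMod n) * (q : ZMod n)) = f i := by
    intro k
    induction k with
    | zero => intro i; simp
    | succ k ih =>
      intro i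
      have e : i + ((k + 1 : ℕ) : ZMod n) * (q : ZMod n) =
          (i + (k : ZMod n) * (q : ZMod n)) + (q : ZMod n) := by
        push_cast; ring
      rw [e, h, ih]
  intro i
  have hu : (q : ZMod n) * (q : ZMod n)⁻¹ = 1 := ZMod.coe_mul_inv_eq_one q hq
  have h2 := h1 ((i * (q : ZMod n)⁻¹).val) 0
  have e : (0 : ZMod n) + ((i * (q : ZMod n)⁻¹).val : ZMod n) * (q : ZMod n) = i := by
    rw [ZMod.natCast_zmod_val]
    linear_combination i * hu
  rw [e] at h2
  exact h2

theorem v19_three (x : ZMod 2) : x = x + x + x := by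
  revert x; decide

theorem v19_two (x : ZMod 2) : x + x = 0 := by
  revert x; decide

theorem v19_cases (x : ZMod 2) : x = 0 ∨ x = 1 := by
  revert x; decide

/-- functions on `ZMod n`, `n` odd and prime to `3`: `f (i - 1) + f i + f (i + 1) = c` for all `i` implies `f = c`. (`f (i + 3) = f i`, and `3` generates `ZMod n`, so `f` is constant, `3 f = f`.) -/
theorem cyc3 {n : ℕ} (ho : Odd n) (h3 : ¬ 3 ∣ n) (f : ZMod n → ZMod 2) (c : ZMod 2)
    (h : ∀ i, f (i - 1) + f i + f (i + 1) = c) : ∀ i, f i = c := by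
  have hn : NeZero n := ⟨by rintro rfl; exact absurd ho (by decide)⟩
  have hq : Nat.Coprime 3 n := (Nat.Prime.coprime_iff_not_dvd Nat.prime_three).mpr h3
  have hper : ∀ i, f (i + ((3 : ℕ) : ZMod n)) = f i := by
    intro i
    have h1 := h (i + 1)
    have h2 := h (i + 2)
    have e1 : i + 1 - 1 = i := by ring
    have e2 : i + 1 + 1 = i + 2 := by ring
    have e3 : i + 2 - 1 = i + 1 := by ring
    have e4 : i + 2 + 1 = i + ((3 : ℕ) : ZMod n) := by push_cast; ring
    rw [e1, e2] at h1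
    rw [e3, e4] at h2
    linear_combination h2 - h1
  have hc := v19_gen hq f hper
  intro i
  have h1 := h i
  rw [hc (i - 1), hc i, hc (i + 1)] at h1
  rw [hc i, ← h1]
  exact v19_three (f 0)

/-- `f (i - 1) + f (i + 1) = c` for all `i` implies `c = 0` (sum over `i`: `0 = n c = c`) and `f` is constant (`f (i + 2) = f i`, `2` generates `ZMod n`, `n` odd). -/
theorem cyc2 {n : ℕ} (ho : Odd n) (f : ZMod n → ZMod 2) (c : ZMod 2)
    (h : ∀ i, f (i - 1) + f (i + 1) = c) : c = 0 ∧ ∀ i, f i = f 0 := by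
  have hn : NeZero n := ⟨by rintro rfl; exact absurd ho (by decide)⟩
  have hq : Nat.Coprime 2 n := Nat.coprime_two_left.mpr ho
  have hc0 : c = 0 := by
    have h1 : ∑ i : ZMod n, (f (i - 1) + f (i + 1)) = ∑ _i : ZMod n, c :=
      Finset.sum_congr rfl fun i _ => h i
    rw [Finset.sum_add_distrib, Finset.sum_const, Finset.card_univ, ZMod.card, nsmul_eq_mul,
      (ZMod.natCast_eq_one_iff_odd).mpr ho, one_mul] at h1
    have h2 : ∑ i : ZMod n, f (i - 1) = ∑ i : ZMod n, f i :=
      Equiv.sum_comp (Equiv.subRight (1 : ZMod n)) f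
    have h3 : ∑ i : ZMod n, f (i + 1) = ∑ i : ZMod n, f i :=
      Equiv.sum_comp (Equiv.addRight (1 : ZMod n)) f
    rw [h2, h3] at h1
    rw [← h1]
    exact v19_two _
  refine ⟨hc0, ?_⟩
  have hper : ∀ i, f (i + ((2 : ℕ) : ZMod n)) = f i := by
    intro i
    have h1 := h (i + 1)
    have e1 : i + 1 - 1 = i := by ring
    have e2 : i + 1 + 1 = i + ((2 : ℕ) : ZMod n) := by push_cast; ring
    rw [e1, e2, hc0] at h1
    have h2 := v19_two (f i)
    linear_combination h1 - h2
  exact v19_gen hq f hper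

/-- indicator function -/
noncomputable def v19_ind {R : Type*} (S : Finset R) (r : R) : ZMod 2 := if r ∈ S then 1 else 0

theorem v19_pos {R : Type*} {S : Finset R} {r : R} (h : r ∈ S) : v19_ind S r = 1 := if_pos h

theorem v19_neg {R : Type*} {S : Finset R} {r : R} (h : r ∉ S) : v19_ind S r = 0 := if_neg h

theorem v19_mem {R : Type*} (S : Finset R) (r : R) : r ∈ S ↔ v19_ind S r = 1 := by
  by_cases h : r ∈ S
  · simp [v19_pos h, h]
  · simp [v19_neg h, h]

theorem v19_card {R : Type*} [Fintype R] (S : Finset R) :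
    ((S.card : ℕ) : ZMod 2) = ∑ r, v19_ind S r := by
  unfold v19_ind
  rw [Finset.sum_ite_mem, Finset.univ_inter, Finset.sum_const, nsmul_eq_mul, mul_one]

theorem v19_fil {R : Type*} [Fintype R] (S : Finset R) (P : R → Prop) (G : R → ZMod 2)
    (hG : ∀ r, P r ↔ G r = 1) :
    (((S.filter (fun r => P r)).card : ℕ) : ZMod 2) = ∑ r, v19_ind S r * G r := by
  rw [v19_card]
  apply Finset.sum_congr rfl
  intro r _
  by_cases h1 : r ∈ S
  · by_cases h2 : P r
    · rw [v19_pos (Finset.mem_filter.mpr ⟨h1, h2⟩), v19_pos h1, (hG r).mp h2, one_mul]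
    · have h3 : G r = 0 := by
        rcases v19_cases (G r) with h | h
        · exact h
        · exact absurd ((hG r).mpr h) h2
      rw [v19_neg (fun h => h2 (Finset.mem_filter.mp h).2), h3, mul_zero]
  · rw [v19_neg (fun h => h1 (Finset.mem_filter.mp h).1), v19_neg h1, zero_mul]

theorem v19_tr {R R' : Type*} [Fintype R] [Fintype R'] (M : R → R' → Prop) (G : R → R' → ZMod 2)
    (hG : ∀ r δ, M r δ ↔ G r δ = 1) (S : Finset R) (δ : R') :
    v19_ind (trM M S) δ = ∑ r, v19_ind S r * G r δ := by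
  have h1 := v19_fil S (fun r => M r δ) (fun r => G r δ) (fun r => hG r δ)
  rw [← h1]
  rcases Nat.even_or_odd (S.filter (fun r => M r δ)).card with h | h
  · rw [(ZMod.natCast_eq_zero_iff_even).mpr h]
    apply v19_neg
    intro h'
    exact (Nat.not_odd_iff_even.mpr h) (Finset.mem_filter.mp h').2
  · rw [(ZMod.natCast_eq_one_iff_odd).mpr h]
    exact v19_pos (Finset.mem_filter.mpr ⟨Finset.mem_univ _, h⟩)

/-- the kernel on one block -/
noncomputable def v19_k {n : ℕ} (i j : ZMod n) : ZMod 2 :=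
  (if i = j then 1 else 0) + (if i = j - 1 then 1 else 0) + (if i = j + 1 then 1 else 0)

theorem v19_k_symm {n : ℕ} (i j : ZMod n) : v19_k i j = v19_k j i := by
  unfold v19_k
  have e1 : (i = j) ↔ (j = i) := eq_comm
  have e2 : (i = j - 1) ↔ (j = i + 1) := by
    constructor
    · intro h; rw [h]; ring
    · intro h; rw [h]; ring
  have e3 : (i = j + 1) ↔ (j = i - 1) := by
    constructor
    · intro h; rw [h]; ring
    · intro h; rw [h]; ring
  simp only [e1, e2, e3]
  ring

theorem v19_k_sum {n : ℕ} [NeZero n] (f : ZMod n → ZMod 2) (j : ZMod n) :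
    ∑ i, f i * v19_k i j = f (j - 1) + f j + f (j + 1) := by
  unfold v19_k
  simp only [mul_add, Finset.sum_add_distrib, mul_ite, mul_one, mul_zero, Finset.sum_ite_eq',
    Finset.mem_univ, if_true]
  ring

/-- the kernel on both blocks -/
noncomputable def v19_g {a b : ℕ} : ZMod a ⊕ ZMod b → ZMod a ⊕ ZMod b → ZMod 2
  | Sum.inl i, Sum.inl j => v19_k i j
  | Sum.inr i, Sum.inr j => v19_k i j
  | _, _ => 0

theorem v19_g_symm {a b : ℕ} (x y : ZMod a ⊕ ZMod b) : v19_g x y = v19_g y x := by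
  rcases x with i | i <;> rcases y with j | j
  · exact v19_k_symm i j
  · rfl
  · rfl
  · exact v19_k_symm i j

/-- the operator -/
noncomputable def v19_T {a b : ℕ} [NeZero a] [NeZero b] (F : ZMod a ⊕ ZMod b → ZMod 2)
    (y : ZMod a ⊕ ZMod b) : ZMod 2 := ∑ x, F x * v19_g x y

theorem v19_T_inl {a b : ℕ} [NeZero a] [NeZero b] (F : ZMod a ⊕ ZMod b → ZMod 2) (j : ZMod a) :
    v19_T F (Sum.inl j) = F (Sum.inl (j - 1)) + F (Sum.inl j) + F (Sum.inl (j + 1)) := by
  unfold v19_T
  rw [Fintype.sum_sum_type]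
  have h1 : ∑ i : ZMod a, F (Sum.inl i) * v19_g (b := b) (Sum.inl i) (Sum.inl j) =
      ∑ i : ZMod a, (fun i => F (Sum.inl i)) i * v19_k i j := rfl
  have h2 : ∑ i : ZMod b, F (Sum.inr i) * v19_g (a := a) (Sum.inr i) (Sum.inl j) = 0 :=
    Finset.sum_eq_zero fun i _ => mul_zero _
  rw [h1, h2, v19_k_sum, add_zero]

theorem v19_T_inr {a b : ℕ} [NeZero a] [NeZero b] (F : ZMod a ⊕ ZMod b → ZMod 2) (j : ZMod b) :
    v19_T F (Sum.inr j) = F (Sum.inr (j - 1)) + F (Sum.inr j) + F (Sum.inr (j + 1)) := by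
  unfold v19_T
  rw [Fintype.sum_sum_type]
  have h1 : ∑ i : ZMod b, F (Sum.inr i) * v19_g (a := a) (Sum.inr i) (Sum.inr j) =
      ∑ i : ZMod b, (fun i => F (Sum.inr i)) i * v19_k i j := rfl
  have h2 : ∑ i : ZMod a, F (Sum.inl i) * v19_g (b := b) (Sum.inl i) (Sum.inr j) = 0 :=
    Finset.sum_eq_zero fun i _ => mul_zero _
  rw [h1, h2, v19_k_sum, zero_add]

/-- the square plus the identity on a block -/
theorem v19_sq {n : ℕ} (ho : Odd n) (f : ZMod n → ZMod 2) (c : ZMod 2)
    (h : ∀ j, (f (j - 1 - 1) + f (j - 1) + f (j - 1 + 1)) + (f (j - 1) + f j + f (j + 1)) +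
      (f (j + 1 - 1) + f (j + 1) + f (j + 1 + 1)) = f j + c) : ∀ j, f j = f 0 := by
  have h1 : ∀ j, (fun i => f (i - 1) + f (i + 1)) (j - 1) + (fun i => f (i - 1) + f (i + 1)) (j + 1)
      = c := by
    intro j
    have h2 := h j
    have h3 := v19_two (f (j - 1))
    have h4 := v19_two (f (j + 1))
    show f (j - 1 - 1) + f (j - 1 + 1) + (f (j + 1 - 1) + f (j + 1 + 1)) = c
    linear_combination h2 - h3 - h4
  obtain ⟨_, h5⟩ := cyc2 ho (fun i => f (i - 1) + f (i + 1)) c h1
  obtain ⟨_, h6⟩ := cyc2 ho f _ h5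
  exact h6

theorem v19_const {a b : ℕ} [NeZero a] [NeZero b] (ha : Odd a) (hb : Odd b) (ha3 : ¬ 3 ∣ a)
    (hb3 : ¬ 3 ∣ b) (F : ZMod a ⊕ ZMod b → ZMod 2) (hF : ∑ x, F x = 0) (c : ZMod 2)
    (h : (∀ x, v19_T (v19_T F) x = c) ∨ (∀ x, v19_T (v19_T F) x = F x + c)) :
    ∀ x, F x = F (Sum.inl 0) := by
  rcases h with h | h
  · have h1 : ∀ j : ZMod a, v19_T F (Sum.inl j) = c :=
      cyc3 ha ha3 (fun j => v19_T F (Sum.inl j)) c fun j => by
        rw [← h (Sum.inl j), v19_T_inl (v19_T F)]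
    have h2 : ∀ j : ZMod b, v19_T F (Sum.inr j) = c :=
      cyc3 hb hb3 (fun j => v19_T F (Sum.inr j)) c fun j => by
        rw [← h (Sum.inr j), v19_T_inr (v19_T F)]
    have h3 : ∀ j : ZMod a, F (Sum.inl j) = c :=
      cyc3 ha ha3 (fun j => F (Sum.inl j)) c fun j => by
        rw [← h1 j, v19_T_inl]
    have h4 : ∀ j : ZMod b, F (Sum.inr j) = c :=
      cyc3 hb hb3 (fun j => F (Sum.inr j)) c fun j => by
        rw [← h2 j, v19_T_inr]
    intro x
    rcases x with j | j
    · rw [h3, h3]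
    · rw [h4, h3]
  · have h1 : ∀ j : ZMod a, F (Sum.inl j) = F (Sum.inl 0) :=
      v19_sq ha (fun j => F (Sum.inl j)) c fun j => by
        have := h (Sum.inl j)
        rw [v19_T_inl, v19_T_inl, v19_T_inl, v19_T_inl] at this
        exact this
    have h2 : ∀ j : ZMod b, F (Sum.inr j) = F (Sum.inr 0) :=
      v19_sq hb (fun j => F (Sum.inr j)) c fun j => by
        have := h (Sum.inr j)
        rw [v19_T_inr, v19_T_inr, v19_T_inr, v19_T_inr] at this
        exact this
    have h3 : F (Sum.inl 0) + F (Sum.inr 0) = 0 := by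
      rw [Fintype.sum_sum_type, Finset.sum_congr rfl fun j _ => h1 j,
        Finset.sum_congr rfl fun j _ => h2 j, Finset.sum_const, Finset.sum_const,
        Finset.card_univ, Finset.card_univ, ZMod.card, ZMod.card, nsmul_eq_mul, nsmul_eq_mul,
        (ZMod.natCast_eq_one_iff_odd).mpr ha, (ZMod.natCast_eq_one_iff_odd).mpr hb, one_mul,
        one_mul] at hF
      exact hF
    intro x
    rcases x with j | j
    · exact h1 j
    · rw [h2 j]
      have h4 := v19_two (F (Sum.inl 0))
      linear_combination h3 - h4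

theorem v19_CP {R R' : Type*} [Fintype R] [Fintype R'] {a b : ℕ} [NeZero a] [NeZero b]
    (e : R ≃ ZMod a ⊕ ZMod b) (e' : R' ≃ ZMod a ⊕ ZMod b) (M : R → R' → Prop)
    (hM : ∀ r δ, M r δ ↔ v19_g (e r) (e' δ) = 1) : CP M := by
  have h : ∀ δ : R', Odd (Finset.univ.filter (fun r : R => M r δ)).card := by
    intro δ
    rw [← ZMod.natCast_eq_one_iff_odd,
      v19_fil Finset.univ (fun r => M r δ) (fun r => v19_g (e r) (e' δ)) (fun r => hM r δ)]
    have h1 : ∀ r : R, v19_ind Finset.univ r * v19_g (e r) (e' δ) =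
        (fun _ => (1 : ZMod 2)) (e r) * v19_g (e r) (e' δ) := by
      intro r
      rw [v19_pos (Finset.mem_univ r)]
    rw [Finset.sum_congr rfl fun r _ => h1 r]
    have h2 : ∑ r : R, (fun _ => (1 : ZMod 2)) (e r) * v19_g (e r) (e' δ) =
        v19_T (fun _ => (1 : ZMod 2)) (e' δ) :=
      Equiv.sum_comp e (fun x => (fun _ => (1 : ZMod 2)) x * v19_g x (e' δ))
    rw [h2]
    rcases e' δ with j | j
    · rw [v19_T_inl]; decide
    · rw [v19_T_inr]; decide
  intro δ δ'
  exact ⟨fun _ => h δ', fun _ => h δ⟩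

/-- Proof. Let `n₁ = a`, `n₂ = b` as in `exists_two_odd`; identify `R` and `R'` with `ZMod a ⊕ ZMod b` (`Fintype.equivOfCardEq`), let `M i j` mean that `i`, `j` are in the same block and `j = i ∨ j = i + 1 ∨ j = i - 1`. As `a`, `b` are `1` or
at least `5`, each row and column has `1` or `3` elements: an odd number (`CP`). In terms of indicator functions (values in `ZMod 2`) `trM M` is `(T f) j = f (j - 1) + f j + f (j + 1)` on each block (for `n = 1` this is `3 f j = f j`, correct), and the same for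
the transposed relation. Let `S` be even with indicator function `f`, `f₁`, `f₂` on the blocks.
If `trM Mᵗ (trM M S) ∈ {∅, univ}`: `T (T f) = c` constant. By `cyc3` `T f = c` on both blocks and then `f = c`, i.e. `S ∈ {∅, univ}`.
If `trM Mᵗ (trM M S) ∈ {S, Sᶜ}`: `T (T f) + f = c`, and `T = 1 + X`, `(X f) j = f (j - 1) + f (j + 1)`, `T² + 1 = X²`: `X (X f) = c`. By `cyc2`, `X f` is constant on each block, and by `cyc2` again this constant is `0` and `f` is constant on each block,
`f₁ = b₁`, `f₂ = b₂`. `S` is even: `a b₁ + b b₂ = b₁ + b₂ = 0`, so `b₁ = b₂` and `S ∈ {∅, univ}`. -/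
theorem exists_starM (m : ℕ) (hm : 2 ≤ m) {R R' : Type*} [Fintype R] [Fintype R'] (hR : Fintype.card R = 4 * m)
    (hR' : Fintype.card R' = 4 * m) :
    ∃ M : R → R' → Prop, CP M ∧ CP (fun (δ : R') (r : R) => M r δ) ∧ StarM M := by
  obtain ⟨a, b, ha, hb, ha3, hb3, hab⟩ := exists_two_odd m hm
  have hna : NeZero a := ⟨by rintro rfl; exact absurd ha (by decide)⟩
  have hnb : NeZero b := ⟨by rintro rfl; exact absurd hb (by decide)⟩
  have hcard : Fintype.card (ZMod a ⊕ ZMod b) = 4 * m := by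
    rw [Fintype.card_sum, ZMod.card, ZMod.card, hab]
  let e : R ≃ ZMod a ⊕ ZMod b := Fintype.equivOfCardEq (hR.trans hcard.symm)
  let e' : R' ≃ ZMod a ⊕ ZMod b := Fintype.equivOfCardEq (hR'.trans hcard.symm)
  refine ⟨fun r δ => v19_g (e r) (e' δ) = 1, v19_CP e e' _ fun r δ => Iff.rfl,
    v19_CP e' e _ fun δ r => by rw [v19_g_symm], ?_⟩
  · intro S hS hne hnu
    set F : ZMod a ⊕ ZMod b → ZMod 2 := fun x => v19_ind S (e.symm x) with hF
    have hFe : ∀ r, F (e r) = v19_ind S r := by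
      intro r
      rw [hF]
      show v19_ind S (e.symm (e r)) = v19_ind S r
      rw [Equiv.symm_apply_apply]
    have hsum : ∑ x, F x = 0 := by
      rw [← e.sum_comp F, Finset.sum_congr rfl fun r _ => hFe r, ← v19_card]
      exact (ZMod.natCast_eq_zero_iff_even).mpr hS
    have h1 : ∀ δ, v19_ind (trM (fun (r : R) (δ : R') => v19_g (e r) (e' δ) = 1) S) δ =
        v19_T F (e' δ) := by
      intro δ
      rw [v19_tr _ (fun (r : R) (δ : R') => v19_g (e r) (e' δ)) (fun r δ => Iff.rfl) S δ]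
      have h2 : ∑ r : R, F (e r) * v19_g (e r) (e' δ) = v19_T F (e' δ) :=
        e.sum_comp (fun x => F x * v19_g x (e' δ))
      rw [← h2]
      exact Finset.sum_congr rfl fun r _ => by rw [hFe]
    have h3 : ∀ r, v19_ind (trM (fun (δ : R') (r : R) => v19_g (e r) (e' δ) = 1)
        (trM (fun (r : R) (δ : R') => v19_g (e r) (e' δ) = 1) S)) r = v19_T (v19_T F) (e r) := by
      intro r
      rw [v19_tr _ (fun (δ : R') (r : R) => v19_g (e r) (e' δ)) (fun r δ => Iff.rfl) _ r]
      have h2 : ∑ δ : R', v19_T F (e' δ) * v19_g (e' δ) (e r) = v19_T (v19_T F) (e r) :=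
        e'.sum_comp (fun x => v19_T F x * v19_g x (e r))
      rw [← h2]
      exact Finset.sum_congr rfl fun δ _ => by rw [h1, v19_g_symm]
    have hfin : ∀ c : ZMod 2, ((∀ x, v19_T (v19_T F) x = c) ∨
        (∀ x, v19_T (v19_T F) x = F x + c)) → False := by
      intro c hc
      have h4 := v19_const ha hb ha3 hb3 F hsum c hc
      rcases v19_cases (F (Sum.inl 0)) with h5 | h5
      · apply hne
        rw [Finset.eq_empty_iff_forall_notMem]
        intro r hr
        rw [v19_mem, ← hFe, h4, h5] at hr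
        exact absurd hr (by decide)
      · apply hnu
        rw [Finset.eq_univ_iff_forall]
        intro r
        rw [v19_mem, ← hFe, h4, h5]
    have hall : ∀ x, v19_T (v19_T F) x = v19_T (v19_T F) (e (e.symm x)) := by
      intro x; rw [Equiv.apply_symm_apply]
    refine ⟨?_, ?_, ?_, ?_⟩
    · intro h
      apply hfin 0
      left
      intro x
      rw [hall, ← h3, h]
      rfl
    · intro h
      apply hfin 1
      left
      intro x
      rw [hall, ← h3, h]
      simp [v19_ind]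
    · intro h
      apply hfin 0
      right
      intro x
      rw [hall, ← h3, h, add_zero]
    · intro h
      apply hfin 1
      right
      intro x
      rw [hall, ← h3, h]
      show v19_ind Sᶜ (e.symm x) = v19_ind S (e.symm x) + 1
      by_cases hx : e.symm x ∈ S
      · rw [v19_pos hx, v19_neg (fun h => (Finset.mem_compl.mp h) hx)]; decide
      · rw [v19_neg hx, v19_pos (Finset.mem_compl.mpr hx)]; decide

end TE
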