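import Pool.Agent.TE.V1
import Pool.Agent.TE.L1
import Pool.Agent.TE.L2
import Pool.Agent.TE.K1

set_option autoImplicit false

open scoped Classical Polynomial

namespace TE

/-! ## [TF-V2] the signs of conjugate elements of a decomposition group -/

variable {k Ω : Type*} [Field k] [Field Ω] [Algebra k Ω] [Algebra (RatFunc k) Ω] [IsScalarTower k (RatFunc k) Ω]
  [IsSepClosure (RatFunc k) Ω]

/-- `NN_conj` with `γ = ρ⁻¹` -/
theorem NN_conj' {ρ τ : Gm k Ω} (hτ : τ ∈ NN k Ω) : ρ * τ * ρ⁻¹ ∈ NN k Ω := by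
  have h := NN_conj (γ := ρ⁻¹) hτ
  rwa [inv_inv] at h

/-- Let `ρ ∈ Γ`, `τ ∈ N` stabilize the place `O`, `Z ≠ 0`, `τ Z = ε Z`, `(ρ τ ρ⁻¹) Z = ε' Z` with signs `ε`, `ε'`. Then `ε = ε'`.

Proof. `u = ρ⁻¹ Z / Z` is a unit of `O` (`stb_unit`, `stb_inv`). From `ρ⁻¹ Z = u Z`: `Z = ρ(u) ρ(Z)`. So
`ε' Z = ρ τ ρ⁻¹ Z = ρ (τ u * ε Z) = ε ρ(τ u) ρ(Z) = ε ρ(τ u / u) Z`, hence `ρ (τ u / u) = ε ε' = ± 1` and `τ u = ± u` (`ρ` fixes `±1`; `ε² = 1`). As `u²` is a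
unit and `τ` acts trivially on the residue field (`res_trivial`, `two_uni`), `local_unit` gives `τ u = u`, so `ρ(1) = 1 = ε ε'`. -/
theorem conj_sign (h2 : (2 : k) ≠ 0) {O : ValuationSubring Ω} (hO : Pl k O) {ρ τ : Gm k Ω} (hρ : Stb O ρ)
    (hτN : τ ∈ NN k Ω) (hτ : Stb O τ) {Z ε ε' : Ω} (hZ : Z ≠ 0) (hε : ε = 1 ∨ ε = -1) (hε' : ε' = 1 ∨ ε' = -1)
    (h1 : τ Z = ε * Z) (h2' : (ρ * τ * ρ⁻¹) Z = ε' * Z) : ε = ε' := by
  obtain ⟨u, hu⟩ : ∃ u, u = ρ⁻¹ Z / Z := ⟨_, rfl⟩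
  have huU : Uni O u := by rw [hu]; exact stb_unit (stb_inv hρ) hZ
  have hu0 : u ≠ 0 := huU.2.2
  have huZ : ρ⁻¹ Z = u * Z := by rw [hu, div_mul_cancel₀ _ hZ]
  have hρinv : ∀ x : Ω, ρ (ρ⁻¹ x) = x := by
    intro x
    rw [← AlgEquiv.mul_apply, mul_inv_cancel]
    rfl
  -- `τ u * ε = ε' * u`
  have h3 : ρ⁻¹ ((ρ * τ * ρ⁻¹) Z) = ρ⁻¹ (ε' * Z) := by rw [h2']
  have h4 : ρ⁻¹ ((ρ * τ * ρ⁻¹) Z) = τ (ρ⁻¹ Z) := by
    rw [AlgEquiv.mul_apply, AlgEquiv.mul_apply, ← AlgEquiv.mul_apply, inv_mul_cancel]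
    rfl
  have h5 : ρ⁻¹ ε' = ε' := by
    rcases hε' with h | h
    · rw [h, map_one]
    · rw [h, map_neg, map_one]
  rw [h4, huZ, map_mul, map_mul, h1, h5, huZ] at h3
  have h6 : τ u * ε = ε' * u := by
    have h7 : (τ u * ε) * Z = (ε' * u) * Z := by
      calc (τ u * ε) * Z = τ u * (ε * Z) := by ring
        _ = ε' * (u * Z) := h3
        _ = (ε' * u) * Z := by ring
    exact mul_right_cancel₀ hZ h7
  have h8 : τ u = u ∨ τ u = -u := by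
    rcases hε with h | h <;> rcases hε' with h' | h' <;> rw [h, h'] at h6
    · left; linear_combination h6
    · right; linear_combination h6
    · right; linear_combination -h6
    · left; linear_combination -h6
  have hu2 : Uni O (u ^ 2) := by
    obtain ⟨a1, a2, a3⟩ := huU
    refine ⟨pow_mem a1 2, ?_, pow_ne_zero 2 a3⟩
    rw [← inv_pow]
    exact pow_mem a2 2
  have h9 : τ u = u := local_unit O (two_uni h2 O hO) τ (res_trivial O hO τ hτN hτ) u hu2 h8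
  rw [h9, mul_comm] at h6
  exact mul_right_cancel₀ hu0 h6

end TE
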