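import Pool.Agent.TE.Base3
import Pool.Agent.TE.V13
import Pool.Agent.TE.V19

set_option autoImplicit false

open WeierstrassCurve.Affine
open scoped Classical Polynomial

namespace TE

/-! ## [TF-V20] a large Galois group contains an element satisfying `Star` -/

theorem V20_star {R R' : Type*} [Fintype R] [Fintype R'] {M : R → R' → Prop} (hs : StarM M) (S : Finset R)
    (he : Even S.card) (h1 : S ≠ ∅) (h2 : S ≠ Finset.univ) :
    trM (fun δ r => M r δ) (trM M S) ≠ ∅ ∧ trM (fun δ r => M r δ) (trM M S) ≠ Finset.univ ∧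
      trM (fun δ r => M r δ) (trM M S) ≠ S ∧ ¬ ∀ r, r ∈ trM (fun δ r => M r δ) (trM M S) ↔ r ∉ S := by
  obtain ⟨a, b, c, d⟩ := hs S he h1 h2
  refine ⟨a, b, c, fun h => d (Finset.ext (fun r => ?_))⟩
  rw [h r, Finset.mem_compl]

variable {k Ω : Type*} [Field k] [Field Ω] [Algebra k Ω] [Algebra (RatFunc k) Ω] [IsScalarTower k (RatFunc k) Ω]
  [IsSepClosure (RatFunc k) Ω]

/-- Proof. `M` from `exists_starM` for `R = RT B`, `R' = RT D` (`card_RT`, `d.sepB`, `d.degB`, `d.sepD`, `d.degD`: both have `4m` elements). Let `M' r δ := ∃ (hr : r ∈ rts B) (hδ : δ ∈ rts D), M ⟨r, hr⟩ ⟨δ, hδ⟩` for `r, δ ∈ Ω`. `CP` gives the two parity hypotheses of `Big`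
(compare cardinalities of filters of `univ` and of `rts`), so there is `γ` fixing the roots with `Mv γ r δ ↔ M' r δ`. `Star`: a set `S ⊆ rts B` is `vS S₀`; `trB (vS S₀) = vS (trM M S₀)`, `trD (vS ..) = vS (trM Mᵗ ..)` (`vS_trb`, `vS_trd` and `Mv ↔ M`), and `vS_props`. -/
theorem big_star (d : Dat k) (hm : 2 ≤ d.m) (hbig : Big d Ω) : ∃ γ : Gm k Ω, FixRts d γ ∧ Star d γ := by
  have hR : Fintype.card (RT k Ω d.B) = 4 * d.m := by rw [card_RT d.sepB, d.degB]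
  have hR' : Fintype.card (RT k Ω d.D) = 4 * d.m := by
    have h1 : d.D.Separable := d.sepD
    rw [card_RT h1]
    exact d.degD
  obtain ⟨M, hM, hM', hs⟩ := exists_starM d.m hm hR hR'
  let M' : Ω → Ω → Prop := fun r δ => ∃ (hr : r ∈ (rts k d.B : Finset Ω)) (hδ : δ ∈ (rts k d.D : Finset Ω)), M ⟨r, hr⟩ ⟨δ, hδ⟩
  have hB : ∀ (δ : Ω) (hδ : δ ∈ (rts k d.D : Finset Ω)) (i : DecidablePred (fun r => M' r δ))
      (i' : DecidablePred (fun r : RT k Ω d.B => M r ⟨δ, hδ⟩)),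
      (@Finset.filter Ω (fun r => M' r δ) i (rts k d.B : Finset Ω)).card =
        (@Finset.filter _ (fun r : RT k Ω d.B => M r ⟨δ, hδ⟩) i' Finset.univ).card := by
    intro δ hδ i i'
    rw [← (vS_props (Finset.univ.filter (fun r : RT k Ω d.B => M r ⟨δ, hδ⟩)) ∅).2.2.1]
    congr 1
    ext x
    rw [T1a_mem, Finset.mem_filter]
    constructor
    · rintro ⟨hx, hx', _, h⟩
      exact ⟨⟨x, hx⟩, Finset.mem_filter.2 ⟨Finset.mem_univ _, h⟩, rfl⟩
    · rintro ⟨r, hr, rfl⟩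
      exact ⟨r.2, r.2, hδ, (Finset.mem_filter.1 hr).2⟩
  have hD : ∀ (r : Ω) (hr : r ∈ (rts k d.B : Finset Ω)) (i : DecidablePred (fun δ => M' r δ))
      (i' : DecidablePred (fun δ : RT k Ω d.D => M ⟨r, hr⟩ δ)),
      (@Finset.filter Ω (fun δ => M' r δ) i (rts k d.D : Finset Ω)).card =
        (@Finset.filter _ (fun δ : RT k Ω d.D => M ⟨r, hr⟩ δ) i' Finset.univ).card := by
    intro r hr i i'
    rw [← (vS_props (Finset.univ.filter (fun δ : RT k Ω d.D => M ⟨r, hr⟩ δ)) ∅).2.2.1]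
    congr 1
    ext x
    rw [T1a_mem, Finset.mem_filter]
    constructor
    · rintro ⟨hx, _, hx', h⟩
      exact ⟨⟨x, hx⟩, Finset.mem_filter.2 ⟨Finset.mem_univ _, h⟩, rfl⟩
    · rintro ⟨δ, hδ, rfl⟩
      exact ⟨δ.2, hr, δ.2, (Finset.mem_filter.1 hδ).2⟩
  obtain ⟨γ, hγ, hγM⟩ := hbig M'
    (by
      intro δ hδ δ' hδ'
      rw [hB δ hδ _ (fun _ => Classical.propDecidable _), hB δ' hδ' _ (fun _ => Classical.propDecidable _)]
      exact hM ⟨δ, hδ⟩ ⟨δ', hδ'⟩)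
    (by
      intro r hr r' hr'
      rw [hD r hr _ (fun _ => Classical.propDecidable _), hD r' hr' _ (fun _ => Classical.propDecidable _)]
      exact hM' ⟨r, hr⟩ ⟨r', hr'⟩)
  have hMv : ∀ (r : RT k Ω d.B) (δ : RT k Ω d.D), Mv γ r.1 δ.1 ↔ M r δ := by
    intro r δ
    rw [hγM r.1 r.2 δ.1 δ.2]
    constructor
    · rintro ⟨_, _, h⟩
      exact h
    · intro h
      exact ⟨r.2, δ.2, h⟩
  have hE : (fun (r : RT k Ω d.B) (δ : RT k Ω d.D) => Mv γ r.1 δ.1) = M := by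
    funext r δ
    exact propext (hMv r δ)
  have hE' : (fun (δ : RT k Ω d.D) (r : RT k Ω d.B) => Mv γ r.1 δ.1) = fun δ r => M r δ := by
    funext δ r
    exact propext (hMv r δ)
  refine ⟨γ, hγ, ?_⟩
  intro S hS hev hne hne'
  obtain ⟨S₀, rfl⟩ := T1a_lift S hS
  have h1 : trB d γ (vS S₀) = vS (trM M S₀) := by
    rw [← vS_trb d γ S₀, hE]
  have h2 : trD d γ (vS (trM M S₀)) = vS (trM (fun δ r => M r δ) (trM M S₀)) := by
    rw [← vS_trd d γ (trM M S₀), hE']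
  rw [h1, h2]
  have hinj : ∀ T T' : Finset (RT k Ω d.B), vS T = vS T' → T = T' := fun T T' =>
    (vS_props T T').2.2.2.2.2.1
  have hempty : vS (∅ : Finset (RT k Ω d.B)) = ∅ := (vS_props (∅ : Finset (RT k Ω d.B)) ∅).2.2.2.2.1
  have huniv : vS (Finset.univ : Finset (RT k Ω d.B)) = rts k d.B :=
    (vS_props (∅ : Finset (RT k Ω d.B)) ∅).2.2.2.1
  have hmem : ∀ (A : Finset (RT k Ω d.B)) (r : RT k Ω d.B), r.1 ∈ vS A ↔ r ∈ A := by
    intro A r
    rw [T1a_mem]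
    constructor
    · rintro ⟨r', h1, h2⟩
      rwa [← Subtype.ext h2]
    · intro h
      exact ⟨r, h, rfl⟩
  obtain ⟨s1, s2, s3, s4⟩ := V20_star hs S₀ (by rwa [(vS_props S₀ S₀).2.2.1] at hev)
    (fun h => hne (by rw [h, hempty])) (fun h => hne' (by rw [h, huniv]))
  refine ⟨fun h => s1 (hinj _ _ (by rw [h, hempty])), fun h => s2 (hinj _ _ (by rw [h, huniv])),
    fun h => s3 (hinj _ _ h), fun h => s4 (fun r => ?_)⟩
  rw [← hmem, h, Finset.mem_sdiff, hmem]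
  exact ⟨fun h => h.2, fun h => ⟨r.2, h⟩⟩

end TE
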