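import Mathlib

set_option autoImplicit false

open scoped Classical

namespace TE

/-! ## [TF-V21] invariant sets of matrices over `F₂` (only Mathlib) -/

private noncomputable def ee21 {S : Type*} (a b : S) (s : S) : ZMod 2 :=
  (if s = a then 1 else 0) + (if s = b then 1 else 0)

private lemma exists_notMem21 {S : Type*} [Fintype S] (T : Finset S) (h : T.card < Fintype.card S) :
    ∃ x, x ∉ T := by
  by_contra hh
  push Not at hh
  have : T = Finset.univ := Finset.eq_univ_iff_forall.mpr hh
  rw [this, Finset.card_univ] at h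
  omega

private lemma swap2_mem21 {S : Type*} [Fintype S] {a b c d : S} (h : a ≠ b) (h' : c ≠ d) :
    Equiv.swap a b * Equiv.swap c d ∈ alternatingGroup S := by
  rw [Equiv.Perm.mem_alternatingGroup, Equiv.Perm.sign_mul, Equiv.Perm.sign_swap h, Equiv.Perm.sign_swap h']
  rfl

private lemma step21 {R R' : Type*} [Fintype R'] (hR' : 8 ≤ Fintype.card R') (U : (R → R' → ZMod 2) → Prop)
    (hadd : ∀ m m', U m → U m' → U (fun r s => m r s + m' r s))
    (hperm : ∀ τ ∈ alternatingGroup R', ∀ m, U m → U (fun r s => m r (τ s)))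
    (m : R → R' → ZMod 2) (hm : U m) (c d : R') (hcd : c ≠ d) :
    ∃ x, x ≠ d ∧ U (fun r s => (m r c + m r d) * ee21 d x s) := by
  obtain ⟨f, hf⟩ := exists_notMem21 ({c, d} : Finset R') (by
    have := Finset.card_le_two (a := c) (b := d); omega)
  obtain ⟨g, hg⟩ := exists_notMem21 ({c, d, f} : Finset R') (by
    have := Finset.card_le_three (a := c) (b := d) (c := f); omega)
  obtain ⟨x, hx⟩ := exists_notMem21 ({c, d, f, g} : Finset R') (by
    have := Finset.card_le_four (a := c) (b := d) (c := f) (d := g); omega)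
  obtain ⟨y, hy⟩ := exists_notMem21 ({c, d, f, g, x} : Finset R') (by
    have := Finset.card_le_five (a := c) (b := d) (c := f) (d := g) (e := x); omega)
  obtain ⟨z, hz⟩ := exists_notMem21 ({c, d, f, g, x, y} : Finset R') (by
    have := Finset.card_le_six (a := c) (b := d) (c := f) (d := g) (e := x) (f := y); omega)
  simp only [Finset.mem_insert, Finset.mem_singleton, not_or] at hf hg hx hy hz
  obtain ⟨hfc, hfd⟩ := hf
  obtain ⟨hgc, hgd, hgf⟩ := hg
  obtain ⟨hxc, hxd, hxf, hxg⟩ := hx
  obtain ⟨hyc, hyd, hyf, hyg, hyx⟩ := hy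
  obtain ⟨hzc, hzd, hzf, hzg, hzx, hzy⟩ := hz
  refine ⟨x, hxd, ?_⟩
  have h1 := hadd _ _ hm (hperm _ (swap2_mem21 hcd (Ne.symm hgf)) m hm)
  have h2 := hadd _ _ h1 (hperm _ (swap2_mem21 (Ne.symm hxd) (Ne.symm hzy)) _ h1)
  have hself : ∀ t : ZMod 2, t + t = 0 := fun t => CharTwo.add_self_eq_zero t
  have key : (fun r s => (m r c + m r d) * ee21 d x s) = (fun r s =>
      (m r s + m r ((Equiv.swap c d * Equiv.swap f g) s)) +
        (m r ((Equiv.swap d x * Equiv.swap y z) s) +
          m r ((Equiv.swap c d * Equiv.swap f g) ((Equiv.swap d x * Equiv.swap y z) s)))) := by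
    funext r s
    simp only [ee21, Equiv.Perm.mul_apply]
    by_cases hs1 : s = c
    · subst hs1
      have e1 : Equiv.swap y z s = s := Equiv.swap_apply_of_ne_of_ne (Ne.symm hyc) (Ne.symm hzc)
      have e2 : Equiv.swap d x s = s := Equiv.swap_apply_of_ne_of_ne hcd (Ne.symm hxc)
      have e3 : Equiv.swap f g s = s := Equiv.swap_apply_of_ne_of_ne (Ne.symm hfc) (Ne.symm hgc)
      rw [e1, e2, e3, hself, if_neg hcd, if_neg (Ne.symm hxc)]
      simp
    by_cases hs2 : s = d
    · subst hs2
      have e1 : Equiv.swap y z s = s := Equiv.swap_apply_of_ne_of_ne (Ne.symm hyd) (Ne.symm hzd)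
      have e2 : Equiv.swap s x s = x := Equiv.swap_apply_left _ _
      have e3 : Equiv.swap f g s = s := Equiv.swap_apply_of_ne_of_ne (Ne.symm hfd) (Ne.symm hgd)
      have e4 : Equiv.swap f g x = x := Equiv.swap_apply_of_ne_of_ne hxf hxg
      have e5 : Equiv.swap c s x = x := Equiv.swap_apply_of_ne_of_ne hxc hxd
      have e6 : Equiv.swap c s s = c := Equiv.swap_apply_right _ _
      rw [e1, e2, e3, e4, e5, e6, hself (m r x), if_pos rfl, if_neg (Ne.symm hxd)]
      ring
    by_cases hs3 : s = x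
    · subst hs3
      have e1 : Equiv.swap y z s = s := Equiv.swap_apply_of_ne_of_ne (Ne.symm hyx) (Ne.symm hzx)
      have e2 : Equiv.swap d s s = d := Equiv.swap_apply_right _ _
      have e3 : Equiv.swap f g s = s := Equiv.swap_apply_of_ne_of_ne hxf hxg
      have e4 : Equiv.swap f g d = d := Equiv.swap_apply_of_ne_of_ne (Ne.symm hfd) (Ne.symm hgd)
      have e5 : Equiv.swap c d s = s := Equiv.swap_apply_of_ne_of_ne hxc hxd
      have e6 : Equiv.swap c d d = c := Equiv.swap_apply_right _ _
      rw [e1, e2, e3, e4, e5, e6, hself (m r s), if_neg hxd, if_pos rfl]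
      ring
    rw [if_neg hs2, if_neg hs3]
    by_cases hs4 : s = y
    · subst hs4
      have e1 : Equiv.swap s z s = z := Equiv.swap_apply_left _ _
      have e2 : Equiv.swap d x z = z := Equiv.swap_apply_of_ne_of_ne hzd hzx
      have e3 : Equiv.swap f g s = s := Equiv.swap_apply_of_ne_of_ne hyf hyg
      have e4 : Equiv.swap f g z = z := Equiv.swap_apply_of_ne_of_ne hzf hzg
      have e5 : Equiv.swap c d s = s := Equiv.swap_apply_of_ne_of_ne hyc hyd
      have e6 : Equiv.swap c d z = z := Equiv.swap_apply_of_ne_of_ne hzc hzd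
      rw [e1, e2, e3, e4, e5, e6, hself (m r s), hself (m r z)]
      ring
    by_cases hs5 : s = z
    · subst hs5
      have e1 : Equiv.swap y s s = y := Equiv.swap_apply_right _ _
      have e2 : Equiv.swap d x y = y := Equiv.swap_apply_of_ne_of_ne hyd hyx
      have e3 : Equiv.swap f g s = s := Equiv.swap_apply_of_ne_of_ne hzf hzg
      have e4 : Equiv.swap f g y = y := Equiv.swap_apply_of_ne_of_ne hyf hyg
      have e5 : Equiv.swap c d s = s := Equiv.swap_apply_of_ne_of_ne hzc hzd
      have e6 : Equiv.swap c d y = y := Equiv.swap_apply_of_ne_of_ne hyc hyd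
      rw [e1, e2, e3, e4, e5, e6, hself (m r s), hself (m r y)]
      ring
    have e1 : Equiv.swap y z s = s := Equiv.swap_apply_of_ne_of_ne hs4 hs5
    have e2 : Equiv.swap d x s = s := Equiv.swap_apply_of_ne_of_ne hs2 hs3
    rw [e1, e2, hself (m r s + m r _)]
    ring
  rw [key]
  exact h2

private lemma exists_even21 {S : Type*} [Fintype S] (hS : 8 ≤ Fintype.card S) {a b a' b' : S} (h : a ≠ b) (h' : a' ≠ b') :
    ∃ σ ∈ alternatingGroup S, σ a' = a ∧ σ b' = b := by
  obtain ⟨σ₀, h1, h2⟩ : ∃ σ₀ : Equiv.Perm S, σ₀ a' = a ∧ σ₀ b' = b := by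
    refine ⟨Equiv.swap (Equiv.swap a' a b') b * Equiv.swap a' a, ?_, ?_⟩
    · rw [Equiv.Perm.mul_apply, Equiv.swap_apply_left]
      apply Equiv.swap_apply_of_ne_of_ne _ h
      intro h3
      have h4 := congrArg (Equiv.swap a' a) h3
      rw [Equiv.swap_apply_self, Equiv.swap_apply_right] at h4
      exact h' h4
    · rw [Equiv.Perm.mul_apply, Equiv.swap_apply_left]
  rcases Int.units_eq_one_or (Equiv.Perm.sign σ₀) with hs | hs
  · exact ⟨σ₀, Equiv.Perm.mem_alternatingGroup.mpr hs, h1, h2⟩
  · obtain ⟨p, hp⟩ := exists_notMem21 ({a', b'} : Finset S) (by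
      have := Finset.card_le_two (a := a') (b := b'); omega)
    obtain ⟨q, hq⟩ := exists_notMem21 ({a', b', p} : Finset S) (by
      have := Finset.card_le_three (a := a') (b := b') (c := p); omega)
    simp only [Finset.mem_insert, Finset.mem_singleton, not_or] at hp hq
    refine ⟨σ₀ * Equiv.swap p q, ?_, ?_, ?_⟩
    · rw [Equiv.Perm.mem_alternatingGroup, Equiv.Perm.sign_mul, hs, Equiv.Perm.sign_swap (Ne.symm hq.2.2)]
      rfl
    · rw [Equiv.Perm.mul_apply, Equiv.swap_apply_of_ne_of_ne (Ne.symm hp.1) (Ne.symm hq.1), h1]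
    · rw [Equiv.Perm.mul_apply, Equiv.swap_apply_of_ne_of_ne (Ne.symm hp.2) (Ne.symm hq.2.1), h2]

private lemma ee_perm21 {S : Type*} {a b a' b' : S} (σ : Equiv.Perm S) (h1 : σ a' = a) (h2 : σ b' = b) (s : S) :
    ee21 a b (σ s) = ee21 a' b' s := by
  have e1 : (σ s = a) ↔ (s = a') := by rw [← h1]; exact σ.injective.eq_iff
  have e2 : (σ s = b) ↔ (s = b') := by rw [← h2]; exact σ.injective.eq_iff
  simp only [ee21, e1, e2]

/-- Let `U` be a set of matrices `R × R' → F₂` which is closed under addition, stable under pairs of even permutations and such that membership only depends on the `cross sums`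
`m r s + m r' s + m r s' + m r' s'`. If `U` contains a matrix with a nonzero cross sum then it contains every matrix with constant row sums and constant column sums.

Proof. Write `e_{ab} ⊗ e_{cd}` for the indicator function of `{a, b} × {c, d}` (`a ≠ b`, `c ≠ d`), `v ⊗ e_{cd}` for `(r, s) ↦ v r [s = c or s = d]`. Let `m ∈ U` have the nonzero cross sum at `a, b ∈ R`, `c, d ∈ R'` (then `a ≠ b`, `c ≠ d`).
(1) Choose `f, g, x, y, z ∈ R'` distinct from each other and from `c`, `d` (7 elements, `|R'| ≥ 8`). With `τ = (c d)(f g)`: `m₁ = m + m∘(1, τ) ∈ U`, `m₁ r s = v r` for `s = c, d`, `m₁ r s = v' r` for `s = f, g`, `0` otherwise, where `v r = m r c + m r d`, `v' r = m r f + m r g`.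
With `τ' = (d x)(y z)`: `m₂ = m₁ + m₁∘(1, τ') = v ⊗ e_{dx} ∈ U` (at `s = c`: `v + v = 0`; at `s = d`: `m₁ r d + m₁ r x = v`; at `s = x` the same; at `f`, `g`: `v' + v' = 0`; at `y`, `z`: `0`).
(2) `v a ≠ v b` (the cross sum). In the same way with `(a b)(f g)` and then `(b x)(y z)` on the rows (`f, g, x, y, z ∈ R`): `e_{bx} ⊗ e_{dx'} ∈ U`: after the first step the rows `a`, `b` are `(v a + v b) ⊗ e = e`, the rows `f`, `g` are `(v f + v g) e`.
(3) By `hperm` all `e_{ab} ⊗ e_{cd}` (`a ≠ b`, `c ≠ d`) are in `U`: for `a ≠ b`, `a' ≠ b'` there is an even permutation with `a ↦ a'`, `b ↦ b'` (compose with a transposition of two other points if necessary).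
(4) `0 ∈ U` (`m + m`). Let `m` have constant row sums `ρ` and column sums `κ`. By `hcong` we may add to `m` any function `a_r + b_s`: adding `ρ` in one column (all entries of the column `s₀`) makes the row sums `0` and does not change the column sums (`|R|` even); adding `κ` in one row
makes the column sums `0` and does not change the row sums (`|R'|` even). Now fix `r₀`, `s₀`: `m = ∑_{r ≠ r₀, s ≠ s₀} m r s (e_{r r₀} ⊗ e_{s s₀})`: both sides agree at `(r, s)` with `r ≠ r₀`, `s ≠ s₀`, and both have zero row and column sums. (Or: the cross sums of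
`∑_{r ≠ r₀, s ≠ s₀} (m r s + m r₀ s + m r s₀ + m r₀ s₀) (e_{r r₀} ⊗ e_{s s₀})` ... any argument.) So `m` is a sum of elements of `U`. -/
theorem cross_all {R R' : Type*} [Fintype R] [Fintype R'] (hR : 8 ≤ Fintype.card R) (hR' : 8 ≤ Fintype.card R')
    (hev : Even (Fintype.card R)) (hev' : Even (Fintype.card R')) (U : (R → R' → ZMod 2) → Prop)
    (hadd : ∀ m m', U m → U m' → U (fun r s => m r s + m' r s))
    (hcong : ∀ m m', (∀ r r' s s', m r s + m r' s + m r s' + m r' s' = m' r s + m' r' s + m' r s' + m' r' s') →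
      U m → U m')
    (hperm : ∀ σ ∈ alternatingGroup R, ∀ τ ∈ alternatingGroup R', ∀ m, U m → U (fun r s => m (σ r) (τ s)))
    (m0 : R → R' → ZMod 2) (h0 : U m0) (hne : ∃ r r' s s', m0 r s + m0 r' s + m0 r s' + m0 r' s' ≠ 0)
    (m : R → R' → ZMod 2) (hrow : ∀ r r', ∑ s, m r s = ∑ s, m r' s) (hcol : ∀ s s', ∑ r, m r s = ∑ r, m r s') : U m := by
  have hself : ∀ t : ZMod 2, t + t = 0 := fun t => CharTwo.add_self_eq_zero t
  have hzero : U (fun _ _ => 0) := by
    have h := hadd _ _ h0 h0
    simpa only [hself] using h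
  have hR'0 : 0 < Fintype.card R' := by omega
  obtain ⟨a, b, c, d, hne⟩ := hne
  have hab : a ≠ b := by
    rintro rfl
    apply hne
    rw [hself, zero_add, hself]
  have hcd : c ≠ d := by
    rintro rfl
    apply hne
    rw [show m0 a c + m0 b c + m0 a c + m0 b c = (m0 a c + m0 a c) + (m0 b c + m0 b c) by ring, hself, hself, add_zero]
  obtain ⟨x, hxd, h1⟩ := step21 hR' U hadd (fun τ hτ m hm => by
    have := hperm 1 (one_mem _) τ hτ m hm
    simpa using this) m0 h0 c d hcd
  obtain ⟨x', hxb, h2⟩ := step21 hR (fun m : R' → R → ZMod 2 => U (fun r s => m s r))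
    (fun m m' hm hm' => hadd _ _ hm hm') (fun σ hσ m hm => by
      have := hperm σ hσ 1 (one_mem _) _ hm
      simpa using this) (fun s r => (m0 r c + m0 r d) * ee21 d x s) h1 a b hab
  have h3 : U (fun r s => ee21 b x' r * ee21 d x s) := by
    have hv : (m0 a c + m0 a d) + (m0 b c + m0 b d) = 1 := by
      have hne' : (m0 a c + m0 a d) + (m0 b c + m0 b d) ≠ 0 := by
        intro h
        apply hne
        rw [← h]
        ring
      generalize (m0 a c + m0 a d) + (m0 b c + m0 b d) = t at hne' ⊢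
      revert t
      decide
    have hfun : (fun (r : R) (s : R') => ee21 b x' r * ee21 d x s) = (fun r s =>
        ((m0 a c + m0 a d) * ee21 d x s + (m0 b c + m0 b d) * ee21 d x s) * ee21 b x' r) := by
      funext r s
      rw [← add_mul, hv]
      ring
    rw [hfun]
    exact h2
  have h4 : ∀ (a' b' : R) (c' d' : R'), a' ≠ b' → c' ≠ d' → U (fun r s => ee21 a' b' r * ee21 c' d' s) := by
    intro a' b' c' d' hab' hcd'
    obtain ⟨σ, hσ, hσ1, hσ2⟩ := exists_even21 hR (Ne.symm hxb) hab'
    obtain ⟨τ, hτ, hτ1, hτ2⟩ := exists_even21 hR' (Ne.symm hxd) hcd'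
    have h5 := hperm σ hσ τ hτ _ h3
    simpa only [ee_perm21 σ hσ1 hσ2, ee_perm21 τ hτ1 hτ2] using h5
  have h5 : ∀ (a' b' : R) (c' d' : R') (t : ZMod 2), U (fun r s => t * (ee21 a' b' r * ee21 c' d' s)) := by
    intro a' b' c' d' t
    have ht : t = 0 ∨ t = 1 := by revert t; decide
    rcases ht with rfl | rfl
    · simpa using hzero
    · simp only [one_mul]
      by_cases hab' : a' = b'
      · subst hab'
        simpa only [ee21, hself, zero_mul] using hzero
      by_cases hcd' : c' = d'
      · subst hcd'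
        simpa only [ee21, hself, mul_zero] using hzero
      exact h4 a' b' c' d' hab' hcd'
  have h6 : ∀ (T : Finset (R × R')) (F : R × R' → R → R' → ZMod 2), (∀ p, U (F p)) →
      U (fun r s => ∑ p ∈ T, F p r s) := by
    intro T F hF
    induction T using Finset.induction_on with
    | empty => simpa using hzero
    | insert p T hp ih =>
      simp only [Finset.sum_insert hp]
      exact hadd _ _ (hF p) ih
  obtain ⟨r₀, -⟩ : ∃ r₀ : R, r₀ ∉ (∅ : Finset R) := exists_notMem21 ∅ (by simp; omega)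
  obtain ⟨s₀, -⟩ : ∃ s₀ : R', s₀ ∉ (∅ : Finset R') := exists_notMem21 ∅ (by simp; omega)
  set ρ : ZMod 2 := ∑ s, m r₀ s with hρ
  set κ : ZMod 2 := ∑ r, m r s₀ with hκ
  have hcR : ((Fintype.card R : ℕ) : ZMod 2) = 0 := by
    rw [ZMod.natCast_eq_zero_iff]
    exact hev.two_dvd
  have hcR' : ((Fintype.card R' : ℕ) : ZMod 2) = 0 := by
    rw [ZMod.natCast_eq_zero_iff]
    exact hev'.two_dvd
  let m' : R → R' → ZMod 2 := fun r s => m r s + ((if s = s₀ then ρ else 0) + (if r = r₀ then κ else 0))
  have hrow' : ∀ r, ∑ s, m' r s = 0 := by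
    intro r
    simp only [m', Finset.sum_add_distrib, Finset.sum_ite_eq', Finset.mem_univ, if_true]
    rw [hrow r r₀, ← hρ, Finset.sum_const, Finset.card_univ, nsmul_eq_mul, hcR', zero_mul, add_zero, hself]
  have hcol' : ∀ s, ∑ r, m' r s = 0 := by
    intro s
    simp only [m', Finset.sum_add_distrib, Finset.sum_ite_eq', Finset.mem_univ, if_true]
    rw [hcol s s₀, ← hκ, Finset.sum_const, Finset.card_univ, nsmul_eq_mul, hcR, zero_mul, zero_add, hself]
  have h7 : U m' := by
    have h8 := h6 Finset.univ (fun p r s => m' p.1 p.2 * (ee21 p.1 r₀ r * ee21 p.2 s₀ s))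
      (fun p => h5 p.1 r₀ p.2 s₀ (m' p.1 p.2))
    have h9 : (fun r s => ∑ p : R × R', m' p.1 p.2 * (ee21 p.1 r₀ r * ee21 p.2 s₀ s)) = m' := by
      funext r s
      rw [Fintype.sum_prod_type]
      have hin : ∀ r1 : R, ∑ s1 : R', m' r1 s1 * (ee21 r1 r₀ r * ee21 s1 s₀ s) = ee21 r1 r₀ r * m' r1 s := by
        intro r1
        have : ∀ s1 : R', m' r1 s1 * (ee21 r1 r₀ r * ee21 s1 s₀ s) =
            (if s = s1 then ee21 r1 r₀ r * m' r1 s1 else 0) +
              m' r1 s1 * (ee21 r1 r₀ r * (if s = s₀ then 1 else 0)) := by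
          intro s1
          simp only [ee21]
          split_ifs <;> ring
        rw [Finset.sum_congr rfl (fun s1 _ => this s1), Finset.sum_add_distrib, ← Finset.sum_mul, hrow', zero_mul,
          add_zero, Finset.sum_ite_eq, if_pos (Finset.mem_univ _)]
      rw [Finset.sum_congr rfl (fun r1 _ => hin r1)]
      have : ∀ r1 : R, ee21 r1 r₀ r * m' r1 s =
          (if r = r1 then m' r1 s else 0) + m' r1 s * (if r = r₀ then 1 else 0) := by
        intro r1
        simp only [ee21]
        split_ifs <;> ring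
      rw [Finset.sum_congr rfl (fun r1 _ => this r1), Finset.sum_add_distrib, ← Finset.sum_mul, hcol', zero_mul,
        add_zero, Finset.sum_ite_eq, if_pos (Finset.mem_univ _)]
    rw [h9] at h8
    exact h8
  refine hcong m' m ?_ h7
  intro r r' s s'
  simp only [m']
  have h2' : (2 : ZMod 2) = 0 := rfl
  generalize (if s = s₀ then ρ else 0) = t1
  generalize (if s' = s₀ then ρ else 0) = t2
  generalize (if r = r₀ then κ else 0) = t3
  generalize (if r' = r₀ then κ else 0) = t4
  linear_combination (t1 + t2 + t3 + t4) * h2'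

end TE
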