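import Pool.Agent.TE.Base3
import Pool.Agent.TE.V6
import Pool.Agent.TE.S1a

set_option autoImplicit false

open scoped Classical Polynomial

namespace TE

/-! ## [TF-V22] the moved square roots for products and conjugates -/

variable {k Ω : Type*} [Field k] [Field Ω] [Algebra k Ω] [Algebra (RatFunc k) Ω] [IsScalarTower k (RatFunc k) Ω]
  [IsSepClosure (RatFunc k) Ω]

/-- the matrix of the moved square roots with values in `F₂` -/
noncomputable def mvm (γ : Gm k Ω) (r δ : Ω) : ZMod 2 := if Mv γ r δ then 1 else 0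

/-- If `γ` fixes `r`, `δ` and `w² = δ - r` then `γ w = (-1)^{mvm} w`, i.e. `γ w = w` if `mvm γ r δ = 0` and `γ w = -w` if `mvm γ r δ = 1` (`mv_iff`). -/
theorem mvm_val {γ : Gm k Ω} {r δ w : Ω} (hr : γ r = r) (hδ : γ δ = δ) (hw : w ^ 2 = δ - r) :
    (mvm γ r δ = 0 ∧ γ w = w) ∨ (mvm γ r δ = 1 ∧ γ w = -w) := by
  have h1 : γ w ^ 2 = w ^ 2 := by rw [← map_pow, hw, map_sub, hr, hδ]
  by_cases h : γ w = w
  · left
    refine ⟨?_, h⟩
    rw [mvm, if_neg]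
    rw [mv_iff hw]
    exact not_not.2 h
  · right
    refine ⟨?_, ?_⟩
    · rw [mvm, if_pos ((mv_iff hw).2 h)]
    · rcases sq_eq_sq_iff_eq_or_eq_neg.1 h1 with h2 | h2
      · exact absurd h2 h
      · exact h2

/-- `δ ≠ r` is needed: for `w = 0` both `γ w = w` and `γ w = -w`. -/
theorem mvm_mul (h2 : (2 : k) ≠ 0) {γ γ' : Gm k Ω} {r δ : Ω} (hne : δ ≠ r) (hr : γ r = r) (hδ : γ δ = δ) (hr' : γ' r = r)
    (hδ' : γ' δ = δ) : mvm (γ * γ') r δ = mvm γ r δ + mvm γ' r δ := by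
  obtain ⟨w, hw⟩ := exists_sqrt' (k := k) h2 (δ - r)
  have h3 : (2 : Ω) ≠ 0 := by
    intro h
    apply h2
    apply (algebraMap k Ω).injective
    rw [map_ofNat, map_zero]
    exact h
  have hw0 : w ≠ 0 := by
    rintro rfl
    apply hne
    rw [zero_pow two_ne_zero] at hw
    exact (sub_eq_zero.1 hw.symm)
  have hneg : w ≠ -w := by
    intro h
    have h4 : 2 * w = 0 := by linear_combination h
    rcases mul_eq_zero.1 h4 with h5 | h5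
    · exact h3 h5
    · exact hw0 h5
  have hr2 : (γ * γ') r = r := by rw [AlgEquiv.mul_apply, hr', hr]
  have hδ2 : (γ * γ') δ = δ := by rw [AlgEquiv.mul_apply, hδ', hδ]
  have hm : (γ * γ') w = γ (γ' w) := AlgEquiv.mul_apply _ _ _
  rcases mvm_val hr hδ hw with ⟨a1, b1⟩ | ⟨a1, b1⟩ <;>
  rcases mvm_val hr' hδ' hw with ⟨a2, b2⟩ | ⟨a2, b2⟩ <;>
  rcases mvm_val hr2 hδ2 hw with ⟨a3, b3⟩ | ⟨a3, b3⟩
  all_goals
    rw [a1, a2, a3]
    rw [hm, b2] at b3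
    try rw [map_neg] at b3
    rw [b1] at b3
    try rw [neg_neg] at b3
    first
      | decide
      | exact absurd b3 hneg
      | exact absurd b3.symm hneg

/-- if `w² = δ - r` then `(ρ w)² = ρ δ - ρ r` -/
theorem mvm_conj (γ ρ : Gm k Ω) (r δ : Ω) : mvm (ρ * γ * ρ⁻¹) (ρ r) (ρ δ) = mvm γ r δ := by
  have h : Mv (ρ * γ * ρ⁻¹) (ρ r) (ρ δ) ↔ Mv γ r δ := by
    constructor
    · rintro ⟨w, hw, hne⟩
      have e1 : ∀ x : Ω, ρ⁻¹ (ρ x) = x := fun x => ρ.symm_apply_apply x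
      have e2 : ∀ x : Ω, ρ (ρ⁻¹ x) = x := fun x => ρ.apply_symm_apply x
      refine ⟨ρ⁻¹ w, ?_, ?_⟩
      · rw [← map_pow, hw, map_sub, e1, e1]
      · intro h
        apply hne
        rw [AlgEquiv.mul_apply, AlgEquiv.mul_apply, h, e2]
    · rintro ⟨w, hw, hne⟩
      have e1 : ∀ x : Ω, ρ⁻¹ (ρ x) = x := fun x => ρ.symm_apply_apply x
      refine ⟨ρ w, ?_, ?_⟩
      · rw [← map_pow, hw, map_sub]
      · intro h
        apply hne
        rw [AlgEquiv.mul_apply, AlgEquiv.mul_apply, e1] at h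
        exact ρ.injective h
  unfold mvm
  by_cases hM : Mv γ r δ
  · rw [if_pos hM, if_pos (h.2 hM)]
  · rw [if_neg hM, if_neg (fun h' => hM (h.1 h'))]

theorem fix_mul (d : Dat k) {γ γ' : Gm k Ω} (h : FixRts d γ) (h' : FixRts d γ') : FixRts d (γ * γ') := by
  refine ⟨fun r hr => ?_, fun δ hδ => ?_⟩
  · rw [AlgEquiv.mul_apply, h'.1 r hr, h.1 r hr]
  · rw [AlgEquiv.mul_apply, h'.2 δ hδ, h.2 δ hδ]

/-- `Γ` permutes the roots of `B` and of `D` (`rts_image`) -/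
theorem fix_conj (d : Dat k) {γ : Gm k Ω} (h : FixRts d γ) (ρ : Gm k Ω) : FixRts d (ρ * γ * ρ⁻¹) := by
  have e2 : ∀ x : Ω, ρ (ρ⁻¹ x) = x := fun x => ρ.apply_symm_apply x
  have key : ∀ Q : k[X], ∀ r ∈ (rts k Q : Finset Ω), ρ⁻¹ r ∈ (rts k Q : Finset Ω) := by
    intro Q r hr
    have h1 := rts_image (Ω := Ω) (Q := Q) ρ⁻¹
    rw [← h1]
    exact Finset.mem_image_of_mem _ hr
  refine ⟨fun r hr => ?_, fun δ hδ => ?_⟩
  · rw [AlgEquiv.mul_apply, AlgEquiv.mul_apply, h.1 _ (key _ r hr), e2]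
  · rw [AlgEquiv.mul_apply, AlgEquiv.mul_apply, h.2 _ (key _ δ hδ), e2]

/-- Let `γ` fix `r, r', δ, δ'` and `w² = (δ - r)(δ' - r)(δ - r')(δ' - r')`, `γ w ≠ w`. Then the cross sum of `mvm γ` at `r, r', δ, δ'` is not zero. (`w = ± w₁w₂w₃w₄` with `w_i` square roots of the factors; all factors are nonzero since `w ≠ 0`.) -/
theorem mvm_cross (h2 : (2 : k) ≠ 0) {γ : Gm k Ω} {r r' δ δ' w : Ω} (hr : γ r = r) (hr' : γ r' = r') (hδ : γ δ = δ)
    (hδ' : γ δ' = δ') (hw : w ^ 2 = (δ - r) * (δ' - r) * (δ - r') * (δ' - r')) (hne : γ w ≠ w) :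
    mvm γ r δ + mvm γ r' δ + mvm γ r δ' + mvm γ r' δ' ≠ 0 := by
  obtain ⟨w1, hw1⟩ := exists_sqrt' (k := k) h2 (δ - r)
  obtain ⟨w2, hw2⟩ := exists_sqrt' (k := k) h2 (δ - r')
  obtain ⟨w3, hw3⟩ := exists_sqrt' (k := k) h2 (δ' - r)
  obtain ⟨w4, hw4⟩ := exists_sqrt' (k := k) h2 (δ' - r')
  have hsq : w ^ 2 = (w1 * w2 * w3 * w4) ^ 2 := by
    rw [hw, mul_pow, mul_pow, mul_pow, hw1, hw2, hw3, hw4]
    ring
  have hfix : γ (w1 * w2 * w3 * w4) ≠ w1 * w2 * w3 * w4 := by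
    intro h
    apply hne
    rcases sq_eq_sq_iff_eq_or_eq_neg.1 hsq with h5 | h5
    · rw [h5, h]
    · rw [h5, map_neg, h]
  rw [map_mul, map_mul, map_mul] at hfix
  rcases mvm_val hr hδ hw1 with ⟨a1, b1⟩ | ⟨a1, b1⟩ <;>
  rcases mvm_val hr' hδ hw2 with ⟨a2, b2⟩ | ⟨a2, b2⟩ <;>
  rcases mvm_val hr hδ' hw3 with ⟨a3, b3⟩ | ⟨a3, b3⟩ <;>
  rcases mvm_val hr' hδ' hw4 with ⟨a4, b4⟩ | ⟨a4, b4⟩
  all_goals
    rw [a1, a2, a3, a4]
    rw [b1, b2, b3, b4] at hfix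
    first
      | decide
      | exact absurd (by ring) hfix

end TE
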