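import Pool.Agent.TE.V15

set_option autoImplicit false

open scoped Classical

namespace TE

/-! ## [TF-V23] `StarM` only depends on the cross sums -/

/-- the relation `M` as a matrix over `F₂` -/
noncomputable def ind {R R' : Type*} (M : R → R' → Prop) (r : R) (s : R') : ZMod 2 := if M r s then 1 else 0

theorem v23_sum {R R' : Type*} (M : R → R' → Prop) (S : Finset R) (δ : R') :
    ∑ r ∈ S, ind M r δ = if Odd (S.filter (fun r => M r δ)).card then 1 else 0 := by
  rw [← v15_cast, Finset.card_eq_sum_ones, Nat.cast_sum, Nat.cast_one, Finset.sum_filter]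
  rfl

theorem v23_tr {R R' : Type*} [Fintype R'] (M : R → R' → Prop) (S : Finset R) (δ : R') :
    (if δ ∈ trM M S then (1 : ZMod 2) else 0) = ∑ r ∈ S, ind M r δ := by
  rw [v23_sum]
  have h4 : δ ∈ trM M S ↔ Odd (S.filter (fun r => M r δ)).card := by
    simp [trM]
  by_cases h : Odd (S.filter (fun r => M r δ)).card
  · rw [if_pos h, if_pos (h4.2 h)]
  · rw [if_neg h, if_neg (fun h5 => h (h4.1 h5))]

/-- `CP` in terms of `ind`: constant column sums -/
theorem cp_iff {R R' : Type*} [Fintype R] (M : R → R' → Prop) : CP M ↔ ∀ s s', ∑ r, ind M r s = ∑ r, ind M r s' := by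
  unfold CP
  constructor
  · intro h s s'
    rw [v23_sum, v23_sum]
    by_cases h1 : Odd (Finset.univ.filter (fun r : R => M r s)).card
    · rw [if_pos h1, if_pos ((h s s').1 h1)]
    · rw [if_neg h1, if_neg (fun h2 => h1 ((h s s').2 h2))]
  · intro h s s'
    have h1 := h s s'
    rw [v23_sum, v23_sum] at h1
    by_cases h2 : Odd (Finset.univ.filter (fun r : R => M r s)).card <;>
    by_cases h3 : Odd (Finset.univ.filter (fun r : R => M r s')).card
    · exact iff_of_true h2 h3
    · rw [if_pos h2, if_neg h3] at h1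
      exact absurd h1 (by decide)
    · rw [if_neg h2, if_pos h3] at h1
      exact absurd h1 (by decide)
    · exact iff_of_false h2 h3

/-- two sets whose indicator functions differ by a constant are equal or complementary -/
theorem v23_compl {R' : Type*} [Fintype R'] (A B : Finset R') (c : ZMod 2)
    (h : ∀ δ, (if δ ∈ B then (1 : ZMod 2) else 0) = (if δ ∈ A then (1 : ZMod 2) else 0) + c) :
    B = A ∨ B = Aᶜ := by
  have hc : c = 0 ∨ c = 1 := (by decide : ∀ c : ZMod 2, c = 0 ∨ c = 1) c
  rcases hc with rfl | rfl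
  · left
    ext δ
    have h1 := h δ
    by_cases hA : δ ∈ A <;> by_cases hB : δ ∈ B
    · exact iff_of_true hB hA
    · rw [if_pos hA, if_neg hB] at h1
      exact absurd h1 (by decide)
    · rw [if_neg hA, if_pos hB] at h1
      exact absurd h1 (by decide)
    · exact iff_of_false hB hA
  · right
    ext δ
    rw [Finset.mem_compl]
    have h1 := h δ
    by_cases hA : δ ∈ A <;> by_cases hB : δ ∈ B
    · rw [if_pos hA, if_pos hB] at h1
      exact absurd h1 (by decide)
    · exact iff_of_false hB (not_not.2 hA)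
    · exact iff_of_true hB hA
    · rw [if_neg hA, if_neg hB] at h1
      exact absurd h1 (by decide)

theorem v23_A {R R' : Type*} [Fintype R'] (M M' : R → R' → Prop)
    (hcross : ∀ r r' s s', ind M r s + ind M r' s + ind M r s' + ind M r' s' =
      ind M' r s + ind M' r' s + ind M' r s' + ind M' r' s') {S : Finset R} (hS : Even S.card) :
    trM M' S = trM M S ∨ trM M' S = (trM M S)ᶜ := by
  have h2 : (2 : ZMod 2) = 0 := by decide
  rcases isEmpty_or_nonempty R' with hR | ⟨⟨δ0⟩⟩
  · left
    ext δ
    exact hR.elim δ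
  · apply v23_compl (trM M S) (trM M' S) (∑ r ∈ S, ind M' r δ0 + ∑ r ∈ S, ind M r δ0)
    intro δ
    rw [v23_tr, v23_tr]
    have hkey : ∑ r ∈ S, (ind M r δ + ind M r δ0 + ind M' r δ + ind M' r δ0) = 0 := by
      rcases S.eq_empty_or_nonempty with rfl | ⟨r0, hr0⟩
      · exact Finset.sum_empty
      · have h3 : ∀ r ∈ S, ind M r δ + ind M r δ0 + ind M' r δ + ind M' r δ0 =
            ind M r0 δ + ind M r0 δ0 + ind M' r0 δ + ind M' r0 δ0 := by
          intro r _
          have h4 := hcross r r0 δ δ0
          linear_combination h4 + (ind M' r δ + ind M' r δ0 - ind M r0 δ - ind M r0 δ0) * h2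
        rw [Finset.sum_congr rfl h3, Finset.sum_const, nsmul_eq_mul,
          ZMod.natCast_eq_zero_iff_even.2 hS, zero_mul]
    rw [Finset.sum_add_distrib, Finset.sum_add_distrib, Finset.sum_add_distrib] at hkey
    linear_combination hkey - (∑ r ∈ S, ind M r δ + ∑ r ∈ S, ind M r δ0 + ∑ r ∈ S, ind M' r δ0) * h2

theorem v23_B {R R' : Type*} [Fintype R] [Fintype R'] (M : R → R' → Prop) (hM : CP M) (S : Finset R) :
    trM M Sᶜ = trM M S ∨ trM M Sᶜ = (trM M S)ᶜ := by
  have h2 : (2 : ZMod 2) = 0 := by decide
  rcases isEmpty_or_nonempty R' with hR | ⟨⟨δ0⟩⟩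
  · left
    ext δ
    exact hR.elim δ
  · apply v23_compl (trM M S) (trM M Sᶜ) (∑ r, ind M r δ0)
    intro δ
    rw [v23_tr, v23_tr]
    have h3 := (cp_iff M).1 hM δ δ0
    have h4 : ∑ r ∈ S, ind M r δ + ∑ r ∈ Sᶜ, ind M r δ = ∑ r, ind M r δ :=
      Finset.sum_add_sum_compl S _
    linear_combination h4 + h3 - (∑ r ∈ S, ind M r δ) * h2

/-- Proof. For an even set `S ⊆ R` the indicator functions of `trM M S` and `trM M' S` are `δ ↦ ∑_{r ∈ S} ind M r δ` and `δ ↦ ∑_{r ∈ S} ind M' r δ`. Their difference is constant: the difference of the values at `δ`, `δ'` is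
`∑_{r ∈ S} c_r` with `c_r = ind M r δ + ind M r δ' + ind M' r δ + ind M' r δ'`, which does not depend on `r` (`hcross`), and `|S|` is even. So `trM M' S` is `trM M S` or its complement. `trM M S` is even (`trM_even`, `hM'`). The same holds for the transposed relations:
for even `X ⊆ R'`, `trM Mᵗ' X` is `trM Mᵗ X` or its complement; and `trM Mᵗ Xᶜ` is `trM Mᵗ X` or its complement (`CP` of the transposed relation: `trM Mᵗ univ` is `∅` or `univ`). Hence `trM M'ᵗ (trM M' S)` is `trM Mᵗ (trM M S)` or its complement, and the condition in `StarM` is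
invariant under complements. (It may be convenient to work in `Ht` with `hc_eq`, `exists_u`.) -/
theorem starM_congr {R R' : Type*} [Fintype R] [Fintype R'] (M M' : R → R' → Prop) (hev : Even (Fintype.card R))
    (hev' : Even (Fintype.card R'))
    (hcross : ∀ r r' s s', ind M r s + ind M r' s + ind M r s' + ind M r' s' =
      ind M' r s + ind M' r' s + ind M' r s' + ind M' r' s')
    (h1 : CP M) (h2 : CP (fun (s : R') (r : R) => M r s)) (h3 : CP M') (h4 : CP (fun (s : R') (r : R) => M' r s))
    (hs : StarM M) : StarM M' := by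
  intro S hS hne hnu
  obtain ⟨y1, y2, y3, y4⟩ := hs S hS hne hnu
  have hcrossT : ∀ (r r' : R') (s s' : R), ind (fun (s : R') (r : R) => M r s) r s +
      ind (fun (s : R') (r : R) => M r s) r' s + ind (fun (s : R') (r : R) => M r s) r s' +
      ind (fun (s : R') (r : R) => M r s) r' s' = ind (fun (s : R') (r : R) => M' r s) r s +
      ind (fun (s : R') (r : R) => M' r s) r' s + ind (fun (s : R') (r : R) => M' r s) r s' +
      ind (fun (s : R') (r : R) => M' r s) r' s' := by
    intro r r' s s'
    have h := hcross s s' r r'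
    simp only [ind] at h ⊢
    linear_combination h
  have hY : trM (fun δ r => M' r δ) (trM M' S) = trM (fun δ r => M r δ) (trM M S) ∨
      trM (fun δ r => M' r δ) (trM M' S) = (trM (fun δ r => M r δ) (trM M S))ᶜ := by
    have e1 := v23_A (fun (s : R') (r : R) => M r s) (fun (s : R') (r : R) => M' r s) hcrossT
      (trM_even M' h4 hS)
    have e2 : trM (fun δ r => M r δ) (trM M' S) = trM (fun δ r => M r δ) (trM M S) ∨
        trM (fun δ r => M r δ) (trM M' S) = (trM (fun δ r => M r δ) (trM M S))ᶜ := by
      rcases v23_A M M' hcross hS with e3 | e3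
      · rw [e3]
        exact Or.inl rfl
      · rw [e3]
        exact v23_B (fun (s : R') (r : R) => M r s) h2 (trM M S)
    rcases e1 with e1 | e1 <;> rcases e2 with e2 | e2
    · exact Or.inl (e1.trans e2)
    · exact Or.inr (e1.trans e2)
    · exact Or.inr (by rw [e1, e2])
    · exact Or.inl (by rw [e1, e2, compl_compl])
  rcases hY with hY | hY
  · rw [hY]
    exact ⟨y1, y2, y3, y4⟩
  · rw [hY]
    refine ⟨fun h => y2 ?_, fun h => y1 ?_, fun h => y4 ?_, fun h => y3 ?_⟩
    · rw [← compl_compl (trM _ _), h, Finset.compl_empty]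
    · rw [← compl_compl (trM _ _), h, Finset.compl_univ]
    · exact (compl_eq_comm.1 h).symm
    · exact compl_injective h

end TE
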