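import Pool.Agent.TE.Base3
import Pool.Agent.TE.V13
import Pool.Agent.TE.V14
import Pool.Agent.TE.V18
import Pool.Agent.TE.V19
import Pool.Agent.TE.V21
import Pool.Agent.TE.V22
import Pool.Agent.TE.V23

set_option autoImplicit false

open WeierstrassCurve.Affine
open scoped Classical Polynomial

namespace TE

/-! ## [TF-V24] even permutations and one nonsquare give an element satisfying `Star` -/

variable {k Ω : Type*} [Field k] [Field Ω] [Algebra k Ω] [Algebra (RatFunc k) Ω] [IsScalarTower k (RatFunc k) Ω]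
  [IsSepClosure (RatFunc k) Ω]

theorem v24_alt {R : Type*} (i i' : Fintype R) (D D' : DecidableEq R) (σ : Equiv.Perm R)
    (h : σ ∈ @alternatingGroup R i D) : σ ∈ @alternatingGroup R i' D' := by
  obtain rfl : i = i' := Subsingleton.elim _ _
  obtain rfl : D = D' := Subsingleton.elim _ _
  exact h

/-- The converse of `star_sub` (V18): a set `S ⊆ rts B` is `vS S₀`; `vS_trb`, `vS_trd`, `vS_props`. Compare the proof of `big_star` in V20. -/
theorem star_of_sub (d : Dat k) {γ : Gm k Ω} (hs : StarM (fun (r : RT k Ω d.B) (δ : RT k Ω d.D) => Mv γ r.1 δ.1)) :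
    Star d γ := by
  intro S hS hev hne hne'
  obtain ⟨S₀, rfl⟩ := T1a_lift S hS
  rw [← vS_trb d γ S₀, ← vS_trd d γ]
  have hinj : ∀ T T' : Finset (RT k Ω d.B), vS T = vS T' → T = T' := fun T T' =>
    (vS_props T T').2.2.2.2.2.1
  have hempty : vS (∅ : Finset (RT k Ω d.B)) = ∅ := (vS_props (∅ : Finset (RT k Ω d.B)) ∅).2.2.2.2.1
  have huniv : vS (Finset.univ : Finset (RT k Ω d.B)) = rts k d.B :=
    (vS_props (∅ : Finset (RT k Ω d.B)) ∅).2.2.2.1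
  obtain ⟨s1, s2, s3, s4⟩ := hs S₀ (by rwa [(vS_props S₀ S₀).2.2.1] at hev)
    (fun h => hne (by rw [h, hempty])) (fun h => hne' (by rw [h, huniv]))
  refine ⟨fun h => s1 (hinj _ _ (by rw [h, hempty])), fun h => s2 (hinj _ _ (by rw [h, huniv])),
    fun h => s3 (hinj _ _ h), fun h => s4 (hinj _ _ (h.trans ?_))⟩
  exact (@v18_compl _ _ _ _ _ _ (_) S₀).symm

/-- Proof. `R = RT B`, `R' = RT D`, both with `4m ≥ 8` elements (`card_RT`). Let `U m` mean: there is `γ` with `FixRts d γ` and such that the cross sums of `m` and of `(r, δ) ↦ mvm γ r δ` are equal. `U` satisfies the hypotheses of `cross_all`: `hadd`: `γ γ'` (`fix_mul`, `mvm_mul`; `δ ≠ r` by `cop_ne`); `hcong`: clear;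
`hperm`: for even `σ`, `τ` take `ρ ∈ Γ` inducing `σ⁻¹`, `τ⁻¹` (`halt`) and `ρ γ ρ⁻¹` (`fix_conj`, `mvm_conj`: `mvm (ργρ⁻¹) r δ = mvm γ (ρ⁻¹ r) (ρ⁻¹ δ) = mvm γ (σ r) (τ δ)`); `h0`, `hne`: the matrix of the `γ` in `NonSq` (`mvm_cross`). Let `M` be from `exists_starM`; `m = ind M` has constant row and column sums (`cp_iff`). So `U (ind M)`: there is
`γ` fixing the roots such that `Mv γ` and `M` have the same cross sums. `par_sub` (V18) gives `CP` for `Mv γ` (both versions), so `starM_congr` gives `StarM` for `Mv γ`, and `star_of_sub` gives `Star d γ`. -/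
theorem alt_star (d : Dat k) (hcop : IsCoprime d.A d.B) (hm : 2 ≤ d.m) (halt : Alt d Ω) (hns : NonSq d Ω) :
    ∃ γ : Gm k Ω, FixRts d γ ∧ Star d γ := by
  have hR : Fintype.card (RT k Ω d.B) = 4 * d.m := by rw [card_RT d.sepB, d.degB]
  have hR' : Fintype.card (RT k Ω d.D) = 4 * d.m := by
    have h1 : d.D.Separable := d.sepD
    rw [card_RT h1]
    exact d.degD
  have hev : Even (Fintype.card (RT k Ω d.B)) := by
    rw [hR]
    exact ⟨2 * d.m, by ring⟩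
  have hev' : Even (Fintype.card (RT k Ω d.D)) := by
    rw [hR']
    exact ⟨2 * d.m, by ring⟩
  have hne : ∀ (r : RT k Ω d.B) (δ : RT k Ω d.D), δ.1 ≠ r.1 := by
    intro r δ h
    refine cop_ne d hcop r.1 ((mem_rts d.B_ne _).1 r.2) ?_
    rw [← h]
    exact (mem_rts d.D_ne _).1 δ.2
  obtain ⟨M, hM, hM', hs⟩ := exists_starM d.m hm hR hR'
  let U : (RT k Ω d.B → RT k Ω d.D → ZMod 2) → Prop := fun m =>
    ∃ γ : Gm k Ω, FixRts d γ ∧ ∀ (r r' : RT k Ω d.B) (s s' : RT k Ω d.D),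
      m r s + m r' s + m r s' + m r' s' = mvm γ r.1 s.1 + mvm γ r'.1 s.1 + mvm γ r.1 s'.1 + mvm γ r'.1 s'.1
  have hUadd : ∀ m m', U m → U m' → U (fun r s => m r s + m' r s) := by
    rintro m m' ⟨γ, hγ, h1⟩ ⟨γ', hγ', h2⟩
    refine ⟨γ * γ', fix_mul d hγ hγ', ?_⟩
    intro r r' s s'
    have hv : ∀ (r : RT k Ω d.B) (s : RT k Ω d.D), mvm (γ * γ') r.1 s.1 = mvm γ r.1 s.1 + mvm γ' r.1 s.1 :=
      fun r s => mvm_mul d.h2 (hne r s) (hγ.1 r.1 r.2) (hγ.2 s.1 s.2) (hγ'.1 r.1 r.2) (hγ'.2 s.1 s.2)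
    rw [hv, hv, hv, hv]
    linear_combination h1 r r' s s' + h2 r r' s s'
  have hUcong : ∀ m m' : RT k Ω d.B → RT k Ω d.D → ZMod 2,
      (∀ r r' s s', m r s + m r' s + m r s' + m r' s' = m' r s + m' r' s + m' r s' + m' r' s') →
      U m → U m' := by
    rintro m m' hmm ⟨γ, hγ, h1⟩
    exact ⟨γ, hγ, fun r r' s s' => (hmm r r' s s').symm.trans (h1 r r' s s')⟩
  obtain ⟨r0, hr0, r1, hr1, δ0, hδ0, δ1, hδ1, w, hw, γ0, hγ0, hγw⟩ := hns
  have hU := cross_all (R := RT k Ω d.B) (R' := RT k Ω d.D) (by omega) (by omega) hev hev' U hUadd hUcong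
    (by
      intro σ hσ τ hτ m hm'
      obtain ⟨γ, hγ, h1⟩ := hm'
      obtain ⟨ρ, hρ1, hρ2⟩ := halt σ⁻¹
        (v24_alt _ _ _ _ _ (inv_mem hσ)) τ⁻¹ (v24_alt _ _ _ _ _ (inv_mem hτ))
      refine ⟨ρ * γ * ρ⁻¹, fix_conj d hγ ρ, ?_⟩
      intro r r' s s'
      have hv : ∀ (r : RT k Ω d.B) (s : RT k Ω d.D),
          mvm (ρ * γ * ρ⁻¹) r.1 s.1 = mvm γ (σ r).1 (τ s).1 := by
        intro r s
        have e1 : ρ (σ r).1 = r.1 := by
          rw [hρ1]
          exact congrArg Subtype.val (σ.symm_apply_apply r)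
        have e2 : ρ (τ s).1 = s.1 := by
          rw [hρ2]
          exact congrArg Subtype.val (τ.symm_apply_apply s)
        have h := mvm_conj γ ρ (σ r).1 (τ s).1
        rw [e1, e2] at h
        exact h
      rw [hv, hv, hv, hv]
      exact h1 _ _ _ _)
    (fun r s => mvm γ0 r.1 s.1) ⟨γ0, hγ0, fun _ _ _ _ => rfl⟩
    ⟨⟨r0, hr0⟩, ⟨r1, hr1⟩, ⟨δ0, hδ0⟩, ⟨δ1, hδ1⟩,
      mvm_cross d.h2 (hγ0.1 r0 hr0) (hγ0.1 r1 hr1) (hγ0.2 δ0 hδ0) (hγ0.2 δ1 hδ1) hw hγw⟩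
    (ind M) ((cp_iff (fun (δ : RT k Ω d.D) (r : RT k Ω d.B) => M r δ)).1 hM') ((cp_iff M).1 hM)
  obtain ⟨γ, hγ, hc⟩ := hU
  refine ⟨γ, hγ, star_of_sub d ?_⟩
  exact starM_congr M (fun (r : RT k Ω d.B) (δ : RT k Ω d.D) => Mv γ r.1 δ.1) hev hev' hc hM hM'
    (par_sub d hcop hγ).1 (par_sub d hcop hγ).2 hs

end TE
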