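import Pool.Agent.TE.V3
import Pool.Agent.TE.P1
import Pool.Agent.TE.U3
import Pool.Agent.TE.L1

set_option autoImplicit false

open scoped Classical Polynomial

namespace TE

/-! ## [TF-V4] places over a finite point; Kummer characters on the inertia group -/

variable {k Ω : Type*} [Field k] [Field Ω] [Algebra k Ω] [Algebra (RatFunc k) Ω] [IsScalarTower k (RatFunc k) Ω]
  [IsSepClosure (RatFunc k) Ω]

/-- `b` is a unit if `a` is and `b - a` is in the maximal ideal -/
theorem v4_uni {Ω : Type*} [Field Ω] {O : ValuationSubring Ω} {a b : Ω} (ha : Uni O a) (hab : Mx O (b - a)) :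
    Uni O b := by
  rw [uni_iff] at ha ⊢
  rw [mx_iff] at hab
  have h1 : b = (b - a) + a := by ring
  rw [h1, Valuation.map_add_eq_of_lt_right _ (by rw [ha]; exact hab), ha]

/-- For every `c` algebraic over `k` there is a place `O` over `t = c`, and for a square root `w` of `t - c` there is `τ ∈ N` stabilizing `O` with `τ w = -w`.

Proof. Let `c' ∈ k^s` (`algebraicClosure k Ω`) be `c`, `π = X - C c'` (irreducible), `π(t) = t - c`; `O` from `exists_place π`. `t ∈ O` (second property for `f = X`), `t - c ∈ O` and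
`t - c` is not a unit (last property with `P = π`, `κ = 1`). For `w² = t - c` use `exists_ram` with `K = M` the fixed field of `N` (`exists_fixedField`), `δ = w`: `w² ∈ M`, `w ≠ 0` (`aeval_tt_ne`), and
`w² κ²` is not a unit for `κ ∈ M`, `κ ≠ 0` (last property, `π ∣ π`, `¬ π² ∣ π`). -/
theorem exists_place_at {c : Ω} (hc : IsAlgebraic k c) :
    ∃ O : ValuationSubring Ω, Pl k O ∧ tt k Ω ∈ O ∧ Mx O (tt k Ω - c) ∧
      ∀ w : Ω, w ^ 2 = tt k Ω - c → ∃ τ ∈ NN k Ω, Stb O τ ∧ τ w = -w := by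
  have : IsGalois (RatFunc k) Ω := inferInstance
  set c' : algebraicClosure k Ω := ⟨c, mem_algebraicClosure_iff.2 hc⟩ with hc'
  have hπ : Polynomial.aeval (tt k Ω) (Polynomial.X - Polynomial.C c') = tt k Ω - c := by
    rw [map_sub, Polynomial.aeval_X, Polynomial.aeval_C]
    rfl
  have hsq : ¬ (Polynomial.X - Polynomial.C c') ^ 2 ∣ (Polynomial.X - Polynomial.C c') := by
    intro h
    have h1 := Polynomial.natDegree_le_of_dvd h (Polynomial.X_sub_C_ne_zero c')
    rw [Polynomial.natDegree_pow, Polynomial.natDegree_X_sub_C] at h1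
    omega
  obtain ⟨O, hO, hO1, hO2, hO3⟩ := exists_place (k := k) (Ω := Ω) (Polynomial.X - Polynomial.C c')
    (Polynomial.irreducible_X_sub_C c')
  have hram : ∀ κ : Ω, κ ≠ 0 → (∀ g ∈ NN k Ω, g κ = κ) → ¬ Uni O ((tt k Ω - c) * κ ^ 2) := by
    intro κ h0 hκ
    have h := hO3 (Polynomial.X - Polynomial.C c') dvd_rfl hsq κ h0 hκ
    rwa [hπ] at h
  refine ⟨O, hO, ?_, ⟨?_, ?_⟩, fun w hw => ?_⟩
  · have h := hO1 Polynomial.X
    rwa [Polynomial.aeval_X] at h
  · have h := hO1 (Polynomial.X - Polynomial.C c')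
    rwa [hπ] at h
  · have h := hram 1 one_ne_zero fun g _ => map_one g
    rwa [one_pow, mul_one] at h
  · obtain ⟨M, hM, hM2⟩ := exists_fixedField (k := k) (Ω := Ω)
    have hne : tt k Ω - c ≠ 0 := by
      rw [← hπ]
      exact aeval_tt_ne _ (Polynomial.X_sub_C_ne_zero c')
    obtain ⟨g, hg1, hg2, hg3⟩ := exists_ram M O w (by
      rw [hw, hM, ← hπ]
      exact fun g hg => aeval_tt_fixed _ hg) (by
      rintro rfl
      rw [zero_pow two_ne_zero] at hw
      exact hne hw.symm) (by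
      intro κ hκ h0
      rw [hw]
      exact hram κ h0 ((hM κ).1 hκ))
    exact ⟨g, (hM2 g).2 hg1, hg3, hg2⟩

/-- `∏_{r ∈ S} (t - r)` is a unit of a place `O` over `t = c` if `c ∉ S`: `t - r = (t - c) + (c - r)`, `c - r` is a unit (`alg_uni`). -/
theorem prod_uni {O : ValuationSubring Ω} (hO : Pl k O) {c : Ω} (hc : IsAlgebraic k c) (hm : Mx O (tt k Ω - c))
    {S : Finset Ω} (hS : ∀ r ∈ S, IsAlgebraic k r) (hcS : c ∉ S) : Uni O (∏ r ∈ S, (tt k Ω - r)) := by
  rw [uni_iff, map_prod]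
  refine Finset.prod_eq_one fun r hr => ?_
  rw [← uni_iff]
  have h1 : Uni O (c - r) := by
    refine alg_uni hO (hc.sub (hS r hr)) (sub_ne_zero.2 ?_)
    rintro rfl
    exact hcS hr
  refine v4_uni h1 ?_
  have h2 : tt k Ω - r - (c - r) = tt k Ω - c := by ring
  rw [h2]
  exact hm

/-- Kummer characters on an element `τ` of the decomposition group at `t = c` with `τ w = -w`, `w² = t - c`.

Proof. `e² = ∏_{r ∈ S} (t - r)`, `τ e = χ(τ) e` (`hχ`), `e ≠ 0` (`aeval_tt_ne`; or `prod_not_sq`-style: `t - r ≠ 0`). If `c ∉ S`: `e²` is a unit (`prod_uni`) and `local_unit` (with `res_trivial`,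
`two_uni`) gives `τ e = e`, so `χ(τ) = 1`. If `c ∈ S`: `z = e/w`, `z² = ∏_{r ∈ S \ {c}} (t - r)` is a unit, `τ z = χ(τ) e/(-w) = ± z`, so `τ z = z` and `χ(τ) = -1`. -/
theorem kum_at (h2 : (2 : k) ≠ 0) {O : ValuationSubring Ω} (hO : Pl k O) {c : Ω} (hc : IsAlgebraic k c)
    (hm : Mx O (tt k Ω - c)) {τ : Gm k Ω} (hτN : τ ∈ NN k Ω) (hτ : Stb O τ) {w : Ω} (hw : w ^ 2 = tt k Ω - c)
    (hτw : τ w = -w) {S : Finset Ω} (hS : ∀ r ∈ S, IsAlgebraic k r) {χ : Gm k Ω → Ω} (hχ : Kum S χ)
    (hv : χ τ = 1 ∨ χ τ = -1) : (c ∈ S → χ τ = -1) ∧ (c ∉ S → χ τ = 1) := by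
  obtain ⟨e, he, hχe⟩ := hχ
  have h2u := two_uni h2 O hO
  have hres := res_trivial O hO τ hτN hτ
  have hτe := hχe τ hτN
  have hne : ∀ r : Ω, IsAlgebraic k r → tt k Ω - r ≠ 0 := by
    intro r hr h0
    have h1 := aeval_tt_ne (k := k) (Ω := Ω) (Polynomial.X - Polynomial.C ⟨r, mem_algebraicClosure_iff.2 hr⟩)
      (Polynomial.X_sub_C_ne_zero _)
    rw [map_sub, Polynomial.aeval_X, Polynomial.aeval_C] at h1
    exact h1 h0
  have he0 : e ≠ 0 := by
    rintro rfl
    rw [zero_pow two_ne_zero] at he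
    exact Finset.prod_ne_zero_iff.2 (fun r hr => hne r (hS r hr)) he.symm
  have hpm : τ e = e ∨ τ e = -e := by
    rw [hτe]
    rcases hv with h | h
    · left; rw [h, one_mul]
    · right; rw [h]; ring
  have hw0 : w ≠ 0 := by
    rintro rfl
    rw [zero_pow two_ne_zero] at hw
    exact hne c hc hw.symm
  constructor
  · intro hcS
    have hz : Uni O ((e / w) ^ 2) := by
      have h1 : (e / w) ^ 2 = ∏ r ∈ S.erase c, (tt k Ω - r) := by
        rw [div_pow, he, hw, ← Finset.mul_prod_erase S _ hcS]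
        exact mul_div_cancel_left₀ _ (hne c hc)
      rw [h1]
      exact prod_uni hO hc hm (fun r hr => hS r (Finset.mem_of_mem_erase hr)) (Finset.notMem_erase c S)
    have h3 : τ (e / w) = e / w := by
      refine local_unit O h2u τ hres _ hz ?_
      rw [map_div₀, hτw, div_neg]
      rcases hpm with h | h
      · right; rw [h]
      · left; rw [h, neg_div, neg_neg]
    rcases hv with h | h
    · exfalso
      rw [map_div₀, hτw, hτe, h, one_mul, div_neg] at h3
      have h4 : 2 * (e / w) = 0 := by linear_combination -h3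
      rcases mul_eq_zero.1 h4 with h5 | h5
      · exact h2u.2.2 h5
      · exact div_ne_zero he0 hw0 h5
    · exact h
  · intro hcS
    have hz : Uni O (e ^ 2) := by
      rw [he]
      exact prod_uni hO hc hm hS hcS
    have h3 := local_unit O h2u τ hres e hz hpm
    rw [hτe] at h3
    exact mul_right_cancel₀ he0 (by rw [h3, one_mul])

end TE
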