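import Pool.Agent.TE.F0

set_option autoImplicit false


open scoped Classical Polynomial

namespace TE

/-! ## [TE-X1] explicit polynomials satisfying the conditions of the criterion -/

variable {k Ω : Type*} [Field k] [Field Ω] [Algebra k Ω] [Algebra (RatFunc k) Ω] [IsScalarTower k (RatFunc k) Ω]

/-- an element of `k(t)` algebraic over `k` is in `k` -/
theorem algebraic_mem (x : RatFunc k) (hx : IsAlgebraic k x) : ∃ c : k, algebraMap k (RatFunc k) c = x := by
  by_contra h
  refine RatFunc.transcendental_of_ne_C x ?_ hx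
  rintro ⟨c, rfl⟩
  exact h ⟨c, rfl⟩

/-- an element of `Ω` fixed by `Γ` and algebraic over `k` is in `k` -/
theorem fixed_alg_mem [IsSepClosure (RatFunc k) Ω] (c : Ω) (h : ∀ γ : Gm k Ω, γ c = c) (hc : IsAlgebraic k c) :
    ∃ x : k, algebraMap k Ω x = c := by
  obtain ⟨y, hy⟩ := (InfiniteGalois.mem_range_algebraMap_iff_fixed c).2 h
  have h1 : IsAlgebraic k y := by
    rw [← hy] at hc
    exact (isAlgebraic_algebraMap_iff (algebraMap (RatFunc k) Ω).injective).1 hc
  obtain ⟨x, hx⟩ := algebraic_mem y h1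
  exact ⟨x, by rw [IsScalarTower.algebraMap_apply k (RatFunc k) Ω, hx, hy]⟩

/-- `Γ` acts transitively on the roots of an irreducible polynomial over `k`. -/
theorem gal_transitive [IsSepClosure (RatFunc k) Ω] {p : k[X]} (hp : Irreducible p) {r r' : Ω}
    (hr : r ∈ (rts k p : Finset Ω)) (hr' : r' ∈ (rts k p : Finset Ω)) : ∃ γ : Gm k Ω, γ r = r' := by
  set O : Finset Ω := (rts k p).filter (fun s => ∃ γ : Gm k Ω, γ r = s) with hO
  have hOr : r ∈ O := Finset.mem_filter.2 ⟨hr, 1, rfl⟩
  have him : ∀ γ : Gm k Ω, O.image γ = O := by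
    intro γ
    ext s
    rw [Finset.mem_image]
    constructor
    · rintro ⟨u, hu, rfl⟩
      obtain ⟨hu1, δ, hδ⟩ := Finset.mem_filter.1 hu
      refine Finset.mem_filter.2 ⟨?_, γ * δ, by rw [AlgEquiv.mul_apply, hδ]⟩
      rw [← rts_image γ]
      exact Finset.mem_image_of_mem _ hu1
    · intro hs
      obtain ⟨hs1, δ, hδ⟩ := Finset.mem_filter.1 hs
      refine ⟨γ.symm s, Finset.mem_filter.2 ⟨?_, γ⁻¹ * δ, by rw [AlgEquiv.mul_apply, hδ]; rfl⟩, γ.apply_symm_apply s⟩
      rw [← rts_image γ] at hs1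
      obtain ⟨u, hu, hus⟩ := Finset.mem_image.1 hs1
      rw [← hus, γ.symm_apply_apply]
      exact hu
  set P : Polynomial Ω := ∏ s ∈ O, (Polynomial.X - Polynomial.C s) with hP
  have hmap : ∀ γ : Gm k Ω, P.map (γ : Ω →+* Ω) = P := by
    intro γ
    rw [hP, Polynomial.map_prod]
    conv_rhs => rw [← him γ]
    rw [Finset.prod_image (fun a _ b _ h => γ.injective h)]
    refine Finset.prod_congr rfl fun s _ => ?_
    simp
  have halg : ∀ n, IsAlgebraic k (P.coeff n) := by
    intro n
    have h1 : P ∈ Polynomial.lifts (algebraMap (algebraicClosure k Ω) Ω) := by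
      rw [hP]
      refine Subsemiring.prod_mem _ fun s hs => ?_
      have hs1 : IsAlgebraic k s := rts_alg (Finset.mem_filter.1 hs).1
      refine ⟨Polynomial.X - Polynomial.C ⟨s, mem_algebraicClosure_iff.2 hs1⟩, ?_⟩
      simp
    obtain ⟨q, hq⟩ := h1
    have h2 : P.coeff n = ((q.coeff n : algebraicClosure k Ω) : Ω) := by
      rw [← hq]
      simp
    rw [h2]
    exact mem_algebraicClosure_iff.1 (q.coeff n).2
  have hfix : ∀ n, ∀ γ : Gm k Ω, γ (P.coeff n) = P.coeff n := by
    intro n γ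
    have := congrArg (fun q => Polynomial.coeff q n) (hmap γ)
    simpa using this
  have hlift : ∃ P0 : k[X], P0.map (algebraMap k Ω) = P := by
    have h3 : P ∈ Polynomial.lifts (algebraMap k Ω) := by
      rw [Polynomial.lifts_iff_coeff_lifts]
      intro n
      obtain ⟨x, hx⟩ := fixed_alg_mem (P.coeff n) (hfix n) (halg n)
      exact ⟨x, hx⟩
    exact h3
  obtain ⟨P0, hP0⟩ := hlift
  have hPne : P ≠ 0 := by
    rw [hP]
    exact Finset.prod_ne_zero_iff.2 fun s _ => Polynomial.X_sub_C_ne_zero s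
  have hev : ∀ s : Ω, Polynomial.aeval s P0 = 0 ↔ s ∈ O := by
    intro s
    rw [Polynomial.aeval_def, ← Polynomial.eval_map, hP0, hP, Polynomial.eval_prod, Finset.prod_eq_zero_iff]
    constructor
    · rintro ⟨u, hu, h⟩
      simp only [Polynomial.eval_sub, Polynomial.eval_X, Polynomial.eval_C] at h
      rwa [sub_eq_zero.1 h]
    · intro h
      exact ⟨s, h, by simp⟩
  have hdvd : p ∣ P0 := by
    by_contra hnd
    have hco : IsCoprime p P0 := (hp.coprime_iff_not_dvd).2 hnd
    obtain ⟨u, v, huv⟩ := hco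
    have h5 := congrArg (Polynomial.aeval r) huv
    rw [map_add, map_mul, map_mul, (mem_rts hp.ne_zero r).1 hr, (hev r).2 hOr, map_one] at h5
    simp at h5
  obtain ⟨q, hq⟩ := hdvd
  have h6 : Polynomial.aeval r' P0 = 0 := by
    rw [hq, map_mul, (mem_rts hp.ne_zero r').1 hr', zero_mul]
  obtain ⟨_, γ, hγ⟩ := Finset.mem_filter.1 ((hev r').1 h6)
  exact ⟨γ, hγ⟩


variable [IsSepClosure (RatFunc k) Ω]

theorem rts_mul {P1 P2 : k[X]} (h : P1 * P2 ≠ 0) : (rts k (P1 * P2) : Finset Ω) = rts k P1 ∪ rts k P2 := by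
  ext r
  rw [Finset.mem_union, mem_rts h, mem_rts (left_ne_zero_of_mul h), mem_rts (right_ne_zero_of_mul h), map_mul, mul_eq_zero]

theorem rts_disj {P1 P2 : k[X]} (h : (P1 * P2).Separable) : Disjoint (rts k P1 : Finset Ω) (rts k P2) := by
  rw [Finset.disjoint_left]
  intro r h1 h2
  have h0 : P1 * P2 ≠ 0 := h.ne_zero
  have hco : IsCoprime P1 P2 := Polynomial.Separable.isCoprime h
  obtain ⟨u, v, huv⟩ := hco
  have h5 := congrArg (Polynomial.aeval r) huv
  rw [map_add, map_mul, map_mul, (mem_rts (left_ne_zero_of_mul h0) r).1 h1, (mem_rts (right_ne_zero_of_mul h0) r).1 h2,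
    map_one] at h5
  simp at h5

/-- the intersection of a quasi-stable set with the roots of a factor is quasi-stable -/
theorem inter_stable {P Q : k[X]} {S : Finset Ω} (hPQ : (rts k P : Finset Ω) ⊆ rts k Q) (γ : Gm k Ω)
    (h : S.image γ = S ∨ S.image γ = rts k Q \ S) :
    (S ∩ rts k P).image γ = S ∩ rts k P ∨ (S ∩ rts k P).image γ = rts k P \ (S ∩ rts k P) := by
  rw [Finset.image_inter _ _ γ.injective, rts_image]
  rcases h with h | h
  · left
    rw [h]
  · right
    rw [h]
    ext r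
    simp only [Finset.mem_inter, Finset.mem_sdiff]
    constructor
    · rintro ⟨⟨h1, h2⟩, h3⟩
      exact ⟨h3, fun h4 => h2 h4.1⟩
    · rintro ⟨h3, h4⟩
      exact ⟨⟨hPQ h3, fun h5 => h4 ⟨h5, h3⟩⟩, h3⟩

/-- for an irreducible polynomial of odd degree there are no nontrivial quasi-stable sets -/
theorem prim_of_odd {P : k[X]} (hP : Irreducible P) (hs : P.Separable)
    (ho : Odd P.natDegree) : Prim Ω P := by
  intro S hS hst
  have hcard : Odd (rts k P : Finset Ω).card := by rw [rts_card hs]; exact ho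
  have hstab : ∀ γ : Gm k Ω, S.image γ = S := by
    intro γ
    rcases hst γ with h | h
    · exact h
    · exfalso
      have h1 : (S.image γ).card = S.card := Finset.card_image_of_injective _ γ.injective
      rw [h, Finset.card_sdiff_of_subset hS] at h1
      have h2 := Finset.card_le_card hS
      have h3 : (rts k P : Finset Ω).card = 2 * S.card := by omega
      rw [h3] at hcard
      exact (Nat.not_odd_iff_even.2 (even_two_mul _)) hcard
  by_cases hne : S = ∅
  · exact Or.inl hne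
  · right
    obtain ⟨r, hr⟩ := Finset.nonempty_iff_ne_empty.2 hne
    apply Finset.Subset.antisymm hS
    intro r' hr'
    obtain ⟨γ, hγ⟩ := gal_transitive hP (hS hr) hr'
    rw [← hγ, ← hstab γ]
    exact Finset.mem_image_of_mem _ hr

theorem mem_pair_cases {P1 P2 : k[X]} (hsep : (P1 * P2).Separable) (h1 : Prim Ω P1) (h2 : Prim Ω P2) {S : Finset Ω}
    (hS : S ⊆ rts k (P1 * P2)) (hst : ∀ γ : Gm k Ω, S.image γ = S ∨ S.image γ = rts k (P1 * P2) \ S) :
    S = ∅ ∨ S = rts k P1 ∨ S = rts k P2 ∨ S = rts k (P1 * P2) := by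
  have hu := rts_mul (Ω := Ω) hsep.ne_zero
  have e1 := h1 (S ∩ rts k P1) Finset.inter_subset_right
    (fun γ => inter_stable (by rw [hu]; exact Finset.subset_union_left) γ (hst γ))
  have e2 := h2 (S ∩ rts k P2) Finset.inter_subset_right
    (fun γ => inter_stable (by rw [hu]; exact Finset.subset_union_right) γ (hst γ))
  have hSu : S = (S ∩ rts k P1) ∪ (S ∩ rts k P2) := by
    rw [← Finset.inter_union_distrib_left, ← hu, Finset.inter_eq_left.2 hS]
  rcases e1 with e1 | e1 <;> rcases e2 with e2 | e2 <;> rw [e1, e2] at hSu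
  · left
    rw [hSu]
    simp
  · right; right; left
    rw [hSu]
    simp
  · right; left
    rw [hSu]
    simp
  · right; right; right
    rw [hSu, hu]

theorem sub_sep_left {P1 P2 : k[X]} (h : (P1 * P2).Separable) : P1.Separable := h.of_mul_left

theorem oddPair_cases {Q : k[X]} (hQ : OddPair Q) (hsep : Q.Separable) {S : Finset Ω}
    (hS : S ⊆ rts k Q) (he : Even S.card) (hst : ∀ γ : Gm k Ω, S.image γ = S ∨ S.image γ = rts k Q \ S) :
    S = ∅ ∨ S = rts k Q := by
  obtain ⟨P1, P2, i1, i2, o1, o2, rfl⟩ := hQ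
  have s1 : P1.Separable := hsep.of_mul_left
  have s2 : P2.Separable := hsep.of_mul_right
  rcases mem_pair_cases hsep (prim_of_odd i1 s1 o1) (prim_of_odd i2 s2 o2) hS hst with h | h | h | h
  · exact Or.inl h
  · exfalso
    rw [h, rts_card s1] at he
    exact (Nat.not_odd_iff_even.2 he) o1
  · exfalso
    rw [h, rts_card s2] at he
    exact (Nat.not_odd_iff_even.2 he) o2
  · exact Or.inr h

theorem condB_of_oddPair (d : Dat k) (h : OddPair d.B) : CondB d Ω := by
  intro S hS he hst
  rcases oddPair_cases h d.sepB hS he hst with h | h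
  · exact Or.inl h
  · exact Or.inr (Or.inl h)

theorem condD_of_oddPair (d : Dat k) (h : OddPair d.D) : CondD d Ω := by
  intro S hS he hst
  rcases oddPair_cases h d.sepD hS he hst with h | h
  · exact Or.inl h
  · exact Or.inr (Or.inl h)

theorem condB_of_prim (d : Dat k) (h : Prim Ω d.B) : CondB d Ω := by
  intro S hS _ hst
  rcases h S hS hst with h | h
  · exact Or.inl h
  · exact Or.inr (Or.inl h)

theorem condD_of_prim (d : Dat k) (h : Prim Ω d.D) : CondD d Ω := by
  intro S hS _ hst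
  rcases h S hS hst with h | h
  · exact Or.inl h
  · exact Or.inr (Or.inl h)

/-- `P(t) ∏_{r ∈ roots of P} (t - r)` is a square in `K` for `P` separable. -/
theorem sq_rts (h2 : (2 : k) ≠ 0) {P : k[X]} (hs : P.Separable) : ∃ κ : Ω, (∀ g ∈ NN k Ω, g κ = κ) ∧
    κ ^ 2 = Polynomial.aeval (tt k Ω) P * ∏ r ∈ (rts k P : Finset Ω), (tt k Ω - r) := by
  haveI : IsSepClosed Ω := IsSepClosure.sep_closed (RatFunc k)
  have h2' : (2 : Ω) ≠ 0 := by
    have := (map_ne_zero (algebraMap k Ω)).2 h2
    rwa [map_ofNat] at this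
  haveI : NeZero ((2 : ℕ) : Ω) := ⟨by exact_mod_cast h2'⟩
  obtain ⟨c, hc⟩ := IsSepClosed.exists_pow_nat_eq (algebraMap k Ω P.leadingCoeff) 2
  have hca : IsAlgebraic k c := by
    refine IsAlgebraic.of_pow (n := 2) (by norm_num) ?_
    rw [hc]
    exact isAlgebraic_algebraMap _
  refine ⟨c * ∏ r ∈ (rts k P : Finset Ω), (tt k Ω - r), ?_, ?_⟩
  · intro g hg
    rw [map_mul, hg c hca, map_prod]
    congr 1
    refine Finset.prod_congr rfl fun r hr => ?_
    rw [map_sub, hg r (rts_alg hr)]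
    congr 1
    exact g.commutes _
  · rw [aeval_rts hs, mul_pow, hc]
    ring

/-- the surfaces with the section `(B₁, B₁ C)`: `A = C² - B₁ - B₂`, `B = B₁ B₂` -/
theorem condB_of_section (d : Dat k) {B1 B2 C : k[X]} (hB : d.B = B1 * B2) (hA : d.A = C ^ 2 - B1 - B2)
    (h1 : Prim Ω B1) (h2 : Prim Ω B2) : CondB d Ω := by
  intro S hS _ hst
  have hsep : (B1 * B2).Separable := hB ▸ d.sepB
  have s1 : B1.Separable := hsep.of_mul_left
  have s2 : B2.Separable := hsep.of_mul_right
  have ha : d.C.a = algebraMap k[X] (RatFunc k) C ^ 2 - algebraMap k[X] (RatFunc k) B1 - algebraMap k[X] (RatFunc k) B2 := by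
    show algebraMap k[X] (RatFunc k) d.A = _
    rw [hA, map_sub, map_sub, map_pow]
  have hb : d.C.b = algebraMap k[X] (RatFunc k) B1 * algebraMap k[X] (RatFunc k) B2 := by
    show algebraMap k[X] (RatFunc k) d.B = _
    rw [hB, map_mul]
  have hX : ∀ P : k[X], algebraMap (RatFunc k) Ω (algebraMap k[X] (RatFunc k) P) = Polynomial.aeval (tt k Ω) P := by
    intro P
    rw [tt, Polynomial.aeval_algebraMap_apply, RatFunc.aeval_X_left_eq_algebraMap]
  rw [hB] at hS hst
  rw [hB]
  rcases mem_pair_cases hsep h1 h2 hS hst with h | h | h | h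
  · exact Or.inl h
  · refine Or.inr (Or.inr ⟨algebraMap k[X] (RatFunc k) B1, algebraMap k[X] (RatFunc k) (B1 * C), ?_, ?_, ?_⟩)
    · exact (map_ne_zero_iff _ (RatFunc.algebraMap_injective k)).2 (left_ne_zero_of_mul hsep.ne_zero)
    · rw [ha, hb, map_mul]
      ring
    · rw [h, hX]
      exact sq_rts d.h2 s1
  · refine Or.inr (Or.inr ⟨algebraMap k[X] (RatFunc k) B2, algebraMap k[X] (RatFunc k) (B2 * C), ?_, ?_, ?_⟩)
    · exact (map_ne_zero_iff _ (RatFunc.algebraMap_injective k)).2 (right_ne_zero_of_mul hsep.ne_zero)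
    · rw [ha, hb, map_mul]
      ring
    · rw [h, hX]
      exact sq_rts d.h2 s2
  · exact Or.inr (Or.inl h)

end TE
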